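import Pool.Agent.P.MP_862e21_al.Basic

namespace Pool.Agent.P.MP_862e21_al

open Finset Pointwise

variable {F : Type*} [Field F] [DecidableEq F]

variable [Fintype F]

theorem cd (hp : (Fintype.card F).Prime) {X Y : Finset F} (hX : X.Nonempty) (hY : Y.Nonempty) :
    min (Fintype.card F) (X.card + Y.card - 1) ≤ (X + Y).card := by
  have h1 := cauchy_davenport_minOrder_add hX hY
  have h2 : ((Fintype.card F : ℕ) : ℕ∞) ≤ AddMonoid.minOrder F := by
    rw [AddMonoid.le_minOrder]
    intro a ha _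
    have := (Nat.dvd_prime hp).mp (addOrderOf_dvd_card (x := a))
    rcases this with e | e
    · exact absurd (AddMonoid.addOrderOf_eq_one_iff.mp e) ha
    · rw [e]
  have h3 := le_trans (min_le_min_right _ h2) h1
  simpa only [min_le_iff, Nat.cast_le] using h3

theorem add_top (hp : (Fintype.card F).Prime) (H : AddSubgroup F) : H = ⊥ ∨ H = ⊤ := by
  have : Fact (Nat.card F).Prime := ⟨by rwa [Nat.card_eq_fintype_card]⟩
  exact H.eq_bot_or_eq_top_of_prime_card

theorem irrP (hp : (Fintype.card F).Prime) : Irr F := fun H _ _ _ _ => add_top hp H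

theorem int_cast_eq (hp : (Fintype.card F).Prime) {m n : ℤ} (h : (m : F) = (n : F))
    (hlt : |m - n| < (Fintype.card F : ℤ)) : m = n := by
  have : Fact (Fintype.card F).Prime := ⟨hp⟩
  have : CharP F (Fintype.card F) := charP_of_card_eq_prime rfl
  have h1 : ((m - n : ℤ) : F) = 0 := by push_cast; rw [h]; ring
  rw [CharP.intCast_eq_zero_iff F (Fintype.card F)] at h1
  have := Int.eq_zero_of_abs_lt_dvd h1 hlt
  omega

/-- growth of the level sets -/
theorem ball_iter (hp : (Fintype.card F).Prime) {C Z : Finset F} {r : ℕ} (hZ : Z.Nonempty)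
    (hr : ∀ h ∈ Z, psi C h ≤ r) (m : ℕ) :
    min (Fintype.card F) (m * (Z.card - 1) + 1) ≤ (lev (psi C) (m * r)).card := by
  have z1 := hZ.card_pos
  have h0 : ∀ k, (lev (psi C) k).Nonempty := fun k => ⟨0, by simp [mem_lev, psi_zero]⟩
  induction m with
  | zero =>
    have := (h0 (0 * r)).card_pos
    omega
  | succ m ih =>
    have e1 := cd hp (h0 (m * r)) hZ
    have e2 : lev (psi C) (m * r) + Z ⊆ lev (psi C) ((m + 1) * r) := by
      intro w hw
      obtain ⟨x, hx, y, hy, rfl⟩ := mem_add.mp hw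
      rw [mem_lev] at hx ⊢
      have := psi_add C x y
      have := hr y hy
      nlinarith
    have e3 := card_le_card e2
    have e4 : (m + 1) * (Z.card - 1) = m * (Z.card - 1) + (Z.card - 1) := by ring
    omega

theorem ball_sym {C : Finset F} (hC : C.Nonempty) {R : ℕ} (h : 4 * R ≤ C.card) :
    3 * (lev (psi C) R).card ≤ 4 * C.card := by
  refine le_trans (Nat.mul_le_mul_left _ (card_le_card ?_)) (sym_card hC)
  intro x hx
  rw [mem_lev] at hx
  exact mem_filter.mpr ⟨mem_univ _, by omega⟩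

theorem ball_up (hp : (Fintype.card F).Prime) {C : Finset F} {R : ℕ} (h1 : 1 ≤ R)
    (h8 : 8 * R ≤ C.card) (h2 : 2 * C.card ≤ Fintype.card F) :
    (lev (psi C) R).card ≤ 12 * R := by
  have hC : C.Nonempty := card_pos.mp (by omega)
  set X := lev (psi C) R with hX
  have hXn : X.Nonempty := ⟨0, by simp [hX, mem_lev, psi_zero]⟩
  set m := C.card / (4 * R) with hm
  have m2 : 2 ≤ m := (Nat.le_div_iff_mul_le (by omega)).mpr (by omega)
  have m3 : m * (4 * R) ≤ C.card := Nat.div_mul_le_self _ _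
  have m4 : C.card < (m + 1) * (4 * R) := by
    have := Nat.lt_div_mul_add (a := C.card) (b := 4 * R) (by omega)
    nlinarith
  have e1 := ball_iter hp hXn (fun h hh => mem_lev.mp hh) m
  have e2 := ball_sym hC (R := m * R) (by nlinarith)
  have e3 : m * (X.card - 1) + 1 ≤ (lev (psi C) (m * R)).card := by omega
  have e4 : 3 * (m * (X.card - 1)) ≤ m * (32 * R) := by nlinarith
  have e5 : 3 * (X.card - 1) ≤ 32 * R := by
    have : m * (3 * (X.card - 1)) ≤ m * (32 * R) := by nlinarith
    exact Nat.le_of_mul_le_mul_left this (by omega)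
  omega

theorem ball_low (hp : (Fintype.card F).Prime) {C Z : Finset F} {r m : ℕ} (hC : C.Nonempty)
    (hZ : 2 ≤ Z.card) (hr : ∀ h ∈ Z, psi C h ≤ r) (hm : 4 * (m * r) ≤ C.card)
    (h2 : 2 * C.card ≤ Fintype.card F) : m * Z.card ≤ 2 * (lev (psi C) (m * r)).card := by
  have c1 := hC.card_pos
  have e1 := ball_iter hp (card_pos.mp (by omega)) hr m
  have e2 := ball_sym hC hm
  have e3 : m * (Z.card - 1) + 1 ≤ (lev (psi C) (m * r)).card := by omega
  have e4 : m * Z.card ≤ m * (2 * (Z.card - 1)) := Nat.mul_le_mul_left _ (by omega)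
  nlinarith

theorem transfer (hp : (Fintype.card F).Prime) {l : F} {B C D : Finset F} {u : ℕ}
    (h : Trio l B C D) (hB : B.Nonempty) (hD : D.Nonempty)
    (hu : Fintype.card F = B.card + C.card + D.card + u) {t : F} (ht : t ∈ Lam l) {x : F}
    (hx : psi C x < C.card) : psi D (t * x) ≤ psi C x + u + 1 := by
  have hs : (1 - t)⁻¹ ∈ Lam l := lam_inv h.l0 h.l1 (lam_one_sub h.l0 h.l1 ht)
  set s := (1 - t)⁻¹ with hsd
  have t1 : 1 - t ≠ 0 := sub_ne_zero.mpr (lam_ne_one h.l0 h.l1 ht).symm
  have s0 : s ≠ 0 := inv_ne_zero t1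
  have s1 : 1 - s ≠ 0 := sub_ne_zero.mpr (lam_ne_one h.l0 h.l1 hs).symm
  have e1 := h.swap12.swap23.comb_le (u := u) (by omega) hs
  set C' := C ∩ ((-x) +ᵥ C) with hC'
  have c1 : C'.card + psi C x = C.card := by
    rw [← psi_neg C x]; exact card_inter_shift C (-x)
  set D' := D ∪ ((-(t * x)) +ᵥ D) with hD'
  have d1 : D'.card = D.card + psi D (t * x) := by
    rw [← psi_neg D (t * x)]; exact card_union_shift D _
  have e2 : comb s C' D' ⊆ comb s C D := by
    intro w hw
    obtain ⟨y, hy, z, hz, rfl⟩ := mem_comb.mp hw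
    obtain ⟨hy1, hy2⟩ := mem_inter.mp hy
    rw [basic_mem_shift, neg_neg] at hy2
    rcases mem_union.mp hz with hz | hz
    · exact mem_comb.mpr ⟨y, hy1, z, hz, rfl⟩
    · rw [basic_mem_shift, neg_neg] at hz
      refine mem_comb.mpr ⟨_, hy2, _, hz, ?_⟩
      rw [hsd]; field_simp; ring
  have e3 := card_le_card e2
  have hC'n : C'.Nonempty := card_pos.mp (by omega)
  have hD'n : D'.Nonempty := hD.mono subset_union_left
  have e4 := cd hp (X := (1 - s) • C') (Y := s • D') hC'n.smul_finset hD'n.smul_finset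
  rw [card_smul_finset₀ s1, card_smul_finset₀ s0] at e4
  have b1 := hB.card_pos
  unfold comb at e3
  unfold comb at e1
  omega

theorem roughIso (hp : (Fintype.card F).Prime) {l : F} {B C D : Finset F} {u : ℕ}
    (h : Trio l B C D) (hB : B.Nonempty)
    (hu : Fintype.card F = B.card + C.card + D.card + u) (hcd : C.card ≤ D.card)
    (hsm : 2 * (u + 1) < C.card) {t t' : F} (ht : t ∈ Lam l) (ht' : t' ∈ Lam l) {x : F}
    (hx : 2 * psi C x ≤ C.card) : psi C (t * t' * x) ≤ psi C x + 2 * (u + 1) := by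
  have e1 := transfer hp h hB (card_pos.mp (by omega)) hu ht' (x := x) (by omega)
  have e2 := transfer hp h.swap23 hB (card_pos.mp (by omega)) (u := u) (by omega) ht
    (x := t' * x) (by omega)
  rw [mul_assoc]
  omega

theorem exists_pi (hp : (Fintype.card F).Prime) (h5 : 5 < Fintype.card F) {l : F} (h0 : l ≠ 0)
    (h1 : l ≠ 1) : ∃ t ∈ Lam l, ∃ t' ∈ Lam l, (t * t') ^ 2 ≠ 1 := by
  have h2 : 1 - l ≠ 0 := sub_ne_zero.mpr h1.symm
  by_cases hl : 2 * l = 1
  · refine ⟨l, self_mem_Lam l, l, self_mem_Lam l, ?_⟩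
    intro e
    have e15 : (15 : F) = 0 := by
      have : (2 * l) ^ 4 = 16 * (l * l) ^ 2 := by ring
      rw [hl, e] at this
      linear_combination -this
    have e3 : (3 : F) ≠ 0 := by
      intro e3
      have := int_cast_eq hp (m := 3) (n := 0) (by simpa using e3) (by simp; omega)
      omega
    have e5 : (5 : F) ≠ 0 := by
      intro e5
      have := int_cast_eq hp (m := 5) (n := 0) (by simpa using e5) (by simp; omega)
      omega
    exact mul_ne_zero e3 e5 (by linear_combination e15)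
  · refine ⟨l, self_mem_Lam l, (1 - l)⁻¹, by simp [Lam], ?_⟩
    intro e
    apply hl
    field_simp at e
    linear_combination e

end Pool.Agent.P.MP_862e21_al
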