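import Pool.Agent.P.MP_862e21_al.Defs

namespace Pool.Agent.P.MP_862e21_al

open Finset Pointwise

variable {F : Type*} [Field F] [DecidableEq F]

theorem psi_zero (C : Finset F) : psi C 0 = 0 := by
  simp [psi]

theorem psi_le (C : Finset F) (h : F) : psi C h ≤ C.card := card_filter_le _ _

theorem basic_split (C : Finset F) (h : F) :
    (C.filter (fun x => x + h ∈ C)).card + psi C h = C.card := by
  unfold psi
  exact card_filter_add_card_filter_not (s := C) (fun x => x + h ∈ C)

theorem psi_neg (C : Finset F) (h : F) : psi C (-h) = psi C h := by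
  have e1 := basic_split C h
  have e2 := basic_split C (-h)
  have : (C.filter (fun x => x + h ∈ C)).card = (C.filter (fun x => x + -h ∈ C)).card := by
    apply card_bij (fun x _ => x + h)
    · intro x hx
      simp only [mem_filter] at hx ⊢
      exact ⟨hx.2, by simpa using hx.1⟩
    · intro a _ b _ e
      simpa using e
    · intro y hy
      simp only [mem_filter] at hy
      exact ⟨y + -h, mem_filter.mpr ⟨hy.2, by simpa using hy.1⟩, by ring⟩
  omega

theorem psi_add (C : Finset F) (h k : F) : psi C (h + k) ≤ psi C h + psi C k := by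
  unfold psi
  have : C.filter (fun x => x + (h + k) ∉ C) ⊆ C.filter (fun x => x + h ∉ C) ∪
      (C.filter (fun x => x + k ∉ C)).image (fun y => y - h) := by
    intro x hx
    simp only [mem_filter, mem_union, mem_image] at hx ⊢
    by_cases hh : x + h ∈ C
    · right
      exact ⟨x + h, ⟨hh, by rw [add_assoc]; exact hx.2⟩, by ring⟩
    · left; exact ⟨hx.1, hh⟩
  exact le_trans (card_le_card this) (le_trans (card_union_le _ _)
    (Nat.add_le_add_left card_image_le _))

theorem basic_mem_shift {C : Finset F} {h x : F} : x ∈ h +ᵥ C ↔ x + -h ∈ C := by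
  rw [← neg_vadd_mem_iff]
  simp [add_comm]

theorem card_inter_shift (C : Finset F) (h : F) :
    (C ∩ (h +ᵥ C)).card + psi C h = C.card := by
  have e : C ∩ (h +ᵥ C) = C.filter (fun x => x + -h ∈ C) := by
    ext x; simp only [mem_inter, mem_filter, basic_mem_shift]
  rw [e, ← psi_neg C h]
  exact basic_split C (-h)

theorem card_union_shift (C : Finset F) (h : F) :
    (C ∪ (h +ᵥ C)).card = C.card + psi C h := by
  have e1 := card_union_add_card_inter C (h +ᵥ C)
  have e2 := card_inter_shift C h
  rw [card_vadd_finset] at e1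
  omega

theorem sum_inter_shift [Fintype F] (C : Finset F) :
    ∑ h : F, (C ∩ (h +ᵥ C)).card = C.card ^ 2 := by
  have e : ∀ h : F, (C ∩ (h +ᵥ C)).card = ∑ x ∈ C, if x + -h ∈ C then 1 else 0 := by
    intro h
    rw [← card_filter]
    congr 1
    ext x; simp only [mem_inter, mem_filter, basic_mem_shift]
  simp_rw [e]
  rw [sum_comm]
  have e2 : ∀ x ∈ C, (∑ h : F, if x + -h ∈ C then 1 else 0) = C.card := by
    intro x _
    rw [← card_filter]
    apply card_bij (fun h _ => x + -h)
    · intro h hh; exact (mem_filter.mp hh).2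
    · intro a _ b _ e; simpa using e
    · intro y hy
      exact ⟨x - y, mem_filter.mpr ⟨mem_univ _, by simpa using hy⟩, by ring⟩
  rw [sum_congr rfl e2]
  simp [pow_two]

theorem sym_card [Fintype F] {C : Finset F} (hC : C.Nonempty) :
    3 * (univ.filter (fun h => 4 * psi C h ≤ C.card)).card ≤ 4 * C.card := by
  have c1 := hC.card_pos
  set X := univ.filter (fun h => 4 * psi C h ≤ C.card) with hX
  have e1 : X.card * (3 * C.card) ≤ ∑ h ∈ X, 4 * (C ∩ (h +ᵥ C)).card := by
    rw [← smul_eq_mul]
    apply card_nsmul_le_sum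
    intro h hh
    have := (mem_filter.mp hh).2
    have := card_inter_shift C h
    omega
  have e2 : ∑ h ∈ X, 4 * (C ∩ (h +ᵥ C)).card ≤ 4 * C.card ^ 2 := by
    rw [← sum_inter_shift, mul_sum]
    exact sum_le_sum_of_subset (subset_univ _)
  have e3 : (3 * X.card) * C.card ≤ (4 * C.card) * C.card := by nlinarith
  exact Nat.le_of_mul_le_mul_right e3 c1

theorem psi_sum {X C : Finset F} {x x0 : F} (hx : x ∈ X) (hx0 : x0 ∈ X) :
    psi C (x - x0) + C.card ≤ (X + C).card := by
  rw [add_comm, ← card_union_shift, ← card_vadd_finset x0]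
  apply card_le_card
  intro w hw
  obtain ⟨v, hv, rfl⟩ := mem_vadd_finset.mp hw
  rcases mem_union.mp hv with hv | hv
  · exact add_mem_add hx0 hv
  · obtain ⟨z, hz, rfl⟩ := mem_vadd_finset.mp hv
    have : x0 +ᵥ ((x - x0) +ᵥ z) = x + z := by simp only [vadd_eq_add]; ring
    rw [this]; exact add_mem_add hx hz

theorem card_comb {s : F} (hs : s ≠ 0) (Y C : Finset F) :
    (comb s Y C).card = (((1 - s) / s) • Y + C).card := by
  rw [← card_smul_finset₀ hs (((1 - s) / s) • Y + C), smul_add, smul_smul,
    mul_div_cancel₀ _ hs, comb]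

theorem psi_affine {C E : Finset F} {t κ : F} (ht : t ≠ 0) (hmap : ∀ z ∈ C, t * z + κ ∈ C ∪ E)
    (h : F) : psi C (t * h) ≤ psi C h + 2 * E.card := by
  have inj : Function.Injective (fun z : F => t * z + κ) := by
    intro a b e
    simpa [ht] using e
  set G := C.image (fun z : F => t * z + κ) with hG
  have cG : G.card = C.card := card_image_of_injective _ inj
  have e1 : (G \ C).card ≤ E.card := by
    apply card_le_card
    intro w hw
    obtain ⟨hw1, hw2⟩ := mem_sdiff.mp hw
    obtain ⟨z, hz, rfl⟩ := mem_image.mp hw1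
    exact (mem_union.mp (hmap z hz)).resolve_left hw2
  have e2 : (C \ G).card ≤ E.card := by
    have a1 := card_sdiff_add_card_inter C G
    have a2 := card_sdiff_add_card_inter G C
    rw [inter_comm] at a2
    omega
  have e3 : C.filter (fun x => x + t * h ∉ C) ⊆ (C \ G) ∪
      ((C.filter (fun x => x + h ∉ C)).image (fun z => t * z + κ) ∪
        E.image (fun w => w - t * h)) := by
    intro x hx
    obtain ⟨hx1, hx2⟩ := mem_filter.mp hx
    by_cases hg : x ∈ G
    · obtain ⟨z, hz, rfl⟩ := mem_image.mp hg
      refine mem_union_right _ ?_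
      by_cases hz2 : z + h ∈ C
      · refine mem_union_right _ (mem_image.mpr ⟨t * (z + h) + κ, ?_, by ring⟩)
        refine (mem_union.mp (hmap _ hz2)).resolve_left ?_
        intro e
        exact hx2 (by convert e using 1; ring)
      · exact mem_union_left _ (mem_image.mpr ⟨z, mem_filter.mpr ⟨hz, hz2⟩, rfl⟩)
    · exact mem_union_left _ (mem_sdiff.mpr ⟨hx1, hg⟩)
  have e4 := card_le_card e3
  have e5 := card_union_le (C \ G) ((C.filter (fun x => x + h ∉ C)).image (fun z => t * z + κ) ∪
        E.image (fun w => w - t * h))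
  have e6 := card_union_le ((C.filter (fun x => x + h ∉ C)).image (fun z => t * z + κ))
        (E.image (fun w => w - t * h))
  have e7 : ((C.filter (fun x => x + h ∉ C)).image (fun z => t * z + κ)).card ≤ psi C h :=
    card_image_le
  have e8 : (E.image (fun w => w - t * h)).card ≤ E.card := card_image_le
  unfold psi at *
  omega

theorem lam_symm {l s : F} (h0 : l ≠ 0) (h1 : l ≠ 1) (hs : s ∈ Lam l) : l ∈ Lam s := by
  have h2 : 1 - l ≠ 0 := sub_ne_zero.mpr h1.symm
  have h3 : l - 1 ≠ 0 := sub_ne_zero.mpr h1
  rw [mem_Lam]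
  rcases mem_Lam.mp hs with h | h | h | h | h | h <;> subst h
  · left; rfl
  · right; left; simp
  · right; right; left; ring
  · right; right; right; right; left; field_simp; ring
  · right; right; right; left
    have : 1 - (l - 1) / l = l⁻¹ := by field_simp; ring
    rw [this, inv_inv]
  · right; right; right; right; right
    have : l / (l - 1) - 1 = (l - 1)⁻¹ := by field_simp; ring
    rw [this]; field_simp

theorem gen_pow [Fintype F] {l : F} (hg : Gen l) {m : ℕ} (hm : 1 ≤ m) (h1 : l ^ m = 1)
    (h2 : (1 - l) ^ m = 1) : Fintype.card F ≤ 2 * m + 1 := by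
  have key := hg {x | x ^ (2 * m) = 1}
    (by intro x hx; simp only [Set.mem_ofPred_eq] at hx ⊢; rw [pow_mul] at hx ⊢; simpa using hx)
    (by
      intro x hx; simp only [Set.mem_ofPred_eq] at hx ⊢
      rw [mul_pow, hx, mul_comm 2 m, pow_mul, h1]; simp)
    (by
      intro x hx; simp only [Set.mem_ofPred_eq] at hx ⊢
      rw [mul_pow, hx, mul_comm 2 m, pow_mul, h2]; simp)
    ⟨1, by simp, one_ne_zero⟩
  have hsub : univ.erase (0 : F) ⊆ Polynomial.nthRootsFinset (2 * m) (1 : F) := by
    intro y hy
    rw [Polynomial.mem_nthRootsFinset (by omega)]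
    exact key y (ne_of_mem_erase hy)
  have e1 := card_le_card hsub
  have e2 : (Polynomial.nthRootsFinset (2 * m) (1 : F)).card ≤ 2 * m := by
    rw [Polynomial.nthRootsFinset_def]
    exact le_trans (Multiset.toFinset_card_le _) (Polynomial.card_nthRoots _ _)
  rw [card_erase_of_mem (mem_univ _), card_univ] at e1
  omega

theorem single [Fintype F] {l : F} {A B C : Finset F} (h : Cl l A B C) (hg : Gen l)
    (ha : A.card = 1) (hb : B.card = 1) (hd : A.card + B.card + C.card ≤ Fintype.card F) :
    False := by
  obtain ⟨x, hx⟩ := h.nA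
  obtain ⟨D, hT, hu⟩ := h.chart hx
  have eB := card_ch x B
  have eC := card_ch x C
  set B' := ch x B
  set C' := ch x C
  obtain ⟨β, hβ⟩ := card_eq_one.mp (eB.trans hb)
  have hβB : β ∈ B' := by rw [hβ]; exact mem_singleton_self _
  have hc : Dᶜ = B' ∪ C' := by
    symm
    apply eq_of_subset_of_card_le
    · intro v hv
      rw [mem_compl]
      rcases mem_union.mp hv with hv | hv
      · exact disjoint_left.mp hT.dBD hv
      · exact disjoint_left.mp hT.dCD hv
    · rw [card_compl, card_union_of_disjoint hT.dBC]; omega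
  have hne : ∀ z ∈ C', z - β ≠ 0 := by
    intro z hz e
    exact disjoint_left.mp hT.dBC hβB (by rw [← sub_eq_zero.mp e]; exact hz)
  have step : ∀ s ∈ Lam l, ∀ v, β + v ∈ C' → β + s * v ∈ C' := by
    intro s hs v hv
    have e1 := hT.sc s hs β hβB _ hv
    have e2 : (1 - s) * β + s * (β + v) = β + s * v := by ring
    rw [e2, ← mem_compl, hc, mem_union] at e1
    refine e1.resolve_left ?_
    rw [hβ, mem_singleton]
    intro e
    have v0 := hne _ hv
    have s0 := lam_ne_zero h.l0 h.l1 hs
    have : s * v = 0 := by linear_combination e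
    rcases mul_eq_zero.mp this with e | e
    · exact s0 e
    · exact v0 (by rw [e]; ring)
  have h2 : 1 - l ≠ 0 := sub_ne_zero.mpr h.l1.symm
  have l0 := h.l0
  obtain ⟨z0, hz0⟩ : C'.Nonempty := by
    rw [← card_pos, eC]; exact h.nC.card_pos
  have key := hg {v | β + v ∈ C'}
    (by
      intro v hv
      have := step l (self_mem_Lam l) _ (step (1 - l)⁻¹ (by simp [Lam]) _
        (step ((l - 1) / l) (by simp [Lam]) v hv))
      have e : l * ((1 - l)⁻¹ * ((l - 1) / l * v)) = -v := by field_simp; ring
      rwa [e] at this)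
    (fun v hv => step l (self_mem_Lam l) v hv)
    (fun v hv => step (1 - l) (by simp [Lam]) v hv)
    ⟨z0 - β, by simpa using hz0, hne z0 hz0⟩
  have hsub : (univ.erase (0 : F)).image (fun v => β + v) ⊆ C' := by
    intro w hw
    obtain ⟨v, hv, rfl⟩ := mem_image.mp hw
    exact key v (ne_of_mem_erase hv)
  have e1 := card_le_card hsub
  rw [card_image_of_injective _ (add_right_injective β), card_erase_of_mem (mem_univ _),
    card_univ] at e1
  omega

end Pool.Agent.P.MP_862e21_al
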