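import Pool.Agent.P.MP_862e21_al.Good

namespace Pool.Agent.P.MP_862e21_al

open Finset Pointwise

variable {F : Type*} [Field F] [DecidableEq F]

theorem bkt_cs {α β : Type*} [DecidableEq β] (s : Finset α) (t : Finset β) (f : α → β)
    (h : ∀ a ∈ s, f a ∈ t) :
    s.card ^ 2 ≤ t.card * ((s ×ˢ s).filter fun p => f p.1 = f p.2).card := by
  have h1 : s.card = ∑ b ∈ t, (s.filter fun a => f a = b).card :=
    card_eq_sum_card_fiberwise fun a ha => mem_coe.2 (h a (mem_coe.1 ha))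
  have h2 : ((s ×ˢ s).filter fun p => f p.1 = f p.2).card =
      ∑ b ∈ t, (s.filter fun a => f a = b).card ^ 2 := by
    rw [card_eq_sum_card_fiberwise (f := fun p => f p.1) (t := t)
      fun p hp => mem_coe.2 (h _ (mem_product.1 (mem_filter.1 (mem_coe.1 hp)).1).1)]
    refine sum_congr rfl fun b _ => ?_
    rw [sq, ← card_product]
    congr 1
    ext p
    simp only [mem_filter, mem_product]
    constructor
    · rintro ⟨⟨⟨a1, a2⟩, a3⟩, a4⟩
      exact ⟨⟨a1, a4⟩, a2, a3 ▸ a4⟩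
    · rintro ⟨⟨a1, a4⟩, a2, a3⟩
      exact ⟨⟨⟨a1, a2⟩, a4.trans a3.symm⟩, a4⟩
  rw [h2, h1]
  exact sq_sum_le_card_mul_sum_sq

theorem bkt_mem {M : Finset F} {ξ : F} {p : F × F} (hp : p ∈ M ×ˢ M) :
    p.1 + ξ * p.2 ∈ M + ξ • M :=
  add_mem_add (mem_product.1 hp).1 (smul_mem_smul_finset (mem_product.1 hp).2)

theorem bkt_avg [Fintype F] (M : Finset F) :
    ∃ ξ : F, min (M.card ^ 2) (Fintype.card F) ≤ 2 * (M + ξ • M).card := by
  obtain ⟨P, hP⟩ : ∃ P, P = M ×ˢ M := ⟨_, rfl⟩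
  have hPc : P.card = M.card ^ 2 := by rw [hP, card_product, sq]
  obtain ⟨N, hN⟩ : ∃ N : F → ℕ, ∀ ξ, N ξ =
    ((P ×ˢ P).filter fun w => w.1.1 + ξ * w.1.2 = w.2.1 + ξ * w.2.2).card := ⟨_, fun _ => rfl⟩
  have h1 : ∑ ξ : F, Fintype.card F * N ξ ≤
      ∑ _ξ : F, (Fintype.card F * P.card + P.card ^ 2) := by
    rw [← mul_sum, sum_const, card_univ, smul_eq_mul]
    refine Nat.mul_le_mul_left _ ?_
    have e1 : ∑ ξ : F, N ξ = ∑ w ∈ P ×ˢ P,
        (univ.filter fun ξ : F => w.1.1 + ξ * w.1.2 = w.2.1 + ξ * w.2.2).card := by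
      simp only [hN, card_filter]
      exact sum_comm
    have e2 : ∀ w ∈ P ×ˢ P,
        (univ.filter fun ξ : F => w.1.1 + ξ * w.1.2 = w.2.1 + ξ * w.2.2).card ≤
          (if w.1 = w.2 then Fintype.card F else 0) + 1 := by
      intro w _
      split_ifs with hw
      · exact (card_le_univ _).trans (Nat.le_succ _)
      · refine (card_le_one.2 fun a ha b hb => ?_).trans (by omega)
        have a1 := (mem_filter.1 ha).2
        have a2 := (mem_filter.1 hb).2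
        by_contra hab
        have a3 : w.1.2 = w.2.2 :=
          mul_left_cancel₀ (sub_ne_zero.2 hab) (by linear_combination a1 - a2)
        rw [a3] at a1
        exact hw (Prod.ext (add_right_cancel a1) a3)
    rw [e1]
    refine (sum_le_sum e2).trans ?_
    rw [sum_add_distrib, sum_const, card_product, smul_eq_mul, mul_one, sq, sum_product]
    refine Nat.add_le_add_right (le_of_eq ?_) _
    rw [mul_comm, ← smul_eq_mul, ← sum_const]
    exact sum_congr rfl fun a ha => by simp [ha]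
  obtain ⟨ξ, -, h2⟩ := exists_le_of_sum_le univ_nonempty h1
  refine ⟨ξ, ?_⟩
  have h3 := bkt_cs P (M + ξ • M) (fun p => p.1 + ξ * p.2) fun p hp => bkt_mem (hP ▸ hp)
  rw [← hN] at h3
  rw [← hPc]
  obtain ⟨S, hS⟩ : ∃ S, S = (M + ξ • M).card := ⟨_, rfl⟩
  obtain ⟨q, hq⟩ : ∃ q, q = Fintype.card F := ⟨_, rfl⟩
  obtain ⟨a, ha⟩ : ∃ a, a = P.card := ⟨_, rfl⟩
  rw [← hS, ← ha] at h3
  rw [← hq, ← ha] at h2
  rw [← hS, ← hq, ← ha]
  by_contra hc
  rw [not_le, lt_min_iff] at hc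
  have h4 : a * (q * a) ≤ a * (S * (q + a)) := by
    calc a * (q * a) = q * a ^ 2 := by ring
      _ ≤ q * (S * N ξ) := Nat.mul_le_mul_left _ h3
      _ = S * (q * N ξ) := by ring
      _ ≤ S * (q * a + a ^ 2) := Nat.mul_le_mul_left _ h2
      _ = _ := by ring
  have h5 := Nat.le_of_mul_le_mul_left h4 (by omega)
  nlinarith [hc.1, hc.2]

theorem bkt [Fintype F] (hI : Irr F) {M : Finset F} (h3 : 3 ≤ M.card) :
    ∃ r r' : F, Ratio M r ∧ Ratio M r' ∧ ∃ ξ : F, (ξ = r ∨ ξ = r + r' ∨ ξ = r * r') ∧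
      min (M.card ^ 2) (Fintype.card F) ≤ 2 * (M + ξ • M).card := by
  by_cases hall : ∀ r, Ratio M r
  · obtain ⟨ξ, hξ⟩ := bkt_avg M
    exact ⟨ξ, ξ, hall ξ, hall ξ, ξ, Or.inl rfl, hξ⟩
  have hex : ∃ r r', Ratio M r ∧ Ratio M r' ∧ ∃ ξ : F, (ξ = r + r' ∨ ξ = r * r') ∧
      ¬ Ratio M ξ := by
    by_contra hn
    have hcl : ∀ r r', Ratio M r → Ratio M r' → Ratio M (r + r') ∧ Ratio M (r * r') :=
      fun r r' a1 a2 => ⟨by_contra fun a3 => hn ⟨r, r', a1, a2, _, Or.inl rfl, a3⟩,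
        by_contra fun a3 => hn ⟨r, r', a1, a2, _, Or.inr rfl, a3⟩⟩
    obtain ⟨x, y, z, hx, hy, hz, hxy, hxz, hyz⟩ := two_lt_card_iff.1 (show 2 < M.card from h3)
    let H : AddSubgroup F :=
      { carrier := {r | Ratio M r}
        add_mem' := fun {a b} ha hb => (hcl a b ha hb).1
        zero_mem' := ⟨x, hx, x, hx, y, hy, z, hz, hyz, by simp⟩
        neg_mem' := by
          rintro r ⟨a, ha, b, hb, c, hc, d, hd, e, rfl⟩
          exact ⟨b, hb, a, ha, c, hc, d, hd, e, by ring⟩ }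
    have ht : Ratio M ((x - z) / (y - z)) := ⟨x, hx, z, hz, y, hy, z, hz, hyz, rfl⟩
    have yz := sub_ne_zero.2 hyz
    have t0 : (x - z) / (y - z) ≠ 0 := div_ne_zero (sub_ne_zero.2 hxz) yz
    have t1 : (x - z) / (y - z) ≠ 1 := fun e => hxy (by
      rw [div_eq_one_iff_eq yz] at e
      linear_combination e)
    rcases hI H _ t0 t1 (fun a ha => (hcl _ a ht ha).2) with e | e
    · exact t0 (AddSubgroup.mem_bot.1 (e ▸ (show (x - z) / (y - z) ∈ H from ht)))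
    · exact hall fun r => (show r ∈ H from e ▸ AddSubgroup.mem_top r)
  obtain ⟨r, r', a1, a2, ξ, a3, a4⟩ := hex
  refine ⟨r, r', a1, a2, ξ, Or.inr a3, (min_le_left _ _).trans ?_⟩
  have h1 : (M ×ˢ M).card ≤ (M + ξ • M).card := by
    refine card_le_card_of_injOn (fun p => p.1 + ξ * p.2)
      (fun p hp => mem_coe.2 (bkt_mem (mem_coe.1 hp))) fun p hp p' hp' e => ?_
    have e : p.1 + ξ * p.2 = p'.1 + ξ * p'.2 := e
    obtain ⟨b1, b2⟩ := mem_product.1 (mem_coe.1 hp)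
    obtain ⟨b3, b4⟩ := mem_product.1 (mem_coe.1 hp')
    have e2 : p'.2 = p.2 := by
      by_contra e3
      refine a4 ⟨_, b1, _, b3, _, b4, _, b2, e3, ?_⟩
      rw [eq_div_iff (sub_ne_zero.2 e3)]
      linear_combination -e
    rw [e2] at e
    exact Prod.ext (add_right_cancel e) e2.symm
  rw [card_product, ← sq] at h1
  omega

theorem bkt_rounds (K : ℕ) : ∃ K' : ℕ, ∀ (F : Type) [Field F] [DecidableEq F] (C M : Finset F),
    C.Nonempty → Good K C 1 → (∀ m ∈ M, Good K C m) → ∀ r r' ξ : F, Ratio M r → Ratio M r' →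
      (ξ = r ∨ ξ = r + r' ∨ ξ = r * r') → ∀ v ∈ M + ξ • M, Good K' C v := by
  obtain ⟨K1, e1⟩ : ∃ K1, K1 = K ^ 11 := ⟨_, rfl⟩
  obtain ⟨K2, e2⟩ : ∃ K2, K2 = K1 ^ 11 := ⟨_, rfl⟩
  obtain ⟨K3, e3⟩ : ∃ K3, K3 = K2 ^ 11 := ⟨_, rfl⟩
  obtain ⟨K4, e4⟩ : ∃ K4, K4 = K3 ^ 11 := ⟨_, rfl⟩
  have l1 : K ≤ K1 := e1 ▸ Nat.le_self_pow (by norm_num) _
  have l2 : K1 ≤ K2 := e2 ▸ Nat.le_self_pow (by norm_num) _
  have l3 : K2 ≤ K3 := e3 ▸ Nat.le_self_pow (by norm_num) _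
  have l4 : K3 ≤ K4 := e4 ▸ Nat.le_self_pow (by norm_num) _
  refine ⟨K4 ^ 11, fun F _ _ C M hC h1 hM r r' ξ hr hr' hξ v hv => ?_⟩
  have g2 : ∀ r, Ratio M r → Good K2 C r := by
    rintro r ⟨x, hx, y, hy, z, hz, w, hw, -, rfl⟩
    have a1 := (good_ops hC h1 (hM x hx) (hM y hy)).2.1
    have a2 := (good_ops hC h1 (hM z hz) (hM w hw)).2.1
    rw [← e1] at a1 a2
    exact e2 ▸ (good_ops hC (h1.mono l1) a1 a2).2.2.2
  have g3 : Good K3 C ξ := by
    have a1 := good_ops hC (h1.mono (l1.trans l2)) (g2 r hr) (g2 r' hr')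
    rw [← e3] at a1
    rcases hξ with rfl | rfl | rfl
    · exact (g2 _ hr).mono l3
    · exact a1.1
    · exact a1.2.2.1
  obtain ⟨x, hx, _, hy, rfl⟩ := mem_add.1 hv
  obtain ⟨y, hy', rfl⟩ := mem_smul_finset.1 hy
  have l13 : K ≤ K3 := l1.trans (l2.trans l3)
  have g4 := (good_ops hC (h1.mono l13) g3 ((hM y hy').mono l13)).2.2.1
  rw [← e4] at g4
  exact (good_ops hC (h1.mono (l13.trans l4)) ((hM x hx).mono (l13.trans l4)) g4).1

theorem spEnd (K : ℕ) : ∃ k0 N : ℕ, ∀ (F : Type) [Field F] [Fintype F] [DecidableEq F],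
    Irr F → ∀ (C M : Finset F), Good K C 1 → (∀ m ∈ M, Good K C m) → C.card ≤ K * M.card →
      k0 ≤ C.card → Fintype.card F ≤ N * C.card := by
  obtain ⟨K', hK'⟩ := bkt_rounds K
  refine ⟨4 * K' * K ^ 2 + 2 * K' + 3 * K + 1, 4 * K', fun F _ _ _ hI C M h1 hM hc hk => ?_⟩
  have hC : C.Nonempty := card_pos.1 (by omega)
  have h3 : 3 ≤ M.card := by
    by_contra h4
    have := Nat.mul_le_mul_left K (show M.card ≤ 3 by omega)
    omega
  obtain ⟨r, r', a1, a2, ξ, a3, a4⟩ := bkt hI h3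
  have a5 := good_count hC (by omega) _ (hK' F C M hC h1 hM r r' ξ a1 a2 a3)
  have a6 : min (M.card ^ 2) (Fintype.card F) ≤ 4 * K' * C.card :=
    a4.trans ((Nat.mul_le_mul_left 2 a5).trans (le_of_eq (by ring)))
  rcases min_le_iff.1 a6 with a7 | a7
  · exfalso
    have b1 : C.card * C.card ≤ (4 * K' * K ^ 2) * C.card := by
      calc C.card * C.card ≤ (K * M.card) * (K * M.card) := Nat.mul_le_mul hc hc
        _ = K ^ 2 * M.card ^ 2 := by ring
        _ ≤ K ^ 2 * (4 * K' * C.card) := Nat.mul_le_mul_left _ a7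
        _ = _ := by ring
    have b2 := Nat.le_of_mul_le_mul_right b1 (card_pos.2 hC)
    omega
  · exact a7

end Pool.Agent.P.MP_862e21_al
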