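import Pool.Agent.P.MP_862e21_al.Basic

namespace Pool.Agent.P.MP_862e21_al

open Finset Pointwise

variable {F : Type*} [Field F] [DecidableEq F]

open OnePoint

/-- the four base points with cross ratio `c` -/
def base [DecidableEq (OnePoint F)] (c : F) : Finset (OnePoint F) :=
  {∞, ((0 : F) : OnePoint F), ((1 : F) : OnePoint F), (c : OnePoint F)}

theorem bridge1_mk {a b c d : F} (h : a * d - b * c ≠ 0) :
    ∃ M : GL (Fin 2) F, M • (∞ : OnePoint F) = (if c = 0 then ∞ else ((a / c : F) : OnePoint F)) ∧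
      ∀ k : F, M • (k : OnePoint F) =
        if c * k + d = 0 then ∞ else (((a * k + b) / (c * k + d) : F) : OnePoint F) := by
  refine ⟨Matrix.GeneralLinearGroup.mkOfDetNeZero !![a, b; c, d] (by simpa [Matrix.det_fin_two] using h),
    ?_, fun k => ?_⟩
  · rw [smul_infty_eq_ite]; simp
  · rw [smul_some_eq_ite]; simp

theorem frame {x y z : F} (hxy : x ≠ y) (hxz : x ≠ z) (hyz : y ≠ z) :
    ∃ M : GL (Fin 2) F, M • (∞ : OnePoint F) = (x : OnePoint F) ∧
      M • ((0 : F) : OnePoint F) = (y : OnePoint F) ∧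
      M • ((1 : F) : OnePoint F) = (z : OnePoint F) ∧
      ∀ s p : F, M • (s : OnePoint F) = (p : OnePoint F) →
        (p - y) * (z - x) = s * (z - y) * (p - x) := by
  have a1 : z - y ≠ 0 := sub_ne_zero.mpr hyz.symm
  have a2 : x - z ≠ 0 := sub_ne_zero.mpr hxz
  have a3 : x - y ≠ 0 := sub_ne_zero.mpr hxy
  obtain ⟨M, m1, m2⟩ := bridge1_mk (a := x * (z - y)) (b := y * (x - z)) (c := z - y) (d := x - z)
    (by
      have : x * (z - y) * (x - z) - y * (x - z) * (z - y) = (z - y) * (x - z) * (x - y) := by ring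
      rw [this]; exact mul_ne_zero (mul_ne_zero a1 a2) a3)
  refine ⟨M, ?_, ?_, ?_, ?_⟩
  · rw [m1, if_neg a1]; congr 1; field_simp
  · rw [m2, if_neg (by simpa using a2)]; congr 1
    simp only [mul_zero, zero_add]; field_simp
  · have : (z - y) * 1 + (x - z) = x - y := by ring
    rw [m2, this, if_neg a3]; congr 1; field_simp; ring
  · intro s p h
    rw [m2] at h
    split_ifs at h with h0
    · exact absurd h (infty_ne_coe p)
    · have e := coe_injective h
      rw [div_eq_iff h0] at e
      linear_combination e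

theorem bridge1_aff {a b : F} (hab : a ≠ b) : ∃ M : GL (Fin 2) F, M • (∞ : OnePoint F) = ∞ ∧
    M • ((0 : F) : OnePoint F) = (a : OnePoint F) ∧ M • ((1 : F) : OnePoint F) = (b : OnePoint F) := by
  obtain ⟨M, m1, m2⟩ := bridge1_mk (a := b - a) (b := a) (c := 0) (d := 1)
    (by simpa using sub_ne_zero.mpr hab.symm)
  refine ⟨M, by simp [m1], by simp [m2], by simp [m2]⟩

theorem bridge1_move (w : OnePoint F) : ∃ N : GL (Fin 2) F, N • (∞ : OnePoint F) = w := by
  induction w using OnePoint.rec with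
  | infty => exact ⟨1, one_smul _ _⟩
  | coe a =>
    obtain ⟨M, m1, -⟩ := bridge1_mk (a := a) (b := 1) (c := 1) (d := 0) (by simp)
    exact ⟨M, by simp [m1]⟩

theorem bridge1_fin {v : OnePoint F} (h : v ≠ ∞) : ∃ a : F, v = (a : OnePoint F) := by
  induction v using OnePoint.rec with
  | infty => exact absurd rfl h
  | coe a => exact ⟨a, rfl⟩

theorem three_trans [DecidableEq (OnePoint F)] (S : Finset (OnePoint F)) (hS : S.card = 4) :
    ∃ (M : GL (Fin 2) F) (c : F), c ≠ 0 ∧ c ≠ 1 ∧ S = (base c).image (fun x => M • x) := by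
  obtain ⟨p, hp⟩ : S.Nonempty := card_pos.mp (by omega)
  have h3 : (S.erase p).card = 3 := by rw [card_erase_of_mem hp, hS]
  obtain ⟨x, y, z, xy, xz, yz, e⟩ := card_eq_three.mp h3
  have hx : x ≠ p := ne_of_mem_erase (by rw [e]; simp : x ∈ S.erase p)
  have hy : y ≠ p := ne_of_mem_erase (by rw [e]; simp : y ∈ S.erase p)
  have hz : z ≠ p := ne_of_mem_erase (by rw [e]; simp : z ∈ S.erase p)
  obtain ⟨N, hN⟩ := bridge1_move p
  have k : ∀ (M : GL (Fin 2) F) {v w u : OnePoint F}, M • u = w → v ≠ w → M⁻¹ • v ≠ u := by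
    intro M v w u h1 h2 h3
    apply h2
    rw [← h1, ← h3, smul_inv_smul]
  obtain ⟨a, ha⟩ := bridge1_fin (k N hN hx)
  obtain ⟨b, hb⟩ := bridge1_fin (k N hN hy)
  have ab : a ≠ b := by
    intro h
    apply xy
    rw [h, ← hb] at ha
    exact MulAction.injective _ ha
  obtain ⟨M, m1, m2, m3⟩ := bridge1_aff ab
  have n1 : (N * M) • (∞ : OnePoint F) = p := by rw [mul_smul, m1, hN]
  have n2 : (N * M) • ((0 : F) : OnePoint F) = x := by rw [mul_smul, m2, ← ha, smul_inv_smul]
  have n3 : (N * M) • ((1 : F) : OnePoint F) = y := by rw [mul_smul, m3, ← hb, smul_inv_smul]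
  obtain ⟨c, hc⟩ := bridge1_fin (k (N * M) n1 hz)
  have n4 : (N * M) • (c : OnePoint F) = z := by rw [← hc, smul_inv_smul]
  refine ⟨N * M, c, ?_, ?_, ?_⟩
  · rintro rfl; exact xz (n2.symm.trans n4)
  · rintro rfl; exact yz (n3.symm.trans n4)
  · rw [← insert_erase hp, e]
    simp only [base, image_insert, image_singleton, n1, n2, n3, n4]

theorem base_lam [DecidableEq (OnePoint F)] {c s : F} (h0 : c ≠ 0) (h1 : c ≠ 1) (hs : s ∈ Lam c) :
    ∃ M : GL (Fin 2) F, base s = (base c).image (fun x => M • x) := by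
  have h2 : 1 - c ≠ 0 := sub_ne_zero.mpr h1.symm
  have h3 : c - 1 ≠ 0 := sub_ne_zero.mpr h1
  have h4 : -c + 1 ≠ 0 := by rw [add_comm, ← sub_eq_add_neg]; exact h2
  have h5 : c + -1 ≠ 0 := by rw [← sub_eq_add_neg]; exact h3
  rcases mem_Lam.mp hs with h | h | h | h | h | h <;> subst h
  · exact ⟨1, by simp⟩
  · obtain ⟨M, m1, m2⟩ := bridge1_mk (a := (0 : F)) (b := 1) (c := 1) (d := 0) (by simp)
    refine ⟨M, ?_⟩
    ext v
    simp only [base, image_insert, image_singleton, m1, m2, mem_insert, mem_singleton]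
    simp [h0]; tauto
  · obtain ⟨M, m1, m2⟩ := bridge1_mk (a := (-1 : F)) (b := 1) (c := 0) (d := 1) (by simp)
    refine ⟨M, ?_⟩
    ext v
    simp only [base, image_insert, image_singleton, m1, m2, mem_insert, mem_singleton]
    have : 1 - c = -c + 1 := by ring
    simp [this]; tauto
  · obtain ⟨M, m1, m2⟩ := bridge1_mk (a := (0 : F)) (b := 1) (c := -1) (d := 1) (by simp)
    refine ⟨M, ?_⟩
    ext v
    simp only [base, image_insert, image_singleton, m1, m2, mem_insert, mem_singleton]
    have : 1 - c = -c + 1 := by ring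
    simp [this, h4]; tauto
  · obtain ⟨M, m1, m2⟩ := bridge1_mk (a := (1 : F)) (b := -1) (c := 1) (d := 0) (by simp)
    refine ⟨M, ?_⟩
    ext v
    simp only [base, image_insert, image_singleton, m1, m2, mem_insert, mem_singleton]
    have : c - 1 = c + -1 := by ring
    simp [this, h0]; tauto
  · obtain ⟨M, m1, m2⟩ := bridge1_mk (a := (1 : F)) (b := 0) (c := 1) (d := -1) (by simp)
    refine ⟨M, ?_⟩
    ext v
    simp only [base, image_insert, image_singleton, m1, m2, mem_insert, mem_singleton]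
    have : c - 1 = c + -1 := by ring
    simp [this, h5]; tauto

theorem sl_two [Fintype F] (h2 : (2 : F) = 0) (M : GL (Fin 2) F) :
    ∃ M' : GL (Fin 2) F, Matrix.GeneralLinearGroup.det M' = 1 ∧
      ∀ x : OnePoint F, M' • x = M • x := by
  have sq : Function.Surjective (fun x : F => x * x) := by
    apply Finite.surjective_of_injective
    intro a b e
    have : (a - b) ^ 2 = 0 := by
      simp only at e
      linear_combination e + (b * b - a * b) * h2
    exact sub_eq_zero.mp (pow_eq_zero_iff (two_ne_zero) |>.mp this)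
  have hd : (M : Matrix (Fin 2) (Fin 2) F).det ≠ 0 := M.det_ne_zero
  obtain ⟨δ, hδ⟩ := sq ((M : Matrix (Fin 2) (Fin 2) F).det)⁻¹
  simp only at hδ
  have δ0 : δ ≠ 0 := by
    rintro rfl
    exact inv_ne_zero hd (by simpa using hδ.symm)
  have e1 : (δ • (M : Matrix (Fin 2) (Fin 2) F)).det = 1 := by
    rw [Matrix.det_smul, Fintype.card_fin, pow_two, hδ, inv_mul_cancel₀ hd]
  refine ⟨Matrix.GeneralLinearGroup.mkOfDetNeZero (δ • (M : Matrix (Fin 2) (Fin 2) F))
    (by rw [e1]; exact one_ne_zero), ?_, ?_⟩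
  · ext
    simpa using e1
  · intro x
    induction x using OnePoint.rec with
    | infty =>
      rw [smul_infty_eq_ite, smul_infty_eq_ite]
      simp [δ0, mul_div_mul_left _ _ δ0]
    | coe k =>
      rw [smul_some_eq_ite, smul_some_eq_ite]
      have a1 : ∀ a b : F, δ * a * k + δ * b = δ * (a * k + b) := fun a b => by ring
      simp [δ0, a1, mul_div_mul_left _ _ δ0]

theorem gen_of_closure [Fintype F] {c c' : Fˣ} (h : (c : F) + c' = 1)
    (ht : Subgroup.closure ({-1, c, c'} : Set Fˣ) = ⊤) : Gen (c : F) := by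
  intro S s1 s2 s3 ⟨x, hx, x0⟩ y y0
  let T : Submonoid Fˣ :=
    { carrier := {g | ∀ v ∈ S, (g : F) * v ∈ S}
      one_mem' := by intro v hv; simpa using hv
      mul_mem' := by
        intro a b ha hb v hv
        have := ha _ (hb v hv)
        simpa [mul_assoc] using this }
  have key : ∀ g : Fˣ, g ∈ T := by
    intro g
    have hg : g ∈ Subgroup.closure ({-1, c, c'} : Set Fˣ) := by rw [ht]; trivial
    induction hg using Subgroup.closure_induction with
    | mem g hg =>
      rcases hg with rfl | rfl | rfl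
      · intro v hv; simpa using s1 v hv
      · exact s2
      · intro v hv
        have : (g : F) = 1 - c := by linear_combination h
        rw [this]; exact s3 v hv
    | one => exact T.one_mem
    | mul a b _ _ ha hb => exact T.mul_mem ha hb
    | inv a _ ha =>
      have : a⁻¹ = a ^ (orderOf a - 1) := by
        have o := orderOf_pos a
        rw [eq_comm, ← mul_eq_one_iff_eq_inv, ← pow_succ, Nat.sub_add_cancel o, pow_orderOf_eq_one]
      rw [this]; exact T.pow_mem ha _
  have := key (Units.mk0 (y / x) (div_ne_zero y0 x0)) x hx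
  simpa [div_mul_cancel₀ y x0] using this

end Pool.Agent.P.MP_862e21_al
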