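import Pool.Agent.P.MP_862e21_al.Bridge1

namespace Pool.Agent.P.MP_862e21_al

open Finset Pointwise

variable {F : Type*} [Field F] [DecidableEq F]

open OnePoint

theorem bridge2_one {Ω : Type*} [DecidableEq Ω] {X : Finset Ω} {x y z w : Ω} (hx : x ∈ X)
    (hy : y ∉ X) (hz : z ∉ X) (hw : w ∉ X) {S : Finset Ω}
    (hS : ∀ v, v ∈ S ↔ v = x ∨ v = y ∨ v = z ∨ v = w) : (X ∩ S).card = 1 := by
  rw [card_eq_one]
  refine ⟨x, ?_⟩
  ext v
  simp only [mem_inter, hS, mem_singleton]
  constructor
  · rintro ⟨h1, rfl | rfl | rfl | rfl⟩ <;> first | rfl | contradiction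
  · rintro rfl; exact ⟨hx, Or.inl rfl⟩

theorem bridge2_inf [Fintype F] [DecidableEq (OnePoint F)] {c : F} (h0 : c ≠ 0) (h1 : c ≠ 1)
    (hcore : ∀ A B C : Finset F, Cl c A B C → A.card ≤ B.card → B.card ≤ C.card →
      A.card + B.card + 2 * C.card ≤ Fintype.card F + 1 → False)
    {X Y Z W : Finset (OnePoint F)} (nX : X.Nonempty) (dXY : Disjoint X Y) (dXZ : Disjoint X Z)
    (dXW : Disjoint X W) (dYZ : Disjoint Y Z) (dYW : Disjoint Y W) (dZW : Disjoint Z W)
    (hall : ∀ v, v ∈ X ∨ v ∈ Y ∨ v ∈ Z ∨ v ∈ W) (cXY : X.card ≤ Y.card) (cYZ : Y.card ≤ Z.card)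
    (cZW : Z.card ≤ W.card) (hinf : ∞ ∈ W) :
    ∃ M : GL (Fin 2) F, (X ∩ (base c).image (fun x => M • x)).card = 1 ∧
      (Y ∩ (base c).image (fun x => M • x)).card = 1 ∧
      (Z ∩ (base c).image (fun x => M • x)).card = 1 ∧
      (W ∩ (base c).image (fun x => M • x)).card = 1 := by
  by_contra hno
  have pre : ∀ T : Finset (OnePoint F), Disjoint T W →
      (univ.filter (fun a : F => (a : OnePoint F) ∈ T)).card = T.card := by
    intro T hT
    apply card_bij (fun (a : F) _ => (a : OnePoint F))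
    · intro a ha; exact (mem_filter.mp ha).2
    · intro a _ b _ e; exact OnePoint.coe_injective e
    · intro v hv
      induction v using OnePoint.rec with
      | infty => exact absurd hinf (disjoint_left.mp hT hv)
      | coe a => exact ⟨a, mem_filter.mpr ⟨mem_univ _, hv⟩, rfl⟩
  have dj : ∀ T T' : Finset (OnePoint F), Disjoint T T' →
      Disjoint (univ.filter (fun a : F => (a : OnePoint F) ∈ T))
        (univ.filter (fun a : F => (a : OnePoint F) ∈ T')) := by
    intro T T' h
    rw [disjoint_left]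
    intro a ha ha'
    exact disjoint_left.mp h (mem_filter.mp ha).2 (mem_filter.mp ha').2
  have eX := pre X dXW
  have eY := pre Y dYW
  have eZ := pre Z dZW
  have x1 := nX.card_pos
  have htot : X.card + Y.card + Z.card + W.card ≤ Fintype.card F + 1 := by
    have e := card_le_univ (X ∪ Y ∪ Z ∪ W)
    rw [card_union_of_disjoint (disjoint_union_left.mpr ⟨disjoint_union_left.mpr ⟨dXW, dYW⟩, dZW⟩),
      card_union_of_disjoint (disjoint_union_left.mpr ⟨dXZ, dYZ⟩),
      card_union_of_disjoint dXY] at e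
    have e2 : Fintype.card (OnePoint F) = Fintype.card F + 1 := Fintype.card_option
    omega
  refine hcore _ _ _ ⟨h0, h1, card_pos.mp (by rw [eX]; omega), card_pos.mp (by rw [eY]; omega),
    card_pos.mp (by rw [eZ]; omega), dj X Y dXY, dj X Z dXZ, dj Y Z dYZ, ?_⟩ (by omega) (by omega)
    (by omega)
  intro s hs x hx y hy z hz
  have hx' := (mem_filter.mp hx).2
  have hy' := (mem_filter.mp hy).2
  have hz' := (mem_filter.mp hz).2
  have xy : x ≠ y := fun e => disjoint_left.mp dXY hx' (e ▸ hy')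
  have xz : x ≠ z := fun e => disjoint_left.mp dXZ hx' (e ▸ hz')
  have yz : y ≠ z := fun e => disjoint_left.mp dYZ hy' (e ▸ hz')
  obtain ⟨M, m1, m2, m3, m4⟩ := frame xy xz yz
  obtain ⟨M0, hM0⟩ := base_lam h0 h1 hs
  have hS : ∀ v, v ∈ (base c).image (fun x => (M * M0) • x) ↔
      v = (x : OnePoint F) ∨ v = (y : OnePoint F) ∨ v = (z : OnePoint F) ∨
        v = M • (s : OnePoint F) := by
    intro v
    have : (base c).image (fun x => (M * M0) • x) = (base s).image (fun x => M • x) := by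
      rw [hM0, image_image]
      congr 1
      funext v
      simp [mul_smul]
    rw [this]
    simp only [base, image_insert, image_singleton, mem_insert, mem_singleton, m1, m2, m3]
  have hW : M • (s : OnePoint F) ∉ W := by
    intro hw
    apply hno
    refine ⟨M * M0, ?_, ?_, ?_, ?_⟩
    · exact bridge2_one hx' (disjoint_right.mp dXY hy') (disjoint_right.mp dXZ hz')
        (disjoint_right.mp dXW hw) hS
    · exact bridge2_one hy' (disjoint_left.mp dXY hx') (disjoint_right.mp dYZ hz')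
        (disjoint_right.mp dYW hw) (fun v => by rw [hS]; tauto)
    · exact bridge2_one hz' (disjoint_left.mp dXZ hx') (disjoint_left.mp dYZ hy')
        (disjoint_right.mp dZW hw) (fun v => by rw [hS]; tauto)
    · exact bridge2_one hw (disjoint_left.mp dXW hx') (disjoint_left.mp dYW hy')
        (disjoint_left.mp dZW hz') (fun v => by rw [hS]; tauto)
  have hp : ∃ p : F, M • (s : OnePoint F) = (p : OnePoint F) := by
    generalize M • (s : OnePoint F) = v at hW
    induction v using OnePoint.rec with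
    | infty => exact absurd hinf hW
    | coe a => exact ⟨a, rfl⟩
  obtain ⟨p, hp⟩ := hp
  refine ⟨p, ?_, m4 s p hp⟩
  rw [hp] at hW
  simp only [mem_union, mem_filter, mem_univ, true_and]
  have := hall (p : OnePoint F)
  tauto

theorem bridge2_move (w : OnePoint F) : ∃ N : GL (Fin 2) F, N • w = ∞ := by
  induction w using OnePoint.rec with
  | infty => exact ⟨1, one_smul _ _⟩
  | coe a =>
    refine ⟨Matrix.GeneralLinearGroup.mkOfDetNeZero !![0, 1; 1, -a] (by simp), ?_⟩
    rw [smul_some_eq_ite]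
    simp

theorem bridge2_gen [Fintype F] [DecidableEq (OnePoint F)] {c : F} (h0 : c ≠ 0) (h1 : c ≠ 1)
    (hcore : ∀ A B C : Finset F, Cl c A B C → A.card ≤ B.card → B.card ≤ C.card →
      A.card + B.card + 2 * C.card ≤ Fintype.card F + 1 → False)
    {X Y Z W : Finset (OnePoint F)} (nX : X.Nonempty) (dXY : Disjoint X Y) (dXZ : Disjoint X Z)
    (dXW : Disjoint X W) (dYZ : Disjoint Y Z) (dYW : Disjoint Y W) (dZW : Disjoint Z W)
    (hall : ∀ v, v ∈ X ∨ v ∈ Y ∨ v ∈ Z ∨ v ∈ W) (cXY : X.card ≤ Y.card) (cYZ : Y.card ≤ Z.card)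
    (cZW : Z.card ≤ W.card) :
    ∃ M : GL (Fin 2) F, (X ∩ (base c).image (fun x => M • x)).card = 1 ∧
      (Y ∩ (base c).image (fun x => M • x)).card = 1 ∧
      (Z ∩ (base c).image (fun x => M • x)).card = 1 ∧
      (W ∩ (base c).image (fun x => M • x)).card = 1 := by
  have x1 := nX.card_pos
  obtain ⟨w, hw⟩ : W.Nonempty := card_pos.mp (by omega)
  obtain ⟨N, hN⟩ := bridge2_move w
  have inj : Function.Injective (fun v : OnePoint F => N • v) := MulAction.injective N
  have cd : ∀ T : Finset (OnePoint F), (T.image (fun v => N • v)).card = T.card :=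
    fun T => card_image_of_injective _ inj
  obtain ⟨M, m1, m2, m3, m4⟩ := bridge2_inf h0 h1 hcore (X := X.image (fun v => N • v))
    (Y := Y.image (fun v => N • v)) (Z := Z.image (fun v => N • v))
    (W := W.image (fun v => N • v)) (nX.image _) ((disjoint_image inj).mpr dXY)
    ((disjoint_image inj).mpr dXZ) ((disjoint_image inj).mpr dXW) ((disjoint_image inj).mpr dYZ)
    ((disjoint_image inj).mpr dYW) ((disjoint_image inj).mpr dZW)
    (by
      intro v
      have e : v = N • (N⁻¹ • v) := by simp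
      rcases hall (N⁻¹ • v) with h | h | h | h
      · exact Or.inl (mem_image.mpr ⟨_, h, e.symm⟩)
      · exact Or.inr (Or.inl (mem_image.mpr ⟨_, h, e.symm⟩))
      · exact Or.inr (Or.inr (Or.inl (mem_image.mpr ⟨_, h, e.symm⟩)))
      · exact Or.inr (Or.inr (Or.inr (mem_image.mpr ⟨_, h, e.symm⟩))))
    (by rw [cd, cd]; exact cXY) (by rw [cd, cd]; exact cYZ) (by rw [cd, cd]; exact cZW)
    (mem_image.mpr ⟨w, hw, hN⟩)
  have key : ∀ T : Finset (OnePoint F), (T ∩ (base c).image (fun x => (N⁻¹ * M) • x)).card =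
      (T.image (fun v => N • v) ∩ (base c).image (fun x => M • x)).card := by
    intro T
    rw [← cd, image_inter _ _ inj, image_image]
    congr 3
    funext v
    simp [mul_smul]
  exact ⟨N⁻¹ * M, by rw [key, m1], by rw [key, m2], by rw [key, m3], by rw [key, m4]⟩

theorem rainbow [Fintype F] [DecidableEq (OnePoint F)] {c : F} (h0 : c ≠ 0) (h1 : c ≠ 1)
    (hcore : ∀ A B C : Finset F, Cl c A B C → A.card ≤ B.card → B.card ≤ C.card →
      A.card + B.card + 2 * C.card ≤ Fintype.card F + 1 → False)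
    (P : Finpartition (univ : Finset (OnePoint F))) (hP : P.parts.card = 4) :
    ∃ M : GL (Fin 2) F, ∀ X ∈ P.parts, (X ∩ (base c).image (fun x => M • x)).card = 1 := by
  obtain ⟨W, hW, mW⟩ := exists_max_image P.parts card (card_pos.mp (by omega))
  have c3 : (P.parts.erase W).card = 3 := by rw [card_erase_of_mem hW, hP]
  obtain ⟨Z, hZ, mZ⟩ := exists_max_image (P.parts.erase W) card (card_pos.mp (by omega))
  have c2 : ((P.parts.erase W).erase Z).card = 2 := by rw [card_erase_of_mem hZ, c3]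
  obtain ⟨Y, hY, mY⟩ := exists_max_image ((P.parts.erase W).erase Z) card (card_pos.mp (by omega))
  have c1 : (((P.parts.erase W).erase Z).erase Y).card = 1 := by rw [card_erase_of_mem hY, c2]
  obtain ⟨X, hX1⟩ := card_eq_one.mp c1
  have hX : X ∈ ((P.parts.erase W).erase Z).erase Y := by rw [hX1]; exact mem_singleton_self _
  have hpart : ∀ T ∈ P.parts, T = X ∨ T = Y ∨ T = Z ∨ T = W := by
    intro T hT
    by_contra hc
    push Not at hc
    have : T ∈ ((P.parts.erase W).erase Z).erase Y := by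
      simp only [mem_erase]; exact ⟨hc.2.1, hc.2.2.1, hc.2.2.2, hT⟩
    rw [hX1, mem_singleton] at this
    exact hc.1 this
  have hX' := hX
  have hY' := hY
  have hZ' := hZ
  simp only [mem_erase] at hX' hY' hZ'
  have dj : ∀ {S T : Finset (OnePoint F)}, S ∈ P.parts → T ∈ P.parts → S ≠ T → Disjoint S T :=
    fun hS hT hne => P.disjoint hS hT hne
  obtain ⟨M, m1, m2, m3, m4⟩ := bridge2_gen h0 h1 hcore (X := X) (Y := Y) (Z := Z) (W := W)
    (P.nonempty_of_mem_parts hX'.2.2.2) (dj hX'.2.2.2 hY'.2.2 hX'.1)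
    (dj hX'.2.2.2 hZ'.2 hX'.2.1) (dj hX'.2.2.2 hW hX'.2.2.1) (dj hY'.2.2 hZ'.2 hY'.1)
    (dj hY'.2.2 hW hY'.2.1) (dj hZ'.2 hW hZ'.1)
    (by
      intro v
      obtain ⟨T, hT, hv⟩ := P.exists_mem (mem_univ v)
      rcases hpart T hT with rfl | rfl | rfl | rfl <;> tauto)
    (mY X (mem_of_mem_erase hX)) (mZ Y (mem_of_mem_erase hY)) (mW Z (mem_of_mem_erase hZ))
  refine ⟨M, fun T hT => ?_⟩
  rcases hpart T hT with rfl | rfl | rfl | rfl <;> assumption

end Pool.Agent.P.MP_862e21_al
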