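import Pool.Agent.P.MP_862e21_al.Bridge1

namespace Pool.Agent.P.MP_862e21_al

open Finset Pointwise

variable {F : Type*} [Field F] [DecidableEq F]

open OnePoint

/-- first homogeneous coordinate -/
def bridge3_r0 (p : OnePoint F) : F := OnePoint.elim p 1 (fun x => x)

/-- second homogeneous coordinate -/
def bridge3_r1 (p : OnePoint F) : F := OnePoint.elim p 0 (fun _ => 1)

/-- the bracket of two points -/
def bridge3_br (p r : OnePoint F) : F := bridge3_r0 p * bridge3_r1 r - bridge3_r1 p * bridge3_r0 r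

theorem bridge3_rep (M : GL (Fin 2) F) (p : OnePoint F) :
    ∃ l : F, l ≠ 0 ∧
      bridge3_r0 (M • p) = l * (M 0 0 * bridge3_r0 p + M 0 1 * bridge3_r1 p) ∧
      bridge3_r1 (M • p) = l * (M 1 0 * bridge3_r0 p + M 1 1 * bridge3_r1 p) := by
  have hd : M 0 0 * M 1 1 - M 0 1 * M 1 0 ≠ 0 := by
    have := M.det_ne_zero
    rwa [Matrix.det_fin_two] at this
  cases p with
  | infty =>
    rw [smul_infty_eq_ite]
    by_cases h : M 1 0 = 0
    · have h0 : M 0 0 ≠ 0 := by
        intro h0
        apply hd
        rw [h, h0]; ring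
      refine ⟨(M 0 0)⁻¹, inv_ne_zero h0, ?_, ?_⟩
      · simp [h, bridge3_r0, bridge3_r1, h0]
      · simp [h, bridge3_r0, bridge3_r1]
    · refine ⟨(M 1 0)⁻¹, inv_ne_zero h, ?_, ?_⟩
      · simp [h, bridge3_r0, bridge3_r1, div_eq_inv_mul]
      · simp [h, bridge3_r0, bridge3_r1]
  | coe k =>
    rw [smul_some_eq_ite]
    by_cases h : M 1 0 * k + M 1 1 = 0
    · have h0 : M 0 0 * k + M 0 1 ≠ 0 := by
        intro h0
        apply hd
        have e1 : M 1 1 = - (M 1 0 * k) := by linear_combination h
        have e2 : M 0 1 = - (M 0 0 * k) := by linear_combination h0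
        rw [e1, e2]; ring
      refine ⟨(M 0 0 * k + M 0 1)⁻¹, inv_ne_zero h0, ?_, ?_⟩
      · simp [h, bridge3_r0, bridge3_r1, h0]
      · simp [h, bridge3_r0, bridge3_r1]
    · refine ⟨(M 1 0 * k + M 1 1)⁻¹, inv_ne_zero h, ?_, ?_⟩
      · simp [h, bridge3_r0, bridge3_r1, div_eq_inv_mul]
      · simp [h, bridge3_r0, bridge3_r1]

theorem bridge3_br_smul (M : GL (Fin 2) F) :
    ∃ (l : OnePoint F → F) (d : F), d ≠ 0 ∧ (∀ p, l p ≠ 0) ∧
      ∀ p r, bridge3_br (M • p) (M • r) = l p * l r * d * bridge3_br p r := by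
  choose l hl0 hl1 hl2 using bridge3_rep M
  refine ⟨l, M 0 0 * M 1 1 - M 0 1 * M 1 0, ?_, hl0, fun p r => ?_⟩
  · have := M.det_ne_zero
    rwa [Matrix.det_fin_two] at this
  · unfold bridge3_br
    rw [hl1, hl1, hl2, hl2]
    ring

/-- the values of the elements of a subgroup of the unit group -/
def bridge3_In (H : Subgroup Fˣ) (x : F) : Prop := ∃ u ∈ H, (u : F) = x

omit [DecidableEq F] in
theorem bridge3_In_one (H : Subgroup Fˣ) : bridge3_In H 1 := ⟨1, H.one_mem, rfl⟩

omit [DecidableEq F] in
theorem bridge3_In_mul {H : Subgroup Fˣ} {x y : F} (hx : bridge3_In H x) (hy : bridge3_In H y) :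
    bridge3_In H (x * y) := by
  obtain ⟨u, hu, rfl⟩ := hx
  obtain ⟨v, hv, rfl⟩ := hy
  exact ⟨u * v, H.mul_mem hu hv, by simp⟩

omit [DecidableEq F] in
theorem bridge3_In_inv {H : Subgroup Fˣ} {x : F} (hx : bridge3_In H x) :
    bridge3_In H x⁻¹ := by
  obtain ⟨u, hu, rfl⟩ := hx
  exact ⟨u⁻¹, H.inv_mem hu, by simp⟩

omit [DecidableEq F] in
theorem bridge3_In_ne {H : Subgroup Fˣ} {x : F} (hx : bridge3_In H x) : x ≠ 0 := by
  obtain ⟨u, _, rfl⟩ := hx
  exact u.ne_zero

omit [DecidableEq F] in
theorem bridge3_In_neg {H : Subgroup Fˣ} (hm : (-1 : Fˣ) ∈ H) {x : F} (hx : bridge3_In H x) :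
    bridge3_In H (-x) := by
  obtain ⟨u, hu, rfl⟩ := hx
  exact ⟨-1 * u, H.mul_mem hm hu, by simp⟩

theorem bridge3_In_map [Fintype F] {H : Subgroup Fˣ} (σ : F ≃+* F) {x : F}
    (hx : bridge3_In H x) : bridge3_In H (σ x) := by
  obtain ⟨u, hu, rfl⟩ := hx
  obtain ⟨m, hm⟩ := MonoidHom.map_cyclic (Units.map (σ : F →* F))
  refine ⟨u ^ m, H.zpow_mem hu m, ?_⟩
  rw [← hm u]
  simp

/-- brackets of distinct base points lie in the subgroup -/
theorem bridge3_base_br [DecidableEq (OnePoint F)] {H : Subgroup Fˣ} (hm : (-1 : Fˣ) ∈ H) {e : F}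
    (h0 : bridge3_In H e) (h1 : bridge3_In H (1 - e)) {p r : OnePoint F}
    (hp : p ∈ base e) (hr : r ∈ base e) (hpr : p ≠ r) : bridge3_In H (bridge3_br p r) := by
  have a1 := bridge3_In_one H
  have a2 := bridge3_In_neg hm a1
  have a3 := bridge3_In_neg hm h0
  have a4 := bridge3_In_neg hm h1
  simp only [base, mem_insert, mem_singleton] at hp hr
  rcases hp with rfl | rfl | rfl | rfl <;> rcases hr with rfl | rfl | rfl | rfl <;>
    first
    | exact absurd rfl hpr
    | (simp only [bridge3_br, bridge3_r0, bridge3_r1, OnePoint.elim_infty, OnePoint.elim_some,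
        mul_one, one_mul, mul_zero, zero_mul, sub_zero, zero_sub]
       first
       | exact a1
       | exact a2
       | exact a3
       | exact h0
       | exact h1
       | (rw [neg_sub] at a4; exact a4))

open Classical in
/-- the colouring of the projective line -/
noncomputable def bridge3_col (H : Subgroup Fˣ) (p : OnePoint F) : Fin 4 :=
  OnePoint.elim p 0 (fun x => if x = 0 then 1 else if bridge3_In H x then 2 else 3)

theorem necessity [Fintype F] [DecidableEq (OnePoint F)] {c c' : Fˣ} (h : (c : F) + c' = 1)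
    (hne : Subgroup.closure ({-1, c, c'} : Set Fˣ) ≠ ⊤) :
    ∃ P : Finpartition (univ : Finset (OnePoint F)), P.parts.card = 4 ∧
      ∀ (M : GL (Fin 2) F) (σ : F ≃+* F),
        ¬ ∀ X ∈ P.parts,
          (X ∩ (base (c : F)).image (fun x => M • OnePoint.map σ x)).card = 1 := by
  classical
  set H := Subgroup.closure ({-1, c, c'} : Set Fˣ) with hH
  have hm : (-1 : Fˣ) ∈ H := Subgroup.subset_closure (by simp)
  have hc : c ∈ H := Subgroup.subset_closure (by simp)
  have hc' : c' ∈ H := Subgroup.subset_closure (by simp)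
  obtain ⟨w, hw⟩ : ∃ w : Fˣ, w ∉ H := by
    by_contra hcon
    push Not at hcon
    exact hne (eq_top_iff.mpr fun x _ => hcon x)
  have hw' : ¬ bridge3_In H (w : F) := by
    rintro ⟨u, hu, e⟩
    exact hw (Units.ext e ▸ hu)
  let X : Fin 4 → Finset (OnePoint F) := fun k => univ.filter (fun p => bridge3_col H p = k)
  have hX : ∀ k p, p ∈ X k ↔ bridge3_col H p = k := by
    intro k p
    simp [X]
  have hsurj : ∀ k, ∃ p, bridge3_col H p = k := by
    intro k
    fin_cases k
    · exact ⟨∞, by simp [bridge3_col]⟩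
    · exact ⟨((0 : F) : OnePoint F), by simp [bridge3_col]⟩
    · exact ⟨((1 : F) : OnePoint F), by simp [bridge3_col, bridge3_In_one]⟩
    · exact ⟨((w : F) : OnePoint F), by simp [bridge3_col, hw']⟩
  have hinj : Function.Injective X := by
    intro k k' e
    obtain ⟨p, hp⟩ := hsurj k
    have h1 : p ∈ X k := (hX k p).2 hp
    rw [e, hX] at h1
    rw [← hp, h1]
  refine ⟨Finpartition.ofExistsUnique (univ.image X) (fun _ _ => subset_univ _) ?_ ?_, ?_, ?_⟩
  · intro a _
    refine ⟨X (bridge3_col H a), ⟨mem_image_of_mem _ (mem_univ _), (hX _ _).2 rfl⟩, ?_⟩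
    rintro t ⟨ht, hat⟩
    obtain ⟨k, _, rfl⟩ := mem_image.1 ht
    rw [(hX _ _).1 hat]
  · intro he
    obtain ⟨k, _, hk⟩ := mem_image.1 he
    obtain ⟨p, hp⟩ := hsurj k
    have h1 : p ∈ X k := (hX k p).2 hp
    rw [hk] at h1
    simp at h1
  · simp [card_image_of_injective _ hinj]
  · intro M σ hall
    have hpt : ∀ k, ∃ p ∈ base (σ (c : F)), bridge3_col H (M • p) = k := by
      intro k
      have h1 := hall (X k) (by simpa using ⟨k, rfl⟩)
      obtain ⟨q, hq⟩ := card_pos.1 (h1 ▸ Nat.one_pos :
        0 < (X k ∩ (base (c : F)).image (fun x => M • OnePoint.map σ x)).card)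
      obtain ⟨hq1, hq2⟩ := mem_inter.1 hq
      obtain ⟨x, hx, rfl⟩ := mem_image.1 hq2
      refine ⟨OnePoint.map σ x, ?_, (hX _ _).1 hq1⟩
      simp only [base, mem_insert, mem_singleton] at hx ⊢
      rcases hx with rfl | rfl | rfl | rfl <;> simp
    choose p hp hcol using hpt
    have hne' : ∀ k k', k ≠ k' → p k ≠ p k' := by
      intro k k' hk e
      apply hk
      rw [← hcol k, ← hcol k', e]
    have e0 : bridge3_In H (σ (c : F)) := bridge3_In_map σ ⟨c, hc, rfl⟩
    have e1 : bridge3_In H (1 - σ (c : F)) := by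
      have : 1 - σ (c : F) = σ (c' : F) := by
        rw [← map_one σ, ← h, map_add]; ring
      rw [this]
      exact bridge3_In_map σ ⟨c', hc', rfl⟩
    have hb : ∀ k k', k ≠ k' → bridge3_In H (bridge3_br (p k) (p k')) := fun k k' hk =>
      bridge3_base_br hm e0 e1 (hp k) (hp k') (hne' k k' hk)
    have c0 : M • p 0 = ∞ := by
      have := hcol 0
      cases hq : M • p 0 with
      | infty => rfl
      | coe x =>
        rw [hq] at this
        simp only [bridge3_col, OnePoint.elim_some] at this
        split_ifs at this <;> simp at this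
    have c1 : M • p 1 = ((0 : F) : OnePoint F) := by
      have := hcol 1
      cases hq : M • p 1 with
      | infty => rw [hq] at this; simp [bridge3_col] at this
      | coe x =>
        rw [hq] at this
        simp only [bridge3_col, OnePoint.elim_some] at this
        split_ifs at this with g1 g2
        · rw [g1]
        · simp at this
        · simp at this
    obtain ⟨a, ha, c2⟩ : ∃ a : F, bridge3_In H a ∧ M • p 2 = (a : OnePoint F) := by
      have := hcol 2
      cases hq : M • p 2 with
      | infty => rw [hq] at this; simp [bridge3_col] at this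
      | coe x =>
        rw [hq] at this
        simp only [bridge3_col, OnePoint.elim_some] at this
        split_ifs at this with g1 g2
        · simp at this
        · exact ⟨x, g2, rfl⟩
        · simp at this
    obtain ⟨b, hb', c3⟩ : ∃ b : F, ¬ bridge3_In H b ∧ M • p 3 = (b : OnePoint F) := by
      have := hcol 3
      cases hq : M • p 3 with
      | infty => rw [hq] at this; simp [bridge3_col] at this
      | coe x =>
        rw [hq] at this
        simp only [bridge3_col, OnePoint.elim_some] at this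
        split_ifs at this with g1 g2
        · simp at this
        · simp at this
        · exact ⟨x, g2, rfl⟩
    obtain ⟨l, d, hd, hl, hbr⟩ := bridge3_br_smul M
    have q02 := hbr (p 0) (p 2)
    have q03 := hbr (p 0) (p 3)
    have q12 := hbr (p 1) (p 2)
    have q13 := hbr (p 1) (p 3)
    rw [c0, c2] at q02
    rw [c0, c3] at q03
    rw [c1, c2] at q12
    rw [c1, c3] at q13
    have b02 := hb 0 2 (by decide)
    have b03 := hb 0 3 (by decide)
    have b12 := hb 1 2 (by decide)
    have b13 := hb 1 3 (by decide)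
    generalize bridge3_br (p 0) (p 2) = x02 at q02 b02
    generalize bridge3_br (p 0) (p 3) = x03 at q03 b03
    generalize bridge3_br (p 1) (p 2) = x12 at q12 b12
    generalize bridge3_br (p 1) (p 3) = x13 at q13 b13
    simp only [bridge3_br, bridge3_r0, bridge3_r1, OnePoint.elim_infty, OnePoint.elim_some,
      mul_one, one_mul, mul_zero, zero_mul, sub_zero, zero_sub] at q02 q03 q12 q13
    have n03 := bridge3_In_ne b03
    have n12 := bridge3_In_ne b12
    have key : b * (x03 * x12) = a * (x02 * x13) := by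
      have hl0 := hl (p 0)
      have hl1 := hl (p 1)
      have hl2 := hl (p 2)
      have hl3 := hl (p 3)
      have hn : l (p 0) * l (p 1) * l (p 2) * l (p 3) * d * d ≠ 0 := by
        simp [hl0, hl1, hl2, hl3, hd]
      apply mul_left_cancel₀ hn
      have t1 : l (p 0) * l (p 1) * l (p 2) * l (p 3) * d * d * (b * (x03 * x12)) =
          b * (l (p 0) * l (p 3) * d * x03) * (l (p 1) * l (p 2) * d * x12) := by ring
      have t2 : l (p 0) * l (p 1) * l (p 2) * l (p 3) * d * d * (a * (x02 * x13)) =
          a * (l (p 0) * l (p 2) * d * x02) * (l (p 1) * l (p 3) * d * x13) := by ring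
      rw [t1, t2, ← q02, ← q03, ← q12, ← q13]
      ring
    apply hb'
    have : b = a * (x02 * x13) * (x03 * x12)⁻¹ := by
      rw [← key]
      field_simp
    rw [this]
    exact bridge3_In_mul (bridge3_In_mul ha (bridge3_In_mul b02 b13))
      (bridge3_In_inv (bridge3_In_mul b03 b12))

theorem card_base [DecidableEq (OnePoint F)] {c : F} (h0 : c ≠ 0) (h1 : c ≠ 1) :
    (base c).card = 4 := by
  unfold base
  rw [card_insert_of_notMem, card_insert_of_notMem, card_insert_of_notMem, card_singleton]
  · simp [h1.symm]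
  · simp [h0.symm]
  · simp

end Pool.Agent.P.MP_862e21_al
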