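import Pool.Agent.P.MP_862e21_al.Basic

namespace Pool.Agent.P.MP_862e21_al

open Finset Pointwise

variable {F : Type*} [Field F] [DecidableEq F]

/-- a point over a prescribed root, for an algebra of finite type over a field -/
theorem spec_point {k R L : Type*} [Field k] [CommRing R] [Nontrivial R] [Algebra k R]
    [Algebra.FiniteType k R] [Field L] [IsAlgClosed L] [Algebra k L] {p : Polynomial k}
    (hp : Irreducible p) (hm : p.Monic) {r : R} (hr : Polynomial.aeval r p = 0) {y : L}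
    (hy : Polynomial.aeval y p = 0) : ∃ φ : R →ₐ[k] L, φ r = y := by
  obtain ⟨m, hm'⟩ := Ideal.exists_maximal R
  let _ : Field (R ⧸ m) := Ideal.Quotient.field m
  have : Module.Finite k (R ⧸ m) := finite_of_finite_type_of_isJacobsonRing k (R ⧸ m)
  let π : R →ₐ[k] (R ⧸ m) := Ideal.Quotient.mkₐ k m
  have h1 : Polynomial.aeval (π r) p = 0 := by
    rw [Polynomial.aeval_algHom_apply, hr, map_zero]
  have h2 : p = minpoly k (π r) := minpoly.eq_of_irreducible_of_monic hp h1 hm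
  obtain ⟨φ, hφ⟩ := IntermediateField.exists_algHom_of_splits_of_aeval (F := k) (E := R ⧸ m)
    (K := L) (fun s => ⟨Algebra.IsIntegral.isIntegral s, IsAlgClosed.splits _⟩) (x := π r)
    (y := y) (by rw [← h2]; exact hy)
  exact ⟨φ.comp π, hφ⟩

omit [DecidableEq F] in
/-- a finitely generated subalgebra has a complex point over every conjugate of `l` -/
theorem spec_hom [CharZero F] {l : F} (S : Finset F) (hS : l ∈ S)
    (hl : IsIntegral ℚ l) {l' : ℂ} (hl' : Polynomial.aeval l' (minpoly ℚ l) = 0) :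
    ∃ (R : Subalgebra ℚ F) (g : F → ℂ), (∀ x ∈ S, x ∈ R) ∧ g l = l' ∧ g 1 = 1 ∧
      (∀ x ∈ R, ∀ y ∈ R, g (x - y) = g x - g y) ∧ (∀ x ∈ R, ∀ y ∈ R, g (x * y) = g x * g y) := by
  classical
  let R : Subalgebra ℚ F := Algebra.adjoin ℚ (S : Set F)
  have hR : ∀ x ∈ S, x ∈ R := fun x hx => Algebra.subset_adjoin (by simpa using hx)
  have : Algebra.FiniteType ℚ R := (Subalgebra.fg_iff_finiteType R).mp ⟨S, rfl⟩
  let l0 : R := ⟨l, hR l hS⟩
  have h0 : Polynomial.aeval l0 (minpoly ℚ l) = 0 := by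
    apply Subtype.ext
    have := Polynomial.aeval_algHom_apply R.val l0 (minpoly ℚ l)
    have e : R.val l0 = l := rfl
    rw [e, minpoly.aeval] at this
    exact this.symm
  obtain ⟨φ, hφ⟩ := spec_point (minpoly.irreducible hl) (minpoly.monic hl) h0 hl'
  refine ⟨R, fun x => if h : x ∈ R then φ ⟨x, h⟩ else 0, hR, ?_, ?_, ?_, ?_⟩
  · simp only [dif_pos (hR l hS)]
    exact hφ
  · simp only [dif_pos R.one_mem]
    have : (⟨1, R.one_mem⟩ : R) = 1 := rfl
    rw [this, map_one]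
  · intro x hx y hy
    simp only [dif_pos hx, dif_pos hy, dif_pos (R.sub_mem hx hy)]
    have : (⟨x - y, R.sub_mem hx hy⟩ : R) = ⟨x, hx⟩ - ⟨y, hy⟩ := rfl
    rw [this, map_sub]
  · intro x hx y hy
    simp only [dif_pos hx, dif_pos hy, dif_pos (R.mul_mem hx hy)]
    have : (⟨x * y, R.mul_mem hx hy⟩ : R) = ⟨x, hx⟩ * ⟨y, hy⟩ := rfl
    rw [this, map_mul]

theorem specialise [CharZero F] [DecidableEq ℂ] {l : F} {A B C : Finset F} (h : Cl l A B C)
    (hl : IsIntegral ℚ l) {l' : ℂ} (hl' : Polynomial.aeval l' (minpoly ℚ l) = 0) :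
    ∃ A' B' C' : Finset ℂ, Cl l' A' B' C' := by
  set P : Finset F := A ∪ B ∪ C with hP
  obtain ⟨R, g, hR, gl, g1, gsub, gmul⟩ := spec_hom
    (P ∪ (P ×ˢ P).image (fun q => (q.1 - q.2)⁻¹) ∪ {l, l⁻¹, (1 - l)⁻¹}) (by simp) hl hl'
  have hPR : ∀ x ∈ P, x ∈ R := fun x hx => hR x (mem_union_left _ (mem_union_left _ hx))
  have hdR : ∀ x ∈ P, ∀ y ∈ P, (x - y)⁻¹ ∈ R := fun x hx y hy =>
    hR _ (mem_union_left _ (mem_union_right _ (mem_image.mpr ⟨(x, y), mem_product.mpr ⟨hx, hy⟩, rfl⟩)))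
  have lR : l ∈ R := hR _ (by simp)
  have liR : l⁻¹ ∈ R := hR _ (by simp)
  have l1R : (1 - l)⁻¹ ∈ R := hR _ (by simp)
  have ginv : ∀ x ∈ R, x ≠ 0 → x⁻¹ ∈ R → g x * g x⁻¹ = 1 := by
    intro x hx x0 hi
    rw [← gmul x hx _ hi, mul_inv_cancel₀ x0, g1]
  have sep : ∀ x ∈ P, ∀ y ∈ P, g x = g y → x = y := by
    intro x hx y hy e
    by_contra hne
    have := ginv (x - y) (R.sub_mem (hPR x hx) (hPR y hy)) (sub_ne_zero.mpr hne) (hdR x hx y hy)
    rw [gsub x (hPR x hx) y (hPR y hy), e, sub_self, zero_mul] at this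
    exact zero_ne_one this
  have l10 : 1 - l ≠ 0 := sub_ne_zero.mpr h.l1.symm
  have e1 : l' * g l⁻¹ = 1 := by rw [← gl]; exact ginv l lR h.l0 liR
  have g1l : g (1 - l) = 1 - l' := by rw [gsub 1 R.one_mem l lR, g1, gl]
  have e2 : (1 - l') * g (1 - l)⁻¹ = 1 := by
    rw [← g1l]; exact ginv _ (R.sub_mem R.one_mem lR) l10 l1R
  have l'0 : l' ≠ 0 := left_ne_zero_of_mul_eq_one e1
  have l'1 : 1 - l' ≠ 0 := left_ne_zero_of_mul_eq_one e2
  have f1 : g l⁻¹ = l'⁻¹ := eq_inv_of_mul_eq_one_right e1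
  have f2 : g (1 - l)⁻¹ = (1 - l')⁻¹ := eq_inv_of_mul_eq_one_right e2
  have hA : ∀ x ∈ A, x ∈ P := fun x hx => by simp [hP, hx]
  have hB : ∀ x ∈ B, x ∈ P := fun x hx => by simp [hP, hx]
  have hC : ∀ x ∈ C, x ∈ P := fun x hx => by simp [hP, hx]
  have disj : ∀ X Y : Finset F, (∀ x ∈ X, x ∈ P) → (∀ x ∈ Y, x ∈ P) → Disjoint X Y →
      Disjoint (X.image g) (Y.image g) := by
    intro X Y hX hY hd
    rw [disjoint_left]
    intro v hv hv'
    obtain ⟨x, hx, rfl⟩ := mem_image.mp hv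
    obtain ⟨y, hy, e⟩ := mem_image.mp hv'
    have := sep y (hY y hy) x (hX x hx) e
    exact disjoint_left.mp hd hx (this ▸ hy)
  have lam : ∀ s' ∈ Lam l', ∃ s ∈ Lam l, s ∈ R ∧ g s = s' := by
    intro s' hs'
    have l1' : l - 1 ≠ 0 := sub_ne_zero.mpr h.l1
    have l1'' : l' - 1 ≠ 0 := fun e => l'1 (by linear_combination -e)
    rcases mem_Lam.mp hs' with e | e | e | e | e | e <;> subst e
    · exact ⟨l, by simp [mem_Lam], lR, gl⟩
    · exact ⟨l⁻¹, by simp [mem_Lam], liR, f1⟩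
    · exact ⟨1 - l, by simp [mem_Lam], R.sub_mem R.one_mem lR, g1l⟩
    · exact ⟨(1 - l)⁻¹, by simp [mem_Lam], l1R, f2⟩
    · have e : (l - 1) / l = 1 - l⁻¹ := by have := h.l0; field_simp
      refine ⟨(l - 1) / l, by simp [mem_Lam], e ▸ R.sub_mem R.one_mem liR, ?_⟩
      rw [e, gsub 1 R.one_mem _ liR, g1, f1]
      field_simp
    · have e : l / (l - 1) = 1 - (1 - l)⁻¹ := by field_simp; ring
      refine ⟨l / (l - 1), by simp [mem_Lam], e ▸ R.sub_mem R.one_mem l1R, ?_⟩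
      rw [e, gsub 1 R.one_mem _ l1R, g1, f2]
      field_simp
      ring
  refine ⟨A.image g, B.image g, C.image g, l'0, fun e => l'1 (by rw [e, sub_self]),
    h.nA.image g, h.nB.image g, h.nC.image g, disj A B hA hB h.dAB, disj A C hA hC h.dAC,
    disj B C hB hC h.dBC, ?_⟩
  intro s' hs' x' hx' y' hy' z' hz'
  obtain ⟨s, hs, sR, rfl⟩ := lam s' hs'
  obtain ⟨x, hx, rfl⟩ := mem_image.mp hx'
  obtain ⟨y, hy, rfl⟩ := mem_image.mp hy'
  obtain ⟨z, hz, rfl⟩ := mem_image.mp hz'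
  obtain ⟨p, hp, e⟩ := h.cl s hs x hx y hy z hz
  have xR := hPR x (hA x hx)
  have yR := hPR y (hB y hy)
  have zR := hPR z (hC z hz)
  have pR := hPR p hp
  refine ⟨g p, ?_, ?_⟩
  · rw [← image_union, ← image_union]
    exact mem_image_of_mem g hp
  · have := congrArg g e
    rw [gmul _ (R.sub_mem pR yR) _ (R.sub_mem zR xR),
      gmul _ (R.mul_mem sR (R.sub_mem zR yR)) _ (R.sub_mem pR xR),
      gmul _ sR _ (R.sub_mem zR yR), gsub _ pR _ yR, gsub _ zR _ xR, gsub _ zR _ yR,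
      gsub _ pR _ xR] at this
    exact this

end Pool.Agent.P.MP_862e21_al
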