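import Pool.Agent.P.MP_862e21_al.Basic

namespace Pool.Agent.P.MP_862e21_al

open Finset Pointwise

variable {F : Type*} [Field F] [DecidableEq F]

theorem tree_core {l : F} {A B C : Finset F} (h : Cl l A B C) (O : ValuationSubring F) {s : F}
    (hs : s ∈ Lam l) (hv : O.valuation s < 1) {y0 z : F} (hy0 : y0 ∈ B) (hz : z ∈ C)
    (mAB : ∀ a ∈ A, ∀ b ∈ B, O.valuation (y0 - z) ≤ O.valuation (a - b))
    (mAC : ∀ a ∈ A, ∀ c ∈ C, O.valuation (y0 - z) ≤ O.valuation (a - c))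
    (mBC : ∀ b ∈ B, ∀ c ∈ C, O.valuation (y0 - z) ≤ O.valuation (b - c)) :
    ∃ m : ℕ, 1 ≤ m ∧ (1 - s) ^ m = 1 := by
  obtain ⟨x, hx⟩ := h.nA
  generalize O.valuation = v at *
  have hBC : ∀ y ∈ B, y - z ≠ 0 := fun y hy =>
    sub_ne_zero.2 fun e => disjoint_left.1 h.dBC hy (e ▸ hz)
  have hBx : ∀ y ∈ B, y - x ≠ 0 := fun y hy =>
    sub_ne_zero.2 fun e => disjoint_left.1 h.dAB hx (e ▸ hy)
  have zx : z - x ≠ 0 := sub_ne_zero.2 fun e => disjoint_left.1 h.dAC hx (e ▸ hz)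
  have vzx : 0 < v (z - x) := (Valuation.pos_iff v).2 zx
  have hδ : 0 < v (y0 - z) := (Valuation.pos_iff v).2 (hBC y0 hy0)
  have hδx : v (y0 - z) ≤ v (z - x) := by
    rw [v.map_sub_swap z x]
    exact mAC x hx z hz
  have hsδ : v s * v (y0 - z) < v (y0 - z) := mul_lt_of_lt_one_left hδ hv
  have step : ∀ y ∈ B, v (y - z) = v (y0 - z) → ∃ p ∈ B, v (p - z) = v (y0 - z) ∧
      (p - x)⁻¹ - (z - x)⁻¹ = (1 - s) * ((y - x)⁻¹ - (z - x)⁻¹) := by
    intro y hy hyδ
    obtain ⟨p, hp, e⟩ := h.cl s hs x hx y hy z hz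
    have e1 : (p - x) * (z - x - s * (z - y)) = (y - x) * (z - x) := by linear_combination e
    have v1 : v (z - x - s * (z - y)) = v (z - x) := by
      refine v.map_sub_eq_of_lt_left ?_
      rw [map_mul, v.map_sub_swap z y, hyδ]
      exact hsδ.trans_le hδx
    have v2 : v (p - x) = v (y - x) := by
      have := congrArg v e1
      rw [map_mul, map_mul, v1] at this
      exact mul_right_cancel₀ vzx.ne' this
    have v3 : v (y - x) ≤ v (z - x) := by
      have : y - x = (y - z) + (z - x) := by ring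
      rw [this]
      exact v.map_add_le (hyδ.le.trans hδx) le_rfl
    have v4 : v (p - y) < v (y0 - z) := by
      have h1 := congrArg v e
      rw [map_mul, map_mul, map_mul, v.map_sub_swap z y, hyδ, v2] at h1
      have h2 : v (p - y) * v (z - x) ≤ v s * v (y0 - z) * v (z - x) := by
        rw [h1]
        exact mul_le_mul_right v3 _
      exact (le_of_mul_le_mul_right h2 vzx).trans_lt hsδ
    have hpB : p ∈ B := by
      rcases mem_union.1 hp with hp | hp
      · rcases mem_union.1 hp with hp | hp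
        · exact absurd (mAB p hp y hy) (not_le.2 v4)
        · exact hp
      · rw [v.map_sub_swap] at v4
        exact absurd (mBC y hy p hp) (not_le.2 v4)
    refine ⟨p, hpB, ?_, ?_⟩
    · have : p - z = (y - z) + (p - y) := by ring
      rw [this, v.map_add_eq_of_lt_left (by rwa [hyδ]), hyδ]
    · have h1 := hBx p hpB
      have h2 := hBx y hy
      field_simp
      linear_combination -e
  have all : ∀ n : ℕ, (1 - s) ^ n * ((y0 - x)⁻¹ - (z - x)⁻¹) ∈
      (fun y => (y - x)⁻¹ - (z - x)⁻¹) '' {y | y ∈ B ∧ v (y - z) = v (y0 - z)} := by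
    intro n
    induction n with
    | zero => exact ⟨y0, ⟨hy0, rfl⟩, by rw [pow_zero, one_mul]⟩
    | succ n ih =>
      obtain ⟨y, ⟨hy, hyδ⟩, e⟩ := ih
      obtain ⟨p, hp, hpδ, e'⟩ := step y hy hyδ
      refine ⟨p, ⟨hp, hpδ⟩, ?_⟩
      simp only at e ⊢
      rw [e', e]
      ring
  have fin : ((fun y => (y - x)⁻¹ - (z - x)⁻¹) ''
      {y | y ∈ B ∧ v (y - z) = v (y0 - z)}).Finite :=
    (B.finite_toSet.subset fun y hy => hy.1).image _
  obtain ⟨a, b, hab, e⟩ := fin.exists_lt_map_eq_of_forall_mem all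
  have t0 : (y0 - x)⁻¹ - (z - x)⁻¹ ≠ 0 := fun e =>
    hBC y0 hy0 (sub_eq_zero.2 (sub_left_injective (inv_injective (sub_eq_zero.1 e))))
  have s1 : 1 - s ≠ 0 := sub_ne_zero.2 (lam_ne_one h.l0 h.l1 hs).symm
  obtain ⟨m, rfl⟩ := Nat.exists_eq_add_of_lt hab
  refine ⟨m + 1, by omega, mul_left_cancel₀ (pow_ne_zero a s1) ?_⟩
  rw [← pow_add, ← add_assoc, mul_one]
  exact (mul_right_cancel₀ t0 e).symm

theorem tree {l : F} {A B C : Finset F} (h : Cl l A B C) (O : ValuationSubring F) {s : F}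
    (hs : s ∈ Lam l) (hv : O.valuation s < 1) : ∃ m : ℕ, 1 ≤ m ∧ (1 - s) ^ m = 1 := by
  obtain ⟨a0, ha0⟩ := h.nA
  obtain ⟨b0, hb0⟩ := h.nB
  obtain ⟨⟨y, z⟩, hm, hmin⟩ := exists_min_image (A ×ˢ B ∪ A ×ˢ C ∪ B ×ˢ C)
    (fun p => O.valuation (p.1 - p.2))
    ⟨(a0, b0), mem_union_left _ (mem_union_left _ (mem_product.2 ⟨ha0, hb0⟩))⟩
  have mAB : ∀ a ∈ A, ∀ b ∈ B, O.valuation (y - z) ≤ O.valuation (a - b) := fun a ha b hb =>
    hmin (a, b) (mem_union_left _ (mem_union_left _ (mem_product.2 ⟨ha, hb⟩)))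
  have mAC : ∀ a ∈ A, ∀ c ∈ C, O.valuation (y - z) ≤ O.valuation (a - c) := fun a ha c hc =>
    hmin (a, c) (mem_union_left _ (mem_union_right _ (mem_product.2 ⟨ha, hc⟩)))
  have mBC : ∀ b ∈ B, ∀ c ∈ C, O.valuation (y - z) ≤ O.valuation (b - c) := fun b hb c hc =>
    hmin (b, c) (mem_union_right _ (mem_product.2 ⟨hb, hc⟩))
  have sw : ∀ {X Y : Finset F}, (∀ a ∈ X, ∀ b ∈ Y, O.valuation (y - z) ≤ O.valuation (a - b)) →
      ∀ b ∈ Y, ∀ a ∈ X, O.valuation (y - z) ≤ O.valuation (b - a) := fun H b hb a ha => by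
    rw [O.valuation.map_sub_swap b a]
    exact H a ha b hb
  rcases mem_union.1 hm with hm | hm
  · rcases mem_union.1 hm with hm | hm
    · obtain ⟨h1, h2⟩ := mem_product.1 hm
      exact tree_core h.swap23.swap12 O hs hv h1 h2 (sw mAC) (sw mBC) mAB
    · obtain ⟨h1, h2⟩ := mem_product.1 hm
      exact tree_core h.swap12 O hs hv h1 h2 (sw mAB) mBC mAC
  · obtain ⟨h1, h2⟩ := mem_product.1 hm
    exact tree_core h O hs hv h1 h2 mAB mAC mBC

theorem rootOrInt {l : F} {A B C : Finset F} (h : Cl l A B C) :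
    (∃ t ∈ Lam l, ∃ m : ℕ, 1 ≤ m ∧ t ^ m = 1) ∨ ∀ s ∈ Lam l, IsIntegral ℤ s := by
  refine or_iff_not_imp_right.2 fun hn => ?_
  obtain ⟨s, hs, hi⟩ : ∃ s ∈ Lam l, ¬ IsIntegral ℤ s := by
    by_contra h'
    exact hn fun s hs => not_not.1 fun h2 => h' ⟨s, hs, h2⟩
  obtain ⟨O, -, hO⟩ := Subring.exists_le_valuationSubring_of_isIntegrallyClosedIn
    (R := (integralClosure ℤ F).toSubring) (x := s) hi
  have h1 : 1 < O.valuation s := not_le.1 fun h2 => hO ((O.valuation_le_one_iff s).1 h2)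
  have h2 : O.valuation s⁻¹ < 1 := by
    rw [map_inv₀]
    exact inv_lt_one_of_one_lt₀ h1
  have h3 := lam_inv h.l0 h.l1 hs
  exact ⟨1 - s⁻¹, lam_one_sub h.l0 h.l1 h3, tree h O h3 h2⟩

omit [DecidableEq F] in
theorem tree_fin {k : Type*} [Field k] [Finite k] [Algebra k F] {x : F} (hx : IsIntegral k x)
    (h0 : x ≠ 0) : ∃ m : ℕ, 1 ≤ m ∧ x ^ m = 1 := by
  have := IntermediateField.adjoin.finiteDimensional hx
  have : Finite (IntermediateField.adjoin k {x}) := Module.finite_of_finite k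
  have := Fintype.ofFinite (IntermediateField.adjoin k {x})
  have h1 : IntermediateField.AdjoinSimple.gen k x ≠ 0 := fun e => h0 (congrArg Subtype.val e)
  have h2 := FiniteField.pow_card_sub_one_eq_one _ h1
  have h3 : 1 < Fintype.card (IntermediateField.adjoin k {x}) := Fintype.one_lt_card
  exact ⟨_, by omega, congrArg Subtype.val h2⟩

theorem charP_case {l : F} {A B C : Finset F} (h : Cl l A B C) {p : ℕ} (hp : p.Prime)
    [CharP F p] : ∃ m : ℕ, 1 ≤ m ∧ l ^ m = 1 ∧ (1 - l) ^ m = 1 := by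
  have := Fact.mk hp
  let _ := ZMod.algebra F p
  have hl : IsIntegral (ZMod p) l := by
    rcases rootOrInt h with ⟨t, ht, m, hm, e⟩ | h1
    · have h1 : t ∈ algebraicClosure (ZMod p) F :=
        mem_algebraicClosure_iff'.2 (IsIntegral.of_pow hm (e ▸ isIntegral_one))
      have h2 := (algebraicClosure (ZMod p) F).one_mem
      refine mem_algebraicClosure_iff'.1 ?_
      rcases mem_Lam.1 (lam_symm h.l0 h.l1 ht) with e | e | e | e | e | e <;> rw [e]
      · exact h1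
      · exact inv_mem h1
      · exact sub_mem h2 h1
      · exact inv_mem (sub_mem h2 h1)
      · exact div_mem (sub_mem h1 h2) h1
      · exact div_mem h1 (sub_mem h1 h2)
    · exact (h1 l (self_mem_Lam l)).tower_top
  obtain ⟨a, ha, ea⟩ := tree_fin hl h.l0
  obtain ⟨b, hb, eb⟩ := tree_fin (isIntegral_one.sub hl) (sub_ne_zero.2 h.l1.symm)
  refine ⟨a * b, Nat.mul_pos ha hb, ?_, ?_⟩
  · rw [pow_mul, ea, one_pow]
  · rw [mul_comm, pow_mul, eb, one_pow]

end Pool.Agent.P.MP_862e21_al
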