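import Pool.Agent.P.MP_862e21_al.Geo
import Pool.Agent.P.MP_862e21_al.Tree
import Pool.Agent.P.MP_862e21_al.Spec

namespace Pool.Agent.P.MP_862e21_al

open Finset Pointwise

variable {F : Type*} [Field F] [DecidableEq F]

theorem char0_nf {K : Type*} [Field K] [NumberField K] {g : K} (h0 : g ≠ 0) (h1 : 1 - g ≠ 0)
    (h6 : g ^ 2 - g + 1 ≠ 0) (i0 : IsIntegral ℤ g) (i1 : IsIntegral ℤ g⁻¹)
    (i2 : IsIntegral ℤ (1 - g)⁻¹) :
    ∃ σ : K →+* ℂ, ‖σ g ^ 2 * (1 - σ g) ^ 2‖ ≤ ‖(σ g ^ 2 - σ g + 1) ^ 3‖ := by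
  have hJ : IsIntegral ℤ ((g ^ 2 - g + 1) ^ 3 * (g⁻¹) ^ 2 * ((1 - g)⁻¹) ^ 2) :=
    ((((i0.pow 2).sub i0).add isIntegral_one).pow 3).mul (i1.pow 2) |>.mul (i2.pow 2)
  have hne : (g ^ 2 - g + 1) ^ 3 * (g⁻¹) ^ 2 * ((1 - g)⁻¹) ^ 2 ≠ 0 :=
    mul_ne_zero (mul_ne_zero (pow_ne_zero _ h6) (pow_ne_zero _ (inv_ne_zero h0)))
      (pow_ne_zero _ (inv_ne_zero h1))
  obtain ⟨σ, hσ⟩ : ∃ σ : K →+* ℂ,
      1 ≤ ‖σ ((g ^ 2 - g + 1) ^ 3 * (g⁻¹) ^ 2 * ((1 - g)⁻¹) ^ 2)‖ := by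
    apply NumberField.exists_conjugate_one_le_norm (K := K) (α := ⟨_, hJ⟩)
    intro hz
    exact hne (congrArg (fun x : NumberField.RingOfIntegers K => (x : K)) hz)
  refine ⟨σ, ?_⟩
  have a0 : σ g ≠ 0 := (map_ne_zero σ).mpr h0
  have a1 : 1 - σ g ≠ 0 := by
    have := (map_ne_zero σ).mpr h1
    simpa using this
  have e : (σ g ^ 2 - σ g + 1) ^ 3 =
      σ ((g ^ 2 - g + 1) ^ 3 * (g⁻¹) ^ 2 * ((1 - g)⁻¹) ^ 2) * (σ g ^ 2 * (1 - σ g) ^ 2) := by
    simp only [map_mul, map_pow, map_add, map_sub, map_one, map_inv₀]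
    field_simp
  rw [e, norm_mul (σ _)]
  exact le_mul_of_one_le_left (norm_nonneg _) hσ

theorem conj_big [CharZero F] {l : F} (h0 : l ≠ 0) (h1 : l ≠ 1) (h6 : l ^ 2 - l + 1 ≠ 0)
    (hi : ∀ s ∈ Lam l, IsIntegral ℤ s) :
    ∃ l' : ℂ, Polynomial.aeval l' (minpoly ℚ l) = 0 ∧
      ‖l' ^ 2 * (1 - l') ^ 2‖ ≤ ‖(l' ^ 2 - l' + 1) ^ 3‖ := by
  have i0 : IsIntegral ℤ l := hi l (self_mem_Lam l)
  have i1 : IsIntegral ℤ l⁻¹ := hi _ (lam_inv h0 h1 (self_mem_Lam l))
  have i2 : IsIntegral ℤ (1 - l)⁻¹ := hi _ (lam_inv h0 h1 (lam_one_sub h0 h1 (self_mem_Lam l)))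
  have iq : IsIntegral ℚ l := i0.tower_top
  have : FiniteDimensional ℚ (IntermediateField.adjoin ℚ ({l} : Set F)) :=
    IntermediateField.adjoin.finiteDimensional iq
  have : NumberField (IntermediateField.adjoin ℚ ({l} : Set F)) := {}
  set g : IntermediateField.adjoin ℚ ({l} : Set F) := IntermediateField.AdjoinSimple.gen ℚ l
    with hg
  have hgl : algebraMap (IntermediateField.adjoin ℚ ({l} : Set F)) F g = l :=
    IntermediateField.AdjoinSimple.algebraMap_gen ℚ l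
  have inj : Function.Injective (algebraMap (IntermediateField.adjoin ℚ ({l} : Set F)) F) :=
    (algebraMap (IntermediateField.adjoin ℚ ({l} : Set F)) F).injective
  have g0 : g ≠ 0 := by
    intro h; apply h0; rw [← hgl, h, map_zero]
  have g1 : 1 - g ≠ 0 := by
    intro h; apply h1
    have : g = 1 := (sub_eq_zero.mp h).symm
    rw [← hgl, this, map_one]
  have g6 : g ^ 2 - g + 1 ≠ 0 := by
    intro h; apply h6
    have := congrArg (algebraMap (IntermediateField.adjoin ℚ ({l} : Set F)) F) h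
    simpa only [map_add, map_sub, map_pow, map_one, map_zero, hgl] using this
  have j0 : IsIntegral ℤ g := by
    rw [← isIntegral_algebraMap_iff inj, hgl]; exact i0
  have j1 : IsIntegral ℤ g⁻¹ := by
    rw [← isIntegral_algebraMap_iff inj, map_inv₀, hgl]; exact i1
  have j2 : IsIntegral ℤ (1 - g)⁻¹ := by
    rw [← isIntegral_algebraMap_iff inj, map_inv₀, map_sub, map_one, hgl]; exact i2
  obtain ⟨σ, hσ⟩ := char0_nf g0 g1 g6 j0 j1 j2
  refine ⟨σ g, ?_, hσ⟩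
  have e := IntermediateField.aeval_gen_minpoly ℚ l
  rw [← hg, Polynomial.aeval_def] at e
  have key : ∀ φ : ℚ →+* IntermediateField.adjoin ℚ ({l} : Set F),
      Polynomial.eval₂ φ g (minpoly ℚ l) = 0 →
        Polynomial.eval₂ (algebraMap ℚ ℂ) (σ g) (minpoly ℚ l) = 0 := by
    intro φ hφ
    have e2 := Polynomial.hom_eval₂ (minpoly ℚ l) φ σ g
    rw [hφ, map_zero] at e2
    have e3 : σ.comp φ = algebraMap ℚ ℂ := Subsingleton.elim _ _
    rw [e3] at e2
    exact e2.symm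
  rw [Polynomial.aeval_def]
  exact key _ e

omit [DecidableEq F] in
theorem char0_six {l : F} (h : l ^ 2 - l + 1 = 0) : l ^ 6 = 1 ∧ (1 - l) ^ 6 = 1 := by
  constructor
  · linear_combination (l ^ 4 + l ^ 3 - l - 1) * h
  · linear_combination ((1 - l) ^ 4 + (1 - l) ^ 3 - (1 - l) - 1) * h

theorem char0_lam_six {t l : F} (h0 : t ≠ 0) (h1 : t ≠ 1) (h : t ^ 2 - t + 1 = 0)
    (hl : l ∈ Lam t) : l ^ 2 - l + 1 = 0 := by
  have h2 : 1 - t ≠ 0 := sub_ne_zero.mpr h1.symm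
  have h3 : t - 1 ≠ 0 := sub_ne_zero.mpr h1
  rcases mem_Lam.mp hl with e | e | e | e | e | e <;> subst e
  · exact h
  · field_simp; linear_combination h
  · linear_combination h
  · field_simp; linear_combination h
  · field_simp; linear_combination h
  · field_simp; linear_combination h

theorem char0_root [CharZero F] {t : F} {A B C : Finset F} (h : Cl t A B C) {m : ℕ}
    (hm : 1 ≤ m) (ht : t ^ m = 1) : t ^ 2 - t + 1 = 0 := by
  classical
  have hfin : IsOfFinOrder t := isOfFinOrder_iff_pow_eq_one.mpr ⟨m, hm, ht⟩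
  have hpos : 0 < orderOf t := hfin.orderOf_pos
  have hprim : IsPrimitiveRoot t (orderOf t) := IsPrimitiveRoot.orderOf t
  have hn1 : orderOf t ≠ 1 := by
    intro e
    exact h.l1 (orderOf_eq_one_iff.mp e)
  have hn : 2 ≤ orderOf t := by omega
  by_cases h6 : orderOf t = 6
  · have := hprim.isRoot_cyclotomic hpos
    rw [h6, Polynomial.cyclotomic_six] at this
    simpa using this
  · exfalso
    obtain ⟨ζ, hζ, hre⟩ := root_pick hn h6
    have hint : IsIntegral ℚ t := (hprim.isIntegral hpos).tower_top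
    have hz : Polynomial.aeval ζ (minpoly ℚ t) = 0 := by
      rw [← Polynomial.cyclotomic_eq_minpoly_rat hprim hpos,
        Polynomial.cyclotomic_eq_minpoly_rat hζ hpos]
      exact minpoly.aeval ℚ ζ
    obtain ⟨A', B', C', h'⟩ := specialise h hint hz
    have n1 : ‖ζ‖ = 1 := hζ.norm'_eq_one hpos.ne'
    refine geo (s := ζ) n1.le ?_ ?_ h'
    · have : (1 - ζ).re ≤ ‖1 - ζ‖ := Complex.re_le_norm _
      simp only [Complex.sub_re, Complex.one_re] at this
      linarith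
    · rw [n1]; linarith

theorem alg_main {l : F} {A B C : Finset F} (h : Cl l A B C) :
    ∃ m : ℕ, 1 ≤ m ∧ l ^ m = 1 ∧ (1 - l) ^ m = 1 := by
  classical
  rcases CharP.char_is_prime_or_zero F (ringChar F) with hp | hp
  · exact charP_case h hp
  have : CharP F 0 := hp ▸ ringChar.charP F
  have : CharZero F := CharP.charP_to_charZero F
  by_cases h6 : l ^ 2 - l + 1 = 0
  · exact ⟨6, by norm_num, char0_six h6⟩
  exfalso
  rcases rootOrInt h with ⟨t, ht, m, hm, htm⟩ | hi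
  · have e := char0_root (h.of_mem ht) hm htm
    exact h6 (char0_lam_six (lam_ne_zero h.l0 h.l1 ht) (lam_ne_one h.l0 h.l1 ht) e
      (lam_symm h.l0 h.l1 ht))
  · obtain ⟨l', hl', hJ⟩ := conj_big h.l0 h.l1 h6 hi
    have iq : IsIntegral ℚ l := (hi l (self_mem_Lam l)).tower_top
    obtain ⟨A', B', C', h'⟩ := specialise h iq hl'
    obtain ⟨s, hs, s1, s2, s3⟩ := geo_pick h'.l0 h'.l1 hJ
    exact geo s1 s2 s3 (h'.of_mem hs)

end Pool.Agent.P.MP_862e21_al
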