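import Pool.Agent.P.MP_862e21_al.Defs

namespace Pool.Agent.P.MP_862e21_al

open Finset Pointwise

variable {F : Type*} [Field F] [DecidableEq F]

theorem collinear_nu {ν : F → ℕ} (h0 : ν 0 = 0) (hadd : ∀ h k, ν (h + k) ≤ ν h + ν k)
    {A : Finset F} {n : ℕ} (hA : ∀ x ∈ A, ν x ≤ n) (j : ℕ) : ∀ x ∈ j • A, ν x ≤ j * n := by
  induction j with
  | zero =>
    intro x hx
    rw [zero_nsmul, mem_zero] at hx
    rw [hx, h0]
    exact Nat.zero_le _
  | succ j ih =>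
    intro x hx
    rw [succ_nsmul] at hx
    obtain ⟨a, ha, b, hb, rfl⟩ := mem_add.1 hx
    have h1 := ih a ha
    have h2 := hA b hb
    have h3 := hadd a b
    rw [Nat.succ_mul]
    omega

theorem collinear_grow {ν : F → ℕ} (h0 : ν 0 = 0) (hadd : ∀ h k, ν (h + k) ≤ ν h + ν k)
    {J : ℕ} {ψ : F → ℤ} (hψ : ∀ x y, ν x < J → ν y < J → ν (x + y) < J → ψ (x + y) = ψ x + ψ y)
    {A : Finset F} (hne : A.Nonempty) {n : ℕ} (hA : ∀ x ∈ A, ν x ≤ n) (j : ℕ) (hj : j * n < J) :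
    j * ((A.image ψ).card - 1) + 1 ≤ ((j • A).image ψ).card := by
  induction j with
  | zero => simp
  | succ j ih =>
    rw [Nat.succ_mul] at hj
    have h1 := ih (by omega)
    have h2 : (j • A).image ψ + A.image ψ ⊆ ((j + 1) • A).image ψ := by
      intro v hv
      obtain ⟨_, ha', _, hb', rfl⟩ := mem_add.1 hv
      obtain ⟨a, ha, rfl⟩ := mem_image.1 ha'
      obtain ⟨b, hb, rfl⟩ := mem_image.1 hb'
      have e1 := collinear_nu h0 hadd hA j a ha
      have e2 := hA b hb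
      have e3 := hadd a b
      refine mem_image.2 ⟨a + b, ?_, hψ a b (by omega) (by omega) (by omega)⟩
      rw [succ_nsmul]
      exact add_mem_add ha hb
    have h3 := cauchy_davenport_add_of_linearOrder_isCancelAdd
      (s := (j • A).image ψ) (t := A.image ψ) (card_pos.1 (by omega)) (hne.image ψ)
    have h4 := card_le_card h2
    have h5 := card_pos.2 (hne.image ψ)
    rw [Nat.succ_mul]
    omega

theorem collinear_const {ν : F → ℕ} (h0 : ν 0 = 0) (hadd : ∀ h k, ν (h + k) ≤ ν h + ν k)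
    {J : ℕ} {ψ : F → ℤ} (hψ : ∀ x y, ν x < J → ν y < J → ν (x + y) < J → ψ (x + y) = ψ x + ψ y)
    (hψ0 : ψ 0 = 0) {A : Finset F} {n : ℕ} (hA : ∀ x ∈ A, ν x ≤ n) {τ : ℤ} (hτ : ∀ x ∈ A, ψ x = τ)
    (j : ℕ) (hj : j * n < J) : ∀ x ∈ j • A, ψ x = j * τ := by
  induction j with
  | zero =>
    intro x hx
    rw [zero_nsmul, mem_zero] at hx
    rw [hx, hψ0]
    simp
  | succ j ih =>
    intro x hx
    rw [Nat.succ_mul] at hj
    rw [succ_nsmul] at hx
    obtain ⟨a, ha, b, hb, rfl⟩ := mem_add.1 hx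
    have e1 := collinear_nu h0 hadd hA j a ha
    have e2 := hA b hb
    have e3 := hadd a b
    rw [hψ a b (by omega) (by omega) (by omega), ih (by omega) a ha, hτ b hb]
    push_cast
    ring

theorem collinear [Fintype F] {ν : F → ℕ} {t : F} {J z n : ℕ} {φ : F → ℤ}
    (hF : Filt ν t J z) (hφ : Coord ν J φ) (hn : 1 ≤ n) (hJ : 2000 * n ≤ J) {h k : F}
    (hh : ν h ≤ n) (hk : ν k ≤ n) : φ (t * h) * φ k = φ h * φ (t * k) := by
  have h0 : φ 0 = 0 := by
    have := hφ.add 0 0 (by rw [hF.zero]; omega) (by rw [hF.zero]; omega)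
      (by rw [add_zero, hF.zero]; omega)
    rw [add_zero] at this
    omega
  by_cases hh0 : h = 0
  · subst hh0
    simp [h0]
  have hφ' : ∀ x y, ν x < J → ν y < J → ν (x + y) < J → φ (x + y) = φ x + φ y :=
    fun x y h1 h2 h3 => hφ.add x y h1.le h2.le h3.le
  obtain ⟨θ, hθ⟩ : ∃ θ : F → ℤ, ∀ x, θ x = φ (t * h) * φ x - φ h * φ (t * x) := ⟨_, fun _ => rfl⟩
  have hθa : ∀ x y, ν x < J → ν y < J → ν (x + y) < J → θ (x + y) = θ x + θ y := by
    intro x y h1 h2 h3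
    have e1 := hF.mul x h1
    have e2 := hF.mul y h2
    have e3 := hF.mul _ h3
    rw [mul_add] at e3
    rw [hθ, hθ, hθ, mul_add, hφ' x y h1 h2 h3, hφ.add _ _ (by omega) (by omega) (by omega)]
    ring
  have hθ0 : θ 0 = 0 := by rw [hθ, mul_zero, h0]; ring
  have hθh : θ h = 0 := by rw [hθ]; ring
  by_contra hne
  have hθk : θ k ≠ 0 := fun e => hne (by rw [hθ] at e; omega)
  obtain ⟨A, hA⟩ : ∃ A, A = lev ν n := ⟨_, rfl⟩
  have hAm : ∀ x, x ∈ A ↔ ν x ≤ n := fun x => by rw [hA, mem_lev]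
  have hA0 : (0 : F) ∈ A := (hAm 0).2 (by rw [hF.zero]; omega)
  have hAn : A.Nonempty := ⟨0, hA0⟩
  obtain ⟨τ, hτ, hmax⟩ := exists_max_image (A.image θ)
    (fun v => (A.filter fun x => θ x = v).card) (hAn.image θ)
  obtain ⟨B, hB⟩ : ∃ B, B = A.filter fun x => θ x = τ := ⟨_, rfl⟩
  rw [← hB] at hmax
  have hBm : ∀ x ∈ B, ν x ≤ n ∧ θ x = τ := fun x hx => by
    rw [hB, mem_filter, hAm] at hx
    exact hx
  have c1 : A.card ≤ B.card * (A.image θ).card := card_le_mul_card_image A _ hmax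
  have c2 : 2 ≤ (A.image θ).card :=
    one_lt_card.2 ⟨θ k, mem_image_of_mem _ ((hAm k).2 hk), θ 0, mem_image_of_mem _ hA0,
      by rwa [hθ0]⟩
  have c3 : 2 ≤ B.card := by
    refine le_trans ?_ (hmax 0 (mem_image.2 ⟨0, hA0, hθ0⟩))
    exact one_lt_card.2 ⟨h, mem_filter.2 ⟨(hAm h).2 hh, hθh⟩, 0, mem_filter.2 ⟨hA0, hθ0⟩, hh0⟩
  obtain ⟨j, hj⟩ : ∃ j : ℕ, j = 800 := ⟨_, rfl⟩
  have hjn0 : j * n = 800 * n := by rw [hj]
  have hjn : j * n < J := by omega
  have g1 := collinear_grow hF.zero hF.add hθa hAn (fun x hx => (hAm x).1 hx) j hjn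
  have g2 := (collinear_grow hF.zero hF.add hφ' (card_pos.1 (by omega : 0 < B.card))
    (fun x hx => (hBm x hx).1) j hjn).trans card_image_le
  rw [card_image_of_injective _ hφ.inj] at g2
  have g3 := collinear_const hF.zero hF.add hθa hθ0 (fun x hx => (hBm x hx).1)
    (fun x hx => (hBm x hx).2) j hjn
  have g4 := collinear_nu hF.zero hF.add (fun x hx => (hAm x).1 hx) j
  have g5 := collinear_nu hF.zero hF.add (fun x hx => (hBm x hx).1) j
  have hrep : ∀ v : ℤ, ∃ x, v ∈ (j • A).image θ → ν x ≤ j * n ∧ θ x = v := by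
    intro v
    by_cases hv : v ∈ (j • A).image θ
    · obtain ⟨x, hx, e⟩ := mem_image.1 hv
      exact ⟨x, fun _ => ⟨g4 x hx, e⟩⟩
    · exact ⟨0, fun h1 => (hv h1).elim⟩
  choose rep hrep using hrep
  have hval : ∀ p ∈ ((j • A).image θ) ×ˢ (j • B),
      ν (rep p.1 + p.2) ≤ 2 * (j * n) ∧ θ (rep p.1 + p.2) = p.1 + j * τ := by
    intro p hp
    obtain ⟨p1, p2⟩ := mem_product.1 hp
    have e1 := (hrep _ p1).1
    have e2 := g5 _ p2
    have e3 := hF.add (rep p.1) p.2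
    refine ⟨by omega, ?_⟩
    rw [hθa _ _ (by omega) (by omega) (by omega), (hrep _ p1).2, g3 _ p2]
  have c4 : (((j • A).image θ) ×ˢ (j • B)).card ≤ (lev ν (2 * (j * n))).card := by
    refine card_le_card_of_injOn (fun p => rep p.1 + p.2)
      (fun p hp => mem_coe.2 (mem_lev.2 (hval p (mem_coe.1 hp)).1)) ?_
    intro p hp p' hp' e
    have e0 : rep p.1 + p.2 = rep p'.1 + p'.2 := e
    have e1 := (hval p (mem_coe.1 hp)).2
    rw [e0, (hval p' (mem_coe.1 hp')).2] at e1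
    have e2 : p.1 = p'.1 := (add_right_cancel e1).symm
    rw [e2] at e0
    exact Prod.ext e2 (add_left_cancel e0)
  rw [card_product] at c4
  have c5 := hF.up (2 * (j * n)) (by omega) (by omega)
  have c6 := hF.low n hn (by omega)
  rw [← hA] at c6
  have c7 := Nat.mul_le_mul g1 g2
  obtain ⟨a, ha⟩ : ∃ a, (A.image θ).card = a + 2 := ⟨(A.image θ).card - 2, by omega⟩
  obtain ⟨b, hb⟩ : ∃ b, B.card = b + 2 := ⟨B.card - 2, by omega⟩
  rw [ha, hb] at c1 c7
  have c8 : 48 * (2 * (j * n)) * z = 96 * j * (n * z) := by ring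
  have c9 : (j * (a + 1) + 1) * (j * (b + 1) + 1) ≤ 96 * j * (2 * ((b + 2) * (a + 2))) := by
    refine le_trans c7 (c4.trans (c5.trans ?_))
    rw [c8]
    exact Nat.mul_le_mul_left _ (c6.trans (Nat.mul_le_mul_left _ c1))
  subst hj
  nlinarith [Nat.zero_le (a * b), Nat.zero_le a, Nat.zero_le b]

end Pool.Agent.P.MP_862e21_al
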