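import Pool.Agent.P.MP_862e21_al.Kloo

namespace Pool.Agent.P.MP_862e21_al

open Finset Pointwise

variable {F : Type*} [Field F] [DecidableEq F]

omit [Field F] in
/-- a large sieve inequality for almost orthogonal unimodular functions -/
theorem sieve [Fintype F] {A B : Finset F} (f : F → F → ℂ) (hf : ∀ x y, ‖f x y‖ = 1) {κ δ : ℝ}
    (hκ : 0 ≤ κ) (hδ : 0 ≤ δ)
    (ho : ∀ x ∈ A, ∀ x' ∈ A, x ≠ x' → ‖∑ y : F, f x y * (starRingEnd ℂ) (f x' y)‖ ≤ κ)
    (hb : ∀ x ∈ A, δ ≤ ‖∑ y ∈ B, f x y‖) :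
    ((A.card : ℝ) * δ) ^ 2 ≤ B.card * (A.card * Fintype.card F + (A.card : ℝ) ^ 2 * κ) := by
  choose η hη1 hη2 using fun x : F => Complex.exists_norm_eq_mul_self (∑ y ∈ B, f x y)
  set g : F → ℂ := fun y => ∑ x ∈ A, η x * f x y with hg
  have s1 : ∑ y ∈ B, g y = ((∑ x ∈ A, ‖∑ y ∈ B, f x y‖ : ℝ) : ℂ) := by
    simp only [hg]
    rw [sum_comm, Complex.ofReal_sum]
    refine sum_congr rfl fun x _ => ?_
    rw [← mul_sum, ← hη2 x]
  have s2 : (A.card : ℝ) * δ ≤ ∑ y ∈ B, ‖g y‖ := by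
    calc (A.card : ℝ) * δ = ∑ _x ∈ A, δ := by rw [sum_const, nsmul_eq_mul]
      _ ≤ ∑ x ∈ A, ‖∑ y ∈ B, f x y‖ := sum_le_sum hb
      _ ≤ ‖∑ y ∈ B, g y‖ := by
          rw [s1, Complex.norm_real]
          exact le_abs_self _
      _ ≤ ∑ y ∈ B, ‖g y‖ := norm_sum_le _ _
  have s3 : (∑ y ∈ B, ‖g y‖) ^ 2 ≤ B.card * ∑ y ∈ B, ‖g y‖ ^ 2 := sq_sum_le_card_mul_sum_sq
  have s4 : ∑ y ∈ B, ‖g y‖ ^ 2 ≤ ∑ y : F, ‖g y‖ ^ 2 :=
    sum_le_sum_of_subset_of_nonneg (subset_univ B) fun _ _ _ => by positivity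
  have s5 : ((∑ y : F, ‖g y‖ ^ 2 : ℝ) : ℂ) = ∑ x ∈ A, ∑ x' ∈ A,
      η x * (starRingEnd ℂ) (η x') * ∑ y : F, f x y * (starRingEnd ℂ) (f x' y) := by
    have e1 : ∀ y : F, ((‖g y‖ ^ 2 : ℝ) : ℂ) = ∑ x ∈ A, ∑ x' ∈ A,
        η x * (starRingEnd ℂ) (η x') * (f x y * (starRingEnd ℂ) (f x' y)) := by
      intro y
      have : ((‖g y‖ ^ 2 : ℝ) : ℂ) = g y * (starRingEnd ℂ) (g y) := by
        rw [Complex.mul_conj, Complex.normSq_eq_norm_sq]
      rw [this]
      simp only [hg, map_sum, map_mul]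
      rw [sum_mul_sum]
      refine sum_congr rfl fun x _ => sum_congr rfl fun x' _ => by ring
    rw [Complex.ofReal_sum, sum_congr rfl fun y _ => e1 y, sum_comm]
    refine sum_congr rfl fun x _ => ?_
    rw [sum_comm]
    refine sum_congr rfl fun x' _ => ?_
    rw [mul_sum]
  have s6 : ∀ x ∈ A, ∀ x' ∈ A,
      ‖η x * (starRingEnd ℂ) (η x') * ∑ y : F, f x y * (starRingEnd ℂ) (f x' y)‖ ≤
        (if x' = x then (Fintype.card F : ℝ) else 0) + κ := by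
    intro x hx x' hx'
    rw [norm_mul, norm_mul, Complex.norm_conj, hη1, hη1, one_mul, one_mul]
    by_cases e : x' = x
    · rw [if_pos e]
      have : ‖∑ y : F, f x y * (starRingEnd ℂ) (f x' y)‖ ≤ Fintype.card F := by
        refine (norm_sum_le _ _).trans ?_
        simp [hf]
      linarith
    · rw [if_neg e, zero_add]
      exact ho x hx x' hx' (Ne.symm e)
  have s7 : ∑ y : F, ‖g y‖ ^ 2 ≤ A.card * Fintype.card F + (A.card : ℝ) ^ 2 * κ := by
    calc ∑ y : F, ‖g y‖ ^ 2 ≤ ‖((∑ y : F, ‖g y‖ ^ 2 : ℝ) : ℂ)‖ := by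
          rw [Complex.norm_real]; exact le_abs_self _
      _ ≤ ∑ x ∈ A, ∑ x' ∈ A, ((if x' = x then (Fintype.card F : ℝ) else 0) + κ) := by
          rw [s5]
          refine (norm_sum_le _ _).trans (sum_le_sum fun x hx => ?_)
          exact (norm_sum_le _ _).trans (sum_le_sum fun x' hx' => s6 x hx x' hx')
      _ = ∑ _x ∈ A, ((Fintype.card F : ℝ) + A.card * κ) := by
          refine sum_congr rfl fun x hx => ?_
          rw [sum_add_distrib, sum_ite_eq' A x, if_pos hx, sum_const, nsmul_eq_mul]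
      _ = A.card * Fintype.card F + (A.card : ℝ) ^ 2 * κ := by
          rw [sum_const, nsmul_eq_mul]; ring
  have h0 : 0 ≤ (A.card : ℝ) * δ := by positivity
  calc ((A.card : ℝ) * δ) ^ 2 ≤ (∑ y ∈ B, ‖g y‖) ^ 2 := pow_le_pow_left₀ h0 s2 2
    _ ≤ B.card * ∑ y ∈ B, ‖g y‖ ^ 2 := s3
    _ ≤ B.card * (A.card * Fintype.card F + (A.card : ℝ) ^ 2 * κ) :=
        mul_le_mul_of_nonneg_left (s4.trans s7) (Nat.cast_nonneg _)

theorem dense_coeff [Fintype F] {e : AddChar F ℂ} (he : e.IsPrimitive) {l : F} {A B C : Finset F}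
    (h : Cl l A B C) (hbc : B.card ≤ C.card)
    (hq : A.card + B.card + 2 * C.card ≤ Fintype.card F + 1) {x : F} (hx : x ∈ A) :
    ∃ ξ : F, ξ ≠ 0 ∧ (B.card : ℝ) ^ 2 / Fintype.card F ≤ ‖∑ y ∈ B, e (ξ * (y - x)⁻¹)‖ := by
  obtain ⟨D, hT, hD⟩ := h.chart hx
  have ha := h.nA.card_pos
  have hb := h.nB.card_pos
  have hcd : C.card ≤ D.card := by omega
  have nD : D.Nonempty := card_pos.mp (by omega)
  have nC : (ch x C).Nonempty := card_pos.mp (by rw [card_ch]; omega)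
  obtain ⟨ξ, h0, hξ⟩ := bigCoeff he hT nC nD
  refine ⟨ξ, h0, ?_⟩
  have e1 : fh e (ch x B) ξ = ∑ y ∈ B, e (ξ * (y - x)⁻¹) := by
    unfold fh ch
    rw [sum_image]
    intro a _ b _ hab
    simpa using hab
  rw [card_ch, card_ch, e1] at hξ
  have q0 : (0 : ℝ) < Fintype.card F := by exact_mod_cast Fintype.card_pos
  rw [div_le_iff₀ q0]
  have c1 : (B.card : ℝ) ≤ C.card := by exact_mod_cast hbc
  have c2 : (B.card : ℝ) ≤ D.card := by exact_mod_cast hbc.trans hcd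
  have b0 : (0 : ℝ) ≤ B.card := Nat.cast_nonneg _
  have c3 : (B.card : ℝ) * B.card ≤ C.card * D.card := mul_le_mul c1 c2 b0 (b0.trans c1)
  have c4 : ((B.card : ℝ) ^ 2) ^ 2 ≤
      (‖∑ y ∈ B, e (ξ * (y - x)⁻¹)‖ * Fintype.card F) ^ 2 := by
    calc ((B.card : ℝ) ^ 2) ^ 2 = (B.card : ℝ) ^ 2 * (B.card * B.card) := by ring
      _ ≤ (B.card : ℝ) ^ 2 * (C.card * D.card) := mul_le_mul_of_nonneg_left c3 (by positivity)
      _ = (B.card : ℝ) ^ 2 * C.card * D.card := by ring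
      _ ≤ _ := hξ
      _ = _ := by ring
  exact le_of_sq_le_sq c4 (by positivity)

theorem dense (N : ℕ) : ∃ q0 : ℕ, ∀ (F : Type) [Field F] [Fintype F] [DecidableEq F],
    q0 ≤ Fintype.card F → ∀ (l : F) (A B C : Finset F), Cl l A B C → B.card ≤ C.card →
      A.card + B.card + 2 * C.card ≤ Fintype.card F + 1 → Fintype.card F ≤ N * B.card →
      A.card ≤ 2 * N ^ 3 := by
  refine ⟨768 * N ^ 12 + 12 * N ^ 3, fun F _ _ _ hq0 l A B C h hbc hq hN => ?_⟩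
  obtain ⟨e, he⟩ := exists_char (F := F)
  have key : ∀ x : F, ∃ ξ : F, ξ ≠ 0 ∧
      (x ∈ A → (B.card : ℝ) ^ 2 / Fintype.card F ≤ ‖∑ y ∈ B, e (ξ * (y - x)⁻¹)‖) := by
    intro x
    by_cases hx : x ∈ A
    · obtain ⟨ξ, h0, h1⟩ := dense_coeff he h hbc hq hx
      exact ⟨ξ, h0, fun _ => h1⟩
    · exact ⟨1, one_ne_zero, fun h' => absurd h' hx⟩
  choose ξ hξ0 hξ using key
  have qpos : 0 < Fintype.card F := Fintype.card_pos
  have Npos : 0 < N := by
    rcases Nat.eq_zero_or_pos N with h0 | h0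
    · rw [h0, zero_mul] at hN; omega
    · exact h0
  set q : ℝ := (Fintype.card F : ℝ) with hqd
  set n : ℝ := (N : ℝ) ^ 3 with hn
  set a : ℝ := (A.card : ℝ) with had
  set b : ℝ := (B.card : ℝ) with hbd
  have q0 : 0 < q := by rw [hqd]; exact_mod_cast qpos
  have N0 : (0 : ℝ) < N := by exact_mod_cast Npos
  have n0 : 0 < n := by rw [hn]; positivity
  have a0 : 0 < a := by rw [had]; exact_mod_cast h.nA.card_pos
  have b0 : 0 < b := by rw [hbd]; exact_mod_cast h.nB.card_pos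
  have hq1 : 768 * n ^ 4 + 12 * n ≤ q := by
    have : ((768 * N ^ 12 + 12 * N ^ 3 : ℕ) : ℝ) ≤ q := by rw [hqd]; exact_mod_cast hq0
    push_cast at this
    rw [hn]
    calc 768 * ((N : ℝ) ^ 3) ^ 4 + 12 * (N : ℝ) ^ 3 = 768 * (N : ℝ) ^ 12 + 12 * (N : ℝ) ^ 3 := by
          ring
      _ ≤ q := this
  have hn4 : 0 < n ^ 4 := by positivity
  have hk : 3 * q ^ 3 ≤ (q / (4 * n)) ^ 4 := by
    rw [div_pow, le_div_iff₀ (by positivity)]
    have : 768 * n ^ 4 ≤ q := by linarith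
    calc 3 * q ^ 3 * (4 * n) ^ 4 = q ^ 3 * (768 * n ^ 4) := by ring
      _ ≤ q ^ 3 * q := mul_le_mul_of_nonneg_left this (by positivity)
      _ = q ^ 4 := by ring
  have hk3 : q / (4 * n) + 3 ≤ q / (2 * n) := by
    have e1 : q / (2 * n) = q / (4 * n) + q / (4 * n) := by field_simp; ring
    have e2 : 3 ≤ q / (4 * n) := by
      rw [le_div_iff₀ (by positivity)]
      linarith
    linarith
  have hs := sieve (A := A) (B := B) (fun x y => e (ξ x * (y - x)⁻¹)) (fun x y => norm_char e _)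
    (κ := q / (2 * n)) (δ := b ^ 2 / q) (by positivity) (by positivity)
    (by
      intro x _ x' _ hne
      have := chart_inner he hne (hξ0 x) (hξ0 x') (κ := q / (4 * n)) (by positivity) hk
      refine le_trans (le_of_eq ?_) (this.trans hk3)
      congr 1
      refine sum_congr rfl fun y _ => ?_
      rw [conj_char, ← AddChar.map_add_eq_mul, ← sub_eq_add_neg])
    (fun x hx => hξ x hx)
  rw [← had, ← hbd, ← hqd] at hs
  have hNb : q ≤ N * b := by rw [hqd, hbd]; exact_mod_cast hN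
  have hb3 : q ^ 3 ≤ n * b ^ 3 := by
    calc q ^ 3 ≤ (N * b) ^ 3 := pow_le_pow_left₀ q0.le hNb 3
      _ = n * b ^ 3 := by rw [hn]; ring
  have e1 : (a * (b ^ 2 / q)) ^ 2 = (a * b) * (a * b ^ 3 / q ^ 2) := by field_simp
  have e2 : b * (a * q + a ^ 2 * (q / (2 * n))) = (a * b) * (q + a * q / (2 * n)) := by field_simp
  rw [e1, e2] at hs
  have h1 : a * b ^ 3 / q ^ 2 ≤ q + a * q / (2 * n) := le_of_mul_le_mul_left hs (by positivity)
  have h2 : a * q / n ≤ a * b ^ 3 / q ^ 2 := by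
    rw [div_le_div_iff₀ n0 (by positivity)]
    calc a * q * q ^ 2 = a * q ^ 3 := by ring
      _ ≤ a * (n * b ^ 3) := mul_le_mul_of_nonneg_left hb3 a0.le
      _ = a * b ^ 3 * n := by ring
  have e3 : a * q / n = a * q / (2 * n) + a * q / (2 * n) := by field_simp; ring
  have h3 : a * q / (2 * n) ≤ q := by linarith
  rw [div_le_iff₀ (by positivity)] at h3
  have h4 : a ≤ 2 * n := by
    have : q * a ≤ q * (2 * n) := by linarith
    exact le_of_mul_le_mul_left this q0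
  rw [had, hn] at h4
  exact_mod_cast h4

end Pool.Agent.P.MP_862e21_al
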