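import Pool.Agent.P.MP_862e21_al.Basic

namespace Pool.Agent.P.MP_862e21_al

open Finset Pointwise

variable {F : Type*} [Field F] [DecidableEq F]

/-- a coset of `H` contains many points of both sets -/
def Mix (H : AddSubgroup F) (N : ℕ) (x : F) (C D : Finset F) : Prop :=
  ∃ C1 ⊆ C, ∃ D1 ⊆ D, (∀ z ∈ C1, z - x ∈ H) ∧ (∀ z ∈ D1, z - x ∈ H) ∧
    Nat.card H ≤ 10 * N * C1.card ∧ Nat.card H ≤ 10 * N * D1.card

theorem exact2_neg (h2 : (2 : F) = 0) (p : F) : -p = p := by
  linear_combination (-p) * h2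

theorem exact2_key (h2 : (2 : F) = 0) (hI : Irr F) {l : F} {B C D : Finset F} (h : Trio l B C D)
    (hall : ∀ x, x ∈ B ∨ x ∈ C ∨ x ∈ D) (hB : B.Nonempty) {g : F} (hg : g ≠ 0)
    (pB : ∀ x ∈ B, x + g ∈ B) {z : F} (hz : z ∈ C) : z + (1 - l) / l * g ∉ D := by
  intro hzD
  have l0 := h.l0
  have l1 : 1 - l ≠ 0 := sub_ne_zero.mpr h.l1.symm
  have hT : ∀ y ∈ B, (1 - l) * y + l * z ∈ B := by
    intro y hy
    have h1 := h.sc l (self_mem_Lam l) y hy z hz
    have h3 := h.swap23.sc l (self_mem_Lam l) _ (pB y hy) _ hzD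
    have e : (1 - l) * (y + g) + l * (z + (1 - l) / l * g) = (1 - l) * y + l * z := by
      have : l * ((1 - l) / l * g) = (1 - l) * g := by field_simp
      linear_combination this + ((1 - l) * g) * h2
    rw [e] at h3
    rcases hall ((1 - l) * y + l * z) with h4 | h4 | h4
    · exact h4
    · exact absurd h4 h3
    · exact absurd h4 h1
  have hS : ∀ x ∈ B, ∃ y ∈ B, x = (1 - l) * y + l * z := by
    intro x hx
    obtain ⟨y, hy, e⟩ := surj_on_of_inj_on_of_card_le (s := B) (t := B)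
      (fun y _ => (1 - l) * y + l * z) (fun y hy => hT y hy)
      (fun a b _ _ e => mul_left_cancel₀ l1 (add_right_cancel e)) le_rfl x hx
    exact ⟨y, hy, e⟩
  let P : AddSubgroup F :=
    { carrier := {p | ∀ x ∈ B, x + p ∈ B}
      add_mem' := fun {a b} ha hb x hx => by
        rw [← add_assoc]; exact hb _ (ha x hx)
      zero_mem' := fun x hx => by rwa [add_zero]
      neg_mem' := fun {a} ha => by rw [exact2_neg h2]; exact ha }
  have hP := hI P (1 - l) l1 (fun e => l0 (by linear_combination -e)) (by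
    intro p hp x hx
    obtain ⟨y, hy, rfl⟩ := hS x hx
    have := hT _ (hp y hy)
    have e : (1 - l) * (y + p) + l * z = (1 - l) * y + l * z + (1 - l) * p := by ring
    rwa [e] at this)
  rcases hP with hP | hP
  · have : g ∈ P := pB
    rw [hP] at this
    exact hg (AddSubgroup.mem_bot.mp this)
  · obtain ⟨b, hb⟩ := hB
    have h1 : z - b ∈ P := by rw [hP]; trivial
    have h3 := h1 b hb
    rw [add_sub_cancel] at h3
    exact disjoint_left.mp h.dBC h3 hz

theorem exact2 (h2 : (2 : F) = 0) (hI : Irr F) {l : F} {B C D : Finset F} (h : Trio l B C D)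
    (hall : ∀ x, x ∈ B ∨ x ∈ C ∨ x ∈ D) (hB : B.Nonempty) (hC : C.Nonempty) (hD : D.Nonempty)
    {g : F} (hg : g ≠ 0) (pB : ∀ x ∈ B, x + g ∈ B) (pC : ∀ x ∈ C, x + g ∈ C)
    (pD : ∀ x ∈ D, x + g ∈ D) : False := by
  have l0 := h.l0
  have l1 : 1 - l ≠ 0 := sub_ne_zero.mpr h.l1.symm
  let P : AddSubgroup F :=
    { carrier := {p | (∀ x ∈ B, x + p ∈ B) ∧ (∀ x ∈ C, x + p ∈ C) ∧ ∀ x ∈ D, x + p ∈ D}
      add_mem' := fun {a b} ha hb =>
        ⟨fun x hx => by rw [← add_assoc]; exact hb.1 _ (ha.1 x hx),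
          fun x hx => by rw [← add_assoc]; exact hb.2.1 _ (ha.2.1 x hx),
          fun x hx => by rw [← add_assoc]; exact hb.2.2 _ (ha.2.2 x hx)⟩
      zero_mem' := ⟨fun x hx => by rwa [add_zero], fun x hx => by rwa [add_zero],
        fun x hx => by rwa [add_zero]⟩
      neg_mem' := fun {a} ha => by rw [exact2_neg h2]; exact ha }
  have hP := hI P ((1 - l) / l) (div_ne_zero l1 l0) (by
    intro e
    rw [div_eq_one_iff_eq l0] at e
    exact one_ne_zero (α := F) (by linear_combination e + l * h2)) (by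
    intro p hp
    by_cases hp0 : p = 0
    · rw [hp0, mul_zero]; exact P.zero_mem
    refine ⟨fun x hx => ?_, fun x hx => ?_, fun x hx => ?_⟩
    · have a1 := exact2_key h2 hI h.swap12 (fun x => by have := hall x; tauto) hC hp0 hp.2.1 hx
      have a2 := exact2_key h2 hI h.swap23.swap12 (fun x => by have := hall x; tauto) hD hp0
        hp.2.2 hx
      have := hall (x + (1 - l) / l * p)
      tauto
    · have a1 := exact2_key h2 hI h hall hB hp0 hp.1 hx
      have a2 := exact2_key h2 hI h.swap23.swap12.swap23 (fun x => by have := hall x; tauto) hD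
        hp0 hp.2.2 hx
      have := hall (x + (1 - l) / l * p)
      tauto
    · have a1 := exact2_key h2 hI h.swap23 (fun x => by have := hall x; tauto) hB hp0 hp.1 hx
      have a2 := exact2_key h2 hI h.swap12.swap23 (fun x => by have := hall x; tauto) hC hp0
        hp.2.1 hx
      have := hall (x + (1 - l) / l * p)
      tauto)
  rcases hP with hP | hP
  · have : g ∈ P := ⟨pB, pC, pD⟩
    rw [hP] at this
    exact hg (AddSubgroup.mem_bot.mp this)
  · obtain ⟨b, hb⟩ := hB
    obtain ⟨z, hz⟩ := hC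
    have h1 : z - b ∈ P := by rw [hP]; trivial
    have h3 := h1.1 b hb
    rw [add_sub_cancel] at h3
    exact disjoint_left.mp h.dBC h3 hz

/-- the number of points of `X` in the translate `x + G` -/
def exact2_cnt (G X : Finset F) (x : F) : ℕ := (G.filter (fun h => x + h ∈ X)).card

theorem exact2_cnt_le (G X : Finset F) (x : F) : exact2_cnt G X x ≤ X.card := by
  refine card_le_card_of_injOn (fun h => x + h) (fun h hh => (mem_filter.mp hh).2) ?_
  intro a _ b _ e
  exact add_left_cancel e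

theorem exact2_cnt_shift {H : AddSubgroup F} {G : Finset F} (hG : ∀ h, h ∈ G ↔ h ∈ H)
    (X : Finset F) (x : F) {g : F} (hg : g ∈ H) : exact2_cnt G X x ≤ exact2_cnt G X (x + g) := by
  refine card_le_card_of_injOn (fun h => h - g) (fun h hh => ?_) ?_
  · obtain ⟨h1, h2⟩ := mem_filter.mp hh
    refine mem_filter.mpr ⟨(hG _).mpr (H.sub_mem ((hG _).mp h1) hg), ?_⟩
    have e : x + g + (h - g) = x + h := by ring
    rwa [e]
  · intro a _ b _ e
    exact sub_left_injective e

theorem exact2_cnt_sum [Fintype F] (G X : Finset F) :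
    ∑ x, exact2_cnt G X x = G.card * X.card := by
  simp only [exact2_cnt, card_filter]
  rw [sum_comm, ← smul_eq_mul, ← sum_const]
  refine sum_congr rfl fun h _ => ?_
  rw [← card_filter]
  refine card_nbij' (fun x => x + h) (fun x => x - h) ?_ ?_ ?_ ?_
  · intro x hx
    exact (mem_filter.mp hx).2
  · intro x hx
    exact mem_filter.mpr ⟨mem_univ _, by rwa [sub_add_cancel]⟩
  · intro x _
    simp
  · intro x _
    simp

theorem exact2_cnt_cover [Fintype F] (G B C D : Finset F) (x : F) :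
    G.card ≤ exact2_cnt G B x + exact2_cnt G C x + exact2_cnt G D x + ((B ∪ C ∪ D)ᶜ).card := by
  have h1 : G ⊆ G.filter (fun h => x + h ∈ B) ∪ G.filter (fun h => x + h ∈ C) ∪
      G.filter (fun h => x + h ∈ D) ∪ G.filter (fun h => x + h ∈ (B ∪ C ∪ D)ᶜ) := by
    intro h hh
    simp only [mem_union, mem_filter, mem_compl, hh, true_and]
    tauto
  have h2 := card_le_card h1
  have h3 := card_union_le (G.filter (fun h => x + h ∈ B) ∪ G.filter (fun h => x + h ∈ C) ∪
      G.filter (fun h => x + h ∈ D)) (G.filter (fun h => x + h ∈ (B ∪ C ∪ D)ᶜ))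
  have h4 := card_union_le (G.filter (fun h => x + h ∈ B) ∪ G.filter (fun h => x + h ∈ C))
      (G.filter (fun h => x + h ∈ D))
  have h5 := card_union_le (G.filter (fun h => x + h ∈ B)) (G.filter (fun h => x + h ∈ C))
  have h6 := exact2_cnt_le G (B ∪ C ∪ D)ᶜ x
  unfold exact2_cnt at h6 ⊢
  omega

theorem exact2_cnt_meet (G B C D : Finset F) (y z w : F)
    (h : 2 * G.card < exact2_cnt G B y + exact2_cnt G C z + exact2_cnt G D w) :
    ∃ k, y + k ∈ B ∧ z + k ∈ C ∧ w + k ∈ D := by
  by_contra hne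
  have h1 : G ⊆ G.filter (fun h => ¬ y + h ∈ B) ∪ G.filter (fun h => ¬ z + h ∈ C) ∪
      G.filter (fun h => ¬ w + h ∈ D) := by
    intro k hk
    simp only [mem_union, mem_filter, hk, true_and]
    by_contra h3
    exact hne ⟨k, by tauto⟩
  have h2 := card_le_card h1
  have h4 := card_union_le (G.filter (fun h => ¬ y + h ∈ B) ∪ G.filter (fun h => ¬ z + h ∈ C))
      (G.filter (fun h => ¬ w + h ∈ D))
  have h5 := card_union_le (G.filter (fun h => ¬ y + h ∈ B)) (G.filter (fun h => ¬ z + h ∈ C))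
  have a1 := card_filter_add_card_filter_not (s := G) (fun h => y + h ∈ B)
  have a2 := card_filter_add_card_filter_not (s := G) (fun h => z + h ∈ C)
  have a3 := card_filter_add_card_filter_not (s := G) (fun h => w + h ∈ D)
  unfold exact2_cnt at h
  omega

theorem exact2_mix {H : AddSubgroup F} {G : Finset F} (hG : ∀ h, h ∈ G ↔ h ∈ H) {N : ℕ} {x : F}
    {C D : Finset F} (hC : Nat.card H ≤ 10 * N * exact2_cnt G C x)
    (hD : Nat.card H ≤ 10 * N * exact2_cnt G D x) : Mix H N x C D := by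
  have key : ∀ X : Finset F, ∃ X1 ⊆ X, (∀ z ∈ X1, z - x ∈ H) ∧ X1.card = exact2_cnt G X x := by
    intro X
    refine ⟨(G.filter (fun h => x + h ∈ X)).image (fun h => x + h), ?_, ?_, ?_⟩
    · intro z hz
      obtain ⟨k, hk, rfl⟩ := mem_image.mp hz
      exact (mem_filter.mp hk).2
    · intro z hz
      obtain ⟨k, hk, rfl⟩ := mem_image.mp hz
      rw [add_sub_cancel_left]
      exact (hG k).mp (mem_filter.mp hk).1
    · exact card_image_of_injective _ (add_right_injective x)
  obtain ⟨C1, a1, a2, a3⟩ := key C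
  obtain ⟨D1, b1, b2, b3⟩ := key D
  exact ⟨C1, a1, D1, b1, a2, b2, a3 ▸ hC, b3 ▸ hD⟩

theorem exact2_star_ne [Fintype F] {G X : Finset F} {N : ℕ} (hG : 0 < G.card)
    (hX : Fintype.card F ≤ N * X.card) :
    (univ.filter (fun x => G.card ≤ 10 * N * exact2_cnt G X x)).Nonempty := by
  rw [nonempty_iff_ne_empty]
  intro e
  have h1 : ∀ x ∈ (univ : Finset F), 10 * N * exact2_cnt G X x ≤ G.card := by
    intro x _
    by_contra h2
    have : x ∈ univ.filter (fun x => G.card ≤ 10 * N * exact2_cnt G X x) :=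
      mem_filter.mpr ⟨mem_univ _, by omega⟩
    rw [e] at this
    exact notMem_empty _ this
  have h2 := sum_le_card_nsmul _ _ _ h1
  rw [← mul_sum, exact2_cnt_sum, card_univ, smul_eq_mul] at h2
  have h3 : 0 < Fintype.card F := Fintype.card_pos
  have h4 : Fintype.card F * G.card ≤ N * X.card * G.card := Nat.mul_le_mul_right _ hX
  have h5 : 0 < N * X.card * G.card := Nat.mul_pos (by omega) hG
  have h6 : 10 * N * (G.card * X.card) = 10 * (N * X.card * G.card) := by ring
  omega

theorem mixed2 [Fintype F] (h2 : (2 : F) = 0) (hI : Irr F) {l : F} {B C D : Finset F} {u N : ℕ}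
    (h : Trio l B C D) (hu : Fintype.card F = B.card + C.card + D.card + u)
    (hB : Fintype.card F ≤ N * B.card) (hC : Fintype.card F ≤ N * C.card)
    (hD : Fintype.card F ≤ N * D.card) (H : AddSubgroup F) (hH : 10 * (u + 1) ≤ Nat.card H) :
    ∃ x : F, Mix H N x C D ∨ Mix H N x B D ∨ Mix H N x B C := by
  classical
  by_contra hne
  obtain ⟨G, hG⟩ : ∃ G : Finset F, ∀ h, h ∈ G ↔ h ∈ H :=
    ⟨univ.filter (fun h => h ∈ H), fun h => by simp⟩
  have hGc : Nat.card H = G.card := Nat.subtype_card G hG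
  have hE : ((B ∪ C ∪ D)ᶜ).card = u := by
    rw [card_compl, card_union_of_disjoint (disjoint_union_left.mpr ⟨h.dBD, h.dCD⟩),
      card_union_of_disjoint h.dBC]
    omega
  have hN : 1 ≤ N := by
    have h3 : 0 < Fintype.card F := Fintype.card_pos
    rcases Nat.eq_zero_or_pos N with e | e
    · rw [e] at hB; omega
    · exact e
  have nCD : ∀ x, ¬ (G.card ≤ 10 * N * exact2_cnt G C x ∧ G.card ≤ 10 * N * exact2_cnt G D x) :=
    fun x hx => hne ⟨x, Or.inl (exact2_mix hG (hGc ▸ hx.1) (hGc ▸ hx.2))⟩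
  have nBD : ∀ x, ¬ (G.card ≤ 10 * N * exact2_cnt G B x ∧ G.card ≤ 10 * N * exact2_cnt G D x) :=
    fun x hx => hne ⟨x, Or.inr (Or.inl (exact2_mix hG (hGc ▸ hx.1) (hGc ▸ hx.2)))⟩
  have nBC : ∀ x, ¬ (G.card ≤ 10 * N * exact2_cnt G B x ∧ G.card ≤ 10 * N * exact2_cnt G C x) :=
    fun x hx => hne ⟨x, Or.inr (Or.inr (exact2_mix hG (hGc ▸ hx.1) (hGc ▸ hx.2)))⟩
  have small : ∀ (X : Finset F) (x : F), ¬ G.card ≤ 10 * N * exact2_cnt G X x →
      10 * exact2_cnt G X x < G.card := by
    intro X x hx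
    have : 10 * 1 * exact2_cnt G X x ≤ 10 * N * exact2_cnt G X x :=
      Nat.mul_le_mul_right _ (Nat.mul_le_mul_left _ hN)
    omega
  have cov := fun x => exact2_cnt_cover G B C D x
  rw [hE] at cov
  rw [hGc] at hH
  obtain ⟨St, hSt⟩ : ∃ St : Finset F → Finset F,
      ∀ X x, x ∈ St X ↔ G.card ≤ 10 * N * exact2_cnt G X x :=
    ⟨fun X => univ.filter (fun x => G.card ≤ 10 * N * exact2_cnt G X x), fun X x => by simp⟩
  have hne' : ∀ X : Finset F, Fintype.card F ≤ N * X.card → (St X).Nonempty := by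
    intro X hX
    obtain ⟨x, hx⟩ := exact2_star_ne (G := G) (by omega) hX
    exact ⟨x, (hSt X x).mpr (mem_filter.mp hx).2⟩
  obtain ⟨g, hgG, hg0⟩ := exists_mem_ne (s := G) (by omega) (0 : F)
  have per : ∀ X : Finset F, ∀ x ∈ St X, x + g ∈ St X := by
    intro X x hx
    rw [hSt] at hx ⊢
    exact hx.trans (Nat.mul_le_mul_left _ (exact2_cnt_shift hG X x ((hG g).mp hgG)))
  refine exact2 h2 hI (l := l) (B := St B) (C := St C) (D := St D)
    ⟨h.l0, h.l1, ?_, ?_, ?_, ?_⟩ ?_ (hne' B hB) (hne' C hC) (hne' D hD) hg0 (per B) (per C) (per D)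
  · intro s hs y hy z hz hw
    rw [hSt] at hy hz hw
    have y1 := small C y fun e => nBC y ⟨hy, e⟩
    have y2 := small D y fun e => nBD y ⟨hy, e⟩
    have z1 := small B z fun e => nBC z ⟨e, hz⟩
    have z2 := small D z fun e => nCD z ⟨hz, e⟩
    have w1 := small B _ fun e => nBD _ ⟨e, hw⟩
    have w2 := small C _ fun e => nCD _ ⟨e, hw⟩
    have c1 := cov y
    have c2 := cov z
    have c3 := cov ((1 - s) * y + s * z)
    obtain ⟨k, k1, k2, k3⟩ := exact2_cnt_meet G B C D y z ((1 - s) * y + s * z) (by omega)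
    have := h.sc s hs _ k1 _ k2
    have e : (1 - s) * (y + k) + s * (z + k) = (1 - s) * y + s * z + k := by ring
    rw [e] at this
    exact this k3
  · exact disjoint_left.mpr fun x a b => nBC x ⟨(hSt _ _).mp a, (hSt _ _).mp b⟩
  · exact disjoint_left.mpr fun x a b => nBD x ⟨(hSt _ _).mp a, (hSt _ _).mp b⟩
  · exact disjoint_left.mpr fun x a b => nCD x ⟨(hSt _ _).mp a, (hSt _ _).mp b⟩
  · intro x
    by_contra hx
    rw [hSt, hSt, hSt] at hx
    have a1 := small B x fun e => hx (Or.inl e)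
    have a2 := small C x fun e => hx (Or.inr (Or.inl e))
    have a3 := small D x fun e => hx (Or.inr (Or.inr e))
    have c1 := cov x
    omega

end Pool.Agent.P.MP_862e21_al
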