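import Pool.Agent.P.MP_862e21_al.Incr2
import Pool.Agent.P.MP_862e21_al.Exact2

namespace Pool.Agent.P.MP_862e21_al

open Finset Pointwise

theorem dense2_step {F : Type*} [Field F] [Fintype F] [DecidableEq F] (h2 : (2 : F) = 0)
    {e : AddChar F ℂ} (he : e.IsPrimitive) {l : F} {B C D : Finset F} {u n N I : ℕ}
    (h : Trio l B C D) (hu : Fintype.card F = B.card + C.card + D.card + u) (hn : 1 ≤ n)
    (hinv : ∀ z : F, Fintype.card F ≤ n * (B.filter (fun y => (1 - l) * y + l * z ∉ B)).card)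
    (hun : 2 * n * u ≤ Fintype.card F) {K H : AddSubgroup F} (hK : Fintype.card F ≤ I * Nat.card K)
    (hc : Nat.card H = Nat.card K) (hH : ∀ y ∈ H, l * y / (1 - l) ∈ K) {x : F}
    (hm : Mix H N x C D) :
    ∃ K' : AddSubgroup F, Fintype.card F ≤ I * 2 ^ (128 * n ^ 2 * (10 * N * I)) * Nat.card K' ∧
      en e K B + en e K C + en e K D + (Fintype.card F : ℝ) ^ 2 / (32 * (n : ℝ) ^ 2) ≤
        en e K' B + en e K' C + en e K' D := by
  obtain ⟨C1, hC1, D1, hD1, kC, kD, mC, mD⟩ := hm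
  have m : ∀ c : ℕ, Nat.card H ≤ 10 * N * c → Fintype.card F ≤ 10 * N * I * c := fun c hc' =>
    calc Fintype.card F ≤ I * (10 * N * c) := hK.trans (Nat.mul_le_mul_left I (hc ▸ hc'))
      _ = _ := by ring
  obtain ⟨K', h1, h3, h4⟩ := incr2 h2 he h hu hn hinv hun K hC1 hD1
    (fun z hz => hH _ (kC z hz)) (fun z hz => hH _ (kD z hz)) (m _ mC) (m _ mD)
  refine ⟨K', hK.trans ?_, ?_⟩
  · rw [mul_assoc I]
    exact Nat.mul_le_mul_left I h3
  · linarith [en_mono e h1 C, en_mono e h1 D]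

theorem dense2 (N N' : ℕ) : ∃ q0 : ℕ, ∀ (F : Type) [Field F] [Fintype F] [DecidableEq F],
    (2 : F) = 0 → Irr F → q0 ≤ Fintype.card F → ∀ (l : F) (B C D : Finset F) (u : ℕ),
      Trio l B C D → Fintype.card F = B.card + C.card + D.card + u →
      Fintype.card F ≤ N * B.card → Fintype.card F ≤ N * C.card → Fintype.card F ≤ N * D.card →
      u ≤ N' → False := by
  obtain ⟨n, q1, hn, hinv⟩ := invar2 N
  obtain ⟨I, I0, Is⟩ : ∃ I : ℕ → ℕ, I 0 = 1 ∧
      ∀ j, I (j + 1) = I j * 2 ^ (128 * n ^ 2 * (10 * N * I j)) :=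
    ⟨fun j => Nat.rec 1 (fun _ i => i * 2 ^ (128 * n ^ 2 * (10 * N * i))) j, rfl, fun _ => rfl⟩
  have Imono : Monotone I := monotone_nat_of_le_succ fun j => by
    rw [Is]
    exact Nat.le_mul_of_pos_right _ (by positivity)
  have Ipos : ∀ j, 0 < I j := fun j => lt_of_lt_of_le (by omega) (Imono (Nat.zero_le j))
  refine ⟨max q1 (max (2 * n * N') (I (32 * n ^ 2) * (10 * (N' + 1)))), ?_⟩
  intro F _ _ _ h2 hI hq l B C D u h hu hB hC hD huN
  obtain ⟨hq1, hq2, hq3⟩ : q1 ≤ Fintype.card F ∧ 2 * n * N' ≤ Fintype.card F ∧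
      I (32 * n ^ 2) * (10 * (N' + 1)) ≤ Fintype.card F := by
    rwa [max_le_iff, max_le_iff] at hq
  have hun : 2 * n * u ≤ Fintype.card F := (Nat.mul_le_mul_left _ huN).trans hq2
  obtain ⟨e, he⟩ := exists_char (F := F)
  have hl : 1 - l ≠ 0 := sub_ne_zero.2 h.l1.symm
  have key : ∀ j : ℕ, j ≤ 32 * n ^ 2 + 1 → ∃ K : AddSubgroup F,
      Fintype.card F ≤ I j * Nat.card K ∧
      j * ((Fintype.card F : ℝ) ^ 2 / (32 * (n : ℝ) ^ 2)) ≤ en e K B + en e K C + en e K D := by
    intro j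
    induction j with
    | zero =>
      intro _
      refine ⟨⊤, by rw [I0, one_mul, AddSubgroup.card_top, Nat.card_eq_fintype_card], ?_⟩
      rw [Nat.cast_zero, zero_mul]
      linarith [en_nonneg e ⊤ B, en_nonneg e ⊤ C, en_nonneg e ⊤ D]
    | succ j ih =>
      intro hj
      obtain ⟨K, hK, hE⟩ := ih (by omega)
      obtain ⟨H, hc, hH⟩ : ∃ H : AddSubgroup F, Nat.card H = Nat.card K ∧
          ∀ y ∈ H, l * y / (1 - l) ∈ K := by
        refine ⟨K.map (AddMonoidHom.mulLeft ((1 - l) / l)), ?_, ?_⟩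
        · exact AddSubgroup.card_map_of_injective
            (mul_right_injective₀ (div_ne_zero hl h.l0))
        · rintro _ ⟨k, hk, rfl⟩
          have h0 := h.l0
          have : l * (AddMonoidHom.mulLeft ((1 - l) / l) k) / (1 - l) = k := by
            rw [AddMonoidHom.coe_mulLeft]
            field_simp
          rwa [this]
      have hbig : 10 * (u + 1) ≤ Nat.card H := by
        rw [hc]
        refine Nat.le_of_mul_le_mul_left (le_trans ?_ (hq3.trans hK)) (Ipos j)
        exact Nat.mul_le_mul (Imono (by omega)) (by omega)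
      obtain ⟨x, hm⟩ := mixed2 h2 hI h hu hB hC hD H hbig
      have fin : ∃ K' : AddSubgroup F, Fintype.card F ≤ I (j + 1) * Nat.card K' ∧
          en e K B + en e K C + en e K D + (Fintype.card F : ℝ) ^ 2 / (32 * (n : ℝ) ^ 2) ≤
            en e K' B + en e K' C + en e K' D := by
        rw [Is]
        rcases hm with hm | hm | hm
        · exact dense2_step h2 he h hu hn (hinv F h2 hI hq1 l B C D h hB hC hD) hun hK hc hH hm
        · obtain ⟨K', h1, h3⟩ := dense2_step h2 he h.swap12 (u := u) (by omega) hn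
            (hinv F h2 hI hq1 l C B D h.swap12 hC hB hD) hun hK hc hH hm
          exact ⟨K', h1, by linarith⟩
        · obtain ⟨K', h1, h3⟩ := dense2_step h2 he h.swap23.swap12 (u := u) (by omega) hn
            (hinv F h2 hI hq1 l D B C h.swap23.swap12 hD hB hC) hun hK hc hH hm
          exact ⟨K', h1, by linarith⟩
      obtain ⟨K', h1, h3⟩ := fin
      refine ⟨K', h1, ?_⟩
      push_cast
      linarith
  obtain ⟨K, -, hE⟩ := key _ le_rfl
  have hq0 : (0 : ℝ) < Fintype.card F := by exact_mod_cast Fintype.card_pos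
  have hn' : (0 : ℝ) < n := by exact_mod_cast hn
  have hs : (B.card : ℝ) + C.card + D.card ≤ Fintype.card F := by
    exact_mod_cast (by omega : B.card + C.card + D.card ≤ Fintype.card F)
  have e1 := en_le he K B
  have e2 := en_le he K C
  have e3 := en_le he K D
  have e4 : ((32 * n ^ 2 + 1 : ℕ) : ℝ) * ((Fintype.card F : ℝ) ^ 2 / (32 * (n : ℝ) ^ 2)) =
      (Fintype.card F : ℝ) ^ 2 + (Fintype.card F : ℝ) ^ 2 / (32 * (n : ℝ) ^ 2) := by
    push_cast
    field_simp
  have e5 : 0 < (Fintype.card F : ℝ) ^ 2 / (32 * (n : ℝ) ^ 2) := by positivity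
  nlinarith [mul_le_mul_of_nonneg_left hs hq0.le]

end Pool.Agent.P.MP_862e21_al
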