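import Pool.Agent.P.MP_862e21_al.Basic

namespace Pool.Agent.P.MP_862e21_al

open Finset Pointwise

variable {F : Type*} [Field F] [DecidableEq F]

variable [Fintype F]

theorem cover_three {l : F} {B C D : Finset F} {u : ℕ} (h : Trio l B C D)
    (hu : Fintype.card F = B.card + C.card + D.card + u) (h3 : B.card + u ≤ 2 * C.card) {s : F}
    (hs : s ∈ Lam l) : (((1 - s) / s) • B + C).card ≤ 3 * C.card := by
  have h1 := h.comb_le hu hs
  rw [card_comb (lam_ne_zero h.l0 h.l1 hs)] at h1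
  omega

theorem trio_sub {l : F} {B C D : Finset F} {u L : ℕ} (h : Trio l B C D)
    (hu : Fintype.card F = B.card + C.card + D.card + u) (hB : B.Nonempty)
    (h3 : B.card + u ≤ 2 * C.card) (hL : C.card ≤ L * B.card) :
    (C - C).card ≤ 9 * L * C.card := by
  have h0 : (1 - l) / l ≠ 0 := div_ne_zero (sub_ne_zero.2 h.l1.symm) h.l0
  have h1 := cover_three h hu h3 (self_mem_Lam l)
  have h2 := ruzsa_triangle_inequality_sub_add_add C (((1 - l) / l) • B) C
  rw [card_smul_finset₀ h0, add_comm C] at h2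
  refine Nat.le_of_mul_le_mul_right ?_ hB.card_pos
  calc _ ≤ (3 * C.card) * (3 * C.card) := h2.trans (Nat.mul_le_mul h1 h1)
    _ ≤ (3 * C.card) * (3 * (L * B.card)) :=
        Nat.mul_le_mul_left _ (Nat.mul_le_mul_left _ hL)
    _ = 9 * L * C.card * B.card := by ring

theorem trio_cover {l : F} {B C D : Finset F} {u : ℕ} (h : Trio l B C D)
    (hu : Fintype.card F = B.card + C.card + D.card + u) (hC : C.Nonempty)
    (h3 : B.card + u ≤ 2 * C.card) :
    ∃ T : Finset F, T.card ≤ 9 ∧ B ⊆ T + ((C + C) - (C + C)) := by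
  have h0 := h.l0
  have h1 : 1 - l ≠ 0 := sub_ne_zero.2 h.l1.symm
  have a1 := cover_three h hu h3 (s := (1 - l)⁻¹) (by simp [mem_Lam])
  have a2 := cover_three h hu h3 (s := l⁻¹) (by simp [mem_Lam])
  rw [show (1 - (1 - l)⁻¹) / (1 - l)⁻¹ = -l by field_simp; ring] at a1
  rw [show (1 - l⁻¹) / l⁻¹ = l - 1 by field_simp] at a2
  obtain ⟨T1, -, c1, s1⟩ := ruzsa_covering_add (K := 3) (A := (-l) • B) hC (by exact_mod_cast a1)
  obtain ⟨T2, -, c2, s2⟩ := ruzsa_covering_add (K := 3) (A := (l - 1) • B) hC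
    (by exact_mod_cast a2)
  have d1 : T1.card ≤ 3 := by exact_mod_cast c1
  have d2 : T2.card ≤ 3 := by exact_mod_cast c2
  refine ⟨image₂ (fun a b => -a - b) T1 T2,
    (card_image₂_le _ _ _).trans (Nat.mul_le_mul d1 d2), fun β hβ => ?_⟩
  obtain ⟨t1, ht1, _, hx, e1⟩ := mem_add.1 (s1 (smul_mem_smul_finset hβ))
  obtain ⟨x1, hx1, x2, hx2, rfl⟩ := mem_sub.1 hx
  obtain ⟨t2, ht2, _, hy, e2⟩ := mem_add.1 (s2 (smul_mem_smul_finset hβ))
  obtain ⟨y1, hy1, y2, hy2, rfl⟩ := mem_sub.1 hy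
  rw [smul_eq_mul] at e1 e2
  refine mem_add.2 ⟨_, mem_image₂_of_mem ht1 ht2, _,
    sub_mem_sub (add_mem_add hx2 hy2) (add_mem_add hx1 hy1), ?_⟩
  linear_combination -e1 - e2

theorem trio_add {l : F} {B C D : Finset F} {u L : ℕ} (h : Trio l B C D)
    (hu : Fintype.card F = B.card + C.card + D.card + u) (hB : B.Nonempty) (hC : C.Nonempty)
    (h3 : B.card + u ≤ 2 * C.card) (hL : C.card ≤ L * B.card) :
    (B + C).card ≤ 9 * (9 * L) ^ 5 * C.card := by
  obtain ⟨T, hT, hs⟩ := trio_cover h hu hC h3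
  have h1 := trio_sub h hu hB h3 hL
  have h2 : B + C ⊆ T + (3 • C - 2 • C) := by
    intro w hw
    obtain ⟨β, hβ, z, hz, rfl⟩ := mem_add.1 hw
    obtain ⟨t, ht, _, hx, rfl⟩ := mem_add.1 (hs hβ)
    obtain ⟨x, hx1, y, hy, rfl⟩ := mem_sub.1 hx
    rw [three'_nsmul, two_nsmul]
    exact mem_add.2 ⟨t, ht, _, sub_mem_sub (add_mem_add hx1 hz) hy, by ring⟩
  have h4 : (3 • C - 2 • C).card ≤ (9 * L) ^ 5 * C.card := by
    have h5 := pluennecke_ruzsa_inequality_nsmul_sub_nsmul_sub hC C 3 2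
    have hc : (0 : ℚ≥0) < C.card := by exact_mod_cast hC.card_pos
    have h6 : ((C - C).card / C.card : ℚ≥0) ≤ 9 * L := by
      rw [div_le_iff₀ hc]
      exact_mod_cast h1
    have h7 : ((3 • C - 2 • C).card : ℚ≥0) ≤ (9 * L) ^ 5 * C.card :=
      h5.trans (mul_le_mul_left (pow_le_pow_left₀ zero_le h6 _) _)
    exact_mod_cast h7
  calc _ ≤ T.card * (3 • C - 2 • C).card := (card_le_card h2).trans card_add_le
    _ ≤ 9 * ((9 * L) ^ 5 * C.card) := Nat.mul_le_mul hT h4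
    _ = _ := by ring

theorem energy_low {B C : Finset F} {K : ℕ} (hC : C.Nonempty) (h : (B + C).card ≤ K * C.card) :
    B.card ^ 2 * C.card ≤
      K * ((B ×ˢ B ×ˢ C).filter (fun p => p.2.2 + p.1 - p.2.1 ∈ C)).card := by
  have h1 := le_card_add_mul_addEnergy B C
  have h2 : addEnergy B C ≤
      ((B ×ˢ B ×ˢ C).filter (fun p => p.2.2 + p.1 - p.2.1 ∈ C)).card := by
    unfold addEnergy
    refine card_le_card_of_injOn (fun x => (x.1.1, x.1.2, x.2.1)) (fun x hx => ?_)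
      fun x hx y hy e => ?_
    · simp only [coe_filter, mem_product, Set.mem_ofPred_eq] at hx ⊢
      refine ⟨⟨hx.1.1.1, hx.1.1.2, hx.1.2.1⟩, ?_⟩
      rw [show x.2.1 + x.1.1 - x.1.2 = x.2.2 by linear_combination hx.2]
      exact hx.1.2.2
    · simp only [coe_filter, mem_product, Set.mem_ofPred_eq, Prod.mk.injEq] at hx hy e
      refine Prod.ext (Prod.ext e.1 e.2.1) (Prod.ext e.2.2 ?_)
      linear_combination hy.2 - hx.2 + e.1 - e.2.1 + e.2.2
  refine Nat.le_of_mul_le_mul_right ?_ hC.card_pos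
  calc _ = B.card ^ 2 * C.card ^ 2 := by ring
    _ ≤ K * C.card * _ := h1.trans (Nat.mul_le_mul h h2)
    _ = _ := by ring

theorem two_sets {ι Ω : Type*} [DecidableEq Ω] (A : Finset ι) (U : Finset Ω) (G : ι → Finset Ω)
    {K : ℕ} (hK : 1 ≤ K) (hG : ∀ x ∈ A, G x ⊆ U) (hd : ∀ x ∈ A, U.card ≤ K * (G x).card)
    (hA : 2 * K ≤ A.card) :
    ∃ x ∈ A, ∃ x' ∈ A, x ≠ x' ∧ U.card ≤ 2 * K ^ 2 * (G x ∩ G x').card := by
  classical
  by_contra hcon
  push Not at hcon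
  obtain ⟨x0, hx0, x1, hx1, hne⟩ := one_lt_card.1 (show 1 < A.card by omega)
  have hN : 0 < U.card := lt_of_le_of_lt (Nat.zero_le _) (hcon x0 hx0 x1 hx1 hne)
  obtain ⟨m, hm⟩ : ∃ m, A.card = m + 1 := ⟨A.card - 1, by omega⟩
  let f : ι → Ω → ℕ := fun x w => if w ∈ G x then 1 else 0
  have e1 : ∀ x ∈ A, (G x).card = ∑ w ∈ U, f x w := by
    intro x hx
    rw [← card_filter, filter_mem_eq_inter, inter_eq_right.2 (hG x hx)]
  have e2 : ∀ x ∈ A, ∀ y, (G x ∩ G y).card = ∑ w ∈ U, f x w * f y w := by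
    intro x hx y
    have : ∀ w, f x w * f y w = if w ∈ G x ∩ G y then 1 else 0 := by
      intro w
      by_cases a : w ∈ G x <;> by_cases b : w ∈ G y <;> simp [f, a, b]
    simp only [this]
    rw [← card_filter, filter_mem_eq_inter,
      inter_eq_right.2 (inter_subset_left.trans (hG x hx))]
  have a1 : (∑ x ∈ A, (G x).card) ^ 2 ≤ U.card * ∑ x ∈ A, ∑ y ∈ A, (G x ∩ G y).card := by
    have b1 : ∑ x ∈ A, (G x).card = ∑ w ∈ U, ∑ x ∈ A, f x w := by
      rw [sum_congr rfl e1, sum_comm]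
    have b2 : ∑ x ∈ A, ∑ y ∈ A, (G x ∩ G y).card = ∑ w ∈ U, (∑ x ∈ A, f x w) ^ 2 := by
      rw [sum_congr rfl fun x hx => sum_congr rfl fun y _ => e2 x hx y,
        sum_congr rfl fun x _ => sum_comm, sum_comm]
      exact sum_congr rfl fun w _ => by rw [sq, sum_mul_sum]
    rw [b1, b2]
    exact sq_sum_le_card_mul_sum_sq
  have a2 : 2 * K ^ 2 * ∑ x ∈ A, ∑ y ∈ A, (G x ∩ G y).card ≤
      2 * K ^ 2 * ∑ x ∈ A, (G x).card + (m + 1) * (m * U.card) := by
    rw [mul_sum, mul_sum, ← hm, ← smul_eq_mul A.card, ← sum_const, ← sum_add_distrib]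
    refine sum_le_sum fun x hx => ?_
    rw [← add_sum_erase _ _ hx, inter_self, mul_add, mul_sum]
    refine Nat.add_le_add_left ((sum_le_card_nsmul _ _ U.card fun y hy =>
      (hcon x hx y (mem_of_mem_erase hy) (ne_of_mem_erase hy).symm).le).trans ?_) _
    rw [card_erase_of_mem hx, hm, smul_eq_mul, Nat.add_sub_cancel]
  have a3 : (m + 1) * U.card ≤ K * ∑ x ∈ A, (G x).card := by
    rw [mul_sum, ← hm, ← smul_eq_mul A.card]
    exact card_nsmul_le_sum _ _ _ hd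
  generalize ∑ x ∈ A, ∑ y ∈ A, (G x ∩ G y).card = Q at a1 a2
  generalize ∑ x ∈ A, (G x).card = S at a1 a2 a3
  generalize U.card = N at a1 a2 a3 hN
  rw [hm] at hA
  have a4 : 2 * N ≤ S := by
    refine Nat.le_of_mul_le_mul_left ?_ (show 0 < K by omega)
    calc K * (2 * N) = 2 * K * N := by ring
      _ ≤ (m + 1) * N := Nat.mul_le_mul_right _ hA
      _ ≤ _ := a3
  have a5 : 2 * K ^ 2 * S ^ 2 ≤ N * (2 * K ^ 2 * S + (m + 1) * (m * N)) :=
    calc _ ≤ 2 * K ^ 2 * (N * Q) := Nat.mul_le_mul_left _ a1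
      _ = N * (2 * K ^ 2 * Q) := by ring
      _ ≤ _ := Nat.mul_le_mul_left _ a2
  have a6 : K ^ 2 * S * (2 * N) ≤ K ^ 2 * S * S := Nat.mul_le_mul_left _ a4
  have a7 : ((m + 1) * N) * ((m + 1) * N) ≤ (K * S) * (K * S) := Nat.mul_le_mul a3 a3
  have a8 : 0 < (m + 1) * (N * N) := by positivity
  nlinarith

theorem popular {B C : Finset F} (G : Finset (F × F × F)) (hG : G ⊆ B ×ˢ B ×ˢ C) {K : ℕ}
    (hB : B.Nonempty) (hC : C.Nonempty) (h : B.card ^ 2 * C.card ≤ K * G.card) :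
    ∃ β0 ∈ B, ∃ B' ⊆ B, B.card ≤ 2 * K * B'.card ∧
      ∀ β ∈ B', C.card ≤ 2 * K * (C.filter (fun z => (β, β0, z) ∈ G)).card := by
  have e1 : G.card = ∑ β0 ∈ B, ∑ β ∈ B, (C.filter (fun z => (β, β0, z) ∈ G)).card := by
    have : G = (B ×ˢ B ×ˢ C).filter (fun p => p ∈ G) := by
      rw [filter_mem_eq_inter, inter_eq_right.2 hG]
    conv_lhs => rw [this, card_filter, sum_product]
    refine Eq.trans (sum_congr rfl fun β _ => ?_) sum_comm
    rw [sum_product]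
    exact sum_congr rfl fun β0 _ => (card_filter _ _).symm
  obtain ⟨β0, h0, h1⟩ := exists_le_of_sum_le (s := B) (f := fun _ => B.card * C.card)
    (g := fun β0 => K * ∑ β ∈ B, (C.filter (fun z => (β, β0, z) ∈ G)).card) hB (by
      rw [sum_const, ← mul_sum, ← e1, smul_eq_mul, ← mul_assoc, ← sq]
      exact h)
  refine ⟨β0, h0, B.filter (fun β => C.card ≤ 2 * K * (C.filter (fun z => (β, β0, z) ∈ G)).card),
    filter_subset _ _, ?_, fun β hβ => (mem_filter.1 hβ).2⟩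
  refine Nat.le_of_mul_le_mul_right ?_ hC.card_pos
  have h2 : ∑ β ∈ B, 2 * K * (C.filter (fun z => (β, β0, z) ∈ G)).card ≤ ∑ β ∈ B, (C.card +
      if C.card ≤ 2 * K * (C.filter (fun z => (β, β0, z) ∈ G)).card then 2 * K * C.card
        else 0) := by
    refine sum_le_sum fun β _ => ?_
    split_ifs with hh
    · exact (Nat.mul_le_mul_left _ (card_filter_le _ _)).trans (Nat.le_add_left _ _)
    · omega
  rw [sum_add_distrib, ← sum_filter, sum_const, sum_const, smul_eq_mul, smul_eq_mul,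
    ← mul_sum] at h2
  nlinarith

end Pool.Agent.P.MP_862e21_al
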