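import Pool.Agent.P.MP_862e21_al.Bkt
import Pool.Agent.P.MP_862e21_al.Cover

namespace Pool.Agent.P.MP_862e21_al

open Finset Pointwise

variable {F : Type*} [Field F] [DecidableEq F]

theorem chart_change {x z z' β β0 : F} (h1 : z ≠ x) (h2 : z' ≠ x) (h3 : β ≠ x) (h4 : β0 ≠ x)
    (h5 : z ≠ β0) (h6 : z' ≠ β) (h : (z - x)⁻¹ + (β - x)⁻¹ - (β0 - x)⁻¹ = (z' - x)⁻¹) :
    (z - β0)⁻¹ = ((β - x) / (β0 - x) ^ 2 - (β0 - x)⁻¹) + ((β - x) / (β0 - x)) ^ 2 * (z' - β)⁻¹ := by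
  have e1 : z - β0 = (z - x) - (β0 - x) := by ring
  have e2 : z' - β = (z' - x) - (β - x) := by ring
  have a1 : z - x ≠ 0 := sub_ne_zero.mpr h1
  have a2 : z' - x ≠ 0 := sub_ne_zero.mpr h2
  have a3 : β - x ≠ 0 := sub_ne_zero.mpr h3
  have a4 : β0 - x ≠ 0 := sub_ne_zero.mpr h4
  have a5 : (z - x) - (β0 - x) ≠ 0 := by rw [← e1]; exact sub_ne_zero.mpr h5
  have a6 : (z' - x) - (β - x) ≠ 0 := by rw [← e2]; exact sub_ne_zero.mpr h6
  rw [e1, e2]
  generalize z - x = p at *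
  generalize z' - x = q at *
  generalize β - x = r at *
  generalize β0 - x = s at *
  have h' : q * r * s + p * q * s - p * q * r = p * r * s := by
    have := congrArg (fun t => t * (p * q * r * s)) h
    field_simp at this
    linear_combination this
  field_simp
  linear_combination h'

/-- the popular triples seen from the point x -/
def Gx (B C : Finset F) (x : F) : Finset (F × F × F) :=
  (B ×ˢ B ×ˢ C).filter (fun p => (p.2.2 - x)⁻¹ + (p.1 - x)⁻¹ - (p.2.1 - x)⁻¹ ∈ ch x C)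

theorem ch_nonempty (x : F) {S : Finset F} (h : S.Nonempty) : (ch x S).Nonempty := h.image _

theorem Gx_big [Fintype F] {l : F} {A B C : Finset F} {L : ℕ} (h : Cl l A B C)
    (ab : A.card ≤ B.card) (bc : B.card ≤ C.card) (hL : C.card ≤ L * A.card) {x : F}
    (hx : x ∈ A) : B.card ^ 2 * C.card ≤ 9 * (9 * L) ^ 5 * (Gx B C x).card := by
  obtain ⟨D, hT, hu⟩ := h.chart hx
  have h1 := trio_add (u := A.card - 1) (L := L) hT (by rw [card_ch, card_ch]; exact hu)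
    (ch_nonempty x h.nB) (ch_nonempty x h.nC) (by rw [card_ch, card_ch]; omega)
    (by rw [card_ch, card_ch]; exact hL.trans (Nat.mul_le_mul_left _ ab))
  have h2 := energy_low (ch_nonempty x h.nC) h1
  rw [card_ch, card_ch] at h2
  refine h2.trans (Nat.mul_le_mul_left _ ?_)
  refine le_trans (card_le_card ?_) (card_image_le (s := Gx B C x)
    (f := fun p => ((p.1 - x)⁻¹, (p.2.1 - x)⁻¹, (p.2.2 - x)⁻¹)))
  rintro ⟨p1, p2, p3⟩ hp
  simp only [mem_filter, mem_product] at hp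
  obtain ⟨⟨q1, q2, q3⟩, q4⟩ := hp
  obtain ⟨y1, hy1, rfl⟩ := mem_ch.mp q1
  obtain ⟨y2, hy2, rfl⟩ := mem_ch.mp q2
  obtain ⟨y3, hy3, rfl⟩ := mem_ch.mp q3
  refine mem_image.mpr ⟨(y1, y2, y3), ?_, rfl⟩
  simp only [Gx, mem_filter, mem_product]
  exact ⟨⟨hy1, hy2, hy3⟩, q4⟩

theorem ch_sub_le [Fintype F] {l : F} {A B C : Finset F} {L : ℕ} (h : Cl l A B C)
    (ab : A.card ≤ B.card) (bc : B.card ≤ C.card) (hL : C.card ≤ L * A.card) {β : F}
    (hβ : β ∈ B) : (ch β C - ch β C).card ≤ 9 * L * (ch β C).card := by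
  obtain ⟨D, hT, hu⟩ := h.swap12.chart hβ
  exact trio_sub (u := B.card - 1) (L := L) hT (by rw [card_ch, card_ch]; exact hu)
    (ch_nonempty β h.nA) (by rw [card_ch, card_ch]; omega) (by rw [card_ch, card_ch]; exact hL)

theorem Gx_rep {l : F} {A B C : Finset F} (h : Cl l A B C) {x β β0 z : F} (hx : x ∈ A)
    (hz : (β, β0, z) ∈ Gx B C x) :
    ∃ w ∈ ch β C, (z - β0)⁻¹ =
      ((β - x) / (β0 - x) ^ 2 - (β0 - x)⁻¹) + ((β - x) / (β0 - x)) ^ 2 * w := by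
  simp only [Gx, mem_filter, mem_product] at hz
  obtain ⟨⟨q1, q2, q3⟩, q4⟩ := hz
  obtain ⟨z', hz', e⟩ := mem_ch.mp q4
  refine ⟨(z' - β)⁻¹, mem_ch.mpr ⟨z', hz', rfl⟩, chart_change ?_ ?_ ?_ ?_ ?_ ?_ e.symm⟩
  · exact fun e => disjoint_left.mp h.dAC hx (e ▸ q3)
  · exact fun e => disjoint_left.mp h.dAC hx (e ▸ hz')
  · exact fun e => disjoint_left.mp h.dAB hx (e ▸ q1)
  · exact fun e => disjoint_left.mp h.dAB hx (e ▸ q2)
  · exact fun e => disjoint_left.mp h.dBC q2 (e ▸ q3)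
  · exact fun e => disjoint_left.mp h.dBC q1 (e ▸ hz')

theorem two_to_one {B : Finset F} {x0 x1 β0 : F} (hne : x0 ≠ x1) (h0 : ∀ β ∈ B, β ≠ x0)
    (h1 : ∀ β ∈ B, β ≠ x1) (g0 : β0 ≠ x0) (g1 : β0 ≠ x1) :
    B.card ≤ 2 * (B.image
      (fun β => ((β - x0) / (β0 - x0)) ^ 2 / ((β - x1) / (β0 - x1)) ^ 2)).card := by
  apply card_le_mul_card_image
  intro m hm
  obtain ⟨b, hb, rfl⟩ := mem_image.mp hm
  have c0 : β0 - x0 ≠ 0 := sub_ne_zero.mpr g0
  have c1 : β0 - x1 ≠ 0 := sub_ne_zero.mpr g1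
  have c2 : x0 - x1 ≠ 0 := sub_ne_zero.mpr hne
  refine le_trans (card_le_card_of_injOn (t := {(b - x0) / (b - x1), -((b - x0) / (b - x1))})
    (fun β => (β - x0) / (β - x1)) ?_ ?_) (card_le_two)
  · intro β hβ
    obtain ⟨hβ1, hβ2⟩ := mem_filter.mp (mem_coe.mp hβ)
    have d0 : β - x0 ≠ 0 := sub_ne_zero.mpr (h0 β hβ1)
    have d1 : β - x1 ≠ 0 := sub_ne_zero.mpr (h1 β hβ1)
    have d2 : b - x0 ≠ 0 := sub_ne_zero.mpr (h0 b hb)
    have d3 : b - x1 ≠ 0 := sub_ne_zero.mpr (h1 b hb)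
    have e : ((β - x0) / (β - x1)) ^ 2 = ((b - x0) / (b - x1)) ^ 2 := by
      have k : ∀ t : F, t - x1 ≠ 0 → ((t - x0) / (t - x1)) ^ 2 =
          ((t - x0) / (β0 - x0)) ^ 2 / ((t - x1) / (β0 - x1)) ^ 2 *
            ((β0 - x0) / (β0 - x1)) ^ 2 := by
        intro t ht
        field_simp
      rw [k β d1, k b d3, hβ2]
    simp only [coe_insert, coe_singleton, Set.mem_insert_iff, Set.mem_singleton_iff]
    exact sq_eq_sq_iff_eq_or_eq_neg.mp e
  · intro β hβ β' hβ' e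
    have d1 : β - x1 ≠ 0 := sub_ne_zero.mpr (h1 β (mem_filter.mp (mem_coe.mp hβ)).1)
    have d3 : β' - x1 ≠ 0 := sub_ne_zero.mpr (h1 β' (mem_filter.mp (mem_coe.mp hβ')).1)
    simp only at e
    rw [div_eq_div_iff d1 d3] at e
    have : (x0 - x1) * (β - β') = 0 := by linear_combination e
    rcases mul_eq_zero.mp this with k | k
    · exact absurd k c2
    · exact sub_eq_zero.mp k

theorem spPop (L : ℕ) : ∃ K k0 : ℕ, ∀ (F : Type) [Field F] [Fintype F] [DecidableEq F],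
    ∀ (l : F) (A B C : Finset F), Cl l A B C → A.card ≤ B.card → B.card ≤ C.card →
      C.card ≤ L * A.card → k0 ≤ A.card →
      ∃ C' M : Finset F, C'.card = C.card ∧ Good K C' 1 ∧ (∀ m ∈ M, Good K C' m) ∧
        C'.card ≤ K * M.card := by
  set K1 := 9 * (9 * L) ^ 5 with hK1
  set K2 := 2 * K1 ^ 2 with hK2
  refine ⟨9 * L + (2 * K2 * (9 * L) ^ 2) ^ 2 + 4 * K2 * L, 2 * K1, ?_⟩
  intro F _ _ _ l A B C h ab bc hL hk
  have hc := card_pos.mpr h.nC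
  have hL1 : 1 ≤ L := by
    rcases Nat.eq_zero_or_pos L with e | e
    · rw [e] at hL; omega
    · exact e
  have hK : 1 ≤ K1 := by
    have : 0 < 9 * (9 * L) ^ 5 := by positivity
    omega
  have hU : (B ×ˢ B ×ˢ C).card = B.card ^ 2 * C.card := by
    rw [card_product, card_product]; ring
  obtain ⟨x0, hx0, x1, hx1, hne, h2⟩ := two_sets A (B ×ˢ B ×ˢ C) (Gx B C) hK
    (fun x _ => filter_subset _ _) (fun x hx => by rw [hU]; exact Gx_big h ab bc hL hx) hk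
  rw [hU] at h2
  obtain ⟨β0, hβ0, B', hB', h3, h4⟩ := popular (Gx B C x0 ∩ Gx B C x1)
    (inter_subset_left.trans (filter_subset _ _)) (K := K2) h.nB h.nC h2
  have n0 : ∀ β ∈ B, β ≠ x0 := fun β hβ e => disjoint_left.mp h.dAB hx0 (e ▸ hβ)
  have n1 : ∀ β ∈ B, β ≠ x1 := fun β hβ e => disjoint_left.mp h.dAB hx1 (e ▸ hβ)
  refine ⟨ch β0 C, B'.image
    (fun β => ((β - x0) / (β0 - x0)) ^ 2 / ((β - x1) / (β0 - x1)) ^ 2), card_ch _ _, ?_, ?_, ?_⟩
  · have : Good (9 * L) (ch β0 C) 1 := by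
      unfold Good
      rw [one_smul]
      exact ch_sub_le h ab bc hL hβ0
    exact this.mono (by omega)
  · intro m hm
    obtain ⟨β, hβ, rfl⟩ := mem_image.mp hm
    have hβB := hB' hβ
    have := good_of_overlap (C0 := ch β0 C) (C1 := ch β C)
      (Z := ch β0 (C.filter (fun z => (β, β0, z) ∈ Gx B C x0 ∩ Gx B C x1)))
      (K0 := 9 * L) (K1 := 2 * K2)
      (m0 := ((β - x0) / (β0 - x0)) ^ 2) (m1 := ((β - x1) / (β0 - x1)) ^ 2)
      (κ0 := (β - x0) / (β0 - x0) ^ 2 - (β0 - x0)⁻¹)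
      (κ1 := (β - x1) / (β0 - x1) ^ 2 - (β0 - x1)⁻¹)
      (pow_ne_zero _ (div_ne_zero (sub_ne_zero.mpr (n0 β hβB)) (sub_ne_zero.mpr (n0 β0 hβ0))))
      (pow_ne_zero _ (div_ne_zero (sub_ne_zero.mpr (n1 β hβB)) (sub_ne_zero.mpr (n1 β0 hβ0))))
      (ch_nonempty β0 h.nC) (by rw [card_ch, card_ch]) (ch_sub_le h ab bc hL hβ0)
      (ch_sub_le h ab bc hL hβB) (image_subset_image (filter_subset _ _))
      (by rw [card_ch, card_ch]; exact h4 β hβ)
      (by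
        intro v hv
        obtain ⟨z, hz, rfl⟩ := mem_ch.mp hv
        exact Gx_rep h hx0 (mem_inter.mp (mem_filter.mp hz).2).1)
      (by
        intro v hv
        obtain ⟨z, hz, rfl⟩ := mem_ch.mp hv
        exact Gx_rep h hx1 (mem_inter.mp (mem_filter.mp hz).2).2)
    exact this.mono (by omega)
  · have h5 := two_to_one (B := B') hne (fun β hβ => n0 β (hB' hβ)) (fun β hβ => n1 β (hB' hβ))
      (n0 β0 hβ0) (n1 β0 hβ0)
    rw [card_ch]
    generalize (B'.image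
      (fun β => ((β - x0) / (β0 - x0)) ^ 2 / ((β - x1) / (β0 - x1)) ^ 2)).card = M at h5 ⊢
    calc C.card ≤ L * A.card := hL
      _ ≤ L * B.card := Nat.mul_le_mul_left _ ab
      _ ≤ L * (2 * K2 * B'.card) := Nat.mul_le_mul_left _ h3
      _ ≤ L * (2 * K2 * (2 * M)) := Nat.mul_le_mul_left _ (Nat.mul_le_mul_left _ h5)
      _ = 4 * K2 * L * M := by ring
      _ ≤ _ := Nat.mul_le_mul_right _ (by omega)

theorem sumProd (L : ℕ) : ∃ k0 N : ℕ, ∀ (F : Type) [Field F] [Fintype F] [DecidableEq F],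
    Irr F → ∀ (l : F) (A B C : Finset F), Cl l A B C → A.card ≤ B.card → B.card ≤ C.card →
      C.card ≤ L * A.card → k0 ≤ A.card → Fintype.card F ≤ N * C.card := by
  obtain ⟨K, k1, h1⟩ := spPop L
  obtain ⟨k2, N, h2⟩ := spEnd K
  refine ⟨max k1 k2, N, ?_⟩
  intro F _ _ _ hI l A B C h ab bc hL hk
  obtain ⟨C', M, e, g1, g2, g3⟩ := h1 F l A B C h ab bc hL (le_trans (le_max_left _ _) hk)
  have := h2 F hI C' M g1 g2 g3 (by have := le_max_right k1 k2; omega)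
  rwa [e] at this

end Pool.Agent.P.MP_862e21_al
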