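import Pool.Agent.P.MP_862e21_al.Span2
import Pool.Agent.P.MP_862e21_al.Cover

namespace Pool.Agent.P.MP_862e21_al

open Finset Pointwise

variable {F : Type*} [Field F] [DecidableEq F]

theorem spanAll [Fintype F] (hI : Irr F) {l : F} {B C D : Finset F} {u : ℕ} (h : Trio l B C D)
    (hu : Fintype.card F = B.card + C.card + D.card + u) (hub : u < B.card)
    (huc : 2 * u < C.card) :
    AddSubgroup.closure ((((B ∪ C) - (B ∪ C) : Finset F)) : Set F) = ⊤ := by
  classical
  set V := AddSubgroup.closure ((((B ∪ C) - (B ∪ C) : Finset F)) : Set F) with hV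
  have hgen : ∀ a ∈ B ∪ C, ∀ a' ∈ B ∪ C, a - a' ∈ V := fun a ha a' ha' =>
    AddSubgroup.subset_closure (mem_coe.2 (sub_mem_sub ha ha'))
  have hE : ((B ∪ C ∪ D)ᶜ).card = u := by
    rw [card_compl, card_union_of_disjoint (disjoint_union_left.2 ⟨h.dBD, h.dCD⟩),
      card_union_of_disjoint h.dBC]
    omega
  have key : ∀ y ∈ B, ∀ z ∈ C, l * (z - y) ∉ V → (1 - l) * y + l * z ∈ (B ∪ C ∪ D)ᶜ := by
    intro y hy z hz hn
    refine mem_compl.2 fun hw => ?_
    rcases mem_union.1 hw with hw | hw
    · refine hn ?_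
      have := hgen _ hw y (mem_union_left _ hy)
      rwa [show (1 - l) * y + l * z - y = l * (z - y) by ring] at this
    · exact h.sc l (self_mem_Lam l) y hy z hz hw
  have k1 : ∀ y ∈ B, (C.filter (fun z => l * (z - y) ∉ V)).card ≤ u := by
    intro y hy
    rw [← hE]
    refine card_le_card_of_injOn (fun z => (1 - l) * y + l * z) (fun z hz => ?_)
      fun z _ z' _ e => mul_left_cancel₀ h.l0 (add_left_cancel e)
    exact key y hy z (mem_filter.1 hz).1 (mem_filter.1 hz).2
  have k2 : ∀ z ∈ C, (B.filter (fun y => l * (z - y) ∉ V)).card ≤ u := by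
    intro z hz
    rw [← hE]
    refine card_le_card_of_injOn (fun y => (1 - l) * y + l * z) (fun y hy => ?_)
      fun y _ y' _ e => mul_left_cancel₀ (sub_ne_zero.2 h.l1.symm) (add_right_cancel e)
    exact key y (mem_filter.1 hy).1 z hz (mem_filter.1 hy).2
  have k3 : ∀ y ∈ B, ∀ y' ∈ B, l * (y - y') ∈ V := by
    intro y hy y' hy'
    obtain ⟨z, hz, hn⟩ : ∃ z ∈ C, z ∉ C.filter (fun z => l * (z - y) ∉ V) ∪
        C.filter (fun z => l * (z - y') ∉ V) := by
      refine exists_mem_notMem_of_card_lt_card (lt_of_le_of_lt (card_union_le _ _) ?_)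
      have := k1 y hy
      have := k1 y' hy'
      omega
    simp only [mem_union, mem_filter, hz, true_and, not_or, not_not] at hn
    have := V.sub_mem hn.2 hn.1
    rwa [show l * (z - y') - l * (z - y) = l * (y - y') by ring] at this
  obtain ⟨y0, hy0⟩ : B.Nonempty := card_pos.1 (by omega)
  obtain ⟨z0, hz0⟩ : C.Nonempty := card_pos.1 (by omega)
  have k4 : ∀ a ∈ B ∪ C, l * (a - y0) ∈ V := by
    intro a ha
    rcases mem_union.1 ha with ha | ha
    · exact k3 a ha y0 hy0
    · obtain ⟨y, hy, hn⟩ : ∃ y ∈ B, y ∉ B.filter (fun y => l * (a - y) ∉ V) :=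
        exists_mem_notMem_of_card_lt_card (lt_of_le_of_lt (k2 a ha) hub)
      simp only [mem_filter, hy, true_and, not_not] at hn
      have := V.add_mem hn (k3 y hy y0 hy0)
      rwa [show l * (a - y) + l * (y - y0) = l * (a - y0) by ring] at this
  have k5 : V ≤ V.comap (AddMonoidHom.mulLeft l) := by
    refine (AddSubgroup.closure_le _).2 fun v hv => ?_
    obtain ⟨a, ha, a', ha', rfl⟩ := mem_sub.1 (mem_coe.1 hv)
    have := V.sub_mem (k4 a ha) (k4 a' ha')
    rwa [show l * (a - y0) - l * (a' - y0) = l * (a - a') by ring] at this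
  refine (hI V l h.l0 h.l1 fun v hv => k5 hv).resolve_left fun hb => ?_
  have := hgen y0 (mem_union_left _ hy0) z0 (mem_union_right _ hz0)
  rw [hb, AddSubgroup.mem_bot, sub_eq_zero] at this
  exact disjoint_left.1 h.dBC hy0 (this ▸ hz0)

theorem sparse2_ext [Fintype F] (h2 : (2 : F) = 0) (W : AddSubgroup F) (U : Finset F) :
    ∃ H : AddSubgroup F, W ≤ H ∧ (∀ a ∈ U, a ∈ H) ∧ Nat.card H ≤ 2 ^ U.card * Nat.card W := by
  have hh : ∀ x : F, x + x = 0 := fun x => by rw [← two_mul, h2, zero_mul]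
  induction U using Finset.induction_on with
  | empty => exact ⟨W, le_rfl, by simp, by simp⟩
  | insert a U ha ih =>
    obtain ⟨H, h1, h3, h4⟩ := ih
    let H' : AddSubgroup F :=
      { carrier := {x | x ∈ H ∨ x + a ∈ H}
        zero_mem' := Or.inl H.zero_mem
        add_mem' := by
          rintro x y (hx | hx) (hy | hy)
          · exact Or.inl (H.add_mem hx hy)
          · exact Or.inr (by rw [add_assoc]; exact H.add_mem hx hy)
          · exact Or.inr (by rw [add_right_comm]; exact H.add_mem hx hy)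
          · refine Or.inl ?_
            have := H.add_mem hx hy
            rwa [show x + a + (y + a) = x + y by linear_combination hh a] at this
        neg_mem' := by
          intro x hx
          rwa [show -x = x by linear_combination -hh x] }
    refine ⟨H', fun x hx => Or.inl (h1 hx), fun b hb => ?_, ?_⟩
    · rcases mem_insert.1 hb with rfl | hb
      · exact Or.inr (by rw [hh]; exact H.zero_mem)
      · exact Or.inl (h3 b hb)
    · have e1 : (H' : Set F) ⊆ (H : Set F) ∪ (fun x => x + a) '' (H : Set F) := by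
        rintro x (hx | hx)
        · exact Or.inl hx
        · exact Or.inr ⟨x + a, hx, by simp only [add_assoc, hh, add_zero]⟩
      have e2 := (Set.ncard_le_ncard e1).trans (Set.ncard_union_le _ _)
      have e3 : ((fun x => x + a) '' (H : Set F)).ncard ≤ (H : Set F).ncard :=
        Set.ncard_image_le
      have e4 : Nat.card H' = (H' : Set F).ncard := Nat.card_coe_set_eq _
      have e5 : Nat.card H = (H : Set F).ncard := Nat.card_coe_set_eq _
      rw [card_insert_of_notMem ha, pow_succ, mul_right_comm]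
      omega

theorem sparse2_pr {C : Finset F} (hC : C.Nonempty) {K : ℕ} (h : (C - C).card ≤ K * C.card)
    (n : ℕ) : (n • C).card ≤ K ^ n * C.card := by
  have h5 := pluennecke_ruzsa_inequality_nsmul_sub hC C n
  have hc : (0 : ℚ≥0) < C.card := by exact_mod_cast hC.card_pos
  have h6 : ((C - C).card / C.card : ℚ≥0) ≤ K := by
    rw [div_le_iff₀ hc]
    exact_mod_cast h
  have h7 : ((n • C).card : ℚ≥0) ≤ K ^ n * C.card :=
    h5.trans (mul_le_mul_left (pow_le_pow_left₀ zero_le h6 _) _)
  exact_mod_cast h7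

theorem sparse2 (L : ℕ) : ∃ N : ℕ, ∀ (F : Type) [Field F] [Fintype F] [DecidableEq F],
    (2 : F) = 0 → Irr F → ∀ (l : F) (B C D : Finset F) (u : ℕ), Trio l B C D →
      Fintype.card F = B.card + C.card + D.card + u → B.card ≤ C.card → C.card ≤ L * B.card →
      u < B.card → 2 * u < C.card → Fintype.card F ≤ N * B.card := by
  refine ⟨2 ^ 10 * (2 ^ (9 * L) ^ 8 * ((9 * L) ^ 4 * L)),
    fun F _ _ _ h2 hI l B C D u h hu hbc hL hub huc => ?_⟩
  have hB : B.Nonempty := card_pos.1 (by omega)
  have hC : C.Nonempty := card_pos.1 (by omega)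
  have h3 : B.card + u ≤ 2 * C.card := by omega
  have hsub := trio_sub h hu hB h3 hL
  obtain ⟨T, hT, hcov⟩ := trio_cover h hu hC h3
  obtain ⟨γ, hγ⟩ := id hC
  have hγ0 : γ + γ = 0 := by rw [← two_mul, h2, zero_mul]
  have h8 : (C + C + (C + C) + (C + C) + (C + C)).card ≤ (9 * L) ^ 8 * (C + C).card := by
    rw [show C + C + (C + C) + (C + C) + (C + C) = 8 • C by abel]
    exact (sparse2_pr hC hsub 8).trans (Nat.mul_le_mul_left _ (card_le_card_add_right hC))
  have h4 : (C + C + (C + C)).card ≤ (9 * L) ^ 4 * (L * B.card) := by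
    rw [show C + C + (C + C) = 4 • C by abel]
    exact (sparse2_pr hC hsub 4).trans (Nat.mul_le_mul_left _ hL)
  have hW := card_span2 h2 (S := C + C) (hγ0 ▸ add_mem_add hγ hγ) h8
  obtain ⟨H, h5, h6, h7⟩ := sparse2_ext h2 (AddSubgroup.closure ((C + C : Finset F) : Set F))
    (insert γ T)
  have hS : ∀ x ∈ C + C, x ∈ H := fun x hx => h5 (AddSubgroup.subset_closure (mem_coe.2 hx))
  have hBC : ∀ a ∈ B ∪ C, a ∈ H := by
    intro a ha
    rcases mem_union.1 ha with ha | ha
    · obtain ⟨t, ht, _, hx, rfl⟩ := mem_add.1 (hcov ha)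
      obtain ⟨x, hx1, y, hy, rfl⟩ := mem_sub.1 hx
      exact H.add_mem (h6 t (mem_insert_of_mem ht)) (H.sub_mem (hS x hx1) (hS y hy))
    · have := H.sub_mem (hS _ (add_mem_add ha hγ)) (h6 γ (mem_insert_self _ _))
      rwa [add_sub_cancel_right] at this
  have htop : H = ⊤ := by
    rw [eq_top_iff, ← spanAll hI h hu hub huc]
    refine (AddSubgroup.closure_le _).2 fun v hv => ?_
    obtain ⟨a, ha, a', ha', rfl⟩ := mem_sub.1 (mem_coe.1 hv)
    exact H.sub_mem (hBC a ha) (hBC a' ha')
  rw [htop, AddSubgroup.card_top, Nat.card_eq_fintype_card] at h7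
  have h9 : 2 ^ (insert γ T).card ≤ 2 ^ 10 :=
    Nat.pow_le_pow_right (by norm_num) ((card_insert_le _ _).trans (by omega))
  calc _ ≤ 2 ^ 10 * (2 ^ (9 * L) ^ 8 * ((9 * L) ^ 4 * (L * B.card))) :=
        h7.trans (Nat.mul_le_mul h9 (hW.trans (Nat.mul_le_mul_left _ h4)))
    _ = _ := by simp only [mul_assoc]

end Pool.Agent.P.MP_862e21_al
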