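import Pool.Agent.P.MP_862e21_al.Char0

namespace Pool.Agent.P.MP_862e21_al

open Finset Pointwise

theorem ultra_field (F : ℕ → Type) [∀ i, Field (F i)] (U : Ultrafilter ℕ) :
    ∃ (K : Type) (_ : Field K) (π : (∀ i, F i) →+* K),
      ∀ f g, π f = π g ↔ ∀ᶠ i in (U : Filter ℕ), f i = g i := by
  let I : Ideal (∀ i, F i) :=
    { carrier := {f | ∀ᶠ i in (U : Filter ℕ), f i = 0}
      add_mem' := fun {f g} hf hg => by
        filter_upwards [hf, hg] with i h1 h2
        simp [h1, h2]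
      zero_mem' := Filter.Eventually.of_forall fun _ => rfl
      smul_mem' := fun c f hf => by
        filter_upwards [hf] with i h1
        simp [h1] }
  have hI : ∀ f, f ∈ I ↔ ∀ᶠ i in (U : Filter ℕ), f i = 0 := fun _ => Iff.rfl
  have : I.IsMaximal := by
    refine Ideal.isMaximal_iff.2 ⟨fun h => ?_, fun J x hJ hx hxJ => ?_⟩
    · obtain ⟨i, hi⟩ := ((hI 1).1 h).exists
      exact one_ne_zero hi
    · have h1 : 1 - x⁻¹ * x ∈ I := by
        rw [hI]
        filter_upwards [Ultrafilter.eventually_not.2 (mt (hI x).2 hx)] with i hi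
        simp [inv_mul_cancel₀ hi]
      simpa using J.add_mem (hJ h1) (J.mul_mem_left x⁻¹ hxJ)
  refine ⟨(∀ i, F i) ⧸ I, Ideal.Quotient.field I, Ideal.Quotient.mk I, fun f g => ?_⟩
  rw [Ideal.Quotient.eq, hI]
  simp only [Pi.sub_apply, sub_eq_zero]

theorem ultra_enum {α : Type*} {A : Finset α} (hA : A.Nonempty) {k : ℕ} (hk : A.card ≤ k) :
    ∃ a : Fin k → α, (∀ j, a j ∈ A) ∧ ∀ x ∈ A, ∃ j, a j = x := by
  obtain ⟨e⟩ : Nonempty (A ↪ Fin k) := Function.Embedding.nonempty_of_card_le (by simpa using hk)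
  have : Nonempty A := hA.to_subtype
  refine ⟨fun j => (Function.invFun e j : A), fun j => (Function.invFun e j).2, fun x hx => ?_⟩
  exact ⟨e ⟨x, hx⟩, congrArg Subtype.val (Function.leftInverse_invFun e.injective ⟨x, hx⟩)⟩

theorem ultra_main {F : ℕ → Type} [∀ i, Field (F i)] [∀ i, DecidableEq (F i)] (U : Ultrafilter ℕ)
    {k : ℕ} (l : ∀ i, F i) (A B C : ∀ i, Finset (F i)) (h : ∀ i, Cl (l i) (A i) (B i) (C i))
    (hA : ∀ i, (A i).card ≤ k) (hB : ∀ i, (B i).card ≤ k) (hC : ∀ i, (C i).card ≤ k) :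
    ∃ m : ℕ, 1 ≤ m ∧ ∀ᶠ i in (U : Filter ℕ), l i ^ m = 1 ∧ (1 - l i) ^ m = 1 := by
  classical
  obtain ⟨K, _, π, hπ⟩ := ultra_field F U
  choose a ha ha' using fun i => ultra_enum (h i).nA (hA i)
  choose b hb hb' using fun i => ultra_enum (h i).nB (hB i)
  choose c hc hc' using fun i => ultra_enum (h i).nC (hC i)
  have hne : ∀ f g, (∀ i, f i ≠ g i) → π f ≠ π g := fun f g h1 h2 => by
    obtain ⟨i, hi⟩ := ((hπ f g).1 h2).exists
    exact h1 i hi
  have hinv : ∀ f, π f⁻¹ = (π f)⁻¹ := by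
    intro f
    by_cases h0 : π f = π 0
    · have h1 : π f⁻¹ = π 0 := by
        rw [hπ] at h0 ⊢
        filter_upwards [h0] with i hi
        simpa using hi
      rw [h0, h1, map_zero, inv_zero]
    · refine eq_inv_of_mul_eq_one_left ?_
      rw [← map_mul, ← map_one π, hπ]
      filter_upwards [Ultrafilter.eventually_not.2 (mt (hπ f 0).2 h0)] with i hi
      exact inv_mul_cancel₀ hi
  have hk : Nonempty (Fin k) := ⟨⟨0, (card_pos.2 (h 0).nA).trans_le (hA 0)⟩⟩
  have hdis : ∀ (a b : ∀ i, Fin k → F i), (∀ i j j', a i j ≠ b i j') →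
      Disjoint (univ.image fun j => π fun i => a i j) (univ.image fun j => π fun i => b i j) := by
    intro a b h1
    refine disjoint_left.2 fun x hx hx' => ?_
    obtain ⟨j, -, rfl⟩ := mem_image.1 hx
    obtain ⟨j', -, e⟩ := mem_image.1 hx'
    exact hne _ _ (fun i => h1 i j j') e.symm
  have hlam : ∀ s ∈ Lam (π l), ∃ s' : ∀ i, F i, (∀ i, s' i ∈ Lam (l i)) ∧ π s' = s := by
    intro s hs
    rcases mem_Lam.1 hs with e | e | e | e | e | e <;> subst e
    · exact ⟨l, fun i => by simp [mem_Lam], rfl⟩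
    · exact ⟨l⁻¹, fun i => by simp [mem_Lam], hinv l⟩
    · exact ⟨1 - l, fun i => by simp [mem_Lam], by simp⟩
    · exact ⟨(1 - l)⁻¹, fun i => by simp [mem_Lam], by simp [hinv]⟩
    · exact ⟨(l - 1) * l⁻¹, fun i => by simp [mem_Lam, div_eq_mul_inv],
        by simp [hinv, div_eq_mul_inv]⟩
    · exact ⟨l * (l - 1)⁻¹, fun i => by simp [mem_Lam, div_eq_mul_inv],
        by simp [hinv, div_eq_mul_inv]⟩
  have hcl : Cl (π l) (univ.image fun j => π fun i => a i j) (univ.image fun j => π fun i => b i j)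
      (univ.image fun j => π fun i => c i j) := by
    refine ⟨map_zero π ▸ hne l 0 fun i => (h i).l0, map_one π ▸ hne l 1 fun i => (h i).l1,
      univ_nonempty.image _, univ_nonempty.image _, univ_nonempty.image _,
      hdis a b fun i j j' e => disjoint_left.1 (h i).dAB (ha i j) (e ▸ hb i j'),
      hdis a c fun i j j' e => disjoint_left.1 (h i).dAC (ha i j) (e ▸ hc i j'),
      hdis b c fun i j j' e => disjoint_left.1 (h i).dBC (hb i j) (e ▸ hc i j'), ?_⟩
    intro s hs x hx y hy z hz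
    obtain ⟨s, hs', rfl⟩ := hlam s hs
    obtain ⟨j1, -, rfl⟩ := mem_image.1 hx
    obtain ⟨j2, -, rfl⟩ := mem_image.1 hy
    obtain ⟨j3, -, rfl⟩ := mem_image.1 hz
    obtain ⟨P, hP⟩ : ∃ P : ∀ i, F i → Prop, ∀ i p, P i p ↔
      (p - b i j2) * (c i j3 - a i j1) = s i * (c i j3 - b i j2) * (p - a i j1) :=
      ⟨_, fun _ _ => Iff.rfl⟩
    have key : ∀ p : ∀ i, F i, (∀ᶠ i in (U : Filter ℕ), P i (p i)) →
        (π p - π fun i => b i j2) * ((π fun i => c i j3) - π fun i => a i j1) =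
          π s * ((π fun i => c i j3) - π fun i => b i j2) * (π p - π fun i => a i j1) := by
      intro p hp
      simp only [← map_sub, ← map_mul]
      rw [hπ]
      filter_upwards [hp] with i hi
      exact (hP i _).1 hi
    have hall : ∀ᶠ i in (U : Filter ℕ),
        ((∃ j, P i (a i j)) ∨ ∃ j, P i (b i j)) ∨ ∃ j, P i (c i j) := by
      refine Filter.Eventually.of_forall fun i => ?_
      obtain ⟨p, hp, e⟩ := (h i).cl _ (hs' i) _ (ha i j1) _ (hb i j2) _ (hc i j3)
      rw [← hP] at e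
      rcases mem_union.1 hp with hp | hp
      · rcases mem_union.1 hp with hp | hp
        · exact Or.inl (Or.inl ((ha' i p hp).imp fun j e' => by rwa [e']))
        · exact Or.inl (Or.inr ((hb' i p hp).imp fun j e' => by rwa [e']))
      · exact Or.inr ((hc' i p hp).imp fun j e' => by rwa [e'])
    rcases Ultrafilter.eventually_or.1 hall with h1 | h1
    · rcases Ultrafilter.eventually_or.1 h1 with h1 | h1
      · obtain ⟨j, hj⟩ := Ultrafilter.eventually_exists_iff.1 h1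
        exact ⟨_, mem_union_left _ (mem_union_left _ (mem_image_of_mem _ (mem_univ j))), key _ hj⟩
      · obtain ⟨j, hj⟩ := Ultrafilter.eventually_exists_iff.1 h1
        exact ⟨_, mem_union_left _ (mem_union_right _ (mem_image_of_mem _ (mem_univ j))), key _ hj⟩
    · obtain ⟨j, hj⟩ := Ultrafilter.eventually_exists_iff.1 h1
      exact ⟨_, mem_union_right _ (mem_image_of_mem _ (mem_univ j)), key _ hj⟩
  obtain ⟨m, hm, h1, h2⟩ := alg_main hcl
  refine ⟨m, hm, Filter.Eventually.and ((hπ (l ^ m) 1).1 ?_) ((hπ ((1 - l) ^ m) 1).1 ?_)⟩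
  · rw [map_pow, h1, map_one]
  · rw [map_pow, map_sub, map_one, h2]

theorem bounded (k : ℕ) : ∃ q0 : ℕ, ∀ (F : Type) [Field F] [Fintype F] [DecidableEq F],
    q0 ≤ Fintype.card F → ∀ (l : F) (A B C : Finset F), Cl l A B C → Gen l →
      A.card ≤ k → B.card ≤ k → C.card ≤ k → False := by
  by_contra hne
  have h : ∀ q0 : ℕ, ∃ (F : Type) (_ : Field F) (_ : Fintype F) (_ : DecidableEq F) (l : F)
      (A B C : Finset F), q0 ≤ Fintype.card F ∧ Cl l A B C ∧ Gen l ∧ A.card ≤ k ∧ B.card ≤ k ∧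
        C.card ≤ k := by
    intro q0
    by_contra h1
    exact hne ⟨q0, fun F i1 i2 i3 h2 l A B C h3 h4 h5 h6 h7 =>
      h1 ⟨F, i1, i2, i3, l, A, B, C, h2, h3, h4, h5, h6, h7⟩⟩
  choose F i1 i2 i3 l A B C h1 h2 h3 h4 h5 h6 using h
  obtain ⟨m, hm, hU⟩ := ultra_main (Filter.hyperfilter ℕ) l A B C h2 h4 h5 h6
  obtain ⟨i, ⟨e1, e2⟩, hi⟩ := (hU.and ((Filter.eventually_gt_atTop (2 * m + 1)).filter_mono
    Nat.hyperfilter_le_atTop)).exists
  have := gen_pow (h3 i) hm e1 e2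
  have := h1 i
  omega

end Pool.Agent.P.MP_862e21_al
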