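import Pool.Agent.P.MP_862e21_al.Shrink
import Pool.Agent.P.MP_862e21_al.Dense
import Pool.Agent.P.MP_862e21_al.Pop
import Pool.Agent.P.MP_862e21_al.Ultra
import Pool.Agent.P.MP_862e21_al.Sparse2
import Pool.Agent.P.MP_862e21_al.Dense2

namespace Pool.Agent.P.MP_862e21_al

open Finset Pointwise

/-- three classes of comparable size -/
theorem comparable (L : ℕ) : ∃ q0 : ℕ, ∀ (F : Type) [Field F] [Fintype F] [DecidableEq F],
    q0 ≤ Fintype.card F → Irr F → ∀ (l : F) (A B C : Finset F), Cl l A B C → Gen l →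
      A.card ≤ B.card → B.card ≤ C.card → A.card + B.card + 2 * C.card ≤ Fintype.card F + 1 →
      C.card ≤ L * A.card → False := by
  obtain ⟨k0, N, h1⟩ := sumProd L
  obtain ⟨q1, h2⟩ := dense (N * L)
  obtain ⟨q2, h3⟩ := bounded (L * k0)
  refine ⟨max (max q1 q2) (N * L * (2 * (N * L) ^ 3) + 1), ?_⟩
  intro F _ _ _ hq hI l A B C h hg ab bc hd hL
  have hq1 : q1 ≤ Fintype.card F := le_trans (le_trans (le_max_left _ _) (le_max_left _ _)) hq
  have hq2 : q2 ≤ Fintype.card F := le_trans (le_trans (le_max_right _ _) (le_max_left _ _)) hq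
  have hq3 : N * L * (2 * (N * L) ^ 3) + 1 ≤ Fintype.card F := le_trans (le_max_right _ _) hq
  by_cases hk : k0 ≤ A.card
  · have e1 := h1 F hI l A B C h ab bc hL hk
    have e2 : Fintype.card F ≤ N * L * A.card := by
      calc Fintype.card F ≤ N * C.card := e1
        _ ≤ N * (L * A.card) := Nat.mul_le_mul_left _ hL
        _ = N * L * A.card := by ring
    have e3 := h2 F hq1 l A B C h bc hd (le_trans e2 (Nat.mul_le_mul_left _ ab))
    have e4 : N * L * A.card ≤ N * L * (2 * (N * L) ^ 3) := Nat.mul_le_mul_left _ e3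
    omega
  · have e : C.card ≤ L * k0 := le_trans hL (Nat.mul_le_mul_left _ (by omega))
    exact h3 F hq2 l A B C h hg (by omega) (by omega) e

theorem coreP : ∃ q0 : ℕ, ∀ (F : Type) [Field F] [Fintype F] [DecidableEq F],
    q0 ≤ Fintype.card F → (Fintype.card F).Prime → ∀ (l : F) (A B C : Finset F), Cl l A B C →
      Gen l → A.card ≤ B.card → B.card ≤ C.card →
      A.card + B.card + 2 * C.card ≤ Fintype.card F + 1 → False := by
  obtain ⟨N, h1⟩ := fewHoles
  obtain ⟨q1, h2⟩ := comparable (10 ^ 10 * N)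
  refine ⟨max q1 6, ?_⟩
  intro F _ _ _ hq hp l A B C h hg ab bc hd
  have hq1 : q1 ≤ Fintype.card F := le_trans (le_max_left _ _) hq
  have h5 : 5 < Fintype.card F := lt_of_lt_of_le (by norm_num) (le_trans (le_max_right _ _) hq)
  have a1 := h.nA.card_pos
  have c1 := h.nC.card_pos
  by_cases hb : B.card = 1
  · exact single h hg (by omega) hb (by omega)
  obtain ⟨x, hx⟩ := h.nA
  obtain ⟨D, hT, hu⟩ := h.chart hx
  rw [← card_ch x B, ← card_ch x C] at hu
  have eB := card_ch x B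
  have eC := card_ch x C
  by_cases hL : 10 ^ 10 * B.card ≤ C.card
  · exact longC hp h5 hT (by omega) hu (by omega) (by omega) (by rw [eB, eC]; exact hL)
  by_cases hN : N * (A.card - 1 + 1) ≤ B.card
  · exact h1 F hp h5 l _ _ D _ hT hu (by omega) (by omega) (by rw [eB, eC]; omega)
      (by rw [eB]; exact hN)
  · have e : A.card - 1 + 1 = A.card := by omega
    rw [e] at hN
    refine h2 F hq1 (irrP hp) l A B C h hg ab bc hd ?_
    calc C.card ≤ 10 ^ 10 * B.card := by omega
      _ ≤ 10 ^ 10 * (N * A.card) := Nat.mul_le_mul_left _ (by omega)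
      _ = 10 ^ 10 * N * A.card := by ring

theorem core2 : ∃ q0 : ℕ, ∀ (F : Type) [Field F] [Fintype F] [DecidableEq F],
    q0 ≤ Fintype.card F → (2 : F) = 0 → Irr F → ∀ (l : F) (A B C : Finset F), Cl l A B C →
      Gen l → A.card ≤ B.card → B.card ≤ C.card →
      A.card + B.card + 2 * C.card ≤ Fintype.card F + 1 → False := by
  obtain ⟨L, hLe⟩ : ∃ L : ℕ, L = 16 * 350 ^ 15 := ⟨_, rfl⟩
  obtain ⟨N, h1⟩ := sparse2 L
  obtain ⟨q1, h2⟩ := comparable 2
  obtain ⟨q2, h3⟩ := dense N
  obtain ⟨q3, h4⟩ := dense2 N (2 * N ^ 3)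
  refine ⟨max (max q1 q2) q3, ?_⟩
  intro F _ _ _ hq h20 hI l A B C h hg ab bc hd
  have hq1 : q1 ≤ Fintype.card F := le_trans (le_trans (le_max_left _ _) (le_max_left _ _)) hq
  have hq2 : q2 ≤ Fintype.card F := le_trans (le_trans (le_max_right _ _) (le_max_left _ _)) hq
  have hq3 : q3 ≤ Fintype.card F := le_trans (le_max_right _ _) hq
  have a1 := h.nA.card_pos
  have c1 := h.nC.card_pos
  by_cases hb : B.card = 1
  · exact single h hg (by omega) hb (by omega)
  obtain ⟨x, hx⟩ := h.nA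
  obtain ⟨D, hT, hu⟩ := h.chart hx
  rw [← card_ch x B, ← card_ch x C] at hu
  have eB := card_ch x B
  have eC := card_ch x C
  by_cases hL : L * B.card ≤ C.card
  · exact longC2 h20 hI hT (by omega) hu (by omega) (by omega) (by rw [eB, eC, ← hLe]; exact hL)
  by_cases hc : C.card ≤ 2 * A.card
  · exact h2 F hq1 hI l A B C h hg ab bc hd hc
  have e1 := h1 F h20 hI l _ _ D _ hT hu (by omega) (by rw [eB, eC]; omega) (by omega) (by omega)
  have e2 := h3 F hq2 l A B C h bc hd (by rwa [eB] at e1)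
  exact h4 F h20 hI hq3 l _ _ D _ hT hu e1
    (le_trans e1 (Nat.mul_le_mul_left _ (by omega)))
    (le_trans e1 (Nat.mul_le_mul_left _ (by omega))) (by omega)

theorem core : ∃ q0 : ℕ, ∀ (F : Type) [Field F] [Fintype F] [DecidableEq F],
    q0 ≤ Fintype.card F →
      ((Fintype.card F).Prime ∨ ∃ p : ℕ, p.Prime ∧ Fintype.card F = 2 ^ p) →
      ∀ (l : F) (A B C : Finset F), Cl l A B C → Gen l → A.card ≤ B.card → B.card ≤ C.card →
      A.card + B.card + 2 * C.card ≤ Fintype.card F + 1 → False := by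
  obtain ⟨q1, h1⟩ := coreP
  obtain ⟨q2, h2⟩ := core2
  refine ⟨max q1 q2, ?_⟩
  intro F _ _ _ hq hc
  rcases hc with hp | ⟨p, hp, e⟩
  · exact h1 F (le_trans (le_max_left _ _) hq) hp
  · exact h2 F (le_trans (le_max_right _ _) hq) (two_eq_zero e) (irr2 hp e)

end Pool.Agent.P.MP_862e21_al
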