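import Mathlib

namespace Pool.Agent.P.MP_862e21_al

open Finset Pointwise

variable {F : Type*} [Field F] [DecidableEq F]

/-- the six values of the cross ratio -/
def Lam (l : F) : Finset F := {l, l⁻¹, 1 - l, (1 - l)⁻¹, (l - 1) / l, l / (l - 1)}

/-- single chart: no rainbow solution -/
def SC (l : F) (B C D : Finset F) : Prop :=
  ∀ s ∈ Lam l, ∀ y ∈ B, ∀ z ∈ C, (1 - s) * y + s * z ∉ D

structure Trio (l : F) (B C D : Finset F) : Prop where
  l0 : l ≠ 0
  l1 : l ≠ 1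
  sc : SC l B C D
  dBC : Disjoint B C
  dBD : Disjoint B D
  dCD : Disjoint C D

/-- closed configuration: the fourth point of every rainbow triple is again in the union -/
structure Cl (l : F) (A B C : Finset F) : Prop where
  l0 : l ≠ 0
  l1 : l ≠ 1
  nA : A.Nonempty
  nB : B.Nonempty
  nC : C.Nonempty
  dAB : Disjoint A B
  dAC : Disjoint A C
  dBC : Disjoint B C
  cl : ∀ s ∈ Lam l, ∀ x ∈ A, ∀ y ∈ B, ∀ z ∈ C,
    ∃ p ∈ A ∪ B ∪ C, (p - y) * (z - x) = s * (z - y) * (p - x)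

/-- the set seen in the chart that sends x to infinity -/
def ch (x : F) (S : Finset F) : Finset F := S.image (fun y => (y - x)⁻¹)

def comb (s : F) (Y C : Finset F) : Finset F := (1 - s) • Y + s • C

def psi (C : Finset F) (h : F) : ℕ := (C.filter (fun x => x + h ∉ C)).card

def Good (K : ℕ) (C : Finset F) (m : F) : Prop := (C - m • C).card ≤ K * C.card

def Ratio (M : Finset F) (r : F) : Prop :=
  ∃ x ∈ M, ∃ y ∈ M, ∃ z ∈ M, ∃ w ∈ M, z ≠ w ∧ r = (x - y) / (z - w)

def Irr (F : Type*) [Field F] : Prop :=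
  ∀ (H : AddSubgroup F) (t : F), t ≠ 0 → t ≠ 1 → (∀ h ∈ H, t * h ∈ H) → H = ⊥ ∨ H = ⊤

/-- the multiplicative criterion in closure form -/
def Gen (l : F) : Prop :=
  ∀ S : Set F, (∀ x ∈ S, -x ∈ S) → (∀ x ∈ S, l * x ∈ S) → (∀ x ∈ S, (1 - l) * x ∈ S) →
    (∃ x ∈ S, x ≠ 0) → ∀ y : F, y ≠ 0 → y ∈ S

/-- level sets of a size function -/
def lev [Fintype F] (ν : F → ℕ) (m : ℕ) : Finset F := univ.filter (fun h => ν h ≤ m)

/-- a size function with linear growth that is almost invariant under multiplication by `t` -/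
structure Filt [Fintype F] (ν : F → ℕ) (t : F) (J z : ℕ) : Prop where
  zero : ν 0 = 0
  neg : ∀ h, ν (-h) = ν h
  add : ∀ h k, ν (h + k) ≤ ν h + ν k
  mul : ∀ h, ν h < J → ν (t * h) ≤ ν h + 1
  inv : ∀ h, ν h < J → ν (t⁻¹ * h) ≤ ν h + 1
  up : ∀ m, 1 ≤ m → m ≤ J → (lev ν m).card ≤ 48 * m * z
  low : ∀ m, 1 ≤ m → m ≤ J → m * z ≤ 2 * (lev ν m).card
  one : z ≤ (lev ν 1).card
  two : 2 ≤ z

/-- an integer coordinate on the level set `J` -/
structure Coord (ν : F → ℕ) (J : ℕ) (φ : F → ℤ) : Prop where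
  inj : Function.Injective φ
  add : ∀ h k, ν h ≤ J → ν k ≤ J → ν (h + k) ≤ J → φ (h + k) = φ h + φ k

/-- Fourier coefficient of a finite set -/
noncomputable def fh (e : AddChar F ℂ) (S : Finset F) (ξ : F) : ℂ := ∑ y ∈ S, e (ξ * y)

open Classical in
/-- annihilator of an additive subgroup -/
noncomputable def perp [Fintype F] (e : AddChar F ℂ) (K : AddSubgroup F) : Finset F :=
  univ.filter (fun ξ => ∀ h ∈ K, e (ξ * h) = 1)

/-- Fourier energy on the annihilator -/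
noncomputable def en [Fintype F] (e : AddChar F ℂ) (K : AddSubgroup F) (S : Finset F) : ℝ :=
  ∑ ξ ∈ perp e K, ‖fh e S ξ‖ ^ 2

theorem mem_lev [Fintype F] {ν : F → ℕ} {m : ℕ} {h : F} : h ∈ lev ν m ↔ ν h ≤ m := by
  simp [lev]

theorem mem_Lam {l s : F} : s ∈ Lam l ↔
    s = l ∨ s = l⁻¹ ∨ s = 1 - l ∨ s = (1 - l)⁻¹ ∨ s = (l - 1) / l ∨ s = l / (l - 1) := by
  simp [Lam]

theorem self_mem_Lam (l : F) : l ∈ Lam l := by simp [Lam]

theorem lam_ne_zero {l s : F} (h0 : l ≠ 0) (h1 : l ≠ 1) (hs : s ∈ Lam l) : s ≠ 0 := by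
  have h2 : 1 - l ≠ 0 := sub_ne_zero.mpr h1.symm
  have h3 : l - 1 ≠ 0 := sub_ne_zero.mpr h1
  rcases mem_Lam.mp hs with h | h | h | h | h | h <;> subst h <;> simp [h0, h2, h3]

theorem lam_one_sub {l s : F} (h0 : l ≠ 0) (h1 : l ≠ 1) (hs : s ∈ Lam l) : 1 - s ∈ Lam l := by
  have h2 : 1 - l ≠ 0 := sub_ne_zero.mpr h1.symm
  have h3 : l - 1 ≠ 0 := sub_ne_zero.mpr h1
  rw [mem_Lam]
  rcases mem_Lam.mp hs with h | h | h | h | h | h <;> subst h
  · right; right; left; rfl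
  · right; right; right; right; left; field_simp
  · left; ring
  · right; right; right; right; right; field_simp; ring
  · right; left; field_simp; ring
  · right; right; right; left; field_simp; ring

theorem lam_inv {l s : F} (h0 : l ≠ 0) (h1 : l ≠ 1) (hs : s ∈ Lam l) : s⁻¹ ∈ Lam l := by
  rw [mem_Lam]
  rcases mem_Lam.mp hs with h | h | h | h | h | h <;> subst h <;> simp

theorem lam_ne_one {l s : F} (h0 : l ≠ 0) (h1 : l ≠ 1) (hs : s ∈ Lam l) : s ≠ 1 := by
  intro h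
  have := lam_ne_zero h0 h1 (lam_one_sub h0 h1 hs)
  exact this (by rw [h]; ring)

theorem lam_sub {l s : F} (h0 : l ≠ 0) (h1 : l ≠ 1) (hs : s ∈ Lam l) : Lam s ⊆ Lam l := by
  have s0 := lam_ne_zero h0 h1 hs
  have s1 : s - 1 ≠ 0 := sub_ne_zero.mpr (lam_ne_one h0 h1 hs)
  intro t ht
  rcases mem_Lam.mp ht with h | h | h | h | h | h <;> subst h
  · exact hs
  · exact lam_inv h0 h1 hs
  · exact lam_one_sub h0 h1 hs
  · exact lam_inv h0 h1 (lam_one_sub h0 h1 hs)
  · have : (s - 1) / s = 1 - s⁻¹ := by field_simp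
    rw [this]; exact lam_one_sub h0 h1 (lam_inv h0 h1 hs)
  · have : s / (s - 1) = (1 - s⁻¹)⁻¹ := by field_simp
    rw [this]; exact lam_inv h0 h1 (lam_one_sub h0 h1 (lam_inv h0 h1 hs))

theorem Cl.of_mem {l s : F} {A B C : Finset F} (h : Cl l A B C) (hs : s ∈ Lam l) :
    Cl s A B C :=
  ⟨lam_ne_zero h.l0 h.l1 hs, lam_ne_one h.l0 h.l1 hs, h.nA, h.nB, h.nC, h.dAB, h.dAC, h.dBC,
    fun t ht => h.cl t (lam_sub h.l0 h.l1 hs ht)⟩

theorem Cl.swap12 {l : F} {A B C : Finset F} (h : Cl l A B C) : Cl l B A C := by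
  refine ⟨h.l0, h.l1, h.nB, h.nA, h.nC, h.dAB.symm, h.dBC, h.dAC, ?_⟩
  intro s hs y hy x hx z hz
  obtain ⟨p, hp, e⟩ := h.cl s⁻¹ (lam_inv h.l0 h.l1 hs) x hx y hy z hz
  refine ⟨p, by rwa [union_comm B A], ?_⟩
  have s0 := lam_ne_zero h.l0 h.l1 hs
  have : s * ((p - y) * (z - x)) = s * (s⁻¹ * (z - y) * (p - x)) := by rw [e]
  rw [← mul_assoc, ← mul_assoc, ← mul_assoc, mul_inv_cancel₀ s0] at this
  linear_combination -this

theorem Cl.swap23 {l : F} {A B C : Finset F} (h : Cl l A B C) : Cl l A C B := by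
  refine ⟨h.l0, h.l1, h.nA, h.nC, h.nB, h.dAC, h.dAB, h.dBC.symm, ?_⟩
  intro s hs x hx z hz y hy
  obtain ⟨p, hp, e⟩ := h.cl (1 - s) (lam_one_sub h.l0 h.l1 hs) x hx y hy z hz
  refine ⟨p, by rwa [union_right_comm A C B], ?_⟩
  linear_combination e

theorem Trio.swap12 {l : F} {B C D : Finset F} (h : Trio l B C D) : Trio l C B D := by
  refine ⟨h.l0, h.l1, ?_, h.dBC.symm, h.dCD, h.dBD⟩
  intro s hs z hz y hy
  have := h.sc (1 - s) (lam_one_sub h.l0 h.l1 hs) y hy z hz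
  have e : (1 - (1 - s)) * y + (1 - s) * z = (1 - s) * z + s * y := by ring
  rwa [e] at this

theorem Trio.swap23 {l : F} {B C D : Finset F} (h : Trio l B C D) : Trio l B D C := by
  refine ⟨h.l0, h.l1, ?_, h.dBD, h.dBC, h.dCD.symm⟩
  intro s hs y hy w hw hz
  have s0 := lam_ne_zero h.l0 h.l1 hs
  have := h.sc s⁻¹ (lam_inv h.l0 h.l1 hs) y hy _ hz
  have e : (1 - s⁻¹) * y + s⁻¹ * ((1 - s) * y + s * w) = w := by field_simp; ring
  rw [e] at this
  exact this hw

theorem mem_comb {s : F} {Y C : Finset F} {x : F} :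
    x ∈ comb s Y C ↔ ∃ y ∈ Y, ∃ z ∈ C, (1 - s) * y + s * z = x := by
  simp only [comb, mem_add, mem_smul_finset, smul_eq_mul]
  constructor
  · rintro ⟨_, ⟨y, hy, rfl⟩, _, ⟨z, hz, rfl⟩, rfl⟩
    exact ⟨y, hy, z, hz, rfl⟩
  · rintro ⟨y, hy, z, hz, rfl⟩
    exact ⟨_, ⟨y, hy, rfl⟩, _, ⟨z, hz, rfl⟩, rfl⟩

theorem card_ch (x : F) (S : Finset F) : (ch x S).card = S.card := by
  apply card_image_of_injective
  intro a b h
  simpa using h

theorem mem_ch {x : F} {S : Finset F} {v : F} : v ∈ ch x S ↔ ∃ y ∈ S, (y - x)⁻¹ = v := by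
  simp [ch]

/-- the size of a combination is at most the size of the complement of the third set -/
theorem Trio.comb_le [Fintype F] {l : F} {B C D : Finset F} (h : Trio l B C D) {u : ℕ}
    (hu : Fintype.card F = B.card + C.card + D.card + u) {s : F} (hs : s ∈ Lam l) :
    (comb s B C).card ≤ B.card + C.card + u := by
  have h1 : comb s B C ⊆ Dᶜ := by
    intro x hx
    obtain ⟨y, hy, z, hz, rfl⟩ := mem_comb.mp hx
    exact mem_compl.mpr (h.sc s hs y hy z hz)
  have h2 := card_le_card h1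
  rw [card_compl] at h2
  omega

/-- passing to the chart at a point of A -/
theorem Cl.chart [Fintype F] {l : F} {A B C : Finset F} (h : Cl l A B C) {x : F} (hx : x ∈ A) :
    ∃ D : Finset F, Trio l (ch x B) (ch x C) D ∧
      Fintype.card F = B.card + C.card + D.card + (A.card - 1) := by
  have inj : Function.Injective (fun y : F => (y - x)⁻¹) := by
    intro a b h; simpa using h
  refine ⟨(ch x (A.erase x ∪ B ∪ C))ᶜ, ⟨h.l0, h.l1, ?_, ?_, ?_, ?_⟩, ?_⟩
  · intro s hs v hv w hw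
    obtain ⟨y, hy, rfl⟩ := mem_ch.mp hv
    obtain ⟨z, hz, rfl⟩ := mem_ch.mp hw
    obtain ⟨p, hp, e⟩ := h.cl s hs x hx y hy z hz
    have yx : y - x ≠ 0 := sub_ne_zero.mpr (fun e => disjoint_left.mp h.dAB hx (e ▸ hy))
    have zx : z - x ≠ 0 := sub_ne_zero.mpr (fun e => disjoint_left.mp h.dAC hx (e ▸ hz))
    have px : p - x ≠ 0 := by
      intro e0
      have : p = x := sub_eq_zero.mp e0
      rw [this] at e
      simp only [sub_self, mul_zero, mul_eq_zero] at e
      rcases e with e | e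
      · exact yx (by linear_combination -e)
      · exact zx e
    simp only [mem_compl, not_not]
    refine mem_ch.mpr ⟨p, ?_, ?_⟩
    · simp only [mem_union, mem_erase] at hp ⊢
      rcases hp with (hp | hp) | hp
      · exact Or.inl (Or.inl ⟨sub_ne_zero.mp px, hp⟩)
      · exact Or.inl (Or.inr hp)
      · exact Or.inr hp
    · field_simp
      linear_combination -e
  · exact (disjoint_image inj).mpr h.dBC
  · exact disjoint_left.mpr fun v hv hv' => mem_compl.mp hv'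
      (image_subset_image (by intro a ha; simp [ha]) hv)
  · exact disjoint_left.mpr fun v hv hv' => mem_compl.mp hv'
      (image_subset_image (by intro a ha; simp [ha]) hv)
  · rw [card_compl, card_ch]
    have d1 : Disjoint (A.erase x) B := h.dAB.mono_left (erase_subset _ _)
    have d2 : Disjoint (A.erase x ∪ B) C :=
      disjoint_union_left.mpr ⟨h.dAC.mono_left (erase_subset _ _), h.dBC⟩
    have e := card_le_univ (A.erase x ∪ B ∪ C)
    rw [card_union_of_disjoint d2, card_union_of_disjoint d1, card_erase_of_mem hx] at e ⊢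
    omega

end Pool.Agent.P.MP_862e21_al
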