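import Pool.Agent.P.MP_862e21_al.Defs

namespace Pool.Agent.P.MP_862e21_al

open Finset Pointwise

variable {F : Type*} [Field F] [DecidableEq F]

variable [Fintype F]

theorem exists_char : ∃ e : AddChar F ℂ, e.IsPrimitive :=
  ⟨AddChar.FiniteField.primitiveChar_to_Complex F,
    AddChar.FiniteField.primitiveChar_to_Complex_isPrimitive F⟩

theorem norm_char (e : AddChar F ℂ) (x : F) : ‖e x‖ = 1 := AddChar.norm_apply e x

theorem conj_char (e : AddChar F ℂ) (x : F) : (starRingEnd ℂ) (e x) = e (-x) :=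
  (AddChar.map_neg_eq_conj e x).symm

theorem sum_char {e : AddChar F ℂ} (he : e.IsPrimitive) (b : F) :
    ∑ x : F, e (x * b) = if b = 0 then (Fintype.card F : ℂ) else 0 := by
  rw [AddChar.sum_mulShift b he]
  split_ifs <;> simp

theorem fh_zero (e : AddChar F ℂ) (S : Finset F) : fh e S 0 = S.card := by
  simp [fh]

theorem norm_fh_le (e : AddChar F ℂ) (S : Finset F) (ξ : F) : ‖fh e S ξ‖ ≤ S.card := by
  unfold fh
  refine le_trans (norm_sum_le _ _) ?_
  simp

theorem four_conj (e : AddChar F ℂ) (S : Finset F) (ξ : F) :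
    fh e S (-ξ) = (starRingEnd ℂ) (fh e S ξ) := by
  unfold fh
  rw [map_sum]
  refine sum_congr rfl fun y _ => ?_
  rw [conj_char, neg_mul]

theorem norm_fh_neg (e : AddChar F ℂ) (S : Finset F) (ξ : F) :
    ‖fh e S (-ξ)‖ = ‖fh e S ξ‖ := by
  rw [four_conj, Complex.norm_conj]

theorem parseval {e : AddChar F ℂ} (he : e.IsPrimitive) (S : Finset F) :
    ∑ ξ : F, ‖fh e S ξ‖ ^ 2 = (Fintype.card F : ℝ) * S.card := by
  have key : ∑ ξ : F, fh e S ξ * fh e S (-ξ) = (Fintype.card F : ℂ) * S.card := by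
    unfold fh
    simp_rw [sum_mul_sum]
    rw [sum_comm]
    have : ∀ y ∈ S, ∑ ξ : F, ∑ z ∈ S, e (ξ * y) * e (-ξ * z) = (Fintype.card F : ℂ) := by
      intro y hy
      rw [sum_comm]
      have : ∀ z ∈ S, ∑ ξ : F, e (ξ * y) * e (-ξ * z) =
          if y = z then (Fintype.card F : ℂ) else 0 := by
        intro z _
        simp_rw [← AddChar.map_add_eq_mul]
        have := sum_char he (y - z)
        simp only [sub_eq_zero] at this
        rw [← this]
        exact sum_congr rfl fun ξ _ => by congr 1; ring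
      rw [sum_congr rfl this]
      simp [hy]
    rw [sum_congr rfl this]
    simp [mul_comm]
  simp_rw [four_conj, Complex.mul_conj, Complex.normSq_eq_norm_sq] at key
  exact_mod_cast key

theorem parseval_mul {e : AddChar F ℂ} (he : e.IsPrimitive) (S : Finset F) {a : F} (ha : a ≠ 0) :
    ∑ ξ : F, ‖fh e S (a * ξ)‖ ^ 2 = (Fintype.card F : ℝ) * S.card := by
  rw [← parseval he S]
  exact Equiv.sum_comp (Equiv.mulLeft₀ a ha) (fun ξ => ‖fh e S ξ‖ ^ 2)

theorem count_fh {e : AddChar F ℂ} (he : e.IsPrimitive) (α β : F) (Y Z W : Finset F) :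
    ∑ ξ : F, fh e Y (α * ξ) * fh e Z (β * ξ) * fh e W (-ξ) =
      (Fintype.card F : ℂ) * ((Y ×ˢ Z).filter (fun p => α * p.1 + β * p.2 ∈ W)).card := by
  have e1 : ∀ ξ : F, fh e Y (α * ξ) * fh e Z (β * ξ) * fh e W (-ξ) =
      ∑ p ∈ Y ×ˢ Z, ∑ w ∈ W, e (ξ * (α * p.1 + β * p.2 - w)) := by
    intro ξ
    unfold fh
    rw [sum_mul_sum, ← sum_product', sum_mul_sum]
    refine sum_congr rfl fun p _ => sum_congr rfl fun w _ => ?_
    rw [← AddChar.map_add_eq_mul, ← AddChar.map_add_eq_mul]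
    congr 1; ring
  simp_rw [e1]
  rw [sum_comm, card_filter]
  push_cast
  rw [mul_sum]
  refine sum_congr rfl fun p _ => ?_
  rw [sum_comm]
  simp_rw [sum_char he, sub_eq_zero]
  rw [sum_ite_eq]
  split_ifs <;> simp

theorem bigCoeff {e : AddChar F ℂ} (he : e.IsPrimitive) {l : F} {B C D : Finset F}
    (h : Trio l B C D) (hC : C.Nonempty) (hD : D.Nonempty) :
    ∃ ξ : F, ξ ≠ 0 ∧
      (B.card : ℝ) ^ 2 * C.card * D.card ≤ (Fintype.card F : ℝ) ^ 2 * ‖fh e B ξ‖ ^ 2 := by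
  have hne : (univ.erase (0 : F)).Nonempty := ⟨1, by simp⟩
  obtain ⟨ξ0, hξ0, hmax⟩ := exists_max_image _ (fun ξ => ‖fh e B ξ‖) hne
  refine ⟨ξ0, ne_of_mem_erase hξ0, ?_⟩
  have l1 : 1 - l ≠ 0 := sub_ne_zero.mpr h.l1.symm
  have e1 := count_fh he (1 - l) l B C D
  have e2 : (B ×ˢ C).filter (fun p => (1 - l) * p.1 + l * p.2 ∈ D) = ∅ := by
    apply filter_eq_empty_iff.mpr
    intro p hp
    exact h.sc l (self_mem_Lam l) _ (mem_product.mp hp).1 _ (mem_product.mp hp).2
  rw [e2, ← add_sum_erase _ _ (mem_univ (0 : F))] at e1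
  simp only [mul_zero, neg_zero, fh_zero, card_empty, Nat.cast_zero] at e1
  set m := ‖fh e B ξ0‖
  have m0 : 0 ≤ m := norm_nonneg _
  have e3 : (B.card : ℝ) * C.card * D.card ≤
      m * ∑ ξ : F, ‖fh e C (l * ξ)‖ * ‖fh e D ξ‖ := by
    have : ((B.card : ℂ) * C.card * D.card) =
        -∑ ξ ∈ univ.erase (0 : F), fh e B ((1 - l) * ξ) * fh e C (l * ξ) * fh e D (-ξ) := by
      linear_combination e1
    have e4 := congrArg norm this
    rw [norm_neg, norm_mul, norm_mul] at e4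
    simp only [Complex.norm_natCast] at e4
    rw [e4]
    refine le_trans (norm_sum_le _ _) ?_
    rw [mul_sum]
    refine le_trans (sum_le_sum (g := fun ξ => m * (‖fh e C (l * ξ)‖ * ‖fh e D ξ‖)) ?_)
      (sum_le_sum_of_subset_of_nonneg (subset_univ _) (fun _ _ _ => by positivity))
    intro ξ hξ
    rw [norm_mul, norm_mul, norm_fh_neg, mul_assoc]
    refine mul_le_mul_of_nonneg_right (hmax _ ?_) (by positivity)
    exact mem_erase.mpr ⟨mul_ne_zero l1 (ne_of_mem_erase hξ), mem_univ _⟩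
  have e5 := sum_mul_sq_le_sq_mul_sq univ (fun ξ => ‖fh e C (l * ξ)‖) (fun ξ => ‖fh e D ξ‖)
  rw [parseval_mul he C h.l0, parseval he D] at e5
  set s := ∑ ξ : F, ‖fh e C (l * ξ)‖ * ‖fh e D ξ‖
  have c0 : (0 : ℝ) < C.card := by exact_mod_cast hC.card_pos
  have d0 : (0 : ℝ) < D.card := by exact_mod_cast hD.card_pos
  have e6 : ((B.card : ℝ) * C.card * D.card) ^ 2 ≤ (m * s) ^ 2 :=
    pow_le_pow_left₀ (by positivity) e3 2
  have e7 : (m * s) ^ 2 ≤ m ^ 2 * ((Fintype.card F : ℝ) * C.card * (Fintype.card F * D.card)) := by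
    rw [mul_pow]; exact mul_le_mul_of_nonneg_left e5 (by positivity)
  have e8 : ((B.card : ℝ) ^ 2 * C.card * D.card) * (C.card * D.card) ≤
      ((Fintype.card F : ℝ) ^ 2 * m ^ 2) * (C.card * D.card) := by nlinarith
  exact le_of_mul_le_mul_right e8 (by positivity)

theorem four_mem_perp {e : AddChar F ℂ} {K : AddSubgroup F} {ξ : F} :
    ξ ∈ perp e K ↔ ∀ h ∈ K, e (ξ * h) = 1 := by
  simp [perp]

theorem en_mono (e : AddChar F ℂ) {K K' : AddSubgroup F} (h : K' ≤ K) (S : Finset F) :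
    en e K S ≤ en e K' S := by
  unfold en
  refine sum_le_sum_of_subset_of_nonneg ?_ (fun _ _ _ => by positivity)
  intro ξ hξ
  rw [four_mem_perp] at hξ ⊢
  exact fun x hx => hξ x (h hx)

theorem en_nonneg (e : AddChar F ℂ) (K : AddSubgroup F) (S : Finset F) : 0 ≤ en e K S :=
  sum_nonneg fun _ _ => by positivity

theorem en_le {e : AddChar F ℂ} (he : e.IsPrimitive) (K : AddSubgroup F) (S : Finset F) :
    en e K S ≤ (Fintype.card F : ℝ) * S.card := by
  rw [← parseval he S]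
  exact sum_le_sum_of_subset_of_nonneg (subset_univ _) (fun _ _ _ => by positivity)

end Pool.Agent.P.MP_862e21_al
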