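import Pool.Agent.P.MP_862e21_al.Basic

namespace Pool.Agent.P.MP_862e21_al

open Finset Pointwise

theorem geo_real {N M X U α β : ℝ} (h1 : α + β = 2 * X * U) (h2 : U ^ 2 ≤ M) (h3 : M ≤ 2 * U)
    (h4 : 1 ≤ 2 * U) (h5 : 2 * X ≤ N) (h6 : N ≤ 1) (h7 : 0 < N) (h8 : 2 * U < 1 + M)
    (h9 : 8 * X < 1 + N) (ha : N * M ≤ 2 * α ∨ 1 ≤ 2 * α) (hb : M ≤ 2 * β ∨ N ≤ 2 * β) :
    False := by
  have hU : 0 < U := by linarith
  have hXU : 4 * X * U ≤ 2 * N * U := by nlinarith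
  rcases ha with ha | ha <;> rcases hb with hb | hb
  · have e1 : U * (U * (1 + N)) ≤ U * (4 * X) := by nlinarith
    have e2 := le_of_mul_le_mul_left e1 hU
    nlinarith
  · have e1 : N * (1 + M) ≤ N * (2 * U) := by nlinarith
    have e2 := le_of_mul_le_mul_left e1 h7
    linarith
  · nlinarith
  · have e1 : U * U ≤ U * 2 := by nlinarith
    have e2 := le_of_mul_le_mul_left e1 hU
    have e3 : 0 < X := by
      by_contra e4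
      nlinarith
    nlinarith

theorem geo_sq (z : ℂ) : ‖z‖ ^ 2 = z.re ^ 2 + z.im ^ 2 := by
  rw [Complex.sq_norm, Complex.normSq_apply]; ring

theorem geo_le1 {z : ℂ} (h : ‖1 - z‖ ≤ 1) : z.re ^ 2 + z.im ^ 2 ≤ 2 * z.re := by
  have h1 := pow_le_pow_left₀ (norm_nonneg _) h 2
  rw [geo_sq] at h1
  simp only [Complex.sub_re, Complex.one_re, Complex.sub_im, Complex.one_im] at h1
  nlinarith

theorem geo_le2 {z : ℂ} (h : ‖1 - z‖ ≤ ‖z‖) : 1 ≤ 2 * z.re := by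
  have h1 := pow_le_pow_left₀ (norm_nonneg _) h 2
  rw [geo_sq, geo_sq] at h1
  simp only [Complex.sub_re, Complex.one_re, Complex.sub_im, Complex.one_im] at h1
  nlinarith

theorem geo_le3 {z : ℂ} (h : 1 ≤ ‖1 - z‖) : 2 * z.re ≤ z.re ^ 2 + z.im ^ 2 := by
  have h1 := pow_le_pow_left₀ zero_le_one h 2
  rw [geo_sq] at h1
  simp only [Complex.sub_re, Complex.one_re, Complex.sub_im, Complex.one_im] at h1
  nlinarith

theorem geo_le4 {z : ℂ} (h : ‖z‖ ≤ 1) : z.re ^ 2 + z.im ^ 2 ≤ 1 := by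
  have h1 := pow_le_pow_left₀ (norm_nonneg _) h 2
  rwa [geo_sq, one_pow] at h1

theorem geo_core [DecidableEq ℂ] {s : ℂ} (h1 : ‖s‖ ≤ 1) (h2 : 1 ≤ ‖1 - s‖)
    (h3 : 8 * s.re < 1 + ‖s‖ ^ 2) {A B C : Finset ℂ} (h : Cl s A B C) {x y : ℂ} (hx : x ∈ A)
    (hy : y ∈ B) (hAB : ∀ a ∈ A, ∀ b ∈ B, ‖y - x‖ ≤ ‖b - a‖)
    (hAC : ∀ a ∈ A, ∀ b ∈ C, ‖y - x‖ ≤ ‖b - a‖) (hBC : ∀ a ∈ B, ∀ b ∈ C, ‖y - x‖ ≤ ‖b - a‖) :
    False := by
  obtain ⟨z, hz⟩ := h.nC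
  have yx : y - x ≠ 0 := sub_ne_zero.mpr fun e => disjoint_left.mp h.dAB hx (e ▸ hy)
  have zx : z - x ≠ 0 := sub_ne_zero.mpr fun e => disjoint_left.mp h.dAC hx (e ▸ hz)
  have zx' : 0 < ‖z - x‖ := norm_pos_iff.2 zx
  obtain ⟨w, hw⟩ : ∃ w, w = (z - y) / (z - x) := ⟨_, rfl⟩
  have hw1 : 1 - w = (y - x) / (z - x) := by rw [hw]; field_simp; ring
  have w1 : ‖1 - w‖ ≤ 1 := by
    rw [hw1, norm_div, div_le_one zx']
    exact hAC x hx z hz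
  have w2 : ‖1 - w‖ ≤ ‖w‖ := by
    rw [hw1, hw, norm_div, norm_div]
    exact div_le_div_of_nonneg_right (hBC y hy z hz) zx'.le
  have w3 : 0 < ‖1 - w‖ ^ 2 := by
    rw [hw1]
    exact pow_pos (norm_pos_iff.2 (div_ne_zero yx zx)) 2
  have key : ∀ t ∈ Lam s, ‖1 - t * w‖ ≤ 1 ∨ ‖1 - t * w‖ ≤ ‖t * w‖ := by
    intro t ht
    by_contra hc
    obtain ⟨c1, c2⟩ := not_or.1 hc
    rw [not_le] at c1 c2
    obtain ⟨p, hp, e⟩ := h.cl t ht x hx y hy z hz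
    have e1 : p - y = t * w * (p - x) := by
      rw [hw]; field_simp; linear_combination e
    have e2 : y - x = (1 - t * w) * (p - x) := by linear_combination -e1
    have px : 0 < ‖p - x‖ := norm_pos_iff.2 fun e3 => yx (by rw [e2, e3, mul_zero])
    have d1 : ‖p - x‖ < ‖y - x‖ := by
      rw [e2, norm_mul]
      exact lt_mul_of_one_lt_left px c1
    have d2 : ‖y - p‖ < ‖y - x‖ := by
      rw [norm_sub_rev y p, e1, e2, norm_mul, norm_mul (1 - t * w)]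
      exact mul_lt_mul_of_pos_right c2 px
    rcases mem_union.1 hp with hp | hp
    · rcases mem_union.1 hp with hp | hp
      · exact absurd (hAB p hp y hy) (not_le.2 d2)
      · exact absurd (hAB x hx p hp) (not_le.2 d1)
    · exact absurd (hAC x hx p hp) (not_le.2 d1)
  have k1 := (key s (self_mem_Lam s)).imp geo_le1 geo_le2
  have k2 := (key s⁻¹ (lam_inv h.l0 h.l1 (self_mem_Lam s))).imp geo_le1 geo_le2
  obtain ⟨τ, hτ⟩ : ∃ τ, τ = s⁻¹ * w := ⟨_, rfl⟩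
  rw [← hτ] at k2
  have hs0 := h.l0
  have hwτ : w = s * τ := by rw [hτ]; field_simp
  have hU : w.re = s.re * τ.re - s.im * τ.im := by rw [hwτ, Complex.mul_re]
  have hV : w.im = s.re * τ.im + s.im * τ.re := by rw [hwτ, Complex.mul_im]
  have hN : 0 < s.re ^ 2 + s.im ^ 2 := by
    rw [← geo_sq]; exact pow_pos (norm_pos_iff.2 hs0) 2
  rw [geo_sq] at h3 w3
  simp only [Complex.sub_re, Complex.one_re, Complex.sub_im, Complex.one_im] at w3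
  rw [Complex.mul_re, Complex.mul_im] at k1
  have hβ : s.re * w.re + s.im * w.im = (s.re ^ 2 + s.im ^ 2) * τ.re := by rw [hU, hV]; ring
  have hM : w.re ^ 2 + w.im ^ 2 = (s.re ^ 2 + s.im ^ 2) * (τ.re ^ 2 + τ.im ^ 2) := by
    rw [hU, hV]; ring
  refine geo_real (N := s.re ^ 2 + s.im ^ 2) (M := w.re ^ 2 + w.im ^ 2) (X := s.re) (U := w.re)
    (α := s.re * w.re - s.im * w.im) (β := s.re * w.re + s.im * w.im) (by ring)
    (by nlinarith) (geo_le1 w1) (geo_le2 w2) (geo_le3 h2) (geo_le4 h1) hN (by nlinarith) h3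
    (k1.imp_left fun e => by nlinarith) (k2.imp (fun e => ?_) fun e => ?_)
  · rw [hβ, hM]; nlinarith
  · rw [hβ]; nlinarith

theorem geo [DecidableEq ℂ] {s : ℂ} (h1 : ‖s‖ ≤ 1) (h2 : 1 ≤ ‖1 - s‖)
    (h3 : 8 * s.re < 1 + ‖s‖ ^ 2) {A B C : Finset ℂ} (h : Cl s A B C) : False := by
  obtain ⟨⟨x, y⟩, hp, hmin⟩ := exists_min_image (A ×ˢ B ∪ A ×ˢ C ∪ B ×ˢ C)
    (fun p : ℂ × ℂ => ‖p.2 - p.1‖) ((h.nA.product h.nB).mono (by
      intro p hp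
      exact mem_union_left _ (mem_union_left _ hp)))
  have hAB : ∀ a ∈ A, ∀ b ∈ B, ‖y - x‖ ≤ ‖b - a‖ := fun a ha b hb =>
    hmin (a, b) (mem_union_left _ (mem_union_left _ (mk_mem_product ha hb)))
  have hAC : ∀ a ∈ A, ∀ b ∈ C, ‖y - x‖ ≤ ‖b - a‖ := fun a ha b hb =>
    hmin (a, b) (mem_union_left _ (mem_union_right _ (mk_mem_product ha hb)))
  have hBC : ∀ a ∈ B, ∀ b ∈ C, ‖y - x‖ ≤ ‖b - a‖ := fun a ha b hb =>
    hmin (a, b) (mem_union_right _ (mk_mem_product ha hb))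
  have sw : ∀ {P Q : Finset ℂ}, (∀ a ∈ P, ∀ b ∈ Q, ‖y - x‖ ≤ ‖b - a‖) →
      ∀ a ∈ Q, ∀ b ∈ P, ‖y - x‖ ≤ ‖b - a‖ := fun H a ha b hb => norm_sub_rev a b ▸ H b hb a ha
  rcases mem_union.1 hp with hp | hp
  · rcases mem_union.1 hp with hp | hp
    · exact geo_core h1 h2 h3 h (mem_product.1 hp).1 (mem_product.1 hp).2 hAB hAC hBC
    · exact geo_core h1 h2 h3 h.swap23 (mem_product.1 hp).1 (mem_product.1 hp).2 hAC hAB (sw hBC)
  · exact geo_core h1 h2 h3 h.swap12.swap23 (mem_product.1 hp).1 (mem_product.1 hp).2 hBC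
      (sw hAB) (sw hAC)

theorem geo_order [DecidableEq ℂ] {l : ℂ} (h0 : l ≠ 0) (h1 : l ≠ 1) :
    ∃ s ∈ Lam l, ‖s‖ ≤ 1 ∧ 1 ≤ ‖1 - s‖ := by
  have h2 : 1 - l ≠ 0 := sub_ne_zero.mpr h1.symm
  have h3 : l - 1 ≠ 0 := sub_ne_zero.mpr h1
  have ha : 0 < ‖l‖ := norm_pos_iff.2 h0
  have hb : 0 < ‖1 - l‖ := norm_pos_iff.2 h2
  have e1 : 1 - l⁻¹ = (l - 1) / l := by field_simp
  have e2 : 1 - (l - 1) / l = l⁻¹ := by field_simp; ring
  have e3 : 1 - (1 - l)⁻¹ = l / (l - 1) := by field_simp; ring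
  have e4 : 1 - l / (l - 1) = (1 - l)⁻¹ := by field_simp; ring
  have n1 : ‖(l - 1) / l‖ = ‖1 - l‖ / ‖l‖ := by rw [norm_div, norm_sub_rev]
  have n2 : ‖l / (l - 1)‖ = ‖l‖ / ‖1 - l‖ := by rw [norm_div, norm_sub_rev]
  rcases le_total ‖l‖ 1 with a1 | a1 <;> rcases le_total ‖1 - l‖ 1 with b1 | b1
  · rcases le_total ‖l‖ ‖1 - l‖ with c | c
    · refine ⟨l / (l - 1), by simp [mem_Lam], ?_, ?_⟩
      · rwa [n2, div_le_one hb]
      · rwa [e4, norm_inv, one_le_inv₀ hb]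
    · refine ⟨(l - 1) / l, by simp [mem_Lam], ?_, ?_⟩
      · rwa [n1, div_le_one ha]
      · rwa [e2, norm_inv, one_le_inv₀ ha]
  · exact ⟨l, self_mem_Lam l, a1, b1⟩
  · exact ⟨1 - l, by simp [mem_Lam], b1, by rwa [sub_sub_cancel]⟩
  · rcases le_total ‖l‖ ‖1 - l‖ with c | c
    · refine ⟨l⁻¹, by simp [mem_Lam], ?_, ?_⟩
      · rwa [norm_inv, inv_le_one₀ ha]
      · rwa [e1, n1, one_le_div ha]
    · refine ⟨(1 - l)⁻¹, by simp [mem_Lam], ?_, ?_⟩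
      · rwa [norm_inv, inv_le_one₀ hb]
      · rwa [e3, n2, one_le_div hb]

theorem geo_inv [DecidableEq ℂ] {l s : ℂ} (h0 : l ≠ 0) (h1 : l ≠ 1) (hs : s ∈ Lam l) :
    (s ^ 2 - s + 1) ^ 3 * (l ^ 2 * (1 - l) ^ 2) = (l ^ 2 - l + 1) ^ 3 * (s ^ 2 * (1 - s) ^ 2) := by
  have h2 : 1 - l ≠ 0 := sub_ne_zero.mpr h1.symm
  have h3 : l - 1 ≠ 0 := sub_ne_zero.mpr h1
  rcases mem_Lam.mp hs with h | h | h | h | h | h <;> subst h
  · rfl
  · field_simp; ring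
  · ring
  · field_simp; ring
  · field_simp; ring
  · field_simp; ring

theorem geo_pick [DecidableEq ℂ] {l : ℂ} (h0 : l ≠ 0) (h1 : l ≠ 1)
    (hJ : ‖l ^ 2 * (1 - l) ^ 2‖ ≤ ‖(l ^ 2 - l + 1) ^ 3‖) :
    ∃ s ∈ Lam l, ‖s‖ ≤ 1 ∧ 1 ≤ ‖1 - s‖ ∧ 8 * s.re < 1 + ‖s‖ ^ 2 := by
  obtain ⟨s, hs, a1, a2⟩ := geo_order h0 h1
  refine ⟨s, hs, a1, a2, ?_⟩
  have hp : 0 < ‖l ^ 2 * (1 - l) ^ 2‖ := norm_pos_iff.2
    (mul_ne_zero (pow_ne_zero _ h0) (pow_ne_zero _ (sub_ne_zero.mpr h1.symm)))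
  have e := congrArg norm (geo_inv h0 h1 hs)
  rw [norm_mul, norm_mul ((l ^ 2 - l + 1) ^ 3)] at e
  have hJ' : ‖s ^ 2 * (1 - s) ^ 2‖ ≤ ‖(s ^ 2 - s + 1) ^ 3‖ := by
    refine le_of_mul_le_mul_right ?_ hp
    rw [e, mul_comm]
    exact mul_le_mul_of_nonneg_right hJ (norm_nonneg _)
  rw [norm_mul, norm_pow, norm_pow, norm_pow] at hJ'
  by_contra hc
  rw [not_lt] at hc
  have b1 := geo_le3 a2
  have b2 := geo_le4 a1
  have b3 := geo_sq s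
  have b4 : 1 ≤ ‖1 - s‖ ^ 2 := one_le_pow₀ a2
  have b5 : 1 / 3 ≤ ‖s‖ ^ 2 := by linarith
  have b6 : 1 / 3 ≤ ‖s ^ 2 - s + 1‖ ^ 3 := by nlinarith
  have b7 : ‖s ^ 2 - s + 1‖ ^ 2 ≤ (2 / 3) ^ 2 := by
    have e1 : ‖s ^ 2 - s + 1‖ ^ 2 = (1 - 2 * s.re) ^ 2 -
        (1 - (s.re ^ 2 + s.im ^ 2)) * ((s.re ^ 2 + s.im ^ 2) - 2 * s.re) := by
      rw [geo_sq]
      simp only [sq, Complex.add_re, Complex.sub_re, Complex.mul_re, Complex.one_re,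
        Complex.add_im, Complex.sub_im, Complex.mul_im, Complex.one_im]
      ring
    have e2 : 0 ≤ (1 - (s.re ^ 2 + s.im ^ 2)) * ((s.re ^ 2 + s.im ^ 2) - 2 * s.re) :=
      mul_nonneg (by linarith) (by linarith)
    have e3 : (1 - 2 * s.re) ^ 2 ≤ (2 / 3) ^ 2 :=
      pow_le_pow_left₀ (by linarith) (by linarith) 2
    linarith
  have b8 : ‖s ^ 2 - s + 1‖ ≤ 2 / 3 := le_of_pow_le_pow_left₀ two_ne_zero (by norm_num) b7
  have b9 := pow_le_pow_left₀ (norm_nonneg _) b8 3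
  norm_num at b9
  linarith

theorem geo_coprime {n : ℕ} (hn : 2 ≤ n) (h6 : n ≠ 6) :
    ∃ k : ℕ, k.Coprime n ∧ n ≤ 4 * k ∧ 4 * k ≤ 3 * n := by
  rcases Nat.even_or_odd' n with ⟨a, rfl | rfl⟩
  · rcases Nat.even_or_odd' a with ⟨m, rfl | rfl⟩
    · refine ⟨2 * m + 1, Nat.isCoprime_iff_coprime.1 ⟨1 - 2 * m, m, ?_⟩, by omega, by omega⟩
      push_cast; ring
    · by_cases hm : m = 0
      · subst hm
        exact ⟨1, by norm_num, by norm_num, by norm_num⟩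
      · refine ⟨2 * m + 3, Nat.isCoprime_iff_coprime.1
          ⟨2 * m + 3 - 2 * (m ^ 2 + 3 * m + 2), m ^ 2 + 3 * m + 2, ?_⟩, by omega, by omega⟩
        push_cast; ring
  · refine ⟨a + 1, Nat.isCoprime_iff_coprime.1 ⟨2, -1, ?_⟩, by omega, by omega⟩
    push_cast; ring

theorem root_pick {n : ℕ} (hn : 2 ≤ n) (h6 : n ≠ 6) :
    ∃ ζ : ℂ, IsPrimitiveRoot ζ n ∧ ζ.re ≤ 0 := by
  obtain ⟨k, h1, h2, h3⟩ := geo_coprime hn h6
  refine ⟨_, Complex.isPrimitiveRoot_exp_of_coprime k n (by omega) h1, ?_⟩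
  have e : (2 * Real.pi * Complex.I * ((k : ℂ) / n)) =
      ((2 * Real.pi * (k / n) : ℝ) : ℂ) * Complex.I := by
    push_cast; ring
  rw [e, Complex.exp_ofReal_mul_I_re]
  have hn0 : (0 : ℝ) < n := by exact_mod_cast (by omega : 0 < n)
  have h2' : (n : ℝ) ≤ 4 * k := by exact_mod_cast h2
  have h3' : (4 : ℝ) * k ≤ 3 * n := by exact_mod_cast h3
  have a1 : (1 : ℝ) / 4 ≤ k / n := by rw [le_div_iff₀ hn0]; linarith
  have a2 : (k : ℝ) / n ≤ 3 / 4 := by rw [div_le_iff₀ hn0]; linarith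
  have := Real.pi_pos
  exact Real.cos_nonpos_of_pi_div_two_le_of_le (by nlinarith) (by nlinarith)

end Pool.Agent.P.MP_862e21_al
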