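import Pool.Agent.P.MP_862e21_al.Basic

namespace Pool.Agent.P.MP_862e21_al

open Finset Pointwise

variable {F : Type*} [Field F] [DecidableEq F]

theorem Good.mono {K K' : ℕ} {C : Finset F} {m : F} (h : Good K C m) (hK : K ≤ K') :
    Good K' C m := le_trans h (Nat.mul_le_mul_right _ hK)

theorem good_card_smul {a : F} (ha : a ≠ 0) (A : Finset F) : (a • A).card = A.card :=
  card_image_of_injective _ (mul_right_injective₀ ha)

theorem good_card_sub_comm (A B : Finset F) : (A - B).card = (B - A).card := by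
  rw [← card_neg (A - B), neg_sub]

theorem good_smul_sub (a : F) (A B : Finset F) : a • (A - B) = a • A - a • B := by
  ext z
  simp only [mem_smul_finset, mem_sub, smul_eq_mul]
  constructor
  · rintro ⟨_, ⟨x, hx, y, hy, rfl⟩, rfl⟩
    exact ⟨_, ⟨x, hx, rfl⟩, _, ⟨y, hy, rfl⟩, by ring⟩
  · rintro ⟨_, ⟨x, hx, rfl⟩, _, ⟨y, hy, rfl⟩, rfl⟩
    exact ⟨_, ⟨x, hx, y, hy, rfl⟩, by ring⟩

theorem good_one_le {K : ℕ} {C : Finset F} (hC : C.Nonempty) (h1 : Good K C 1) : 1 ≤ K := by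
  rcases Nat.eq_zero_or_pos K with rfl | h
  · have h2 : (C - (1 : F) • C).card ≤ 0 * C.card := h1
    rw [one_smul, zero_mul] at h2
    exact absurd (hC.sub hC).card_pos (by omega)
  · exact h

theorem good_zero {K : ℕ} {C : Finset F} (hK : 1 ≤ K) : Good K C 0 := by
  have : C - (0 : F) • C ⊆ C := by
    intro z hz
    obtain ⟨x, hx, y, hy, rfl⟩ := mem_sub.1 hz
    obtain ⟨w, -, rfl⟩ := mem_smul_finset.1 hy
    simpa using hx
  exact (card_le_card this).trans (Nat.le_mul_of_pos_left _ hK)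

theorem good_mul {K : ℕ} {C : Finset F} {m m' : F} (hC : C.Nonempty) (hK : 1 ≤ K)
    (hm : Good K C m) (hm' : Good K C m') : Good (K ^ 2) C (m * m') := by
  rcases eq_or_ne m 0 with rfl | h0
  · rw [zero_mul]
    exact good_zero (Nat.one_le_pow _ _ hK)
  · have h1 := ruzsa_triangle_inequality_sub_sub_sub C (m • C) ((m * m') • C)
    have h2 : ((m * m') • C - m • C).card = (C - m' • C).card := by
      rw [mul_smul, ← good_smul_sub, good_card_smul h0, good_card_sub_comm]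
    rw [h2, good_card_smul h0] at h1
    have h3 : (C - (m * m') • C).card * C.card ≤ (K ^ 2 * C.card) * C.card :=
      h1.trans ((Nat.mul_le_mul hm hm').trans_eq (by ring))
    exact Nat.le_of_mul_le_mul_right h3 hC.card_pos

theorem good_inv {K : ℕ} {C : Finset F} {m : F} (hm : Good K C m) : Good K C m⁻¹ := by
  rcases eq_or_ne m 0 with rfl | h0
  · rwa [inv_zero]
  · have h2 : (C - m⁻¹ • C).card = (C - m • C).card := by
      rw [← good_card_smul h0, good_smul_sub, smul_inv_smul₀ h0, good_card_sub_comm]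
    exact h2.trans_le hm

theorem good_cover {K : ℕ} {C : Finset F} {m : F} (hC : C.Nonempty) (hm : Good K C m) :
    ∃ T : Finset F, T.card ≤ K ∧ ∀ x ∈ C, ∃ t ∈ T, ∃ a ∈ C, ∃ b ∈ C, -(m * x) = t + (a - b) := by
  have h1 : (-(m • C) + C).card ≤ K * C.card := by
    rw [add_comm, ← sub_eq_add_neg]
    exact hm
  obtain ⟨T, -, hT, hsub⟩ := ruzsa_covering_add (A := -(m • C)) (B := C) (K := K) hC
    (by exact_mod_cast h1)
  refine ⟨T, by exact_mod_cast hT, fun x hx => ?_⟩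
  obtain ⟨t, ht, w, hw, e⟩ := mem_add.1 (hsub (neg_mem_neg (smul_mem_smul_finset hx)))
  obtain ⟨a, ha, b, hb, rfl⟩ := mem_sub.1 hw
  exact ⟨t, ht, a, ha, b, hb, e.symm⟩

theorem good_five {K : ℕ} {C : Finset F} (hC : C.Nonempty) (h1 : Good K C 1) :
    (3 • C - 2 • C).card ≤ K ^ 5 * C.card := by
  have h2 : (C - C).card ≤ K * C.card := by
    have h3 : (C - (1 : F) • C).card ≤ K * C.card := h1
    rwa [one_smul] at h3
  have h3 := pluennecke_ruzsa_inequality_nsmul_sub_nsmul_sub hC C 3 2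
  have hc : (0 : ℚ≥0) < C.card := by exact_mod_cast hC.card_pos
  have h4 : ((C - C).card : ℚ≥0) / C.card ≤ K := by
    rw [div_le_iff₀ hc]
    exact_mod_cast h2
  have h5 : ((3 • C - 2 • C).card : ℚ≥0) ≤ (K : ℚ≥0) ^ 5 * C.card :=
    h3.trans (by gcongr)
  exact_mod_cast h5

theorem good_mem_five {C : Finset F} {a b c d e : F} (ha : a ∈ C) (hb : b ∈ C) (hc : c ∈ C)
    (hd : d ∈ C) (he : e ∈ C) : a + b + c - (d + e) ∈ 3 • C - 2 • C := by
  have e3 : 3 • C = C + C + C := by rw [three_nsmul, add_assoc]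
  rw [e3, two_nsmul]
  exact sub_mem_sub (add_mem_add (add_mem_add ha hb) hc) (add_mem_add hd he)

theorem good_ops {K : ℕ} {C : Finset F} {m m' : F} (hC : C.Nonempty) (h1 : Good K C 1)
    (hm : Good K C m) (hm' : Good K C m') :
    Good (K ^ 11) C (m + m') ∧ Good (K ^ 11) C (m - m') ∧ Good (K ^ 11) C (m * m') ∧
      Good (K ^ 11) C (m / m') := by
  have hK := good_one_le hC h1
  obtain ⟨T, hT, hTs⟩ := good_cover hC hm
  obtain ⟨T', hT', hTs'⟩ := good_cover hC hm'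
  have h5 := good_five hC h1
  have h7 : K ^ 7 ≤ K ^ 11 := Nat.pow_le_pow_right hK (by norm_num)
  have h2 : K ^ 2 ≤ K ^ 11 := Nat.pow_le_pow_right hK (by norm_num)
  have fin : ∀ (U : Finset F) (μ : F), U.card ≤ K * K → C - μ • C ⊆ U + (3 • C - 2 • C) →
      Good (K ^ 11) C μ := by
    intro U μ hU hs
    refine Good.mono (K := K ^ 7) ?_ h7
    exact (card_le_card hs).trans (card_add_le.trans ((Nat.mul_le_mul hU h5).trans_eq (by ring)))
  refine ⟨fin (T + T') _ (card_add_le.trans (Nat.mul_le_mul hT hT')) ?_,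
    fin (T - T') _ (card_sub_le.trans (Nat.mul_le_mul hT hT')) ?_,
    (good_mul hC hK hm hm').mono h2, ?_⟩
  · intro z hz
    obtain ⟨c, hc, y, hy, rfl⟩ := mem_sub.1 hz
    obtain ⟨x, hx, rfl⟩ := mem_smul_finset.1 hy
    obtain ⟨t, ht, a, ha, b, hb, e⟩ := hTs x hx
    obtain ⟨t', ht', a', ha', b', hb', e'⟩ := hTs' x hx
    refine mem_add.2 ⟨t + t', add_mem_add ht ht', _, good_mem_five hc ha ha' hb hb', ?_⟩
    rw [smul_eq_mul]
    linear_combination -e - e'
  · intro z hz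
    obtain ⟨c, hc, y, hy, rfl⟩ := mem_sub.1 hz
    obtain ⟨x, hx, rfl⟩ := mem_smul_finset.1 hy
    obtain ⟨t, ht, a, ha, b, hb, e⟩ := hTs x hx
    obtain ⟨t', ht', a', ha', b', hb', e'⟩ := hTs' x hx
    refine mem_add.2 ⟨t - t', sub_mem_sub ht ht', _, good_mem_five hc ha hb' hb ha', ?_⟩
    rw [smul_eq_mul]
    linear_combination -e + e'
  · rw [div_eq_mul_inv]
    exact (good_mul hC hK hm (good_inv hm')).mono h2

/-- Quadruples that determine the slope. -/
def goodQ (C : Finset F) (m : F) : Finset ((F × F) × (F × F)) :=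
  ((C ×ˢ C) ×ˢ (C ×ˢ C)).filter
    (fun w => w.1.1 - m * w.1.2 = w.2.1 - m * w.2.2 ∧ w.1.2 ≠ w.2.2)

theorem good_energy (C : Finset F) (m : F) :
    C.card ^ 4 ≤ (C - m • C).card * (C.card ^ 2 + (goodQ C m).card) := by
  let f : F × F → F := fun p => p.1 - m * p.2
  have hmap : ∀ p ∈ C ×ˢ C, f p ∈ C - m • C := fun p hp =>
    sub_mem_sub (mem_product.1 hp).1 (smul_mem_smul_finset (mem_product.1 hp).2)
  have h1 : (C ×ˢ C).card = ∑ z ∈ C - m • C, ((C ×ˢ C).filter (fun p => f p = z)).card :=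
    card_eq_sum_card_fiberwise hmap
  let E := ((C ×ˢ C) ×ˢ (C ×ˢ C)).filter (fun w => f w.1 = f w.2)
  have h2 : E.card = ∑ z ∈ C - m • C, ((C ×ˢ C).filter (fun p => f p = z)).card ^ 2 := by
    rw [card_eq_sum_card_fiberwise (f := fun w => f w.1) (t := C - m • C)
      (fun w hw => hmap _ (mem_product.1 (mem_filter.1 hw).1).1)]
    refine sum_congr rfl fun z _ => ?_
    rw [sq, ← card_product]
    congr 1
    ext w
    simp only [E, mem_filter, mem_product]
    constructor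
    · rintro ⟨⟨⟨a, b⟩, c⟩, d⟩
      exact ⟨⟨a, d⟩, b, c ▸ d⟩
    · rintro ⟨⟨a, d⟩, b, c⟩
      exact ⟨⟨⟨a, b⟩, d.trans c.symm⟩, d⟩
  have h3 : E ⊆ (C ×ˢ C).image (fun p => (p, p)) ∪ goodQ C m := by
    rintro ⟨⟨x, y⟩, ⟨x', y'⟩⟩ hw
    obtain ⟨hw1, hw2⟩ := mem_filter.1 hw
    by_cases hy : y = y'
    · subst hy
      have hx : x = x' := by
        have : x - m * y = x' - m * y := hw2
        linear_combination this
      subst hx
      exact mem_union_left _ (mem_image.2 ⟨(x, y), (mem_product.1 hw1).1, rfl⟩)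
    · exact mem_union_right _ (mem_filter.2 ⟨hw1, hw2, hy⟩)
  have h4 : E.card ≤ C.card ^ 2 + (goodQ C m).card := by
    refine (card_le_card h3).trans ((card_union_le _ _).trans (Nat.add_le_add_right ?_ _))
    exact card_image_le.trans_eq (by rw [card_product, sq])
  calc C.card ^ 4 = ((C ×ˢ C).card) ^ 2 := by rw [card_product]; ring
    _ ≤ (C - m • C).card * E.card := by
        rw [h1, h2]
        exact sq_sum_le_card_mul_sum_sq
    _ ≤ _ := Nat.mul_le_mul_left _ h4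

theorem good_count {K : ℕ} {C : Finset F} (hC : C.Nonempty) (hK : 2 * K ≤ C.card)
    (M : Finset F) (hM : ∀ m ∈ M, Good K C m) : M.card ≤ 2 * K * C.card := by
  have hc := hC.card_pos
  have h1 : ∀ m ∈ M, C.card ^ 3 ≤ 2 * K * (goodQ C m).card := by
    intro m hm
    have h2 : C.card ^ 3 * C.card ≤ (K * (C.card ^ 2 + (goodQ C m).card)) * C.card :=
      calc C.card ^ 3 * C.card = C.card ^ 4 := by ring
        _ ≤ _ := good_energy C m
        _ ≤ (K * C.card) * (C.card ^ 2 + (goodQ C m).card) := Nat.mul_le_mul_right _ (hM m hm)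
        _ = _ := by ring
    have h3 := Nat.le_of_mul_le_mul_right h2 hc
    have h4 : 2 * K * C.card ^ 2 ≤ C.card * C.card ^ 2 := Nat.mul_le_mul_right _ hK
    nlinarith
  have h2 : ∑ m ∈ M, (goodQ C m).card ≤ C.card ^ 4 := by
    rw [← card_biUnion]
    · refine (card_le_card (t := (C ×ˢ C) ×ˢ (C ×ˢ C)) ?_).trans_eq ?_
      · intro w hw
        obtain ⟨m, -, hw'⟩ := mem_biUnion.1 hw
        exact (mem_filter.1 hw').1
      · simp only [card_product]; ring
    · intro m _ m' _ hne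
      refine disjoint_left.2 fun w hw hw' => hne ?_
      obtain ⟨-, e, hy⟩ := mem_filter.1 hw
      obtain ⟨-, e', -⟩ := mem_filter.1 hw'
      refine mul_right_cancel₀ (sub_ne_zero.2 hy) ?_
      linear_combination e' - e
  have h3 : M.card * C.card ^ 3 ≤ (2 * K * C.card) * C.card ^ 3 :=
    calc M.card * C.card ^ 3 = ∑ _m ∈ M, C.card ^ 3 := by rw [sum_const, smul_eq_mul]
      _ ≤ ∑ m ∈ M, 2 * K * (goodQ C m).card := sum_le_sum h1
      _ = 2 * K * ∑ m ∈ M, (goodQ C m).card := by rw [mul_sum]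
      _ ≤ 2 * K * C.card ^ 4 := Nat.mul_le_mul_left _ h2
      _ = _ := by ring
  exact Nat.le_of_mul_le_mul_right h3 (by positivity)

theorem good_overlap_aux {C0 C1 Z : Finset F} {K0 K1 : ℕ} {m κ : F} (hm : m ≠ 0)
    (hne : C0.Nonempty) (hc : C1.card = C0.card)
    (h0 : (C0 - C0).card ≤ K0 * C0.card) (h1 : (C1 - C1).card ≤ K0 * C1.card) (hZ : Z ⊆ C0)
    (hZc : C0.card ≤ K1 * Z.card) (hZ0 : ∀ v ∈ Z, ∃ w ∈ C1, v = κ + m * w) :
    (C0 - m • C1).card ≤ K1 * K0 ^ 2 * C0.card := by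
  have t := ruzsa_triangle_inequality_sub_sub_sub C0 Z (m • C1)
  have a : (C0 - Z).card ≤ K0 * C0.card := (card_le_card (sub_subset_sub_left hZ)).trans h0
  have b : (m • C1 - Z).card ≤ K0 * C0.card := by
    have hs : m • C1 - Z ⊆ (-κ) +ᵥ (m • (C1 - C1)) := by
      intro z hz
      obtain ⟨y', hy', v, hv, rfl⟩ := mem_sub.1 hz
      obtain ⟨y, hy, rfl⟩ := mem_smul_finset.1 hy'
      obtain ⟨w, hw, rfl⟩ := hZ0 v hv
      refine mem_vadd_finset.2 ⟨_, smul_mem_smul_finset (sub_mem_sub hy hw), ?_⟩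
      simp only [smul_eq_mul, vadd_eq_add]
      ring
    refine (card_le_card hs).trans ?_
    rw [card_vadd_finset, good_card_smul hm, ← hc]
    exact h1
  have h3 : (C0 - m • C1).card * C0.card ≤ (K1 * K0 ^ 2 * C0.card) * C0.card :=
    calc (C0 - m • C1).card * C0.card ≤ (C0 - m • C1).card * (K1 * Z.card) :=
          Nat.mul_le_mul_left _ hZc
      _ = K1 * ((C0 - m • C1).card * Z.card) := by ring
      _ ≤ K1 * ((K0 * C0.card) * (K0 * C0.card)) :=
          Nat.mul_le_mul_left _ (t.trans (Nat.mul_le_mul a b))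
      _ = _ := by ring
  exact Nat.le_of_mul_le_mul_right h3 hne.card_pos

theorem good_of_overlap {C0 C1 Z : Finset F} {K0 K1 : ℕ} {m0 m1 κ0 κ1 : F} (hm0 : m0 ≠ 0)
    (hm1 : m1 ≠ 0) (hne : C0.Nonempty) (hc : C1.card = C0.card)
    (h0 : (C0 - C0).card ≤ K0 * C0.card) (h1 : (C1 - C1).card ≤ K0 * C1.card) (hZ : Z ⊆ C0)
    (hZc : C0.card ≤ K1 * Z.card) (hZ0 : ∀ v ∈ Z, ∃ w ∈ C1, v = κ0 + m0 * w)
    (hZ1 : ∀ v ∈ Z, ∃ w ∈ C1, v = κ1 + m1 * w) : Good ((K1 * K0 ^ 2) ^ 2) C0 (m0 / m1) := by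
  have a := good_overlap_aux hm0 hne hc h0 h1 hZ hZc hZ0
  have b := good_overlap_aux hm1 hne hc h0 h1 hZ hZc hZ1
  have t := ruzsa_triangle_inequality_sub_sub_sub C0 (m0 • C1) ((m0 / m1) • C0)
  have e : ((m0 / m1) • C0 - m0 • C1).card = (C0 - m1 • C1).card := by
    rw [← good_card_smul (div_ne_zero hm0 hm1) (C0 - m1 • C1), good_smul_sub, smul_smul,
      div_mul_cancel₀ _ hm1]
  rw [e, good_card_smul hm0, hc] at t
  have h3 : (C0 - (m0 / m1) • C0).card * C0.card ≤ ((K1 * K0 ^ 2) ^ 2 * C0.card) * C0.card :=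
    t.trans ((Nat.mul_le_mul a b).trans_eq (by ring))
  exact Nat.le_of_mul_le_mul_right h3 hne.card_pos

end Pool.Agent.P.MP_862e21_al
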