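import Pool.Agent.P.MP_862e21_al.Invar2

namespace Pool.Agent.P.MP_862e21_al

open Finset Pointwise

variable {F : Type*} [Field F] [DecidableEq F]

omit [DecidableEq F] in
theorem incr_mem_perp [Fintype F] {e : AddChar F ℂ} {K : AddSubgroup F} {ξ : F} :
    ξ ∈ perp e K ↔ ∀ h ∈ K, e (ξ * h) = 1 := by
  simp [perp]

omit [DecidableEq F] in
theorem incr_gam [Fintype F] {e : AddChar F ℂ} {l x ξ : F} (hl : 1 - l ≠ 0) {K : AddSubgroup F}
    {Z : Finset F} (hZ : Z.Nonempty) (k : ∀ z ∈ Z, l * (z - x) / (1 - l) ∈ K)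
    (hξ : (1 - l) * ξ ∈ perp e K) : fh e Z (l * ξ) / Z.card = e (l * ξ * x) := by
  have hc : (Z.card : ℂ) ≠ 0 := by exact_mod_cast hZ.card_pos.ne'
  have h1 : ∀ z ∈ Z, e (l * ξ * z) = e (l * ξ * x) := by
    intro z hz
    have h2 := incr_mem_perp.1 hξ _ (k z hz)
    have h3 : l * ξ * z = (1 - l) * ξ * (l * (z - x) / (1 - l)) + l * ξ * x := by
      field_simp
      ring
    rw [h3, AddChar.map_add_eq_mul, h2, one_mul]
  rw [fh, sum_congr rfl h1, sum_const, nsmul_eq_mul, mul_div_cancel_left₀ _ hc]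

theorem incr_norm [Fintype F] (e : AddChar F ℂ) {Z : Finset F} (hZ : Z.Nonempty) (ξ : F) :
    ‖fh e Z ξ / Z.card‖ ≤ 1 := by
  have hc : (0 : ℝ) < Z.card := by exact_mod_cast hZ.card_pos
  rw [norm_div, Complex.norm_natCast, div_le_one hc]
  exact norm_fh_le e Z ξ

theorem incr_big [Fintype F] {e : AddChar F ℂ} (he : e.IsPrimitive) {l : F} (hl : l ≠ 0)
    {Z S : Finset F} (hZ : Z.Nonempty) {n M : ℕ} (hn : 1 ≤ n) (m : Fintype.card F ≤ M * Z.card)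
    (hS : ∀ ξ ∈ S, 1 / (8 * (n : ℝ)) ≤ ‖fh e Z (l * ξ) / Z.card‖) : S.card ≤ 64 * n ^ 2 * M := by
  have hc : (0 : ℝ) < Z.card := by exact_mod_cast hZ.card_pos
  have hn' : (0 : ℝ) < n := by exact_mod_cast hn
  have m' : (Fintype.card F : ℝ) ≤ M * Z.card := by exact_mod_cast m
  have h1 : ∀ ξ ∈ S, (Z.card : ℝ) ^ 2 ≤ 64 * n ^ 2 * ‖fh e Z (l * ξ)‖ ^ 2 := by
    intro ξ hξ
    have h2 := hS ξ hξ
    rw [norm_div, Complex.norm_natCast, div_le_div_iff₀ (by positivity) hc, one_mul] at h2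
    calc (Z.card : ℝ) ^ 2 ≤ (‖fh e Z (l * ξ)‖ * (8 * n)) ^ 2 := by gcongr
      _ = _ := by ring
  have h3 := sum_le_sum h1
  rw [sum_const, nsmul_eq_mul, ← mul_sum] at h3
  have h4 : ∑ ξ ∈ S, ‖fh e Z (l * ξ)‖ ^ 2 ≤ ∑ ξ : F, ‖fh e Z (l * ξ)‖ ^ 2 :=
    sum_le_sum_of_subset_of_nonneg (subset_univ _) fun _ _ _ => by positivity
  rw [parseval_mul he Z hl] at h4
  have h5 : (S.card : ℝ) * Z.card ^ 2 ≤ 64 * n ^ 2 * M * Z.card ^ 2 :=
    calc (S.card : ℝ) * Z.card ^ 2 ≤ 64 * n ^ 2 * (M * Z.card * Z.card) :=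
          h3.trans (by gcongr; exact h4.trans (by gcongr))
      _ = _ := by ring
  exact_mod_cast le_of_mul_le_mul_right h5 (by positivity)

theorem incr_one [Fintype F] {l : F} {B C D : Finset F} {u n : ℕ} (h : Trio l B C D)
    (hu : Fintype.card F = B.card + C.card + D.card + u) {z : F} (hz : z ∈ C)
    (hinv : Fintype.card F ≤ n * (B.filter (fun y => (1 - l) * y + l * z ∉ B)).card)
    (hun : 2 * n * u ≤ Fintype.card F) :
    Fintype.card F ≤ 2 * n * (B.filter (fun y => (1 - l) * y + l * z ∈ C)).card := by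
  have hl : 1 - l ≠ 0 := sub_ne_zero.2 h.l1.symm
  have hE : (B ∪ C ∪ D)ᶜ.card = u := by
    have e := card_le_univ (B ∪ C ∪ D)
    rw [card_compl]
    rw [card_union_of_disjoint (disjoint_union_left.2 ⟨h.dBD, h.dCD⟩),
      card_union_of_disjoint h.dBC] at e ⊢
    omega
  have h1 : (B.filter (fun y => (1 - l) * y + l * z ∈ (B ∪ C ∪ D)ᶜ)).card ≤ u := by
    rw [← hE]
    refine card_le_card_of_injOn (fun y => (1 - l) * y + l * z) (fun y hy => ?_)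
      fun a _ b _ hab => mul_left_cancel₀ hl (add_right_cancel hab)
    exact (mem_filter.1 (mem_coe.1 hy)).2
  have h2 : B.filter (fun y => (1 - l) * y + l * z ∉ B) ⊆
      B.filter (fun y => (1 - l) * y + l * z ∈ C) ∪
        B.filter (fun y => (1 - l) * y + l * z ∈ (B ∪ C ∪ D)ᶜ) := by
    intro y hy
    obtain ⟨hy1, hy2⟩ := mem_filter.1 hy
    have hD := h.sc l (self_mem_Lam l) y hy1 z hz
    by_cases hC : (1 - l) * y + l * z ∈ C
    · exact mem_union_left _ (mem_filter.2 ⟨hy1, hC⟩)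
    · exact mem_union_right _ (mem_filter.2 ⟨hy1, by simp [hy2, hC, hD]⟩)
  have h3 := (card_le_card h2).trans (card_union_le _ _)
  have h4 := hinv.trans (Nat.mul_le_mul_left n (h3.trans (Nat.add_le_add_left h1 _)))
  nlinarith

theorem incr_cnt {l : F} (B C Z : Finset F) :
    ((B ×ˢ Z).filter (fun p => (1 - l) * p.1 + l * p.2 ∈ C)).card =
      ∑ z ∈ Z, (B.filter (fun y => (1 - l) * y + l * z ∈ C)).card := by
  simp only [card_filter]
  rw [sum_product_right]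

theorem incr_low [Fintype F] {e : AddChar F ℂ} (he : e.IsPrimitive) {l : F}
    {B C D : Finset F} {u n : ℕ} (h : Trio l B C D)
    (hu : Fintype.card F = B.card + C.card + D.card + u) (hn : 1 ≤ n)
    (hinv : ∀ z : F, Fintype.card F ≤ n * (B.filter (fun y => (1 - l) * y + l * z ∉ B)).card)
    (hun : 2 * n * u ≤ Fintype.card F) {C1 D1 : Finset F}
    (hC1 : C1 ⊆ C) (hD1 : D1 ⊆ D) (nC : C1.Nonempty) :
    (Fintype.card F : ℝ) ^ 2 / (4 * (n : ℝ) ^ 2) ≤ ∑ ξ : F, (‖fh e B ((1 - l) * ξ)‖ *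
      ‖fh e C1 (l * ξ) / C1.card - fh e D1 (l * ξ) / D1.card‖) ^ 2 := by
  have hc : (0 : ℝ) < C1.card := by exact_mod_cast nC.card_pos
  have hn' : (0 : ℝ) < n := by exact_mod_cast hn
  have hq : (0 : ℝ) < Fintype.card F := by exact_mod_cast Fintype.card_pos
  obtain ⟨T, hT⟩ : ∃ T, T = ((B ×ˢ C1).filter (fun p => (1 - l) * p.1 + l * p.2 ∈ C)).card :=
    ⟨_, rfl⟩
  have hT1 : C1.card * Fintype.card F ≤ 2 * n * T := by
    rw [hT, incr_cnt, mul_sum, ← smul_eq_mul, ← sum_const]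
    exact sum_le_sum fun z hz => incr_one h hu (hC1 hz) (hinv z) hun
  have hT2 : (C1.card : ℝ) * Fintype.card F ≤ 2 * n * T := by exact_mod_cast hT1
  have e1 := count_fh he (1 - l) l B C1 C
  have e2 := count_fh he (1 - l) l B D1 C
  have hz : (B ×ˢ D1).filter (fun p => (1 - l) * p.1 + l * p.2 ∈ C) = ∅ :=
    filter_eq_empty_iff.2 fun p hp =>
      h.swap23.sc l (self_mem_Lam l) _ (mem_product.1 hp).1 _ (hD1 (mem_product.1 hp).2)
  rw [hz, card_empty, Nat.cast_zero, mul_zero] at e2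
  rw [← hT] at e1
  have e3 : ∑ ξ : F, fh e B ((1 - l) * ξ) *
      (fh e C1 (l * ξ) / C1.card - fh e D1 (l * ξ) / D1.card) * fh e C (-ξ) =
        (Fintype.card F : ℂ) * T / C1.card := by
    rw [← e1, ← sub_zero (_ / (C1.card : ℂ)), ← zero_div (D1.card : ℂ), ← e2, sum_div, sum_div,
      ← sum_sub_distrib]
    exact sum_congr rfl fun ξ _ => by ring
  have e4 : (Fintype.card F : ℝ) * T / C1.card ≤ ∑ ξ : F, (‖fh e B ((1 - l) * ξ)‖ *
      ‖fh e C1 (l * ξ) / C1.card - fh e D1 (l * ξ) / D1.card‖) * ‖fh e C ξ‖ := by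
    have e5 := congrArg norm e3
    rw [norm_div, norm_mul, Complex.norm_natCast, Complex.norm_natCast,
      Complex.norm_natCast] at e5
    rw [← e5]
    refine (norm_sum_le _ _).trans (le_of_eq (sum_congr rfl fun ξ _ => ?_))
    rw [norm_mul, norm_mul, norm_fh_neg]
  have e6 := sum_mul_sq_le_sq_mul_sq univ (fun ξ : F => ‖fh e B ((1 - l) * ξ)‖ *
      ‖fh e C1 (l * ξ) / C1.card - fh e D1 (l * ξ) / D1.card‖) fun ξ => ‖fh e C ξ‖
  rw [parseval he] at e6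
  have hCq : (C.card : ℝ) ≤ Fintype.card F := by exact_mod_cast card_le_univ C
  have hA : 0 ≤ ∑ ξ : F, (‖fh e B ((1 - l) * ξ)‖ *
      ‖fh e C1 (l * ξ) / C1.card - fh e D1 (l * ξ) / D1.card‖) ^ 2 :=
    sum_nonneg fun _ _ => by positivity
  generalize ∑ ξ : F, (‖fh e B ((1 - l) * ξ)‖ *
      ‖fh e C1 (l * ξ) / C1.card - fh e D1 (l * ξ) / D1.card‖) ^ 2 = A at *
  generalize ∑ ξ : F, (‖fh e B ((1 - l) * ξ)‖ *
      ‖fh e C1 (l * ξ) / C1.card - fh e D1 (l * ξ) / D1.card‖) * ‖fh e C ξ‖ = X at *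
  generalize (Fintype.card F : ℝ) = q at *
  have e7 : q ^ 2 / (2 * n) ≤ X := by
    refine le_trans ?_ e4
    rw [div_le_div_iff₀ (by positivity) hc]
    nlinarith
  have e8 : (q ^ 2 / (2 * n)) ^ 2 ≤ A * (q * q) :=
    (pow_le_pow_left₀ (by positivity) e7 2).trans (e6.trans (by gcongr))
  have e9 : (q ^ 2 / (2 * n)) ^ 2 = q ^ 2 / (4 * (n : ℝ) ^ 2) * (q * q) := by
    field_simp
    ring
  rw [e9] at e8
  exact le_of_mul_le_mul_right e8 (by positivity)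

theorem incr2 [Fintype F] (h2 : (2 : F) = 0) {e : AddChar F ℂ} (he : e.IsPrimitive) {l : F}
    {B C D : Finset F} {u n M : ℕ} (h : Trio l B C D)
    (hu : Fintype.card F = B.card + C.card + D.card + u) (hn : 1 ≤ n)
    (hinv : ∀ z : F, Fintype.card F ≤ n * (B.filter (fun y => (1 - l) * y + l * z ∉ B)).card)
    (hun : 2 * n * u ≤ Fintype.card F) (K : AddSubgroup F) {x : F} {C1 D1 : Finset F}
    (hC1 : C1 ⊆ C) (hD1 : D1 ⊆ D) (kC : ∀ z ∈ C1, l * (z - x) / (1 - l) ∈ K)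
    (kD : ∀ z ∈ D1, l * (z - x) / (1 - l) ∈ K) (mC : Fintype.card F ≤ M * C1.card)
    (mD : Fintype.card F ≤ M * D1.card) :
    ∃ K' : AddSubgroup F, K' ≤ K ∧ Nat.card K ≤ 2 ^ (128 * n ^ 2 * M) * Nat.card K' ∧
      en e K B + (Fintype.card F : ℝ) ^ 2 / (32 * (n : ℝ) ^ 2) ≤ en e K' B := by
  have hl : 1 - l ≠ 0 := sub_ne_zero.2 h.l1.symm
  have hq0 : 0 < Fintype.card F := Fintype.card_pos
  have nC : C1.Nonempty := card_pos.1 (Nat.pos_of_mul_pos_left (hq0.trans_le mC))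
  have nD : D1.Nonempty := card_pos.1 (Nat.pos_of_mul_pos_left (hq0.trans_le mD))
  have hn' : (0 : ℝ) < n := by exact_mod_cast hn
  obtain ⟨SC', hSC⟩ : ∃ S : Finset F, ∀ ξ, ξ ∈ S ↔
      1 / (8 * (n : ℝ)) ≤ ‖fh e C1 (l * ξ) / C1.card‖ :=
    ⟨univ.filter fun ξ => 1 / (8 * (n : ℝ)) ≤ ‖fh e C1 (l * ξ) / C1.card‖, fun ξ => by
      rw [mem_filter]; exact and_iff_right (mem_univ _)⟩
  obtain ⟨SD', hSD⟩ : ∃ S : Finset F, ∀ ξ, ξ ∈ S ↔
      1 / (8 * (n : ℝ)) ≤ ‖fh e D1 (l * ξ) / D1.card‖ :=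
    ⟨univ.filter fun ξ => 1 / (8 * (n : ℝ)) ≤ ‖fh e D1 (l * ξ) / D1.card‖, fun ξ => by
      rw [mem_filter]; exact and_iff_right (mem_univ _)⟩
  have cC := incr_big he h.l0 nC hn mC fun ξ hξ => (hSC ξ).1 hξ
  have cD := incr_big he h.l0 nD hn mD fun ξ hξ => (hSD ξ).1 hξ
  obtain ⟨K', hK, hcard, hS⟩ := cut2 h2 e K ((SC' ∪ SD').image fun ξ => (1 - l) * ξ)
  have cS : ((SC' ∪ SD').image fun ξ => (1 - l) * ξ).card ≤ 128 * n ^ 2 * M := by
    refine card_image_le.trans ((card_union_le SC' SD').trans ?_)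
    nlinarith
  refine ⟨K', hK, hcard.trans (Nat.mul_le_mul_right _ (Nat.pow_le_pow_right two_pos cS)), ?_⟩
  have hsub : perp e K ⊆ perp e K' := fun ξ hξ =>
    incr_mem_perp.2 fun a ha => incr_mem_perp.1 hξ a (hK ha)
  have low := incr_low he h hu hn hinv hun hC1 hD1 nC
  have pt : ∀ ξ : F, (‖fh e B ((1 - l) * ξ)‖ *
      ‖fh e C1 (l * ξ) / C1.card - fh e D1 (l * ξ) / D1.card‖) ^ 2 ≤
      1 / (16 * (n : ℝ) ^ 2) * ‖fh e B ((1 - l) * ξ)‖ ^ 2 +
        4 * (if (1 - l) * ξ ∈ perp e K' \ perp e K then ‖fh e B ((1 - l) * ξ)‖ ^ 2 else 0) := by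
    intro ξ
    have tri := norm_sub_le (fh e C1 (l * ξ) / C1.card) (fh e D1 (l * ξ) / D1.card)
    by_cases h1 : (1 - l) * ξ ∈ perp e K
    · rw [incr_gam hl nC kC h1, incr_gam hl nD kD h1, sub_self, norm_zero, mul_zero,
        zero_pow two_ne_zero]
      positivity
    by_cases h3 : ξ ∈ SC' ∪ SD'
    · rw [if_pos (mem_sdiff.2 ⟨hS (mem_image_of_mem _ h3), h1⟩)]
      have h4 : ‖fh e C1 (l * ξ) / C1.card - fh e D1 (l * ξ) / D1.card‖ ≤ 2 := by
        linarith [incr_norm e nC (l * ξ), incr_norm e nD (l * ξ)]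
      calc _ ≤ (‖fh e B ((1 - l) * ξ)‖ * 2) ^ 2 := by gcongr
        _ = 4 * ‖fh e B ((1 - l) * ξ)‖ ^ 2 := by ring
        _ ≤ _ := le_add_of_nonneg_left (by positivity)
    · rw [mem_union, not_or, hSC, hSD, not_le, not_le] at h3
      have h4 : ‖fh e C1 (l * ξ) / C1.card - fh e D1 (l * ξ) / D1.card‖ ≤ 1 / (4 * (n : ℝ)) := by
        have : 1 / (4 * (n : ℝ)) = 1 / (8 * (n : ℝ)) + 1 / (8 * (n : ℝ)) := by
          field_simp
          ring
        linarith [h3.1, h3.2]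
      calc _ ≤ (‖fh e B ((1 - l) * ξ)‖ * (1 / (4 * (n : ℝ)))) ^ 2 := by gcongr
        _ = 1 / (16 * (n : ℝ) ^ 2) * ‖fh e B ((1 - l) * ξ)‖ ^ 2 := by
          field_simp
          ring
        _ ≤ _ := le_add_of_nonneg_right (by positivity)
  have up := low.trans (sum_le_sum fun ξ _ => pt ξ)
  rw [sum_add_distrib, ← mul_sum, ← mul_sum, parseval_mul he B hl] at up
  have re : ∑ ξ : F, (if (1 - l) * ξ ∈ perp e K' \ perp e K then ‖fh e B ((1 - l) * ξ)‖ ^ 2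
      else 0) = en e K' B - en e K B := by
    have r1 := Equiv.sum_comp (Equiv.mulLeft₀ (1 - l) hl)
      fun η => if η ∈ perp e K' \ perp e K then ‖fh e B η‖ ^ 2 else 0
    rw [Fintype.sum_ite_mem] at r1
    rw [en, en, ← sum_sdiff hsub, add_sub_cancel_right, ← r1]
    rfl
  rw [re] at up
  have hBq : (B.card : ℝ) ≤ Fintype.card F := by exact_mod_cast card_le_univ B
  have hq : (0 : ℝ) < Fintype.card F := by exact_mod_cast hq0
  generalize (Fintype.card F : ℝ) = q at *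
  have b1 : 1 / (16 * (n : ℝ) ^ 2) * (q * B.card) ≤ 1 / (16 * (n : ℝ) ^ 2) * (q * q) := by gcongr
  obtain ⟨w, hw⟩ : ∃ w, w = q ^ 2 / (n : ℝ) ^ 2 := ⟨_, rfl⟩
  have w0 : 0 ≤ w := by rw [hw]; positivity
  have w1 : q ^ 2 / (4 * (n : ℝ) ^ 2) = w / 4 := by rw [hw]; field_simp
  have w2 : q ^ 2 / (32 * (n : ℝ) ^ 2) = w / 32 := by rw [hw]; field_simp
  have w3 : 1 / (16 * (n : ℝ) ^ 2) * (q * q) = w / 16 := by rw [hw]; field_simp
  linarith

end Pool.Agent.P.MP_862e21_al
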