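import Pool.Agent.P.MP_862e21_al.Span2

namespace Pool.Agent.P.MP_862e21_al

open Finset Pointwise

variable {F : Type*} [Field F] [DecidableEq F]

variable [Fintype F]

theorem long2_mono (ν : F → ℕ) {m m' : ℕ} (h : m ≤ m') : (lev ν m).card ≤ (lev ν m').card :=
  card_le_card fun _ hx => mem_lev.2 ((mem_lev.1 hx).trans h)

theorem filt2 (h2 : (2 : F) = 0) (hI : Irr F) {t : F} (ht0 : t ≠ 0) (ht1 : t ≠ 1)
    {ν : F → ℕ} (zero : ν 0 = 0) (add : ∀ h k, ν (h + k) ≤ ν h + ν k)
    (mul : ∀ h, ν (t * h) ≤ ν h + 1) {J z : ℕ} (hz : 2 ≤ z) (one : z ≤ (lev ν 1).card)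
    (hJ : 350 ^ 15 ≤ J) (hup : (lev ν J).card ≤ 44 * J * z)
    (hq : (lev ν J).card < Fintype.card F) : False := by
  have step : ∀ a m, 1 ≤ a → 1 ≤ m → a * (m * z) ≤ (lev ν m).card → 350 * m ≤ J →
      ∃ m', m < m' ∧ m' ≤ 350 * m ∧ 2 * a * (m' * z) ≤ (lev ν m').card := by
    intro a m ha hm h1 h3
    have h4 : 2 ≤ (lev ν m).card :=
      le_trans (hz.trans ((Nat.le_mul_of_pos_left _ hm).trans (Nat.le_mul_of_pos_left _ ha))) h1
    rcases grow2 h2 hI ht0 ht1 zero add mul hm h4 ((long2_mono ν h3).trans_lt hq) with h5 | h5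
    · refine ⟨4 * m, by omega, by omega, le_trans ?_ h5⟩
      calc 2 * a * (4 * m * z) = 8 * (a * (m * z)) := by ring
        _ ≤ _ := Nat.mul_le_mul_left _ h1
    · refine ⟨350 * m, by omega, le_rfl, le_trans ?_ h5⟩
      calc 2 * a * (350 * m * z) = 700 * (a * (m * z)) := by ring
        _ ≤ _ := Nat.mul_le_mul_left _ h1
  have ind : ∀ i ≤ 14, ∃ m, 1 ≤ m ∧ m ≤ 350 ^ i ∧ 2 ^ i * (m * z) ≤ (lev ν m).card := by
    intro i hi
    induction i with
    | zero => exact ⟨1, le_rfl, le_rfl, by simpa using one⟩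
    | succ i ih =>
      obtain ⟨m, a1, a2, a3⟩ := ih (by omega)
      have a4 : 350 * m ≤ 350 ^ (i + 1) := by rw [pow_succ]; omega
      obtain ⟨m', b1, b2, b3⟩ := step _ m Nat.one_le_two_pow a1 a3
        (a4.trans ((Nat.pow_le_pow_right (by norm_num) (by omega)).trans hJ))
      exact ⟨m', by omega, b2.trans a4, by rwa [pow_succ']⟩
  obtain ⟨m0, a1, a2, a3⟩ := ind 14 le_rfl
  have a4 : m0 ≤ J := a2.trans ((Nat.pow_le_pow_right (by norm_num) (by norm_num)).trans hJ)
  obtain ⟨m, hm, hmax⟩ := exists_max_image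
    ((range (J + 1)).filter fun m => 1 ≤ m ∧ 2 ^ 14 * (m * z) ≤ (lev ν m).card) id
    ⟨m0, mem_filter.2 ⟨mem_range.2 (by omega), a1, a3⟩⟩
  obtain ⟨b1, b2, b3⟩ := mem_filter.1 hm
  rw [mem_range] at b1
  by_cases hc : 350 * m ≤ J
  · obtain ⟨m', c1, c2, c3⟩ := step _ m Nat.one_le_two_pow b2 b3 hc
    have := hmax m' (mem_filter.2 ⟨mem_range.2 (by omega), by omega, by omega⟩)
    exact absurd c1 (not_lt.2 this)
  · have c1 := long2_mono ν (show m ≤ J by omega)
    have c2 : 44 * J * z ≤ 44 * (350 * m) * z :=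
      Nat.mul_le_mul_right _ (Nat.mul_le_mul_left _ (by omega))
    have c3 : 44 * (350 * m) * z = 15400 * (m * z) := by ring
    have c4 : 0 < m * z := Nat.mul_pos b2 (by omega)
    omega

theorem longC2 (h2 : (2 : F) = 0) (hI : Irr F) {l : F} {B C D : Finset F} {u : ℕ}
    (h : Trio l B C D) (hb : 2 ≤ B.card)
    (hu : Fintype.card F = B.card + C.card + D.card + u) (hcd : C.card ≤ D.card)
    (hub : u ≤ B.card) (hL : 16 * 350 ^ 15 * B.card ≤ C.card) : False := by
  obtain ⟨N, hN⟩ : ∃ N, N = 350 ^ 15 := ⟨_, rfl⟩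
  have hN1 : 1 ≤ N := hN ▸ Nat.one_le_pow _ _ (by norm_num)
  rw [← hN] at hL
  obtain ⟨r, hr⟩ : ∃ r, r = 4 * B.card := ⟨_, rfl⟩
  obtain ⟨ν, hν⟩ : ∃ ν : F → ℕ, ∀ x m, ν x ≤ m ↔ psi C x ≤ r * m := by
    refine ⟨fun x => (psi C x + (r - 1)) / r, fun x m => ?_⟩
    rw [Nat.div_le_iff_le_mul_add_pred (by omega)]
    omega
  have hν' : ∀ x, psi C x ≤ r * ν x := fun x => (hν x _).1 le_rfl
  obtain ⟨y, hy⟩ : B.Nonempty := card_pos.1 (by omega)
  have hE : ((C ∪ D)ᶜ).card ≤ 2 * B.card := by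
    rw [card_compl, card_union_of_disjoint h.dCD]
    omega
  have hmap : ∀ z ∈ C, l * z + (1 - l) * y ∈ C ∪ (C ∪ D)ᶜ := by
    intro z hz
    have h1 := h.sc l (self_mem_Lam l) y hy z hz
    rw [add_comm] at h1
    by_cases h3 : l * z + (1 - l) * y ∈ C
    · exact mem_union_left _ h3
    · exact mem_union_right _ (mem_compl.2 fun h4 => (mem_union.1 h4).elim h3 h1)
  obtain ⟨J, hJ⟩ : ∃ J, J = C.card / (16 * B.card) := ⟨_, rfl⟩
  have j1 : N ≤ J := by
    rw [hJ, Nat.le_div_iff_mul_le (by omega)]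
    calc N * (16 * B.card) = 16 * N * B.card := by ring
      _ ≤ _ := hL
  have j2 : 16 * (B.card * J) ≤ C.card := by
    rw [hJ, ← mul_assoc]
    exact Nat.mul_div_le _ _
  have j3 : C.card < 16 * (B.card * J) + 16 * B.card := by
    have := Nat.lt_mul_div_succ C.card (show 0 < 16 * B.card by omega)
    rwa [← hJ, mul_add, mul_one, mul_assoc] at this
  have j4 : B.card ≤ B.card * J := Nat.le_mul_of_pos_right _ (by omega)
  have hC : C.Nonempty := card_pos.1 (by omega)
  have j5 : 3 * (lev ν J).card ≤ 4 * C.card := by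
    refine le_trans (Nat.mul_le_mul_left _ (card_le_card fun x hx => ?_)) (sym_card hC)
    have h1 := (hν x J).1 (mem_lev.1 hx)
    rw [hr, mul_assoc] at h1
    exact mem_filter.2 ⟨mem_univ _, by omega⟩
  have hl : (1 - l) / l ≠ 0 := div_ne_zero (sub_ne_zero.2 h.l1.symm) h.l0
  refine filt2 h2 hI h.l0 h.l1 (ν := ν) (J := J) (z := B.card) ?_ ?_ ?_ hb ?_ (hN ▸ j1) ?_
    (by omega)
  · exact Nat.le_zero.1 ((hν 0 0).2 (by rw [psi_zero]; exact Nat.zero_le _))
  · intro a b
    rw [hν, mul_add]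
    exact (psi_add C a b).trans (add_le_add (hν' a) (hν' b))
  · intro a
    have h1 := psi_affine h.l0 hmap a
    have h3 := hν' a
    rw [hν, mul_add]
    omega
  · refine card_le_card_of_injOn (fun b => (1 - l) / l * b - (1 - l) / l * y)
      (fun b hb' => mem_coe.2 (mem_lev.2 ((hν _ 1).2 ?_))) fun a _ b _ e => ?_
    · have h1 := psi_sum (C := C) (smul_mem_smul_finset (a := (1 - l) / l) (mem_coe.1 hb'))
        (smul_mem_smul_finset (a := (1 - l) / l) hy)
      have h3 := h.comb_le hu (self_mem_Lam l)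
      rw [card_comb h.l0] at h3
      simp only [smul_eq_mul] at h1
      show psi C ((1 - l) / l * b - (1 - l) / l * y) ≤ r * 1
      omega
    · exact mul_left_cancel₀ hl (sub_left_inj.1 e)
  · rw [mul_assoc, mul_comm J]
    omega

theorem two_eq_zero {p : ℕ} (hq : Fintype.card F = 2 ^ p) : (2 : F) = 0 := by
  have h := FiniteField.cast_card_eq_zero F
  rw [hq] at h
  push_cast at h
  exact eq_zero_of_pow_eq_zero h

theorem irr2 {p : ℕ} (hp : p.Prime) (hq : Fintype.card F = 2 ^ p) : Irr F := by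
  classical
  intro H t t0 t1 ht
  let S : Subring F :=
    { carrier := {r | ∀ h ∈ H, r * h ∈ H}
      mul_mem' := fun {a b} ha hb h hh => by
        rw [mul_assoc]
        exact ha _ (hb h hh)
      one_mem' := fun h hh => by rwa [one_mul]
      add_mem' := fun {a b} ha hb h hh => by
        rw [add_mul]
        exact H.add_mem (ha h hh) (hb h hh)
      zero_mem' := fun h _ => by
        rw [zero_mul]
        exact H.zero_mem
      neg_mem' := fun {a} ha h hh => by
        rw [neg_mul]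
        exact H.neg_mem (ha h hh) }
  let K : Subfield F :=
    { S with
      inv_mem' := fun x hx => by
        by_cases h0 : x = 0
        · rw [h0, inv_zero]
          exact S.zero_mem
        · have h1 := FiniteField.pow_card_sub_one_eq_one x h0
          have h3 : 1 < Fintype.card F := Fintype.one_lt_card
          have h4 : x⁻¹ = x ^ (Fintype.card F - 2) := by
            refine (eq_inv_of_mul_eq_one_left ?_).symm
            rw [← pow_succ, ← h1]
            congr 1
            omega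
          rw [h4]
          exact S.pow_mem hx _ }
  have hK : ∀ r, r ∈ K ↔ ∀ h ∈ H, r * h ∈ H := fun _ => Iff.rfl
  have h1 := Module.card_eq_pow_finrank (K := K) (V := F)
  have h3 : 0 < Module.finrank K F := Module.finrank_pos
  have h4 : 2 < Fintype.card K := Fintype.two_lt_card_iff.2
    ⟨0, 1, ⟨t, (hK t).2 ht⟩, zero_ne_one, fun e => t0 (congrArg Subtype.val e).symm,
      fun e => t1 (congrArg Subtype.val e).symm⟩
  obtain ⟨j, -, hj⟩ := (Nat.dvd_prime_pow Nat.prime_two).1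
    (show Fintype.card K ∣ 2 ^ p by rw [← hq, h1]; exact dvd_pow_self _ h3.ne')
  rw [hq, hj, ← pow_mul] at h1
  have h5 : p = j * Module.finrank K F := Nat.pow_right_injective le_rfl h1
  have h6 : j = p := by
    refine (hp.eq_one_or_self_of_dvd j ⟨_, h5⟩).resolve_left fun e => ?_
    rw [hj, e] at h4
    omega
  have h7 : ∀ r, r ∈ K := by
    have h8 : Function.Bijective (Subtype.val : K → F) :=
      (Fintype.bijective_iff_injective_and_card _).2 ⟨Subtype.val_injective, by rw [hj, h6, hq]⟩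
    intro r
    obtain ⟨x, rfl⟩ := h8.2 r
    exact x.2
  refine or_iff_not_imp_left.2 fun hb => ?_
  obtain ⟨⟨x, hx⟩, h0⟩ := (AddSubgroup.ne_bot_iff_exists_ne_zero).1 hb
  have h0' : x ≠ 0 := fun e => h0 (Subtype.ext e)
  refine (AddSubgroup.eq_top_iff' H).2 fun y => ?_
  have := (hK _).1 (h7 (y / x)) x hx
  rwa [div_mul_cancel₀ y h0'] at this

theorem big2 (h2 : (2 : F) = 0) (hI : Irr F) {t : F} (ht0 : t ≠ 0) (ht1 : t ≠ 1) {m : ℕ}
    (hm : 1 ≤ m) (ht : t ^ m = 1) : Fintype.card F ≤ 2 ^ m := by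
  have : CharP F 2 := CharTwo.of_one_ne_zero_of_two_eq_zero one_ne_zero h2
  let _ : Algebra (ZMod 2) F := ZMod.algebra F 2
  obtain ⟨V, hV⟩ : ∃ V, V = Submodule.span (ZMod 2) (Set.range fun i : Fin m => t ^ (i : ℕ)) :=
    ⟨_, rfl⟩
  have h1 : (1 : F) ∈ V := hV ▸ Submodule.subset_span ⟨⟨0, hm⟩, pow_zero t⟩
  have h3 : ∀ x ∈ V, t * x ∈ V := by
    intro x hx
    rw [hV] at hx
    induction hx using Submodule.span_induction with
    | mem x hx =>
      obtain ⟨i, rfl⟩ := hx
      by_cases hi : (i : ℕ) + 1 < m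
      · exact hV ▸ Submodule.subset_span ⟨⟨i + 1, hi⟩, pow_succ' t i⟩
      · have e : (i : ℕ) + 1 = m := by have := i.2; omega
        show t * t ^ (i : ℕ) ∈ V
        rwa [← pow_succ', e, ht]
    | zero => rw [mul_zero]; exact V.zero_mem
    | add x y _ _ hx hy => rw [mul_add]; exact V.add_mem hx hy
    | smul a x _ hx => rw [mul_smul_comm]; exact V.smul_mem a hx
  rcases hI V.toAddSubgroup t ht0 ht1 h3 with e | e
  · exact absurd (AddSubgroup.mem_bot.1 (e ▸ (show (1 : F) ∈ V.toAddSubgroup from h1))) one_ne_zero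
  · have h4 : V = ⊤ := Submodule.toAddSubgroup_eq_top.1 e
    have h5 := finrank_le_of_span_eq_top (hV ▸ h4)
    rw [Module.card_eq_pow_finrank (K := ZMod 2) (V := F), ZMod.card]
    exact Nat.pow_le_pow_right (by norm_num) (by simpa using h5)

end Pool.Agent.P.MP_862e21_al
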