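import Pool.Agent.P.MP_862e21_al.Four
import Pool.Agent.P.MP_862e21_al.Long2

namespace Pool.Agent.P.MP_862e21_al

open Finset Pointwise

variable {F : Type*} [Field F] [DecidableEq F]

theorem fh_near [Fintype F] (e : AddChar F ℂ) {B : Finset F} {t κ : F} (ht : t ≠ 0) (ξ : F) :
    ‖fh e B ξ‖ ≤ ‖fh e B (t * ξ)‖ + 2 * ((B.filter (fun y => t * y + κ ∉ B)).card : ℝ) := by
  have inj : Function.Injective (fun z : F => t * z + κ) := by
    intro a b h
    simpa [ht] using h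
  set G := B.image (fun z : F => t * z + κ) with hG
  have cG : G.card = B.card := card_image_of_injective _ inj
  have e1 : (G \ B).card ≤ (B.filter (fun y => t * y + κ ∉ B)).card := by
    refine le_trans (card_le_card ?_) (card_image_le (f := fun z : F => t * z + κ))
    intro w hw
    obtain ⟨hw1, hw2⟩ := mem_sdiff.mp hw
    obtain ⟨z, hz, rfl⟩ := mem_image.mp hw1
    exact mem_image.mpr ⟨z, mem_filter.mpr ⟨hz, hw2⟩, rfl⟩
  have e2 : (B \ G).card ≤ (B.filter (fun y => t * y + κ ∉ B)).card := by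
    have a1 := card_sdiff_add_card_inter B G
    have a2 := card_sdiff_add_card_inter G B
    rw [inter_comm] at a2
    omega
  have e3 : fh e G ξ = e (ξ * κ) * fh e B (t * ξ) := by
    unfold fh
    rw [hG, sum_image (fun a _ b _ h => inj h), mul_sum]
    refine sum_congr rfl fun y _ => ?_
    rw [← AddChar.map_add_eq_mul]
    congr 1
    ring
  have e4 : ‖fh e G ξ‖ = ‖fh e B (t * ξ)‖ := by
    rw [e3, norm_mul, norm_char, one_mul]
  have e5 : fh e B ξ = fh e G ξ - fh e (G \ B) ξ + fh e (B \ G) ξ := by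
    unfold fh
    have a1 := sum_sdiff (f := fun y => e (ξ * y)) (inter_subset_left (s₁ := B) (s₂ := G))
    have a2 := sum_sdiff (f := fun y => e (ξ * y)) (inter_subset_right (s₁ := B) (s₂ := G))
    rw [sdiff_inter_self_left] at a1
    rw [sdiff_inter_self_right] at a2
    rw [← a1, ← a2]
    ring
  have e6 := norm_fh_le e (G \ B) ξ
  have e7 := norm_fh_le e (B \ G) ξ
  have e8 := norm_add_le (fh e G ξ - fh e (G \ B) ξ) (fh e (B \ G) ξ)
  have e9 := norm_sub_le (fh e G ξ) (fh e (G \ B) ξ)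
  have e1' : ((G \ B).card : ℝ) ≤ (B.filter (fun y => t * y + κ ∉ B)).card := by exact_mod_cast e1
  have e2' : ((B \ G).card : ℝ) ≤ (B.filter (fun y => t * y + κ ∉ B)).card := by exact_mod_cast e2
  rw [← e5] at e8
  linarith

theorem invar_iter [Fintype F] (e : AddChar F ℂ) {B : Finset F} {t κ : F} (ht : t ≠ 0) (ξ : F)
    (k : ℕ) : ‖fh e B ξ‖ ≤ ‖fh e B (t ^ k * ξ)‖ +
      2 * k * ((B.filter (fun y => t * y + κ ∉ B)).card : ℝ) := by
  induction k with
  | zero => simp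
  | succ k ih =>
    have h1 := fh_near e (B := B) (κ := κ) ht (t ^ k * ξ)
    have h2 : t * (t ^ k * ξ) = t ^ (k + 1) * ξ := by ring
    rw [h2] at h1
    push_cast
    linarith

theorem invar2 (N : ℕ) : ∃ n q0 : ℕ, 1 ≤ n ∧ ∀ (F : Type) [Field F] [Fintype F] [DecidableEq F],
    (2 : F) = 0 → Irr F → q0 ≤ Fintype.card F → ∀ (l : F) (B C D : Finset F), Trio l B C D →
      Fintype.card F ≤ N * B.card → Fintype.card F ≤ N * C.card → Fintype.card F ≤ N * D.card →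
      ∀ z : F, Fintype.card F ≤ n * (B.filter (fun y => (1 - l) * y + l * z ∉ B)).card := by
  refine ⟨4 * (4 * N ^ 4 + 1) * N ^ 2 + 1, 2 ^ (4 * N ^ 4 + 1) + 1, by omega, ?_⟩
  intro F _ _ _ h2 hI hq l B C D h hB hC hD z
  by_contra hcon
  rw [not_le] at hcon
  set n1 := 4 * N ^ 4 + 1 with hn1
  set cnt := (B.filter (fun y => (1 - l) * y + l * z ∉ B)).card with hcnt
  have qpos : 0 < Fintype.card F := Fintype.card_pos
  have nC : C.Nonempty := by
    rw [← card_pos]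
    rcases Nat.eq_zero_or_pos C.card with h0 | h0
    · rw [h0] at hC; omega
    · exact h0
  have nD : D.Nonempty := by
    rw [← card_pos]
    rcases Nat.eq_zero_or_pos D.card with h0 | h0
    · rw [h0] at hD; omega
    · exact h0
  obtain ⟨e, he⟩ := exists_char (F := F)
  obtain ⟨ξ, hξ, hbig⟩ := bigCoeff he h nC nD
  have ht0 : (1 - l) ≠ 0 := sub_ne_zero.mpr h.l1.symm
  have ht1 : (1 - l) ≠ 1 := fun e0 => h.l0 (by linear_combination -e0)
  set q : ℝ := (Fintype.card F : ℝ) with hqdef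
  have qp : 0 < q := by rw [hqdef]; exact_mod_cast qpos
  have rB : q ≤ (N : ℝ) * B.card := by rw [hqdef]; exact_mod_cast hB
  have rC : q ≤ (N : ℝ) * C.card := by rw [hqdef]; exact_mod_cast hC
  have rD : q ≤ (N : ℝ) * D.card := by rw [hqdef]; exact_mod_cast hD
  have rb : (B.card : ℝ) ≤ q := by rw [hqdef]; exact_mod_cast card_le_univ B
  have rcnt : 4 * (n1 : ℝ) * (N : ℝ) ^ 2 * cnt ≤ q := by
    have : 4 * n1 * N ^ 2 * cnt ≤ Fintype.card F := by
      have : 4 * n1 * N ^ 2 * cnt ≤ (4 * n1 * N ^ 2 + 1) * cnt :=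
        Nat.mul_le_mul_right _ (Nat.le_succ _)
      omega
    rw [hqdef]; exact_mod_cast this
  have hN0 : (0 : ℝ) ≤ (N : ℝ) ^ 2 := by positivity
  have a1 : q ≤ (N : ℝ) ^ 2 * ‖fh e B ξ‖ := by
    have b1 : q * q ≤ ((N : ℝ) * B.card) * ((N : ℝ) * B.card) :=
      mul_le_mul rB rB qp.le (le_trans qp.le rB)
    have b2 : q * q ≤ ((N : ℝ) * C.card) * ((N : ℝ) * D.card) :=
      mul_le_mul rC rD qp.le (le_trans qp.le rC)
    have b3 : (q * q) * (q * q) ≤ (((N : ℝ) * B.card) * ((N : ℝ) * B.card)) *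
        (((N : ℝ) * C.card) * ((N : ℝ) * D.card)) :=
      mul_le_mul b1 b2 (by positivity) (by positivity)
    have b4 : (N : ℝ) ^ 4 * ((B.card : ℝ) ^ 2 * C.card * D.card) ≤
        (N : ℝ) ^ 4 * (q ^ 2 * ‖fh e B ξ‖ ^ 2) :=
      mul_le_mul_of_nonneg_left hbig (by positivity)
    have b5 : q ^ 2 * q ^ 2 ≤ q ^ 2 * ((N : ℝ) ^ 2 * ‖fh e B ξ‖) ^ 2 := by
      calc q ^ 2 * q ^ 2 = (q * q) * (q * q) := by ring
        _ ≤ _ := b3
        _ = (N : ℝ) ^ 4 * ((B.card : ℝ) ^ 2 * C.card * D.card) := by ring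
        _ ≤ _ := b4
        _ = _ := by ring
    have b6 : q ^ 2 ≤ ((N : ℝ) ^ 2 * ‖fh e B ξ‖) ^ 2 :=
      le_of_mul_le_mul_left b5 (by positivity)
    exact le_of_sq_le_sq b6 (by positivity)
  have a2 : ∀ k ∈ range n1, q ^ 2 ≤ 4 * (N : ℝ) ^ 4 * ‖fh e B ((1 - l) ^ k * ξ)‖ ^ 2 := by
    intro k hk
    have b1 := invar_iter e (B := B) (κ := l * z) ht0 ξ k
    rw [← hcnt] at b1
    have b2 : (k : ℝ) ≤ n1 := by exact_mod_cast (mem_range.mp hk).le
    have b3 : (N : ℝ) ^ 2 * ‖fh e B ξ‖ ≤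
        (N : ℝ) ^ 2 * (‖fh e B ((1 - l) ^ k * ξ)‖ + 2 * k * cnt) :=
      mul_le_mul_of_nonneg_left b1 hN0
    have b4 : (k : ℝ) * ((N : ℝ) ^ 2 * cnt) ≤ n1 * ((N : ℝ) ^ 2 * cnt) :=
      mul_le_mul_of_nonneg_right b2 (by positivity)
    have b5 : q ≤ 2 * ((N : ℝ) ^ 2 * ‖fh e B ((1 - l) ^ k * ξ)‖) := by nlinarith
    calc q ^ 2 ≤ (2 * ((N : ℝ) ^ 2 * ‖fh e B ((1 - l) ^ k * ξ)‖)) ^ 2 :=
          pow_le_pow_left₀ qp.le b5 2
      _ = _ := by ring
  have key : ∀ i j : ℕ, i < j → j < n1 → (1 - l) ^ i * ξ ≠ (1 - l) ^ j * ξ := by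
    intro i j hij hj e0
    have b1 : (1 - l) ^ i = (1 - l) ^ j := mul_right_cancel₀ hξ e0
    have b2 : (1 - l) ^ (j - i) = 1 := by
      have b3 : (1 - l) ^ i * (1 - l) ^ (j - i) = (1 - l) ^ i * 1 := by
        rw [← pow_add, mul_one, b1]
        congr 1
        omega
      exact mul_left_cancel₀ (pow_ne_zero _ ht0) b3
    have b4 := big2 h2 hI ht0 ht1 (m := j - i) (by omega) b2
    have b5 : 2 ^ (j - i) ≤ 2 ^ n1 := Nat.pow_le_pow_right (by norm_num) (by omega)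
    omega
  have a3 : Set.InjOn (fun k : ℕ => (1 - l) ^ k * ξ) (range n1 : Finset ℕ) := by
    intro i hi j hj e0
    have hi' : i < n1 := mem_range.mp (mem_coe.mp hi)
    have hj' : j < n1 := mem_range.mp (mem_coe.mp hj)
    rcases lt_trichotomy i j with h0 | h0 | h0
    · exact absurd e0 (key i j h0 hj')
    · exact h0
    · exact absurd e0.symm (key j i h0 hi')
  have a4 : ∑ k ∈ range n1, ‖fh e B ((1 - l) ^ k * ξ)‖ ^ 2 ≤ q * B.card := by
    rw [← parseval he B]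
    rw [← sum_image (f := fun η => ‖fh e B η‖ ^ 2) a3]
    exact sum_le_sum_of_subset_of_nonneg (subset_univ _) fun _ _ _ => by positivity
  have a5 : (n1 : ℝ) * q ^ 2 ≤ 4 * (N : ℝ) ^ 4 * (q * B.card) := by
    have b1 := sum_le_sum a2
    rw [sum_const, card_range, nsmul_eq_mul, ← mul_sum] at b1
    exact le_trans b1 (mul_le_mul_of_nonneg_left a4 (by positivity))
  have a6 : (n1 : ℝ) = 4 * (N : ℝ) ^ 4 + 1 := by rw [hn1]; push_cast; ring
  have a7 : 4 * (N : ℝ) ^ 4 * (q * B.card) ≤ 4 * (N : ℝ) ^ 4 * (q * q) :=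
    mul_le_mul_of_nonneg_left (mul_le_mul_of_nonneg_left rb qp.le) (by positivity)
  rw [a6] at a5
  nlinarith [pow_pos qp 2]

omit [DecidableEq F] in
theorem cut_one [Fintype F] (h2 : (2 : F) = 0) (e : AddChar F ℂ) (K : AddSubgroup F) (ξ : F) :
    ∃ K' : AddSubgroup F, K' ≤ K ∧ Nat.card K ≤ 2 * Nat.card K' ∧
      ∀ h ∈ K', e (ξ * h) = 1 := by
  classical
  let K' : AddSubgroup F :=
    { carrier := {h | h ∈ K ∧ e (ξ * h) = 1}
      zero_mem' := ⟨K.zero_mem, by simp⟩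
      add_mem' := fun {a b} ha hb =>
        ⟨K.add_mem ha.1 hb.1, by rw [mul_add, AddChar.map_add_eq_mul, ha.2, hb.2, mul_one]⟩
      neg_mem' := fun {a} ha =>
        ⟨K.neg_mem ha.1, by rw [mul_neg, AddChar.map_neg_eq_inv, ha.2, inv_one]⟩ }
  have mem : ∀ h, h ∈ K' ↔ h ∈ K ∧ e (ξ * h) = 1 := fun h => Iff.rfl
  refine ⟨K', fun h hh => ((mem h).1 hh).1, ?_, fun h hh => ((mem h).1 hh).2⟩
  have c1 : ∀ H : AddSubgroup F, Nat.card H = (univ.filter (fun h => h ∈ H)).card := by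
    intro H
    rw [Nat.card_eq_fintype_card, Fintype.card_subtype]
  have sq : ∀ v : F, e v ≠ 1 → e v = -1 := by
    intro v hv
    have b1 : e v * e v = 1 := by
      rw [← AddChar.map_add_eq_mul, ← two_mul, h2, zero_mul, AddChar.map_zero_eq_one]
    exact (mul_self_eq_one_iff.mp b1).resolve_left hv
  rw [c1, c1]
  set A := univ.filter (fun h => h ∈ K) with hA
  set A' := univ.filter (fun h => h ∈ K') with hA'
  have sub : A' ⊆ A := by
    intro h hh
    exact mem_filter.mpr ⟨mem_univ _, ((mem h).1 (mem_filter.mp hh).2).1⟩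
  have c2 : (A \ A').card ≤ A'.card := by
    rcases (A \ A').eq_empty_or_nonempty with h0 | ⟨h0, hh0⟩
    · rw [h0]; simp
    · have ne : ∀ h ∈ A \ A', h ∈ K ∧ e (ξ * h) = -1 := by
        intro h hh
        obtain ⟨b1, b2⟩ := mem_sdiff.mp hh
        have b3 := (mem_filter.mp b1).2
        exact ⟨b3, sq _ fun b4 => b2 (mem_filter.mpr ⟨mem_univ _, (mem h).2 ⟨b3, b4⟩⟩)⟩
      refine card_le_card_of_injOn (fun h => h + h0) ?_ ?_
      · intro h hh
        have b1 := ne h (mem_coe.mp hh)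
        have b2 := ne h0 hh0
        refine mem_coe.mpr (mem_filter.mpr ⟨mem_univ _, (mem _).2 ⟨K.add_mem b1.1 b2.1, ?_⟩⟩)
        rw [mul_add, AddChar.map_add_eq_mul, b1.2, b2.2]
        norm_num
      · intro a _ b _ hab
        exact add_right_cancel hab
  have c3 := card_sdiff_add_card_eq_card sub
  omega

omit [DecidableEq F] in
theorem invar_mem_perp [Fintype F] {e : AddChar F ℂ} {K : AddSubgroup F} {ξ : F} :
    ξ ∈ perp e K ↔ ∀ h ∈ K, e (ξ * h) = 1 := by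
  simp [perp]

theorem cut2 [Fintype F] (h2 : (2 : F) = 0) (e : AddChar F ℂ) (K : AddSubgroup F)
    (S : Finset F) : ∃ K' : AddSubgroup F, K' ≤ K ∧ Nat.card K ≤ 2 ^ S.card * Nat.card K' ∧
      S ⊆ perp e K' := by
  induction S using Finset.induction_on with
  | empty => exact ⟨K, le_rfl, by simp, empty_subset _⟩
  | insert ξ S hξ ih =>
    obtain ⟨K1, a1, a2, a3⟩ := ih
    obtain ⟨K2, b1, b2, b3⟩ := cut_one h2 e K1 ξ
    refine ⟨K2, le_trans b1 a1, ?_, ?_⟩
    · rw [card_insert_of_notMem hξ, pow_succ, mul_assoc]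
      exact le_trans a2 (Nat.mul_le_mul_left _ b2)
    · intro η hη
      refine invar_mem_perp.mpr fun h hh => ?_
      rcases mem_insert.mp hη with h0 | h0
      · rw [h0]; exact b3 h hh
      · exact invar_mem_perp.mp (a3 h0) h (b1 hh)

end Pool.Agent.P.MP_862e21_al
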