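import Pool.Agent.P.MP_862e21_al.Four

namespace Pool.Agent.P.MP_862e21_al

open Finset Pointwise

variable {F : Type*} [Field F] [DecidableEq F]

variable [Fintype F]

theorem pars2 {ι : Type*} {e : AddChar F ℂ} (he : e.IsPrimitive) (P : Finset ι) (f g : ι → F) :
    ∑ a : F, ∑ b : F, ‖∑ p ∈ P, e (a * f p + b * g p)‖ ^ 2 = (Fintype.card F : ℝ) ^ 2 *
      ((P ×ˢ P).filter (fun z => f z.1 = f z.2 ∧ g z.1 = g z.2)).card := by
  have h1 : ∀ a b : F, ((‖∑ p ∈ P, e (a * f p + b * g p)‖ ^ 2 : ℝ) : ℂ) =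
      ∑ z ∈ P ×ˢ P, e (a * (f z.1 - f z.2)) * e (b * (g z.1 - g z.2)) := by
    intro a b
    push_cast
    rw [← Complex.mul_conj', map_sum, sum_mul_sum, sum_product]
    refine sum_congr rfl fun p _ => sum_congr rfl fun p' _ => ?_
    rw [conj_char, ← AddChar.map_add_eq_mul, ← AddChar.map_add_eq_mul]
    congr 1
    ring
  apply Complex.ofReal_injective
  rw [Complex.ofReal_sum]
  simp only [Complex.ofReal_sum, h1]
  have h2 : ∑ a : F, ∑ b : F, ∑ z ∈ P ×ˢ P, e (a * (f z.1 - f z.2)) * e (b * (g z.1 - g z.2)) =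
      ∑ z ∈ P ×ˢ P, (∑ a : F, e (a * (f z.1 - f z.2))) * ∑ b : F, e (b * (g z.1 - g z.2)) := by
    simp only [sum_mul_sum]
    rw [sum_comm (s := P ×ˢ P)]
    refine sum_congr rfl fun a _ => ?_
    rw [sum_comm]
  rw [h2]
  simp only [sum_char he]
  push_cast
  rw [card_filter]
  push_cast
  rw [mul_sum]
  refine sum_congr rfl fun z _ => ?_
  by_cases c1 : f z.1 = f z.2 <;> by_cases c2 : g z.1 = g z.2 <;>
    simp [c1, c2, sub_eq_zero, sq]

theorem kloo_count :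
    (((univ.erase (0 : F) ×ˢ univ.erase (0 : F)) ×ˢ
      (univ.erase (0 : F) ×ˢ univ.erase (0 : F))).filter (fun z => z.1.1 + z.1.2 = z.2.1 + z.2.2 ∧
        z.1.1⁻¹ + z.1.2⁻¹ = z.2.1⁻¹ + z.2.2⁻¹)).card ≤ 3 * (univ.erase (0 : F)).card ^ 2 := by
  set U := univ.erase (0 : F) with hU
  have hsub : ((U ×ˢ U) ×ˢ (U ×ˢ U)).filter (fun z => z.1.1 + z.1.2 = z.2.1 + z.2.2 ∧
        z.1.1⁻¹ + z.1.2⁻¹ = z.2.1⁻¹ + z.2.2⁻¹) ⊆
      ((U ×ˢ U).image (fun p => ((p.1, -p.1), (p.2, -p.2))) ∪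
        (U ×ˢ U).image (fun p => (p, p))) ∪ (U ×ˢ U).image (fun p => (p, (p.2, p.1))) := by
    rintro ⟨⟨w1, w2⟩, w3, w4⟩ hz
    simp only [mem_filter, mem_product] at hz
    obtain ⟨⟨⟨m1, m2⟩, m3, m4⟩, e1, e2⟩ := hz
    have n1 := (mem_erase.mp m1).1
    have n2 := (mem_erase.mp m2).1
    have n3 := (mem_erase.mp m3).1
    have n4 := (mem_erase.mp m4).1
    have e3 : (w1 + w2) * ((w3 - w1) * (w3 - w2)) = 0 := by
      have e4 : w4 = w1 + w2 - w3 := by linear_combination -e1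
      have e5 : (w1 + w2) * (w3 * w4) = (w3 + w4) * (w1 * w2) := by
        field_simp at e2
        linear_combination e2
      rw [← e1, e4] at e5
      linear_combination -e5
    simp only [mem_union, mem_image, mem_product, Prod.exists, Prod.mk.injEq]
    rcases mul_eq_zero.mp e3 with k | k
    · exact Or.inl (Or.inl ⟨w1, w3, ⟨m1, m3⟩, ⟨rfl, by linear_combination -k⟩, rfl,
        by linear_combination e1 - k⟩)
    · rcases mul_eq_zero.mp k with k | k
      · exact Or.inl (Or.inr ⟨w1, w2, ⟨m1, m2⟩, ⟨rfl, rfl⟩, by linear_combination -k,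
          by linear_combination e1 + k⟩)
      · exact Or.inr ⟨w1, w2, ⟨m1, m2⟩, ⟨rfl, rfl⟩, by linear_combination -k,
          by linear_combination e1 + k⟩
  refine (card_le_card hsub).trans ((card_union_le _ _).trans ?_)
  have a1 := card_union_le ((U ×ˢ U).image (fun p => ((p.1, -p.1), (p.2, -p.2))))
    ((U ×ˢ U).image (fun p => (p, p)))
  have a2 := card_image_le (s := U ×ˢ U) (f := fun p => ((p.1, -p.1), (p.2, -p.2)))
  have a3 := card_image_le (s := U ×ˢ U) (f := fun p => (p, p))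
  have a4 := card_image_le (s := U ×ˢ U) (f := fun p => (p, (p.2, p.1)))
  rw [card_product] at a2 a3 a4
  rw [sq]
  omega

theorem kloo_scale (e : AddChar F ℂ) {α β a : F} (hα : α ≠ 0) (ha : a ≠ 0) :
    ∑ w ∈ univ.erase (0 : F), e (a * w + (α * β * a⁻¹) * w⁻¹) =
      ∑ w ∈ univ.erase (0 : F), e (α * w + β * w⁻¹) := by
  refine sum_nbij' (fun w => a * α⁻¹ * w) (fun w => α * a⁻¹ * w) ?_ ?_ ?_ ?_ ?_
  · intro w hw
    have := (mem_erase.mp hw).1
    simp [this, ha, hα]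
  · intro w hw
    have := (mem_erase.mp hw).1
    simp [this, ha, hα]
  · intro w _
    field_simp
  · intro w _
    field_simp
  · intro w hw
    have := (mem_erase.mp hw).1
    congr 1
    field_simp

theorem kloo4 {e : AddChar F ℂ} (he : e.IsPrimitive) {α β : F} (hα : α ≠ 0) (hβ : β ≠ 0) :
    ‖∑ w ∈ univ.erase (0 : F), e (α * w + β * w⁻¹)‖ ^ 4 ≤ 3 * (Fintype.card F : ℝ) ^ 3 := by
  set U := univ.erase (0 : F) with hU
  have h1 := pars2 he (U ×ˢ U) (fun p => p.1 + p.2) (fun p => p.1⁻¹ + p.2⁻¹)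
  have h2 : ∀ a b : F, ‖∑ p ∈ U ×ˢ U, e (a * (p.1 + p.2) + b * (p.1⁻¹ + p.2⁻¹))‖ ^ 2 =
      ‖∑ w ∈ U, e (a * w + b * w⁻¹)‖ ^ 4 := by
    intro a b
    have : ∑ p ∈ U ×ˢ U, e (a * (p.1 + p.2) + b * (p.1⁻¹ + p.2⁻¹)) =
        (∑ w ∈ U, e (a * w + b * w⁻¹)) ^ 2 := by
      rw [sq, sum_mul_sum, sum_product]
      refine sum_congr rfl fun p _ => sum_congr rfl fun p' _ => ?_
      rw [← AddChar.map_add_eq_mul]
      congr 1
      ring
    rw [this, norm_pow]
    ring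
  simp only [h2] at h1
  have h3 : (U.card : ℝ) * ‖∑ w ∈ U, e (α * w + β * w⁻¹)‖ ^ 4 ≤
      ∑ a : F, ∑ b : F, ‖∑ w ∈ U, e (a * w + b * w⁻¹)‖ ^ 4 := by
    calc (U.card : ℝ) * ‖∑ w ∈ U, e (α * w + β * w⁻¹)‖ ^ 4
        = ∑ a ∈ U, ‖∑ w ∈ U, e (a * w + (α * β * a⁻¹) * w⁻¹)‖ ^ 4 := by
          rw [← nsmul_eq_mul, ← sum_const]
          refine sum_congr rfl fun a ha => ?_
          rw [hU, kloo_scale e hα (mem_erase.mp ha).1]
      _ ≤ ∑ a ∈ U, ∑ b : F, ‖∑ w ∈ U, e (a * w + b * w⁻¹)‖ ^ 4 := by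
          refine sum_le_sum fun a _ => ?_
          exact single_le_sum (f := fun b => ‖∑ w ∈ U, e (a * w + b * w⁻¹)‖ ^ 4)
            (fun b _ => by positivity) (mem_univ _)
      _ ≤ _ := sum_le_sum_of_subset_of_nonneg (subset_univ _)
          (fun a _ _ => sum_nonneg fun b _ => by positivity)
  have h4 : (_ : ℝ) ≤ _ := Nat.cast_le.mpr (kloo_count (F := F))
  push_cast at h4
  rw [h1] at h3
  have h5 : (0 : ℝ) < U.card := by
    have : U.Nonempty := ⟨1, by simp [hU]⟩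
    exact_mod_cast card_pos.mpr this
  have h6 : (U.card : ℝ) ≤ Fintype.card F := by exact_mod_cast card_le_univ U
  have h7 := h3.trans (mul_le_mul_of_nonneg_left h4 (by positivity))
  have h8 : ‖∑ w ∈ U, e (α * w + β * w⁻¹)‖ ^ 4 ≤ (Fintype.card F : ℝ) ^ 2 * (3 * U.card) := by
    refine le_of_mul_le_mul_left (h7.trans (le_of_eq ?_)) h5
    rw [hU]
    ring
  refine h8.trans ?_
  have : (0 : ℝ) ≤ (Fintype.card F : ℝ) ^ 2 := by positivity
  nlinarith

theorem chart_inner {e : AddChar F ℂ} (he : e.IsPrimitive) {x x' ξ ξ' : F} (hx : x ≠ x')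
    (hξ : ξ ≠ 0) (hξ' : ξ' ≠ 0) {κ : ℝ} (h0 : 0 ≤ κ) (hκ : 3 * (Fintype.card F : ℝ) ^ 3 ≤ κ ^ 4) :
    ‖∑ y : F, e (ξ * (y - x)⁻¹ - ξ' * (y - x')⁻¹)‖ ≤ κ + 3 := by
  have hk : x - x' ≠ 0 := sub_ne_zero.mpr hx
  have h1 := kloo4 he (div_ne_zero hξ hk) (div_ne_zero hξ' hk)
  have h2 : ‖∑ w ∈ univ.erase (0 : F), e (ξ / (x - x') * w + ξ' / (x - x') * w⁻¹)‖ ≤ κ :=
    le_of_pow_le_pow_left₀ (by norm_num) h0 (h1.trans hκ)
  have h3 : ∑ y ∈ (univ.erase x).erase x', e (ξ * (y - x)⁻¹ - ξ' * (y - x')⁻¹) =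
      ∑ w ∈ (univ.erase (0 : F)).erase 1, e (ξ / (x - x') * w + ξ' / (x - x') * w⁻¹) *
        e (-((ξ + ξ') / (x - x'))) := by
    refine sum_nbij' (fun y => (y - x') / (y - x)) (fun w => x + (x - x') / (w - 1)) ?_ ?_ ?_ ?_ ?_
    · intro y hy
      simp only [mem_erase, mem_univ, and_true] at hy ⊢
      have a1 : y - x ≠ 0 := sub_ne_zero.mpr hy.2
      have a2 : y - x' ≠ 0 := sub_ne_zero.mpr hy.1
      refine ⟨fun h => ?_, div_ne_zero a2 a1⟩
      rw [div_eq_one_iff_eq a1] at h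
      exact hk (by linear_combination h)
    · intro w hw
      simp only [mem_erase, mem_univ, and_true] at hw ⊢
      have a1 : w - 1 ≠ 0 := sub_ne_zero.mpr hw.1
      refine ⟨fun h => ?_, fun h => ?_⟩
      · have : (x - x') * w = 0 := by
          field_simp at h
          linear_combination h
        exact (mul_ne_zero hk hw.2) this
      · exact div_ne_zero hk a1 (by linear_combination h)
    · intro y hy
      simp only [mem_erase, mem_univ, and_true] at hy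
      have a1 : y - x ≠ 0 := sub_ne_zero.mpr hy.2
      have a3 : (y - x') / (y - x) - 1 = (x - x') / (y - x) := by field_simp; ring
      simp only [a3]
      field_simp
      ring
    · intro w hw
      simp only [mem_erase, mem_univ, and_true] at hw
      have a1 : w - 1 ≠ 0 := sub_ne_zero.mpr hw.1
      have a3 : x + (x - x') / (w - 1) - x = (x - x') / (w - 1) := by ring
      have a4 : x + (x - x') / (w - 1) - x' = (x - x') * w / (w - 1) := by field_simp; ring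
      simp only [a3, a4]
      field_simp
    · intro y hy
      simp only [mem_erase, mem_univ, and_true] at hy
      have a1 : y - x ≠ 0 := sub_ne_zero.mpr hy.2
      have a2 : y - x' ≠ 0 := sub_ne_zero.mpr hy.1
      rw [← AddChar.map_add_eq_mul]
      congr 1
      field_simp
      ring
  have m1 : x' ∈ univ.erase x := by simp [hx.symm]
  have m2 : (1 : F) ∈ univ.erase (0 : F) := by simp
  rw [← add_sum_erase _ _ (mem_univ x), ← add_sum_erase _ _ m1, h3, ← sum_mul]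
  rw [← add_sum_erase _ _ m2] at h2
  generalize ∑ w ∈ (univ.erase (0 : F)).erase 1, e (ξ / (x - x') * w + ξ' / (x - x') * w⁻¹) = S
    at h2 ⊢
  have b1 : ‖S‖ ≤ κ + 1 := by
    have := norm_sub_le (e (ξ / (x - x') * 1 + ξ' / (x - x') * 1⁻¹) + S)
      (e (ξ / (x - x') * 1 + ξ' / (x - x') * 1⁻¹))
    rw [add_sub_cancel_left, norm_char] at this
    linarith
  refine (norm_add_le _ _).trans ?_
  have b2 := norm_add_le (e (ξ * (x' - x)⁻¹ - ξ' * (x' - x')⁻¹)) (S * e (-((ξ + ξ') / (x - x'))))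
  rw [norm_mul, norm_char, norm_char] at b2
  rw [norm_char]
  linarith

end Pool.Agent.P.MP_862e21_al
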