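import Pool.Agent.P.MP_862e21_al.Basic

namespace Pool.Agent.P.MP_862e21_al

open Finset Pointwise

variable {F : Type*} [Field F] [DecidableEq F]

omit [DecidableEq F] in
theorem rect_char [Fintype F] (hp : (Fintype.card F).Prime) :
    ∃ (e : AddChar F ℂ) (v : F → ℤ), e.IsPrimitive ∧ (∀ h, (v h : F) = h) ∧
      (∀ h, 2 * |v h| ≤ (Fintype.card F : ℤ)) ∧
      ∀ h, (e h).re = Real.cos (2 * Real.pi * v h / Fintype.card F) := by
  obtain ⟨p, hpF⟩ : ∃ p, Fintype.card F = p := ⟨_, rfl⟩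
  rw [hpF] at hp ⊢
  have : NeZero p := ⟨hp.ne_zero⟩
  have : Fact (1 < p) := ⟨hp.one_lt⟩
  let iso : ZMod p ≃+* F := ZMod.ringEquivOfPrime F hp hpF
  refine ⟨(ZMod.stdAddChar (N := p)).compAddMonoidHom iso.symm.toAddMonoidHom,
    fun h => (iso.symm h).valMinAbs, ?_, fun h => ?_, fun h => ?_, fun h => ?_⟩
  · refine AddChar.IsPrimitive.of_ne_one (AddChar.ne_one_iff.2 ⟨1, fun h => ?_⟩)
    have h1 : ZMod.stdAddChar (N := p) (iso.symm 1) = 1 := h
    rw [map_one, ← (ZMod.stdAddChar (N := p)).map_zero_eq_one,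
      ZMod.injective_stdAddChar.eq_iff] at h1
    exact one_ne_zero h1
  · have h1 : (((iso.symm h).valMinAbs : ℤ) : ZMod p) = iso.symm h := ZMod.coe_valMinAbs _
    have h2 := congrArg iso h1
    rwa [map_intCast, RingEquiv.apply_symm_apply] at h2
  · have h1 := ZMod.natAbs_valMinAbs_le (iso.symm h)
    show 2 * |(iso.symm h).valMinAbs| ≤ (p : ℤ)
    rw [Int.abs_eq_natAbs]
    generalize (iso.symm h).valMinAbs.natAbs = k at h1 ⊢
    omega
  · have h1 : (((iso.symm h).valMinAbs : ℤ) : ZMod p) = iso.symm h := ZMod.coe_valMinAbs _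
    have h2 : ((ZMod.stdAddChar (N := p)).compAddMonoidHom iso.symm.toAddMonoidHom) h =
        ZMod.stdAddChar (N := p) (iso.symm h) := rfl
    have h3 := ZMod.stdAddChar_coe (N := p) (iso.symm h).valMinAbs
    rw [h1] at h3
    show _ = Real.cos (2 * Real.pi * ((iso.symm h).valMinAbs : ℤ) / p)
    rw [h2, h3, ← Complex.exp_ofReal_mul_I_re]
    congr 2
    push_cast
    ring

theorem rect_sum [Fintype F] {e : AddChar F ℂ} (he : e.IsPrimitive) (C : Finset F) (y : F) :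
    ∑ ξ : F, Complex.normSq (∑ x ∈ C, e (ξ * x)) * (e (ξ * y)).re =
      (Fintype.card F : ℝ) * ((C.card : ℝ) - psi C y) := by
  have h1 : ∀ ξ : F, ((Complex.normSq (∑ x ∈ C, e (ξ * x)) : ℝ) : ℂ) * e (ξ * y) =
      ∑ x ∈ C, ∑ x' ∈ C, e (ξ * (x + y - x')) := by
    intro ξ
    rw [← Complex.mul_conj, map_sum, sum_mul_sum, sum_mul]
    refine sum_congr rfl fun x _ => ?_
    rw [sum_mul]
    refine sum_congr rfl fun x' _ => ?_
    rw [← AddChar.map_neg_eq_conj, ← AddChar.map_add_eq_mul, ← AddChar.map_add_eq_mul]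
    congr 1
    ring
  have h2 : ∑ ξ : F, ((Complex.normSq (∑ x ∈ C, e (ξ * x)) : ℝ) : ℂ) * e (ξ * y) =
      (Fintype.card F : ℂ) * ((C.filter (fun x => x + y ∈ C)).card : ℂ) := by
    simp only [h1]
    rw [sum_comm]
    have h3 : ∀ x ∈ C, ∑ ξ : F, ∑ x' ∈ C, e (ξ * (x + y - x')) =
        if x + y ∈ C then (Fintype.card F : ℂ) else 0 := by
      intro x _
      rw [sum_comm]
      simp only [AddChar.sum_mulShift _ he, sub_eq_zero]
      push_cast
      rw [sum_ite_eq]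
    rw [sum_congr rfl h3, ← sum_filter, sum_const, nsmul_eq_mul, mul_comm]
  have h4 : (C.filter (fun x => x + y ∈ C)).card + psi C y = C.card :=
    card_filter_add_card_filter_not _
  have h5 := congrArg Complex.re h2
  rw [Complex.re_sum] at h5
  simp only [Complex.re_ofReal_mul] at h5
  rw [h5, ← h4]
  simp

theorem rect_pick [Fintype F] {e : AddChar F ℂ} (he : e.IsPrimitive) {C Y : Finset F} {R : ℕ}
    (hC : C.Nonempty) (h2 : 2 * C.card ≤ Fintype.card F) (hY : ∀ y ∈ Y, R * psi C y ≤ C.card) :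
    ∃ ξ : F, ξ ≠ 0 ∧ (R : ℝ) * ∑ y ∈ Y, (1 - (e (ξ * y)).re) ≤ 2 * Y.card := by
  by_contra hcon
  push Not at hcon
  obtain ⟨w, hw⟩ : ∃ w : F → ℝ, w = fun ξ => Complex.normSq (∑ x ∈ C, e (ξ * x)) := ⟨_, rfl⟩
  have hw0 : ∀ ξ, 0 ≤ w ξ := fun ξ => by
    rw [hw]
    exact Complex.normSq_nonneg _
  have hs : ∀ y, ∑ ξ : F, w ξ * (e (ξ * y)).re =
      (Fintype.card F : ℝ) * ((C.card : ℝ) - psi C y) := fun y => by
    rw [hw]
    exact rect_sum he C y
  have hpsi0 : psi C 0 = 0 := by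
    simp [psi]
  have htot : ∑ ξ : F, w ξ = (Fintype.card F : ℝ) * C.card := by
    simpa [hpsi0] using hs 0
  have hwz : w 0 = (C.card : ℝ) ^ 2 := by
    rw [hw]
    simp [sq]
  have hc : (0 : ℝ) < C.card := by exact_mod_cast hC.card_pos
  have h2' : 2 * (C.card : ℝ) ≤ Fintype.card F := by exact_mod_cast h2
  have hne : ∑ ξ ∈ univ.erase (0 : F), w ξ = (Fintype.card F : ℝ) * C.card - (C.card : ℝ) ^ 2 := by
    rw [← htot, ← hwz, ← add_sum_erase univ w (mem_univ 0)]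
    ring
  have hpos : ∃ ξ ∈ univ.erase (0 : F), 0 < w ξ := by
    by_contra h
    push Not at h
    have := sum_nonpos h
    rw [hne] at this
    nlinarith
  have hy : ∀ y, ∑ ξ ∈ univ.erase (0 : F), w ξ * (1 - (e (ξ * y)).re) =
      (Fintype.card F : ℝ) * psi C y := by
    intro y
    have h3 := add_sum_erase univ (fun ξ => w ξ * (1 - (e (ξ * y)).re)) (mem_univ (0 : F))
    simp only [zero_mul, AddChar.map_zero_eq_one, Complex.one_re, sub_self, mul_zero,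
      zero_add] at h3
    rw [h3]
    simp only [mul_sub, mul_one, sum_sub_distrib, hs, htot]
    ring
  have hlt : ∑ ξ ∈ univ.erase (0 : F), w ξ * (2 * Y.card) <
      ∑ ξ ∈ univ.erase (0 : F), w ξ * ((R : ℝ) * ∑ y ∈ Y, (1 - (e (ξ * y)).re)) := by
    refine sum_lt_sum (fun ξ hξ => ?_) ?_
    · exact mul_le_mul_of_nonneg_left (hcon ξ (ne_of_mem_erase hξ)).le (hw0 ξ)
    · obtain ⟨ξ, hξ, h⟩ := hpos
      exact ⟨ξ, hξ, mul_lt_mul_of_pos_left (hcon ξ (ne_of_mem_erase hξ)) h⟩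
  have hr : ∑ ξ ∈ univ.erase (0 : F), w ξ * ((R : ℝ) * ∑ y ∈ Y, (1 - (e (ξ * y)).re)) =
      ∑ y ∈ Y, (Fintype.card F : ℝ) * (R * psi C y) := by
    simp only [mul_sum]
    rw [sum_comm]
    refine sum_congr rfl fun y _ => ?_
    rw [mul_left_comm, ← hy y, mul_sum]
    refine sum_congr rfl fun ξ _ => ?_
    ring
  have hle : ∑ y ∈ Y, (Fintype.card F : ℝ) * (R * psi C y) ≤
      Y.card • ((Fintype.card F : ℝ) * C.card) := by
    refine sum_le_card_nsmul _ _ _ fun y hy => ?_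
    have : (R : ℝ) * psi C y ≤ C.card := by exact_mod_cast hY y hy
    exact mul_le_mul_of_nonneg_left this (by positivity)
  rw [nsmul_eq_mul] at hle
  rw [hr, ← sum_mul, hne] at hlt
  have hY0 : (0 : ℝ) ≤ Y.card := by positivity
  nlinarith [mul_nonneg hY0 (mul_nonneg hc.le (sub_nonneg.2 h2'))]

theorem rect_cos {m : ℤ} {p : ℕ} (h1 : 2 * |m| ≤ (p : ℤ)) (h2 : (p : ℤ) < 12 * |m|) :
    1 / 18 ≤ 1 - Real.cos (2 * Real.pi * m / p) := by
  have hp : (0 : ℤ) < p := by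
    have := abs_nonneg m
    omega
  have hp' : (0 : ℝ) < p := by exact_mod_cast hp
  have a1 : 2 * |(m : ℝ)| ≤ p := by exact_mod_cast h1
  have a2 : (p : ℝ) < 12 * |(m : ℝ)| := by exact_mod_cast h2
  have hpi := Real.pi_pos
  have b1 : |2 * Real.pi * m / p| ≤ Real.pi := by
    rw [abs_div, abs_mul, abs_of_pos hp', abs_of_pos (by positivity : 0 < 2 * Real.pi),
      div_le_iff₀ hp']
    nlinarith
  have b2 := Real.cos_le_one_sub_mul_cos_sq b1
  have b3 : 2 / Real.pi ^ 2 * (2 * Real.pi * m / p) ^ 2 = 8 * (|(m : ℝ)| / p) ^ 2 := by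
    rw [div_pow |(m : ℝ)|, sq_abs]
    field_simp
    ring
  have b4 : 1 / 12 ≤ |(m : ℝ)| / p := by
    rw [le_div_iff₀ hp']
    linarith
  rw [b3] at b2
  nlinarith

theorem rect [Fintype F] (hp : (Fintype.card F).Prime) {C Y : Finset F} {R : ℕ}
    (hC : C.Nonempty) (h2 : 2 * C.card ≤ Fintype.card F) (hY : ∀ y ∈ Y, R * psi C y ≤ C.card) :
    ∃ (ξ : F) (φ : F → ℤ), ξ ≠ 0 ∧ (∀ h, (φ h : F) = ξ * h) ∧
      (∀ h, 2 * |φ h| ≤ (Fintype.card F : ℤ)) ∧
      R * (Y.filter (fun y => (Fintype.card F : ℤ) < 12 * |φ y|)).card ≤ 36 * Y.card := by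
  obtain ⟨e, v, he, hv, hb, hre⟩ := rect_char hp
  obtain ⟨ξ, hξ, hsum⟩ := rect_pick he hC h2 hY
  refine ⟨ξ, fun h => v (ξ * h), hξ, fun h => hv _, fun h => hb _, ?_⟩
  have h3 : (Y.filter (fun y => (Fintype.card F : ℤ) < 12 * |v (ξ * y)|)).card • (1 / 18 : ℝ) ≤
      ∑ y ∈ Y.filter (fun y => (Fintype.card F : ℤ) < 12 * |v (ξ * y)|),
        (1 - (e (ξ * y)).re) := by
    refine card_nsmul_le_sum _ _ _ fun y hy => ?_
    rw [hre]
    exact rect_cos (hb _) (mem_filter.1 hy).2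
  have h4 : ∑ y ∈ Y.filter (fun y => (Fintype.card F : ℤ) < 12 * |v (ξ * y)|),
      (1 - (e (ξ * y)).re) ≤ ∑ y ∈ Y, (1 - (e (ξ * y)).re) := by
    refine sum_le_sum_of_subset_of_nonneg (filter_subset _ _) fun y _ _ => ?_
    rw [hre]
    exact sub_nonneg.2 (Real.cos_le_one _)
  rw [nsmul_eq_mul] at h3
  have h5 := mul_le_mul_of_nonneg_left (h3.trans h4) (Nat.cast_nonneg (α := ℝ) R)
  have h6 : (R : ℝ) * (Y.filter (fun y => (Fintype.card F : ℤ) < 12 * |v (ξ * y)|)).card ≤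
      36 * Y.card := by linarith
  exact_mod_cast h6

end Pool.Agent.P.MP_862e21_al
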