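import Pool.Agent.P.MP_862e21_al.Defs

namespace Pool.Agent.P.MP_862e21_al

open Finset Pointwise

variable {F : Type*} [Field F] [DecidableEq F]

omit [DecidableEq F] in
theorem valu_zero {ν : F → ℕ} {J : ℕ} {φ : F → ℤ} (h0 : ν 0 = 0) (hφ : Coord ν J φ) :
    φ 0 = 0 := by
  have := hφ.add 0 0 (by omega) (by omega) (by rw [add_zero]; omega)
  rw [add_zero] at this
  omega

theorem valu_dvd {p k : ℕ} (hp : p.Prime) {a : ℤ} (ha : a ≠ 0) :
    (p : ℤ) ^ k ∣ a ↔ k ≤ a.natAbs.factorization p := by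
  rw [← hp.pow_dvd_iff_le_factorization (Int.natAbs_ne_zero.2 ha), ← Int.natCast_dvd]
  push_cast
  rfl

theorem valu_core [Fintype F] {ν : F → ℕ} {t π : F} {J z p : ℕ} {φ : F → ℤ} (hπ : π ≠ 0)
    (hp : p.Prime) (hF : Filt ν t J z) (hφ : Coord ν J φ) (hJ : 400 ≤ J)
    (hm : ∀ h, ν h < J → ν (π * h) ≤ ν h + 1)
    (hs : ∀ h, h ≠ 0 → ν h ≤ 16 →
      (φ (π * h)).natAbs.factorization p < (φ h).natAbs.factorization p) : False := by
  have z0 := valu_zero hF.zero hφ
  have nz : ∀ x, x ≠ 0 → φ x ≠ 0 := fun x hx h => hx (hφ.inj (h.trans z0.symm))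
  have h2 : 1 < (lev ν 1).card := by
    have := hF.one
    have := hF.two
    omega
  obtain ⟨k, hk, hk0⟩ := exists_mem_ne h2 0
  obtain ⟨h0, hh0, hmin⟩ := exists_min_image ((lev ν 1).erase 0)
    (fun x => (φ x).natAbs.factorization p) ⟨k, mem_erase.2 ⟨hk0, hk⟩⟩
  obtain ⟨h00, h01⟩ := mem_erase.1 hh0
  have g0 : ∀ i : ℕ, π ^ i * h0 ≠ 0 := fun i => mul_ne_zero (pow_ne_zero _ hπ) h00
  have gs : ∀ i : ℕ, π ^ (i + 1) * h0 = π * (π ^ i * h0) := fun i => by ring
  have gν : ∀ i : ℕ, i ≤ 15 → ν (π ^ i * h0) ≤ i + 1 := by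
    intro i
    induction i with
    | zero =>
      intro _
      rw [pow_zero, one_mul]
      exact mem_lev.1 h01
    | succ i ih =>
      intro hi
      have h1 := ih (by omega)
      have h3 := hm (π ^ i * h0) (by omega)
      rw [gs]
      omega
  have key : ∀ i : ℕ, i ≤ 15 → ∃ S : Finset F, 2 ^ i * z ≤ S.card ∧ ∀ x ∈ S,
      ν x ≤ 16 * i + 1 ∧ (p : ℤ) ^ (φ (π ^ i * h0)).natAbs.factorization p ∣ φ x := by
    intro i
    induction i with
    | zero =>
      intro _
      refine ⟨lev ν 1, by rw [pow_zero, one_mul]; exact hF.one, fun x hx => ⟨mem_lev.1 hx, ?_⟩⟩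
      rw [pow_zero, one_mul]
      by_cases hx0 : x = 0
      · rw [hx0, z0]
        exact dvd_zero _
      · exact (valu_dvd hp (nz x hx0)).2 (hmin x (mem_erase.2 ⟨hx0, hx⟩))
    | succ i ih =>
      intro hi
      obtain ⟨S, hS, hx⟩ := ih (by omega)
      have hg := gν (i + 1) hi
      have hlt := hs (π ^ i * h0) (g0 i) (by have := gν i (by omega); omega)
      rw [← gs] at hlt
      have hg0 := g0 (i + 1)
      generalize π ^ (i + 1) * h0 = g at hg hlt hg0
      have hν : ∀ y ∈ S, ν (g + y) ≤ 16 * (i + 1) + 1 := fun y hy => by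
        have := hF.add g y
        have := (hx y hy).1
        omega
      have hadd : ∀ y ∈ S, φ (g + y) = φ g + φ y := fun y hy =>
        hφ.add g y (by omega) (by have := (hx y hy).1; omega) (by have := hν y hy; omega)
      have hdis : Disjoint S (S.image fun y => g + y) := by
        refine disjoint_left.2 fun x hxS hx' => ?_
        obtain ⟨y, hy, rfl⟩ := mem_image.1 hx'
        have d1 := (hx _ hxS).2
        rw [hadd y hy] at d1
        have d2 := (valu_dvd hp (nz g hg0)).1 ((dvd_add_left (hx y hy).2).1 d1)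
        omega
      refine ⟨S ∪ S.image fun y => g + y, ?_, fun x hx' => ?_⟩
      · rw [card_union_of_disjoint hdis, card_image_of_injective _ (add_right_injective g),
          pow_succ]
        nlinarith
      · rcases mem_union.1 hx' with h1 | h1
        · exact ⟨by have := (hx x h1).1; omega, (pow_dvd_pow _ hlt.le).trans (hx x h1).2⟩
        · obtain ⟨y, hy, rfl⟩ := mem_image.1 h1
          refine ⟨hν y hy, ?_⟩
          rw [hadd y hy]
          exact dvd_add ((valu_dvd hp (nz g hg0)).2 le_rfl)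
            ((pow_dvd_pow _ hlt.le).trans (hx y hy).2)
  obtain ⟨S, hS, hx⟩ := key 15 le_rfl
  have h3 : S ⊆ lev ν 241 := fun x h => mem_lev.2 (hx x h).1
  have h4 := (hS.trans (card_le_card h3)).trans (hF.up 241 (by omega) (by omega))
  have := hF.two
  omega

theorem valu [Fintype F] {ν : F → ℕ} {t : F} {J z : ℕ} {φ : F → ℤ} (ht : t ≠ 0)
    (ht2 : t ^ 2 ≠ 1) (hF : Filt ν t J z) (hφ : Coord ν J φ) (hJ : 400 ≤ J)
    (hc : ∀ h k, ν h ≤ 17 → ν k ≤ 17 → φ (t * h) * φ k = φ h * φ (t * k)) : False := by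
  have z0 := valu_zero hF.zero hφ
  have nz : ∀ x, x ≠ 0 → (φ x).natAbs ≠ 0 := fun x hx h =>
    hx (hφ.inj ((Int.natAbs_eq_zero.1 h).trans z0.symm))
  have h2 : 1 < (lev ν 1).card := by
    have := hF.one
    have := hF.two
    omega
  obtain ⟨k, hk, hk0⟩ := exists_mem_ne h2 0
  have hk1 := mem_lev.1 hk
  have hne : (φ (t * k)).natAbs ≠ (φ k).natAbs := by
    intro h
    apply ht2
    rcases Int.natAbs_eq_natAbs_iff.1 h with h | h
    · have h3 : t * k = 1 * k := by rw [one_mul]; exact hφ.inj h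
      rw [mul_right_cancel₀ hk0 h3, one_pow]
    · have h4 := hφ.add k (-k) (by omega) (by rw [hF.neg]; omega)
        (by rw [add_neg_cancel, hF.zero]; omega)
      rw [add_neg_cancel, z0] at h4
      have h5 : φ (t * k) = φ (-k) := by omega
      have h3 : t * k = -1 * k := by rw [neg_one_mul]; exact hφ.inj h5
      rw [mul_right_cancel₀ hk0 h3, neg_one_sq]
  obtain ⟨p, hp⟩ : ∃ p, (φ (t * k)).natAbs.factorization p ≠ (φ k).natAbs.factorization p := by
    by_contra h
    exact hne (Nat.eq_of_factorization_eq (nz _ (mul_ne_zero ht hk0)) (nz k hk0)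
      fun p => not_not.1 fun h' => h ⟨p, h'⟩)
  have hpp : p.Prime := by
    by_contra h
    exact hp (by rw [Nat.factorization_eq_zero_of_not_prime _ h,
      Nat.factorization_eq_zero_of_not_prime _ h])
  have rel : ∀ h, h ≠ 0 → ν h ≤ 17 →
      (φ (t * h)).natAbs.factorization p + (φ k).natAbs.factorization p =
        (φ h).natAbs.factorization p + (φ (t * k)).natAbs.factorization p := by
    intro h h0 hh
    have e := congrArg Int.natAbs (hc h k hh (by omega))
    rw [Int.natAbs_mul, Int.natAbs_mul] at e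
    have e2 := congrArg (fun n : ℕ => n.factorization p) e
    simp only [Nat.factorization_mul (nz _ (mul_ne_zero ht h0)) (nz k hk0),
      Nat.factorization_mul (nz h h0) (nz _ (mul_ne_zero ht hk0)), Finsupp.add_apply] at e2
    exact e2
  rcases lt_or_gt_of_ne hp with hlt | hgt
  · refine valu_core ht hpp hF hφ hJ hF.mul fun h h0 hh => ?_
    have := rel h h0 (by omega)
    omega
  · refine valu_core (inv_ne_zero ht) hpp hF hφ hJ hF.inv fun h h0 hh => ?_
    have h3 := hF.inv h (by omega)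
    have := rel (t⁻¹ * h) (mul_ne_zero (inv_ne_zero ht) h0) (by omega)
    rw [mul_inv_cancel_left₀ ht] at this
    omega

end Pool.Agent.P.MP_862e21_al
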