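import Pool.Agent.P.MP_862e21_al.Ball
import Pool.Agent.P.MP_862e21_al.Rect
import Pool.Agent.P.MP_862e21_al.Collinear
import Pool.Agent.P.MP_862e21_al.Valu

namespace Pool.Agent.P.MP_862e21_al

open Finset Pointwise

variable {F : Type*} [Field F] [DecidableEq F]

variable [Fintype F]

theorem normLemma (hp : (Fintype.card F).Prime) {C Z : Finset F} {r : ℕ} {t : F}
    (h2 : 2 * C.card ≤ Fintype.card F) (ht : t ≠ 0) (ht2 : t ^ 2 ≠ 1) (hr : 1 ≤ r)
    (hZ : 2 ≤ Z.card) (hrZ : r ≤ 4 * Z.card) (hψ : ∀ h ∈ Z, psi C h ≤ r)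
    (hbig : 10 ^ 9 * r ≤ C.card)
    (hiso : ∀ h, 2 * psi C h ≤ C.card →
      psi C (t * h) ≤ psi C h + r ∧ psi C (t⁻¹ * h) ≤ psi C h + r) : False := by
  obtain ⟨ν, hν⟩ : ∃ ν : F → ℕ, ∀ h m, ν h ≤ m ↔ psi C h ≤ m * r := by
    refine ⟨fun h => (psi C h + r - 1) / r, fun h m => ?_⟩
    rw [← Nat.lt_succ_iff, Nat.div_lt_iff_lt_mul hr, Nat.succ_mul]
    omega
  have hself : ∀ h, psi C h ≤ ν h * r := fun h => (hν h _).1 le_rfl
  have hlev : ∀ m, lev ν m = lev (psi C) (m * r) := by
    intro m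
    ext h
    rw [mem_lev, mem_lev, hν]
  have hC : C.Nonempty := card_pos.1 (by omega)
  have hsm : ∀ h, ν h < 34000 → 2 * psi C h ≤ C.card := by
    intro h hh
    have := (hν h 34000).1 hh.le
    omega
  have hF : Filt ν t 34000 Z.card := by
    refine ⟨Nat.le_zero.1 ((hν 0 0).2 (by rw [psi_zero]; omega)), fun h => le_antisymm
      ((hν _ _).2 (by rw [psi_neg]; exact hself h))
      ((hν _ _).2 (by rw [← psi_neg]; exact hself (-h))), fun h k => (hν _ _).2 ?_,
      fun h hh => (hν _ _).2 ?_, fun h hh => (hν _ _).2 ?_, fun m h1 hm => ?_, fun m h1 hm => ?_,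
      card_le_card fun h hh => mem_lev.2 ((hν _ _).2 (by rw [one_mul]; exact hψ h hh)), hZ⟩
    · rw [add_mul]
      exact (psi_add C h k).trans (add_le_add (hself h) (hself k))
    · rw [add_mul, one_mul]
      exact (hiso h (hsm h hh)).1.trans (Nat.add_le_add_right (hself h) r)
    · rw [add_mul, one_mul]
      exact (hiso h (hsm h hh)).2.trans (Nat.add_le_add_right (hself h) r)
    · have h3 : m * r ≤ 34000 * r := Nat.mul_le_mul_right r hm
      have h4 := ball_up hp (C := C) (R := m * r) (Nat.mul_pos h1 hr) (by omega) h2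
      have h5 : m * r ≤ m * (4 * Z.card) := Nat.mul_le_mul_left m hrZ
      rw [hlev]
      calc _ ≤ 12 * (m * (4 * Z.card)) := h4.trans (Nat.mul_le_mul_left 12 h5)
        _ = 48 * m * Z.card := by ring
    · have h3 : m * r ≤ 34000 * r := Nat.mul_le_mul_right r hm
      rw [hlev]
      exact ball_low hp hC hZ hψ (by omega) h2
  obtain ⟨ξ, φ, hξ, hφ, hhalf, hbad⟩ := rect hp (C := C) (Y := lev (psi C) (68000 * r))
    (R := 14000) hC h2 (fun y hy => by have := mem_lev.1 hy; omega)
  have hY := ball_up hp (C := C) (R := 68000 * r) (by omega) (by omega) h2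
  have hlow := hF.low 34000 (by norm_num) le_rfl
  have hq : (0 : ℤ) < Fintype.card F := by exact_mod_cast hp.pos
  have hsix : ∀ h, ν h ≤ 34000 → 6 * |φ h| ≤ (Fintype.card F : ℤ) := by
    intro h hh
    set Bad := (lev (psi C) (68000 * r)).filter
      (fun y => (Fintype.card F : ℤ) < 12 * |φ y|) with hBad
    have hex : ∃ y ∈ lev ν 34000, y ∉ Bad ∪ Bad.image (fun w => h - w) := by
      refine exists_mem_notMem_of_card_lt_card ?_
      have h3 := card_union_le Bad (Bad.image (fun w => h - w))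
      have h4 : (Bad.image (fun w => h - w)).card ≤ Bad.card := card_image_le
      omega
    obtain ⟨y, hy, hyb⟩ := hex
    have hy1 := (hν _ _).1 (mem_lev.1 hy)
    have hh1 := (hν _ _).1 hh
    have hy2 : psi C (h - y) ≤ 68000 * r := by
      have := psi_add C h (-y)
      rw [psi_neg, ← sub_eq_add_neg] at this
      omega
    have h5 : 12 * |φ y| ≤ (Fintype.card F : ℤ) := not_lt.1 fun hlt =>
      hyb (mem_union_left _ (mem_filter.2 ⟨mem_lev.2 (by omega), hlt⟩))
    have h6 : 12 * |φ (h - y)| ≤ (Fintype.card F : ℤ) := not_lt.1 fun hlt =>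
      hyb (mem_union_right _ (mem_image.2 ⟨h - y, mem_filter.2 ⟨mem_lev.2 hy2, hlt⟩, by ring⟩))
    have h7 := abs_add_le (φ y) (φ (h - y))
    have h8 : φ h = φ y + φ (h - y) := by
      refine int_cast_eq hp (by rw [Int.cast_add, hφ, hφ, hφ]; ring) ?_
      have := abs_sub (φ h) (φ y + φ (h - y))
      have := hhalf h
      omega
    rw [h8]
    omega
  have hco : Coord ν 34000 φ := by
    refine ⟨fun h k e => mul_left_cancel₀ hξ (by rw [← hφ, ← hφ, e]), fun h k hh hk hhk => ?_⟩
    refine int_cast_eq hp (by rw [Int.cast_add, hφ, hφ, hφ]; ring) ?_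
    have := abs_sub (φ (h + k)) (φ h + φ k)
    have := abs_add_le (φ h) (φ k)
    have := hsix h hh
    have := hsix k hk
    have := hsix _ hhk
    omega
  exact valu ht ht2 hF hco (by norm_num) fun h k hh hk =>
    collinear hF hco (n := 17) (by norm_num) (by norm_num) hh hk

theorem trioNorm (hp : (Fintype.card F).Prime) (h5 : 5 < Fintype.card F) {l : F}
    {B C D : Finset F} {u : ℕ} (h : Trio l B C D) (hB : B.Nonempty)
    (hu : Fintype.card F = B.card + C.card + D.card + u) (hcd : C.card ≤ D.card)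
    {X : Finset F} (hX : 2 ≤ X.card) {r : ℕ} (hr1 : 2 * (u + 1) ≤ r) (hr : r ≤ 4 * X.card)
    (hs : (X + C).card ≤ C.card + r) (hbig : 10 ^ 9 * r ≤ C.card) : False := by
  obtain ⟨x0, hx0⟩ : X.Nonempty := card_pos.1 (by omega)
  obtain ⟨t, ht, t', ht', htt⟩ := exists_pi hp h5 h.l0 h.l1
  have hZ : (X.image (fun x => x - x0)).card = X.card :=
    card_image_of_injective _ (sub_left_injective)
  refine normLemma hp (C := C) (Z := X.image (fun x => x - x0)) (r := r) (t := t * t') (by omega)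
    (mul_ne_zero (lam_ne_zero h.l0 h.l1 ht) (lam_ne_zero h.l0 h.l1 ht')) htt (by omega)
    (by omega) (by omega) (fun z hz => ?_) hbig fun x hx => ⟨?_, ?_⟩
  · obtain ⟨x, hx, rfl⟩ := mem_image.1 hz
    have := psi_sum (C := C) hx hx0
    omega
  · have := roughIso hp h hB hu hcd (by omega) ht ht' hx
    omega
  · have := roughIso hp h hB hu hcd (by omega) (lam_inv h.l0 h.l1 ht) (lam_inv h.l0 h.l1 ht') hx
    rw [mul_inv]
    omega

theorem longC (hp : (Fintype.card F).Prime) (h5 : 5 < Fintype.card F) {l : F}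
    {B C D : Finset F} {u : ℕ} (h : Trio l B C D) (hb : 2 ≤ B.card)
    (hu : Fintype.card F = B.card + C.card + D.card + u) (hcd : C.card ≤ D.card)
    (hub : u ≤ B.card) (hL : 10 ^ 10 * B.card ≤ C.card) : False := by
  have h0 : (1 - l) / l ≠ 0 := div_ne_zero (sub_ne_zero.2 h.l1.symm) h.l0
  have hX : (((1 - l) / l) • B).card = B.card := card_smul_finset₀ h0 B
  have h1 := h.comb_le hu (self_mem_Lam l)
  rw [card_comb h.l0] at h1
  exact trioNorm hp h5 h (card_pos.1 (by omega)) hu hcd (X := ((1 - l) / l) • B) (by omega)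
    (r := 2 * B.card + 2) (by omega) (by omega) (by omega) (by omega)

end Pool.Agent.P.MP_862e21_al
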