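import Pool.Agent.P.MP_862e21_al.ODefs

namespace Pool.Agent.P.MP_862e21_al

open Finset Pointwise

variable {F : Type*} [Field F] [DecidableEq F]

theorem Cov.mono {K K' : ℕ} {H X : Finset F} (h : Cov K H X) (hK : K ≤ K') : Cov K' H X := by
  obtain ⟨T, hT, hX⟩ := h
  exact ⟨T, hT.trans hK, hX⟩

theorem Cov.subset {K : ℕ} {H X X' : Finset F} (h : Cov K H X) (hX : X' ⊆ X) : Cov K H X' := by
  obtain ⟨T, hT, hX'⟩ := h
  exact ⟨T, hT, hX.trans hX'⟩

theorem Cov.card_le {K : ℕ} {H X : Finset F} (h : Cov K H X) : X.card ≤ K * H.card := by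
  obtain ⟨T, hT, hX⟩ := h
  exact (card_le_card hX).trans (card_add_le.trans (Nat.mul_le_mul_right _ hT))

theorem Cov.self (H : Finset F) : Cov 1 H H := by
  refine ⟨{0}, by simp, fun x hx => ?_⟩
  exact mem_add.mpr ⟨0, mem_singleton_self _, x, hx, zero_add x⟩

theorem Cov.trans {K K' : ℕ} {H Y X : Finset F} (h : Cov K Y X) (h' : Cov K' H Y) :
    Cov (K * K') H X := by
  obtain ⟨T, hT, hX⟩ := h
  obtain ⟨T', hT', hY⟩ := h'
  refine ⟨T + T', card_add_le.trans (Nat.mul_le_mul hT hT'), fun x hx => ?_⟩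
  obtain ⟨t, ht, y, hy, rfl⟩ := mem_add.mp (hX hx)
  obtain ⟨t', ht', z, hz, rfl⟩ := mem_add.mp (hY hy)
  exact mem_add.mpr ⟨t + t', add_mem_add ht ht', z, hz, add_assoc _ _ _⟩

theorem Cov.union {K K' : ℕ} {H X Y : Finset F} (h : Cov K H X) (h' : Cov K' H Y) :
    Cov (K + K') H (X ∪ Y) := by
  obtain ⟨T, hT, hX⟩ := h
  obtain ⟨T', hT', hY⟩ := h'
  refine ⟨T ∪ T', (card_union_le _ _).trans (Nat.add_le_add hT hT'), fun x hx => ?_⟩
  rcases mem_union.mp hx with hx | hx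
  · obtain ⟨t, ht, y, hy, rfl⟩ := mem_add.mp (hX hx)
    exact add_mem_add (mem_union_left _ ht) hy
  · obtain ⟨t, ht, y, hy, rfl⟩ := mem_add.mp (hY hx)
    exact add_mem_add (mem_union_right _ ht) hy

theorem Cov.add {K0 K K' : ℕ} {H X Y : Finset F} (h0 : Cov K0 H (H + H)) (h : Cov K H X)
    (h' : Cov K' H Y) : Cov (K * K' * K0) H (X + Y) := by
  refine Cov.trans (Y := H + H) ?_ h0
  obtain ⟨T, hT, hX⟩ := h
  obtain ⟨T', hT', hY⟩ := h'
  refine ⟨T + T', card_add_le.trans (Nat.mul_le_mul hT hT'), fun v hv => ?_⟩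
  obtain ⟨x, hx, y, hy, rfl⟩ := mem_add.mp hv
  obtain ⟨t, ht, a, ha, rfl⟩ := mem_add.mp (hX hx)
  obtain ⟨t', ht', b, hb, rfl⟩ := mem_add.mp (hY hy)
  exact mem_add.mpr ⟨t + t', add_mem_add ht ht', a + b, add_mem_add ha hb, by ring⟩

theorem Cov.sub {K0 K K' : ℕ} {H X Y : Finset F} (hn : ∀ h ∈ H, -h ∈ H) (h0 : Cov K0 H (H + H))
    (h : Cov K H X) (h' : Cov K' H Y) : Cov (K * K' * K0) H (X - Y) := by
  refine Cov.trans (Y := H + H) ?_ h0
  obtain ⟨T, hT, hX⟩ := h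
  obtain ⟨T', hT', hY⟩ := h'
  refine ⟨T - T', card_sub_le.trans (Nat.mul_le_mul hT hT'), fun v hv => ?_⟩
  obtain ⟨x, hx, y, hy, rfl⟩ := mem_sub.mp hv
  obtain ⟨t, ht, a, ha, rfl⟩ := mem_add.mp (hX hx)
  obtain ⟨t', ht', b, hb, rfl⟩ := mem_add.mp (hY hy)
  exact mem_add.mpr ⟨t - t', sub_mem_sub ht ht', a + -b, add_mem_add ha (hn b hb), by ring⟩

theorem Cov.smul {K : ℕ} {H X : Finset F} (h : Cov K H X) (r : F) :
    Cov K (r • H) (r • X) := by
  obtain ⟨T, hT, hX⟩ := h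
  refine ⟨r • T, card_smul_finset_le.trans hT, fun v hv => ?_⟩
  obtain ⟨x, hx, rfl⟩ := mem_smul_finset.mp hv
  obtain ⟨t, ht, a, ha, rfl⟩ := mem_add.mp (hX hx)
  exact mem_add.mpr ⟨r • t, smul_mem_smul_finset ht, r • a, smul_mem_smul_finset ha,
    (smul_add r t a).symm⟩

/-- Ruzsa covering -/
theorem cov_of_card {K : ℕ} {X Y : Finset F} (hY : Y.Nonempty) (h : (X + Y).card ≤ K * Y.card) :
    Cov K (Y - Y) X := by
  have h' : ((X + Y).card : ℝ) ≤ (K : ℝ) * Y.card := by exact_mod_cast h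
  obtain ⟨T, -, hT, hX⟩ := Finset.ruzsa_covering_add hY h'
  exact ⟨T, by exact_mod_cast hT, hX⟩

/-- a dense piece inside one translate -/
theorem Cov.piece {K : ℕ} {H X : Finset F} (h : Cov K H X) :
    ∃ Z ⊆ X, ∃ t : F, X.card ≤ K * Z.card ∧ ∀ z ∈ Z, z - t ∈ H := by
  obtain ⟨T, hT, hX⟩ := h
  rcases T.eq_empty_or_nonempty with rfl | hne
  · refine ⟨∅, empty_subset _, 0, ?_, by simp⟩
    have : X = ∅ := by simpa using hX
    simp [this]
  obtain ⟨t, ht, hmax⟩ := exists_max_image T (fun t => (X.filter (fun z => z - t ∈ H)).card) hne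
  refine ⟨X.filter (fun z => z - t ∈ H), filter_subset _ _, t, ?_, fun z hz => (mem_filter.mp hz).2⟩
  have h1 : X ⊆ T.biUnion (fun s => X.filter (fun z => z - s ∈ H)) := by
    intro x hx
    obtain ⟨s, hs, a, ha, rfl⟩ := mem_add.mp (hX hx)
    exact mem_biUnion.mpr ⟨s, hs, mem_filter.mpr ⟨hx, by simpa using ha⟩⟩
  calc X.card ≤ _ := card_le_card h1
    _ ≤ T.card * (X.filter (fun z => z - t ∈ H)).card := card_biUnion_le_card_mul _ _ _ hmax
    _ ≤ _ := Nat.mul_le_mul_right _ hT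

theorem cov_of_good {K K0 : ℕ} {H : Finset F} {r : F} (hH : H.Nonempty) (hn : ∀ h ∈ H, -h ∈ H)
    (h0 : Cov K0 H (H + H)) (h : Good K H r) : Cov (K * K0) H (r • H) := by
  have h1 : r • H + H ⊆ H - r • H := by
    intro v hv
    obtain ⟨x, hx, y, hy, rfl⟩ := mem_add.mp hv
    obtain ⟨a, ha, rfl⟩ := mem_smul_finset.mp hx
    refine mem_sub.mpr ⟨y, hy, r • (-a), smul_mem_smul_finset (hn a ha), ?_⟩
    simp only [smul_eq_mul]
    ring
  have h2 : H - H ⊆ H + H := by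
    intro v hv
    obtain ⟨x, hx, y, hy, rfl⟩ := mem_sub.mp hv
    exact mem_add.mpr ⟨x, hx, -y, hn y hy, by ring⟩
  exact (cov_of_card hH ((card_le_card h1).trans h)).trans (h0.subset h2)

theorem AG.mono {K K' : ℕ} {c : F} {H : Finset F} (h : AG K c H) (hK : K ≤ K') : AG K' c H :=
  ⟨h.zero, h.neg, h.add.mono hK, h.m1.mono hK, h.m2.mono hK, h.m3.mono hK, h.m4.mono hK⟩

theorem Dr.mono {J J' : ℕ} {H : Finset F} {ρ : F} (h : Dr J H ρ) (hJ : J ≤ J') : Dr J' H ρ := by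
  obtain ⟨Y, h1, h2, h3, h4⟩ := h
  exact ⟨Y, h1, h2, h3.mono hJ, h4.mono hJ⟩

/-- a maximal disjoint subfamily is small and meets every member -/
theorem disj_cover {ι : Type*} [DecidableEq ι] (Y : Finset ι) (X : Finset F) (W : ι → Finset F)
    {K : ℕ} (hW : ∀ y ∈ Y, W y ⊆ X) (hne : ∀ y ∈ Y, (W y).Nonempty)
    (hK : ∀ y ∈ Y, X.card ≤ K * (W y).card) :
    ∃ T ⊆ Y, T.card ≤ K ∧ ∀ y ∈ Y, ∃ y0 ∈ T, (W y ∩ W y0).Nonempty := by
  classical
  have hC : (Y.powerset.filter (fun T : Finset ι => (T : Set ι).PairwiseDisjoint W)).Nonempty :=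
    ⟨∅, by simp⟩
  obtain ⟨T, hT, hmax⟩ := exists_max_image _ card hC
  obtain ⟨hTY, hTd⟩ := mem_filter.mp hT
  have hTY' : T ⊆ Y := mem_powerset.mp hTY
  refine ⟨T, hTY', ?_, fun y hy => ?_⟩
  · rcases T.eq_empty_or_nonempty with rfl | ⟨y, hy⟩
    · simp
    have hX : 0 < X.card := card_pos.mpr ((hne y (hTY' hy)).mono (hW y (hTY' hy)))
    have h1 : ∑ s ∈ T, (W s).card ≤ X.card := by
      rw [← card_biUnion hTd]
      exact card_le_card (biUnion_subset.mpr fun s hs => hW s (hTY' hs))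
    have h2 : T.card * X.card ≤ K * ∑ s ∈ T, (W s).card := by
      rw [mul_sum, ← smul_eq_mul]
      calc T.card • X.card = ∑ _s ∈ T, X.card := (sum_const _).symm
        _ ≤ _ := sum_le_sum fun s hs => hK s (hTY' hs)
    exact Nat.le_of_mul_le_mul_right (h2.trans (Nat.mul_le_mul_left _ h1)) hX
  · by_cases hyT : y ∈ T
    · exact ⟨y, hyT, by simpa using hne y hy⟩
    by_contra hcon
    have hd : ∀ y0 ∈ T, Disjoint (W y) (W y0) := by
      intro y0 hy0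
      rw [disjoint_iff_inter_eq_empty, ← not_nonempty_iff_eq_empty]
      exact fun h => hcon ⟨y0, hy0, h⟩
    have hm : insert y T ∈
        Y.powerset.filter (fun T : Finset ι => (T : Set ι).PairwiseDisjoint W) := by
      refine mem_filter.mpr ⟨mem_powerset.mpr (insert_subset hy hTY'), ?_⟩
      rw [coe_insert]
      exact hTd.insert fun y0 hy0 _ => hd y0 hy0
    have := hmax _ hm
    rw [card_insert_of_notMem hyT] at this
    omega

theorem OCov_piece {H Z : Finset F} {m κ : F} (hZ : ∀ v ∈ Z, v - κ ∈ m • H) :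
    (m • H - Z).card ≤ (H - H).card := by
  have h1 : m • H - Z ⊆ (H - H).image (fun d => m * d - κ) := by
    intro v hv
    obtain ⟨x, hx, z, hz, rfl⟩ := mem_sub.mp hv
    obtain ⟨a, ha, rfl⟩ := mem_smul_finset.mp hx
    obtain ⟨b, hb, e⟩ := mem_smul_finset.mp (hZ z hz)
    refine mem_image.mpr ⟨a - b, sub_mem_sub ha hb, ?_⟩
    simp only [smul_eq_mul] at e ⊢
    linear_combination -e
  exact (card_le_card h1).trans card_image_le

theorem good_of_two {H Z : Finset F} {K0 K1 : ℕ} {m0 m1 κ0 κ1 : F} (hm0 : m0 ≠ 0) (hm1 : m1 ≠ 0)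
    (hH : H.Nonempty) (h0 : (H - H).card ≤ K0 * H.card) (hZ : H.card ≤ K1 * Z.card)
    (hZ0 : ∀ v ∈ Z, v - κ0 ∈ m0 • H) (hZ1 : ∀ v ∈ Z, v - κ1 ∈ m1 • H) :
    Good (K1 * K0 ^ 2) H (m1 / m0) := by
  have _h := hm1
  have h1 : H - (m1 / m0) • H ⊆ (m0 • H - m1 • H).image (fun d => m0⁻¹ * d) := by
    intro v hv
    obtain ⟨x, hx, z, hz, rfl⟩ := mem_sub.mp hv
    obtain ⟨a, ha, rfl⟩ := mem_smul_finset.mp hz
    refine mem_image.mpr ⟨m0 • x - m1 • a,
      sub_mem_sub (smul_mem_smul_finset hx) (smul_mem_smul_finset ha), ?_⟩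
    simp only [smul_eq_mul]
    field_simp
  have h2 : (H - (m1 / m0) • H).card ≤ (m0 • H - m1 • H).card :=
    (card_le_card h1).trans card_image_le
  have h3 := ruzsa_triangle_inequality_sub_sub_sub (m0 • H) Z (m1 • H)
  have h4 := (OCov_piece hZ0).trans h0
  have h5 := (OCov_piece hZ1).trans h0
  have h6 : (m0 • H - m1 • H).card * Z.card ≤ (K0 * H.card) * (K0 * H.card) :=
    h3.trans (Nat.mul_le_mul h4 h5)
  have hpos : 0 < H.card := card_pos.mpr hH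
  unfold Good
  refine h2.trans (Nat.le_of_mul_le_mul_right ?_ hpos)
  calc (m0 • H - m1 • H).card * H.card ≤ (m0 • H - m1 • H).card * (K1 * Z.card) :=
        Nat.mul_le_mul_left _ hZ
    _ = K1 * ((m0 • H - m1 • H).card * Z.card) := by ring
    _ ≤ K1 * ((K0 * H.card) * (K0 * H.card)) := Nat.mul_le_mul_left _ h6
    _ = K1 * K0 ^ 2 * H.card * H.card := by ring

end Pool.Agent.P.MP_862e21_al
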