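import Pool.Agent.P.MP_862e21_al.OKoenig
import Pool.Agent.P.MP_862e21_al.OCov
import Pool.Agent.P.MP_862e21_al.Ball

namespace Pool.Agent.P.MP_862e21_al

open Finset Pointwise

variable {F : Type*} [Field F] [DecidableEq F]

theorem nS_cov {K : ℕ} {H : Finset F} (h0 : (0 : F) ∈ H) (hH : Cov K H (H + H)) (m : ℕ) :
    ∃ T : Finset F, T.card ≤ K ^ m ∧ ∀ x ∈ nS (H : Set F) m, ∃ t ∈ T, x - t ∈ H := by
  obtain ⟨T0, hT0, hsub⟩ := hH
  induction m with
  | zero =>
    refine ⟨{0}, by simp, fun x hx => ⟨0, by simp, ?_⟩⟩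
    have hx0 : x = 0 := hx
    simpa [hx0] using h0
  | succ m ih =>
    obtain ⟨T, hT, hcov⟩ := ih
    refine ⟨T + T0, ?_, fun x hx => ?_⟩
    · calc (T + T0).card ≤ T.card * T0.card := card_add_le
        _ ≤ K ^ m * K := Nat.mul_le_mul hT hT0
        _ = K ^ (m + 1) := (pow_succ K m).symm
    · have hx' : x ∈ nS (H : Set F) m + (H : Set F) := hx
      obtain ⟨y, hy, h, hh, rfl⟩ := Set.mem_add.1 hx'
      obtain ⟨t, ht, hyt⟩ := hcov y hy
      have h1 : (y - t) + h ∈ T0 + H := hsub (add_mem_add hyt (mem_coe.1 hh))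
      obtain ⟨t0, ht0, h', hh', he⟩ := mem_add.1 h1
      refine ⟨t + t0, add_mem_add ht ht0, ?_⟩
      have h2 : y + h - (t + t0) = h' := by linear_combination -he
      rw [h2]; exact hh'

omit [DecidableEq F] in
theorem oap_mul_mem {H : Finset F} {h : F} (hh : h ∈ H) (j : ℕ) :
    (j : F) * h ∈ nS (H : Set F) j := by
  induction j with
  | zero =>
    show ((0 : ℕ) : F) * h ∈ ({0} : Set F)
    simp
  | succ j ih =>
    show ((j + 1 : ℕ) : F) * h ∈ nS (H : Set F) j + (H : Set F)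
    refine Set.mem_add.2 ⟨_, ih, h, mem_coe.2 hh, ?_⟩
    push_cast; ring

theorem oap_two {H : Finset F} {x : F} (hx : x ∈ H + H) : x ∈ nS (H : Set F) 2 := by
  obtain ⟨a, ha, b, hb, rfl⟩ := mem_add.1 hx
  have h1 : a ∈ nS (H : Set F) 1 := by rw [nS_one]; exact mem_coe.2 ha
  have h2 : b ∈ nS (H : Set F) 1 := by rw [nS_one]; exact mem_coe.2 hb
  exact nS_add h1 h2

theorem oap_pos {K : ℕ} {H : Finset F} (h0 : (0 : F) ∈ H) (hH : Cov K H (H + H)) : 1 ≤ K := by
  obtain ⟨T0, hT0, hsub⟩ := hH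
  obtain ⟨t, ht, -⟩ := mem_add.1 (hsub (add_mem_add h0 h0))
  exact le_trans (card_pos.2 ⟨t, ht⟩) hT0

/-- a long progression inside `H + H` -/
theorem long_fin {K M : ℕ} {H : Finset F} (h0 : (0 : F) ∈ H) (hn : ∀ h ∈ H, -h ∈ H)
    (hH : Cov K H (H + H)) (hbig : K ^ ((M + 1) ^ 2) < H.card) :
    ∃ g : F, g ≠ 0 ∧ ∀ j : ℕ, j ≤ M → (j : F) * g ∈ H + H := by
  classical
  obtain ⟨T, hT, hcov⟩ := nS_cov h0 hH M
  have hK := oap_pos h0 hH
  have hex : ∀ (h : F) (j : Fin (M + 1)), ∃ t : F, h ∈ H → t ∈ T ∧ ((j : ℕ) : F) * h - t ∈ H := by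
    intro h j
    by_cases hh : h ∈ H
    · obtain ⟨t, ht, h1⟩ := hcov _ (nS_mono (mem_coe.2 h0) (Nat.lt_succ_iff.1 j.2)
        (oap_mul_mem hh j))
      exact ⟨t, fun _ => ⟨ht, h1⟩⟩
    · exact ⟨0, fun h' => absurd h' hh⟩
  choose f hf using hex
  have hcard : (Fintype.piFinset fun _ : Fin (M + 1) => T).card < H.card := by
    rw [Fintype.card_piFinset]
    simp only [prod_const, card_univ, Fintype.card_fin]
    calc T.card ^ (M + 1) ≤ (K ^ (M + 1)) ^ (M + 1) :=
          Nat.pow_le_pow_left (hT.trans (Nat.pow_le_pow_right hK (Nat.le_succ M))) _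
      _ = K ^ ((M + 1) ^ 2) := by rw [← pow_mul, sq]
      _ < H.card := hbig
  obtain ⟨a, ha, b, hb, hab, he⟩ := exists_ne_map_eq_of_card_lt_of_maps_to hcard (f := f)
    (fun h hh => mem_coe.2 (Fintype.mem_piFinset.2 fun j => (hf h j (mem_coe.1 hh)).1))
  refine ⟨a - b, sub_ne_zero.2 hab, fun j hj => ?_⟩
  have h1 := (hf a ⟨j, Nat.lt_succ_iff.2 hj⟩ ha).2
  have h2 := hn _ (hf b ⟨j, Nat.lt_succ_iff.2 hj⟩ hb).2
  rw [he] at h1
  refine mem_add.2 ⟨_, h1, _, h2, ?_⟩
  simp only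
  ring

/-- a far point that is joined to zero by progressions of every length up to `n` -/
theorem ap_fin [Fintype F] (hp : (Fintype.card F).Prime) {K m0 n : ℕ} {H : Finset F}
    (h0 : (0 : F) ∈ H) (hn : ∀ h ∈ H, -h ∈ H) (hH : Cov K H (H + H))
    (hbig : K ^ ((n.factorial + 1) ^ 2) < H.card) (hq : K ^ m0 * H.card < Fintype.card F)
    (hnq : n < Fintype.card F) :
    ∃ x : F, x ∉ nS (H : Set F) m0 ∧ ∀ M : ℕ, 1 ≤ M → M ≤ n →
      ∃ g : F, (M : F) * g = x ∧ ∀ j : ℕ, j ≤ M → (j : F) * g ∈ nS (H : Set F) (m0 + 4) := by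
  classical
  obtain ⟨g, hg, hprog⟩ := long_fin h0 hn hH hbig
  have hF : Fact (Fintype.card F).Prime := ⟨hp⟩
  have hch : CharP F (Fintype.card F) := charP_of_card_eq_prime rfl
  have hN0 : ((n.factorial : ℕ) : F) ≠ 0 := by
    intro h
    rw [CharP.cast_eq_zero_iff F (Fintype.card F), hp.dvd_factorial] at h
    omega
  have hg' : (n.factorial : F) * g ≠ 0 := mul_ne_zero hN0 hg
  obtain ⟨T, hT, hcov⟩ := nS_cov h0 hH m0
  have hfar : ∃ x : F, x ∉ nS (H : Set F) m0 := by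
    by_contra hcon
    push Not at hcon
    have h1 : (univ : Finset F) ⊆ T + H := fun x _ => by
      obtain ⟨t, ht, h2⟩ := hcov x (hcon x)
      exact mem_add.2 ⟨t, ht, _, h2, by ring⟩
    have h2 := card_le_card h1
    have h3 : (T + H).card ≤ T.card * H.card := card_add_le
    have h4 : T.card * H.card ≤ K ^ m0 * H.card := Nat.mul_le_mul_right _ hT
    rw [card_univ] at h2
    omega
  have hex : ∃ j : ℕ, (j : F) * ((n.factorial : F) * g) ∉ nS (H : Set F) m0 := by
    obtain ⟨x, hx⟩ := hfar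
    have h1 : AddSubgroup.zmultiples ((n.factorial : F) * g) = ⊤ := by
      refine (add_top hp _).resolve_left fun h => hg' ?_
      exact AddSubgroup.zmultiples_eq_bot.1 h
    have h2 : x ∈ AddSubgroup.zmultiples ((n.factorial : F) * g) := by rw [h1]; trivial
    have h3 : x ∈ AddSubmonoid.multiples ((n.factorial : F) * g) :=
      (mem_multiples_iff_mem_zmultiples).2 h2
    obtain ⟨j, hj⟩ := (AddSubmonoid.mem_multiples_iff _ _).1 h3
    refine ⟨j, ?_⟩
    rw [← nsmul_eq_mul, hj]; exact hx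
  have h0' : (0 : F) ∈ (H : Set F) := mem_coe.2 h0
  have hspec := Nat.find_spec hex
  have hmin : ∀ a < Nat.find hex, (a : F) * ((n.factorial : F) * g) ∈ nS (H : Set F) m0 :=
    fun a ha => not_not.1 (Nat.find_min hex ha)
  generalize Nat.find hex = j0 at hspec hmin
  have hj0 : j0 ≠ 0 := by
    rintro rfl
    exact hspec (by simpa using nS_zero_mem h0' m0)
  have hle : ∀ a ≤ j0, (a : F) * ((n.factorial : F) * g) ∈ nS (H : Set F) (m0 + 2) := by
    intro a ha
    rcases Nat.lt_or_ge a j0 with h | h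
    · exact nS_mono h0' (by omega) (hmin a h)
    · obtain ⟨i, rfl⟩ : ∃ i, a = i + 1 := ⟨a - 1, by omega⟩
      have h1 := nS_add (hmin i (by omega)) (oap_two (hprog n.factorial le_rfl))
      have h2 : ((i + 1 : ℕ) : F) * ((n.factorial : F) * g) =
          (i : F) * ((n.factorial : F) * g) + (n.factorial : F) * g := by push_cast; ring
      rw [h2]; exact h1
  refine ⟨_, hspec, fun M hM1 hMn => ?_⟩
  obtain ⟨d, hd⟩ := Nat.dvd_factorial hM1 hMn
  have hdF : (n.factorial : F) = (M : F) * (d : F) := by rw [hd]; push_cast; ring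
  refine ⟨(j0 : F) * (d : F) * g, by rw [hdF]; ring, fun j hj => ?_⟩
  have hNpos := n.factorial_pos
  have hdm := Nat.div_add_mod (j * (j0 * d)) n.factorial
  have hb : j * (j0 * d) % n.factorial < n.factorial := Nat.mod_lt _ hNpos
  have ha : j * (j0 * d) / n.factorial ≤ j0 := by
    apply Nat.div_le_of_le_mul
    calc j * (j0 * d) ≤ M * (j0 * d) := Nat.mul_le_mul_right _ hj
      _ = n.factorial * j0 := by rw [hd]; ring
  generalize j * (j0 * d) / n.factorial = a at hdm ha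
  generalize j * (j0 * d) % n.factorial = b at hdm hb
  have hc : (n.factorial : F) * (a : F) + (b : F) = (j : F) * ((j0 : F) * (d : F)) := by
    exact_mod_cast congrArg (Nat.cast : ℕ → F) hdm
  have h1 := nS_add (hle a ha) (oap_two (hprog b hb.le))
  have h2 : (j : F) * ((j0 : F) * (d : F) * g) =
      (a : F) * ((n.factorial : F) * g) + (b : F) * g := by linear_combination (-g) * hc
  rw [h2]; exact h1

end Pool.Agent.P.MP_862e21_al
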