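import Pool.Agent.P.MP_862e21_al.ODefs

namespace Pool.Agent.P.MP_862e21_al

open Finset Pointwise

variable {F : Type*} [Field F] [DecidableEq F]

omit [DecidableEq F] in
theorem sq_mul_iff [Fintype F] {a b : F} (ha : a ≠ 0) (hb : b ≠ 0) :
    IsSquare (a * b) ↔ (IsSquare a ↔ IsSquare b) := by
  classical
  rw [← quadraticChar_one_iff_isSquare (mul_ne_zero ha hb), ← quadraticChar_one_iff_isSquare ha,
    ← quadraticChar_one_iff_isSquare hb, map_mul]
  rcases quadraticChar_dichotomy ha with h1 | h1 <;>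
    rcases quadraticChar_dichotomy hb with h2 | h2 <;> rw [h1, h2] <;> decide

omit [DecidableEq F] in
theorem sq_inv_iff {a : F} : IsSquare a⁻¹ ↔ IsSquare a := by
  constructor
  · rintro ⟨r, hr⟩
    exact ⟨r⁻¹, by rw [← mul_inv, ← hr, inv_inv]⟩
  · rintro ⟨r, hr⟩
    exact ⟨r⁻¹, by rw [hr, mul_inv]⟩

omit [DecidableEq F] in
theorem sq_neg_iff [Fintype F] (h : ¬ IsSquare (-1 : F)) {a : F} (ha : a ≠ 0) :
    IsSquare (-a) ↔ ¬ IsSquare a := by
  have e : -a = (-1) * a := by ring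
  rw [e, sq_mul_iff (neg_ne_zero.mpr one_ne_zero) ha]
  tauto

omit [DecidableEq F] in
theorem Spl.c0 {c : F} (h : Spl c) : c ≠ 0 := by
  intro e
  exact h.n0 (e ▸ IsSquare.zero)

omit [DecidableEq F] in
theorem Spl.c1 {c : F} (h : Spl c) : c ≠ 1 := by
  intro e
  apply h.n1
  rw [e, sub_self]
  exact IsSquare.zero

omit [DecidableEq F] in
theorem Spl.flip {c : F} (h : Spl c) : Spl (1 - c) :=
  ⟨h.neg, h.n1, by rw [sub_sub_cancel]; exact h.n0, h.h3⟩

theorem Spl.of_mem [Fintype F] {c s : F} (h : Spl c) (hs : s ∈ Lp c) : Spl s := by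
  have c0 := h.c0
  have c1 : 1 - c ≠ 0 := sub_ne_zero.mpr h.c1.symm
  rcases mem_Lp.mp hs with e | e | e <;> subst e
  · exact h
  · refine ⟨h.neg, fun q => h.n1 (sq_inv_iff.mp q), ?_, h.h3⟩
    have e : 1 - (1 - c)⁻¹ = (-c) * (1 - c)⁻¹ := by field_simp; ring
    rw [e, sq_mul_iff (neg_ne_zero.mpr c0) (inv_ne_zero c1), sq_neg_iff h.neg c0, sq_inv_iff]
    have := h.n0
    have := h.n1
    tauto
  · refine ⟨h.neg, ?_, ?_, h.h3⟩
    · have e : (c - 1) / c = (-(1 - c)) * c⁻¹ := by field_simp; ring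
      rw [e, sq_mul_iff (neg_ne_zero.mpr c1) (inv_ne_zero c0), sq_neg_iff h.neg c1, sq_inv_iff]
      have := h.n0
      have := h.n1
      tauto
    · have e : 1 - (c - 1) / c = c⁻¹ := by field_simp; ring
      rw [e, sq_inv_iff]
      exact h.n0

theorem lp_rot {c s : F} (h0 : c ≠ 0) (h1 : c ≠ 1) (hs : s ∈ Lp c) :
    (1 - s)⁻¹ ∈ Lp c ∧ (s - 1) / s ∈ Lp c := by
  have h2 : 1 - c ≠ 0 := sub_ne_zero.mpr h1.symm
  have h3 : c - 1 ≠ 0 := sub_ne_zero.mpr h1
  rw [mem_Lp, mem_Lp]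
  rcases mem_Lp.mp hs with e | e | e <;> subst e
  · exact ⟨Or.inr (Or.inl rfl), Or.inr (Or.inr rfl)⟩
  · refine ⟨Or.inr (Or.inr ?_), Or.inl ?_⟩
    · have e : 1 - (1 - c)⁻¹ = c / (c - 1) := by field_simp; ring
      rw [e, inv_div]
    · field_simp; ring
  · refine ⟨Or.inl ?_, Or.inr (Or.inl ?_)⟩
    · have e : 1 - (c - 1) / c = c⁻¹ := by field_simp; ring
      rw [e, inv_inv]
    · field_simp; ring

theorem lam_iff_lp {c s : F} (h0 : c ≠ 0) (h1 : c ≠ 1) : s ∈ Lam c ↔ s ∈ Lp c ∨ 1 - s ∈ Lp c := by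
  have h2 : 1 - c ≠ 0 := sub_ne_zero.mpr h1.symm
  have h3 : c - 1 ≠ 0 := sub_ne_zero.mpr h1
  have sub : ∀ t, t ∈ Lp c → t ∈ Lam c := by
    intro t ht
    rw [mem_Lam]
    rcases mem_Lp.mp ht with e | e | e <;> simp [e]
  constructor
  · intro hs
    rw [mem_Lp, mem_Lp]
    rcases mem_Lam.mp hs with e | e | e | e | e | e <;> subst e
    · exact Or.inl (Or.inl rfl)
    · refine Or.inr (Or.inr (Or.inr ?_))
      field_simp
    · exact Or.inr (Or.inl (by ring))
    · exact Or.inl (Or.inr (Or.inl rfl))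
    · exact Or.inl (Or.inr (Or.inr rfl))
    · refine Or.inr (Or.inr (Or.inl ?_))
      field_simp; ring
  · rintro (hs | hs)
    · exact sub s hs
    · have := lam_one_sub h0 h1 (sub _ hs)
      rwa [sub_sub_cancel] at this

theorem OTrio.swap12 [Fintype F] {c : F} {B C D : Finset F} (h : OTrio c B C D) :
    OTrio c C B D := by
  have ne : ∀ y ∈ C, ∀ z ∈ B, z - y ≠ 0 := fun y hy z hz e =>
    disjoint_left.mp h.dBC hz (by rw [sub_eq_zero.mp e]; exact hy)
  refine ⟨h.spl, ?_, ?_, h.dBC.symm, h.dCD, h.dBD⟩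
  · intro s hs y hy z hz q
    have q' : ¬ IsSquare (y - z) := by
      rw [← neg_sub z y, sq_neg_iff h.spl.neg (ne y hy z hz)]
      exact fun t => t q
    have := h.ngt s hs z hz y hy q'
    rwa [add_comm] at this
  · intro s hs y hy z hz q
    have q' : IsSquare (y - z) := by
      rw [← neg_sub z y, sq_neg_iff h.spl.neg (ne y hy z hz)]
      exact q
    have := h.pos s hs z hz y hy q'
    rwa [add_comm] at this

theorem OTrio.swap23 [Fintype F] {c : F} {B C D : Finset F} (h : OTrio c B C D) :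
    OTrio c B D C := by
  have ne : ∀ y ∈ B, ∀ w ∈ D, w - y ≠ 0 := fun y hy w hw e =>
    disjoint_left.mp h.dBD hy (by rw [← sub_eq_zero.mp e]; exact hw)
  refine ⟨h.spl, ?_, ?_, h.dBD, h.dBC, h.dCD.symm⟩
  · intro s hs y hy w hw q hz
    have sp := h.spl.of_mem hs
    have s0 := sp.c0
    have e1 : (1 - s) * y + s * w - y = s * (w - y) := by ring
    have q' : ¬ IsSquare ((1 - s) * y + s * w - y) := by
      rw [e1, sq_mul_iff s0 (ne y hy w hw)]
      exact fun t => sp.n0 (t.mpr q)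
    have := h.ngt _ (lp_rot h.spl.c0 h.spl.c1 hs).2 y hy _ hz q'
    have e : (s - 1) / s * y + (1 - (s - 1) / s) * ((1 - s) * y + s * w) = w := by
      field_simp; ring
    rw [e] at this
    exact this hw
  · intro s hs y hy w hw q hz
    have sp := h.spl.of_mem hs
    have s1 : 1 - s ≠ 0 := sub_ne_zero.mpr sp.c1.symm
    have e1 : s * y + (1 - s) * w - y = (1 - s) * (w - y) := by ring
    have q' : IsSquare (s * y + (1 - s) * w - y) := by
      rw [e1, sq_mul_iff s1 (ne y hy w hw)]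
      exact ⟨fun t => absurd t sp.n1, fun t => absurd t q⟩
    have := h.pos _ (lp_rot h.spl.c0 h.spl.c1 hs).1 y hy _ hz q'
    have e : (1 - (1 - s)⁻¹) * y + (1 - s)⁻¹ * (s * y + (1 - s) * w) = w := by
      field_simp; ring
    rw [e] at this
    exact this hw

theorem obasic_vd_ne {c : F} {A B C : Finset F} (h : OCl c A B C) {x y z : F} (hx : x ∈ A)
    (hy : y ∈ B) (hz : z ∈ C) : Vd x y z ≠ 0 := by
  have a1 : x - y ≠ 0 := sub_ne_zero.mpr (fun e => disjoint_left.mp h.dAB hx (e ▸ hy))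
  have a2 : x - z ≠ 0 := sub_ne_zero.mpr (fun e => disjoint_left.mp h.dAC hx (e ▸ hz))
  have a3 : y - z ≠ 0 := sub_ne_zero.mpr (fun e => disjoint_left.mp h.dBC hy (e ▸ hz))
  exact mul_ne_zero (mul_ne_zero a1 a2) a3

theorem OCl.swap12 [Fintype F] {c : F} {A B C : Finset F} (h : OCl c A B C) : OCl c B A C := by
  have fl : ∀ x y z : F, Vd x y z = -Vd y x z := by intro x y z; unfold Vd; ring
  refine ⟨h.spl, h.nB, h.nA, h.nC, h.dAB.symm, h.dBC, h.dAC, ?_, ?_⟩
  · intro s hs x hx y hy z hz q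
    rw [fl, sq_neg_iff h.spl.neg (obasic_vd_ne h hy hx hz)] at q
    obtain ⟨p, hp, e⟩ := h.ngt _ (lp_rot h.spl.c0 h.spl.c1 hs).2 y hy x hx z hz q
    refine ⟨p, by rwa [union_comm B A], ?_⟩
    have s0 := (h.spl.of_mem hs).c0
    have e1 : s * (1 - (s - 1) / s) = 1 := by field_simp; ring
    linear_combination (-s) * e - (z - x) * (p - y) * e1
  · intro s hs x hx y hy z hz q
    rw [fl, sq_neg_iff h.spl.neg (obasic_vd_ne h hy hx hz), not_not] at q
    obtain ⟨p, hp, e⟩ := h.pos _ (lp_rot h.spl.c0 h.spl.c1 hs).1 y hy x hx z hz q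
    refine ⟨p, by rwa [union_comm B A], ?_⟩
    have s1 : 1 - s ≠ 0 := sub_ne_zero.mpr (h.spl.of_mem hs).c1.symm
    have e1 : (1 - s) * (1 - s)⁻¹ = 1 := mul_inv_cancel₀ s1
    linear_combination (-(1 - s)) * e - (z - x) * (p - y) * e1

theorem OCl.swap23 [Fintype F] {c : F} {A B C : Finset F} (h : OCl c A B C) : OCl c A C B := by
  have fl : ∀ x y z : F, Vd x y z = -Vd x z y := by intro x y z; unfold Vd; ring
  refine ⟨h.spl, h.nA, h.nC, h.nB, h.dAC, h.dAB, h.dBC.symm, ?_, ?_⟩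
  · intro s hs x hx y hy z hz q
    rw [fl, sq_neg_iff h.spl.neg (obasic_vd_ne h hx hz hy)] at q
    obtain ⟨p, hp, e⟩ := h.ngt s hs x hx z hz y hy q
    refine ⟨p, by rwa [union_right_comm A C B], ?_⟩
    linear_combination e
  · intro s hs x hx y hy z hz q
    rw [fl, sq_neg_iff h.spl.neg (obasic_vd_ne h hx hz hy), not_not] at q
    obtain ⟨p, hp, e⟩ := h.pos s hs x hx z hz y hy q
    refine ⟨p, by rwa [union_right_comm A C B], ?_⟩
    linear_combination e

theorem obasic_chart_mem {c : F} {A B C : Finset F} (h : OCl c A B C) {x y z p t : F}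
    (hx : x ∈ A) (hy : y ∈ B) (hz : z ∈ C) (hp : p ∈ A ∪ B ∪ C)
    (e : (p - y) * (z - x) = t * (z - y) * (p - x)) :
    (1 - t) * (y - x)⁻¹ + t * (z - x)⁻¹ ∈ ch x (A.erase x ∪ B ∪ C) := by
  have yx : y - x ≠ 0 := sub_ne_zero.mpr (fun e => disjoint_left.mp h.dAB hx (e ▸ hy))
  have zx : z - x ≠ 0 := sub_ne_zero.mpr (fun e => disjoint_left.mp h.dAC hx (e ▸ hz))
  have px : p - x ≠ 0 := by
    intro e0
    have : p = x := sub_eq_zero.mp e0
    rw [this] at e
    simp only [sub_self, mul_zero, mul_eq_zero] at e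
    rcases e with e | e
    · exact yx (by linear_combination -e)
    · exact zx e
  refine mem_ch.mpr ⟨p, ?_, ?_⟩
  · simp only [mem_union, mem_erase] at hp ⊢
    rcases hp with (hp | hp) | hp
    · exact Or.inl (Or.inl ⟨sub_ne_zero.mp px, hp⟩)
    · exact Or.inl (Or.inr hp)
    · exact Or.inr hp
  · field_simp
    linear_combination -e

theorem obasic_chart_sq [Fintype F] {c : F} {A B C : Finset F} (h : OCl c A B C) {x y z : F}
    (hx : x ∈ A) (hy : y ∈ B) (hz : z ∈ C) :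
    IsSquare ((z - x)⁻¹ - (y - x)⁻¹) ↔ IsSquare (Vd x y z) := by
  have yx : y - x ≠ 0 := sub_ne_zero.mpr (fun e => disjoint_left.mp h.dAB hx (e ▸ hy))
  have zx : z - x ≠ 0 := sub_ne_zero.mpr (fun e => disjoint_left.mp h.dAC hx (e ▸ hz))
  have m0 : ((y - x) * (z - x))⁻¹ ≠ 0 := inv_ne_zero (mul_ne_zero yx zx)
  have e : (z - x)⁻¹ - (y - x)⁻¹ =
      Vd x y z * (((y - x) * (z - x))⁻¹ * ((y - x) * (z - x))⁻¹) := by
    unfold Vd; field_simp; ring
  rw [e, sq_mul_iff (obasic_vd_ne h hx hy hz) (mul_ne_zero m0 m0)]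
  have : IsSquare (((y - x) * (z - x))⁻¹ * ((y - x) * (z - x))⁻¹) := ⟨_, rfl⟩
  tauto

/-- passing to the chart at a point of A -/
theorem OCl.chart [Fintype F] {c : F} {A B C : Finset F} (h : OCl c A B C) {x : F} (hx : x ∈ A) :
    ∃ D : Finset F, OTrio c (ch x B) (ch x C) D ∧
      Fintype.card F = B.card + C.card + D.card + (A.card - 1) := by
  have inj : Function.Injective (fun y : F => (y - x)⁻¹) := by
    intro a b h; simpa using h
  refine ⟨(ch x (A.erase x ∪ B ∪ C))ᶜ, ⟨h.spl, ?_, ?_, ?_, ?_, ?_⟩, ?_⟩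
  · intro s hs v hv w hw q
    obtain ⟨y, hy, rfl⟩ := mem_ch.mp hv
    obtain ⟨z, hz, rfl⟩ := mem_ch.mp hw
    rw [obasic_chart_sq h hx hy hz] at q
    obtain ⟨p, hp, e⟩ := h.pos s hs x hx y hy z hz q
    simp only [mem_compl, not_not]
    exact obasic_chart_mem h hx hy hz hp e
  · intro s hs v hv w hw q
    obtain ⟨y, hy, rfl⟩ := mem_ch.mp hv
    obtain ⟨z, hz, rfl⟩ := mem_ch.mp hw
    rw [obasic_chart_sq h hx hy hz] at q
    obtain ⟨p, hp, e⟩ := h.ngt s hs x hx y hy z hz q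
    simp only [mem_compl, not_not]
    have := obasic_chart_mem h hx hy hz hp e
    rwa [sub_sub_cancel] at this
  · exact (disjoint_image inj).mpr h.dBC
  · exact disjoint_left.mpr fun v hv hv' => mem_compl.mp hv'
      (image_subset_image (by intro a ha; simp [ha]) hv)
  · exact disjoint_left.mpr fun v hv hv' => mem_compl.mp hv'
      (image_subset_image (by intro a ha; simp [ha]) hv)
  · rw [card_compl, card_ch]
    have d1 : Disjoint (A.erase x) B := h.dAB.mono_left (erase_subset _ _)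
    have d2 : Disjoint (A.erase x ∪ B) C :=
      disjoint_union_left.mpr ⟨h.dAC.mono_left (erase_subset _ _), h.dBC⟩
    have e := card_le_univ (A.erase x ∪ B ∪ C)
    rw [card_union_of_disjoint d2, card_union_of_disjoint d1, card_erase_of_mem hx] at e ⊢
    omega

omit [DecidableEq F] in
theorem obasic_cube [Fintype F] (h3 : ∀ x : F, x ^ 2 - x + 1 ≠ 0) {g : F} (g0 : g ≠ 0) :
    ∃ m : ℕ, (g ^ 3) ^ m = g := by
  apply exists_pow_eq_self_of_coprime
  rw [Nat.Prime.coprime_iff_not_dvd Nat.prime_three]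
  rintro ⟨k, hk⟩
  have pos : 0 < orderOf g := by
    rw [orderOf_pos_iff, isOfFinOrder_iff_pow_eq_one]
    exact ⟨Fintype.card F - 1, by have := Fintype.one_lt_card (α := F); omega,
      FiniteField.pow_card_sub_one_eq_one g g0⟩
  have w1 : g ^ k ≠ 1 := pow_ne_one_of_lt_orderOf (by omega) (by omega)
  have w3 : (g ^ k) ^ 3 = 1 := by rw [← pow_mul, mul_comm, ← hk, pow_orderOf_eq_one]
  have e : (g ^ k - 1) * ((-g ^ k) ^ 2 - (-g ^ k) + 1) = 0 := by linear_combination w3
  rcases mul_eq_zero.mp e with e | e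
  · exact w1 (sub_eq_zero.mp e)
  · exact h3 _ e

theorem obasic_one [Fintype F] {c β : F} {C D : Finset F} (h : OTrio c {β} C D) (hg : Gen c)
    (hC : C.Nonempty) (hc : ∀ v, v ∉ D → v = β ∨ v ∈ C) : β + 1 ∈ C := by
  have sp := h.spl
  have c0 := sp.c0
  have c1 : 1 - c ≠ 0 := sub_ne_zero.mpr sp.c1.symm
  have c1' : c - 1 ≠ 0 := sub_ne_zero.mpr sp.c1
  have hβ : β ∈ ({β} : Finset F) := mem_singleton_self _
  have hne : ∀ v, β + v ∈ C → v ≠ 0 := by
    intro v hv e
    rw [e, add_zero] at hv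
    exact disjoint_left.mp h.dBC hβ hv
  have st1 : ∀ s ∈ Lp c, ∀ v, β + v ∈ C → IsSquare v → β + s * v ∈ C ∧ ¬ IsSquare (s * v) := by
    intro s hs v hv q
    have ss := sp.of_mem hs
    have e1 := h.pos s hs β hβ _ hv (by rwa [add_sub_cancel_left])
    have e2 : (1 - s) * β + s * (β + v) = β + s * v := by ring
    rw [e2] at e1
    refine ⟨(hc _ e1).resolve_left ?_, ?_⟩
    · intro e
      exact mul_ne_zero ss.c0 (hne v hv) (by linear_combination e)
    · rw [sq_mul_iff ss.c0 (hne v hv)]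
      exact fun t => ss.n0 (t.mpr q)
  have st2 : ∀ s ∈ Lp c, ∀ v, β + v ∈ C → ¬ IsSquare v →
      β + (1 - s) * v ∈ C ∧ IsSquare ((1 - s) * v) := by
    intro s hs v hv q
    have ss := sp.of_mem hs
    have s1 : 1 - s ≠ 0 := sub_ne_zero.mpr ss.c1.symm
    have e1 := h.ngt s hs β hβ _ hv (by rwa [add_sub_cancel_left])
    have e2 : s * β + (1 - s) * (β + v) = β + (1 - s) * v := by ring
    rw [e2] at e1
    refine ⟨(hc _ e1).resolve_left ?_, ?_⟩
    · intro e
      exact mul_ne_zero s1 (hne v hv) (by linear_combination e)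
    · rw [sq_mul_iff s1 (hne v hv)]
      exact ⟨fun t => absurd t ss.n1, fun t => absurd t q⟩
  set P : F → Prop := fun v => β + v ∈ C ∧ IsSquare v with hP
  have two : ∀ s ∈ Lp c, ∀ t ∈ Lp c, ∀ v, P v → P ((1 - t) * (s * v)) := by
    intro s hs t ht v hv
    obtain ⟨a1, a2⟩ := st1 s hs v hv.1 hv.2
    exact st2 t ht _ a1 a2
  have m1 : c ∈ Lp c := self_mem_Lp c
  have m2 : (1 - c)⁻¹ ∈ Lp c := by simp [Lp]
  have m3 : (c - 1) / c ∈ Lp c := by simp [Lp]
  have cube : ∀ v, P v → P ((-c) ^ 3 * v) := by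
    intro v hv
    have a := two c m1 _ m2 _ (two c m1 c m1 v hv)
    have e : (1 - (1 - c)⁻¹) * (c * ((1 - c) * (c * v))) = (-c) ^ 3 * v := by
      field_simp; ring
    rwa [e] at a
  have pw : ∀ m : ℕ, ∀ v, P v → P (((-c) ^ 3) ^ m * v) := by
    intro m
    induction m with
    | zero => intro v hv; simpa using hv
    | succ m ih =>
      intro v hv
      have a := cube _ (ih v hv)
      rwa [← mul_assoc, ← pow_succ'] at a
  obtain ⟨m, hm⟩ := obasic_cube sp.h3 (neg_ne_zero.mpr c0)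
  have g1 : ∀ v, P v → P (-c * v) := by
    intro v hv
    have a := pw m v hv
    rwa [hm] at a
  have g2 : ∀ v, P v → P ((c - 1) * v) := by
    intro v hv
    have a := g1 _ (g1 _ (two _ m3 _ m3 v hv))
    have e : -c * (-c * ((1 - (c - 1) / c) * ((c - 1) / c * v))) = (c - 1) * v := by
      field_simp; ring
    rwa [e] at a
  have ex : ∃ v, P v := by
    obtain ⟨z, hz⟩ := hC
    have hz' : β + (z - β) ∈ C := by rwa [add_sub_cancel]
    by_cases q : IsSquare (z - β)
    · exact ⟨_, hz', q⟩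
    · exact ⟨_, st2 c m1 _ hz' q⟩
  have key := hg {v | P v ∨ P (-v)}
    (by
      rintro v (hv | hv)
      · exact Or.inr (by rwa [neg_neg])
      · exact Or.inl hv)
    (by
      rintro v (hv | hv)
      · refine Or.inr ?_
        have a := g1 v hv
        rwa [neg_mul] at a
      · refine Or.inl ?_
        have a := g1 _ hv
        rwa [neg_mul_neg] at a)
    (by
      rintro v (hv | hv)
      · refine Or.inr ?_
        have a := g2 v hv
        have e : (c - 1) * v = -((1 - c) * v) := by ring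
        rwa [e] at a
      · refine Or.inl ?_
        have a := g2 _ hv
        have e : (c - 1) * -v = (1 - c) * v := by ring
        rwa [e] at a)
    (by
      obtain ⟨v, hv⟩ := ex
      exact ⟨v, Or.inl hv, hne v hv.1⟩)
    1 one_ne_zero
  rcases key with a | a
  · exact a.1
  · exact absurd a.2 sp.neg

/-- the case of two singletons -/
theorem osingle [Fintype F] {c : F} {A B C : Finset F} (h : OCl c A B C) (hg : Gen c)
    (ha : A.card = 1) (hb : B.card = 1) (hd : A.card + B.card + C.card ≤ Fintype.card F) :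
    False := by
  obtain ⟨x, hx⟩ := h.nA
  obtain ⟨D, hT, hu⟩ := h.chart hx
  have eB := card_ch x B
  have eC := card_ch x C
  have nC : (ch x C).Nonempty := by
    rw [← card_pos, eC]; exact h.nC.card_pos
  have nD : D.Nonempty := by
    rw [← card_pos]; omega
  obtain ⟨β, hβ⟩ := card_eq_one.mp (eB.trans hb)
  have hc : Dᶜ = ch x B ∪ ch x C := by
    symm
    apply eq_of_subset_of_card_le
    · intro v hv
      rw [mem_compl]
      rcases mem_union.mp hv with hv | hv
      · exact disjoint_left.mp hT.dBD hv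
      · exact disjoint_left.mp hT.dCD hv
    · rw [card_compl, card_union_of_disjoint hT.dBC]; omega
  rw [hβ] at hT hc
  have hc1 : ∀ v, v ∉ D → v = β ∨ v ∈ ch x C := by
    intro v hv
    have := mem_compl.mpr hv
    rwa [hc, mem_union, mem_singleton] at this
  have hc2 : ∀ v, v ∉ ch x C → v = β ∨ v ∈ D := by
    intro v hv
    by_cases q : v ∈ D
    · exact Or.inr q
    · exact Or.inl ((hc1 v q).resolve_right hv)
  exact disjoint_left.mp hT.dCD (obasic_one hT hg nC hc1) (obasic_one hT.swap23 hg nD hc2)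

end Pool.Agent.P.MP_862e21_al
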