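import Pool.Agent.P.MP_862e21_al.OBasic
import Pool.Agent.P.MP_862e21_al.Bridge2

namespace Pool.Agent.P.MP_862e21_al

open Finset Pointwise

variable {F : Type*} [Field F] [DecidableEq F]

open OnePoint

/-- the determinant is a square -/
def SqDet (M : GL (Fin 2) F) : Prop := IsSquare ((Matrix.GeneralLinearGroup.det M : Fˣ) : F)

theorem sqDet_mul [Fintype F] (M M' : GL (Fin 2) F) : SqDet (M * M') ↔ (SqDet M ↔ SqDet M') := by
  unfold SqDet
  rw [map_mul, Units.val_mul]
  exact sq_mul_iff (Units.ne_zero _) (Units.ne_zero _)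

theorem sqDet_inv (M : GL (Fin 2) F) : SqDet M⁻¹ ↔ SqDet M := by
  unfold SqDet
  rw [map_inv, Units.val_inv_eq_inv_val]
  exact sq_inv_iff

theorem sq_sl {M : GL (Fin 2) F} (h : SqDet M) :
    ∃ M' : GL (Fin 2) F, Matrix.GeneralLinearGroup.det M' = 1 ∧
      ∀ x : OnePoint F, M' • x = M • x := by
  have hd : (M : Matrix (Fin 2) (Fin 2) F).det ≠ 0 := M.det_ne_zero
  obtain ⟨r, hr⟩ := h
  rw [Matrix.GeneralLinearGroup.val_det_apply] at hr
  have r0 : r ≠ 0 := by
    rintro rfl
    exact hd (by simpa using hr)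
  have δ0 : r⁻¹ ≠ 0 := inv_ne_zero r0
  have e1 : (r⁻¹ • (M : Matrix (Fin 2) (Fin 2) F)).det = 1 := by
    rw [Matrix.det_smul, Fintype.card_fin, hr]
    field_simp
  generalize r⁻¹ = δ at δ0 e1
  refine ⟨Matrix.GeneralLinearGroup.mkOfDetNeZero (δ • (M : Matrix (Fin 2) (Fin 2) F))
    (by rw [e1]; exact one_ne_zero), ?_, ?_⟩
  · ext
    simpa using e1
  · intro x
    induction x using OnePoint.rec with
    | infty =>
      rw [smul_infty_eq_ite, smul_infty_eq_ite]
      simp [δ0, mul_div_mul_left _ _ δ0]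
    | coe k =>
      rw [smul_some_eq_ite, smul_some_eq_ite]
      have a1 : ∀ a b : F, δ * a * k + δ * b = δ * (a * k + b) := fun a b => by ring
      simp [δ0, a1, mul_div_mul_left _ _ δ0]

theorem obridge_mk {a b c d : F} (h : a * d - b * c ≠ 0) :
    ∃ M : GL (Fin 2) F, (SqDet M ↔ IsSquare (a * d - b * c)) ∧
      M • (∞ : OnePoint F) = (if c = 0 then ∞ else ((a / c : F) : OnePoint F)) ∧
      ∀ k : F, M • (k : OnePoint F) =
        if c * k + d = 0 then ∞ else (((a * k + b) / (c * k + d) : F) : OnePoint F) := by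
  refine ⟨Matrix.GeneralLinearGroup.mkOfDetNeZero !![a, b; c, d]
    (by simpa [Matrix.det_fin_two] using h), ?_, ?_, fun k => ?_⟩
  · unfold SqDet
    rw [Matrix.GeneralLinearGroup.val_det_apply]
    simp [Matrix.det_fin_two]
  · rw [smul_infty_eq_ite]; simp
  · rw [smul_some_eq_ite]; simp

theorem obridge_image [DecidableEq (OnePoint F)] (M M' : GL (Fin 2) F) (S : Finset (OnePoint F)) :
    (S.image (fun x => M' • x)).image (fun x => M • x) = S.image (fun x => (M * M') • x) := by
  rw [image_image]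
  congr 1
  funext v
  simp [mul_smul]

theorem base_flip [DecidableEq (OnePoint F)] (h : ¬ IsSquare (-1 : F)) (c : F) :
    ∃ V : GL (Fin 2) F, ¬ SqDet V ∧ base c = (base (1 - c)).image (fun x => V • x) := by
  obtain ⟨M, md, m1, m2⟩ := obridge_mk (a := (-1 : F)) (b := 1) (c := 0) (d := 1) (by simp)
  refine ⟨M, fun a => h (by simpa using md.mp a), ?_⟩
  ext v
  simp only [base, image_insert, image_singleton, m1, m2, mem_insert, mem_singleton]
  simp; tauto

theorem base_fix [Fintype F] [DecidableEq (OnePoint F)] (h : ¬ IsSquare (-1 : F)) {c : F}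
    (h0 : c ≠ 0) (h1 : c ≠ 1) (hs : IsSquare c ∨ IsSquare (1 - c)) :
    ∃ V : GL (Fin 2) F, ¬ SqDet V ∧ base c = (base c).image (fun x => V • x) := by
  have h2 : 1 - c ≠ 0 := sub_ne_zero.mpr h1.symm
  have h5 : c + -1 ≠ 0 := by rw [← sub_eq_add_neg]; exact sub_ne_zero.mpr h1
  rcases hs with hs | hs
  · obtain ⟨M, md, m1, m2⟩ := obridge_mk (a := (0 : F)) (b := c) (c := 1) (d := 0)
      (by simpa using h0)
    refine ⟨M, fun a => (sq_neg_iff h h0).mp (by simpa using md.mp a) hs, ?_⟩
    ext v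
    simp only [base, image_insert, image_singleton, m1, m2, mem_insert, mem_singleton]
    simp [h0]; tauto
  · have e : (1 : F) * -1 - -c * 1 = -(1 - c) := by ring
    obtain ⟨M, md, m1, m2⟩ := obridge_mk (a := (1 : F)) (b := -c) (c := 1) (d := -1)
      (by rw [e]; exact neg_ne_zero.mpr h2)
    rw [e] at md
    refine ⟨M, fun a => (sq_neg_iff h h2).mp (md.mp a) hs, ?_⟩
    ext v
    simp only [base, image_insert, image_singleton, m1, m2, mem_insert, mem_singleton]
    simp [h5]; tauto

theorem obridge_even [DecidableEq (OnePoint F)] {c s : F} (h0 : c ≠ 0) (h1 : c ≠ 1)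
    (hs : s ∈ Lp c) :
    ∃ M : GL (Fin 2) F, SqDet M ∧ base s = (base c).image (fun x => M • x) := by
  have h2 : 1 - c ≠ 0 := sub_ne_zero.mpr h1.symm
  have h4 : -c + 1 ≠ 0 := by rw [add_comm, ← sub_eq_add_neg]; exact h2
  rcases mem_Lp.mp hs with h | h | h <;> subst h
  · exact ⟨1, by simp [SqDet], by simp⟩
  · obtain ⟨M, md, m1, m2⟩ := obridge_mk (a := (0 : F)) (b := 1) (c := -1) (d := 1) (by simp)
    refine ⟨M, md.mpr (by simp), ?_⟩
    ext v
    simp only [base, image_insert, image_singleton, m1, m2, mem_insert, mem_singleton]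
    have : 1 - c = -c + 1 := by ring
    simp [this, h4]; tauto
  · obtain ⟨M, md, m1, m2⟩ := obridge_mk (a := (1 : F)) (b := -1) (c := 1) (d := 0) (by simp)
    refine ⟨M, md.mpr (by simp), ?_⟩
    ext v
    simp only [base, image_insert, image_singleton, m1, m2, mem_insert, mem_singleton]
    have : c - 1 = c + -1 := by ring
    simp [this, h0]; tauto

theorem obridge_odd [Fintype F] [DecidableEq (OnePoint F)] {c s : F} (h : Spl c)
    (hs : s ∈ Lp (1 - c)) :
    ∃ M : GL (Fin 2) F, ¬ SqDet M ∧ base s = (base c).image (fun x => M • x) := by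
  obtain ⟨M, qM, eM⟩ := obridge_even h.flip.c0 h.flip.c1 hs
  obtain ⟨V, qV, eV⟩ := base_flip h.neg (1 - c)
  rw [sub_sub_cancel] at eV
  refine ⟨M * V, fun a => qV (((sqDet_mul M V).mp a).mp qM), ?_⟩
  rw [eM, eV, obridge_image]

theorem obridge_frame [Fintype F] (hn : ¬ IsSquare (-1 : F)) {x y z : F} (hxy : x ≠ y)
    (hxz : x ≠ z) (hyz : y ≠ z) :
    ∃ M : GL (Fin 2) F, (SqDet M ↔ ¬ IsSquare (Vd x y z)) ∧
      M • (∞ : OnePoint F) = (x : OnePoint F) ∧
      M • ((0 : F) : OnePoint F) = (y : OnePoint F) ∧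
      M • ((1 : F) : OnePoint F) = (z : OnePoint F) ∧
      ∀ s p : F, M • (s : OnePoint F) = (p : OnePoint F) →
        (p - y) * (z - x) = s * (z - y) * (p - x) := by
  have a1 : z - y ≠ 0 := sub_ne_zero.mpr hyz.symm
  have a2 : x - z ≠ 0 := sub_ne_zero.mpr hxz
  have a3 : x - y ≠ 0 := sub_ne_zero.mpr hxy
  have a4 : Vd x y z ≠ 0 := mul_ne_zero (mul_ne_zero a3 a2) (sub_ne_zero.mpr hyz)
  have e : x * (z - y) * (x - z) - y * (x - z) * (z - y) = -Vd x y z := by unfold Vd; ring
  obtain ⟨M, md, m1, m2⟩ := obridge_mk (a := x * (z - y)) (b := y * (x - z)) (c := z - y)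
    (d := x - z) (by rw [e]; exact neg_ne_zero.mpr a4)
  rw [e, sq_neg_iff hn a4] at md
  refine ⟨M, md, ?_, ?_, ?_, ?_⟩
  · rw [m1, if_neg a1]; congr 1; field_simp
  · rw [m2, if_neg (by simpa using a2)]; congr 1
    simp only [mul_zero, zero_add]; field_simp
  · have : (z - y) * 1 + (x - z) = x - y := by ring
    rw [m2, this, if_neg a3]; congr 1; field_simp; ring
  · intro s p h
    rw [m2] at h
    split_ifs at h with h0
    · exact absurd h (infty_ne_coe p)
    · have e := coe_injective h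
      rw [div_eq_iff h0] at e
      linear_combination e

theorem obridge_move (w : OnePoint F) : ∃ N : GL (Fin 2) F, SqDet N ∧ N • w = ∞ := by
  induction w using OnePoint.rec with
  | infty => exact ⟨1, by simp [SqDet], one_smul _ _⟩
  | coe a =>
    obtain ⟨M, md, -, m2⟩ := obridge_mk (a := (0 : F)) (b := -1) (c := 1) (d := -a) (by simp)
    exact ⟨M, md.mpr (by simp), by simp [m2]⟩

theorem obridge_inf [Fintype F] [DecidableEq (OnePoint F)] {c : F} (h : Spl c)
    (hcore : ∀ A B C : Finset F, OCl (1 - c) A B C → A.card ≤ B.card → B.card ≤ C.card →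
      A.card + B.card + 2 * C.card ≤ Fintype.card F + 1 → False)
    {X Y Z W : Finset (OnePoint F)} (nX : X.Nonempty) (dXY : Disjoint X Y) (dXZ : Disjoint X Z)
    (dXW : Disjoint X W) (dYZ : Disjoint Y Z) (dYW : Disjoint Y W) (dZW : Disjoint Z W)
    (hall : ∀ v, v ∈ X ∨ v ∈ Y ∨ v ∈ Z ∨ v ∈ W) (cXY : X.card ≤ Y.card) (cYZ : Y.card ≤ Z.card)
    (cZW : Z.card ≤ W.card) (hinf : ∞ ∈ W) :
    ∃ M : GL (Fin 2) F, SqDet M ∧ (X ∩ (base c).image (fun x => M • x)).card = 1 ∧
      (Y ∩ (base c).image (fun x => M • x)).card = 1 ∧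
      (Z ∩ (base c).image (fun x => M • x)).card = 1 ∧
      (W ∩ (base c).image (fun x => M • x)).card = 1 := by
  by_contra hno
  have pre : ∀ T : Finset (OnePoint F), Disjoint T W →
      (univ.filter (fun a : F => (a : OnePoint F) ∈ T)).card = T.card := by
    intro T hT
    apply card_bij (fun (a : F) _ => (a : OnePoint F))
    · intro a ha; exact (mem_filter.mp ha).2
    · intro a _ b _ e; exact OnePoint.coe_injective e
    · intro v hv
      induction v using OnePoint.rec with
      | infty => exact absurd hinf (disjoint_left.mp hT hv)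
      | coe a => exact ⟨a, mem_filter.mpr ⟨mem_univ _, hv⟩, rfl⟩
  have dj : ∀ T T' : Finset (OnePoint F), Disjoint T T' →
      Disjoint (univ.filter (fun a : F => (a : OnePoint F) ∈ T))
        (univ.filter (fun a : F => (a : OnePoint F) ∈ T')) := by
    intro T T' h
    rw [disjoint_left]
    intro a ha ha'
    exact disjoint_left.mp h (mem_filter.mp ha).2 (mem_filter.mp ha').2
  have eX := pre X dXW
  have eY := pre Y dYW
  have eZ := pre Z dZW
  have x1 := nX.card_pos
  have htot : X.card + Y.card + Z.card + W.card ≤ Fintype.card F + 1 := by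
    have e := card_le_univ (X ∪ Y ∪ Z ∪ W)
    rw [card_union_of_disjoint (disjoint_union_left.mpr ⟨disjoint_union_left.mpr ⟨dXW, dYW⟩, dZW⟩),
      card_union_of_disjoint (disjoint_union_left.mpr ⟨dXZ, dYZ⟩),
      card_union_of_disjoint dXY] at e
    have e2 : Fintype.card (OnePoint F) = Fintype.card F + 1 := Fintype.card_option
    omega
  have key : ∀ (s : F) (M0 : GL (Fin 2) F), base s = (base c).image (fun x => M0 • x) →
      ∀ x ∈ univ.filter (fun a : F => (a : OnePoint F) ∈ X),
      ∀ y ∈ univ.filter (fun a : F => (a : OnePoint F) ∈ Y),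
      ∀ z ∈ univ.filter (fun a : F => (a : OnePoint F) ∈ Z),
      (SqDet M0 ↔ ¬ IsSquare (Vd x y z)) →
      ∃ p ∈ univ.filter (fun a : F => (a : OnePoint F) ∈ X) ∪
        univ.filter (fun a : F => (a : OnePoint F) ∈ Y) ∪
        univ.filter (fun a : F => (a : OnePoint F) ∈ Z),
        (p - y) * (z - x) = s * (z - y) * (p - x) := by
    intro s M0 hM0 x hx y hy z hz hq
    have hx' := (mem_filter.mp hx).2
    have hy' := (mem_filter.mp hy).2
    have hz' := (mem_filter.mp hz).2
    have xy : x ≠ y := fun e => disjoint_left.mp dXY hx' (e ▸ hy')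
    have xz : x ≠ z := fun e => disjoint_left.mp dXZ hx' (e ▸ hz')
    have yz : y ≠ z := fun e => disjoint_left.mp dYZ hy' (e ▸ hz')
    obtain ⟨M, md, m1, m2, m3, m4⟩ := obridge_frame h.neg xy xz yz
    have hsq : SqDet (M * M0) := (sqDet_mul M M0).mpr (md.trans hq.symm)
    clear md hq
    have hS : ∀ v, v ∈ (base c).image (fun x => (M * M0) • x) ↔
        v = (x : OnePoint F) ∨ v = (y : OnePoint F) ∨ v = (z : OnePoint F) ∨
          v = M • (s : OnePoint F) := by
      intro v
      have : (base c).image (fun x => (M * M0) • x) = (base s).image (fun x => M • x) := by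
        rw [hM0, image_image]
        congr 1
        funext v
        simp [mul_smul]
      rw [this]
      simp only [base, image_insert, image_singleton, mem_insert, mem_singleton, m1, m2, m3]
    have hW : M • (s : OnePoint F) ∉ W := by
      intro hw
      apply hno
      refine ⟨M * M0, hsq, ?_, ?_, ?_, ?_⟩
      · exact bridge2_one hx' (disjoint_right.mp dXY hy') (disjoint_right.mp dXZ hz')
          (disjoint_right.mp dXW hw) hS
      · exact bridge2_one hy' (disjoint_left.mp dXY hx') (disjoint_right.mp dYZ hz')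
          (disjoint_right.mp dYW hw) (fun v => (hS v).trans or_left_comm)
      · exact bridge2_one hz' (disjoint_left.mp dXZ hx') (disjoint_left.mp dYZ hy')
          (disjoint_right.mp dZW hw)
          (fun v => (hS v).trans ((or_congr_right or_left_comm).trans or_left_comm))
      · exact bridge2_one hw (disjoint_left.mp dXW hx') (disjoint_left.mp dYW hy')
          (disjoint_left.mp dZW hz') (fun v => (hS v).trans ((or_congr_right
          ((or_congr_right or_comm).trans or_left_comm)).trans or_left_comm))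
    have hp : ∃ p : F, M • (s : OnePoint F) = (p : OnePoint F) := by
      generalize M • (s : OnePoint F) = v at hW
      induction v using OnePoint.rec with
      | infty => exact absurd hinf hW
      | coe a => exact ⟨a, rfl⟩
    obtain ⟨p, hp⟩ := hp
    refine ⟨p, ?_, m4 s p hp⟩
    rw [hp] at hW
    simp only [mem_union, mem_filter, mem_univ, true_and]
    rcases hall (p : OnePoint F) with a | a | a | a
    · exact Or.inl (Or.inl a)
    · exact Or.inl (Or.inr a)
    · exact Or.inr a
    · exact absurd a hW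
  refine hcore _ _ _ ⟨h.flip, card_pos.mp (by rw [eX]; omega), card_pos.mp (by rw [eY]; omega),
    card_pos.mp (by rw [eZ]; omega), dj X Y dXY, dj X Z dXZ, dj Y Z dYZ, ?_, ?_⟩ (by omega)
    (by omega) (by omega)
  · intro s hs x hx y hy z hz hv
    obtain ⟨M0, q0, e0⟩ := obridge_odd h hs
    exact key s M0 e0 x hx y hy z hz ⟨fun a => absurd a q0, fun a => absurd hv a⟩
  · intro s hs x hx y hy z hz hv
    obtain ⟨M0, q0, e0⟩ := obridge_odd h hs
    obtain ⟨V, qV, eV⟩ := base_flip h.neg (1 - s)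
    rw [sub_sub_cancel] at eV
    refine key (1 - s) (V * M0) ?_ x hx y hy z hz
      ⟨fun _ => hv, fun _ => (sqDet_mul V M0).mpr ⟨fun a => absurd a qV, fun a => absurd a q0⟩⟩
    rw [eV, e0, obridge_image]

theorem obridge_gen [Fintype F] [DecidableEq (OnePoint F)] {c : F} (h : Spl c)
    (hcore : ∀ A B C : Finset F, OCl (1 - c) A B C → A.card ≤ B.card → B.card ≤ C.card →
      A.card + B.card + 2 * C.card ≤ Fintype.card F + 1 → False)
    {X Y Z W : Finset (OnePoint F)} (nX : X.Nonempty) (dXY : Disjoint X Y) (dXZ : Disjoint X Z)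
    (dXW : Disjoint X W) (dYZ : Disjoint Y Z) (dYW : Disjoint Y W) (dZW : Disjoint Z W)
    (hall : ∀ v, v ∈ X ∨ v ∈ Y ∨ v ∈ Z ∨ v ∈ W) (cXY : X.card ≤ Y.card) (cYZ : Y.card ≤ Z.card)
    (cZW : Z.card ≤ W.card) :
    ∃ M : GL (Fin 2) F, SqDet M ∧ (X ∩ (base c).image (fun x => M • x)).card = 1 ∧
      (Y ∩ (base c).image (fun x => M • x)).card = 1 ∧
      (Z ∩ (base c).image (fun x => M • x)).card = 1 ∧
      (W ∩ (base c).image (fun x => M • x)).card = 1 := by
  have x1 := nX.card_pos
  obtain ⟨w, hw⟩ : W.Nonempty := card_pos.mp (by omega)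
  obtain ⟨N, qN, hN⟩ := obridge_move w
  have inj : Function.Injective (fun v : OnePoint F => N • v) := MulAction.injective N
  have cd : ∀ T : Finset (OnePoint F), (T.image (fun v => N • v)).card = T.card :=
    fun T => card_image_of_injective _ inj
  obtain ⟨M, qM, m1, m2, m3, m4⟩ := obridge_inf h hcore (X := X.image (fun v => N • v))
    (Y := Y.image (fun v => N • v)) (Z := Z.image (fun v => N • v))
    (W := W.image (fun v => N • v)) (nX.image _) ((disjoint_image inj).mpr dXY)
    ((disjoint_image inj).mpr dXZ) ((disjoint_image inj).mpr dXW) ((disjoint_image inj).mpr dYZ)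
    ((disjoint_image inj).mpr dYW) ((disjoint_image inj).mpr dZW)
    (by
      intro v
      have e : v = N • (N⁻¹ • v) := by simp
      rcases hall (N⁻¹ • v) with h | h | h | h
      · exact Or.inl (mem_image.mpr ⟨_, h, e.symm⟩)
      · exact Or.inr (Or.inl (mem_image.mpr ⟨_, h, e.symm⟩))
      · exact Or.inr (Or.inr (Or.inl (mem_image.mpr ⟨_, h, e.symm⟩)))
      · exact Or.inr (Or.inr (Or.inr (mem_image.mpr ⟨_, h, e.symm⟩))))
    (by rw [cd, cd]; exact cXY) (by rw [cd, cd]; exact cYZ) (by rw [cd, cd]; exact cZW)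
    (mem_image.mpr ⟨w, hw, hN⟩)
  have key : ∀ T : Finset (OnePoint F), (T ∩ (base c).image (fun x => (N⁻¹ * M) • x)).card =
      (T.image (fun v => N • v) ∩ (base c).image (fun x => M • x)).card := by
    intro T
    rw [← cd, image_inter _ _ inj, image_image]
    congr 3
    funext v
    simp [mul_smul]
  exact ⟨N⁻¹ * M, (sqDet_mul _ _).mpr ⟨fun _ => qM, fun _ => (sqDet_inv N).mpr qN⟩,
    by rw [key, m1], by rw [key, m2], by rw [key, m3], by rw [key, m4]⟩

theorem orainbow [Fintype F] [DecidableEq (OnePoint F)] {c : F} (h : Spl c)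
    (hcore : ∀ A B C : Finset F, OCl (1 - c) A B C → A.card ≤ B.card → B.card ≤ C.card →
      A.card + B.card + 2 * C.card ≤ Fintype.card F + 1 → False)
    (P : Finpartition (univ : Finset (OnePoint F))) (hP : P.parts.card = 4) :
    ∃ M : GL (Fin 2) F, SqDet M ∧
      ∀ X ∈ P.parts, (X ∩ (base c).image (fun x => M • x)).card = 1 := by
  obtain ⟨W, hW, mW⟩ := exists_max_image P.parts card (card_pos.mp (by omega))
  have c3 : (P.parts.erase W).card = 3 := by rw [card_erase_of_mem hW, hP]
  obtain ⟨Z, hZ, mZ⟩ := exists_max_image (P.parts.erase W) card (card_pos.mp (by omega))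
  have c2 : ((P.parts.erase W).erase Z).card = 2 := by rw [card_erase_of_mem hZ, c3]
  obtain ⟨Y, hY, mY⟩ := exists_max_image ((P.parts.erase W).erase Z) card (card_pos.mp (by omega))
  have c1 : (((P.parts.erase W).erase Z).erase Y).card = 1 := by rw [card_erase_of_mem hY, c2]
  obtain ⟨X, hX1⟩ := card_eq_one.mp c1
  have hX : X ∈ ((P.parts.erase W).erase Z).erase Y := by rw [hX1]; exact mem_singleton_self _
  have hpart : ∀ T ∈ P.parts, T = X ∨ T = Y ∨ T = Z ∨ T = W := by
    intro T hT
    by_contra hc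
    push Not at hc
    have : T ∈ ((P.parts.erase W).erase Z).erase Y := by
      simp only [mem_erase]; exact ⟨hc.2.1, hc.2.2.1, hc.2.2.2, hT⟩
    rw [hX1, mem_singleton] at this
    exact hc.1 this
  have hX' := hX
  have hY' := hY
  have hZ' := hZ
  simp only [mem_erase] at hX' hY' hZ'
  have dj : ∀ {S T : Finset (OnePoint F)}, S ∈ P.parts → T ∈ P.parts → S ≠ T → Disjoint S T :=
    fun hS hT hne => P.disjoint hS hT hne
  obtain ⟨M, qM, m1, m2, m3, m4⟩ := obridge_gen h hcore (X := X) (Y := Y) (Z := Z) (W := W)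
    (P.nonempty_of_mem_parts hX'.2.2.2) (dj hX'.2.2.2 hY'.2.2 hX'.1)
    (dj hX'.2.2.2 hZ'.2 hX'.2.1) (dj hX'.2.2.2 hW hX'.2.2.1) (dj hY'.2.2 hZ'.2 hY'.1)
    (dj hY'.2.2 hW hY'.2.1) (dj hZ'.2 hW hZ'.1)
    (by
      intro v
      obtain ⟨T, hT, hv⟩ := P.exists_mem (mem_univ v)
      rcases hpart T hT with rfl | rfl | rfl | rfl <;> tauto)
    (mY X (mem_of_mem_erase hX)) (mZ Y (mem_of_mem_erase hY)) (mW Z (mem_of_mem_erase hZ))
  refine ⟨M, qM, fun T hT => ?_⟩
  rcases hpart T hT with rfl | rfl | rfl | rfl <;> assumption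

end Pool.Agent.P.MP_862e21_al
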