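import Pool.Agent.P.MP_862e21_al.ODefs

namespace Pool.Agent.P.MP_862e21_al

open Finset Pointwise

variable {F : Type*} [Field F] [DecidableEq F]

section obsgAux

set_option linter.unusedSectionVars false

variable {G : Type} [AddCommGroup G] [Fintype G] [DecidableEq G]

/-- The number of representations `x = -a + b`. -/
noncomputable def obsg_rq (A : Finset G) (x : G) : ℝ := (card {p ∈ A ×ˢ A | -p.1 + p.2 = x})

/-- The additive energy. -/
noncomputable def obsg_en (A : Finset G) : ℝ := ∑ x, obsg_rq A x ^ 2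

/-- indicator function -/
noncomputable def obsg_bi (A : Finset G) (x : G) : ℝ := if x ∈ A then 1 else 0

theorem obsg_bi_nonneg (A : Finset G) (x : G) : 0 ≤ obsg_bi A x := by
  unfold obsg_bi
  split_ifs <;> norm_num

theorem obsg_bi_le (A : Finset G) (x : G) : obsg_bi A x ≤ 1 := by
  unfold obsg_bi
  split_ifs <;> norm_num

theorem obsg_bsum_i (A : Finset G) : ∑ x, obsg_bi A x = A.card := by
  simp [obsg_bi]

theorem obsg_bcard (A : Finset G) (φ : G → G) :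
    ((card {a ∈ A | φ a ∈ A}) : ℝ) = ∑ a, obsg_bi A a * obsg_bi A (φ a) := by
  rw [card_eq_sum_ones, Nat.cast_sum, sum_filter, ← sum_subset (subset_univ A)]
  · refine sum_congr rfl fun a ha => ?_
    simp [obsg_bi, ha]
  · intro a _ ha
    simp [obsg_bi, ha]

theorem obsg_brq (A : Finset G) (x : G) : obsg_rq A x = ∑ a, obsg_bi A a * obsg_bi A (a + x) := by
  rw [← obsg_bcard A (fun a => a + x)]
  unfold obsg_rq
  congr 1
  refine card_bij' (fun p _ => p.1) (fun a _ => (a, a + x)) ?_ ?_ ?_ ?_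
  · intro p hp
    simp only [mem_filter, mem_product] at hp ⊢
    refine ⟨hp.1.1, ?_⟩
    rw [← hp.2, add_neg_cancel_left]
    exact hp.1.2
  · intro a ha
    simp only [mem_filter, mem_product] at ha ⊢
    exact ⟨ha, neg_add_cancel_left _ _⟩
  · intro p hp
    simp only [mem_filter, mem_product] at hp
    rw [← hp.2, add_neg_cancel_left]
  · intro a _
    rfl

theorem obsg_bl (f : G → ℝ) (a : G) : ∑ c, f (a + c) = ∑ c, f c :=
  Equiv.sum_comp (Equiv.addLeft a) f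

theorem obsg_br (f : G → ℝ) (a : G) : ∑ s, f (-s + a) = ∑ s, f s :=
  ((Equiv.neg G).trans (Equiv.addRight a)).sum_comp f

theorem obsg_en_eq (A : Finset G) : obsg_en A = ∑ s : G, ((card {a ∈ A | -s + a ∈ A}) : ℝ) ^ 2 := by
  unfold obsg_en
  simp only [obsg_brq, obsg_bcard A (fun a => -_ + a), sq, sum_mul_sum]
  rw [sum_comm]
  conv_rhs => rw [sum_comm]
  refine sum_congr rfl fun a _ => ?_
  rw [sum_comm, ← obsg_br _ a]
  refine sum_congr rfl fun s _ => ?_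
  rw [← obsg_bl _ (-a)]
  refine sum_congr rfl fun c _ => ?_
  rw [add_neg_cancel_left, add_assoc (-s), add_neg_cancel_left]
  ring

theorem obsg_sum_inter (A : Finset G) : ∑ s : G, ((card {a ∈ A | -s + a ∈ A}) : ℝ) = (A.card : ℝ) ^ 2 := by
  simp only [obsg_bcard A (fun a => -_ + a)]
  rw [sum_comm]
  simp only [← mul_sum, obsg_br (obsg_bi A), obsg_bsum_i]
  rw [← sum_mul, obsg_bsum_i, sq]

theorem obsg_cnonneg (A : Finset G) (x : G) : 0 ≤ obsg_rq A x := Nat.cast_nonneg _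

theorem obsg_cinv (A : Finset G) (x : G) : obsg_rq A (-x) = obsg_rq A x := by
  unfold obsg_rq
  congr 1
  refine card_nbij' Prod.swap Prod.swap (fun p hp => ?_) (fun p hp => ?_) (fun _ _ => rfl)
    fun _ _ => rfl
  · simp only [coe_filter, mem_product, Set.mem_ofPred_eq, Prod.fst_swap, Prod.snd_swap] at hp ⊢
    refine ⟨⟨hp.1.2, hp.1.1⟩, ?_⟩
    rw [← neg_neg x, ← hp.2]
    abel
  · simp only [coe_filter, mem_product, Set.mem_ofPred_eq, Prod.fst_swap, Prod.snd_swap] at hp ⊢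
    refine ⟨⟨hp.1.2, hp.1.1⟩, ?_⟩
    rw [← hp.2]
    abel

theorem obsg_csum (A : Finset G) : ∑ x, obsg_rq A x = (A.card : ℝ) ^ 2 := by
  have h := card_eq_sum_card_fiberwise (s := A ×ˢ A) (t := univ) (f := fun p => -p.1 + p.2)
    fun _ _ => mem_coe.2 (mem_univ _)
  rw [card_product] at h
  unfold obsg_rq
  rw [← Nat.cast_sum, ← h]
  push_cast
  ring

theorem obsg_cpair (A : Finset G) (x y : G) :
    ((card {s : G | -s + x ∈ A ∧ -s + y ∈ A}) : ℝ) ≤ obsg_rq A (-x + y) := by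
  unfold obsg_rq
  refine Nat.cast_le.2 (card_le_card_of_injOn (fun s => (-s + x, -s + y)) (fun s hs => ?_)
    fun s _ t _ hst => ?_)
  · simp only [coe_filter, mem_product, Set.mem_ofPred_eq, mem_univ, true_and] at hs ⊢
    refine ⟨hs, ?_⟩
    abel
  · exact neg_injective (add_right_cancel (Prod.mk.inj hst).1)

theorem obsg_cbad {A : Finset G} (hA : A.Nonempty) {θ : ℝ} (hθ : 0 < θ) :
    ∑ s : G, ((card {p ∈ {a ∈ A | -s + a ∈ A} ×ˢ {a ∈ A | -s + a ∈ A} |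
      obsg_rq A (-p.1 + p.2) < θ}) : ℝ) < (A.card : ℝ) ^ 2 * θ := by
  have h1 : ∀ s : G, ((card {p ∈ {a ∈ A | -s + a ∈ A} ×ˢ {a ∈ A | -s + a ∈ A} |
      obsg_rq A (-p.1 + p.2) < θ}) : ℝ) = ∑ p ∈ A ×ˢ A,
        if obsg_rq A (-p.1 + p.2) < θ ∧ -s + p.1 ∈ A ∧ -s + p.2 ∈ A then (1 : ℝ) else 0 := by
    intro s
    rw [sum_boole]
    congr 2
    ext p
    simp only [mem_filter, mem_product]
    tauto
  simp only [h1]
  rw [sum_comm]
  have h2 : (A.card : ℝ) ^ 2 * θ = ∑ _p ∈ A ×ˢ A, θ := by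
    rw [sum_const, card_product, nsmul_eq_mul]
    push_cast
    ring
  rw [h2]
  refine sum_lt_sum_of_nonempty (hA.product hA) fun p _ => ?_
  by_cases hp : obsg_rq A (-p.1 + p.2) < θ
  · simp only [hp, true_and]
    rw [sum_boole]
    exact (obsg_cpair A p.1 p.2).trans_lt hp
  · simp only [hp, false_and, if_false, sum_const_zero]
    exact hθ

theorem obsg_bsg_one {A : Finset G} (hA : A.Nonempty) {K : ℝ} (hK : 1 ≤ K) (h : (A.card : ℝ) ^ 3 ≤ K * obsg_en A) :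
    ∃ X ⊆ A, (A.card : ℝ) ≤ 2 * K * X.card ∧
      16 * ((card {p ∈ X ×ˢ X | obsg_rq A (-p.1 + p.2) < A.card / (32 * K ^ 2)}) : ℝ) ≤ (X.card : ℝ) ^ 2 := by
  by_contra hcon
  have ha : (0 : ℝ) < A.card := by exact_mod_cast hA.card_pos
  have hK0 : 0 < K := by linarith
  have hθ : 0 < (A.card : ℝ) / (32 * K ^ 2) := by positivity
  have h1 : ∀ s : G, ((card {a ∈ A | -s + a ∈ A}) : ℝ) ^ 2 ≤
      A.card / (2 * K) * ((card {a ∈ A | -s + a ∈ A}) : ℝ) +
        16 * ((card {p ∈ {a ∈ A | -s + a ∈ A} ×ˢ {a ∈ A | -s + a ∈ A} |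
          obsg_rq A (-p.1 + p.2) < A.card / (32 * K ^ 2)}) : ℝ) := by
    intro s
    by_contra h2
    rw [not_le] at h2
    refine hcon ⟨{a ∈ A | -s + a ∈ A}, filter_subset _ _, ?_, ?_⟩
    · by_contra h3
      rw [not_le] at h3
      have h4 : ((card {a ∈ A | -s + a ∈ A}) : ℝ) ≤ A.card / (2 * K) := by
        rw [le_div_iff₀ (by positivity)]
        linarith
      have h5 := mul_le_mul_of_nonneg_right h4 (Nat.cast_nonneg (α := ℝ) (card {a ∈ A | -s + a ∈ A}))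
      have h6 := Nat.cast_nonneg (α := ℝ) (card {p ∈ {a ∈ A | -s + a ∈ A} ×ˢ {a ∈ A | -s + a ∈ A} |
          obsg_rq A (-p.1 + p.2) < A.card / (32 * K ^ 2)})
      nlinarith
    · have h5 : 0 ≤ A.card / (2 * K) * ((card {a ∈ A | -s + a ∈ A}) : ℝ) := by positivity
      linarith
  have h2 := sum_le_sum fun s (_ : s ∈ (univ : Finset G)) => h1 s
  rw [sum_add_distrib, ← mul_sum, ← mul_sum, ← obsg_en_eq, obsg_sum_inter] at h2
  have h3 := obsg_cbad hA hθ
  have h4 : obsg_en A < A.card / (2 * K) * (A.card : ℝ) ^ 2 + 16 * ((A.card : ℝ) ^ 2 * (A.card / (32 * K ^ 2))) := by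
    linarith
  have h5 := mul_lt_mul_of_pos_left h4 hK0
  have h6 : K * (A.card / (2 * K) * (A.card : ℝ) ^ 2 + 16 * ((A.card : ℝ) ^ 2 * (A.card / (32 * K ^ 2)))) =
      (A.card : ℝ) ^ 3 / 2 + (A.card : ℝ) ^ 3 / 2 / K := by
    field_simp
    ring
  have h7 : (A.card : ℝ) ^ 3 / 2 / K ≤ (A.card : ℝ) ^ 3 / 2 := div_le_self (by positivity) hK
  linarith

theorem obsg_cconv (A : Finset G) :
    ∑ g : G, ∑ u : G, obsg_rq A u * obsg_rq A (-u + g) = (A.card : ℝ) ^ 4 := by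
  rw [sum_comm]
  have h : ∀ u : G, ∑ g : G, obsg_rq A u * obsg_rq A (-u + g) = obsg_rq A u * (A.card : ℝ) ^ 2 := by
    intro u
    rw [← mul_sum, ← obsg_csum]
    congr 1
    exact Equiv.sum_comp (Equiv.addLeft (-u)) (obsg_rq A)
  simp only [h]
  rw [← sum_mul, obsg_csum]
  ring

theorem obsg_crep {A X : Finset G} {θ : ℝ} (hθ : 0 ≤ θ) {x y : G}
    (hx : 4 * ((card {z ∈ X | obsg_rq A (-x + z) < θ}) : ℝ) ≤ X.card)
    (hy : 4 * ((card {z ∈ X | obsg_rq A (-y + z) < θ}) : ℝ) ≤ X.card) :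
    (X.card : ℝ) / 2 * θ ^ 2 ≤ ∑ u : G, obsg_rq A u * obsg_rq A (-u + (-x + y)) := by
  set Z := {z ∈ X | θ ≤ obsg_rq A (-x + z) ∧ θ ≤ obsg_rq A (-y + z)} with hZ
  have h1 : X.card ≤ Z.card + ((card {z ∈ X | obsg_rq A (-x + z) < θ}) + (card {z ∈ X | obsg_rq A (-y + z) < θ})) := by
    refine le_trans (card_le_card (fun z hz => ?_))
      ((card_union_le _ _).trans (Nat.add_le_add_left (card_union_le _ _) _))
    simp only [hZ, mem_union, mem_filter]
    by_cases h2 : obsg_rq A (-x + z) < θ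
    · exact Or.inr (Or.inl ⟨hz, h2⟩)
    · by_cases h3 : obsg_rq A (-y + z) < θ
      · exact Or.inr (Or.inr ⟨hz, h3⟩)
      · exact Or.inl ⟨hz, not_lt.1 h2, not_lt.1 h3⟩
  have h2 : (X.card : ℝ) / 2 ≤ Z.card := by
    have := (Nat.cast_le (α := ℝ)).2 h1
    push_cast at this
    linarith
  rw [← Equiv.sum_comp (Equiv.addLeft (-x)) fun u => obsg_rq A u * obsg_rq A (-u + (-x + y))]
  calc (X.card : ℝ) / 2 * θ ^ 2 ≤ Z.card * θ ^ 2 := mul_le_mul_of_nonneg_right h2 (sq_nonneg _)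
    _ = ∑ _z ∈ Z, θ ^ 2 := by rw [sum_const, nsmul_eq_mul]
    _ ≤ ∑ z ∈ Z, obsg_rq A (-x + z) * obsg_rq A (-(-x + z) + (-x + y)) := by
        refine sum_le_sum fun z hz => ?_
        obtain ⟨-, h3, h4⟩ := mem_filter.1 hz
        have e : -(-x + z) + (-x + y) = -(-y + z) := by abel
        rw [e, obsg_cinv, sq]
        exact mul_le_mul h3 h4 hθ (obsg_cnonneg _ _)
    _ ≤ _ := sum_le_sum_of_subset_of_nonneg (subset_univ _) fun z _ _ =>
        mul_nonneg (obsg_cnonneg _ _) (obsg_cnonneg _ _)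

theorem obsg_core {A : Finset G} (hA : A.Nonempty) {K : ℝ} (hK : 1 ≤ K) (h : (A.card : ℝ) ^ 3 ≤ K * obsg_en A) :
    ∃ B ⊆ A, (A.card : ℝ) ≤ 4 * K * B.card ∧ ((-B + B).card : ℝ) ≤ 2 ^ 14 * K ^ 6 * B.card := by
  obtain ⟨X, hXA, hX, hbad⟩ := obsg_bsg_one hA hK h
  have ha : (0 : ℝ) < A.card := by exact_mod_cast hA.card_pos
  have hK0 : 0 < K := by linarith
  set θ : ℝ := A.card / (32 * K ^ 2) with hθ
  have hθ0 : 0 < θ := by positivity
  have hn : (0 : ℝ) < X.card := by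
    by_contra h1
    have h2 : 2 * K * (X.card : ℝ) ≤ 0 := mul_nonpos_of_nonneg_of_nonpos (by positivity) (not_lt.1 h1)
    linarith
  set B := {x ∈ X | 4 * ((card {z ∈ X | obsg_rq A (-x + z) < θ}) : ℝ) ≤ X.card} with hB
  set C := {x ∈ X | ¬ 4 * ((card {z ∈ X | obsg_rq A (-x + z) < θ}) : ℝ) ≤ X.card} with hC
  have h1 : (B.card : ℝ) + C.card = X.card := by
    exact_mod_cast card_filter_add_card_filter_not (s := X) _
  have h2 : ((card {p ∈ X ×ˢ X | obsg_rq A (-p.1 + p.2) < θ}) : ℝ) =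
      ∑ x ∈ X, ((card {z ∈ X | obsg_rq A (-x + z) < θ}) : ℝ) := by
    rw [← sum_boole, sum_product]
    refine sum_congr rfl fun x _ => ?_
    rw [sum_boole]
  have h3 : (C.card : ℝ) * X.card ≤ 4 * ∑ x ∈ X, ((card {z ∈ X | obsg_rq A (-x + z) < θ}) : ℝ) := by
    rw [mul_sum]
    calc (C.card : ℝ) * X.card = ∑ _x ∈ C, (X.card : ℝ) := by rw [sum_const, nsmul_eq_mul]
      _ ≤ ∑ x ∈ C, 4 * ((card {z ∈ X | obsg_rq A (-x + z) < θ}) : ℝ) :=
          sum_le_sum fun x hx => (not_le.1 (mem_filter.1 hx).2).le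
      _ ≤ _ := sum_le_sum_of_subset_of_nonneg (filter_subset _ _) fun x _ _ => by positivity
  have h4 : 4 * (C.card : ℝ) ≤ X.card := by
    rw [h2] at hbad
    refine le_of_mul_le_mul_right ?_ hn
    nlinarith
  have h5 : 3 * (X.card : ℝ) ≤ 4 * B.card := by linarith
  refine ⟨B, (filter_subset _ _).trans hXA, ?_, ?_⟩
  · nlinarith
  · have h6 : ((-B + B).card : ℝ) * ((X.card : ℝ) / 2 * θ ^ 2) ≤ (A.card : ℝ) ^ 4 := by
      rw [← obsg_cconv]
      calc ((-B + B).card : ℝ) * ((X.card : ℝ) / 2 * θ ^ 2) = ∑ _g ∈ -B + B, (X.card : ℝ) / 2 * θ ^ 2 := by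
            rw [sum_const, nsmul_eq_mul]
        _ ≤ ∑ g ∈ -B + B, ∑ u : G, obsg_rq A u * obsg_rq A (-u + g) := by
            refine sum_le_sum fun g hg => ?_
            obtain ⟨x', hx', y, hy, rfl⟩ := mem_add.1 hg
            obtain ⟨x, hx, rfl⟩ := mem_neg.1 hx'
            exact obsg_crep hθ0.le (mem_filter.1 hx).2 (mem_filter.1 hy).2
        _ ≤ _ := sum_le_sum_of_subset_of_nonneg (subset_univ _) fun g _ _ =>
            sum_nonneg fun u _ => mul_nonneg (obsg_cnonneg _ _) (obsg_cnonneg _ _)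
    have h7 : (A.card : ℝ) ^ 4 = 2048 * K ^ 4 * (A.card : ℝ) ^ 2 / X.card * ((X.card : ℝ) / 2 * θ ^ 2) := by
      rw [hθ]
      field_simp
      ring
    rw [h7] at h6
    have h8 := le_of_mul_le_mul_right h6 (by positivity)
    refine h8.trans ?_
    rw [div_le_iff₀ hn]
    have h9 : (A.card : ℝ) ^ 2 ≤ (2 * K * X.card) ^ 2 := pow_le_pow_left₀ ha.le hX 2
    have h10 : (X.card : ℝ) ≤ 2 * B.card := by linarith
    calc 2048 * K ^ 4 * (A.card : ℝ) ^ 2 ≤ 2048 * K ^ 4 * (2 * K * X.card) ^ 2 := by gcongr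
      _ = 8192 * K ^ 6 * X.card * X.card := by ring
      _ ≤ 8192 * K ^ 6 * (2 * B.card) * X.card := by gcongr
      _ = 2 ^ 14 * K ^ 6 * B.card * X.card := by ring

theorem obsg_energy (A : Finset G) : (Finset.addEnergy A A : ℝ) ≤ obsg_en A := by
  unfold obsg_en obsg_rq Finset.addEnergy
  rw [card_eq_sum_card_fiberwise (t := univ) (f := fun q : (G × G) × G × G => -q.1.1 + q.1.2)
    fun _ _ => mem_coe.2 (mem_univ _), Nat.cast_sum]
  refine sum_le_sum fun x _ => ?_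
  rw [sq, ← Nat.cast_mul, ← card_product]
  refine Nat.cast_le.2 (card_le_card_of_injOn (fun q => (q.1, q.2.swap)) (fun q hq => ?_)
    fun q _ r _ hqr => ?_)
  · simp only [coe_filter, mem_filter, mem_product, Set.mem_ofPred_eq, coe_product, Set.mem_prod,
      Prod.fst_swap, Prod.snd_swap] at hq ⊢
    obtain ⟨⟨⟨h1, h2, h3⟩, h4⟩, h5⟩ := hq
    refine ⟨⟨h1, h5⟩, ⟨h3, h2⟩, ?_⟩
    rw [← h5]
    have e : q.2.1 = -q.1.1 + (q.1.2 + q.2.2) := by rw [← h4]; abel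
    rw [e]
    abel
  · obtain ⟨e1, e2⟩ := Prod.mk.inj hqr
    exact Prod.ext e1 (Prod.swap_injective e2)

end obsgAux

/-- Balog-Szemeredi-Gowers -/
theorem obsg (K : ℕ) : ∃ K' : ℕ, ∀ (G : Type) [AddCommGroup G] [Fintype G] [DecidableEq G]
    (A : Finset G), A.Nonempty → A.card ^ 3 ≤ K * Finset.addEnergy A A →
      ∃ A' ⊆ A, A'.Nonempty ∧ A.card ≤ K' * A'.card ∧ (A' - A').card ≤ K' * A'.card := by
  refine ⟨2 ^ 14 * (K + 1) ^ 6, fun G _ _ _ A hA h => ?_⟩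
  have hK : (1 : ℝ) ≤ (K : ℝ) + 1 := by linarith [Nat.cast_nonneg (α := ℝ) K]
  have h1 : (A.card : ℝ) ^ 3 ≤ ((K : ℝ) + 1) * obsg_en A := by
    have h2 : (A.card : ℝ) ^ 3 ≤ (K : ℝ) * (Finset.addEnergy A A : ℝ) := by exact_mod_cast h
    exact h2.trans (mul_le_mul (by linarith) (obsg_energy A) (Nat.cast_nonneg _) (by linarith))
  obtain ⟨B, hBA, hB1, hB2⟩ := obsg_core hA hK h1
  have ha : (0 : ℝ) < A.card := by exact_mod_cast hA.card_pos
  refine ⟨B, hBA, ?_, ?_, ?_⟩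
  · rw [← card_pos]
    by_contra h0
    have h3 : B.card = 0 := by omega
    rw [h3, Nat.cast_zero, mul_zero] at hB1
    linarith
  · have h3 : 4 * ((K : ℝ) + 1) ≤ 2 ^ 14 * ((K : ℝ) + 1) ^ 6 :=
      mul_le_mul (by norm_num) (le_self_pow₀ hK (by norm_num)) (by linarith) (by norm_num)
    have h4 := hB1.trans (mul_le_mul_of_nonneg_right h3 (Nat.cast_nonneg _))
    exact_mod_cast h4
  · rw [sub_eq_add_neg, add_comm]
    exact_mod_cast hB2

end Pool.Agent.P.MP_862e21_al
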