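import Pool.Agent.P.MP_862e21_al.OCDat1
import Pool.Agent.P.MP_862e21_al.OCDat2
import Pool.Agent.P.MP_862e21_al.OCDat3

namespace Pool.Agent.P.MP_862e21_al

theorem free_12_0_8192 : Free 12 0 8192 :=
  free_split free_11_0_8192 free_11_0_10240 free_11_2048_8192 free_11_2048_10240 rfl rfl

theorem free_12_0_12288 : Free 12 0 12288 :=
  free_split free_11_0_12288 free_11_0_14336 free_11_2048_12288 free_11_2048_14336 rfl rfl

theorem free_13_0_8192 : Free 13 0 8192 :=
  free_split free_12_0_8192 free_12_0_12288 free_12_4096_8192 free_12_4096_12288 rfl rfl

theorem free_14_0_0 : Free 14 0 0 :=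
  free_split free_13_0_0 free_13_0_8192 free_13_8192_0 free_13_8192_8192 rfl rfl

theorem free_12_0_16384 : Free 12 0 16384 :=
  free_split free_11_0_16384 free_11_0_18432 free_11_2048_16384 free_11_2048_18432 rfl rfl

theorem free_11_4096_20480 : Free 11 4096 20480 :=
  free_split free_10_4096_20480 free_10_4096_21504 free_10_5120_20480 free_10_5120_21504 rfl rfl

theorem free_11_4096_22528 : Free 11 4096 22528 :=
  free_split free_10_4096_22528 free_10_4096_23552 free_10_5120_22528 free_10_5120_23552 rfl rfl

theorem free_11_6144_22528 : Free 11 6144 22528 :=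
  free_split free_10_6144_22528 free_10_6144_23552 free_10_7168_22528 free_10_7168_23552 rfl rfl

theorem free_12_4096_20480 : Free 12 4096 20480 :=
  free_split free_11_4096_20480 free_11_4096_22528 free_11_6144_20480 free_11_6144_22528 rfl rfl

theorem free_13_0_16384 : Free 13 0 16384 :=
  free_split free_12_0_16384 free_12_0_20480 free_12_4096_16384 free_12_4096_20480 rfl rfl

theorem free_11_6144_24576 : Free 11 6144 24576 :=
  free_split free_10_6144_24576 free_10_6144_25600 free_10_7168_24576 free_10_7168_25600 rfl rfl

theorem free_11_6144_26624 : Free 11 6144 26624 :=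
  free_split free_10_6144_26624 free_10_6144_27648 free_10_7168_26624 free_10_7168_27648 rfl rfl

theorem free_12_4096_24576 : Free 12 4096 24576 :=
  free_split free_11_4096_24576 free_11_4096_26624 free_11_6144_24576 free_11_6144_26624 rfl rfl

theorem free_13_0_24576 : Free 13 0 24576 :=
  free_split free_12_0_24576 free_12_0_28672 free_12_4096_24576 free_12_4096_28672 rfl rfl

theorem free_12_8192_20480 : Free 12 8192 20480 :=
  free_split free_11_8192_20480 free_11_8192_22528 free_11_10240_20480 free_11_10240_22528 rfl rfl

theorem free_13_8192_16384 : Free 13 8192 16384 :=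
  free_split free_12_8192_16384 free_12_8192_20480 free_12_12288_16384 free_12_12288_20480 rfl rfl

theorem free_11_8192_24576 : Free 11 8192 24576 :=
  free_split free_10_8192_24576 free_10_8192_25600 free_10_9216_24576 free_10_9216_25600 rfl rfl

theorem free_11_8192_26624 : Free 11 8192 26624 :=
  free_split free_10_8192_26624 free_10_8192_27648 free_10_9216_26624 free_10_9216_27648 rfl rfl

theorem free_11_10240_26624 : Free 11 10240 26624 :=
  free_split free_10_10240_26624 free_10_10240_27648 free_10_11264_26624 free_10_11264_27648 rfl rfl

theorem free_12_8192_24576 : Free 12 8192 24576 :=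
  free_split free_11_8192_24576 free_11_8192_26624 free_11_10240_24576 free_11_10240_26624 rfl rfl

theorem free_11_8192_28672 : Free 11 8192 28672 :=
  free_split free_10_8192_28672 free_10_8192_29696 free_10_9216_28672 free_10_9216_29696 rfl rfl

theorem free_11_10240_28672 : Free 11 10240 28672 :=
  free_split free_10_10240_28672 free_10_10240_29696 free_10_11264_28672 free_10_11264_29696 rfl rfl

theorem free_11_10240_30720 : Free 11 10240 30720 :=
  free_split free_10_10240_30720 free_10_10240_31744 free_10_11264_30720 free_10_11264_31744 rfl rfl

theorem free_12_8192_28672 : Free 12 8192 28672 :=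
  free_split free_11_8192_28672 free_11_8192_30720 free_11_10240_28672 free_11_10240_30720 rfl rfl

theorem free_12_12288_24576 : Free 12 12288 24576 :=
  free_split free_11_12288_24576 free_11_12288_26624 free_11_14336_24576 free_11_14336_26624 rfl rfl

theorem free_11_12288_30720 : Free 11 12288 30720 :=
  free_split free_10_12288_30720 free_10_12288_31744 free_10_13312_30720 free_10_13312_31744 rfl rfl

theorem free_12_12288_28672 : Free 12 12288 28672 :=
  free_split free_11_12288_28672 free_11_12288_30720 free_11_14336_28672 free_11_14336_30720 rfl rfl

theorem free_13_8192_24576 : Free 13 8192 24576 :=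
  free_split free_12_8192_24576 free_12_8192_28672 free_12_12288_24576 free_12_12288_28672 rfl rfl

theorem free_14_0_16384 : Free 14 0 16384 :=
  free_split free_13_0_16384 free_13_0_24576 free_13_8192_16384 free_13_8192_24576 rfl rfl

theorem free_14_16384_0 : Free 14 16384 0 :=
  free_split free_13_16384_0 free_13_16384_8192 free_13_24576_0 free_13_24576_8192 rfl rfl

theorem free_13_16384_16384 : Free 13 16384 16384 :=
  free_split free_12_16384_16384 free_12_16384_20480 free_12_20480_16384 free_12_20480_20480 rfl rfl

theorem free_12_16384_28672 : Free 12 16384 28672 :=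
  free_split free_11_16384_28672 free_11_16384_30720 free_11_18432_28672 free_11_18432_30720 rfl rfl

theorem free_13_16384_24576 : Free 13 16384 24576 :=
  free_split free_12_16384_24576 free_12_16384_28672 free_12_20480_24576 free_12_20480_28672 rfl rfl

theorem free_13_24576_16384 : Free 13 24576 16384 :=
  free_split free_12_24576_16384 free_12_24576_20480 free_12_28672_16384 free_12_28672_20480 rfl rfl

theorem free_13_24576_24576 : Free 13 24576 24576 :=
  free_split free_12_24576_24576 free_12_24576_28672 free_12_28672_24576 free_12_28672_28672 rfl rfl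

theorem free_14_16384_16384 : Free 14 16384 16384 :=
  free_split free_13_16384_16384 free_13_16384_24576 free_13_24576_16384 free_13_24576_24576 rfl rfl

theorem free_15_0_0 : Free 15 0 0 :=
  free_split free_14_0_0 free_14_0_16384 free_14_16384_0 free_14_16384_16384 rfl rfl

theorem free_12_8192_32768 : Free 12 8192 32768 :=
  free_split free_11_8192_32768 free_11_8192_34816 free_11_10240_32768 free_11_10240_34816 rfl rfl

theorem free_11_12288_32768 : Free 11 12288 32768 :=
  free_split free_10_12288_32768 free_10_12288_33792 free_10_13312_32768 free_10_13312_33792 rfl rfl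

theorem free_12_12288_32768 : Free 12 12288 32768 :=
  free_split free_11_12288_32768 free_11_12288_34816 free_11_14336_32768 free_11_14336_34816 rfl rfl

theorem free_13_8192_32768 : Free 13 8192 32768 :=
  free_split free_12_8192_32768 free_12_8192_36864 free_12_12288_32768 free_12_12288_36864 rfl rfl

theorem free_14_0_32768 : Free 14 0 32768 :=
  free_split free_13_0_32768 free_13_0_40960 free_13_8192_32768 free_13_8192_40960 rfl rfl

theorem free_15_0_32768 : Free 15 0 32768 :=
  free_split free_14_0_32768 free_14_0_49152 free_14_16384_32768 free_14_16384_49152 rfl rfl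

end Pool.Agent.P.MP_862e21_al
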