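import Pool.Agent.P.MP_862e21_al.OCBasic
import Pool.Agent.P.MP_862e21_al.OCAll

namespace Pool.Agent.P.MP_862e21_al

open Finset Pointwise Complex

theorem no_reg {c : ℂ} (h : Reg c) (hi : 0 ≤ c.im) : False := by
  have s1 : ‖c‖ ^ 2 = c.re ^ 2 + c.im ^ 2 := by rw [Complex.sq_norm, normSq_apply]; ring
  have s2 : ‖1 - c‖ ^ 2 = (1 - c.re) ^ 2 + c.im ^ 2 := by
    rw [Complex.sq_norm, normSq_apply]; simp; ring
  have a1 : ‖c‖ ^ 2 ≤ ‖1 - c‖ ^ 2 := by gcongr; exact h.h2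
  have a2 : ‖1 - c‖ ^ 2 ≤ 1 ^ 2 := by gcongr; exact h.h3
  have b1 : c.re ≤ 1 / 2 := by nlinarith
  have b2 : 0 ≤ c.re := by nlinarith [sq_nonneg c.re, sq_nonneg c.im]
  have b3 : c.im ≤ 1 := by nlinarith [sq_nonneg (1 - c.re)]
  rcases le_total c.im (1 / 2) with b | b
  · refine free_15_0_0 c h ⟨?_, ?_, ?_, ?_⟩ <;> simp <;> linarith
  · refine free_15_0_32768 c h ⟨?_, ?_, ?_, ?_⟩ <;> simp <;> linarith

/-- the potential -/
noncomputable def hpot (x y z : ℂ) : ℝ := ‖y - z‖ / (‖x - y‖ * ‖x - z‖)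

theorem hpot_swap (x y z : ℂ) : hpot x z y = hpot x y z := by
  unfold hpot
  rw [norm_sub_rev z y, mul_comm]

theorem br_ne {c : ℂ} (c0 : c ≠ 0) (c1 : c ≠ 1) (cN : c ^ 2 - c + 1 ≠ 0) {i j : Fin 6}
    (h : i ≠ j) : br c i j ≠ 0 := by
  rw [← norm_ne_zero_iff, norm_br c h, norm_ne_zero_iff]
  unfold tyv
  split_ifs
  exacts [one_ne_zero, c0, sub_ne_zero.2 c1.symm, cN]

theorem br_swap (c : ℂ) (i j : Fin 6) : br c i j = -br c j i := by unfold br; ring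

/-- a colouring of the six points has a code -/
theorem col_code : ∀ (η : Bool) (a b d : Fin 3), ∃ N < 54, decide (27 ≤ N) = η ∧
    N % 3 = a.val ∧ N / 3 % 3 = b.val ∧ N / 9 % 3 = d.val := by decide

theorem exists_code (η : Bool) {κ : Fin 6 → Fin 3} (k0 : κ 0 = 0) (k1 : κ 1 = 1) (k2 : κ 2 = 2) :
    ∃ N < 54, decide (27 ≤ N) = η ∧
      ∀ a b e, rb N a b e = true → κ a ≠ κ b ∧ κ a ≠ κ e ∧ κ b ≠ κ e := by
  obtain ⟨N, hN, h0, h1, h2, h3⟩ := col_code η (κ 3) (κ 4) (κ 5)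
  have hc : ∀ i, col N i = (κ i).val := by
    intro i
    fin_cases i <;> simp [col, k0, k1, k2, h1, h2, h3]
  refine ⟨N, hN, h0, fun a b e h => ?_⟩
  simp only [rb, Bool.and_eq_true, bne_iff_ne, hc] at h
  exact ⟨fun e => h.1.1 (by rw [e]), fun e => h.1.2 (by rw [e]), fun e => h.2 (by rw [e])⟩

/-- the potential of a triple in the family of `(p i, p j, p k)` -/
theorem ineq_of_pot {c u Δ : ℂ} (c0 : c ≠ 0) (c1 : c ≠ 1) (cN : c ^ 2 - c + 1 ≠ 0) (hΔ : Δ ≠ 0)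
    {p q : Fin 6 → ℂ} (hl : ∀ i, (PW c i).1 - u * (PW c i).2 ≠ 0)
    (hp : ∀ i j, p i - p j =
      Δ * br c i j / (((PW c i).1 - u * (PW c i).2) * ((PW c j).1 - u * (PW c j).2)))
    {i j k : Fin 6} (ij : i ≠ j) (ik : i ≠ k) (jk : j ≠ k)
    (hq : ∀ a, (PW c a).2 * ((q a - p j) * (p k - p i)) = (PW c a).1 * ((p k - p j) * (q a - p i)))
    {a b e : Fin 6} (ab : a ≠ b) (ae : a ≠ e) (h : hpot (q a) (q b) (q e) ≤ ‖Δ‖⁻¹) :
    Ineq c u i j k a b e := by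
  have bn := @br_ne c c0 c1 cN
  have pn : ∀ {i j : Fin 6}, i ≠ j → p i ≠ p j := fun {i j} h => by
    rw [← sub_ne_zero, hp]
    exact div_ne_zero (mul_ne_zero hΔ (bn h)) (mul_ne_zero (hl i) (hl j))
  obtain ⟨hΔ', hl', hq'⟩ := six_param c0 c1 (pn ij) (pn ik) (pn jk) hq rfl rfl
  have kj := bn jk.symm
  have ji := bn ij.symm
  have ki := bn ik.symm
  have li := hl i
  have lj := hl j
  have lk := hl k
  have e1 : (p k - p i) / (p k - p j) =
      br c k i * ((PW c j).1 - u * (PW c j).2) / (br c k j * ((PW c i).1 - u * (PW c i).2)) := by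
    rw [hp k i, hp k j]
    field_simp
  rw [e1] at hΔ' hl' hq'
  have e2 : (PW c a).1 - br c k i * ((PW c j).1 - u * (PW c j).2) /
      (br c k j * ((PW c i).1 - u * (PW c i).2)) * (PW c a).2 =
      LL c u i j k a / (br c k j * ((PW c i).1 - u * (PW c i).2)) := by
    unfold LL
    field_simp
  have e3 : (p j - p i) * (br c k i * ((PW c j).1 - u * (PW c j).2) /
      (br c k j * ((PW c i).1 - u * (PW c i).2))) =
      Δ * br c j i * br c k i / (br c k j * ((PW c i).1 - u * (PW c i).2) ^ 2) := by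
    rw [hp j i]
    field_simp
  unfold hpot at h
  rw [hq' b e, hq' a b, hq' a e, e2, e3] at h
  have la := hl' a
  have lb := hl' b
  have le := hl' e
  rw [e2] at la
  have la' : LL c u i j k a ≠ 0 := fun h0 => la (by rw [h0, zero_div])
  have nab := bn ab
  have nae := bn ae
  generalize (PW c b).1 - br c k i * ((PW c j).1 - u * (PW c j).2) /
      (br c k j * ((PW c i).1 - u * (PW c i).2)) * (PW c b).2 = Lb at h lb
  generalize (PW c e).1 - br c k i * ((PW c j).1 - u * (PW c j).2) /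
      (br c k j * ((PW c i).1 - u * (PW c i).2)) * (PW c e).2 = Le at h le
  unfold Ineq
  generalize LL c u i j k a = L at h la' ⊢
  generalize (PW c i).1 - u * (PW c i).2 = l at h li
  simp only [norm_mul, norm_div, norm_pow] at h
  rw [← norm_pos_iff] at hΔ kj ji ki li la' nab nae lb le
  generalize ‖Δ‖ = d, ‖br c k j‖ = x1, ‖br c j i‖ = x2, ‖br c k i‖ = x3, ‖br c a b‖ = x4,
    ‖br c a e‖ = x5, ‖br c b e‖ = y, ‖L‖ = L', ‖l‖ = l', ‖Lb‖ = m, ‖Le‖ = n at *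
  have e4 : d * x2 * x3 / (x1 * l' ^ 2) * y / (m * n) /
      (d * x2 * x3 / (x1 * l' ^ 2) * x4 / (L' / (x1 * l') * m) *
        (d * x2 * x3 / (x1 * l' ^ 2) * x5 / (L' / (x1 * l') * n))) =
      d⁻¹ * (y * L' ^ 2 / (x1 * x2 * x3 * x4 * x5)) := by
    field_simp
  rw [e4] at h
  have h2 : y * L' ^ 2 / (x1 * x2 * x3 * x4 * x5) ≤ 1 :=
    (mul_le_iff_le_one_right (inv_pos.2 hΔ)).1 h
  exact (div_le_one (by positivity)).1 h2

theorem hyp_of_oc [DecidableEq ℂ] {c : ℂ} {η : Bool} {TT : Finset (ℂ × ℂ × ℂ)} (h : OC c η TT) :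
    Hyp c := by
  obtain ⟨t, ht, hmax⟩ := exists_max_image TT (fun t => hpot t.1 t.2.1 t.2.2) h.ne
  obtain ⟨x, y, z⟩ := t
  obtain ⟨xy, xz, yz⟩ := h.dist _ ht
  obtain ⟨p, κ, p0, p1, p2, k0, k1, k2, hp, hT⟩ := h.ext _ ht
  simp only at xy xz yz p0 p1 p2 hp hmax
  obtain ⟨hΔ, hl, hd⟩ := six_param h.c0 h.c1 xy xz yz hp rfl rfl
  have hm : hpot x y z = ‖(y - x) * ((z - x) / (z - y))‖⁻¹ := by
    unfold hpot
    rw [norm_mul, norm_div, norm_sub_rev y x, norm_sub_rev z x, norm_sub_rev z y]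
    have := norm_pos_iff.2 (sub_ne_zero.2 xy)
    have := norm_pos_iff.2 (sub_ne_zero.2 xz)
    have := norm_pos_iff.2 (sub_ne_zero.2 yz)
    field_simp
  rw [hm] at hmax
  generalize (y - x) * ((z - x) / (z - y)) = Δ at hΔ hd hmax
  generalize (z - x) / (z - y) = u at hl hd
  have surv : ∀ {i j k : Fin 6}, i ≠ j → i ≠ k → j ≠ k → ∀ {q : Fin 6 → ℂ} {κ' : Fin 6 → Fin 3},
      (∀ a, (PW c a).2 * ((q a - p j) * (p k - p i)) =
        (PW c a).1 * ((p k - p j) * (q a - p i))) →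
      (∀ a b e, κ' a ≠ κ' b → κ' a ≠ κ' e → κ' b ≠ κ' e → ori η a b e = true →
        (q a, q b, q e) ∈ TT) → ∀ {N : ℕ},
      (∀ a b e, rb N a b e = true → κ' a ≠ κ' b ∧ κ' a ≠ κ' e ∧ κ' b ≠ κ' e) →
      Surv c u i j k N := by
    intro i j k ij ik jk q κ' hq hT' N hN a b e hr
    obtain ⟨ab, ae, be⟩ := rb_ne hr
    obtain ⟨r1, r2, r3⟩ := hN a b e hr
    refine ineq_of_pot h.c0 h.c1 h.cN hΔ hl hd ij ik jk hq ab ae ?_
    rcases ori_tot η a b e ab ae be with o | o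
    · exact hmax _ (hT' a b e r1 r2 r3 o)
    · rw [← hpot_swap]
      exact hmax _ (hT' a e b r2 r1 r3.symm o)
  obtain ⟨N0, hN0, eη, hc⟩ := exists_code η k0 k1 k2
  have s0 : Surv c u 0 1 2 N0 :=
    surv (by decide) (by decide) (by decide) (by rw [p0, p1, p2]; exact hp) hT hc
  refine ⟨u, N0, hN0, ?_, ?_, s0, ?_⟩
  · have := s0 1 0 2 (by simp [rb, col])
    simp only [Ineq, LL, br, PW] at this
    simp at this
    exact (abs_le.1 (by simpa using this : |‖u‖| ≤ 1)).2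
  · have := s0 2 0 1 (by simp [rb, col])
    simp only [Ineq, LL, br, PW] at this
    simp at this
    rw [norm_sub_rev]
    exact (abs_le.1 (by simpa using this : |‖1 - u‖| ≤ 1)).2
  · intro i j k hr ho
    rw [eη] at ho
    obtain ⟨ij, ik, jk⟩ := rb_ne hr
    obtain ⟨r1, r2, r3⟩ := hc i j k hr
    obtain ⟨q, κ', -, -, -, k0', k1', k2', hq, hT'⟩ := h.ext _ (hT i j k r1 r2 r3 ho)
    obtain ⟨N, hN, -, hc'⟩ := exists_code η k0' k1' k2'
    exact ⟨N, hN, surv ij ik jk hq hT' hc'⟩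

theorem omid [DecidableEq ℂ] {c : ℂ} {η : Bool} {TT : Finset (ℂ × ℂ × ℂ)} (h : OC c η TT)
    (h1 : 1 / 8 ≤ ‖c‖) (h2 : ‖c‖ ≤ ‖1 - c‖) (h3 : ‖1 - c‖ ≤ 1)
    (hJ : ‖c ^ 2 * (1 - c) ^ 2‖ ≤ ‖(c ^ 2 - c + 1) ^ 3‖) : False := by
  rw [norm_mul, norm_pow, norm_pow, norm_pow] at hJ
  rcases le_total 0 c.im with hi | hi
  · exact no_reg ⟨h1, h2, h3, hJ, hyp_of_oc h⟩ hi
  · have inj : Function.Injective (starRingEnd ℂ) := (starRingEnd ℂ).injective
    have e1 : 1 - (starRingEnd ℂ) c = (starRingEnd ℂ) (1 - c) := by simp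
    have e2 : (starRingEnd ℂ) c ^ 2 - (starRingEnd ℂ) c + 1 = (starRingEnd ℂ) (c ^ 2 - c + 1) := by
      simp
    have h' := h.map ⊤ (starRingEnd ℂ) (map_one _) (fun x _ y _ => map_sub _ x y)
      (fun x _ y _ => map_mul _ x y) trivial (fun _ _ => trivial)
      (fun t ht => inj.ne (h.dist t ht).1) ((map_ne_zero _).2 h.c0)
      (by rw [← map_one (starRingEnd ℂ)]; exact inj.ne h.c1)
      (by rw [e2]; exact (map_ne_zero _).2 h.cN)
    refine no_reg ⟨?_, ?_, ?_, ?_, hyp_of_oc h'⟩ (by simpa using hi)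
    · rwa [norm_conj]
    · rwa [e1, norm_conj, norm_conj]
    · rwa [e1, norm_conj]
    · rwa [e1, e2, norm_conj, norm_conj, norm_conj]

end Pool.Agent.P.MP_862e21_al
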