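import Pool.Agent.P.MP_862e21_al.OCThin
import Pool.Agent.P.MP_862e21_al.OCMid
import Pool.Agent.P.MP_862e21_al.Char0

namespace Pool.Agent.P.MP_862e21_al

open Finset Pointwise

variable {F : Type*} [Field F] [DecidableEq F]

/-- specialisation of an oriented family to the complex numbers -/
theorem ocalg_spec [CharZero F] [DecidableEq ℂ] {c l : F} {η : Bool}
    {TT : Finset (F × F × F)} (h : OC c η TT) (hl : IsIntegral ℚ l) {l' : ℂ}
    (hl' : Polynomial.aeval l' (minpoly ℚ l) = 0) :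
    ∃ (c' : ℂ) (TT' : Finset (ℂ × ℂ × ℂ)), OC c' η TT' ∧ (l = c → c' = l') ∧
      (l = c - 1 → c' = l' + 1) := by
  obtain ⟨R, g, hR, gl, g1, gsub, gmul⟩ := spec_hom
    (TT.image (fun t => t.1) ∪ TT.image (fun t => (t.1 - t.2.1)⁻¹) ∪
      {l, c, c⁻¹, (1 - c)⁻¹, (c ^ 2 - c + 1)⁻¹}) (by simp) hl hl'
  have hT : ∀ t ∈ TT, t.1 ∈ R := fun t ht =>
    hR _ (mem_union_left _ (mem_union_left _ (mem_image.mpr ⟨t, ht, rfl⟩)))
  have hT2 : ∀ t ∈ TT, t.2.1 ∈ R := fun t ht =>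
    hT (t.2.1, t.2.2, t.1) (h.cyc (x := t.1) (y := t.2.1) (z := t.2.2) ht)
  have hD : ∀ t ∈ TT, (t.1 - t.2.1)⁻¹ ∈ R := fun t ht =>
    hR _ (mem_union_left _ (mem_union_right _ (mem_image.mpr ⟨t, ht, rfl⟩)))
  have cR : c ∈ R := hR _ (by simp)
  have ciR : c⁻¹ ∈ R := hR _ (by simp)
  have c1R : (1 - c)⁻¹ ∈ R := hR _ (by simp)
  have cNR : (c ^ 2 - c + 1)⁻¹ ∈ R := hR _ (by simp)
  have gne : ∀ x ∈ R, x ≠ 0 → x⁻¹ ∈ R → g x ≠ 0 := by
    intro x hx x0 hi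
    have : g x * g x⁻¹ = 1 := by rw [← gmul x hx _ hi, mul_inv_cancel₀ x0, g1]
    exact left_ne_zero_of_mul_eq_one this
  have g1c : g (1 - c) = 1 - g c := by rw [gsub 1 R.one_mem c cR, g1]
  have gN : g (c ^ 2 - c + 1) = g c ^ 2 - g c + 1 := by
    have e : c ^ 2 - c + 1 = 1 - c * (1 - c) := by ring
    rw [e, gsub 1 R.one_mem _ (R.mul_mem cR (R.sub_mem R.one_mem cR)),
      gmul c cR _ (R.sub_mem R.one_mem cR), g1c, g1]
    ring
  have NR : c ^ 2 - c + 1 ∈ R := R.add_mem (R.sub_mem (R.pow_mem cR 2) cR) R.one_mem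
  refine ⟨g c, _, h.map R.toSubring g g1 gsub gmul cR hT ?_ (gne c cR h.c0 ciR) ?_ ?_, ?_, ?_⟩
  · intro t ht e
    have := gne _ (R.sub_mem (hT t ht) (hT2 t ht)) (sub_ne_zero.mpr (h.dist t ht).1) (hD t ht)
    rw [gsub _ (hT t ht) _ (hT2 t ht), e, sub_self] at this
    exact this rfl
  · intro e
    have := gne _ (R.sub_mem R.one_mem cR) (sub_ne_zero.mpr h.c1.symm) c1R
    rw [g1c, e, sub_self] at this
    exact this rfl
  · rw [← gN]
    exact gne _ NR h.cN cNR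
  · intro e
    rw [← e, gl]
  · intro e
    rw [← gl, e, gsub c cR 1 R.one_mem, g1]
    ring

/-- the inequality for the invariant does not depend on the representative -/
theorem ocalg_inv [DecidableEq ℂ] {l s : ℂ} (h0 : l ≠ 0) (h1 : l ≠ 1) (hs : s ∈ Lam l)
    (hJ : ‖l ^ 2 * (1 - l) ^ 2‖ ≤ ‖(l ^ 2 - l + 1) ^ 3‖) :
    ‖s ^ 2 * (1 - s) ^ 2‖ ≤ ‖(s ^ 2 - s + 1) ^ 3‖ := by
  have hp : 0 < ‖l ^ 2 * (1 - l) ^ 2‖ := norm_pos_iff.2
    (mul_ne_zero (pow_ne_zero _ h0) (pow_ne_zero _ (sub_ne_zero.mpr h1.symm)))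
  have e := congrArg norm (geo_inv h0 h1 hs)
  rw [norm_mul, norm_mul ((l ^ 2 - l + 1) ^ 3)] at e
  refine le_of_mul_le_mul_right ?_ hp
  rw [e, mul_comm]
  exact mul_le_mul_of_nonneg_right hJ (norm_nonneg _)

/-- a normalised representative -/
theorem ocalg_norm [DecidableEq ℂ] {l : ℂ} (h0 : l ≠ 0) (h1 : l ≠ 1) :
    ∃ s ∈ Lam l, ‖s‖ ≤ ‖1 - s‖ ∧ ‖1 - s‖ ≤ 1 := by
  obtain ⟨t, ht, a1, a2⟩ := geo_order h0 h1
  have t1 : t - 1 ≠ 0 := sub_ne_zero.mpr (lam_ne_one h0 h1 ht)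
  have t2 : 1 - t ≠ 0 := sub_ne_zero.mpr (lam_ne_one h0 h1 ht).symm
  have hb : 0 < ‖1 - t‖ := norm_pos_iff.2 t2
  have e4 : 1 - t / (t - 1) = (1 - t)⁻¹ := by field_simp; ring
  refine ⟨t / (t - 1), lam_sub h0 h1 ht (by simp [mem_Lam]), ?_, ?_⟩
  · rw [e4, norm_inv, norm_div, norm_sub_rev t 1, inv_eq_one_div]
    exact div_le_div_of_nonneg_right a1 hb.le
  · rw [e4, norm_inv]
    exact inv_le_one_of_one_le₀ a2

/-- a primitive root with a real part of at least one fifth -/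
theorem ocalg_pick {n : ℕ} (hn : n = 1 ∨ 5 ≤ n) :
    ∃ ζ : ℂ, IsPrimitiveRoot ζ n ∧ 1 / 5 ≤ ζ.re := by
  rcases hn with rfl | hn
  · exact ⟨1, IsPrimitiveRoot.one, by norm_num⟩
  refine ⟨_, Complex.isPrimitiveRoot_exp n (by omega), ?_⟩
  have e : (2 * Real.pi * Complex.I / (n : ℂ)) =
      ((2 * Real.pi / n : ℝ) : ℂ) * Complex.I := by
    push_cast; ring
  rw [e, Complex.exp_ofReal_mul_I_re]
  have hn5 : (5 : ℝ) ≤ n := by exact_mod_cast hn
  have p0 := Real.pi_pos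
  have p1 := Real.pi_lt_d2
  have a0 : 0 ≤ 2 * Real.pi / n := by positivity
  have a1 : 2 * Real.pi / n ≤ 63 / 50 := by
    rw [div_le_iff₀ (by linarith)]
    nlinarith
  have a2 := Real.one_sub_sq_div_two_le_cos (x := 2 * Real.pi / n)
  nlinarith

/-- the complex root case -/
theorem ocalg_circle [DecidableEq ℂ] {ζ : ℂ} {η : Bool} {TT : Finset (ℂ × ℂ × ℂ)}
    (h : OC (ζ + 1) η TT) (n1 : ‖ζ‖ = 1) (hre : 1 / 5 ≤ ζ.re) : False := by
  have c0 := h.c0
  have q1 : ζ.re ^ 2 + ζ.im ^ 2 = 1 := by rw [← geo_sq, n1]; norm_num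
  have r1 : ζ.re ≤ 1 := by nlinarith
  have q2 : ‖ζ + 1‖ ^ 2 = 2 + 2 * ζ.re := by
    rw [geo_sq]
    simp only [Complex.add_re, Complex.add_im, Complex.one_re, Complex.one_im]
    linarith
  have q3 : ‖(ζ + 1) ^ 2 - (ζ + 1) + 1‖ = 1 + 2 * ζ.re := by
    have e : (ζ + 1) ^ 2 - (ζ + 1) + 1 = ζ * ((1 + 2 * ζ.re : ℝ) : ℂ) := by
      apply Complex.ext
      · simp only [sq, Complex.add_re, Complex.sub_re, Complex.mul_re, Complex.one_re,
          Complex.add_im, Complex.one_im, Complex.ofReal_re, Complex.ofReal_im]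
        linarith
      · simp only [sq, Complex.add_re, Complex.sub_im, Complex.mul_im, Complex.one_re,
          Complex.add_im, Complex.one_im, Complex.ofReal_re, Complex.ofReal_im]
        ring
    rw [e, norm_mul, n1, one_mul, Complex.norm_real, Real.norm_of_nonneg (by linarith)]
  have hJ : ‖(ζ + 1) ^ 2 * (1 - (ζ + 1)) ^ 2‖ ≤ ‖((ζ + 1) ^ 2 - (ζ + 1) + 1) ^ 3‖ := by
    have e : 1 - (ζ + 1) = -ζ := by ring
    rw [norm_mul, norm_pow, norm_pow, norm_pow, q2, q3, e, norm_neg, n1]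
    nlinarith [mul_nonneg (sub_nonneg.mpr hre) (sq_nonneg ζ.re), sq_nonneg (ζ.re - 1 / 5)]
  have hs : (ζ + 1)⁻¹ ∈ Lam (ζ + 1) := lam_inv h.c0 h.c1 (self_mem_Lam _)
  obtain ⟨TT', h'⟩ := h.of_mem hs
  have np : 0 < ‖ζ + 1‖ := norm_pos_iff.2 c0
  have b1 : 1 ≤ ‖ζ + 1‖ := by
    refine le_of_pow_le_pow_left₀ two_ne_zero np.le ?_
    rw [q2]; linarith
  have b2 : ‖ζ + 1‖ ≤ 8 := by
    refine le_of_pow_le_pow_left₀ two_ne_zero (by norm_num) ?_
    rw [q2]; linarith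
  have e1 : ‖1 - (ζ + 1)⁻¹‖ = ‖ζ + 1‖⁻¹ := by
    have e : 1 - (ζ + 1)⁻¹ = ζ * (ζ + 1)⁻¹ := by field_simp; ring
    rw [e, norm_mul, n1, one_mul, norm_inv]
  refine omid h' ?_ ?_ ?_ (ocalg_inv h.c0 h.c1 hs hJ)
  · rw [norm_inv, one_div]
    exact inv_anti₀ np b2
  · rw [e1, norm_inv]
  · rw [e1]
    exact inv_le_one_of_one_le₀ b1

/-- the case that `d - 1` is a root of unity -/
theorem ocalg_root [CharZero F] (hi : ¬ IsSquare (-1 : F)) {d : F} {η : Bool}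
    {TT : Finset (F × F × F)} (h : OC d η TT) {m : ℕ} (hm : 1 ≤ m) (hd : (d - 1) ^ m = 1) :
    False := by
  classical
  have hfin : IsOfFinOrder (d - 1) := isOfFinOrder_iff_pow_eq_one.mpr ⟨m, hm, hd⟩
  have hpos : 0 < orderOf (d - 1) := hfin.orderOf_pos
  have hprim : IsPrimitiveRoot (d - 1) (orderOf (d - 1)) := IsPrimitiveRoot.orderOf _
  have hn2 : orderOf (d - 1) ≠ 2 := by
    intro e
    rw [e] at hprim
    exact h.c0 (by linear_combination hprim.eq_neg_one_of_two_right)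
  have hn3 : orderOf (d - 1) ≠ 3 := by
    intro e
    have := hprim.isRoot_cyclotomic hpos
    rw [e, Polynomial.cyclotomic_three] at this
    simp only [Polynomial.IsRoot.def, Polynomial.eval_add, Polynomial.eval_pow,
      Polynomial.eval_X, Polynomial.eval_one] at this
    exact h.cN (by linear_combination this)
  have hn4 : orderOf (d - 1) ≠ 4 := by
    intro e
    rw [e] at hprim
    have h2 : IsPrimitiveRoot ((d - 1) ^ 2) 2 := hprim.pow (by norm_num) (by norm_num)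
    exact hi ⟨d - 1, by linear_combination -h2.eq_neg_one_of_two_right⟩
  obtain ⟨ζ, hζ, hre⟩ := ocalg_pick (n := orderOf (d - 1)) (by omega)
  have hint : IsIntegral ℚ (d - 1) := (hprim.isIntegral hpos).tower_top
  have hz : Polynomial.aeval ζ (minpoly ℚ (d - 1)) = 0 := by
    rw [← Polynomial.cyclotomic_eq_minpoly_rat hprim hpos,
      Polynomial.cyclotomic_eq_minpoly_rat hζ hpos]
    exact minpoly.aeval ℚ ζ
  obtain ⟨c', TT', h', -, e⟩ := ocalg_spec h hint hz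
  rw [e rfl] at h'
  exact ocalg_circle h' (hζ.norm'_eq_one hpos.ne') hre

/-- no value of the cross ratio is a root of unity -/
theorem ocalg_root' [CharZero F] (hi : ¬ IsSquare (-1 : F)) {c s : F} {η : Bool}
    {TT : Finset (F × F × F)} (h : OC c η TT) (hs : s ∈ Lam c) {m : ℕ} (hm : 1 ≤ m)
    (e : s ^ (2 * m) = 1) : False := by
  obtain ⟨TT', h'⟩ := h.of_mem (lam_one_sub h.c0 h.c1 hs)
  refine ocalg_root hi h' (m := 2 * m) (by omega) ?_
  have : 1 - s - 1 = -s := by ring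
  rw [this, Even.neg_pow (even_two_mul m), e]

theorem ocalg_int [CharZero F] (hi : ¬ IsSquare (-1 : F)) {c : F} {η : Bool}
    {TT : Finset (F × F × F)} (h : OC c η TT) : ∀ s ∈ Lam c, IsIntegral ℤ s := by
  intro s hs
  by_contra hn
  obtain ⟨O, -, hO⟩ := Subring.exists_le_valuationSubring_of_isIntegrallyClosedIn
    (R := (integralClosure ℤ F).toSubring) (x := s) hn
  have h1 : 1 < O.valuation s := not_le.1 fun h2 => hO ((O.valuation_le_one_iff s).1 h2)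
  have h2 : O.valuation s⁻¹ < 1 := by
    rw [map_inv₀]
    exact inv_lt_one_of_one_lt₀ h1
  obtain ⟨TT', h'⟩ := h.of_mem (lam_inv h.c0 h.c1 hs)
  obtain ⟨m, hm, e⟩ := otree h' O h2
  exact ocalg_root hi h' hm e

theorem ocalg_cases {l s : F} (h0 : l ≠ 0) (h1 : l ≠ 1) (hs : s ∈ Lam l) {m : ℕ}
    (e : s ^ (2 * m) = 1) :
    l ^ (2 * m) = 1 ∨ (1 - l) ^ (2 * m) = 1 ∨ l ^ (2 * m) = (1 - l) ^ (2 * m) := by
  have h3 : l - 1 ≠ 0 := sub_ne_zero.mpr h1
  have e1 : (l - 1) ^ (2 * m) = (1 - l) ^ (2 * m) := by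
    rw [← neg_sub 1 l, Even.neg_pow (even_two_mul m)]
  rcases mem_Lam.mp hs with k | k | k | k | k | k <;> subst k
  · exact Or.inl e
  · rw [inv_pow, inv_eq_one] at e
    exact Or.inl e
  · exact Or.inr (Or.inl e)
  · rw [inv_pow, inv_eq_one] at e
    exact Or.inr (Or.inl e)
  · rw [div_pow, div_eq_one_iff_eq (pow_ne_zero _ h0), e1] at e
    exact Or.inr (Or.inr e.symm)
  · rw [div_pow, div_eq_one_iff_eq (pow_ne_zero _ h3), e1] at e
    exact Or.inr (Or.inr e)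

omit [DecidableEq F] in
theorem ocalg_back [CharZero F] {l : F} (hl : IsIntegral ℚ l) {l' : ℂ}
    (hl' : Polynomial.aeval l' (minpoly ℚ l) = 0) (P : Polynomial ℚ)
    (hP : Polynomial.aeval l' P = 0) : Polynomial.aeval l P = 0 := by
  have e : minpoly ℚ l = minpoly ℚ l' :=
    minpoly.eq_of_irreducible_of_monic (minpoly.irreducible hl) hl' (minpoly.monic hl)
  have hd : minpoly ℚ l ∣ P := e ▸ minpoly.dvd ℚ l' hP
  exact Polynomial.aeval_eq_zero_of_dvd_aeval_eq_zero hd (minpoly.aeval ℚ l)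

theorem oalg [CharZero F] (hi : ¬ IsSquare (-1 : F)) {c : F} {η : Bool}
    {TT : Finset (F × F × F)} (h : OC c η TT) : False := by
  classical
  have hint := ocalg_int hi h
  obtain ⟨l', hl', hJ⟩ := conj_big h.c0 h.c1 h.cN hint
  have iq : IsIntegral ℚ c := (hint c (self_mem_Lam c)).tower_top
  obtain ⟨c', T1, h1, e, -⟩ := ocalg_spec h iq hl'
  rw [e rfl] at h1
  obtain ⟨s, hs, s1, s2⟩ := ocalg_norm h1.c0 h1.c1
  obtain ⟨T2, h2⟩ := h1.of_mem hs
  rcases le_total (1 / 8) ‖s‖ with k | k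
  · exact omid h2 k s1 s2 (ocalg_inv h1.c0 h1.c1 hs hJ)
  obtain ⟨m, hm, em⟩ := othin h2 k s2
  have e2 : (1 - s) ^ (2 * m) = 1 := by
    rw [← neg_sub s 1, Even.neg_pow (even_two_mul m), mul_comm, pow_mul, em, one_pow]
  rcases ocalg_cases h1.c0 h1.c1 (lam_one_sub h1.c0 h1.c1 hs) e2 with k1 | k1 | k1
  · have := ocalg_back iq hl' (Polynomial.X ^ (2 * m) - 1) (by simp [k1])
    simp only [map_sub, map_pow, Polynomial.aeval_X, map_one] at this
    exact ocalg_root' hi h (self_mem_Lam c) hm (sub_eq_zero.mp this)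
  · have := ocalg_back iq hl' ((1 - Polynomial.X) ^ (2 * m) - 1) (by simp [k1])
    simp only [map_sub, map_pow, Polynomial.aeval_X, map_one] at this
    exact ocalg_root' hi h (lam_one_sub h.c0 h.c1 (self_mem_Lam c)) hm (sub_eq_zero.mp this)
  · have := ocalg_back iq hl' (Polynomial.X ^ (2 * m) - (1 - Polynomial.X) ^ (2 * m))
      (by simp [k1])
    simp only [map_sub, map_pow, Polynomial.aeval_X, map_one] at this
    refine ocalg_root' hi h (s := c / (c - 1)) (by simp [mem_Lam]) hm ?_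
    rw [div_pow, div_eq_one_iff_eq (pow_ne_zero _ (sub_ne_zero.mpr h.c1)), ← neg_sub 1 c,
      Even.neg_pow (even_two_mul m)]
    exact sub_eq_zero.mp this

end Pool.Agent.P.MP_862e21_al
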