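import Pool.Agent.P.MP_862e21_al.ODefs

namespace Pool.Agent.P.MP_862e21_al

open Finset Pointwise

variable {F : Type*} [Field F] [DecidableEq F]

omit [DecidableEq F] in
theorem OCBasic_PW_ne {c : F} (c0 : c ≠ 0) (i : Fin 6) :
    ¬ ((PW c i).1 = 0 ∧ (PW c i).2 = 0) := by
  fin_cases i <;> simp [PW, c0]

omit [DecidableEq F] in
/-- the differences of the six points of a triple -/
theorem six_param {c x y z : F} (c0 : c ≠ 0) (c1 : c ≠ 1) (hxy : x ≠ y) (hxz : x ≠ z)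
    (hyz : y ≠ z) {p : Fin 6 → F}
    (hp : ∀ i, (PW c i).2 * ((p i - y) * (z - x)) = (PW c i).1 * ((z - y) * (p i - x)))
    {u Δ : F} (hu : u = (z - x) / (z - y)) (hΔ : Δ = (y - x) * u) :
    Δ ≠ 0 ∧ (∀ i, (PW c i).1 - u * (PW c i).2 ≠ 0) ∧
      ∀ i j, p i - p j =
        Δ * br c i j / (((PW c i).1 - u * (PW c i).2) * ((PW c j).1 - u * (PW c j).2)) := by
  have hzy : z - y ≠ 0 := sub_ne_zero.mpr hyz.symm
  have hzx : z - x ≠ 0 := sub_ne_zero.mpr hxz.symm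
  have hyx : y - x ≠ 0 := sub_ne_zero.mpr hxy.symm
  have _hc1 := c1
  have hu' : u * (z - y) = z - x := by rw [hu]; field_simp
  have u0 : u ≠ 0 := by rw [hu]; exact div_ne_zero hzx hzy
  have D0 : Δ ≠ 0 := by rw [hΔ]; exact mul_ne_zero hyx u0
  have key : ∀ i, (p i - x) * ((PW c i).1 - u * (PW c i).2) = -((PW c i).2 * Δ) := by
    intro i
    apply mul_left_cancel₀ hzy
    have e := hp i
    rw [← hu'] at e
    rw [hΔ]
    linear_combination -e
  have l0 : ∀ i, (PW c i).1 - u * (PW c i).2 ≠ 0 := by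
    intro i h0
    have e := key i
    rw [h0, mul_zero] at e
    have b0 : (PW c i).2 = 0 := by
      have e' : (PW c i).2 * Δ = 0 := by linear_combination e
      exact (mul_eq_zero.mp e').resolve_right D0
    refine OCBasic_PW_ne c0 i ⟨?_, b0⟩
    rw [b0] at h0
    simpa using h0
  refine ⟨D0, l0, fun i j => ?_⟩
  rw [eq_div_iff (mul_ne_zero (l0 i) (l0 j))]
  unfold br
  linear_combination ((PW c j).1 - u * (PW c j).2) * key i - ((PW c i).1 - u * (PW c i).2) * key j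

theorem OC.cyc {c : F} {η : Bool} {TT : Finset (F × F × F)} (h : OC c η TT) {x y z : F}
    (ht : (x, y, z) ∈ TT) : (y, z, x) ∈ TT := by
  obtain ⟨p, κ, p0, p1, p2, k0, k1, k2, -, hc⟩ := h.ext _ ht
  have e := hc 1 2 0 (by rw [k1, k2]; decide) (by rw [k1, k0]; decide) (by rw [k2, k0]; decide)
    (by rw [← ori_cyc η 0 1 2]; exact ori_012 η)
  rw [p0, p1, p2] at e
  exact e

/-- the relabelling used for the rotation -/
def OCBasic_sg : Fin 6 → Fin 6 := ![0, 1, 2, 4, 5, 3]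

/-- the relabelling used for the reversal -/
def OCBasic_rh : Fin 6 → Fin 6 := ![0, 2, 1, 3, 5, 4]

theorem OCBasic_ori_sg : ∀ η i j k, ori η i j k = true →
    ori η (OCBasic_sg i) (OCBasic_sg j) (OCBasic_sg k) = true := by decide

theorem OCBasic_ori_rh : ∀ η i j k, ori η i j k = true →
    ori η (OCBasic_rh i) (OCBasic_rh k) (OCBasic_rh j) = true := by decide

theorem OC.rot {c : F} {η : Bool} {TT : Finset (F × F × F)} (h : OC c η TT) :
    OC (1 - c)⁻¹ η TT := by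
  have c0 := h.c0
  have c1 : 1 - c ≠ 0 := sub_ne_zero.mpr h.c1.symm
  refine ⟨inv_ne_zero c1, ?_, ?_, h.ne, h.dist, ?_⟩
  · intro e
    have e' : 1 - c = 1 := by rwa [inv_eq_one] at e
    exact c0 (by linear_combination -e')
  · intro e
    apply h.cN
    have e' : ((1 - c)⁻¹ ^ 2 - (1 - c)⁻¹ + 1) * (1 - c) ^ 2 = c ^ 2 - c + 1 := by
      field_simp; ring
    rw [← e', e, zero_mul]
  · intro t ht
    obtain ⟨p, κ, p0, p1, p2, k0, k1, k2, he, hc⟩ := h.ext t ht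
    refine ⟨fun i => p (OCBasic_sg i), fun i => κ (OCBasic_sg i), p0, p1, p2, k0, k1, k2, ?_, ?_⟩
    · have hi : (1 - c)⁻¹ * (1 - c) = 1 := inv_mul_cancel₀ c1
      have e0 := he 0
      have e1 := he 1
      have e2 := he 2
      have e3 := he 3
      have e4 := he 4
      have e5 := he 5
      simp only [PW, Matrix.cons_val] at e0 e1 e2 e3 e4 e5
      intro i
      fin_cases i <;> simp only [PW, OCBasic_sg, Fin.zero_eta, Fin.mk_one, Fin.reduceFinMk,
        Matrix.cons_val]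
      · exact e0
      · exact e1
      · exact e2
      · linear_combination (1 - c)⁻¹ * e4 - ((p 4 - t.2.1) * (t.2.2 - t.1)) * hi
      · linear_combination (-(1 - c)⁻¹) * e5 + ((t.2.2 - t.2.1) * (p 5 - t.1)
          - (p 5 - t.2.1) * (t.2.2 - t.1)) * hi
      · linear_combination (1 - c)⁻¹ * e3 - ((t.2.2 - t.2.1) * (p 3 - t.1)) * hi
    · intro i j k h1 h2 h3 ho
      exact hc _ _ _ h1 h2 h3 (OCBasic_ori_sg η i j k ho)

theorem OC.rev {c : F} {η : Bool} {TT : Finset (F × F × F)} (h : OC c η TT) :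
    OC (1 - c) η (TT.image fun t => (t.1, t.2.2, t.2.1)) := by
  refine ⟨sub_ne_zero.mpr h.c1.symm, ?_, ?_, h.ne.image _, ?_, ?_⟩
  · intro e
    exact h.c0 (by linear_combination -e)
  · intro e
    exact h.cN (by linear_combination e)
  · intro t' ht'
    obtain ⟨t, ht, rfl⟩ := mem_image.mp ht'
    obtain ⟨d1, d2, d3⟩ := h.dist t ht
    exact ⟨d2, d1, d3.symm⟩
  · intro t' ht'
    obtain ⟨t, ht, rfl⟩ := mem_image.mp ht'
    obtain ⟨p, κ, p0, p1, p2, k0, k1, k2, he, hc⟩ := h.ext t ht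
    refine ⟨fun i => p (OCBasic_rh i), fun i => Equiv.swap 1 2 (κ (OCBasic_rh i)), p0, p2, p1,
      ?_, ?_, ?_, ?_, ?_⟩
    · change Equiv.swap 1 2 (κ 0) = 0
      rw [k0]; decide
    · change Equiv.swap 1 2 (κ 2) = 1
      rw [k2]; decide
    · change Equiv.swap 1 2 (κ 1) = 2
      rw [k1]; decide
    · have e0 := he 0
      have e1 := he 1
      have e2 := he 2
      have e3 := he 3
      have e4 := he 4
      have e5 := he 5
      simp only [PW, Matrix.cons_val] at e0 e1 e2 e3 e4 e5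
      intro i
      fin_cases i <;> simp only [PW, OCBasic_rh, Fin.zero_eta, Fin.mk_one, Fin.reduceFinMk,
        Matrix.cons_val]
      · linear_combination -e0
      · linear_combination e2
      · linear_combination e1
      · linear_combination e3
      · linear_combination e5
      · linear_combination e4
    · intro i j k h1 h2 h3 ho
      have n1 : κ (OCBasic_rh i) ≠ κ (OCBasic_rh j) := fun e => h1 (by simp only [e])
      have n2 : κ (OCBasic_rh i) ≠ κ (OCBasic_rh k) := fun e => h2 (by simp only [e])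
      have n3 : κ (OCBasic_rh j) ≠ κ (OCBasic_rh k) := fun e => h3 (by simp only [e])
      exact mem_image.mpr ⟨_, hc _ _ _ n2 n1 n3.symm (OCBasic_ori_rh η i j k ho), rfl⟩

theorem OC.of_mem {c s : F} {η : Bool} {TT : Finset (F × F × F)} (h : OC c η TT)
    (hs : s ∈ Lam c) : ∃ TT' : Finset (F × F × F), OC s η TT' := by
  have c0 := h.c0
  have c1 : 1 - c ≠ 0 := sub_ne_zero.mpr h.c1.symm
  have c2 : c - 1 ≠ 0 := sub_ne_zero.mpr h.c1
  have a1 : c⁻¹ = (1 - (1 - c))⁻¹ := by rw [sub_sub_cancel]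
  have a2 : (c - 1) / c = (1 - (1 - c)⁻¹)⁻¹ := by
    apply eq_inv_of_mul_eq_one_left
    field_simp
    ring
  have a3 : c / (c - 1) = (1 - (1 - (1 - c))⁻¹)⁻¹ := by
    rw [sub_sub_cancel]
    apply eq_inv_of_mul_eq_one_left
    field_simp
  rcases mem_Lam.mp hs with e | e | e | e | e | e <;> rw [e]
  · exact ⟨_, h⟩
  · rw [a1]; exact ⟨_, h.rev.rot⟩
  · exact ⟨_, h.rev⟩
  · exact ⟨_, h.rot⟩
  · rw [a2]; exact ⟨_, h.rot.rot⟩
  · rw [a3]; exact ⟨_, h.rev.rot.rot⟩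

theorem OCBasic_other : ∀ a : Fin 3, ∃ j k : Fin 6, ∃ b c : Fin 3, a ≠ b ∧ a ≠ c ∧ b ≠ c ∧
    ∀ κ : Fin 6 → Fin 3, κ 0 = 0 → κ 1 = 1 → κ 2 = 2 → κ j = b ∧ κ k = c := by
  intro a
  fin_cases a
  · exact ⟨1, 2, 1, 2, by decide, by decide, by decide, fun _ _ h1 h2 => ⟨h1, h2⟩⟩
  · exact ⟨0, 2, 0, 2, by decide, by decide, by decide, fun _ h0 _ h2 => ⟨h0, h2⟩⟩
  · exact ⟨0, 1, 0, 1, by decide, by decide, by decide, fun _ h0 h1 _ => ⟨h0, h1⟩⟩

/-- transport along a map that respects the ring operations on a set `R` -/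
theorem OC.map {F' : Type*} [Field F'] [DecidableEq F'] {c : F} {η : Bool}
    {TT : Finset (F × F × F)} (h : OC c η TT) (R : Subring F) (g : F → F') (g1 : g 1 = 1)
    (gsub : ∀ x ∈ R, ∀ y ∈ R, g (x - y) = g x - g y)
    (gmul : ∀ x ∈ R, ∀ y ∈ R, g (x * y) = g x * g y) (hc : c ∈ R) (hT : ∀ t ∈ TT, t.1 ∈ R)
    (hinj : ∀ t ∈ TT, g t.1 ≠ g t.2.1) (g0 : g c ≠ 0) (g1' : g c ≠ 1)
    (gN : g c ^ 2 - g c + 1 ≠ 0) :
    OC (g c) η (TT.image fun t => (g t.1, g t.2.1, g t.2.2)) := by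
  have gz : g 0 = 0 := by
    have e := gsub 1 R.one_mem 1 R.one_mem
    rwa [sub_self, sub_self] at e
  have ga : g (1 - c) = 1 - g c := by rw [gsub 1 R.one_mem c hc, g1]
  have gb : g (c - 1) = g c - 1 := by rw [gsub c hc 1 R.one_mem, g1]
  have ra : 1 - c ∈ R := R.sub_mem R.one_mem hc
  have rb : c - 1 ∈ R := R.sub_mem hc R.one_mem
  have hW : ∀ i, ((PW c i).1 ∈ R ∧ (PW c i).2 ∈ R) ∧
      g (PW c i).1 = (PW (g c) i).1 ∧ g (PW c i).2 = (PW (g c) i).2 := by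
    intro i
    fin_cases i <;> simp only [PW, Fin.zero_eta, Fin.mk_one, Fin.reduceFinMk, Matrix.cons_val]
    · exact ⟨⟨R.one_mem, R.zero_mem⟩, g1, gz⟩
    · exact ⟨⟨R.zero_mem, R.one_mem⟩, gz, g1⟩
    · exact ⟨⟨R.one_mem, R.one_mem⟩, g1, g1⟩
    · exact ⟨⟨hc, R.one_mem⟩, trivial, g1⟩
    · exact ⟨⟨R.one_mem, ra⟩, g1, ga⟩
    · exact ⟨⟨rb, hc⟩, gb, trivial⟩
  refine ⟨g0, g1', gN, h.ne.image _, ?_, ?_⟩
  · intro t' ht'
    obtain ⟨⟨x, y, z⟩, ht, rfl⟩ := mem_image.mp ht'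
    exact ⟨hinj _ ht, (hinj _ (h.cyc (h.cyc ht))).symm, hinj _ (h.cyc ht)⟩
  · intro t' ht'
    obtain ⟨⟨x, y, z⟩, ht, rfl⟩ := mem_image.mp ht'
    obtain ⟨p, κ, p0, p1, p2, k0, k1, k2, he, hcl⟩ := h.ext _ ht
    have hp : ∀ i, p i ∈ R := by
      intro i
      obtain ⟨j, k, a, b, n1, n2, n3, hk⟩ := OCBasic_other (κ i)
      obtain ⟨ej, ek⟩ := hk κ k0 k1 k2
      rw [← ej] at n1 n3
      rw [← ek] at n2 n3
      rcases ori_tot η i j k (fun e => n1 (by rw [e])) (fun e => n2 (by rw [e]))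
        (fun e => n3 (by rw [e])) with ho | ho
      · exact hT _ (hcl i j k n1 n2 n3 ho)
      · exact hT _ (hcl i k j n2 n1 n3.symm ho)
    have rx : x ∈ R := hT _ ht
    have ry : y ∈ R := hT _ (h.cyc ht)
    have rz : z ∈ R := hT _ (h.cyc (h.cyc ht))
    refine ⟨fun i => g (p i), κ, congrArg g p0, congrArg g p1, congrArg g p2, k0, k1, k2, ?_, ?_⟩
    · intro i
      have e := congrArg g (he i)
      obtain ⟨⟨w1, w2⟩, v1, v2⟩ := hW i
      dsimp only at e ⊢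
      rw [gmul _ w2 _ (R.mul_mem (R.sub_mem (hp i) ry) (R.sub_mem rz rx)),
        gmul _ w1 _ (R.mul_mem (R.sub_mem rz ry) (R.sub_mem (hp i) rx)),
        gmul _ (R.sub_mem (hp i) ry) _ (R.sub_mem rz rx),
        gmul _ (R.sub_mem rz ry) _ (R.sub_mem (hp i) rx),
        gsub _ (hp i) _ ry, gsub _ rz _ rx, gsub _ rz _ ry, gsub _ (hp i) _ rx, v1, v2] at e
      exact e
    · intro i j k h1 h2 h3 ho
      exact mem_image.mpr ⟨_, hcl i j k h1 h2 h3 ho, rfl⟩

end Pool.Agent.P.MP_862e21_al
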