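import Pool.Agent.P.MP_862e21_al.ODefs

namespace Pool.Agent.P.MP_862e21_al

/-- one Newton step for the square root, from above -/
def nw (n g : ℕ) : ℕ := Nat.succ (Nat.div (Nat.add g (Nat.div n g)) 2)

/-- absolute value of `p - n` -/
def ab (p n : ℕ) : ℕ := Nat.add (Nat.sub p n) (Nat.sub n p)

def sq2 (a b : ℕ) : ℕ := Nat.add (Nat.mul a a) (Nat.mul b b)

def nw2 (n g : ℕ) : ℕ := nw n (nw n g)

/-- upper bound for the norm of `a + i b` -/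
def nrm (a b : ℕ) : ℕ := Bool.rec (nw2 (sq2 a b) (Nat.add a b)) a (Nat.beq b 0)

/-- upper bound for the square root -/
def sqU (n : ℕ) : ℕ := nw n (nw2 n (nw2 n 65536))

/-- a Gaussian integer with both coordinates written as differences -/
structure GI where
  xp : ℕ
  xn : ℕ
  yp : ℕ
  yn : ℕ

def GI.nrm (v : GI) : ℕ := MP_862e21_al.nrm (ab v.xp v.xn) (ab v.yp v.yn)

/-- `w + (X + i Y) v` -/
def GI.fma (w : GI) (X Y : ℕ) (v : GI) : GI :=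
  ⟨Nat.add w.xp (Nat.add (Nat.mul X v.xp) (Nat.mul Y v.yn)),
    Nat.add w.xn (Nat.add (Nat.mul X v.xn) (Nat.mul Y v.yp)),
    Nat.add w.yp (Nat.add (Nat.mul X v.yp) (Nat.mul Y v.xp)),
    Nat.add w.yn (Nat.add (Nat.mul X v.yn) (Nat.mul Y v.xn))⟩

/-- value, derivative and error bound -/
structure TM where
  v : GI
  d : GI
  e : ℕ

def horS (X Y r2 cH : ℕ) (p : ℕ × ℕ) (t : TM) : TM :=
  ⟨GI.fma ⟨p.1, p.2, 0, 0⟩ X Y t.v, GI.fma t.v X Y t.d,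
    Nat.add (Nat.mul cH t.e) (Nat.mul t.d.nrm r2)⟩

def hor (X Y r2 cH : ℕ) (l : List (ℕ × ℕ)) : TM :=
  List.rec ⟨⟨0, 0, 0, 0⟩, ⟨0, 0, 0, 0⟩, 0⟩ (fun p _ t => horS X Y r2 cH p t) l

def TM.rad (t : TM) (r : ℕ) : ℕ := Nat.add (Nat.mul t.d.nrm r) t.e

def sel (t h1 h2 h3 : ℕ) : ℕ :=
  Bool.rec (Bool.rec (Bool.rec h3 h2 (Nat.beq t 2)) h1 (Nat.beq t 1)) 65536 (Nat.beq t 0)

/-- a pair of points next to a vertex -/
structure PE where
  b : Fin 6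
  e : Fin 6
  t1 : ℕ
  t2 : ℕ
  t3 : ℕ
  m : ℕ

/-- a vertex with two polynomials -/
structure PS where
  a : Fin 6
  pa : List (ℕ × ℕ)
  pb : List (ℕ × ℕ)

/-- an oriented triple with its polynomials -/
structure TE where
  i : Fin 6
  j : Fin 6
  k : Fin 6
  m : ℕ
  t1 : ℕ
  t2 : ℕ
  t3 : ℕ
  ps : List PS

structure Ent where
  a : GI
  b : GI
  rb : ℕ
  nb : ℕ
  ks : List (ℕ × ℕ)

/-- the data of a box -/
structure Bx where
  X : ℕ
  Y : ℕ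
  r : ℕ
  r2 : ℕ
  cH : ℕ
  s1 : ℕ
  s2 : ℕ
  s3 : ℕ
  t1 : ℕ
  t2 : ℕ
  t3 : ℕ

def thr (B : Bx) (D ra : ℕ) (p : PE) : ℕ :=
  Nat.add (Nat.succ (Nat.div
    (Nat.mul D (Nat.mul (sel p.t1 B.s1 B.s2 B.s3) (sel p.t2 B.s1 B.s2 B.s3)))
    (sel p.t3 B.t1 B.t2 B.t3))) ra

def mkKs (B : Bx) (D ra : ℕ) (l : List PE) : ℕ → List (ℕ × ℕ) :=
  List.rec (fun _ => []) (fun p _ ih w =>
    Bool.rec ((thr B D ra p, p.m) :: ih (Nat.div w 2)) (ih (Nat.div w 2))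
      (Nat.beq (Nat.mod w 2) 0)) l

def mkEnt (B : Bx) (D : ℕ) (ta tb : TM) (q : List PE) (w : ℕ) : Ent :=
  ⟨⟨Nat.mul 65536 (Nat.add ta.v.xp tb.v.yn), Nat.mul 65536 (Nat.add ta.v.xn tb.v.yp),
      Nat.mul 65536 (Nat.add ta.v.yp tb.v.xp), Nat.mul 65536 (Nat.add ta.v.yn tb.v.xn)⟩,
    ⟨tb.v.xn, tb.v.xp, tb.v.yn, tb.v.yp⟩, tb.rad B.r, tb.v.nrm,
    mkKs B D (Nat.mul 65536 (ta.rad B.r)) q w⟩

def mkEnts (PT : List (List PE)) (B : Bx) (D : ℕ) (l : List PS) : ℕ → List Ent :=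
  List.rec (fun _ => []) (fun p _ ih w =>
    Bool.rec (mkEnt B D (hor B.X B.Y B.r2 B.cH p.pa) (hor B.X B.Y B.r2 B.cH p.pb)
        (PT.getD p.a.val []) (Nat.mod w 1024) :: ih (Nat.div w 1024)) (ih (Nat.div w 1024))
      (Nat.beq (Nat.mod w 1024) 0)) l

def mkSlot (PT : List (List PE)) (B : Bx) (t : TE) (w : ℕ) : List Ent :=
  mkEnts PT B (Nat.mul 65536 (Nat.mul (sel t.t1 B.s1 B.s2 B.s3)
    (Nat.mul (sel t.t2 B.s1 B.s2 B.s3) (sel t.t3 B.s1 B.s2 B.s3)))) t.ps w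

def nth (t0 : TE) (l : List TE) : ℕ → TE :=
  List.rec (fun _ => t0) (fun t _ ih n => Bool.rec (ih (Nat.sub n 1)) t (Nat.beq n 0)) l

def mkSl (PT : List (List PE)) (B : Bx) (t : TE) (w : ℕ) : ℕ × List Ent := (t.m, mkSlot PT B t w)

def mkSlots (t0 : TE) (TAB : List TE) (PT : List (List PE)) (B : Bx) (l : List ℕ) :
    List (ℕ × List Ent) :=
  List.rec [] (fun w _ ih => mkSl PT B (nth t0 TAB (Nat.mod w 32)) (Nat.div w 32) :: ih) l

def big (n T : ℕ) : Bool := Nat.ble n (Nat.mul T T)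

def killK (n R : ℕ) (l : List (ℕ × ℕ)) (acc : ℕ) : ℕ :=
  List.rec acc (fun p _ ih => Bool.rec (Nat.lor ih p.2) ih (big n (Nat.add p.1 R))) l

def GI.sq (v : GI) : ℕ := sq2 (ab v.xp v.xn) (ab v.yp v.yn)

def kill (X Y uH ρ : ℕ) (l : List Ent) : ℕ :=
  List.rec 0 (fun e _ ih =>
    killK (GI.fma e.a X Y e.b).sq (Nat.add (Nat.mul e.rb uH) (Nat.mul e.nb ρ)) e.ks ih) l

def leaf (X Y uH ρ m0 : ℕ) (l : List (ℕ × List Ent)) : ℕ → ℕ :=
  List.rec (fun _ => m0) (fun s _ ih w =>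
    Bool.rec
      (Bool.rec (ih (Nat.div w 2)) (Nat.lor (ih (Nat.div w 2)) s.1)
        (Nat.beq (kill X Y uH ρ s.2) 18014398509481983))
      (ih (Nat.div w 2)) (Nat.beq (Nat.mod w 2) 0)) l

/-- radius of the disc around a square of half side `s` -/
def rad (s : ℕ) : ℕ := Nat.succ (Nat.div (Nat.mul s 1449) 1024)

def leafC (base : List Ent) (sl : List (ℕ × List Ent)) (X Y uH ρ w : ℕ) : Bool :=
  Nat.beq (leaf X Y uH ρ (kill X Y uH ρ base) sl w) 18014398509481983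

def leafB (base : List Ent) (sl : List (ℕ × List Ent)) (X Y ρ w : ℕ) : Bool :=
  leafC base sl X Y (Nat.add (nrm X (ab Y 65536)) ρ) ρ w

/-- a square with corner `(x, y)` and half side `s` is a leaf -/
def leafA (base : List Ent) (sl : List (ℕ × List Ent)) (ns s x y w : ℕ) : ℕ :=
  Bool.rec 0 (Nat.shiftRight w ns) (leafB base sl (Nat.add x s) (Nat.add y s) (rad s) w)

def andT (w : ℕ) (f : ℕ → ℕ) : ℕ := Bool.rec (f w) 0 (Nat.beq w 0)

def spl (f : ℕ → ℕ → ℕ → ℕ) (s x y w : ℕ) : ℕ :=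
  andT (andT (andT (f x y w) (f x (Nat.add y s))) (f (Nat.add x s) y))
    (f (Nat.add x s) (Nat.add y s))

/-- the cells of the second variable, side `2 ^ k`; the value `0` means failure -/
def chkU (base : List Ent) (sl : List (ℕ × List Ent)) (ns k : ℕ) : ℕ → ℕ → ℕ → ℕ :=
  Nat.rec (fun _ _ _ => 0) (fun k ih x y st =>
    Bool.rec (leafA base sl ns (Nat.pow 2 k) x y (Nat.div st 2))
      (spl ih (Nat.pow 2 k) x y (Nat.div st 2)) (Nat.beq (Nat.mod st 2) 0)) k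

def TM.lo (t : TM) (r : ℕ) : ℕ := Nat.sub (Nat.div t.v.sq t.v.nrm) (t.rad r)

def TM.hi (t : TM) (r : ℕ) : ℕ := Nat.add t.v.nrm (t.rad r)

def sqL (n : ℕ) : ℕ := Nat.div n (sqU n)

/-- the box misses the region -/
def disc (h1 h2 h3 l1 l2 : ℕ) : Bool :=
  Nat.blt (Nat.mul 8 h1) 4294967296 || Nat.blt 4294967296 l2 || Nat.blt h2 l1 ||
    Nat.blt (Nat.mul 4294967296 (Nat.pow h3 3)) (Nat.mul (Nat.mul l1 l1) (Nat.mul l2 l2))

def runU (base : List Ent) (sl : List (ℕ × List Ent)) (ns st : ℕ) : Bool :=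
  Nat.blt 0 (andT (chkU base sl ns 16 0 65536 st) (chkU base sl ns 16 0 0))

def boxOk (t0 : TE) (TAB : List TE) (PT : List (List PE)) (B : Bx) (st w0 : ℕ) (ws : List ℕ) :
    Bool :=
  Nat.blt 0 B.t1 && Nat.blt 0 B.t2 && Nat.blt 0 B.t3 &&
    runU (mkSlot PT B t0 w0) (mkSlots t0 TAB PT B ws) ws.length st

def boxC (t0 : TE) (TAB : List TE) (PT : List (List PE)) (X Y r r2 cH : ℕ) (a b c : TM) :
    List ℕ → Bool
  | st :: w0 :: ws => boxOk t0 TAB PT ⟨X, Y, r, r2, cH, sqU (a.hi r), sqU (b.hi r), sqU (c.hi r),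
      sqL (a.lo r), sqL (b.lo r), sqL (c.lo r)⟩ st w0 ws
  | _ => disc (a.hi r) (b.hi r) (c.hi r) (a.lo r) (b.lo r)

def boxB (t0 : TE) (TAB : List TE) (PT : List (List PE)) (X Y r r2 cH : ℕ) (d : List ℕ) : Bool :=
  boxC t0 TAB PT X Y r r2 cH (hor X Y r2 cH [(0, 0), (65536, 0)])
    (hor X Y r2 cH [(4294967296, 0), (0, 65536)])
    (hor X Y r2 cH [(4294967296, 0), (0, 65536), (1, 0)]) d

def boxA (t0 : TE) (TAB : List TE) (PT : List (List PE)) (X Y r : ℕ) (d : List ℕ) : Bool :=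
  boxB t0 TAB PT X Y r (Nat.mul r r) (Nat.add (nrm X Y) r) d

/-- the boxes of the first variable, side `2 ^ k` -/
def chkC (t0 : TE) (TAB : List TE) (PT : List (List PE)) :
    ℕ → ℕ → ℕ → List (List ℕ) → Option (List (List ℕ))
  | 0, _, _, _ => none
  | _, _, _, [] => none
  | k + 1, x, y, [] :: l =>
    ((((chkC t0 TAB PT k x y l).bind (chkC t0 TAB PT k x (Nat.add y (Nat.pow 2 k)))).bind
      (chkC t0 TAB PT k (Nat.add x (Nat.pow 2 k)) y)).bind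
      (chkC t0 TAB PT k (Nat.add x (Nat.pow 2 k)) (Nat.add y (Nat.pow 2 k))))
  | k + 1, x, y, (a :: d) :: l =>
    Bool.rec none (some l) (boxA t0 TAB PT (Nat.add x (Nat.pow 2 k)) (Nat.add y (Nat.pow 2 k))
      (rad (Nat.pow 2 k)) (a :: d))

/-! the tables and their checks -/

def padd : List ℤ → List ℤ → List ℤ
  | [], q => q
  | p, [] => p
  | a :: p, b :: q => (a + b) :: padd p q

def pmul : List ℤ → List ℤ → List ℤ
  | [], _ => []
  | a :: p, q => padd (q.map (a * ·)) (0 :: pmul p q)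

def psub (p q : List ℤ) : List ℤ := padd p (q.map (-·))

def pA : Fin 6 → List ℤ := ![[65536], [], [65536], [0, 1], [65536], [-65536, 1]]

def pB : Fin 6 → List ℤ := ![[], [65536], [65536], [65536], [65536, -1], [0, 1]]

def pbr (i j : Fin 6) : List ℤ := psub (pmul (pA i) (pB j)) (pmul (pB i) (pA j))

def pL (i j k a : Fin 6) (f : Fin 6 → List ℤ) : List ℤ :=
  psub (pmul (pmul (pA a) (pbr k j)) (f i)) (pmul (pmul (pB a) (pbr k i)) (f j))

def peq (l : List (ℕ × ℕ)) (q : List ℤ) : Bool :=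
  (psub (l.map fun p => (p.1 : ℤ) - p.2) q).all (· == 0)

/-- which of `1, c, 1 - c, c ^ 2 - c + 1` a bracket is, up to sign -/
def ty : Fin 6 → Fin 6 → ℕ :=
  ![![0, 0, 0, 0, 2, 1], ![0, 0, 0, 1, 0, 2], ![0, 0, 0, 2, 1, 0], ![0, 1, 2, 0, 3, 3],
    ![2, 0, 1, 3, 0, 3], ![1, 2, 0, 3, 3, 0]]

def col (N : ℕ) : Fin 6 → ℕ := ![0, 1, 2, N % 3, N / 3 % 3, N / 9 % 3]

def rb (N : ℕ) (a b e : Fin 6) : Bool := col N a != col N b && col N a != col N e && col N b != col N e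

def peOk (a : Fin 6) (q : PE) : Bool :=
  q.t1 == ty a q.b && q.t2 == ty a q.e && q.t3 == ty q.b q.e &&
    (List.range 54).all fun N => !q.m.testBit N || rb N a q.b q.e

def teOk (t : TE) : Bool :=
  t.t1 == ty t.k t.j && t.t2 == ty t.j t.i && t.t3 == ty t.k t.i &&
    t.k != t.j && t.j != t.i && t.k != t.i &&
    ((List.range 54).all fun N =>
      !t.m.testBit N || (rb N t.i t.j t.k && ori (decide (27 ≤ N)) t.i t.j t.k)) &&
    t.ps.all fun p => peq p.pa (pL t.i t.j t.k p.a pA) && peq p.pb (pL t.i t.j t.k p.a pB)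

end Pool.Agent.P.MP_862e21_al
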