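import Pool.Agent.P.MP_862e21_al.OCBasic
import Pool.Agent.P.MP_862e21_al.OBasic

namespace Pool.Agent.P.MP_862e21_al

open Finset Pointwise

variable {F : Type*} [Field F] [DecidableEq F]

/-- the table of the brackets -/
def ofinTb {R : Type*} [CommRing R] (c u N : R) : Fin 6 → Fin 6 → R :=
  ![![0, 1, 1, 1, u, c], ![-1, 0, -1, -c, -1, u], ![-1, 1, 0, u, -c, 1],
    ![-1, c, -u, 0, -N, N], ![-u, 1, c, N, 0, N], ![-c, -u, -1, -N, -N, 0]]

theorem ofin_br {R : Type*} [CommRing R] (c : R) (i j : Fin 6) :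
    br c i j = ofinTb c (1 - c) (c ^ 2 - c + 1) i j := by
  fin_cases i <;> fin_cases j <;> simp [br, PW, ofinTb] <;> ring

theorem ofin_tb_char [Fintype F] {c u N : F} {e : ℤ} (hm : quadraticChar F (-1) = -1)
    (hc : quadraticChar F c = -1) (hu : quadraticChar F u = -1) (hN : quadraticChar F N = e)
    (i j : Fin 6) : quadraticChar F (ofinTb c u N i j) = sgn e i j := by
  have hneg : ∀ a : F, quadraticChar F (-a) = -quadraticChar F a := by
    intro a
    rw [neg_eq_neg_one_mul, map_mul, hm]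
    ring
  have h0 : quadraticChar F 0 = 0 := MulChar.map_zero _
  have h1 : quadraticChar F 1 = 1 := map_one _
  have hc' : quadraticChar F (-c) = 1 := by rw [hneg, hc]; ring
  have hu' : quadraticChar F (-u) = 1 := by rw [hneg, hu]; ring
  have hN' : quadraticChar F (-N) = -e := by rw [hneg, hN]
  fin_cases i <;> fin_cases j <;>
    first
      | exact h0
      | exact h1
      | exact hm
      | exact hc
      | exact hu
      | exact hN
      | exact hc'
      | exact hu'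
      | exact hN'

theorem ofin_char [Fintype F] {c : F} (h : Spl c) (i j : Fin 6) :
    quadraticChar F (br c i j) =
      sgn (if decide (quadraticChar F (c ^ 2 - c + 1) = 1) then 1 else -1) i j := by
  rw [ofin_br]
  refine ofin_tb_char (quadraticChar_neg_one_iff_not_isSquare.2 h.neg)
    (quadraticChar_neg_one_iff_not_isSquare.2 h.n0)
    (quadraticChar_neg_one_iff_not_isSquare.2 h.n1) ?_ i j
  rcases quadraticChar_dichotomy (h.h3 c) with h1 | h1
  · rw [h1]; simp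
  · rw [h1]; simp

theorem ofin_vd [Fintype F] {c Δ : F} {p l : Fin 6 → F} (hl : ∀ i, l i ≠ 0)
    (hp : ∀ i j, p i - p j = Δ * br c i j / (l i * l j)) (hΔ : Δ ≠ 0) (i j k : Fin 6) :
    quadraticChar F (Vd (p i) (p j) (p k)) = quadraticChar F Δ *
      (quadraticChar F (br c i j) * quadraticChar F (br c i k) * quadraticChar F (br c j k)) := by
  have hi := hl i
  have hj := hl j
  have hk := hl k
  have h1 : Vd (p i) (p j) (p k) =
      Δ * (br c i j * br c i k * br c j k) * (Δ / (l i * l j * l k)) ^ 2 := by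
    rw [Vd, hp i j, hp i k, hp j k]
    field_simp
  have h2 : Δ / (l i * l j * l k) ≠ 0 := div_ne_zero hΔ (mul_ne_zero (mul_ne_zero hi hj) hk)
  rw [h1, map_mul, quadraticChar_sq_one' h2, mul_one, map_mul, map_mul, map_mul]

theorem ofin_ext [Fintype F] {c : F} {A B C : Finset F} (h : OCl c A B C) {x y z : F}
    (hx : x ∈ A) (hy : y ∈ B) (hz : z ∈ C) (hs : IsSquare (Vd x y z)) :
    ∃ p : Fin 6 → F, p 0 = x ∧ p 1 = y ∧ p 2 = z ∧ (∀ i, p i ∈ A ∪ B ∪ C) ∧
      (∀ i, (PW c i).2 * ((p i - y) * (z - x)) = (PW c i).1 * ((z - y) * (p i - x))) ∧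
      ∀ i j k, ori (decide (quadraticChar F (c ^ 2 - c + 1) = 1)) i j k = true →
        IsSquare (Vd (p i) (p j) (p k)) := by
  have c0 := h.spl.c0
  have c1 := h.spl.c1
  have c1' : 1 - c ≠ 0 := sub_ne_zero.2 c1.symm
  have hxy : x ≠ y := fun e => Finset.disjoint_left.1 h.dAB hx (e ▸ hy)
  have hxz : x ≠ z := fun e => Finset.disjoint_left.1 h.dAC hx (e ▸ hz)
  have hyz : y ≠ z := fun e => Finset.disjoint_left.1 h.dBC hy (e ▸ hz)
  obtain ⟨p3, m3, e3⟩ := h.pos c (mem_Lp.2 (Or.inl rfl)) x hx y hy z hz hs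
  obtain ⟨p4, m4, e4⟩ := h.pos _ (mem_Lp.2 (Or.inr (Or.inl rfl))) x hx y hy z hz hs
  obtain ⟨p5, m5, e5⟩ := h.pos _ (mem_Lp.2 (Or.inr (Or.inr rfl))) x hx y hy z hz hs
  have mx : x ∈ A ∪ B ∪ C := by simp [hx]
  have my : y ∈ A ∪ B ∪ C := by simp [hy]
  have mz : z ∈ A ∪ B ∪ C := by simp [hz]
  have e4' : (1 - c) * ((p4 - y) * (z - x)) = 1 * ((z - y) * (p4 - x)) := by
    rw [e4]
    field_simp
  have e5' : c * ((p5 - y) * (z - x)) = (c - 1) * ((z - y) * (p5 - x)) := by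
    rw [e5]
    field_simp
  have hpar : ∀ i, (PW c i).2 * ((![x, y, z, p3, p4, p5] i - y) * (z - x)) =
      (PW c i).1 * ((z - y) * (![x, y, z, p3, p4, p5] i - x)) := by
    intro i
    fin_cases i
    · change 0 * ((x - y) * (z - x)) = 1 * ((z - y) * (x - x))
      ring
    · change 1 * ((y - y) * (z - x)) = 0 * ((z - y) * (y - x))
      ring
    · change 1 * ((z - y) * (z - x)) = 1 * ((z - y) * (z - x))
      ring
    · change 1 * ((p3 - y) * (z - x)) = c * ((z - y) * (p3 - x))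
      rw [e3]
      ring
    · exact e4'
    · exact e5'
  refine ⟨![x, y, z, p3, p4, p5], rfl, rfl, rfl, ?_, hpar, ?_⟩
  · intro i
    fin_cases i
    · exact mx
    · exact my
    · exact mz
    · exact m3
    · exact m4
    · exact m5
  · obtain ⟨hΔ, hl, hd⟩ := six_param c0 c1 hxy hxz hyz hpar rfl rfl
    have hv := ofin_vd hl hd hΔ
    have hne : Vd x y z ≠ 0 :=
      mul_ne_zero (mul_ne_zero (sub_ne_zero.2 hxy) (sub_ne_zero.2 hxz)) (sub_ne_zero.2 hyz)
    have h012 := hv 0 1 2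
    have ho := ori_012 (decide (quadraticChar F (c ^ 2 - c + 1) = 1))
    simp only [ofin_char h.spl] at hv h012
    rw [of_decide_eq_true ho] at h012
    have h1 : quadraticChar F (Vd x y z) = 1 := (quadraticChar_one_iff_isSquare hne).2 hs
    have h2 : quadraticChar F ((y - x) * ((z - x) / (z - y))) = -1 := by
      have h3 : (1 : ℤ) = quadraticChar F ((y - x) * ((z - x) / (z - y))) * -1 := h1.symm.trans h012
      linarith
    intro i j k hijk
    have h4 := hv i j k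
    rw [of_decide_eq_true hijk, h2] at h4
    by_contra hns
    rw [quadraticChar_neg_one_iff_not_isSquare.2 hns] at h4
    omega

/-- the colour of a point -/
def ofinCol (A B : Finset F) (w : F) : Fin 3 := if w ∈ A then 0 else if w ∈ B then 1 else 2

theorem ofin_cases {A B C : Finset F} {w : F} (hw : w ∈ A ∪ B ∪ C) :
    (w ∈ A ∧ ofinCol A B w = 0) ∨ (w ∈ B ∧ ofinCol A B w = 1) ∨ (w ∈ C ∧ ofinCol A B w = 2) := by
  by_cases h1 : w ∈ A
  · exact Or.inl ⟨h1, by simp [ofinCol, h1]⟩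
  · by_cases h2 : w ∈ B
    · exact Or.inr (Or.inl ⟨h2, by simp [ofinCol, h1, h2]⟩)
    · exact Or.inr (Or.inr ⟨by simpa [h1, h2] using hw, by simp [ofinCol, h1, h2]⟩)

theorem ofin_sort [Fintype F] {c : F} {A B C : Finset F} (h : OCl c A B C) {x y z : F}
    (hx : x ∈ A ∪ B ∪ C) (hy : y ∈ A ∪ B ∪ C) (hz : z ∈ A ∪ B ∪ C)
    (h1 : ofinCol A B x ≠ ofinCol A B y) (h2 : ofinCol A B x ≠ ofinCol A B z)
    (h3 : ofinCol A B y ≠ ofinCol A B z) :
    ∃ A' B' C' : Finset F, OCl c A' B' C' ∧ x ∈ A' ∧ y ∈ B' ∧ z ∈ C' ∧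
      ∀ w ∈ A' ∪ B' ∪ C', w ∈ A ∪ B ∪ C := by
  rcases ofin_cases hx with ⟨a1, a2⟩ | ⟨a1, a2⟩ | ⟨a1, a2⟩ <;>
    rcases ofin_cases hy with ⟨b1, b2⟩ | ⟨b1, b2⟩ | ⟨b1, b2⟩ <;>
    rcases ofin_cases hz with ⟨d1, d2⟩ | ⟨d1, d2⟩ | ⟨d1, d2⟩ <;>
    first
      | exact absurd (a2.trans b2.symm) h1
      | exact absurd (a2.trans d2.symm) h2
      | exact absurd (b2.trans d2.symm) h3
      | exact ⟨_, _, _, h, a1, b1, d1, fun w hw => hw⟩
      | exact ⟨_, _, _, h.swap23, a1, b1, d1, fun w hw => by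
          simp only [Finset.mem_union] at hw ⊢; tauto⟩
      | exact ⟨_, _, _, h.swap12, a1, b1, d1, fun w hw => by
          simp only [Finset.mem_union] at hw ⊢; tauto⟩
      | exact ⟨_, _, _, h.swap12.swap23, a1, b1, d1, fun w hw => by
          simp only [Finset.mem_union] at hw ⊢; tauto⟩
      | exact ⟨_, _, _, h.swap23.swap12, a1, b1, d1, fun w hw => by
          simp only [Finset.mem_union] at hw ⊢; tauto⟩
      | exact ⟨_, _, _, h.swap23.swap12.swap23, a1, b1, d1, fun w hw => by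
          simp only [Finset.mem_union] at hw ⊢; tauto⟩

theorem ofin [Fintype F] {c : F} {A B C : Finset F} (h : OCl c A B C) :
    ∃ (η : Bool) (TT : Finset (F × F × F)), OC c η TT ∧
      TT.card ≤ (A.card + B.card + C.card) ^ 3 := by
  classical
  let U := A ∪ B ∪ C
  let TT : Finset (F × F × F) := (U ×ˢ U ×ˢ U).filter fun t =>
    ofinCol A B t.1 ≠ ofinCol A B t.2.1 ∧ ofinCol A B t.1 ≠ ofinCol A B t.2.2 ∧
      ofinCol A B t.2.1 ≠ ofinCol A B t.2.2 ∧ IsSquare (Vd t.1 t.2.1 t.2.2)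
  have hmem : ∀ x y z : F, (x, y, z) ∈ TT ↔ (x ∈ U ∧ y ∈ U ∧ z ∈ U) ∧
      ofinCol A B x ≠ ofinCol A B y ∧ ofinCol A B x ≠ ofinCol A B z ∧
      ofinCol A B y ≠ ofinCol A B z ∧ IsSquare (Vd x y z) := by
    intro x y z
    simp only [TT, Finset.mem_filter, Finset.mem_product]
  refine ⟨decide (quadraticChar F (c ^ 2 - c + 1) = 1), TT,
    ⟨h.spl.c0, h.spl.c1, h.spl.h3 c, ?_, ?_, ?_⟩, ?_⟩
  · obtain ⟨x, hx⟩ := h.nA
    obtain ⟨y, hy⟩ := h.nB
    obtain ⟨z, hz⟩ := h.nC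
    have hyA : y ∉ A := fun e => Finset.disjoint_left.1 h.dAB e hy
    have hzA : z ∉ A := fun e => Finset.disjoint_left.1 h.dAC e hz
    have hzB : z ∉ B := fun e => Finset.disjoint_left.1 h.dBC e hz
    have cx : ofinCol A B x = 0 := by simp [ofinCol, hx]
    have cy : ofinCol A B y = 1 := by simp [ofinCol, hyA, hy]
    have cz : ofinCol A B z = 2 := by simp [ofinCol, hzA, hzB]
    have mx : x ∈ U := by simp [U, hx]
    have my : y ∈ U := by simp [U, hy]
    have mz : z ∈ U := by simp [U, hz]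
    have hxy : x ≠ y := fun e => hyA (e ▸ hx)
    have hxz : x ≠ z := fun e => hzA (e ▸ hx)
    have hyz : y ≠ z := fun e => hzB (e ▸ hy)
    have hne : Vd x y z ≠ 0 :=
      mul_ne_zero (mul_ne_zero (sub_ne_zero.2 hxy) (sub_ne_zero.2 hxz)) (sub_ne_zero.2 hyz)
    by_cases hs : IsSquare (Vd x y z)
    · refine ⟨(x, y, z), (hmem x y z).2 ⟨⟨mx, my, mz⟩, ?_, ?_, ?_, hs⟩⟩
      · rw [cx, cy]; decide
      · rw [cx, cz]; decide
      · rw [cy, cz]; decide
    · have he : Vd x z y = -Vd x y z := by simp only [Vd]; ring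
      refine ⟨(x, z, y), (hmem x z y).2 ⟨⟨mx, mz, my⟩, ?_, ?_, ?_, ?_⟩⟩
      · rw [cx, cz]; decide
      · rw [cx, cy]; decide
      · rw [cy, cz]; decide
      · rw [he]
        exact (sq_neg_iff h.spl.neg hne).2 hs
  · rintro ⟨x, y, z⟩ ht
    obtain ⟨-, h1, h2, h3, -⟩ := (hmem x y z).1 ht
    exact ⟨fun e => h1 (congrArg _ e), fun e => h2 (congrArg _ e), fun e => h3 (congrArg _ e)⟩
  · rintro ⟨x, y, z⟩ ht
    obtain ⟨⟨mx, my, mz⟩, h1, h2, h3, hs⟩ := (hmem x y z).1 ht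
    obtain ⟨A', B', C', h', hx, hy, hz, hU⟩ := ofin_sort h mx my mz h1 h2 h3
    obtain ⟨p, p0, p1, p2, hp, hpar, hor⟩ := ofin_ext h' hx hy hz hs
    let g : Fin 3 → Fin 3 := fun a =>
      if a = ofinCol A B x then 0 else if a = ofinCol A B y then 1 else 2
    refine ⟨p, fun i => g (ofinCol A B (p i)), p0, p1, p2, ?_, ?_, ?_, hpar, ?_⟩
    · simp only [g, p0, if_true]
    · simp only [g, p1, if_neg h1.symm, if_true]
    · simp only [g, p2, if_neg h2.symm, if_neg h3.symm]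
    · intro i j k k1 k2 k3 ho
      exact (hmem _ _ _).2 ⟨⟨hU _ (hp i), hU _ (hp j), hU _ (hp k)⟩,
        fun e => k1 (congrArg g e), fun e => k2 (congrArg g e), fun e => k3 (congrArg g e),
        hor i j k ho⟩
  · have h1 : U.card ≤ A.card + B.card + C.card :=
      (Finset.card_union_le _ _).trans (Nat.add_le_add_right (Finset.card_union_le _ _) _)
    calc TT.card ≤ (U ×ˢ U ×ˢ U).card := Finset.card_filter_le _ _
      _ = U.card ^ 3 := by simp only [Finset.card_product]; ring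
      _ ≤ (A.card + B.card + C.card) ^ 3 := Nat.pow_le_pow_left h1 3

end Pool.Agent.P.MP_862e21_al
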