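import Pool.Agent.P.MP_862e21_al.OCChk

namespace Pool.Agent.P.MP_862e21_al

open Complex

theorem ndiv (a b : ℕ) : Nat.div a b = a / b := rfl
theorem nmod (a b : ℕ) : Nat.mod a b = a % b := rfl
theorem npow (a b : ℕ) : Nat.pow a b = a ^ b := rfl
theorem nlor (a b : ℕ) : Nat.lor a b = a ||| b := rfl

theorem ab_cast (p n : ℕ) : ((ab p n : ℕ) : ℝ) = |(p : ℝ) - n| := by
  unfold ab
  simp only [Nat.add_eq, Nat.sub_eq]
  rcases le_total p n with h | h
  · have : (p : ℝ) ≤ n := by exact_mod_cast h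
    rw [Nat.sub_eq_zero_of_le h, zero_add, Nat.cast_sub h, abs_of_nonpos (by linarith)]; ring
  · have : (n : ℝ) ≤ p := by exact_mod_cast h
    rw [Nat.sub_eq_zero_of_le h, add_zero, Nat.cast_sub h, abs_of_nonneg (by linarith)]

theorem nw_pos (n g : ℕ) : 0 < nw n g := Nat.succ_pos _

theorem nw_ge (n : ℕ) {g : ℕ} (hg : 0 < g) : n ≤ nw n g * nw n g := by
  unfold nw
  simp only [Nat.add_eq, ndiv, Nat.succ_eq_add_one]
  have h1 : n < g * (n / g + 1) := Nat.lt_mul_div_succ n hg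
  generalize n / g = t at h1 ⊢
  have h2 : g + t + 1 ≤ 2 * ((g + t) / 2 + 1) := by omega
  generalize (g + t) / 2 + 1 = s at h2 ⊢
  have h3 : (g + t + 1) * (g + t + 1) ≤ (2 * s) * (2 * s) := Nat.mul_le_mul h2 h2
  have h4 : 4 * (g * (t + 1)) ≤ (g + t + 1) * (g + t + 1) := by
    zify
    nlinarith [sq_nonneg ((g : ℤ) - (t + 1))]
  nlinarith

theorem sqU_ge (n : ℕ) : n ≤ sqU n * sqU n := nw_ge n (nw_pos _ _)

theorem sqL_le (n : ℕ) : sqL n * sqL n ≤ n := by
  unfold sqL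
  rw [ndiv]
  have h1 := sqU_ge n
  have h0 : 0 < sqU n := nw_pos _ _
  generalize sqU n = s at h1 h0
  have h2 : n / s ≤ s := Nat.div_le_of_le_mul h1
  calc n / s * (n / s) ≤ n / s * s := Nat.mul_le_mul_left _ h2
    _ ≤ n := Nat.div_mul_le_self _ _

theorem nrm_ge (a b : ℕ) : a * a + b * b ≤ nrm a b * nrm a b := by
  unfold nrm
  cases h : Nat.beq b 0 with
  | true => simp [Nat.eq_of_beq_eq_true h]
  | false => exact nw_ge _ (nw_pos _ _)

theorem nrm_real {x y : ℝ} {a b : ℕ} (ha : (a : ℝ) = |x|) (hb : (b : ℝ) = |y|) :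
    ‖(⟨x, y⟩ : ℂ)‖ ≤ nrm a b := by
  have h : ((a * a + b * b : ℕ) : ℝ) ≤ ((nrm a b * nrm a b : ℕ) : ℝ) := by exact_mod_cast nrm_ge a b
  push_cast at h
  rw [ha, hb, abs_mul_abs_self, abs_mul_abs_self] at h
  refine abs_le_of_sq_le_sq' ?_ (Nat.cast_nonneg _) |>.2
  rw [Complex.sq_norm, normSq_mk]
  nlinarith

noncomputable def GI.val (v : GI) : ℂ := ⟨(v.xp : ℝ) - v.xn, (v.yp : ℝ) - v.yn⟩

theorem GI.nrm_ge (v : GI) : ‖v.val‖ ≤ v.nrm := nrm_real (ab_cast _ _) (ab_cast _ _)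

theorem GI.sq_cast (v : GI) : (v.sq : ℝ) = ‖v.val‖ ^ 2 := by
  unfold GI.sq sq2 GI.val
  simp only [Nat.add_eq, Nat.mul_eq]
  push_cast
  rw [ab_cast, ab_cast, abs_mul_abs_self, abs_mul_abs_self, Complex.sq_norm, normSq_mk]

theorem GI.fma_val (w v : GI) (X Y : ℕ) :
    (GI.fma w X Y v).val = w.val + (⟨X, Y⟩ : ℂ) * v.val := by
  apply Complex.ext <;> simp [GI.fma, GI.val] <;> ring

noncomputable def pl (C : ℂ) : List (ℕ × ℕ) → ℂ
  | [] => 0
  | p :: l => ((p.1 : ℂ) - p.2) + C * pl C l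

theorem hor_spec {X Y r r2 cH : ℕ} {C : ℂ} (hr : ‖C - ⟨X, Y⟩‖ ≤ r) (h2 : r2 = r * r)
    (hc : ‖C‖ ≤ cH) (l : List (ℕ × ℕ)) :
    ‖pl C l - (hor X Y r2 cH l).v.val - (hor X Y r2 cH l).d.val * (C - ⟨X, Y⟩)‖ ≤
      (hor X Y r2 cH l).e := by
  induction l with
  | nil =>
    have : (⟨0, 0, 0, 0⟩ : GI).val = 0 := by apply Complex.ext <;> simp [GI.val]
    simp [pl, hor, this]
  | cons p l ih =>
    have e : hor X Y r2 cH (p :: l) = horS X Y r2 cH p (hor X Y r2 cH l) := rfl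
    rw [e]
    generalize hor X Y r2 cH l = t at ih
    have e1 : (⟨p.1, p.2, 0, 0⟩ : GI).val = (p.1 : ℂ) - p.2 := by
      apply Complex.ext <;> simp [GI.val]
    simp only [horS, GI.fma_val, pl, e1, Nat.add_eq, Nat.mul_eq]
    generalize (⟨X, Y⟩ : ℂ) = C0 at hr ih ⊢
    have e2 : (p.1 : ℂ) - p.2 + C * pl C l - ((p.1 : ℂ) - p.2 + C0 * t.v.val) -
        (t.v.val + C0 * t.d.val) * (C - C0) =
        C * (pl C l - t.v.val - t.d.val * (C - C0)) + t.d.val * ((C - C0) * (C - C0)) := by ring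
    rw [e2, h2]
    push_cast
    refine (norm_add_le _ _).trans (add_le_add ?_ ?_)
    · rw [norm_mul]
      exact mul_le_mul hc ih (norm_nonneg _) (Nat.cast_nonneg _)
    · rw [norm_mul, norm_mul]
      exact mul_le_mul t.d.nrm_ge (mul_le_mul hr hr (norm_nonneg _) (Nat.cast_nonneg _))
        (by positivity) (Nat.cast_nonneg _)

theorem hor_rad {X Y r r2 cH : ℕ} {C : ℂ} (hr : ‖C - ⟨X, Y⟩‖ ≤ r) (h2 : r2 = r * r)
    (hc : ‖C‖ ≤ cH) (l : List (ℕ × ℕ)) :
    ‖pl C l - (hor X Y r2 cH l).v.val‖ ≤ (hor X Y r2 cH l).rad r := by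
  have h := hor_spec hr h2 hc l
  generalize hor X Y r2 cH l = t at h
  have e : pl C l - t.v.val = t.d.val * (C - ⟨X, Y⟩) +
      (pl C l - t.v.val - t.d.val * (C - ⟨X, Y⟩)) := by ring
  rw [e]
  simp only [TM.rad, Nat.add_eq, Nat.mul_eq]
  push_cast
  refine (norm_add_le _ _).trans (add_le_add ?_ h)
  rw [norm_mul]
  exact mul_le_mul t.d.nrm_ge hr (norm_nonneg _) (Nat.cast_nonneg _)

theorem TM.hi_spec {t : TM} {r : ℕ} {f : ℂ} (h : ‖f - t.v.val‖ ≤ t.rad r) : ‖f‖ ≤ t.hi r := by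
  simp only [TM.hi, Nat.add_eq]
  push_cast
  have := t.v.nrm_ge
  have := norm_sub_norm_le f t.v.val
  linarith

theorem TM.lo_spec {t : TM} {r : ℕ} {f : ℂ} (h : ‖f - t.v.val‖ ≤ t.rad r) : (t.lo r : ℝ) ≤ ‖f‖ := by
  simp only [TM.lo, Nat.sub_eq, ndiv]
  have h1 : ((t.v.sq / t.v.nrm : ℕ) : ℝ) ≤ ‖t.v.val‖ := by
    refine Nat.cast_div_le.trans ?_
    rw [GI.sq_cast]
    refine div_le_of_le_mul₀ (Nat.cast_nonneg _) (norm_nonneg _) ?_
    rw [sq]
    exact mul_le_mul_of_nonneg_left t.v.nrm_ge (norm_nonneg _)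
  generalize t.v.sq / t.v.nrm = a at h1
  rcases le_total a (t.rad r) with h2 | h2
  · rw [Nat.sub_eq_zero_of_le h2]; simp
  · rw [Nat.cast_sub h2]
    have := norm_sub_norm_le t.v.val f
    rw [norm_sub_rev] at this
    linarith

theorem rad_spec {z : ℂ} {s : ℕ} (h1 : |z.re| ≤ s) (h2 : |z.im| ≤ s) : ‖z‖ ≤ rad s := by
  have h3 : s * 1449 < 1024 * rad s := by
    unfold rad
    simp only [Nat.mul_eq, ndiv, Nat.succ_eq_add_one]
    omega
  have h4 : (s : ℝ) * 1449 < 1024 * rad s := by exact_mod_cast h3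
  have s0 : (0 : ℝ) ≤ s := Nat.cast_nonneg _
  refine abs_le_of_sq_le_sq' ?_ (Nat.cast_nonneg _) |>.2
  rw [Complex.sq_norm, normSq_apply]
  have a1 := abs_le.1 h1
  have a2 := abs_le.1 h2
  nlinarith

/-- the bound that an entry promises for the colouring `N` -/
def EntOK (U : ℂ) (N : ℕ) (e : Ent) : Prop :=
  ∀ X Y uH ρ : ℕ, ‖U‖ ≤ uH → ‖U - ⟨X, (Y : ℝ) - 65536⟩‖ ≤ ρ → ∀ p ∈ e.ks, p.2.testBit N = true →
    ‖(GI.fma e.a X Y e.b).val‖ ≤ p.1 + (e.rb * uH + e.nb * ρ)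

theorem killK_spec {n R N acc : ℕ} (l : List (ℕ × ℕ))
    (h : ∀ p ∈ l, p.2.testBit N = true → n ≤ (p.1 + R) * (p.1 + R))
    (ha : acc.testBit N = false) : (killK n R l acc).testBit N = false := by
  induction l with
  | nil => exact ha
  | cons p l ih =>
    have e : killK n R (p :: l) acc =
      Bool.rec (Nat.lor (killK n R l acc) p.2) (killK n R l acc) (big n (Nat.add p.1 R)) := rfl
    have ih' := ih fun q hq => h q (List.mem_cons_of_mem _ hq)
    rw [e]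
    cases hb : big n (Nat.add p.1 R) with
    | true => exact ih'
    | false =>
      simp only [nlor, Nat.testBit_or, ih', Bool.false_or]
      by_contra hc
      have := h p List.mem_cons_self (by simpa using hc)
      unfold big at hb
      rw [Nat.ble_eq_true_of_le (by simpa using this)] at hb
      exact absurd hb (by simp)

theorem kill_spec {U : ℂ} {N X Y uH ρ : ℕ} (h1 : ‖U‖ ≤ uH) (h2 : ‖U - ⟨X, (Y : ℝ) - 65536⟩‖ ≤ ρ)
    (l : List Ent) (h : ∀ e ∈ l, EntOK U N e) : (kill X Y uH ρ l).testBit N = false := by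
  induction l with
  | nil => exact Nat.zero_testBit N
  | cons e l ih =>
    refine killK_spec (acc := kill X Y uH ρ l) e.ks ?_ (ih fun q hq => h q (List.mem_cons_of_mem _ hq))
    intro p hp hN
    have h3 := h e List.mem_cons_self X Y uH ρ h1 h2 p hp hN
    have h4 : (((GI.fma e.a X Y e.b).sq : ℕ) : ℝ) ≤
        ((p.1 + (e.rb * uH + e.nb * ρ)) * (p.1 + (e.rb * uH + e.nb * ρ)) : ℕ) := by
      rw [GI.sq_cast, sq]
      push_cast
      exact mul_le_mul h3 h3 (norm_nonneg _) (by positivity)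
    exact_mod_cast h4

theorem full_bit : ∀ N < 54, (18014398509481983 : ℕ).testBit N = true := by decide

/-- the promise of a list of slots -/
def SlOK (U : ℂ) (N0 : ℕ) (l : List (ℕ × List Ent)) : Prop :=
  ∀ s ∈ l, s.1.testBit N0 = true → ∃ N < 54, ∀ e ∈ s.2, EntOK U N e

theorem leaf_spec {U : ℂ} {N0 X Y uH ρ m0 : ℕ} (h1 : ‖U‖ ≤ uH)
    (h2 : ‖U - ⟨X, (Y : ℝ) - 65536⟩‖ ≤ ρ) (hm : m0.testBit N0 = false)
    (l : List (ℕ × List Ent)) (h : SlOK U N0 l) (w : ℕ) :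
    (leaf X Y uH ρ m0 l w).testBit N0 = false := by
  induction l generalizing w with
  | nil => exact hm
  | cons s l ih =>
    have e : leaf X Y uH ρ m0 (s :: l) w = Bool.rec
      (Bool.rec (leaf X Y uH ρ m0 l (Nat.div w 2)) (Nat.lor (leaf X Y uH ρ m0 l (Nat.div w 2)) s.1)
        (Nat.beq (kill X Y uH ρ s.2) 18014398509481983))
      (leaf X Y uH ρ m0 l (Nat.div w 2)) (Nat.beq (Nat.mod w 2) 0) := rfl
    have ih' := ih (fun q hq => h q (List.mem_cons_of_mem _ hq)) (Nat.div w 2)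
    rw [e]
    cases Nat.beq (Nat.mod w 2) 0 with
    | true => exact ih'
    | false =>
      cases hb : Nat.beq (kill X Y uH ρ s.2) 18014398509481983 with
      | false => exact ih'
      | true =>
        simp only [nlor, Nat.testBit_or, ih', Bool.false_or]
        by_contra hc
        obtain ⟨N, hN, h3⟩ := h s List.mem_cons_self (by simpa using hc)
        have h4 := kill_spec h1 h2 s.2 h3
        rw [Nat.eq_of_beq_eq_true hb, full_bit N hN] at h4
        exact absurd h4 (by simp)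

/-- `z` lies in the square with corner `(x, y)` and side `s` -/
def InSq (z : ℂ) (s x y : ℕ) : Prop := (x : ℝ) ≤ z.re ∧ z.re ≤ x + s ∧ (y : ℝ) ≤ z.im ∧ z.im ≤ y + s

theorem InSq.split {z : ℂ} {k x y : ℕ} (h : InSq z (2 ^ (k + 1)) x y) :
    InSq z (2 ^ k) x y ∨ InSq z (2 ^ k) x (y + 2 ^ k) ∨ InSq z (2 ^ k) (x + 2 ^ k) y ∨
      InSq z (2 ^ k) (x + 2 ^ k) (y + 2 ^ k) := by
  obtain ⟨h1, h2, h3, h4⟩ := h
  unfold InSq
  rw [pow_succ] at h2 h4
  generalize 2 ^ k = s at h2 h4 ⊢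
  push_cast at h2 h4 ⊢
  rcases le_total z.re (x + s) with a | a <;> rcases le_total z.im (y + s) with b | b
  · exact Or.inl ⟨h1, a, h3, b⟩
  · exact Or.inr (Or.inl ⟨h1, a, b, by linarith⟩)
  · exact Or.inr (Or.inr (Or.inl ⟨a, by linarith, h3, b⟩))
  · exact Or.inr (Or.inr (Or.inr ⟨a, by linarith, b, by linarith⟩))

theorem InSq.ball {z : ℂ} {k x y : ℕ} (h : InSq z (2 ^ (k + 1)) x y) :
    ‖z - ⟨((x + 2 ^ k : ℕ) : ℝ), ((y + 2 ^ k : ℕ) : ℝ)⟩‖ ≤ rad (2 ^ k) := by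
  obtain ⟨h1, h2, h3, h4⟩ := h
  rw [pow_succ] at h2 h4
  generalize 2 ^ k = s at h2 h4 ⊢
  push_cast at h2 h4 ⊢
  apply rad_spec <;> simp only [sub_re, sub_im] <;> rw [abs_le] <;> constructor <;> linarith

theorem andT_left (f : ℕ → ℕ) : andT 0 f = 0 := rfl

theorem andT_right {f : ℕ → ℕ} (h : ∀ w, f w = 0) (w : ℕ) : andT w f = 0 := by
  unfold andT
  cases Nat.beq w 0
  · exact h w
  · rfl

theorem chkU_spec {U : ℂ} {N0 : ℕ} (hN : N0 < 54) {base : List Ent} {sl : List (ℕ × List Ent)}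
    (hb : ∀ e ∈ base, EntOK U N0 e) (hs : SlOK U N0 sl) (ns k : ℕ) :
    ∀ x y st : ℕ, InSq (U + ⟨0, 65536⟩) (2 ^ k) x y → chkU base sl ns k x y st = 0 := by
  induction k with
  | zero => intro x y st _; rfl
  | succ k ih =>
    intro x y st h
    have e : chkU base sl ns (k + 1) x y st =
      Bool.rec (leafA base sl ns (Nat.pow 2 k) x y (Nat.div st 2))
        (spl (chkU base sl ns k) (Nat.pow 2 k) x y (Nat.div st 2)) (Nat.beq (Nat.mod st 2) 0) := rfl
    rw [e, npow]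
    cases Nat.beq (Nat.mod st 2) 0 with
    | true =>
      simp only [spl, Nat.add_eq]
      rcases h.split with h | h | h | h
      · rw [ih _ _ _ h]; rfl
      · rw [andT_right (ih _ _ · h)]; rfl
      · rw [andT_right (ih _ _ · h)]; rfl
      · exact andT_right (ih _ _ · h) _
    | false =>
      have h1 := h.ball
      simp only [leafA, Nat.add_eq]
      generalize x + 2 ^ k = X at h1
      generalize y + 2 ^ k = Y at h1
      generalize rad (2 ^ k) = ρ at h1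
      have h2 : ‖U - ⟨X, (Y : ℝ) - 65536⟩‖ ≤ ρ := by
        convert h1 using 2
        apply Complex.ext <;> simp
        ring
      have h3 : ‖U‖ ≤ ((Nat.add (nrm X (ab Y 65536)) ρ : ℕ) : ℝ) := by
        have h4 : ‖(⟨X, (Y : ℝ) - 65536⟩ : ℂ)‖ ≤ nrm X (ab Y 65536) :=
          nrm_real (by simp) (by rw [ab_cast]; simp)
        have := norm_sub_norm_le U ⟨X, (Y : ℝ) - 65536⟩
        simp only [Nat.add_eq]
        push_cast
        linarith
      have h5 := leaf_spec h3 h2 (kill_spec h3 h2 base hb) sl hs (Nat.div st 2)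
      cases hl : leafB base sl X Y ρ (Nat.div st 2) with
      | false => rfl
      | true =>
        unfold leafB leafC at hl
        rw [Nat.eq_of_beq_eq_true hl, full_bit N0 hN] at h5
        exact absurd h5 (by simp)

theorem runU_spec {u : ℂ} {N0 : ℕ} (hN : N0 < 54) {base : List Ent} {sl : List (ℕ × List Ent)}
    (hb : ∀ e ∈ base, EntOK (65536 * u) N0 e) (hs : SlOK (65536 * u) N0 sl) (h1 : ‖u‖ ≤ 1)
    (h2 : ‖u - 1‖ ≤ 1) (ns st : ℕ) : runU base sl ns st = false := by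
  have a1 := abs_le.1 ((abs_re_le_norm u).trans h1)
  have a2 := abs_le.1 ((abs_im_le_norm u).trans h1)
  have a3 := abs_le.1 ((abs_re_le_norm _).trans h2)
  simp only [sub_re, one_re] at a3
  unfold runU
  rcases le_total 0 u.im with h | h
  · rw [chkU_spec hN hb hs ns 16 0 65536 st]
    · rfl
    · refine ⟨?_, ?_, ?_, ?_⟩ <;> simp <;> linarith
  · rw [andT_right fun w => chkU_spec hN hb hs ns 16 0 0 w ?_]
    · rfl
    · refine ⟨?_, ?_, ?_, ?_⟩ <;> simp <;> linarith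

end Pool.Agent.P.MP_862e21_al
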