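import Pool.Agent.P.MP_862e21_al.OCSnd1

namespace Pool.Agent.P.MP_862e21_al

open Complex

noncomputable def plZ (C : ℂ) : List ℤ → ℂ
  | [] => 0
  | p :: l => (p : ℂ) + C * plZ C l

theorem plZ_padd (C : ℂ) (p q : List ℤ) : plZ C (padd p q) = plZ C p + plZ C q := by
  induction p generalizing q with
  | nil => simp [padd, plZ]
  | cons a p ih =>
    cases q with
    | nil => simp [padd, plZ]
    | cons b q => simp only [padd, plZ, ih]; push_cast; ring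

theorem plZ_smul (C : ℂ) (a : ℤ) (q : List ℤ) : plZ C (q.map (a * ·)) = a * plZ C q := by
  induction q with
  | nil => simp [plZ]
  | cons b q ih => simp only [List.map_cons, plZ, ih]; push_cast; ring

theorem plZ_neg (C : ℂ) (q : List ℤ) : plZ C (q.map (-·)) = -plZ C q := by
  induction q with
  | nil => simp [plZ]
  | cons b q ih => simp only [List.map_cons, plZ, ih]; push_cast; ring

theorem plZ_pmul (C : ℂ) (p q : List ℤ) : plZ C (pmul p q) = plZ C p * plZ C q := by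
  induction p with
  | nil => simp [pmul, plZ]
  | cons a p ih => simp only [pmul, plZ_padd, plZ_smul, plZ, ih]; push_cast; ring

theorem plZ_psub (C : ℂ) (p q : List ℤ) : plZ C (psub p q) = plZ C p - plZ C q := by
  simp only [psub, plZ_padd, plZ_neg]; ring

theorem plZ_zero (C : ℂ) (q : List ℤ) (h : q.all (· == 0) = true) : plZ C q = 0 := by
  induction q with
  | nil => rfl
  | cons b q ih =>
    simp only [List.all_cons, Bool.and_eq_true, beq_iff_eq] at h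
    simp [plZ, h.1, ih h.2]

theorem peq_spec (C : ℂ) {l : List (ℕ × ℕ)} {q : List ℤ} (h : peq l q = true) :
    pl C l = plZ C q := by
  have h1 := plZ_zero C _ h
  rw [plZ_psub, sub_eq_zero] at h1
  rw [← h1]
  clear h h1
  induction l with
  | nil => rfl
  | cons p l ih => simp only [List.map_cons, pl, plZ, ih]; push_cast; ring

theorem plZ_pA (c : ℂ) (i : Fin 6) : plZ (65536 * c) (pA i) = 65536 * (PW c i).1 := by
  fin_cases i <;> simp [pA, PW, plZ] <;> ring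

theorem plZ_pB (c : ℂ) (i : Fin 6) : plZ (65536 * c) (pB i) = 65536 * (PW c i).2 := by
  fin_cases i <;> simp [pB, PW, plZ] <;> ring

theorem plZ_pbr (c : ℂ) (i j : Fin 6) : plZ (65536 * c) (pbr i j) = 65536 ^ 2 * br c i j := by
  simp only [pbr, plZ_psub, plZ_pmul, plZ_pA, plZ_pB, br]; ring

/-- the linear form of the vertex `a` in the family of the triple `i j k` -/
noncomputable def LL (c u : ℂ) (i j k a : Fin 6) : ℂ :=
  (PW c a).1 * br c k j * ((PW c i).1 - u * (PW c i).2) -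
    (PW c a).2 * br c k i * ((PW c j).1 - u * (PW c j).2)

theorem LL_eq (c u : ℂ) (i j k a : Fin 6) : 65536 ^ 5 * LL c u i j k a =
    65536 * plZ (65536 * c) (pL i j k a pA) - plZ (65536 * c) (pL i j k a pB) * (65536 * u) := by
  simp only [pL, plZ_psub, plZ_pmul, plZ_pA, plZ_pB, plZ_pbr, LL]; ring

def Ineq (c u : ℂ) (i j k a b e : Fin 6) : Prop :=
  ‖br c b e‖ * ‖LL c u i j k a‖ ^ 2 ≤
    ‖br c k j‖ * ‖br c j i‖ * ‖br c k i‖ * ‖br c a b‖ * ‖br c a e‖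

def Surv (c u : ℂ) (i j k : Fin 6) (N : ℕ) : Prop :=
  ∀ a b e, rb N a b e = true → Ineq c u i j k a b e

noncomputable def tyv (c : ℂ) (t : ℕ) : ℂ :=
  if t = 0 then 1 else if t = 1 then c else if t = 2 then 1 - c else c ^ 2 - c + 1

theorem br_ty (c : ℂ) {i j : Fin 6} (h : i ≠ j) : br c i j = tyv c (ty i j) ∨
    br c i j = -tyv c (ty i j) := by
  fin_cases i <;> fin_cases j <;> first
    | exact absurd rfl h
    | (left; simp [br, PW, tyv, ty]; done)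
    | (right; simp [br, PW, tyv, ty]; done)
    | (left; simp [br, PW, tyv, ty]; ring1)
    | (right; simp [br, PW, tyv, ty]; ring1)

theorem norm_br (c : ℂ) {i j : Fin 6} (h : i ≠ j) : ‖br c i j‖ = ‖tyv c (ty i j)‖ := by
  rcases br_ty c h with e | e <;> rw [e]
  exact norm_neg _

theorem rb_ne {N : ℕ} {a b e : Fin 6} (h : rb N a b e = true) : a ≠ b ∧ a ≠ e ∧ b ≠ e := by
  simp only [rb, Bool.and_eq_true, bne_iff_ne] at h
  exact ⟨fun e => h.1.1 (by rw [e]), fun e => h.1.2 (by rw [e]), fun e => h.2 (by rw [e])⟩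

structure BxOK (c : ℂ) (B : Bx) : Prop where
  hr : ‖65536 * c - ⟨B.X, B.Y⟩‖ ≤ B.r
  h2 : B.r2 = B.r * B.r
  hc : ‖65536 * c‖ ≤ B.cH
  hi : ∀ t, 65536 ^ 2 * ‖tyv c t‖ ≤ (sel t B.s1 B.s2 B.s3 : ℝ) ^ 2
  lo : ∀ t, (sel t B.t1 B.t2 B.t3 : ℝ) ^ 2 ≤ 65536 ^ 2 * ‖tyv c t‖
  pos : ∀ t, 0 < sel t B.t1 B.t2 B.t3

theorem thr_core {x1 x2 x3 x4 x5 y L : ℝ} {s1 s2 s3 s4 s5 t : ℕ} (p2 : 0 ≤ x2)
    (p3 : 0 ≤ x3) (p4 : 0 ≤ x4) (p5 : 0 ≤ x5) (pt : 0 < t)
    (h1 : 65536 ^ 2 * x1 ≤ (s1 : ℝ) ^ 2) (h2 : 65536 ^ 2 * x2 ≤ (s2 : ℝ) ^ 2)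
    (h3 : 65536 ^ 2 * x3 ≤ (s3 : ℝ) ^ 2) (h4 : 65536 ^ 2 * x4 ≤ (s4 : ℝ) ^ 2)
    (h5 : 65536 ^ 2 * x5 ≤ (s5 : ℝ) ^ 2) (h6 : (t : ℝ) ^ 2 ≤ 65536 ^ 2 * y)
    (h : y * L ^ 2 ≤ x1 * x2 * x3 * x4 * x5) :
    65536 ^ 5 * L ≤ ((65536 * (s1 * (s2 * s3)) * (s4 * s5) / t + 1 : ℕ) : ℝ) := by
  have a : (65536 ^ 2 * x1) * (65536 ^ 2 * x2) * (65536 ^ 2 * x3) * (65536 ^ 2 * x4) *
      (65536 ^ 2 * x5) ≤ (s1 : ℝ) ^ 2 * (s2 : ℝ) ^ 2 * (s3 : ℝ) ^ 2 * (s4 : ℝ) ^ 2 * (s5 : ℝ) ^ 2 := by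
    gcongr
  have b : ((t : ℝ) * (65536 ^ 5 * L)) ^ 2 ≤ (65536 * (s1 * (s2 * s3)) * (s4 * s5) : ℝ) ^ 2 := by
    calc ((t : ℝ) * (65536 ^ 5 * L)) ^ 2 = (t : ℝ) ^ 2 * (65536 ^ 10 * L ^ 2) := by ring
      _ ≤ (65536 ^ 2 * y) * (65536 ^ 10 * L ^ 2) := by gcongr
      _ = 65536 ^ 12 * (y * L ^ 2) := by ring
      _ ≤ 65536 ^ 12 * (x1 * x2 * x3 * x4 * x5) := by gcongr
      _ = 65536 ^ 2 * ((65536 ^ 2 * x1) * (65536 ^ 2 * x2) * (65536 ^ 2 * x3) * (65536 ^ 2 * x4) *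
          (65536 ^ 2 * x5)) := by ring
      _ ≤ 65536 ^ 2 *
          ((s1 : ℝ) ^ 2 * (s2 : ℝ) ^ 2 * (s3 : ℝ) ^ 2 * (s4 : ℝ) ^ 2 * (s5 : ℝ) ^ 2) := by gcongr
      _ = _ := by ring
  have c := (abs_le_of_sq_le_sq' b (by positivity)).2
  have d : 65536 * (s1 * (s2 * s3)) * (s4 * s5) <
      t * (65536 * (s1 * (s2 * s3)) * (s4 * s5) / t + 1) := Nat.lt_mul_div_succ _ pt
  generalize 65536 * (s1 * (s2 * s3)) * (s4 * s5) / t + 1 = K at d ⊢
  have e : (65536 * (s1 * (s2 * s3)) * (s4 * s5) : ℝ) < t * K := by exact_mod_cast d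
  have t0 : (0 : ℝ) < t := by exact_mod_cast pt
  exact le_of_mul_le_mul_left (c.trans e.le) t0

theorem mem_mkKs {B : Bx} {D ra : ℕ} {l : List PE} {w : ℕ} {p : ℕ × ℕ}
    (h : p ∈ mkKs B D ra l w) : ∃ q ∈ l, p = (thr B D ra q, q.m) := by
  induction l generalizing w with
  | nil => exact absurd h List.not_mem_nil
  | cons q l ih =>
    have e : mkKs B D ra (q :: l) w =
      Bool.rec ((thr B D ra q, q.m) :: mkKs B D ra l (Nat.div w 2)) (mkKs B D ra l (Nat.div w 2))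
        (Nat.beq (Nat.mod w 2) 0) := rfl
    rw [e] at h
    cases hb : Nat.beq (Nat.mod w 2) 0 <;> rw [hb] at h
    · rcases List.mem_cons.1 h with h | h
      · exact ⟨q, List.mem_cons_self, h⟩
      · obtain ⟨q', h1, h2⟩ := ih h
        exact ⟨q', List.mem_cons_of_mem _ h1, h2⟩
    · obtain ⟨q', h1, h2⟩ := ih h
      exact ⟨q', List.mem_cons_of_mem _ h1, h2⟩

theorem mem_mkEnts {PT : List (List PE)} {B : Bx} {D : ℕ} {l : List PS} {w : ℕ} {e : Ent}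
    (h : e ∈ mkEnts PT B D l w) : ∃ p ∈ l, ∃ w', e = mkEnt B D (hor B.X B.Y B.r2 B.cH p.pa)
      (hor B.X B.Y B.r2 B.cH p.pb) (PT.getD p.a.val []) w' := by
  induction l generalizing w with
  | nil => exact absurd h List.not_mem_nil
  | cons q l ih =>
    have e' : mkEnts PT B D (q :: l) w =
      Bool.rec (mkEnt B D (hor B.X B.Y B.r2 B.cH q.pa) (hor B.X B.Y B.r2 B.cH q.pb)
        (PT.getD q.a.val []) (Nat.mod w 1024) :: mkEnts PT B D l (Nat.div w 1024))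
        (mkEnts PT B D l (Nat.div w 1024)) (Nat.beq (Nat.mod w 1024) 0) := rfl
    rw [e'] at h
    cases hb : Nat.beq (Nat.mod w 1024) 0 <;> rw [hb] at h
    · rcases List.mem_cons.1 h with h | h
      · exact ⟨q, List.mem_cons_self, _, h⟩
      · obtain ⟨q', h1, h2⟩ := ih h
        exact ⟨q', List.mem_cons_of_mem _ h1, h2⟩
    · obtain ⟨q', h1, h2⟩ := ih h
      exact ⟨q', List.mem_cons_of_mem _ h1, h2⟩

theorem mkEnt_bound {B : Bx} {D : ℕ} {ta tb : TM} {q : List PE} {w : ℕ} {α β U : ℂ}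
    (ha : ‖α - ta.v.val‖ ≤ ta.rad B.r) (hb : ‖β - tb.v.val‖ ≤ tb.rad B.r) {X Y uH ρ : ℕ}
    (h1 : ‖U‖ ≤ uH) (h2 : ‖U - ⟨X, (Y : ℝ) - 65536⟩‖ ≤ ρ) :
    ‖(GI.fma (mkEnt B D ta tb q w).a X Y (mkEnt B D ta tb q w).b).val‖ ≤
      ‖65536 * α - β * U‖ + 65536 * ta.rad B.r + (tb.rad B.r * uH + tb.v.nrm * ρ) := by
  have e : (GI.fma (mkEnt B D ta tb q w).a X Y (mkEnt B D ta tb q w).b).val =
      65536 * ta.v.val - tb.v.val * ⟨X, (Y : ℝ) - 65536⟩ := by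
    apply Complex.ext <;> simp [GI.fma, GI.val, mkEnt] <;> ring
  rw [e]
  generalize (⟨X, (Y : ℝ) - 65536⟩ : ℂ) = U0 at h2 ⊢
  have e2 : 65536 * ta.v.val - tb.v.val * U0 = (65536 * α - β * U) - 65536 * (α - ta.v.val) +
      ((β - tb.v.val) * U + tb.v.val * (U - U0)) := by ring
  rw [e2]
  refine (norm_add_le _ _).trans (add_le_add ((norm_sub_le _ _).trans (add_le_add le_rfl ?_))
    ((norm_add_le _ _).trans (add_le_add ?_ ?_)))
  · rw [norm_mul]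
    have : ‖(65536 : ℂ)‖ = 65536 := by simp
    rw [this]
    gcongr
  · rw [norm_mul]
    exact mul_le_mul hb h1 (norm_nonneg _) (Nat.cast_nonneg _)
  · rw [norm_mul]
    exact mul_le_mul tb.v.nrm_ge h2 (norm_nonneg _) (Nat.cast_nonneg _)

theorem mkSlot_ok {PT : List (List PE)}
    (hPT : ∀ a : Fin 6, (PT.getD a.val []).all (peOk a) = true) {c u : ℂ} {B : Bx} (hB : BxOK c B)
    {t : TE} (ht : teOk t = true) {N : ℕ} (hN : N < 54) (hS : Surv c u t.i t.j t.k N) (w : ℕ) :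
    ∀ e ∈ mkSlot PT B t w, EntOK (65536 * u) N e := by
  intro e he X Y uH ρ h1 h2 p hp hpN
  obtain ⟨ps, hps, w', rfl⟩ := mem_mkEnts he
  simp only [teOk, Bool.and_eq_true, beq_iff_eq, bne_iff_ne, List.all_eq_true] at ht
  obtain ⟨⟨⟨⟨⟨⟨⟨t1, t2⟩, t3⟩, n1⟩, n2⟩, n3⟩, -⟩, hp2⟩ := ht
  obtain ⟨ea, eb⟩ := hp2 ps hps
  obtain ⟨q, hq, rfl⟩ := mem_mkKs hp
  have hq' := List.all_eq_true.1 (hPT ps.a) q hq
  simp only [peOk, Bool.and_eq_true, beq_iff_eq, List.all_eq_true, List.mem_range,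
    Bool.or_eq_true, Bool.not_eq_true'] at hq'
  obtain ⟨⟨⟨q1, q2⟩, q3⟩, q4⟩ := hq'
  have hrb : rb N ps.a q.b q.e = true := (q4 N hN).resolve_left (by simpa using hpN)
  obtain ⟨m1, m2, m3⟩ := rb_ne hrb
  have hI := hS _ _ _ hrb
  unfold Ineq at hI
  rw [norm_br c n1, norm_br c n2, norm_br c n3, norm_br c m1, norm_br c m2, norm_br c m3,
    ← t1, ← t2, ← t3, ← q1, ← q2, ← q3] at hI
  have h3 := thr_core (norm_nonneg _) (norm_nonneg _) (norm_nonneg _) (norm_nonneg _)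
    (hB.pos q.t3) (hB.hi t.t1) (hB.hi t.t2) (hB.hi t.t3)
    (hB.hi q.t1) (hB.hi q.t2) (hB.lo q.t3) hI
  have h4 : ‖65536 * pl (65536 * c) ps.pa - pl (65536 * c) ps.pb * (65536 * u)‖ =
      65536 ^ 5 * ‖LL c u t.i t.j t.k ps.a‖ := by
    rw [peq_spec _ ea, peq_spec _ eb, ← LL_eq, norm_mul]
    simp
  refine (mkEnt_bound (hor_rad hB.hr hB.h2 hB.hc ps.pa) (hor_rad hB.hr hB.h2 hB.hc ps.pb)
    h1 h2).trans ?_
  rw [h4]
  refine add_le_add ?_ (le_of_eq rfl)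
  simp only [thr, Nat.add_eq, Nat.mul_eq, ndiv, Nat.succ_eq_add_one]
  rw [Nat.cast_add, Nat.cast_mul 65536]
  exact add_le_add h3 (le_of_eq (by norm_num))

theorem nth_ok {P : TE → Prop} {t0 : TE} (h0 : P t0) (l : List TE) (h : ∀ t ∈ l, P t) (n : ℕ) :
    P (nth t0 l n) := by
  induction l generalizing n with
  | nil => exact h0
  | cons t l ih =>
    have e : nth t0 (t :: l) n = Bool.rec (nth t0 l (Nat.sub n 1)) t (Nat.beq n 0) := rfl
    rw [e]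
    cases Nat.beq n 0
    · exact ih (fun q hq => h q (List.mem_cons_of_mem _ hq)) _
    · exact h t List.mem_cons_self

/-- what the extremal triple gives -/
def Hyp (c : ℂ) : Prop :=
  ∃ (u : ℂ) (N0 : ℕ), N0 < 54 ∧ ‖u‖ ≤ 1 ∧ ‖u - 1‖ ≤ 1 ∧ Surv c u 0 1 2 N0 ∧
    ∀ i j k, rb N0 i j k = true → ori (decide (27 ≤ N0)) i j k = true →
      ∃ N < 54, Surv c u i j k N

structure TabOK (t0 : TE) (TAB : List TE) (PT : List (List PE)) : Prop where
  pt : ∀ a : Fin 6, (PT.getD a.val []).all (peOk a) = true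
  h0 : teOk t0 = true
  tab : TAB.all teOk = true
  ei : t0.i = 0
  ej : t0.j = 1
  ek : t0.k = 2

theorem runU_box {t0 : TE} {TAB : List TE} {PT : List (List PE)} (hT : TabOK t0 TAB PT) {c : ℂ}
    (hc : Hyp c) {B : Bx} (hB : BxOK c B) (st w0 : ℕ) (ws : List ℕ) (ns : ℕ) :
    runU (mkSlot PT B t0 w0) (mkSlots t0 TAB PT B ws) ns st = false := by
  obtain ⟨u, N0, hN, h1, h2, h3, h4⟩ := hc
  refine runU_spec hN (mkSlot_ok hT.pt hB hT.h0 hN (by rwa [hT.ei, hT.ej, hT.ek]) w0) ?_ h1 h2 _ _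
  induction ws with
  | nil => intro s hs; exact absurd hs List.not_mem_nil
  | cons w l ih =>
    intro s hs hb
    rcases List.mem_cons.1 hs with hs | hs
    · have ht : teOk (nth t0 TAB (Nat.mod w 32)) = true :=
        nth_ok (P := fun t => teOk t = true) hT.h0 TAB (List.all_eq_true.1 hT.tab) _
      subst hs
      generalize nth t0 TAB (Nat.mod w 32) = t at ht hb ⊢
      have ht' := ht
      simp only [teOk, Bool.and_eq_true, List.all_eq_true, List.mem_range, Bool.or_eq_true,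
        Bool.not_eq_true'] at ht'
      obtain ⟨a, b⟩ := (ht'.1.2 N0 hN).resolve_left (by simpa [mkSl] using hb)
      obtain ⟨N, hN', hS⟩ := h4 _ _ _ a b
      exact ⟨N, hN', mkSlot_ok hT.pt hB ht hN' hS _⟩
    · exact ih s hs hb

/-- the region of the certificate -/
structure Reg (c : ℂ) : Prop where
  h1 : 1 / 8 ≤ ‖c‖
  h2 : ‖c‖ ≤ ‖1 - c‖
  h3 : ‖1 - c‖ ≤ 1
  hJ : ‖c‖ ^ 2 * ‖1 - c‖ ^ 2 ≤ ‖c ^ 2 - c + 1‖ ^ 3
  hyp : Hyp c

theorem sel_cases {P : ℕ → ℂ → Prop} {c : ℂ} {a b d : ℕ} (h0 : P 65536 1) (h1 : P a c)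
    (h2 : P b (1 - c)) (h3 : P d (c ^ 2 - c + 1)) (t : ℕ) : P (sel t a b d) (tyv c t) := by
  match t with
  | 0 => exact h0
  | 1 => exact h1
  | 2 => exact h2
  | t + 3 => exact h3

theorem boxA_spec {t0 : TE} {TAB : List TE} {PT : List (List PE)} (hT : TabOK t0 TAB PT) {c : ℂ}
    (hc : Reg c) {X Y r : ℕ} (hr : ‖65536 * c - ⟨X, Y⟩‖ ≤ r) (d : List ℕ) :
    boxA t0 TAB PT X Y r d = false := by
  have hH : ‖65536 * c‖ ≤ ((Nat.add (nrm X Y) r : ℕ) : ℝ) := by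
    have h4 : ‖(⟨X, Y⟩ : ℂ)‖ ≤ nrm X Y := nrm_real (by simp) (by simp)
    have := norm_sub_norm_le (65536 * c) ⟨X, Y⟩
    simp only [Nat.add_eq]
    push_cast
    linarith
  unfold boxA boxB
  have k1 := hor_rad (r2 := Nat.mul r r) hr rfl hH [(0, 0), (65536, 0)]
  have k2 := hor_rad (r2 := Nat.mul r r) hr rfl hH [(4294967296, 0), (0, 65536)]
  have k3 := hor_rad (r2 := Nat.mul r r) hr rfl hH [(4294967296, 0), (0, 65536), (1, 0)]
  generalize hor X Y (Nat.mul r r) (Nat.add (nrm X Y) r) [(0, 0), (65536, 0)] = a at k1 ⊢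
  generalize hor X Y (Nat.mul r r) (Nat.add (nrm X Y) r) [(4294967296, 0), (0, 65536)] = b at k2 ⊢
  generalize hor X Y (Nat.mul r r) (Nat.add (nrm X Y) r)
    [(4294967296, 0), (0, 65536), (1, 0)] = e at k3 ⊢
  have nn : ∀ z : ℂ, ‖65536 ^ 2 * z‖ = 65536 ^ 2 * ‖z‖ := fun z => by rw [norm_mul]; simp
  have e1 : pl (65536 * c) [(0, 0), (65536, 0)] = 65536 ^ 2 * c := by simp [pl]; ring
  have e2 : pl (65536 * c) [(4294967296, 0), (0, 65536)] = 65536 ^ 2 * (1 - c) := by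
    simp [pl]; ring
  have e3 : pl (65536 * c) [(4294967296, 0), (0, 65536), (1, 0)] =
      65536 ^ 2 * (c ^ 2 - c + 1) := by simp [pl]; ring
  rw [e1] at k1
  rw [e2] at k2
  rw [e3] at k3
  have u1 := TM.hi_spec k1
  have u2 := TM.hi_spec k2
  have u3 := TM.hi_spec k3
  have l1 := TM.lo_spec k1
  have l2 := TM.lo_spec k2
  have l3 := TM.lo_spec k3
  rw [nn] at u1 u2 u3 l1 l2 l3
  have hd : disc (a.hi r) (b.hi r) (e.hi r) (a.lo r) (b.lo r) = false := by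
    generalize a.hi r = h1 at u1
    generalize b.hi r = h2 at u2
    generalize e.hi r = h3 at u3
    generalize a.lo r = g1 at l1
    generalize b.lo r = g2 at l2
    have a1 := hc.h1
    have a2 := hc.h2
    have a3 := hc.h3
    have b1 : 4294967296 ≤ 8 * h1 := by
      have : (4294967296 : ℝ) ≤ 8 * h1 := by linarith
      exact_mod_cast this
    have b2 : g2 ≤ 4294967296 := by
      have : (g2 : ℝ) ≤ 4294967296 := by linarith
      exact_mod_cast this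
    have b3 : g1 ≤ h2 := by
      have : (g1 : ℝ) ≤ h2 := by linarith
      exact_mod_cast this
    have b4 : g1 * g1 * (g2 * g2) ≤ 4294967296 * h3 ^ 3 := by
      have : (g1 : ℝ) * g1 * (g2 * g2) ≤ 4294967296 * h3 ^ 3 := by
        calc (g1 : ℝ) * g1 * (g2 * g2) ≤ (65536 ^ 2 * ‖c‖) * (65536 ^ 2 * ‖c‖) *
              ((65536 ^ 2 * ‖1 - c‖) * (65536 ^ 2 * ‖1 - c‖)) := by gcongr
          _ = 65536 ^ 8 * (‖c‖ ^ 2 * ‖1 - c‖ ^ 2) := by ring
          _ ≤ 65536 ^ 8 * ‖c ^ 2 - c + 1‖ ^ 3 := by gcongr; exact hc.hJ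
          _ = 4294967296 * (65536 ^ 2 * ‖c ^ 2 - c + 1‖) ^ 3 := by ring
          _ ≤ _ := by gcongr
      exact_mod_cast this
    by_contra hne
    simp only [disc, Nat.mul_eq, npow, Bool.not_eq_false, Bool.or_eq_true, Nat.blt_eq] at hne
    omega
  have su : ∀ {n : ℕ} {x : ℝ}, x ≤ n → x ≤ (sqU n : ℝ) ^ 2 := fun {n x} h => by
    have : ((n : ℕ) : ℝ) ≤ ((sqU n * sqU n : ℕ) : ℝ) := by exact_mod_cast sqU_ge n
    push_cast at this
    rw [sq]; linarith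
  have sl : ∀ {n : ℕ} {x : ℝ}, n ≤ x → (sqL n : ℝ) ^ 2 ≤ x := fun {n x} h => by
    have : ((sqL n * sqL n : ℕ) : ℝ) ≤ ((n : ℕ) : ℝ) := by exact_mod_cast sqL_le n
    push_cast at this
    rw [sq]; linarith
  match d with
  | [] => exact hd
  | [_] => exact hd
  | st :: w0 :: ws =>
    simp only [boxC, boxOk]
    by_contra hne
    simp only [Bool.not_eq_false, Bool.and_eq_true, Nat.blt_eq] at hne
    obtain ⟨⟨⟨p1, p2⟩, p3⟩, p4⟩ := hne
    rw [runU_box hT hc.hyp ⟨hr, rfl, hH,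
      sel_cases (P := fun s z => 65536 ^ 2 * ‖z‖ ≤ (s : ℝ) ^ 2) (by simp) (su u1) (su u2) (su u3),
      sel_cases (P := fun s z => (s : ℝ) ^ 2 ≤ 65536 ^ 2 * ‖z‖) (by simp) (sl l1) (sl l2) (sl l3),
      sel_cases (c := c) (P := fun s _ => 0 < s) (by norm_num) p1 p2 p3⟩] at p4
    exact absurd p4 (by simp)

theorem chkC_spec {t0 : TE} {TAB : List TE} {PT : List (List PE)} (hT : TabOK t0 TAB PT) {c : ℂ}
    (hc : Reg c) (k : ℕ) : ∀ (x y : ℕ) (l : List (List ℕ)), InSq (65536 * c) (2 ^ k) x y →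
      chkC t0 TAB PT k x y l = none := by
  induction k with
  | zero => intro x y l _; simp [chkC]
  | succ k ih =>
    intro x y l h
    match l with
    | [] => simp [chkC]
    | [] :: l =>
      simp only [chkC, Nat.add_eq, npow]
      rcases h.split with h | h | h | h
      · rw [ih _ _ _ h]; rfl
      · simp [funext (ih _ _ · h)]
      · simp [funext (ih _ _ · h)]
      · simp [funext (ih _ _ · h)]
    | (a :: d) :: l =>
      simp only [chkC, Nat.add_eq, npow]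
      rw [boxA_spec hT hc h.ball]

/-- the square contains no point of the region -/
def Free (k x y : ℕ) : Prop := ∀ c : ℂ, Reg c → ¬ InSq (65536 * c) (2 ^ k) x y

theorem free_of_chk {t0 : TE} {TAB : List TE} {PT : List (List PE)} (hT : TabOK t0 TAB PT)
    {k x y : ℕ} (l : List (List ℕ)) (h : (chkC t0 TAB PT k x y l).isSome = true) : Free k x y := by
  intro c hc hs
  rw [chkC_spec hT hc k x y l hs] at h
  exact absurd h (by simp)

theorem free_split {k x y x' y' : ℕ} (h1 : Free k x y) (h2 : Free k x y') (h3 : Free k x' y)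
    (h4 : Free k x' y') (hx : x' = x + 2 ^ k) (hy : y' = y + 2 ^ k) : Free (k + 1) x y := by
  subst hx hy
  intro c hc hs
  rcases hs.split with h | h | h | h
  exacts [h1 c hc h, h2 c hc h, h3 c hc h, h4 c hc h]

end Pool.Agent.P.MP_862e21_al
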