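import Pool.Agent.P.MP_862e21_al.OCBasic

namespace Pool.Agent.P.MP_862e21_al

open Finset Pointwise

variable {F : Type*} [Field F] [DecidableEq F]

theorem OCThin_step {c : F} {η : Bool} {TT : Finset (F × F × F)} (h : OC c η TT) {x y z : F}
    (ht : (x, y, z) ∈ TT) : ∃ p : F, (p - y) * (z - x) = c * ((z - y) * (p - x)) ∧
      ((x, p, y) ∈ TT ∨ (z, y, p) ∈ TT ∨ (x, z, p) ∈ TT) := by
  obtain ⟨p, κ, p0, p1, p2, k0, k1, k2, he, hr⟩ := h.ext _ ht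
  simp only at p0 p1 p2 he
  refine ⟨p 3, by simpa [PW] using he 3, ?_⟩
  have o1 : ∀ η, ori η 0 3 1 = true := by decide
  have o2 : ∀ η, ori η 2 1 3 = true := by decide
  have o3 : ∀ η, ori η 0 2 3 = true := by decide
  have hk : κ 3 = 0 ∨ κ 3 = 1 ∨ κ 3 = 2 := by
    generalize κ 3 = a
    revert a
    decide
  rcases hk with e | e | e
  · have := hr 2 1 3 (by rw [k2, k1]; decide) (by rw [k2, e]; decide) (by rw [k1, e]; decide)
      (o2 η)
    rw [p2, p1] at this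
    exact Or.inr (Or.inl this)
  · have := hr 0 2 3 (by rw [k0, k2]; decide) (by rw [k0, e]; decide) (by rw [k2, e]; decide)
      (o3 η)
    rw [p0, p2] at this
    exact Or.inr (Or.inr this)
  · have := hr 0 3 1 (by rw [k0, e]; decide) (by rw [k0, k1]; decide) (by rw [k1, e]; decide)
      (o1 η)
    rw [p0, p1] at this
    exact Or.inl this

theorem OCThin_fin {c : F} {η : Bool} {TT : Finset (F × F × F)} (h : OC c η TT)
    (P : F × F × F → Prop) (h0 : ∃ t ∈ TT, P t)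
    (hs : ∀ x y z, (x, y, z) ∈ TT → P (x, y, z) → ∃ p, (x, z, p) ∈ TT ∧ P (x, z, p) ∧
      (p - y) * (z - x) = c * ((z - y) * (p - x))) : ∃ m : ℕ, 1 ≤ m ∧ (c - 1) ^ m = 1 := by
  let d : F × F × F → F := fun t => (t.2.2 - t.1)⁻¹ - (t.2.1 - t.1)⁻¹
  obtain ⟨t0, ht0, hP0⟩ := h0
  have hd0 : d t0 ≠ 0 := by
    intro e
    have := inv_injective (sub_eq_zero.1 e)
    exact (h.dist _ ht0).2.2 (sub_left_injective this).symm
  have key : ∀ n : ℕ, ∃ t ∈ TT, P t ∧ d t = (c - 1) ^ n * d t0 := by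
    intro n
    induction n with
    | zero => exact ⟨t0, ht0, hP0, by simp⟩
    | succ n ih =>
      obtain ⟨⟨x, y, z⟩, ht, hP, hd⟩ := ih
      obtain ⟨p, hp, hPp, e⟩ := hs x y z ht hP
      refine ⟨_, hp, hPp, ?_⟩
      have a1 : y - x ≠ 0 := sub_ne_zero.2 (h.dist _ ht).1.symm
      have a2 : z - x ≠ 0 := sub_ne_zero.2 (h.dist _ ht).2.1.symm
      have a3 : p - x ≠ 0 := sub_ne_zero.2 (h.dist _ hp).2.1.symm
      rw [pow_succ, mul_right_comm, ← hd]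
      simp only [d]
      field_simp
      linear_combination -e
  have hc : c - 1 ≠ 0 := sub_ne_zero.2 h.c1
  obtain ⟨i, j, hij, e⟩ := Set.Finite.exists_lt_map_eq_of_forall_mem
    (f := fun n : ℕ => (c - 1) ^ n * d t0) (t := ((TT.image d : Finset F) : Set F))
    (fun n => by
      obtain ⟨t, ht, -, hd⟩ := key n
      exact mem_coe.2 (mem_image.2 ⟨t, ht, hd⟩)) (finite_toSet _)
  refine ⟨j - i, by omega, ?_⟩
  have e2 := mul_right_cancel₀ hd0 e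
  rw [pow_sub₀ _ hc hij.le, ← e2, mul_inv_cancel₀ (pow_ne_zero _ hc)]

theorem otree {c : F} {η : Bool} {TT : Finset (F × F × F)} (h : OC c η TT)
    (O : ValuationSubring F) (hv : O.valuation c < 1) : ∃ m : ℕ, 1 ≤ m ∧ (c - 1) ^ m = 1 := by
  generalize O.valuation = v at *
  refine OCThin_fin h (fun t => ∀ t' ∈ TT, v (t.2.1 - t.2.2) ≤ v (t'.2.1 - t'.2.2))
    (TT.exists_min_image (fun t => v (t.2.1 - t.2.2)) h.ne) fun x y z ht hP => ?_
  simp only at hP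
  obtain ⟨p, e, hp⟩ := OCThin_step h ht
  have zx : z - x ≠ 0 := sub_ne_zero.2 (h.dist _ ht).2.1.symm
  have yz : y - z ≠ 0 := sub_ne_zero.2 (h.dist _ ht).2.2
  have vzx : 0 < v (z - x) := (Valuation.pos_iff v).2 zx
  have hδ : 0 < v (y - z) := (Valuation.pos_iff v).2 yz
  have hδx : v (y - z) ≤ v (z - x) := hP _ (h.cyc ht)
  have hsδ : v c * v (y - z) < v (y - z) := mul_lt_of_lt_one_left hδ hv
  have e1 : (p - x) * (z - x - c * (z - y)) = (y - x) * (z - x) := by linear_combination e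
  have v1 : v (z - x - c * (z - y)) = v (z - x) := by
    refine v.map_sub_eq_of_lt_left ?_
    rw [map_mul, v.map_sub_swap z y]
    exact hsδ.trans_le hδx
  have v2 : v (p - x) = v (y - x) := by
    have := congrArg v e1
    rw [map_mul, map_mul, v1] at this
    exact mul_right_cancel₀ vzx.ne' this
  have v3 : v (y - x) ≤ v (z - x) := by
    have : y - x = (y - z) + (z - x) := by ring
    rw [this]
    exact v.map_add_le hδx le_rfl
  have v4 : v (p - y) < v (y - z) := by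
    have h1 := congrArg v e
    rw [map_mul, map_mul, map_mul, v.map_sub_swap z y, v2, ← mul_assoc] at h1
    have h2 : v (p - y) * v (z - x) ≤ v c * v (y - z) * v (z - x) := by
      rw [h1]
      exact mul_le_mul' le_rfl v3
    exact (le_of_mul_le_mul_right h2 vzx).trans_lt hsδ
  rcases hp with hp | hp | hp
  · exact absurd (hP _ hp) (not_le.2 v4)
  · have := hP _ hp
    rw [v.map_sub_swap y p] at this
    exact absurd this (not_le.2 v4)
  · refine ⟨p, hp, fun t' ht' => le_trans ?_ (hP t' ht'), e⟩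
    have : z - p = -(y - z) + -(p - y) := by ring
    simp only
    rw [this]
    exact v.map_add_le (by rw [v.map_neg]) (by rw [v.map_neg]; exact v4.le)

/-- the potential -/
noncomputable def OCThin_g (c : ℂ) (t : ℂ × ℂ × ℂ) : ℂ :=
  ((t.2.2 - t.2.1) - (2 - c) * (t.2.2 - t.1)) ^ 2 /
    ((t.1 - t.2.1) * (t.1 - t.2.2) * (t.2.1 - t.2.2))

theorem OCThin_forms {c x y z p : ℂ} (c0 : c ≠ 0) (c1 : c ≠ 1) (hxy : x ≠ y) (hxz : x ≠ z)
    (hyz : y ≠ z) (e : (p - y) * (z - x) = c * ((z - y) * (p - x))) :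
    ∃ u Δ : ℂ, Δ ≠ 0 ∧ OCThin_g c (x, y, z) * Δ = -(1 - (2 - c) * u) ^ 2 ∧
      OCThin_g c (y, z, x) * Δ = -(2 - c - (1 - c) * u) ^ 2 ∧
      OCThin_g c (x, p, y) * Δ * c = (c * (1 - c) - (2 - c) * u) ^ 2 ∧
      OCThin_g c (z, y, p) * Δ * (c * (1 - c)) = -(c - (2 - 2 * c + c ^ 2) * u) ^ 2 ∧
      OCThin_g c (x, z, p) * Δ * (1 - c) = (1 - (2 - c) * u) ^ 2 := by
  obtain ⟨A, rfl⟩ : ∃ A, y = z - A := ⟨z - y, by ring⟩
  have hA : A ≠ 0 := fun e => hyz (by rw [e, sub_zero])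
  obtain ⟨u, rfl⟩ : ∃ u, x = z - u * A := ⟨(z - x) / A, by field_simp; ring⟩
  have hu : u ≠ 0 := fun e => hxz (by rw [e, zero_mul, sub_zero])
  have hu1 : u - 1 ≠ 0 := fun e => hxy (by rw [sub_eq_zero.1 e, one_mul])
  have hc1 : 1 - c ≠ 0 := sub_ne_zero.2 c1.symm
  have e2 : (p - (z - A)) * (u - c) = c * (u - 1) * A := by
    refine mul_left_cancel₀ hA ?_
    linear_combination e
  have hw : u - c ≠ 0 := fun e0 => by
    rw [e0, mul_zero] at e2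
    exact mul_ne_zero (mul_ne_zero c0 hu1) hA e2.symm
  obtain ⟨B, rfl⟩ : ∃ B, A = B * (u - c) := ⟨A / (u - c), by field_simp⟩
  have hB : B ≠ 0 := left_ne_zero_of_mul hA
  have hp : p = z - B * (u * (1 - c)) := by
    refine mul_right_cancel₀ hw ?_
    linear_combination e2
  subst hp
  refine ⟨u, (u - 1) * u * (B * (u - c)), mul_ne_zero (mul_ne_zero hu1 hu) hA, ?_, ?_, ?_, ?_, ?_⟩
  · rw [OCThin_g, div_mul_eq_mul_div, div_eq_iff]
    · ring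
    · exact mul_ne_zero (mul_ne_zero (sub_ne_zero.2 hxy) (sub_ne_zero.2 hxz)) (sub_ne_zero.2 hyz)
  · rw [OCThin_g, div_mul_eq_mul_div, div_eq_iff]
    · ring
    · exact mul_ne_zero (mul_ne_zero (sub_ne_zero.2 hyz) (sub_ne_zero.2 hxy.symm))
        (sub_ne_zero.2 hxz.symm)
  · rw [OCThin_g, div_mul_eq_mul_div, div_mul_eq_mul_div, div_eq_iff]
    · ring
    · have : c * u * (u - 1) ^ 3 * B ^ 3 * (u - c) ≠ 0 := by positivity
      refine fun e0 => this ?_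
      simp only at e0
      linear_combination e0
  · rw [OCThin_g, div_mul_eq_mul_div, div_mul_eq_mul_div, div_eq_iff]
    · ring
    · have : c * (1 - c) * u * (u - 1) * B ^ 3 * (u - c) ≠ 0 := by positivity
      refine fun e0 => this ?_
      simp only at e0
      linear_combination -e0
  · rw [OCThin_g, div_mul_eq_mul_div, div_mul_eq_mul_div, div_eq_iff]
    · ring
    · have : (1 - c) * u ^ 3 * (u - 1) * B ^ 3 * (u - c) ≠ 0 := by positivity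
      refine fun e0 => this ?_
      simp only at e0
      linear_combination e0

theorem OCThin_low {c u : ℂ} (h1 : ‖c‖ ≤ 1 / 8)
    (h : ‖2 - c - (1 - c) * u‖ ≤ ‖1 - (2 - c) * u‖) : 7 / 10 ≤ ‖u‖ := by
  by_contra hlt
  push Not at hlt
  have r0 := norm_nonneg u
  have e : ‖2 - u‖ ^ 2 - ‖1 - 2 * u‖ ^ 2 = 3 - 3 * ‖u‖ ^ 2 := by
    simp only [Complex.sq_norm, Complex.normSq_apply]
    simp
    ring
  have a1 : ‖2 - u‖ ≤ 2 + ‖u‖ := by simpa using norm_sub_le (2 : ℂ) u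
  have a2 : ‖1 - 2 * u‖ ≤ 1 + 2 * ‖u‖ := by simpa using norm_sub_le (1 : ℂ) (2 * u)
  have a3 : 1 - ‖u‖ ≤ ‖2 - u‖ - ‖1 - 2 * u‖ := by
    by_contra hc
    push Not at hc
    nlinarith [norm_nonneg (2 - u), norm_nonneg (1 - 2 * u)]
  have b1 : ‖2 - u‖ ≤ ‖2 - c - (1 - c) * u‖ + ‖c‖ * (1 + ‖u‖) := by
    have e1 : 2 - u = (2 - c - (1 - c) * u) + c * (1 - u) := by ring
    have : ‖1 - u‖ ≤ 1 + ‖u‖ := by simpa using norm_sub_le (1 : ℂ) u
    calc ‖2 - u‖ = ‖(2 - c - (1 - c) * u) + c * (1 - u)‖ := by rw [← e1]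
      _ ≤ _ := norm_add_le _ _
      _ ≤ _ := by rw [norm_mul]; gcongr
  have b2 : ‖1 - (2 - c) * u‖ ≤ ‖1 - 2 * u‖ + ‖c‖ * ‖u‖ := by
    have e1 : 1 - (2 - c) * u = (1 - 2 * u) + c * u := by ring
    rw [e1, ← norm_mul]
    exact norm_add_le _ _
  nlinarith [norm_nonneg c]

theorem OCThin_up {c u : ℂ} (h1 : ‖c‖ ≤ 1 / 8) (hu : 7 / 10 ≤ ‖u‖) :
    ‖1 - (2 - c) * u‖ ≤ 4 * ‖u‖ := by
  have a1 : ‖2 - c‖ ≤ 2 + ‖c‖ := by simpa using norm_sub_le (2 : ℂ) c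
  have a2 : ‖1 - (2 - c) * u‖ ≤ 1 + ‖2 - c‖ * ‖u‖ := by
    simpa using norm_sub_le (1 : ℂ) ((2 - c) * u)
  nlinarith [norm_nonneg u]

theorem OCThin_big {a b u : ℂ} (ha : ‖a‖ ≤ 1 / 8) (hb : ‖b‖ ≤ 17 / 64) (hu : 7 / 10 ≤ ‖u‖) :
    3 / 2 * ‖u‖ ≤ ‖a - (2 - b) * u‖ := by
  have a1 : 2 - ‖b‖ ≤ ‖2 - b‖ := by simpa using norm_sub_norm_le (2 : ℂ) b
  have a2 : ‖2 - b‖ * ‖u‖ - ‖a‖ ≤ ‖a - (2 - b) * u‖ := by
    rw [norm_sub_rev a, ← norm_mul]
    exact norm_sub_norm_le _ _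
  nlinarith [norm_nonneg u]

theorem OCThin_contra {G G' D k a b r : ℝ} (hG : G' ≤ G) (hD : 0 < D) (hk0 : 0 ≤ k)
    (hk : k ≤ 1 / 8) (e1 : G * D = a ^ 2) (e2 : G' * D * k = b ^ 2) (ha0 : 0 ≤ a)
    (ha : a ≤ 4 * r) (hb : 3 / 2 * r ≤ b) (hr : 7 / 10 ≤ r) : False := by
  have h1 : G' * D ≤ a ^ 2 := e1 ▸ mul_le_mul_of_nonneg_right hG hD.le
  have h2 : b ^ 2 ≤ a ^ 2 * k := e2 ▸ mul_le_mul_of_nonneg_right h1 hk0
  have h3 : a ^ 2 ≤ (4 * r) ^ 2 := pow_le_pow_left₀ ha0 ha 2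
  have h4 : (3 / 2 * r) ^ 2 ≤ b ^ 2 := pow_le_pow_left₀ (by linarith) hb 2
  have h5 : a ^ 2 * k ≤ (4 * r) ^ 2 * (1 / 8) := mul_le_mul h3 hk hk0 (by positivity)
  nlinarith

theorem othin [DecidableEq ℂ] {c : ℂ} {η : Bool} {TT : Finset (ℂ × ℂ × ℂ)} (h : OC c η TT)
    (h1 : ‖c‖ ≤ 1 / 8) (h2 : ‖1 - c‖ ≤ 1) : ∃ m : ℕ, 1 ≤ m ∧ (c - 1) ^ m = 1 := by
  refine OCThin_fin h (fun t => ∀ t' ∈ TT, ‖OCThin_g c t'‖ ≤ ‖OCThin_g c t‖)
    (TT.exists_max_image (fun t => ‖OCThin_g c t‖) h.ne) fun x y z ht hP => ?_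
  obtain ⟨p, e, hp⟩ := OCThin_step h ht
  obtain ⟨d1, d2, d3⟩ := h.dist _ ht
  obtain ⟨u, Δ, hΔ, f1, f2, f3, f4, f5⟩ := OCThin_forms h.c0 h.c1 d1 d2 d3 e
  have hD : 0 < ‖Δ‖ := norm_pos_iff.2 hΔ
  have n1 := congrArg norm f1
  have n2 := congrArg norm f2
  have n3 := congrArg norm f3
  have n4 := congrArg norm f4
  have n5 := congrArg norm f5
  rw [norm_mul, norm_neg, norm_pow] at n1 n2
  rw [norm_mul, norm_mul, norm_pow] at n3 n5
  rw [norm_mul, norm_mul, norm_neg, norm_pow] at n4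
  have hu : 7 / 10 ≤ ‖u‖ := by
    refine OCThin_low h1 ((sq_le_sq₀ (norm_nonneg _) (norm_nonneg _)).1 ?_)
    rw [← n1, ← n2]
    exact mul_le_mul_of_nonneg_right (hP _ (h.cyc ht)) hD.le
  have hup := OCThin_up h1 hu
  have hcc : ‖c * (1 - c)‖ ≤ 1 / 8 := by
    rw [norm_mul]
    nlinarith [norm_nonneg c, norm_nonneg (1 - c)]
  rcases hp with hp | hp | hp
  · exact (OCThin_contra (hP _ hp) hD (norm_nonneg _) h1 n1 n3 (norm_nonneg _) hup
      (OCThin_big hcc (by linarith) hu) hu).elim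
  · have hb : ‖2 * c - c ^ 2‖ ≤ 17 / 64 := by
      have : ‖2 * c - c ^ 2‖ ≤ 2 * ‖c‖ + ‖c‖ ^ 2 := by
        have h5 := norm_sub_le (2 * c) (c ^ 2)
        rwa [norm_mul, norm_pow, Complex.norm_ofNat] at h5
      nlinarith [norm_nonneg c]
    have hb2 := OCThin_big h1 hb hu
    rw [show 2 - (2 * c - c ^ 2) = 2 - 2 * c + c ^ 2 by ring] at hb2
    exact (OCThin_contra (hP _ hp) hD (norm_nonneg _) hcc n1 n4 (norm_nonneg _) hup hb2 hu).elim
  · refine ⟨p, hp, fun t' ht' => (hP t' ht').trans ?_, e⟩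
    refine le_of_mul_le_mul_right ?_ hD
    rw [n1, ← n5]
    exact mul_le_of_le_one_right (by positivity) h2

end Pool.Agent.P.MP_862e21_al
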