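import Pool.Agent.P.MP_862e21_al.OCAlg
import Pool.Agent.P.MP_862e21_al.OCFin
import Pool.Agent.P.MP_862e21_al.Ultra

namespace Pool.Agent.P.MP_862e21_al

open Finset Pointwise

variable {F : Type*} [Field F] [DecidableEq F]

theorem ocultra_field (F : ℕ → Type) [∀ i, Field (F i)] (U : Ultrafilter ℕ) :
    ∃ (K : Type) (_ : Field K) (π : (∀ i, F i) →+* K), Function.Surjective π ∧
      ∀ f g, π f = π g ↔ ∀ᶠ i in (U : Filter ℕ), f i = g i := by
  let I : Ideal (∀ i, F i) :=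
    { carrier := {f | ∀ᶠ i in (U : Filter ℕ), f i = 0}
      add_mem' := fun {f g} hf hg => by
        filter_upwards [hf, hg] with i h1 h2
        simp [h1, h2]
      zero_mem' := Filter.Eventually.of_forall fun _ => rfl
      smul_mem' := fun c f hf => by
        filter_upwards [hf] with i h1
        simp [h1] }
  have hI : ∀ f, f ∈ I ↔ ∀ᶠ i in (U : Filter ℕ), f i = 0 := fun _ => Iff.rfl
  have : I.IsMaximal := by
    refine Ideal.isMaximal_iff.2 ⟨fun h => ?_, fun J x hJ hx hxJ => ?_⟩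
    · obtain ⟨i, hi⟩ := ((hI 1).1 h).exists
      exact one_ne_zero hi
    · have h1 : 1 - x⁻¹ * x ∈ I := by
        rw [hI]
        filter_upwards [Ultrafilter.eventually_not.2 (mt (hI x).2 hx)] with i hi
        simp [inv_mul_cancel₀ hi]
      simpa using J.add_mem (hJ h1) (J.mul_mem_left x⁻¹ hxJ)
  refine ⟨(∀ i, F i) ⧸ I, Ideal.Quotient.field I, Ideal.Quotient.mk I,
    Ideal.Quotient.mk_surjective, fun f g => ?_⟩
  rw [Ideal.Quotient.eq, hI]
  simp only [Pi.sub_apply, sub_eq_zero]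

theorem ocultra_pw {R S : Type*} [CommRing R] [CommRing S] (f : R →+* S) (c : R) (m : Fin 6) :
    (PW (f c) m).1 = f (PW c m).1 ∧ (PW (f c) m).2 = f (PW c m).2 := by
  fin_cases m <;> simp [PW]

theorem ocultra_main {F : ℕ → Type} [∀ i, Field (F i)] [∀ i, DecidableEq (F i)]
    (U : Ultrafilter ℕ) {N : ℕ} {η : Bool} (c : ∀ i, F i) (TT : ∀ i, Finset (F i × F i × F i))
    (h : ∀ i, OC (c i) η (TT i)) (hN : ∀ i, (TT i).card ≤ N)
    (hi : ∀ i, ¬ IsSquare (-1 : F i))
    (hch : ∀ n : ℕ, n ≠ 0 → ∀ᶠ i in (U : Filter ℕ), (n : F i) ≠ 0) : False := by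
  classical
  obtain ⟨K, _, π, hsur, hπ⟩ := ocultra_field F U
  choose a ha ha' using fun i => ultra_enum (h i).ne (hN i)
  have hne : ∀ f g, (∀ i, f i ≠ g i) → π f ≠ π g := fun f g h1 h2 => by
    obtain ⟨i, hi⟩ := ((hπ f g).1 h2).exists
    exact h1 i hi
  have hcz : CharZero K := by
    refine charZero_of_inj_zero fun n hn => ?_
    by_contra h0
    have h1 : π (n : ∀ i, F i) = π 0 := by rw [map_natCast, map_zero, hn]
    obtain ⟨i, e1, e2⟩ := (((hπ _ _).1 h1).and (hch n h0)).exists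
    exact e2 (by simpa using e1)
  have hsq : ¬ IsSquare (-1 : K) := by
    rintro ⟨r, hr⟩
    obtain ⟨f, rfl⟩ := hsur r
    have h1 : π (-1) = π (f * f) := by rw [map_neg, map_one, map_mul, hr]
    obtain ⟨i, e⟩ := ((hπ _ _).1 h1).exists
    exact hi i ⟨f i, e⟩
  have hk : Nonempty (Fin N) := ⟨⟨0, (card_pos.2 (h 0).ne).trans_le (hN 0)⟩⟩
  obtain ⟨T, hT⟩ : ∃ T : Fin N → K × K × K, ∀ j, T j =
      (π fun i => (a i j).1, π fun i => (a i j).2.1, π fun i => (a i j).2.2) :=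
    ⟨_, fun _ => rfl⟩
  have hoc : OC (π c) η (univ.image T) := by
    refine ⟨map_zero π ▸ hne c 0 fun i => (h i).c0, map_one π ▸ hne c 1 fun i => (h i).c1, ?_,
      univ_nonempty.image _, ?_, ?_⟩
    · have h1 := hne (c ^ 2 - c + 1) 0 fun i => (h i).cN
      simpa using h1
    · intro t ht
      obtain ⟨j, -, rfl⟩ := mem_image.1 ht
      rw [hT]
      exact ⟨hne _ _ fun i => ((h i).dist _ (ha i j)).1,
        hne _ _ fun i => ((h i).dist _ (ha i j)).2.1, hne _ _ fun i => ((h i).dist _ (ha i j)).2.2⟩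
    · intro t ht
      obtain ⟨j, -, rfl⟩ := mem_image.1 ht
      choose p κ p0 p1 p2 k0 k1 k2 he hc using fun i => (h i).ext _ (ha i j)
      obtain ⟨κ0, hκ⟩ : ∃ κ0 : Fin 6 → Fin 3, ∀ᶠ i in (U : Filter ℕ), κ i = κ0 :=
        Ultrafilter.eventually_exists_iff.1 (Filter.Eventually.of_forall fun i => ⟨κ i, rfl⟩)
      obtain ⟨i0, e0⟩ := hκ.exists
      refine ⟨fun m => π fun i => p i m, κ0, ?_, ?_, ?_, e0 ▸ k0 i0, e0 ▸ k1 i0, e0 ▸ k2 i0,
        fun m => ?_, fun m1 m2 m3 h12 h13 h23 ho => ?_⟩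
      · simp only [hT, p0]
      · simp only [hT, p1]
      · simp only [hT, p2]
      · rw [(ocultra_pw π c m).1, (ocultra_pw π c m).2, hT]
        simp only [← map_sub, ← map_mul]
        congr 1
        funext i
        have h1 := ocultra_pw (Pi.evalRingHom F i) c m
        simp only [Pi.evalRingHom_apply] at h1
        simp only [Pi.mul_apply, Pi.sub_apply, ← h1.1, ← h1.2]
        exact he i m
      · have h1 : ∀ᶠ i in (U : Filter ℕ), ∃ j', a i j' = (p i m1, p i m2, p i m3) := by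
          filter_upwards [hκ] with i e
          exact ha' i _ (hc i m1 m2 m3 (e ▸ h12) (e ▸ h13) (e ▸ h23) ho)
        obtain ⟨j', hj⟩ := Ultrafilter.eventually_exists_iff.1 h1
        refine mem_image.2 ⟨j', mem_univ _, ?_⟩
        rw [hT]
        refine Prod.ext ((hπ _ _).2 ?_) (Prod.ext ((hπ _ _).2 ?_) ((hπ _ _).2 ?_)) <;>
          filter_upwards [hj] with i e <;> simp only [e]
  exact oalg hsq hoc

theorem ocultra_bounded (N : ℕ) (η : Bool) : ∃ q0 : ℕ, ∀ (F : Type) [Field F] [Fintype F]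
    [DecidableEq F], q0 ≤ Fintype.card F → (Fintype.card F).Prime → ¬ IsSquare (-1 : F) →
      ∀ (c : F) (TT : Finset (F × F × F)), OC c η TT → TT.card ≤ N → False := by
  by_contra hne
  have h : ∀ q0 : ℕ, ∃ (F : Type) (_ : Field F) (_ : Fintype F) (_ : DecidableEq F) (c : F)
      (TT : Finset (F × F × F)), q0 ≤ Fintype.card F ∧ (Fintype.card F).Prime ∧
        ¬ IsSquare (-1 : F) ∧ OC c η TT ∧ TT.card ≤ N := by
    intro q0
    by_contra h1
    exact hne ⟨q0, fun F i1 i2 i3 h2 h3 h4 c TT h5 h6 =>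
      h1 ⟨F, i1, i2, i3, c, TT, h2, h3, h4, h5, h6⟩⟩
  choose F i1 i2 i3 c TT h1 h2 h3 h4 h5 using h
  refine ocultra_main (Filter.hyperfilter ℕ) c TT h4 h5 h3 fun n hn => ?_
  filter_upwards [(Filter.eventually_gt_atTop n).filter_mono Nat.hyperfilter_le_atTop] with i hi e
  have : Fact (Fintype.card (F i)).Prime := ⟨h2 i⟩
  have : CharP (F i) (Fintype.card (F i)) := charP_of_card_eq_prime rfl
  have h6 := Nat.le_of_dvd (Nat.pos_of_ne_zero hn)
    ((CharP.cast_eq_zero_iff (F i) (Fintype.card (F i)) n).1 e)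
  have := h1 i
  omega

theorem obounded (k : ℕ) : ∃ q0 : ℕ, ∀ (F : Type) [Field F] [Fintype F] [DecidableEq F],
    q0 ≤ Fintype.card F → (Fintype.card F).Prime → ∀ (c : F) (A B C : Finset F), OCl c A B C →
      A.card ≤ k → B.card ≤ k → C.card ≤ k → False := by
  choose q hq using ocultra_bounded ((3 * k) ^ 3)
  refine ⟨max (q true) (q false), fun F _ _ _ h1 h2 c A B C h hA hB hC => ?_⟩
  obtain ⟨η, TT, h3, h4⟩ := ofin h
  refine hq η F ?_ h2 h.spl.neg c TT h3 (h4.trans (Nat.pow_le_pow_left (by omega) 3))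
  cases η
  · exact (le_max_right _ _).trans h1
  · exact (le_max_left _ _).trans h1

end Pool.Agent.P.MP_862e21_al
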