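import Pool.Agent.P.MP_862e21_al.ODefs

namespace Pool.Agent.P.MP_862e21_al

open Finset Pointwise

variable {F : Type*} [Field F] [DecidableEq F]

/-- families of solutions with distinct coordinates -/
def ORemove_ok (s : F) (P : Finset (F × F)) : Prop :=
  ∀ p ∈ P, ∀ p' ∈ P, (p.1 = p'.1 ∨ p.2 = p'.2 ∨
    (1 - s) * p.1 + s * p.2 = (1 - s) * p'.1 + s * p'.2) → p = p'

/-- triangle index of a solution and a base point -/
def ORemove_tri (s : F) (x : F × (F × F)) : F × F × F :=
  (x.1, x.1 + (1 - s) * x.2.1, x.1 + ((1 - s) * x.2.1 + s * x.2.2))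

theorem ORemove_tri_inj {s : F} (h0 : s ≠ 0) (h1 : s ≠ 1) :
    Function.Injective (ORemove_tri s) := by
  rintro ⟨a, y, z⟩ ⟨a', y', z'⟩ h
  simp only [ORemove_tri, Prod.mk.injEq] at h
  obtain ⟨ha, hb, hc⟩ := h
  subst ha
  have h1' : (1 - s) ≠ 0 := sub_ne_zero.mpr h1.symm
  have hy : y = y' := mul_left_cancel₀ h1' (add_left_cancel hb)
  subst hy
  have hz : z = z' := mul_left_cancel₀ h0 (add_left_cancel (add_left_cancel hc))
  subst hz
  rfl

theorem ORemove_mem [Fintype F] {s : F} {P : Finset (F × F)} {a b c : F} :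
    (a, b, c) ∈ ((univ : Finset F) ×ˢ P).image (ORemove_tri s) ↔
      ∃ p ∈ P, b = a + (1 - s) * p.1 ∧ c = a + ((1 - s) * p.1 + s * p.2) := by
  constructor
  · intro h
    obtain ⟨⟨a', p⟩, hp, he⟩ := mem_image.mp h
    simp only [ORemove_tri, Prod.mk.injEq] at he
    obtain ⟨ha, hb, hc⟩ := he
    subst ha
    exact ⟨p, (mem_product.mp hp).2, hb.symm, hc.symm⟩
  · rintro ⟨p, hp, hb, hc⟩
    refine mem_image.mpr ⟨(a, p), mem_product.mpr ⟨mem_univ _, hp⟩, ?_⟩
    simp only [ORemove_tri, Prod.mk.injEq]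
    exact ⟨trivial, hb.symm, hc.symm⟩

theorem ORemove_disj [Fintype F] {s : F} (h0 : s ≠ 0) (h1 : s ≠ 1) {P : Finset (F × F)}
    (hP : ORemove_ok s P) :
    SimpleGraph.TripartiteFromTriangles.ExplicitDisjoint
      (((univ : Finset F) ×ˢ P).image (ORemove_tri s)) := by
  have h1' : (1 - s) ≠ 0 := sub_ne_zero.mpr h1.symm
  constructor
  · intro a b c a' h h'
    obtain ⟨p, hp, hb, hc⟩ := ORemove_mem.mp h
    obtain ⟨p', hp', hb', hc'⟩ := ORemove_mem.mp h'
    have hz : p.2 = p'.2 := by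
      apply mul_left_cancel₀ h0
      linear_combination hc' - hc - hb' + hb
    have := hP p hp p' hp' (Or.inr (Or.inl hz))
    subst this
    linear_combination hb' - hb
  · intro a b c b' h h'
    obtain ⟨p, hp, hb, hc⟩ := ORemove_mem.mp h
    obtain ⟨p', hp', hb', hc'⟩ := ORemove_mem.mp h'
    have hw : (1 - s) * p.1 + s * p.2 = (1 - s) * p'.1 + s * p'.2 := by
      linear_combination hc' - hc
    have := hP p hp p' hp' (Or.inr (Or.inr hw))
    subst this
    rw [hb, hb']
  · intro a b c c' h h'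
    obtain ⟨p, hp, hb, hc⟩ := ORemove_mem.mp h
    obtain ⟨p', hp', hb', hc'⟩ := ORemove_mem.mp h'
    have hy : p.1 = p'.1 := by
      apply mul_left_cancel₀ h1'
      linear_combination hb' - hb
    have := hP p hp p' hp' (Or.inl hy)
    subst this
    rw [hc, hc']

open SimpleGraph.TripartiteFromTriangles in
theorem ORemove_cliques [Fintype F] {s : F} {B C D : Finset F} {P : Finset (F × F)}
    (hP : P ⊆ Sol s B C D) :
    ((graph (((univ : Finset F) ×ˢ P).image (ORemove_tri s))).cliqueFinset 3).card ≤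
      Fintype.card F * (Sol s B C D).card := by
  have hsub : (graph (((univ : Finset F) ×ˢ P).image (ORemove_tri s))).cliqueFinset 3 ⊆
      ((univ : Finset F) ×ˢ Sol s B C D).image (fun x => toTriangle (ORemove_tri s x)) := by
    intro T hT
    rw [SimpleGraph.mem_cliqueFinset_iff, SimpleGraph.is3Clique_iff] at hT
    obtain ⟨x, y, z, hxy, hxz, hyz, rfl⟩ := hT
    obtain ⟨a, b, c, habc, hab, hac, hbc⟩ := graph_triple hxy hxz hyz
    obtain ⟨c', hc'⟩ := Graph.in₀₁_iff.1 hab
    obtain ⟨b', hb'⟩ := Graph.in₀₂_iff.1 hac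
    obtain ⟨a', ha'⟩ := Graph.in₁₂_iff.1 hbc
    obtain ⟨p1, hp1, e1, -⟩ := ORemove_mem.mp hc'
    obtain ⟨p2, hp2, -, e2⟩ := ORemove_mem.mp hb'
    obtain ⟨p3, hp3, e3, e4⟩ := ORemove_mem.mp ha'
    have m1 := mem_filter.mp (hP hp1)
    have m2 := mem_filter.mp (hP hp2)
    have m3 := mem_filter.mp (hP hp3)
    have hw : (1 - s) * p1.1 + s * p3.2 = (1 - s) * p2.1 + s * p2.2 := by
      linear_combination e2 - e1 - e4 + e3
    refine mem_image.mpr ⟨(a, (p1.1, p3.2)), mem_product.mpr ⟨mem_univ _, ?_⟩, ?_⟩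
    · refine mem_filter.mpr ⟨mem_product.mpr ⟨(mem_product.mp m1.1).1,
        (mem_product.mp m3.1).2⟩, ?_⟩
      show (1 - s) * p1.1 + s * p3.2 ∈ D
      rw [hw]
      exact m2.2
    · rw [← habc]
      have : ORemove_tri s (a, (p1.1, p3.2)) = (a, b, c) := by
        simp only [ORemove_tri, Prod.mk.injEq]
        refine ⟨trivial, e1.symm, ?_⟩
        rw [hw]
        exact e2.symm
      rw [this]
      rfl
  calc _ ≤ _ := card_le_card hsub
    _ ≤ ((univ : Finset F) ×ˢ Sol s B C D).card := card_image_le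
    _ = _ := by rw [card_product, card_univ]

theorem ORemove_max (s : F) (B C D : Finset F) :
    ∃ P ⊆ Sol s B C D, ORemove_ok s P ∧ ∃ R : Finset F, R.card ≤ 3 * P.card ∧
      ∀ y ∈ B \ R, ∀ z ∈ C \ R, (1 - s) * y + s * z ∉ D \ R := by
  classical
  obtain ⟨P, hP, hmax⟩ := exists_max_image
    ((Sol s B C D).powerset.filter (fun P => ORemove_ok s P)) (fun P => P.card)
    ⟨∅, mem_filter.mpr ⟨empty_mem_powerset _, by intro p hp; simp at hp⟩⟩
  obtain ⟨hP1, hP2⟩ := mem_filter.mp hP
  have hP1' := mem_powerset.mp hP1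
  refine ⟨P, hP1', hP2, P.image Prod.fst ∪ P.image Prod.snd ∪
    P.image (fun p => (1 - s) * p.1 + s * p.2), ?_, ?_⟩
  · have a1 := card_union_le (P.image Prod.fst ∪ P.image Prod.snd)
      (P.image (fun p => (1 - s) * p.1 + s * p.2))
    have a2 := card_union_le (P.image Prod.fst) (P.image Prod.snd)
    have a3 : (P.image Prod.fst).card ≤ P.card := card_image_le
    have a4 : (P.image Prod.snd).card ≤ P.card := card_image_le
    have a5 : (P.image (fun p => (1 - s) * p.1 + s * p.2)).card ≤ P.card := card_image_le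
    omega
  · intro y hy z hz hw
    obtain ⟨hyB, hyR⟩ := mem_sdiff.mp hy
    obtain ⟨hzC, hzR⟩ := mem_sdiff.mp hz
    obtain ⟨hwD, hwR⟩ := mem_sdiff.mp hw
    have n1 : ∀ p ∈ P, p.1 ≠ y := fun p hp h =>
      hyR (mem_union_left _ (mem_union_left _ (mem_image.mpr ⟨p, hp, h⟩)))
    have n2 : ∀ p ∈ P, p.2 ≠ z := fun p hp h =>
      hzR (mem_union_left _ (mem_union_right _ (mem_image.mpr ⟨p, hp, h⟩)))
    have n3 : ∀ p ∈ P, (1 - s) * p.1 + s * p.2 ≠ (1 - s) * y + s * z := fun p hp h =>
      hwR (mem_union_right _ (mem_image.mpr ⟨p, hp, h⟩))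
    have hn : (y, z) ∉ P := fun h => n1 _ h rfl
    have hmem : insert (y, z) P ∈
        (Sol s B C D).powerset.filter (fun P => ORemove_ok s P) := by
      refine mem_filter.mpr ⟨mem_powerset.mpr (insert_subset ?_ hP1'), ?_⟩
      · exact mem_filter.mpr ⟨mem_product.mpr ⟨hyB, hzC⟩, hwD⟩
      · intro p hp p' hp' h
        rcases mem_insert.mp hp with rfl | hp
        · rcases mem_insert.mp hp' with rfl | hp'
          · rfl
          · exfalso
            rcases h with h | h | h
            · exact n1 _ hp' h.symm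
            · exact n2 _ hp' h.symm
            · exact n3 _ hp' h.symm
        · rcases mem_insert.mp hp' with rfl | hp'
          · exfalso
            rcases h with h | h | h
            · exact n1 _ hp h
            · exact n2 _ hp h
            · exact n3 _ hp h
          · exact hP2 p hp p' hp' h
    have := hmax _ hmem
    rw [card_insert_of_notMem hn] at this
    omega

/-- arithmetic removal for one linear equation -/
theorem oremove (E : ℕ) : ∃ M : ℕ, ∀ (F : Type) [Field F] [Fintype F] [DecidableEq F]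
    (s : F) (B C D : Finset F), s ≠ 0 → s ≠ 1 →
      M * (Sol s B C D).card ≤ Fintype.card F ^ 2 →
      ∃ R : Finset F, E * R.card ≤ Fintype.card F ∧
        ∀ y ∈ B \ R, ∀ z ∈ C \ R, (1 - s) * y + s * z ∉ D \ R := by
  rcases Nat.eq_zero_or_pos E with rfl | hE
  · refine ⟨0, fun F _ _ _ s B C D _ _ _ => ⟨B, by simp, ?_⟩⟩
    intro y hy
    simp at hy
  have hE' : (0 : ℝ) < E := by exact_mod_cast hE
  have hε : (0 : ℝ) < 1 / (27 * E) := by positivity
  have hβ := SimpleGraph.triangleRemovalBound_pos hε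
  set β := SimpleGraph.triangleRemovalBound (1 / (27 * E) : ℝ) with hβdef
  obtain ⟨M, hM⟩ := exists_nat_gt (1 / (27 * β))
  refine ⟨M, fun F _ _ _ s B C D h0 h1 hS => ?_⟩
  obtain ⟨P, hP, hok, R, hR, hgood⟩ := ORemove_max s B C D
  refine ⟨R, ?_, hgood⟩
  by_contra hcon
  push Not at hcon
  have hq : (0 : ℝ) < Fintype.card F := by exact_mod_cast Fintype.card_pos
  have h3 : (Fintype.card F : ℝ) < E * (3 * P.card) := by
    have : Fintype.card F < E * (3 * P.card) := lt_of_lt_of_le hcon (Nat.mul_le_mul_left _ hR)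
    exact_mod_cast this
  haveI := ORemove_disj h0 h1 hok
  have hfar : (SimpleGraph.TripartiteFromTriangles.graph
      (((univ : Finset F) ×ˢ P).image (ORemove_tri s))).FarFromTriangleFree
        (1 / (27 * E) : ℝ) := by
    apply SimpleGraph.TripartiteFromTriangles.farFromTriangleFree
    rw [card_image_of_injective _ (ORemove_tri_inj h0 h1), card_product, card_univ]
    push_cast
    rw [div_mul_eq_mul_div, div_le_iff₀ (by positivity)]
    nlinarith [mul_lt_mul_of_pos_left h3 hq]
  have h4 := hfar.le_card_cliqueFinset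
  have h5 := ORemove_cliques (s := s) hP
  have h6 : β * (3 * (Fintype.card F : ℝ)) ^ 3 ≤ Fintype.card F * (Sol s B C D).card := by
    have h5' : (((SimpleGraph.TripartiteFromTriangles.graph
      (((univ : Finset F) ×ˢ P).image (ORemove_tri s))).cliqueFinset 3).card : ℝ) ≤
        Fintype.card F * (Sol s B C D).card := by exact_mod_cast h5
    refine le_trans (le_of_eq ?_) (h4.trans h5')
    simp only [Fintype.card_sum]
    push_cast
    ring
  have h7 : (M : ℝ) * (Sol s B C D).card ≤ (Fintype.card F : ℝ) ^ 2 := by exact_mod_cast hS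
  have h8 : 1 < (M : ℝ) * (27 * β) := by
    rwa [div_lt_iff₀ (by positivity)] at hM
  have h9 : 27 * β * (Fintype.card F : ℝ) ^ 2 ≤ (Sol s B C D).card := by
    have : (Fintype.card F : ℝ) * (27 * β * (Fintype.card F : ℝ) ^ 2) ≤
        Fintype.card F * (Sol s B C D).card := by
      refine le_trans (le_of_eq ?_) h6
      ring
    exact le_of_mul_le_mul_left this hq
  have hM0 : (0 : ℝ) ≤ M := Nat.cast_nonneg _
  have h10 : (M : ℝ) * (27 * β * (Fintype.card F : ℝ) ^ 2) ≤ M * (Sol s B C D).card :=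
    mul_le_mul_of_nonneg_left h9 hM0
  have h11 : (0 : ℝ) < (Fintype.card F : ℝ) ^ 2 := by positivity
  nlinarith [mul_lt_mul_of_pos_right h8 h11]

end Pool.Agent.P.MP_862e21_al
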