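import Pool.Agent.P.MP_862e21_al.Norm

namespace Pool.Agent.P.MP_862e21_al

open Finset Pointwise

variable {F : Type*} [Field F] [DecidableEq F]

theorem shrink_vadd (h : F) (X C : Finset F) : (h +ᵥ X) + C = h +ᵥ (X + C) :=
  vadd_add_assoc h X C

theorem shrink_step [Fintype F] (hp : (Fintype.card F).Prime) {X C : Finset F} {e : ℕ} {h : F}
    (hC : C.Nonempty) (hs : (X + C).card ≤ X.card + C.card + e)
    (hq : 2 * X.card + C.card ≤ Fintype.card F) (hne : (X ∩ (h +ᵥ X)).Nonempty) :
    ((X ∩ (h +ᵥ X)) + C).card ≤ (X ∩ (h +ᵥ X)).card + C.card + (2 * e + 1) := by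
  have h1 := card_le_card (inter_add_subset (s₁ := X) (s₂ := h +ᵥ X) (t := C))
  have h2 := cd hp (hne.mono (inter_subset_union (s := X) (t := h +ᵥ X))) hC
  rw [union_add, shrink_vadd] at h2
  rw [shrink_vadd] at h1
  have h3 := card_union_add_card_inter (X + C) (h +ᵥ (X + C))
  have h4 := card_union_add_card_inter X (h +ᵥ X)
  rw [card_vadd_finset] at h3 h4
  omega

theorem mid_shift [Fintype F] (hp : (Fintype.card F).Prime) {X C : Finset F} {M : ℕ}
    (hM : 1 ≤ M) (h10 : 10 ≤ X.card) (hq : 2 * X.card ≤ Fintype.card F)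
    (hc : C.card ≤ M * X.card) (hC : C.Nonempty) (hs : (X + C).card ≤ 3 * C.card) :
    ∃ h : F, X.card ≤ 10 * M * (X ∩ (h +ᵥ X)).card ∧ X.card ≤ 10 * M * psi X h := by
  by_contra hn
  simp only [not_exists, not_and_or, not_le] at hn
  let H : AddSubgroup F :=
    { carrier := {h | 10 * M * psi X h < X.card}
      zero_mem' := by
        simp only [Set.mem_ofPred_eq, psi_zero]
        omega
      neg_mem' := fun {h} hh => by simpa only [Set.mem_ofPred_eq, psi_neg] using hh
      add_mem' := fun {h k} hh hk => by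
        simp only [Set.mem_ofPred_eq] at hh hk ⊢
        refine (hn (h + k)).resolve_left fun h1 => ?_
        have h2 := Nat.mul_le_mul_left (10 * M) (psi_add X h k)
        have h3 := congrArg (10 * M * ·) (card_inter_shift X (h + k))
        have h4 := Nat.mul_le_mul_right X.card hM
        simp only [mul_add, mul_assoc] at *
        omega }
  have hH : ∀ h, h ∈ H ↔ 10 * M * psi X h < X.card := fun _ => Iff.rfl
  rcases add_top hp H with h0 | h0
  · have h1 : ∀ h ∈ (X - X).erase 0, 10 * M * (X ∩ (h +ᵥ X)).card ≤ X.card - 1 := fun h hh => by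
      have := (hn h).resolve_right fun h2 => ne_of_mem_erase hh (by
        rwa [← hH, h0, AddSubgroup.mem_bot] at h2)
      omega
    have h2 := sum_le_card_nsmul _ _ _ h1
    have h3 := sum_inter_shift X
    have hX : X.Nonempty := card_pos.1 (by omega)
    rw [← sum_subset (subset_univ (X - X)) fun h _ hh => by
      rw [card_eq_zero, eq_empty_iff_forall_notMem]
      intro x hx
      obtain ⟨y, hy, rfl⟩ := mem_vadd_finset.1 (mem_inter.1 hx).2
      exact hh (mem_sub.2 ⟨_, (mem_inter.1 hx).1, y, hy, by simp⟩),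
      ← add_sum_erase _ _ (show (0 : F) ∈ X - X from
        mem_sub.2 ⟨_, hX.choose_spec, _, hX.choose_spec, sub_self _⟩)] at h3
    simp only [zero_vadd, inter_self] at h3
    rw [← mul_sum, smul_eq_mul] at h2
    have h4 := ruzsa_triangle_inequality_sub_add_add X C X
    have h5 : (X - X).card ≤ 9 * C.card := by
      refine Nat.le_of_mul_le_mul_right (h4.trans ?_) hC.card_pos
      nlinarith [Nat.mul_le_mul hs hs]
    have h6 : ((X - X).erase 0).card ≤ 9 * (M * X.card) := card_erase_le.trans (by omega)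
    have h7 := h2.trans (Nat.mul_le_mul_right _ h6)
    obtain ⟨y, hy⟩ : ∃ y, X.card = y + 1 := ⟨X.card - 1, by omega⟩
    rw [hy] at h3 h7 h10
    have h8 : ∑ x ∈ (X - X).erase 0, (X ∩ (x +ᵥ X)).card = (y + 1) * y := by nlinarith
    rw [h8, Nat.add_sub_cancel] at h7
    have h9 : 0 < M * ((y + 1) * y) := Nat.mul_pos hM (Nat.mul_pos (by omega) (by omega))
    nlinarith
  · have h1 := sym_card (C := X) (card_pos.1 (by omega))
    rw [filter_true_of_mem fun h _ => by
      have h2 := (hH h).1 (h0 ▸ AddSubgroup.mem_top h)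
      have h3 := Nat.mul_le_mul_right (psi X h) hM
      rw [mul_assoc] at h2
      omega, card_univ] at h1
    omega

theorem shrink_iter [Fintype F] (hp : (Fintype.card F).Prime) {C : Finset F} {M : ℕ}
    (hM : 1 ≤ M) (hC : 10 * M ≤ C.card) (k : ℕ) :
    ∀ (X : Finset F) (e : ℕ), (X + C).card ≤ X.card + C.card + e → X.card ≤ C.card →
      2 * X.card + C.card ≤ Fintype.card F → 2 ^ k * (e + 1) ≤ C.card →
      M * X.card * (10 * M - 1) ^ k ≤ C.card * (10 * M) ^ k → C.card ≤ 10 * M ^ 2 * X.card →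
      ∃ X' : Finset F, (X' + C).card ≤ X'.card + C.card + 2 ^ k * (e + 1) ∧
        M * X'.card ≤ C.card ∧ C.card ≤ 10 * M ^ 2 * X'.card := by
  induction k with
  | zero =>
    intro X e h1 _ _ _ h5 h6
    exact ⟨X, by omega, by simpa using h5, h6⟩
  | succ k ih =>
    intro X e h1 h2 h3 h4 h5 h6
    have he : e + 1 ≤ 2 ^ (k + 1) * (e + 1) := Nat.le_mul_of_pos_left _ (by positivity)
    by_cases hx : M * X.card ≤ C.card
    · exact ⟨X, by omega, hx, h6⟩
    have h10 : 10 ≤ X.card := by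
      by_contra hn
      have := Nat.mul_le_mul_left M (not_le.1 hn).le
      omega
    have hne : C.Nonempty := card_pos.1 (by omega)
    obtain ⟨h, a1, a2⟩ := mid_shift hp hM h10 (by omega) (not_le.1 hx).le hne (by omega)
    have a3 := card_inter_shift X h
    have a4 := shrink_step hp hne h1 h3 (h := h) (card_pos.1 (Nat.pos_of_ne_zero fun h0 => by
      rw [h0] at a1
      omega))
    have e1 : 2 ^ k * (2 * e + 1 + 1) = 2 ^ (k + 1) * (e + 1) := by ring
    rw [← e1] at h4 ⊢
    refine ih _ _ a4 (by omega) (by omega) h4 ?_ ?_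
    · obtain ⟨a, ha⟩ : ∃ a, 10 * M = a + 1 := ⟨10 * M - 1, by omega⟩
      rw [ha, Nat.add_sub_cancel] at h5 ⊢
      rw [ha] at a2
      have a5 : (a + 1) * (X ∩ (h +ᵥ X)).card ≤ a * X.card := by nlinarith
      refine Nat.le_of_mul_le_mul_right ?_ (Nat.succ_pos a)
      calc _ = M * a ^ k * ((a + 1) * (X ∩ (h +ᵥ X)).card) := by rw [Nat.succ_eq_add_one]; ring
        _ ≤ M * a ^ k * (a * X.card) := Nat.mul_le_mul_left _ a5
        _ = M * X.card * a ^ (k + 1) := by ring
        _ ≤ _ := h5.trans_eq (by rw [Nat.succ_eq_add_one]; ring)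
    · exact (not_le.1 hx).le.trans ((Nat.mul_le_mul_left M a1).trans_eq (by ring))

theorem shrink_pow (M a : ℕ) (ha : 0 < a) : ∃ K, M * a ^ K ≤ (a + 1) ^ K := by
  have h0 : (0 : ℝ) < a := by exact_mod_cast ha
  obtain ⟨K, hK⟩ := pow_unbounded_of_one_lt (M : ℝ) (y := ((a : ℝ) + 1) / a)
    ((one_lt_div h0).2 (by linarith))
  rw [div_pow, lt_div_iff₀ (by positivity)] at hK
  exact ⟨K, by exact_mod_cast hK.le⟩

theorem fewHoles : ∃ N : ℕ, ∀ (F : Type) [Field F] [Fintype F] [DecidableEq F],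
    (Fintype.card F).Prime → 5 < Fintype.card F → ∀ (l : F) (B C D : Finset F) (u : ℕ),
      Trio l B C D → Fintype.card F = B.card + C.card + D.card + u → B.card ≤ C.card →
      C.card ≤ D.card → C.card ≤ 10 ^ 10 * B.card → N * (u + 1) ≤ B.card → False := by
  obtain ⟨M, hM⟩ : ∃ M : ℕ, M = 2 * 10 ^ 9 := ⟨_, rfl⟩
  obtain ⟨K, hK⟩ := shrink_pow M (10 * M - 1) (by omega)
  rw [Nat.sub_add_cancel (by omega)] at hK
  refine ⟨20 * M ^ 2 * 2 ^ K, fun F _ _ _ hp h5 l B C D u h hu hbc hcd hL hN => ?_⟩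
  have h1 := h.comb_le hu (self_mem_Lam l)
  rw [card_comb h.l0] at h1
  have hx : (((1 - l) / l) • B).card = B.card :=
    card_smul_finset₀ (div_ne_zero (sub_ne_zero.2 h.l1.symm) h.l0) _
  have hE : u + 1 ≤ 2 ^ K * (u + 1) := Nat.le_mul_of_pos_left _ (by positivity)
  have hM2 : M ^ 2 = 4 * 10 ^ 18 := by rw [hM]; norm_num
  rw [mul_assoc, hM2] at hN
  obtain ⟨X, a1, a2, a3⟩ := shrink_iter hp (C := C) (M := M) (by omega) (by omega) K _ u
    (by rwa [hx]) (by rwa [hx]) (by omega) (by omega)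
    (by rw [hx, mul_right_comm, mul_comm]; exact Nat.mul_le_mul hbc hK) (by rw [hx, hM2]; omega)
  rw [hM2] at a3
  rw [hM] at a2
  exact trioNorm hp h5 h (card_pos.1 (by omega)) hu hcd (X := X) (by omega) (r := 2 * X.card)
    (by omega) (by omega) (by omega) (by omega)

end Pool.Agent.P.MP_862e21_al
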