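import Pool.Agent.P.MP_862e21_al.ODenseA
import Pool.Agent.P.MP_862e21_al.ORemove
import Pool.Agent.P.MP_862e21_al.Shrink

namespace Pool.Agent.P.MP_862e21_al

open Finset Pointwise

variable {F : Type*} [Field F] [DecidableEq F]

theorem ODense_sorted : ∃ N : ℕ, ∀ (F : Type) [Field F] [Fintype F] [DecidableEq F],
    (Fintype.card F).Prime → 5 < Fintype.card F → ∀ (l : F) (B C D : Finset F) (u : ℕ),
      Trio l B C D → Fintype.card F = B.card + C.card + D.card + u → B.card ≤ C.card →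
      C.card ≤ D.card → N * (u + 1) ≤ B.card → False := by
  obtain ⟨N, hN⟩ := fewHoles
  refine ⟨N + 2, fun F _ _ _ hp h5 l B C D u h hu hbc hcd hb => ?_⟩
  have e : (N + 2) * (u + 1) = N * (u + 1) + 2 * u + 2 := by ring
  rcases le_total C.card (10 ^ 10 * B.card) with hL | hL
  · exact hN F hp h5 l B C D u h hu hbc hcd hL (by omega)
  · exact longC hp h5 h (by omega) hu hcd (by omega) hL

/-- an exact chart with few holes is impossible, whatever the order of the sizes -/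
theorem trio_dense : ∃ N : ℕ, ∀ (F : Type) [Field F] [Fintype F] [DecidableEq F],
    (Fintype.card F).Prime → 5 < Fintype.card F → ∀ (l : F) (B C D : Finset F) (u : ℕ),
      Trio l B C D → Fintype.card F = B.card + C.card + D.card + u → N * (u + 1) ≤ B.card →
      N * (u + 1) ≤ C.card → N * (u + 1) ≤ D.card → False := by
  obtain ⟨N, hN⟩ := ODense_sorted
  refine ⟨N, fun F _ _ _ hp h5 l B C D u h hu hb hc hd => ?_⟩
  rcases le_total B.card C.card with h1 | h1 <;> rcases le_total C.card D.card with h2 | h2 <;>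
    rcases le_total B.card D.card with h3 | h3
  · exact hN F hp h5 l B C D u h hu h1 h2 hb
  · exact hN F hp h5 l B C D u h hu h1 h2 hb
  · exact hN F hp h5 l B D C u h.swap23 (by omega) h3 h2 hb
  · exact hN F hp h5 l D B C u h.swap23.swap12 (by omega) h3 h1 hd
  · exact hN F hp h5 l C B D u h.swap12 (by omega) h1 h3 hc
  · exact hN F hp h5 l C D B u h.swap12.swap23 (by omega) h2 h3 hc
  · exact hN F hp h5 l D C B u h.swap12.swap23.swap12 (by omega) h2 h1 hd
  · exact hN F hp h5 l D C B u h.swap12.swap23.swap12 (by omega) h2 h1 hd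

theorem ODense_lam (c : F) : (Lam c).card ≤ 6 := by
  unfold Lam
  exact card_le_six

theorem ODense_num {N N0 a r b q : ℕ} (hq : 16 * N ^ 4 * N0 ≤ q) (ha : a ≤ 8 * N ^ 3)
    (hr : 12 * (N * (3 * N0 + 1)) * r ≤ 6 * q) (hb : q ≤ N * b) (h0 : 0 < q) :
    N0 * (a + 3 * r) + r ≤ b := by
  have hN : 0 < N := Nat.pos_of_ne_zero (by rintro rfl; omega)
  have h1 : N * (N0 * a) ≤ N * (N0 * (8 * N ^ 3)) :=
    Nat.mul_le_mul_left _ (Nat.mul_le_mul_left _ ha)
  have h2 : N * (N0 * (a + 3 * r) + r) = N * (N0 * a) + N * (3 * N0 + 1) * r := by ring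
  have h3 : 2 * (N * (N0 * (8 * N ^ 3))) = 16 * N ^ 4 * N0 := by ring
  have h4 : 12 * (N * (3 * N0 + 1)) * r = 12 * (N * (3 * N0 + 1) * r) := by ring
  have h5 : N * (N0 * (a + 3 * r) + r) ≤ N * b := by omega
  exact Nat.le_of_mul_le_mul_left h5 hN

theorem odense (N : ℕ) : ∃ q0 : ℕ, ∀ (F : Type) [Field F] [Fintype F] [DecidableEq F],
    q0 ≤ Fintype.card F → (Fintype.card F).Prime → ∀ (c : F) (A B C : Finset F), OCl c A B C →
      B.card ≤ C.card → A.card + B.card + 2 * C.card ≤ Fintype.card F + 1 →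
      Fintype.card F ≤ N * B.card → False := by
  obtain ⟨N0, hN0⟩ := trio_dense
  obtain ⟨M, hM⟩ := oremove (12 * (N * (3 * N0 + 1)))
  obtain ⟨q1, hq1⟩ := ofew M
  obtain ⟨q2, hq2⟩ := odenseA N
  refine ⟨q1 + q2 + 6 + 16 * N ^ 4 * N0, fun F _ _ _ hq hp c A B C h hbc hs hN => ?_⟩
  have ha := hq2 F (by omega) c A B C h hbc hs hN
  obtain ⟨x, hx⟩ := h.nA
  have ha1 : 1 ≤ A.card := card_pos.2 ⟨x, hx⟩
  obtain ⟨D, hT, hD⟩ := h.chart hx
  have c0 := h.spl.c0
  have c1 := h.spl.c1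
  have key : ∀ s : F, ∃ R : Finset F, s ∈ Lam c →
      12 * (N * (3 * N0 + 1)) * R.card ≤ Fintype.card F ∧
        ∀ y ∈ ch x B \ R, ∀ z ∈ ch x C \ R, (1 - s) * y + s * z ∉ D \ R := by
    intro s
    by_cases hs : s ∈ Lam c
    · obtain ⟨R, hR⟩ := hM F s (ch x B) (ch x C) D (lam_ne_zero c0 c1 hs) (lam_ne_one c0 c1 hs)
        (hq1 F (by omega) c s _ _ _ hT hs)
      exact ⟨R, fun _ => hR⟩
    · exact ⟨∅, fun h' => absurd h' hs⟩
  choose R hR using key
  obtain ⟨S, hS⟩ : ∃ S, S = (Lam c).biUnion R := ⟨_, rfl⟩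
  have sub : ∀ s ∈ Lam c, ∀ X : Finset F, X \ S ⊆ X \ R s := fun s hs X =>
    sdiff_subset_sdiff subset_rfl (hS ▸ subset_biUnion_of_mem R hs)
  have hcard : 12 * (N * (3 * N0 + 1)) * S.card ≤ 6 * Fintype.card F := by
    calc 12 * (N * (3 * N0 + 1)) * S.card
        ≤ 12 * (N * (3 * N0 + 1)) * ∑ s ∈ Lam c, (R s).card :=
          Nat.mul_le_mul_left _ (hS ▸ card_biUnion_le)
      _ = ∑ s ∈ Lam c, 12 * (N * (3 * N0 + 1)) * (R s).card := mul_sum _ _ _
      _ ≤ ∑ _s ∈ Lam c, Fintype.card F := sum_le_sum fun s hs => (hR s hs).1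
      _ = (Lam c).card * Fintype.card F := by rw [sum_const, smul_eq_mul]
      _ ≤ 6 * Fintype.card F := Nat.mul_le_mul_right _ (ODense_lam c)
  have hT' : Trio c (ch x B \ S) (ch x C \ S) (D \ S) :=
    ⟨c0, c1, fun s hs y hy z hz hw => (hR s hs).2 y (sub s hs _ hy) z (sub s hs _ hz) (sub s hs _ hw),
      hT.dBC.mono sdiff_subset sdiff_subset, hT.dBD.mono sdiff_subset sdiff_subset,
      hT.dCD.mono sdiff_subset sdiff_subset⟩
  have hnum := ODense_num (N0 := N0) (q := Fintype.card F) (by omega) ha hcard hN (by omega)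
  have lB := le_card_sdiff S (ch x B)
  have lC := le_card_sdiff S (ch x C)
  have lD := le_card_sdiff S D
  have uB : (ch x B \ S).card ≤ (ch x B).card := card_le_card sdiff_subset
  have uC : (ch x C \ S).card ≤ (ch x C).card := card_le_card sdiff_subset
  have uD : (D \ S).card ≤ D.card := card_le_card sdiff_subset
  rw [card_ch] at lB lC uB uC
  obtain ⟨u, hu⟩ : ∃ u, Fintype.card F =
      (ch x B \ S).card + (ch x C \ S).card + (D \ S).card + u :=
    ⟨Fintype.card F - ((ch x B \ S).card + (ch x C \ S).card + (D \ S).card), by omega⟩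
  have hu2 : N0 * (u + 1) ≤ N0 * (A.card + 3 * S.card) := Nat.mul_le_mul_left _ (by omega)
  exact hN0 F hp (by omega) c _ _ _ u hT' hu (by omega) (by omega) (by omega)

end Pool.Agent.P.MP_862e21_al
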