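import Pool.Agent.P.MP_862e21_al.OCover
import Pool.Agent.P.MP_862e21_al.Pop
import Pool.Agent.P.MP_862e21_al.Ball

namespace Pool.Agent.P.MP_862e21_al

open Finset Pointwise

variable {F : Type*} [Field F] [DecidableEq F]

theorem OPop_both (L : ℕ) : ∃ K : ℕ, 1 ≤ K ∧ ∀ (F : Type) [Field F] [Fintype F] [DecidableEq F]
    (c : F) (B C D : Finset F) (u : ℕ), OTrio c B C D →
      Fintype.card F = B.card + C.card + D.card + u → B.Nonempty → C.Nonempty →
      B.card ≤ L * C.card → C.card ≤ L * B.card → u ≤ L * B.card →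
      (B + C).card ≤ K * C.card ∧ (C - C).card ≤ K * C.card := by
  obtain ⟨K, hK⟩ := ocover L
  refine ⟨K ^ 4 + 1, by omega, ?_⟩
  intro F _ _ _ c B C D u h hu hB hC h1 h2 h3
  obtain ⟨H, hA, hc, hH⟩ := hK F c B C D u h hu hB hC h1 h2 h3
  have cB : Cov K H B := hc.subset subset_union_left
  have cC : Cov K H C := hc.subset subset_union_right
  have key : ∀ X : Finset F, Cov (K * K * K) H X → X.card ≤ (K ^ 4 + 1) * C.card := by
    intro X hX
    calc X.card ≤ K * K * K * H.card := hX.card_le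
      _ ≤ K * K * K * (K * C.card) := Nat.mul_le_mul_left _ hH
      _ = K ^ 4 * C.card := by ring
      _ ≤ (K ^ 4 + 1) * C.card := Nat.mul_le_mul_right _ (by omega)
  exact ⟨key _ (Cov.add hA.add cB cC), key _ (Cov.sub hA.neg hA.add cC cC)⟩

theorem OPop_Gx_of_add [Fintype F] {B C : Finset F} {K : ℕ} {x : F} (hC : C.Nonempty)
    (h1 : (ch x B + ch x C).card ≤ K * (ch x C).card) :
    B.card ^ 2 * C.card ≤ K * (Gx B C x).card := by
  have h2 := energy_low (ch_nonempty x hC) h1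
  rw [card_ch, card_ch] at h2
  refine h2.trans (Nat.mul_le_mul_left _ ?_)
  refine le_trans (card_le_card ?_) (card_image_le (s := Gx B C x)
    (f := fun p => ((p.1 - x)⁻¹, (p.2.1 - x)⁻¹, (p.2.2 - x)⁻¹)))
  rintro ⟨p1, p2, p3⟩ hp
  simp only [mem_filter, mem_product] at hp
  obtain ⟨⟨q1, q2, q3⟩, q4⟩ := hp
  obtain ⟨y1, hy1, rfl⟩ := mem_ch.mp q1
  obtain ⟨y2, hy2, rfl⟩ := mem_ch.mp q2
  obtain ⟨y3, hy3, rfl⟩ := mem_ch.mp q3
  refine mem_image.mpr ⟨(y1, y2, y3), ?_, rfl⟩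
  simp only [Gx, mem_filter, mem_product]
  exact ⟨⟨hy1, hy2, hy3⟩, q4⟩

theorem OPop_Gx_rep {l : F} {A B C : Finset F} (h : OCl l A B C) {x β β0 z : F} (hx : x ∈ A)
    (hz : (β, β0, z) ∈ Gx B C x) :
    ∃ w ∈ ch β C, (z - β0)⁻¹ =
      ((β - x) / (β0 - x) ^ 2 - (β0 - x)⁻¹) + ((β - x) / (β0 - x)) ^ 2 * w := by
  simp only [Gx, mem_filter, mem_product] at hz
  obtain ⟨⟨q1, q2, q3⟩, q4⟩ := hz
  obtain ⟨z', hz', e⟩ := mem_ch.mp q4
  refine ⟨(z' - β)⁻¹, mem_ch.mpr ⟨z', hz', rfl⟩, chart_change ?_ ?_ ?_ ?_ ?_ ?_ e.symm⟩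
  · exact fun e => disjoint_left.mp h.dAC hx (e ▸ q3)
  · exact fun e => disjoint_left.mp h.dAC hx (e ▸ hz')
  · exact fun e => disjoint_left.mp h.dAB hx (e ▸ q1)
  · exact fun e => disjoint_left.mp h.dAB hx (e ▸ q2)
  · exact fun e => disjoint_left.mp h.dBC q2 (e ▸ q3)
  · exact fun e => disjoint_left.mp h.dBC q1 (e ▸ hz')

theorem OPop_spPop (L : ℕ) : ∃ K k0 : ℕ, ∀ (F : Type) [Field F] [Fintype F] [DecidableEq F],
    ∀ (l : F) (A B C : Finset F), OCl l A B C → A.card ≤ B.card → B.card ≤ C.card →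
      C.card ≤ L * A.card → k0 ≤ A.card →
      ∃ C' M : Finset F, C'.card = C.card ∧ Good K C' 1 ∧ (∀ m ∈ M, Good K C' m) ∧
        C'.card ≤ K * M.card := by
  obtain ⟨K1, hK, hb⟩ := OPop_both L
  set K2 := 2 * K1 ^ 2 with hK2
  refine ⟨K1 + (2 * K2 * K1 ^ 2) ^ 2 + 4 * K2 * L, 2 * K1, ?_⟩
  intro F _ _ _ l A B C h ab bc hL hk
  have hc := card_pos.mpr h.nC
  have hL1 : 1 ≤ L := by
    rcases Nat.eq_zero_or_pos L with e | e
    · rw [e] at hL; omega
    · exact e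
  have a1 : ∀ n : ℕ, n ≤ L * n := fun n => Nat.le_mul_of_pos_left n hL1
  have hLb : C.card ≤ L * B.card := hL.trans (Nat.mul_le_mul_left _ ab)
  have big : ∀ x ∈ A, B.card ^ 2 * C.card ≤ K1 * (Gx B C x).card := by
    intro x hx
    obtain ⟨D, hT, hu⟩ := h.chart hx
    refine OPop_Gx_of_add h.nC (hb F l _ _ D (A.card - 1) hT (by rw [card_ch, card_ch]; exact hu)
      (ch_nonempty x h.nB) (ch_nonempty x h.nC) ?_ ?_ ?_).1
    · rw [card_ch, card_ch]; exact bc.trans (a1 _)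
    · rw [card_ch, card_ch]; exact hLb
    · rw [card_ch]; have := a1 B.card; omega
  have sub : ∀ β ∈ B, (ch β C - ch β C).card ≤ K1 * (ch β C).card := by
    intro β hβ
    obtain ⟨D, hT, hu⟩ := h.swap12.chart hβ
    refine (hb F l _ _ D (B.card - 1) hT (by rw [card_ch, card_ch]; exact hu)
      (ch_nonempty β h.nA) (ch_nonempty β h.nC) ?_ ?_ ?_).2
    · rw [card_ch, card_ch]; exact (ab.trans bc).trans (a1 _)
    · rw [card_ch, card_ch]; exact hL
    · rw [card_ch]; omega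
  have hU : (B ×ˢ B ×ˢ C).card = B.card ^ 2 * C.card := by
    rw [card_product, card_product]; ring
  obtain ⟨x0, hx0, x1, hx1, hne, h2⟩ := two_sets A (B ×ˢ B ×ˢ C) (Gx B C) hK
    (fun x _ => filter_subset _ _) (fun x hx => by rw [hU]; exact big x hx) hk
  rw [hU] at h2
  obtain ⟨β0, hβ0, B', hB', h3, h4⟩ := popular (Gx B C x0 ∩ Gx B C x1)
    (inter_subset_left.trans (filter_subset _ _)) (K := K2) h.nB h.nC h2
  have n0 : ∀ β ∈ B, β ≠ x0 := fun β hβ e => disjoint_left.mp h.dAB hx0 (e ▸ hβ)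
  have n1 : ∀ β ∈ B, β ≠ x1 := fun β hβ e => disjoint_left.mp h.dAB hx1 (e ▸ hβ)
  refine ⟨ch β0 C, B'.image
    (fun β => ((β - x0) / (β0 - x0)) ^ 2 / ((β - x1) / (β0 - x1)) ^ 2), card_ch _ _, ?_, ?_, ?_⟩
  · have : Good K1 (ch β0 C) 1 := by
      unfold Good
      rw [one_smul]
      exact sub β0 hβ0
    exact this.mono (by omega)
  · intro m hm
    obtain ⟨β, hβ, rfl⟩ := mem_image.mp hm
    have hβB := hB' hβ
    have := good_of_overlap (C0 := ch β0 C) (C1 := ch β C)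
      (Z := ch β0 (C.filter (fun z => (β, β0, z) ∈ Gx B C x0 ∩ Gx B C x1)))
      (K0 := K1) (K1 := 2 * K2)
      (m0 := ((β - x0) / (β0 - x0)) ^ 2) (m1 := ((β - x1) / (β0 - x1)) ^ 2)
      (κ0 := (β - x0) / (β0 - x0) ^ 2 - (β0 - x0)⁻¹)
      (κ1 := (β - x1) / (β0 - x1) ^ 2 - (β0 - x1)⁻¹)
      (pow_ne_zero _ (div_ne_zero (sub_ne_zero.mpr (n0 β hβB)) (sub_ne_zero.mpr (n0 β0 hβ0))))
      (pow_ne_zero _ (div_ne_zero (sub_ne_zero.mpr (n1 β hβB)) (sub_ne_zero.mpr (n1 β0 hβ0))))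
      (ch_nonempty β0 h.nC) (by rw [card_ch, card_ch]) (sub β0 hβ0)
      (sub β hβB) (image_subset_image (filter_subset _ _))
      (by rw [card_ch, card_ch]; exact h4 β hβ)
      (by
        intro v hv
        obtain ⟨z, hz, rfl⟩ := mem_ch.mp hv
        exact OPop_Gx_rep h hx0 (mem_inter.mp (mem_filter.mp hz).2).1)
      (by
        intro v hv
        obtain ⟨z, hz, rfl⟩ := mem_ch.mp hv
        exact OPop_Gx_rep h hx1 (mem_inter.mp (mem_filter.mp hz).2).2)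
    exact this.mono (by omega)
  · have h5 := two_to_one (B := B') hne (fun β hβ => n0 β (hB' hβ)) (fun β hβ => n1 β (hB' hβ))
      (n0 β0 hβ0) (n1 β0 hβ0)
    rw [card_ch]
    generalize (B'.image
      (fun β => ((β - x0) / (β0 - x0)) ^ 2 / ((β - x1) / (β0 - x1)) ^ 2)).card = M at h5 ⊢
    calc C.card ≤ L * A.card := hL
      _ ≤ L * B.card := Nat.mul_le_mul_left _ ab
      _ ≤ L * (2 * K2 * B'.card) := Nat.mul_le_mul_left _ h3
      _ ≤ L * (2 * K2 * (2 * M)) := Nat.mul_le_mul_left _ (Nat.mul_le_mul_left _ h5)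
      _ = 4 * K2 * L * M := by ring
      _ ≤ _ := Nat.mul_le_mul_right _ (by omega)

theorem osumProd (L : ℕ) : ∃ k0 N : ℕ, ∀ (F : Type) [Field F] [Fintype F] [DecidableEq F],
    Irr F → ∀ (c : F) (A B C : Finset F), OCl c A B C → A.card ≤ B.card → B.card ≤ C.card →
      C.card ≤ L * A.card → k0 ≤ A.card → Fintype.card F ≤ N * C.card := by
  obtain ⟨K, k1, h1⟩ := OPop_spPop L
  obtain ⟨k2, N, h2⟩ := spEnd K
  refine ⟨max k1 k2, N, ?_⟩
  intro F _ _ _ hI l A B C h ab bc hL hk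
  obtain ⟨C', M, e, g1, g2, g3⟩ := h1 F l A B C h ab bc hL (le_trans (le_max_left _ _) hk)
  have := h2 F hI C' M g1 g2 g3 (by have := le_max_right k1 k2; omega)
  rwa [e] at this

end Pool.Agent.P.MP_862e21_al
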