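import Pool.Agent.P.MP_862e21_al.OEnergy
import Pool.Agent.P.MP_862e21_al.OBsg
import Pool.Agent.P.MP_862e21_al.Good

namespace Pool.Agent.P.MP_862e21_al

open Finset Pointwise

variable {F : Type*} [Field F] [DecidableEq F]

theorem OCover_piece {K : ℕ} {H1 H2 H3 X : Finset F} (h1 : Cov K H1 X) (h2 : Cov K H2 X)
    (h3 : Cov K H3 X) : ∃ (Z : Finset F) (t1 t2 t3 : F), X.card ≤ K ^ 3 * Z.card ∧
      (∀ z ∈ Z, z - t1 ∈ H1) ∧ (∀ z ∈ Z, z - t2 ∈ H2) ∧ ∀ z ∈ Z, z - t3 ∈ H3 := by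
  obtain ⟨Z1, s1, t1, c1, m1⟩ := h1.piece
  obtain ⟨Z2, s2, t2, c2, m2⟩ := (h2.subset s1).piece
  obtain ⟨Z3, s3, t3, c3, m3⟩ := (h3.subset (s2.trans s1)).piece
  refine ⟨Z3, t1, t2, t3, ?_, fun z hz => m1 z (s2 (s3 hz)), fun z hz => m2 z (s3 hz), m3⟩
  calc X.card ≤ K * Z1.card := c1
    _ ≤ K * (K * (K * Z3.card)) :=
        Nat.mul_le_mul_left _ (c2.trans (Nat.mul_le_mul_left _ c3))
    _ = _ := by ring

theorem OCover_goods {K : ℕ} {H : Finset F} {c : F} (hH : H.Nonempty) (c0 : c ≠ 0) (c1 : c ≠ 1)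
    (cN : c ^ 2 - c + 1 ≠ 0) (g1 : Good K H 1) (gr1 : Good K H (c * (1 - c)))
    (gr2 : Good K H (c ^ 2 / (c - 1))) :
    ∀ r ∈ ({c, 1 - c, c ^ 2 - c + 1, c / (1 - c)} : Set F),
      Good (((((K ^ 11) ^ 11) ^ 11) ^ 11) ^ 11) H r := by
  have up : ∀ {M : ℕ} {r : F}, Good M H r → Good (M ^ 11) H r :=
    fun h => h.mono (Nat.le_self_pow (by norm_num) _)
  have d1 : 1 - c ≠ 0 := sub_ne_zero.2 c1.symm
  have d2 : c - 1 ≠ 0 := sub_ne_zero.2 c1
  have a1 := (good_ops hH g1 g1 gr1).2.1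
  have a2 := (good_ops hH g1 g1 gr2).2.1
  have a3 := (good_ops hH (up g1) (up gr1) a2).2.2.1
  have a4 := (good_ops hH (up (up g1)) a3 (up a1)).2.2.2
  have e1 : 1 - c * (1 - c) = c ^ 2 - c + 1 := by ring
  have e2 : c * (1 - c) * (1 - c ^ 2 / (c - 1)) / (1 - c * (1 - c)) = c := by
    rw [e1, div_eq_iff cN]
    field_simp
    ring
  rw [e2] at a4
  rw [e1] at a1
  have a5 := (good_ops hH (up (up (up g1))) (up (up (up g1))) a4).2.1
  have a6 := (good_ops hH (up (up (up (up g1)))) (up a4) a5).2.2.2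
  intro r hr
  simp only [Set.mem_insert_iff, Set.mem_singleton_iff] at hr
  rcases hr with rfl | rfl | rfl | rfl
  · exact up (up a4)
  · exact up a5
  · exact up (up (up (up a1)))
  · exact a6

theorem OCover_diff {K : ℕ} {A : Finset F} (hA : A.Nonempty) (h : (A - A).card ≤ K * A.card) :
    Cov (K ^ 5) (A - A) ((A - A) + (A - A)) := by
  refine cov_of_card hA ?_
  have g : Good K A 1 := by
    unfold Good
    rwa [one_smul]
  refine (card_le_card ?_).trans (good_five hA g)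
  intro z hz
  obtain ⟨w, hw, e, he, rfl⟩ := mem_add.1 hz
  obtain ⟨p, hp, q, hq, rfl⟩ := mem_add.1 hw
  obtain ⟨a, ha, b, hb, rfl⟩ := mem_sub.1 hp
  obtain ⟨a', ha', b', hb', rfl⟩ := mem_sub.1 hq
  have := good_mem_five ha ha' he hb hb'
  have e1 : a - b + (a' - b') + e = a + a' + e - (b + b') := by ring
  rwa [e1]

theorem OCover_ratio {K K0 K1 : ℕ} {H X : Finset F} {m1 m2 m3 : F} (hH : H.Nonempty)
    (n1 : m1 ≠ 0) (n2 : m2 ≠ 0) (n3 : m3 ≠ 0) (h0 : (H - H).card ≤ K0 * H.card)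
    (hX : H.card ≤ K1 * X.card) (h1 : Cov K (m1 • H) X) (h2 : Cov K (m2 • H) X)
    (h3 : Cov K (m3 • H) X) :
    Good (K1 * K ^ 3 * K0 ^ 2) H (m1 / m2) ∧ Good (K1 * K ^ 3 * K0 ^ 2) H (m3 / m2) := by
  obtain ⟨Z, t1, t2, t3, hc, z1, z2, z3⟩ := OCover_piece h1 h2 h3
  have hZ : H.card ≤ K1 * K ^ 3 * Z.card :=
    hX.trans ((Nat.mul_le_mul_left _ hc).trans_eq (by ring))
  exact ⟨good_of_two n2 n1 hH h0 hZ z2 z1, good_of_two n2 n3 hH h0 hZ z2 z3⟩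

theorem ocover (L : ℕ) : ∃ K : ℕ, ∀ (F : Type) [Field F] [Fintype F] [DecidableEq F]
    (c : F) (B C D : Finset F) (u : ℕ), OTrio c B C D →
      Fintype.card F = B.card + C.card + D.card + u → B.Nonempty → C.Nonempty →
      B.card ≤ L * C.card → C.card ≤ L * B.card → u ≤ L * B.card →
      ∃ H : Finset F, AG K c H ∧ Cov K H (B ∪ C) ∧ H.card ≤ K * C.card := by
  obtain ⟨K0, hK0⟩ : ∃ K0, K0 = L + 1 + L * L := ⟨_, rfl⟩
  obtain ⟨K', hbsg⟩ := obsg (16 * K0 ^ 2 * L)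
  obtain ⟨K1, hK1⟩ : ∃ K1, K1 = K0 * K' := ⟨_, rfl⟩
  obtain ⟨K5, hK5⟩ : ∃ K5, K5 = K' ^ 5 := ⟨_, rfl⟩
  obtain ⟨P, hP⟩ : ∃ P, P = K' * L * 2 * (2 * K1) ^ 3 * K5 ^ 2 + K5 := ⟨_, rfl⟩
  obtain ⟨Kg, hKg⟩ : ∃ Kg, Kg = ((((P ^ 11) ^ 11) ^ 11) ^ 11) ^ 11 * K5 := ⟨_, rfl⟩
  obtain ⟨KB, hKB⟩ : ∃ KB, KB = 2 * K1 * Kg + 2 * K1 * Kg := ⟨_, rfl⟩
  obtain ⟨KC, hKC⟩ : ∃ KC, KC = 2 * (K0 * L * KB) * (K5 * Kg) + 2 * (K0 * L * KB) * (K5 * Kg) :=
    ⟨_, rfl⟩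
  refine ⟨K5 + Kg + (KB + KC) + K', ?_⟩
  intro F _ _ _ c B C D u h hq hB hC hBC hCB hu
  have c0 := h.spl.c0
  have c1 := h.spl.c1
  have cN := h.spl.h3 c
  have d1 : 1 - c ≠ 0 := sub_ne_zero.2 c1.symm
  have d2 : c - 1 ≠ 0 := sub_ne_zero.2 c1
  have hX : Dᶜ.card ≤ K0 * C.card := by
    rw [card_compl, hq, hK0]
    have : L * B.card ≤ L * (L * C.card) := Nat.mul_le_mul_left _ hBC
    have e : (L + 1 + L * L) * C.card = L * C.card + C.card + L * (L * C.card) := by ring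
    omega
  obtain ⟨A, hAC, hA, hA1, hA2⟩ := hbsg F C hC (oenergy h hB hX hCB)
  have hX1 : Dᶜ.card ≤ K1 * A.card :=
    hX.trans ((Nat.mul_le_mul_left _ hA1).trans_eq (by rw [hK1]; ring))
  obtain ⟨Bp, Bm, hBu, hpm⟩ := ocov_pm h hAC hA hX1
  have hadd : Cov K5 (A - A) ((A - A) + (A - A)) := hK5 ▸ OCover_diff hA hA2
  set H := A - A with hHdef
  have hH : H.Nonempty := hA.sub hA
  have hz : (0 : F) ∈ H := by
    obtain ⟨a, ha⟩ := hA
    exact mem_sub.2 ⟨a, ha, a, ha, sub_self a⟩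
  have hn : ∀ x ∈ H, -x ∈ H := by
    intro x hx
    obtain ⟨a, ha, b, hb, rfl⟩ := mem_sub.1 hx
    exact mem_sub.2 ⟨b, hb, a, ha, by ring⟩
  have hHH : H - H ⊆ H + H := by
    intro x hx
    obtain ⟨a, ha, b, hb, rfl⟩ := mem_sub.1 hx
    exact mem_add.2 ⟨a, ha, -b, hn b hb, by ring⟩
  have h0 : (H - H).card ≤ K5 * H.card := (hadd.subset hHH).card_le
  have hHC : H.card ≤ K' * C.card := hA2.trans (Nat.mul_le_mul_left _ (card_le_card hAC))
  have s1 : c ∈ Lp c := self_mem_Lp c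
  have s2 : (1 - c)⁻¹ ∈ Lp c := mem_Lp.2 (Or.inr (Or.inl rfl))
  have s3 : (c - 1) / c ∈ Lp c := mem_Lp.2 (Or.inr (Or.inr rfl))
  have e2 : (1 - c)⁻¹ / (1 - (1 - c)⁻¹) = -c⁻¹ := by
    have : 1 - (1 - c)⁻¹ = -c / (1 - c) := by field_simp; ring
    rw [this]
    field_simp
  have e2' : (1 - (1 - c)⁻¹) / (1 - c)⁻¹ = -c := by
    field_simp
    ring
  have e3 : (c - 1) / c / (1 - (c - 1) / c) = c - 1 := by
    have : 1 - (c - 1) / c = 1 / c := by field_simp; ring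
    rw [this]
    field_simp
  have e3' : (1 - (c - 1) / c) / ((c - 1) / c) = (c - 1)⁻¹ := by
    field_simp
    ring
  have hlarge : ∀ X : Finset F, B.card ≤ 2 * X.card → H.card ≤ K' * L * 2 * X.card := by
    intro X hXX
    calc H.card ≤ K' * C.card := hHC
      _ ≤ K' * (L * (2 * X.card)) :=
          Nat.mul_le_mul_left _ (hCB.trans (Nat.mul_le_mul_left _ hXX))
      _ = _ := by ring
  have hr : Good P H (c * (1 - c)) ∧ Good P H (c ^ 2 / (c - 1)) := by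
    have hcard : B.card ≤ Bp.card + Bm.card := hBu ▸ card_union_le Bp Bm
    have hPle : K' * L * 2 * (2 * K1) ^ 3 * K5 ^ 2 ≤ P := by omega
    by_cases hc : B.card ≤ 2 * Bp.card
    · have p1 := (hpm _ s1).1
      have p2 := (hpm _ s2).1
      have p3 := (hpm _ s3).1
      rw [e2] at p2
      rw [e3] at p3
      obtain ⟨g2, g1⟩ := OCover_ratio hH (div_ne_zero c0 d1) (neg_ne_zero.2 (inv_ne_zero c0)) d2 h0
        (hlarge Bp hc) p1 p2 p3
      have f1 : (c - 1) / -c⁻¹ = c * (1 - c) := by field_simp; ring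
      have f2 : c / (1 - c) / -c⁻¹ = c ^ 2 / (c - 1) := by field_simp; ring
      rw [f1] at g1
      rw [f2] at g2
      exact ⟨g1.mono hPle, g2.mono hPle⟩
    · have p1 := (hpm _ s1).2
      have p2 := (hpm _ s2).2
      have p3 := (hpm _ s3).2
      rw [e2'] at p2
      rw [e3'] at p3
      obtain ⟨g2, g1⟩ := OCover_ratio hH (div_ne_zero d1 c0) (neg_ne_zero.2 c0) (inv_ne_zero d2) h0
        (hlarge Bm (by omega)) p1 p2 p3
      have f1 : ((c - 1)⁻¹ / -c)⁻¹ = c * (1 - c) := by field_simp; ring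
      have f2 : ((1 - c) / c / -c)⁻¹ = c ^ 2 / (c - 1) := by field_simp; ring
      have g1' := good_inv g1
      have g2' := good_inv g2
      rw [f1] at g1'
      rw [f2] at g2'
      exact ⟨g1'.mono hPle, g2'.mono hPle⟩
  have g1 : Good P H 1 := by
    refine Good.mono (K := K5) ?_ (by omega)
    unfold Good
    rwa [one_smul]
  have hg := OCover_goods hH c0 c1 cN g1 hr.1 hr.2
  have hcov : ∀ r ∈ ({c, 1 - c, c ^ 2 - c + 1, c / (1 - c)} : Set F),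
      Cov Kg H (r • H) ∧ Cov Kg H (r⁻¹ • H) := fun r hr =>
    ⟨hKg ▸ cov_of_good hH hn hadd (hg r hr), hKg ▸ cov_of_good hH hn hadd (good_inv (hg r hr))⟩
  obtain ⟨l1, l2⟩ := hcov (c / (1 - c)) (by simp)
  rw [inv_div] at l2
  have hcB : Cov KB H B := by
    rw [hKB, ← hBu]
    exact ((hpm _ s1).1.trans l1).union ((hpm _ s1).2.trans l2)
  obtain ⟨B', hB', t, hB1, hB2⟩ := hcB.piece
  have hBn : B'.Nonempty := by
    rw [← card_pos]
    have := hB.card_pos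
    rcases Nat.eq_zero_or_pos B'.card with h' | h'
    · rw [h'] at hB1
      omega
    · exact h'
  have hX2 : Dᶜ.card ≤ K0 * L * KB * B'.card :=
    calc Dᶜ.card ≤ K0 * C.card := hX
      _ ≤ K0 * (L * (KB * B'.card)) :=
          Nat.mul_le_mul_left _ (hCB.trans (Nat.mul_le_mul_left _ hB1))
      _ = _ := by ring
  obtain ⟨Cp, Cm, hCu, hpm'⟩ := ocov_pm h.swap12 hB' hBn hX2
  have hBB : Cov K5 H (B' - B') := by
    refine hadd.subset fun x hx => ?_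
    obtain ⟨a, ha, b, hb, rfl⟩ := mem_sub.1 hx
    exact mem_add.2 ⟨a - t, hB2 a ha, -(b - t), hn _ (hB2 b hb), by ring⟩
  have hcC : Cov KC H C := by
    rw [hKC, ← hCu]
    exact ((hpm' _ s1).1.trans ((hBB.smul _).trans l1)).union
      ((hpm' _ s1).2.trans ((hBB.smul _).trans l2))
  refine ⟨H, ⟨hz, hn, hadd.mono (by omega), (hcov c (by simp)).1.mono (by omega),
    (hcov c (by simp)).2.mono (by omega), (hcov (1 - c) (by simp)).2.mono (by omega),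
    (hcov (c ^ 2 - c + 1) (by simp)).2.mono (by omega)⟩, (hcB.union hcC).mono (by omega), ?_⟩
  exact hHC.trans (Nat.mul_le_mul_right _ (by omega))

end Pool.Agent.P.MP_862e21_al
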