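import Pool.Agent.P.MP_862e21_al.OBasic
import Pool.Agent.P.MP_862e21_al.OCov

namespace Pool.Agent.P.MP_862e21_al

open Finset Pointwise

variable {F : Type*} [Field F] [DecidableEq F]

open Classical in
/-- pairs whose difference survives the multiplier -/
noncomputable def ODrift_P (t : F) (B C : Finset F) (n i : ℕ) : Finset (F × F) :=
  (B ×ˢ C).filter fun p => ∃ q ∈ B ×ˢ C, q.2 - q.1 = t ^ i * (1 - t) ^ (n - i) * (p.2 - p.1)

open Classical in
/-- the remaining pairs -/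
noncomputable def ODrift_Bad (t : F) (B C : Finset F) (n : ℕ) : Finset (F × F) :=
  (B ×ˢ C).filter fun p => ∀ i ≤ n, p ∉ ODrift_P t B C n i

theorem ODrift_memP {t : F} {B C : Finset F} {n i : ℕ} {p : F × F} :
    p ∈ ODrift_P t B C n i ↔ p ∈ B ×ˢ C ∧
      ∃ q ∈ B ×ˢ C, q.2 - q.1 = t ^ i * (1 - t) ^ (n - i) * (p.2 - p.1) := by
  unfold ODrift_P
  exact mem_filter

theorem ODrift_memBad {t : F} {B C : Finset F} {n : ℕ} {p : F × F} :
    p ∈ ODrift_Bad t B C n ↔ p ∈ B ×ˢ C ∧ ∀ i ≤ n, p ∉ ODrift_P t B C n i := by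
  unfold ODrift_Bad
  exact mem_filter

theorem ODrift_next {t : F} {B C : Finset F} {n : ℕ} {p q : F × F}
    (hp : p ∈ ODrift_Bad t B C (n + 1)) (hq : q ∈ B ×ˢ C)
    (hd : q.2 - q.1 = t * (p.2 - p.1) ∨ q.2 - q.1 = (1 - t) * (p.2 - p.1)) :
    q ∈ ODrift_Bad t B C n := by
  rw [ODrift_memBad] at hp ⊢
  refine ⟨hq, fun i hi hP => ?_⟩
  obtain ⟨-, r, hr, e⟩ := ODrift_memP.1 hP
  rcases hd with hd | hd
  · refine hp.2 (i + 1) (by omega) (ODrift_memP.2 ⟨hp.1, r, hr, ?_⟩)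
    rw [e, hd, show n + 1 - (i + 1) = n - i by omega]
    ring
  · refine hp.2 i (by omega) (ODrift_memP.2 ⟨hp.1, r, hr, ?_⟩)
    rw [e, hd, show n + 1 - i = (n - i) + 1 by omega]
    ring

theorem ODrift_left {s : F} (hs : s ≠ 0) (A T : Finset (F × F)) :
    (A.filter fun p => (p.1, p.1 + s * (p.2 - p.1)) ∈ T).card ≤ T.card := by
  refine card_le_card_of_injOn (fun p => (p.1, p.1 + s * (p.2 - p.1)))
    (fun p hp => (mem_filter.1 (mem_coe.1 hp)).2) ?_
  rintro ⟨y, z⟩ - ⟨y', z'⟩ - e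
  simp only [Prod.mk.injEq] at e ⊢
  obtain ⟨rfl, e⟩ := e
  refine ⟨rfl, mul_left_cancel₀ hs ?_⟩
  linear_combination e

theorem ODrift_right {s : F} (hs : 1 - s ≠ 0) (A T : Finset (F × F)) :
    (A.filter fun p => (p.1 + s * (p.2 - p.1), p.2) ∈ T).card ≤ T.card := by
  refine card_le_card_of_injOn (fun p => (p.1 + s * (p.2 - p.1), p.2))
    (fun p hp => (mem_filter.1 (mem_coe.1 hp)).2) ?_
  rintro ⟨y, z⟩ - ⟨y', z'⟩ - e
  simp only [Prod.mk.injEq] at e ⊢
  obtain ⟨e, rfl⟩ := e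
  refine ⟨mul_left_cancel₀ hs ?_, rfl⟩
  linear_combination e

theorem ODrift_part {s t : F} (hs0 : s ≠ 0) (hs1 : 1 - s ≠ 0) (hst : s = t ∨ s = 1 - t)
    {B C U : Finset F} {n : ℕ} (A : Finset (F × F)) (hA : A ⊆ ODrift_Bad t B C (n + 1))
    (hw : ∀ p ∈ A, p.1 + s * (p.2 - p.1) ∈ B ∨ p.1 + s * (p.2 - p.1) ∈ C ∨
      p.1 + s * (p.2 - p.1) ∈ U) :
    A.card ≤ 2 * (ODrift_Bad t B C n).card + B.card * U.card := by
  have h1 := ODrift_left hs0 A (ODrift_Bad t B C n)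
  have h2 := ODrift_right hs1 A (ODrift_Bad t B C n)
  have h3 := ODrift_left hs0 A (B ×ˢ U)
  rw [card_product] at h3
  have hsub : A ⊆ ((A.filter fun p => (p.1, p.1 + s * (p.2 - p.1)) ∈ ODrift_Bad t B C n) ∪
      (A.filter fun p => (p.1 + s * (p.2 - p.1), p.2) ∈ ODrift_Bad t B C n)) ∪
      (A.filter fun p => (p.1, p.1 + s * (p.2 - p.1)) ∈ B ×ˢ U) := by
    intro p hp
    have hb := hA hp
    have hBC : p.1 ∈ B ∧ p.2 ∈ C := mem_product.1 (ODrift_memBad.1 hb).1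
    simp only [mem_union, mem_filter]
    rcases hw p hp with h | h | h
    · refine Or.inl (Or.inr ⟨hp, ODrift_next hb (mem_product.2 ⟨h, hBC.2⟩) ?_⟩)
      rcases hst with rfl | rfl
      · right; ring
      · left; ring
    · refine Or.inl (Or.inl ⟨hp, ODrift_next hb (mem_product.2 ⟨hBC.1, h⟩) ?_⟩)
      rcases hst with rfl | rfl
      · left; ring
      · right; ring
    · exact Or.inr ⟨hp, mem_product.2 ⟨hBC.1, h⟩⟩
  have h4 := (card_le_card hsub).trans ((card_union_le _ _).trans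
    (Nat.add_le_add_right (card_union_le _ _) _))
  omega

theorem ODrift_bad [Fintype F] {c t : F} {B C D : Finset F} {u : ℕ} (h : OTrio c B C D)
    (hu : Fintype.card F = B.card + C.card + D.card + u) (ht : t ∈ Lp c) (n : ℕ) :
    (ODrift_Bad t B C n).card + B.card * u ≤ 4 ^ n * (B.card * u) := by
  classical
  have hsp := h.spl.of_mem ht
  have t0 : t ≠ 0 := hsp.c0
  have t1 : 1 - t ≠ 0 := sub_ne_zero.2 hsp.c1.symm
  have hU : (univ \ (B ∪ C ∪ D)).card = u := by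
    rw [card_univ_sdiff, card_union_of_disjoint (disjoint_union_left.2 ⟨h.dBD, h.dCD⟩),
      card_union_of_disjoint h.dBC]
    omega
  have hcase : ∀ w : F, w ∉ D → w ∈ B ∨ w ∈ C ∨ w ∈ univ \ (B ∪ C ∪ D) := by
    intro w hw
    by_cases h1 : w ∈ B
    · exact Or.inl h1
    by_cases h2 : w ∈ C
    · exact Or.inr (Or.inl h2)
    exact Or.inr (Or.inr (by simp [h1, h2, hw]))
  induction n with
  | zero =>
    have : ODrift_Bad t B C 0 = ∅ := by
      refine eq_empty_of_forall_notMem fun p hp => ?_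
      obtain ⟨h1, h2⟩ := ODrift_memBad.1 hp
      exact h2 0 le_rfl (ODrift_memP.2 ⟨h1, p, h1, by simp⟩)
    simp [this]
  | succ n ih =>
    have e1 := ODrift_part (U := univ \ (B ∪ C ∪ D)) t0 t1 (Or.inl rfl)
      ((ODrift_Bad t B C (n + 1)).filter fun p => IsSquare (p.2 - p.1)) (filter_subset _ _)
      (fun p hp => by
        obtain ⟨h1, h2⟩ := mem_filter.1 hp
        have hBC : p.1 ∈ B ∧ p.2 ∈ C := mem_product.1 (ODrift_memBad.1 h1).1
        refine hcase _ ?_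
        have := h.pos t ht p.1 hBC.1 p.2 hBC.2 h2
        rwa [show (1 - t) * p.1 + t * p.2 = p.1 + t * (p.2 - p.1) by ring] at this)
    have e2 := ODrift_part (U := univ \ (B ∪ C ∪ D)) (t := t) t1
      (by rwa [sub_sub_cancel]) (Or.inr rfl)
      ((ODrift_Bad t B C (n + 1)).filter fun p => ¬ IsSquare (p.2 - p.1)) (filter_subset _ _)
      (fun p hp => by
        obtain ⟨h1, h2⟩ := mem_filter.1 hp
        have hBC : p.1 ∈ B ∧ p.2 ∈ C := mem_product.1 (ODrift_memBad.1 h1).1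
        refine hcase _ ?_
        have := h.ngt t ht p.1 hBC.1 p.2 hBC.2 h2
        rwa [show t * p.1 + (1 - t) * p.2 = p.1 + (1 - t) * (p.2 - p.1) by ring] at this)
    have e3 := card_filter_add_card_filter_not (s := ODrift_Bad t B C (n + 1))
      (fun p : F × F => IsSquare (p.2 - p.1))
    rw [hU] at e1 e2
    rw [pow_succ, mul_comm (4 ^ n) 4, mul_assoc]
    omega

theorem ODrift_D0 [Fintype F] {c t : F} {B C D : Finset F} {u n : ℕ} (h : OTrio c B C D)
    (hu : Fintype.card F = B.card + C.card + D.card + u) (hB : B.Nonempty)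
    (hun : 2 * 4 ^ n * u ≤ C.card) (ht : t ∈ Lp c) :
    ∃ i ≤ n, ∃ D0 : Finset F, C.card ≤ 2 * (n + 1) * D0.card ∧ D0 ⊆ C - B ∧
      (t ^ i * (1 - t) ^ (n - i)) • D0 ⊆ C - B := by
  have hbad := ODrift_bad h hu ht n
  obtain ⟨i, hi, hmax⟩ := exists_max_image (range (n + 1))
    (fun i => (ODrift_P t B C n i).card) ⟨0, by simp⟩
  have hcov : B ×ˢ C ⊆ ODrift_Bad t B C n ∪ (range (n + 1)).biUnion (ODrift_P t B C n) := by
    intro p hp
    by_cases hb : p ∈ ODrift_Bad t B C n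
    · exact mem_union_left _ hb
    · rw [ODrift_memBad] at hb
      push Not at hb
      obtain ⟨j, hj, hP⟩ := hb hp
      exact mem_union_right _ (mem_biUnion.2 ⟨j, mem_range.2 (by omega), hP⟩)
  have h1 : ((range (n + 1)).biUnion (ODrift_P t B C n)).card
      ≤ (n + 1) * (ODrift_P t B C n i).card := by
    have := card_biUnion_le_card_mul (range (n + 1)) (ODrift_P t B C n) _ hmax
    rwa [card_range] at this
  have h2 := (card_le_card hcov).trans (card_union_le _ _)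
  rw [card_product] at h2
  have h3 : (ODrift_P t B C n i).card ≤
      B.card * ((ODrift_P t B C n i).image fun p => p.2 - p.1).card := by
    refine card_le_mul_card_image _ _ fun d _ => ?_
    refine card_le_card_of_injOn (fun p => p.1) (fun p hp => ?_) ?_
    · exact (mem_product.1 (ODrift_memP.1 (mem_filter.1 (mem_coe.1 hp)).1).1).1
    · rintro ⟨y, z⟩ hp ⟨y', z'⟩ hp' e
      have e1 := (mem_filter.1 (mem_coe.1 hp)).2
      have e2 := (mem_filter.1 (mem_coe.1 hp')).2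
      simp only [Prod.mk.injEq] at e e1 e2 ⊢
      exact ⟨e, by linear_combination e1 - e2 + e⟩
  refine ⟨i, by have := mem_range.1 hi; omega,
    (ODrift_P t B C n i).image fun p => p.2 - p.1, ?_, ?_, ?_⟩
  · have hb0 : 0 < B.card := hB.card_pos
    refine Nat.le_of_mul_le_mul_left ?_ hb0
    have h4 : 2 * (4 ^ n * (B.card * u)) ≤ B.card * C.card := by
      calc 2 * (4 ^ n * (B.card * u)) = B.card * (2 * 4 ^ n * u) := by ring
        _ ≤ B.card * C.card := Nat.mul_le_mul_left _ hun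
    have h5 := Nat.mul_le_mul_left (n + 1) h3
    have h6 : B.card * (2 * (n + 1) * ((ODrift_P t B C n i).image fun p => p.2 - p.1).card)
        = 2 * ((n + 1) * (B.card * ((ODrift_P t B C n i).image fun p => p.2 - p.1).card)) := by
      ring
    omega
  · intro d hd
    obtain ⟨p, hp, rfl⟩ := mem_image.1 hd
    have : p.1 ∈ B ∧ p.2 ∈ C := mem_product.1 (ODrift_memP.1 hp).1
    exact sub_mem_sub this.2 this.1
  · intro d hd
    obtain ⟨d', hd', rfl⟩ := mem_smul_finset.1 hd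
    obtain ⟨p, hp, rfl⟩ := mem_image.1 hd'
    obtain ⟨-, q, hq, e⟩ := ODrift_memP.1 hp
    have : q.1 ∈ B ∧ q.2 ∈ C := mem_product.1 hq
    rw [smul_eq_mul, ← e]
    exact sub_mem_sub this.2 this.1

theorem ODrift_fin {H Z : Finset F} {K J : ℕ} {τ : F} (hn : ∀ h ∈ H, -h ∈ H)
    (hH : Cov K H (H + H)) (hZ : Z.Nonempty) (hτ : ∀ z ∈ Z, z - τ ∈ H)
    (hJ : K * H.card ≤ J * Z.card) : Z - Z ⊆ H + H ∧ Cov J (Z - Z) H := by
  constructor
  · intro v hv
    obtain ⟨a, ha, b, hb, rfl⟩ := mem_sub.1 hv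
    exact mem_add.2 ⟨a - τ, hτ a ha, -(b - τ), hn _ (hτ b hb), by ring⟩
  · refine cov_of_card hZ (le_trans ?_ (hH.card_le.trans hJ))
    refine card_le_card_of_injOn (fun v => v - τ) (fun v hv => ?_)
      (fun a _ b _ e => sub_left_injective e)
    obtain ⟨a, ha, b, hb, rfl⟩ := mem_add.1 (mem_coe.1 hv)
    exact mem_coe.2 (mem_add.2 ⟨a, ha, b - τ, hτ b hb, by ring⟩)

theorem drift [Fintype F] {c t : F} {B C D H : Finset F} {u K n : ℕ} (h : OTrio c B C D)
    (hu : Fintype.card F = B.card + C.card + D.card + u) (hB : B.Nonempty)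
    (hbc : B.card ≤ C.card) (hn : ∀ h ∈ H, -h ∈ H) (hH : Cov K H (H + H))
    (hW : Cov K H (B ∪ C)) (hHc : H.card ≤ K * C.card) (hun : 2 * 4 ^ n * u ≤ C.card)
    (ht : t ∈ Lp c) : ∃ i ≤ n, Dr (2 * K ^ 8 * (n + 1)) H (t ^ i * (1 - t) ^ (n - i)) := by
  obtain ⟨i, hi, D0, hc, h1, h2⟩ := ODrift_D0 h hu hB hun ht
  refine ⟨i, hi, ?_⟩
  have hsp := h.spl.of_mem ht
  have hρ : t ^ i * (1 - t) ^ (n - i) ≠ 0 :=
    mul_ne_zero (pow_ne_zero _ hsp.c0) (pow_ne_zero _ (sub_ne_zero.2 hsp.c1.symm))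
  generalize t ^ i * (1 - t) ^ (n - i) = ρ at h2 hρ ⊢
  have hCB : Cov (K * K * K) H (C - B) :=
    Cov.sub hn hH (hW.subset subset_union_right) (hW.subset subset_union_left)
  obtain ⟨Z1, hZ1, τ1, c1, m1⟩ := (hCB.subset h1).piece
  obtain ⟨Z2, hZ2, τ2, c2, m2⟩ := (hCB.subset ((smul_finset_subset_smul_finset hZ1).trans h2)).piece
  rw [card_smul_finset₀ hρ] at c2
  have hback : ρ • ρ⁻¹ • Z2 = Z2 := smul_inv_smul₀ hρ Z2
  have hsub : ρ⁻¹ • Z2 ⊆ Z1 := by
    have := smul_finset_subset_smul_finset (a := ρ⁻¹) hZ2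
    rwa [inv_smul_smul₀ hρ] at this
  have hcard : (ρ⁻¹ • Z2).card = Z2.card := card_smul_finset₀ (inv_ne_zero hρ) Z2
  have hC : C.card ≤ 2 * (n + 1) * (K * K * K * (K * K * K * Z2.card)) :=
    hc.trans (Nat.mul_le_mul_left _ (c1.trans (Nat.mul_le_mul_left _ c2)))
  have hJ : K * H.card ≤ 2 * K ^ 8 * (n + 1) * Z2.card := by
    calc K * H.card ≤ K * (K * (2 * (n + 1) * (K * K * K * (K * K * K * Z2.card)))) :=
          Nat.mul_le_mul_left _ (hHc.trans (Nat.mul_le_mul_left _ hC))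
      _ = 2 * K ^ 8 * (n + 1) * Z2.card := by ring
  have hne : Z2.Nonempty := by
    rw [← card_pos]
    have := hB.card_pos
    rcases Nat.eq_zero_or_pos Z2.card with h0 | h0
    · rw [h0] at hC
      simp only [mul_zero] at hC
      omega
    · exact h0
  have hne' : (ρ⁻¹ • Z2).Nonempty := by rw [← card_pos, hcard]; exact hne.card_pos
  obtain ⟨a1, a2⟩ := ODrift_fin hn hH hne' (fun z hz => m1 z (hsub hz)) (by rw [hcard]; exact hJ)
  obtain ⟨b1, b2⟩ := ODrift_fin hn hH hne m2 hJ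
  have e : ρ • (ρ⁻¹ • Z2 - ρ⁻¹ • Z2) = Z2 - Z2 := by
    ext v
    simp only [mem_smul_finset, mem_sub, smul_eq_mul]
    constructor
    · rintro ⟨_, ⟨_, ⟨a, ha, rfl⟩, _, ⟨b, hb, rfl⟩, rfl⟩, rfl⟩
      exact ⟨a, ha, b, hb, by field_simp⟩
    · rintro ⟨a, ha, b, hb, rfl⟩
      exact ⟨_, ⟨_, ⟨a, ha, rfl⟩, _, ⟨b, hb, rfl⟩, rfl⟩, by field_simp⟩
  exact ⟨ρ⁻¹ • Z2 - ρ⁻¹ • Z2, a1, by rw [e]; exact b1, a2, by rw [e]; exact b2⟩

end Pool.Agent.P.MP_862e21_al
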