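import Pool.Agent.P.MP_862e21_al.OKronU
import Pool.Agent.P.MP_862e21_al.ODrift
import Pool.Agent.P.MP_862e21_al.OCover

namespace Pool.Agent.P.MP_862e21_al

open Finset Pointwise

variable {F : Type*} [Field F] [DecidableEq F]

theorem osparse (L : ℕ) : ∃ N : ℕ, ∀ (F : Type) [Field F] [Fintype F] [DecidableEq F],
    (Fintype.card F).Prime → ∀ (c : F) (B C D : Finset F) (u : ℕ), OTrio c B C D →
      Fintype.card F = B.card + C.card + D.card + u → B.card ≤ C.card → C.card ≤ L * B.card →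
      N * (u + 1) ≤ B.card → N * B.card ≤ Fintype.card F → False := by
  obtain ⟨K, hK⟩ := ocover (L + 1)
  obtain ⟨N1, hN1⟩ := kron (2 * K ^ 8 + K)
  refine ⟨2 * 4 ^ N1 + N1 * K + N1 * K * L + 1, ?_⟩
  intro F _ _ _ hp c B C D u h hu hbc hcb hN hq
  set N := 2 * 4 ^ N1 + N1 * K + N1 * K * L + 1 with hNdef
  have hN0 : 1 ≤ N := by omega
  have hNa : 2 * 4 ^ N1 ≤ N := by omega
  have hNb : N1 * K ≤ N := by omega
  have hNc : N1 * K * L ≤ N := by omega
  have hNB : N ≤ B.card := le_trans (Nat.le_mul_of_pos_right N (Nat.succ_pos u)) hN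
  have huB : u + 1 ≤ B.card := le_trans (Nat.le_mul_of_pos_left (u + 1) hN0) hN
  have hB : B.Nonempty := card_pos.mp (by omega)
  have hC : C.Nonempty := card_pos.mp (by omega)
  have e1 : B.card ≤ (L + 1) * C.card :=
    le_trans hbc (Nat.le_mul_of_pos_left _ (Nat.succ_pos L))
  have e2 : C.card ≤ (L + 1) * B.card :=
    le_trans hcb (Nat.mul_le_mul_right _ (Nat.le_succ L))
  have e3 : u ≤ (L + 1) * B.card :=
    le_trans (by omega) (Nat.le_mul_of_pos_left B.card (Nat.succ_pos L))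
  obtain ⟨H, hAG, hW, hHc⟩ := hK F c B C D u h hu hB hC e1 e2 e3
  have hCH : C.card ≤ K * H.card :=
    le_trans (card_le_card subset_union_right) hW.card_le
  have hKpos : 0 < K := by
    rcases Nat.eq_zero_or_pos K with h0 | h0
    · rw [h0, zero_mul] at hCH
      omega
    · exact h0
  refine hN1 F hp c H h.spl.c0 h.spl.c1 (h.spl.h3 c) (hAG.mono (by omega)) ?_ ?_ ?_
  · have : K * N1 ≤ K * H.card := by
      rw [mul_comm K N1]
      omega
    exact Nat.le_of_mul_le_mul_left this hKpos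
  · calc N1 * H.card ≤ N1 * (K * C.card) := Nat.mul_le_mul_left _ hHc
      _ ≤ N1 * (K * (L * B.card)) := Nat.mul_le_mul_left _ (Nat.mul_le_mul_left _ hcb)
      _ = N1 * K * L * B.card := by ring
      _ ≤ N * B.card := Nat.mul_le_mul_right _ hNc
      _ ≤ Fintype.card F := hq
  · intro n hn t ht
    have h4 : 2 * 4 ^ n ≤ N :=
      le_trans (Nat.mul_le_mul_left 2 (Nat.pow_le_pow_right (by norm_num) hn)) hNa
    have hun : 2 * 4 ^ n * u ≤ C.card :=
      calc 2 * 4 ^ n * u ≤ N * (u + 1) := Nat.mul_le_mul h4 (Nat.le_succ u)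
        _ ≤ B.card := hN
        _ ≤ C.card := hbc
    obtain ⟨i, hi, hD⟩ := drift h hu hB hbc hAG.neg hAG.add hW hHc hun ht
    exact ⟨i, hi, hD.mono (Nat.mul_le_mul_right _ (Nat.le_add_right _ _))⟩

end Pool.Agent.P.MP_862e21_al
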