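import Pool.Agent.P.MP_862e21_al.OLong
import Pool.Agent.P.MP_862e21_al.ODense
import Pool.Agent.P.MP_862e21_al.OPop
import Pool.Agent.P.MP_862e21_al.OSparse
import Pool.Agent.P.MP_862e21_al.OCUltra
import Pool.Agent.P.MP_862e21_al.OBridge
import Pool.Agent.P.MP_862e21_al.Core
import Pool.Agent.P.MP_862e21_al.Bridge3

namespace Pool.Agent.P.MP_862e21_al

open Finset Pointwise

theorem ocore : ∃ q0 : ℕ, ∀ (F : Type) [Field F] [Fintype F] [DecidableEq F],
    q0 ≤ Fintype.card F → (Fintype.card F).Prime → ∀ (c : F) (A B C : Finset F), OCl c A B C →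
      Gen c → A.card ≤ B.card → B.card ≤ C.card →
      A.card + B.card + 2 * C.card ≤ Fintype.card F + 1 → False := by
  obtain ⟨L, hLe⟩ : ∃ L : ℕ, L = 10 ^ 10 := ⟨_, rfl⟩
  obtain ⟨N5, h5⟩ := osparse L
  obtain ⟨k0, N4, h4⟩ := osumProd (L * N5)
  obtain ⟨q1, h3⟩ := odense (N5 + N4 * L)
  obtain ⟨q2, h6⟩ := obounded (L * N5 * k0)
  refine ⟨max q1 q2, ?_⟩
  intro F _ _ _ hq hp c A B C h hg ab bc hd
  have hq1 : q1 ≤ Fintype.card F := le_trans (le_max_left _ _) hq
  have hq2 : q2 ≤ Fintype.card F := le_trans (le_max_right _ _) hq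
  have a1 := h.nA.card_pos
  have c1 := h.nC.card_pos
  by_cases hb : B.card = 1
  · exact osingle h hg (by omega) hb (by omega)
  obtain ⟨x, hx⟩ := h.nA
  obtain ⟨D, hT, hu⟩ := h.chart hx
  rw [← card_ch x B, ← card_ch x C] at hu
  have eB := card_ch x B
  have eC := card_ch x C
  by_cases hL : L * B.card ≤ C.card
  · exact olongC hp hT (by omega) hu (by omega) (by omega) (by rw [eB, eC, ← hLe]; exact hL)
  by_cases hD : Fintype.card F ≤ (N5 + N4 * L) * B.card
  · exact h3 F hq1 hp c A B C h bc hd hD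
  have hD1 : N5 * B.card + N4 * L * B.card < Fintype.card F := by
    rw [← add_mul]; omega
  by_cases hN : N5 * (A.card - 1 + 1) ≤ B.card
  · exact h5 F hp c _ _ D _ hT hu (by omega) (by rw [eB, eC]; omega) (by rw [eB]; exact hN)
      (by rw [eB]; omega)
  have e : A.card - 1 + 1 = A.card := by omega
  rw [e] at hN
  have hc : C.card ≤ L * N5 * A.card := by
    calc C.card ≤ L * B.card := by omega
      _ ≤ L * (N5 * A.card) := Nat.mul_le_mul_left _ (by omega)
      _ = L * N5 * A.card := by ring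
  by_cases hk : k0 ≤ A.card
  · have e1 := h4 F (irrP hp) c A B C h ab bc hc hk
    have e2 : N4 * C.card ≤ N4 * L * B.card := by
      rw [mul_assoc]; exact Nat.mul_le_mul_left _ (by omega)
    omega
  · have e1 : C.card ≤ L * N5 * k0 := le_trans hc (Nat.mul_le_mul_left _ (by omega))
    exact h6 F hq2 hp c A B C h (by omega) (by omega) e1

/-- a section inside the orbit of the matrices with square determinant -/
theorem psl_section : ∃ q0 : ℕ, ∀ (F : Type) [Field F] [Fintype F] [DecidableEq F]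
    [DecidableEq (OnePoint F)], q0 ≤ Fintype.card F → (Fintype.card F).Prime →
      Fintype.card F % 4 = 3 → (∀ c : F, c ≠ 0 → c ≠ 1 → Gen c) →
      ∀ S : Finset (OnePoint F), S.card = 4 →
        ∀ P : Finpartition (univ : Finset (OnePoint F)), P.parts.card = 4 →
          ∃ M : GL (Fin 2) F, Matrix.GeneralLinearGroup.det M = 1 ∧
            ∀ X ∈ P.parts, (X ∩ S.image (fun x => M • x)).card = 1 := by
  obtain ⟨q1, h1⟩ := coreP
  obtain ⟨q2, h2⟩ := ocore
  refine ⟨max (max q1 q2) 14, ?_⟩
  intro F _ _ _ _ hq hp h4 hgen S hS P hP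
  have hq1 : q1 ≤ Fintype.card F := le_trans (le_trans (le_max_left _ _) (le_max_left _ _)) hq
  have hq2 : q2 ≤ Fintype.card F := le_trans (le_trans (le_max_right _ _) (le_max_left _ _)) hq
  have hq3 : 14 ≤ Fintype.card F := le_trans (le_max_right _ _) hq
  have hneg : ¬ IsSquare (-1 : F) := by
    rw [FiniteField.isSquare_neg_one_iff]; exact not_not.2 h4
  have h3 : ∀ x : F, x ^ 2 - x + 1 ≠ 0 := by
    intro x hx
    have x0 : x ≠ 0 := by rintro rfl; simp at hx
    have x1 : x ≠ 1 := by rintro rfl; simp at hx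
    have := gen_pow (hgen x x0 x1) (m := 6) (by norm_num) (char0_six hx).1 (char0_six hx).2
    omega
  have key : ∀ c : F, c ≠ 0 → c ≠ 1 → ∃ M : GL (Fin 2) F, SqDet M ∧
      ∀ X ∈ P.parts, (X ∩ (base c).image (fun x => M • x)).card = 1 := by
    intro c c0 c1
    by_cases hs : IsSquare c ∨ IsSquare (1 - c)
    · obtain ⟨M, hM⟩ := rainbow c0 c1 (fun A B C h => h1 F hq1 hp c A B C h (hgen c c0 c1)) P hP
      by_cases hd : SqDet M
      · exact ⟨M, hd, hM⟩
      · obtain ⟨V, hV, e⟩ := base_fix hneg c0 c1 hs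
        refine ⟨M * V, (sqDet_mul M V).2 (by tauto), fun X hX => ?_⟩
        have : (base c).image (fun x => (M * V) • x) = (base c).image (fun x => M • x) := by
          conv_rhs => rw [e, image_image]
          congr 1
          funext x
          simp [mul_smul]
        rw [this]; exact hM X hX
    · have hs' : Spl c := ⟨hneg, fun h => hs (Or.inl h), fun h => hs (Or.inr h), h3⟩
      exact orainbow hs' (fun A B C h => h2 F hq2 hp (1 - c) A B C h
        (hgen _ (sub_ne_zero.mpr c1.symm) (by intro e; exact c0 (by linear_combination -e)))) P hP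
  have fin : ∀ (M : GL (Fin 2) F) (c : F), c ≠ 0 → c ≠ 1 → SqDet M →
      ∃ M' : GL (Fin 2) F, Matrix.GeneralLinearGroup.det M' = 1 ∧ ∀ X ∈ P.parts,
        (X ∩ ((base c).image (fun x => M • x)).image (fun x => M' • x)).card = 1 := by
    intro M c c0 c1 hM
    obtain ⟨M1, hd, hM1⟩ := key c c0 c1
    obtain ⟨M', e1, e2⟩ := sq_sl ((sqDet_mul M1 M⁻¹).2 (by rw [sqDet_inv]; tauto))
    refine ⟨M', e1, fun X hX => ?_⟩
    have : ((base c).image (fun x => M • x)).image (fun x => M' • x) =
        (base c).image (fun x => M1 • x) := by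
      rw [image_image]
      congr 1
      funext x
      simp [e2, mul_smul]
    rw [this]; exact hM1 X hX
  obtain ⟨M, c, c0, c1, rfl⟩ := three_trans S hS
  by_cases hM : SqDet M
  · exact fin M c c0 c1 hM
  · obtain ⟨V, hV, e⟩ := base_flip hneg c
    have : (base c).image (fun x => M • x) = (base (1 - c)).image (fun x => (M * V) • x) := by
      rw [e, image_image]
      congr 1
      funext x
      simp [mul_smul]
    rw [this]
    exact fin (M * V) (1 - c) (sub_ne_zero.mpr c1.symm)
      (by intro e; exact c0 (by linear_combination -e)) ((sqDet_mul M V).2 (by tauto))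

end Pool.Agent.P.MP_862e21_al
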