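import Pool.Agent.P.MP_862e21_al.Basic

namespace Pool.Agent.P.MP_862e21_al

open Finset Pointwise

section groups

variable {G : Type*} [AddCommGroup G]

/-- iterated sumset -/
def nS (H : Set G) : ℕ → Set G
  | 0 => {0}
  | m + 1 => nS H m + H

/-- `X` is covered by finitely many translates of `H` -/
def Sm (H X : Set G) : Prop := ∃ T : Finset G, ∀ x ∈ X, ∃ t ∈ T, x - t ∈ H

end groups

variable {F : Type*} [Field F] [DecidableEq F]

/-- the three values of the cross ratio that belong to an even permutation -/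
def Lp (c : F) : Finset F := {c, (1 - c)⁻¹, (c - 1) / c}

/-- the split case -/
structure Spl (c : F) : Prop where
  neg : ¬ IsSquare (-1 : F)
  n0 : ¬ IsSquare c
  n1 : ¬ IsSquare (1 - c)
  h3 : ∀ x : F, x ^ 2 - x + 1 ≠ 0

/-- oriented single chart -/
structure OTrio (c : F) (B C D : Finset F) : Prop where
  spl : Spl c
  pos : ∀ s ∈ Lp c, ∀ y ∈ B, ∀ z ∈ C, IsSquare (z - y) → (1 - s) * y + s * z ∉ D
  ngt : ∀ s ∈ Lp c, ∀ y ∈ B, ∀ z ∈ C, ¬ IsSquare (z - y) → s * y + (1 - s) * z ∉ D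
  dBC : Disjoint B C
  dBD : Disjoint B D
  dCD : Disjoint C D

def Vd (x y z : F) : F := (x - y) * (x - z) * (y - z)

/-- oriented closed configuration -/
structure OCl (c : F) (A B C : Finset F) : Prop where
  spl : Spl c
  nA : A.Nonempty
  nB : B.Nonempty
  nC : C.Nonempty
  dAB : Disjoint A B
  dAC : Disjoint A C
  dBC : Disjoint B C
  pos : ∀ s ∈ Lp c, ∀ x ∈ A, ∀ y ∈ B, ∀ z ∈ C, IsSquare (Vd x y z) →
    ∃ p ∈ A ∪ B ∪ C, (p - y) * (z - x) = s * (z - y) * (p - x)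
  ngt : ∀ s ∈ Lp c, ∀ x ∈ A, ∀ y ∈ B, ∀ z ∈ C, ¬ IsSquare (Vd x y z) →
    ∃ p ∈ A ∪ B ∪ C, (p - y) * (z - x) = (1 - s) * (z - y) * (p - x)

/-- the solutions of the linear equation with parameter `s` -/
def Sol (s : F) (B C D : Finset F) : Finset (F × F) :=
  (B ×ˢ C).filter (fun p => (1 - s) * p.1 + s * p.2 ∈ D)

/-- `X` is covered by at most `K` translates of `H` -/
def Cov (K : ℕ) (H X : Finset F) : Prop := ∃ T : Finset F, T.card ≤ K ∧ X ⊆ T + H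

/-- approximate group, approximately stable under four multipliers -/
structure AG (K : ℕ) (c : F) (H : Finset F) : Prop where
  zero : (0 : F) ∈ H
  neg : ∀ h ∈ H, -h ∈ H
  add : Cov K H (H + H)
  m1 : Cov K H (c • H)
  m2 : Cov K H (c⁻¹ • H)
  m3 : Cov K H ((1 - c)⁻¹ • H)
  m4 : Cov K H ((c ^ 2 - c + 1)⁻¹ • H)

/-- the multiplier `ρ` costs at most `J` -/
def Dr (J : ℕ) (H : Finset F) (ρ : F) : Prop :=
  ∃ Y : Finset F, Y ⊆ H + H ∧ ρ • Y ⊆ H + H ∧ Cov J Y H ∧ Cov J (ρ • Y) H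

/-- homogeneous coordinates of the six points of a triple -/
def PW {R : Type*} [CommRing R] (c : R) : Fin 6 → R × R :=
  ![(1, 0), (0, 1), (1, 1), (c, 1), (1, 1 - c), (c - 1, c)]

/-- brackets of the six points -/
def br {R : Type*} [CommRing R] (c : R) (i j : Fin 6) : R :=
  (PW c i).1 * (PW c j).2 - (PW c i).2 * (PW c j).1

/-- quadratic character of the brackets -/
def sgn (e : ℤ) : Fin 6 → Fin 6 → ℤ :=
  ![![0, 1, 1, 1, -1, -1], ![-1, 0, -1, 1, -1, -1], ![-1, 1, 0, -1, 1, 1],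
    ![-1, -1, 1, 0, -e, e], ![1, 1, -1, e, 0, e], ![1, 1, -1, -e, -e, 0]]

/-- the orientation table -/
def ori (η : Bool) (i j k : Fin 6) : Bool :=
  decide (sgn (if η then 1 else -1) i j * sgn (if η then 1 else -1) i k *
    sgn (if η then 1 else -1) j k = -1)

/-- abstract oriented closed family of triples -/
structure OC (c : F) (η : Bool) (TT : Finset (F × F × F)) : Prop where
  c0 : c ≠ 0
  c1 : c ≠ 1
  cN : c ^ 2 - c + 1 ≠ 0
  ne : TT.Nonempty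
  dist : ∀ t ∈ TT, t.1 ≠ t.2.1 ∧ t.1 ≠ t.2.2 ∧ t.2.1 ≠ t.2.2
  ext : ∀ t ∈ TT, ∃ (p : Fin 6 → F) (κ : Fin 6 → Fin 3),
    p 0 = t.1 ∧ p 1 = t.2.1 ∧ p 2 = t.2.2 ∧ κ 0 = 0 ∧ κ 1 = 1 ∧ κ 2 = 2 ∧
    (∀ i, (PW c i).2 * ((p i - t.2.1) * (t.2.2 - t.1)) =
      (PW c i).1 * ((t.2.2 - t.2.1) * (p i - t.1))) ∧
    ∀ i j k, κ i ≠ κ j → κ i ≠ κ k → κ j ≠ κ k → ori η i j k = true → (p i, p j, p k) ∈ TT

theorem mem_Lp {c s : F} : s ∈ Lp c ↔ s = c ∨ s = (1 - c)⁻¹ ∨ s = (c - 1) / c := by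
  simp [Lp]

theorem self_mem_Lp (c : F) : c ∈ Lp c := by simp [Lp]

theorem ori_cyc : ∀ η i j k, ori η i j k = ori η j k i := by decide

theorem ori_tot : ∀ η i j k, i ≠ j → i ≠ k → j ≠ k → ori η i j k = true ∨ ori η i k j = true := by
  decide

theorem ori_012 : ∀ η, ori η 0 1 2 = true := by decide

end Pool.Agent.P.MP_862e21_al
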