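import Pool.Agent.P.MP_862e21_al.OTwist
import Pool.Agent.P.MP_862e21_al.Dense

namespace Pool.Agent.P.MP_862e21_al

open Finset Pointwise

variable {F : Type*} [Field F] [DecidableEq F]

theorem ODenseA_big [Fintype F] {e : AddChar F ℂ} (he : e.IsPrimitive) {l : F} (l0 : l ≠ 0)
    (hl1 : l ≠ 1) {B C D : Finset F} (hC : C.Nonempty) (hD : D.Nonempty)
    (hT : 2 * (Fintype.card F * (Sol l B C D).card) ≤ B.card * C.card * D.card) :
    ∃ ξ : F, ξ ≠ 0 ∧
      (B.card : ℝ) ^ 2 * C.card * D.card ≤ 4 * ((Fintype.card F : ℝ) ^ 2 * ‖fh e B ξ‖ ^ 2) := by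
  have hne : (univ.erase (0 : F)).Nonempty := ⟨1, by simp⟩
  obtain ⟨ξ0, hξ0, hmax⟩ := exists_max_image _ (fun ξ => ‖fh e B ξ‖) hne
  refine ⟨ξ0, ne_of_mem_erase hξ0, ?_⟩
  have l1 : 1 - l ≠ 0 := sub_ne_zero.mpr hl1.symm
  have e1 := count_fh he (1 - l) l B C D
  have e2 : (B ×ˢ C).filter (fun p => (1 - l) * p.1 + l * p.2 ∈ D) = Sol l B C D := rfl
  rw [e2, ← add_sum_erase _ _ (mem_univ (0 : F))] at e1
  simp only [mul_zero, neg_zero, fh_zero] at e1
  set m := ‖fh e B ξ0‖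
  have m0 : 0 ≤ m := norm_nonneg _
  have hT' : 2 * ((Fintype.card F : ℝ) * (Sol l B C D).card) ≤ (B.card : ℝ) * C.card * D.card := by
    exact_mod_cast hT
  have e3 : (B.card : ℝ) * C.card * D.card - (Fintype.card F : ℝ) * (Sol l B C D).card ≤
      m * ∑ ξ : F, ‖fh e C (l * ξ)‖ * ‖fh e D ξ‖ := by
    have : (((B.card : ℝ) * C.card * D.card - (Fintype.card F : ℝ) * (Sol l B C D).card : ℝ) : ℂ) =
        -∑ ξ ∈ univ.erase (0 : F), fh e B ((1 - l) * ξ) * fh e C (l * ξ) * fh e D (-ξ) := by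
      push_cast
      linear_combination e1
    have e4 := congrArg norm this
    rw [norm_neg, Complex.norm_real] at e4
    refine (le_abs_self _).trans ?_
    rw [← Real.norm_eq_abs, e4]
    refine le_trans (norm_sum_le _ _) ?_
    rw [mul_sum]
    refine le_trans (sum_le_sum (g := fun ξ => m * (‖fh e C (l * ξ)‖ * ‖fh e D ξ‖)) ?_)
      (sum_le_sum_of_subset_of_nonneg (subset_univ _) (fun _ _ _ => by positivity))
    intro ξ hξ
    rw [norm_mul, norm_mul, norm_fh_neg, mul_assoc]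
    refine mul_le_mul_of_nonneg_right (hmax _ ?_) (by positivity)
    exact mem_erase.mpr ⟨mul_ne_zero l1 (ne_of_mem_erase hξ), mem_univ _⟩
  have e5 := sum_mul_sq_le_sq_mul_sq univ (fun ξ => ‖fh e C (l * ξ)‖) (fun ξ => ‖fh e D ξ‖)
  rw [parseval_mul he C l0, parseval he D] at e5
  set s := ∑ ξ : F, ‖fh e C (l * ξ)‖ * ‖fh e D ξ‖
  have c0 : (0 : ℝ) < C.card := by exact_mod_cast hC.card_pos
  have d0 : (0 : ℝ) < D.card := by exact_mod_cast hD.card_pos
  have e6 : ((B.card : ℝ) * C.card * D.card) ^ 2 ≤ (2 * (m * s)) ^ 2 :=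
    pow_le_pow_left₀ (by positivity) (by linarith) 2
  have e7 : (m * s) ^ 2 ≤ m ^ 2 * ((Fintype.card F : ℝ) * C.card * (Fintype.card F * D.card)) := by
    rw [mul_pow]; exact mul_le_mul_of_nonneg_left e5 (by positivity)
  have e8 : ((B.card : ℝ) ^ 2 * C.card * D.card) * (C.card * D.card) ≤
      (4 * ((Fintype.card F : ℝ) ^ 2 * m ^ 2)) * (C.card * D.card) := by nlinarith
  exact le_of_mul_le_mul_right e8 (by positivity)

theorem ODenseA_coeff [Fintype F] {e : AddChar F ℂ} (he : e.IsPrimitive) {c : F}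
    {A B C : Finset F} {N : ℕ} (h : OCl c A B C) (hbc : B.card ≤ C.card)
    (hq : A.card + B.card + 2 * C.card ≤ Fintype.card F + 1) (hN : Fintype.card F ≤ N * B.card)
    (hfew : ∀ B C D : Finset F, OTrio c B C D →
      2 * N ^ 3 * (Sol c B C D).card ≤ Fintype.card F ^ 2) {x : F} (hx : x ∈ A) :
    ∃ ξ : F, ξ ≠ 0 ∧
      (B.card : ℝ) ^ 2 / (2 * Fintype.card F) ≤ ‖∑ y ∈ B, e (ξ * (y - x)⁻¹)‖ := by
  obtain ⟨D, hT, hD⟩ := h.chart hx
  have ha := h.nA.card_pos
  have hb := h.nB.card_pos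
  have hcd : C.card ≤ D.card := by omega
  have nD : D.Nonempty := card_pos.mp (by omega)
  have nC : (ch x C).Nonempty := card_pos.mp (by rw [card_ch]; omega)
  have qpos : 0 < Fintype.card F := Fintype.card_pos
  have Npos : 0 < N := by
    rcases Nat.eq_zero_or_pos N with h0 | h0
    · rw [h0, zero_mul] at hN; omega
    · exact h0
  have hsol : 2 * (Fintype.card F * (Sol c (ch x B) (ch x C) D).card) ≤
      (ch x B).card * (ch x C).card * D.card := by
    rw [card_ch, card_ch]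
    have n2 : Fintype.card F ≤ N * C.card := hN.trans (Nat.mul_le_mul_left _ hbc)
    have n3 : Fintype.card F ≤ N * D.card := n2.trans (Nat.mul_le_mul_left _ hcd)
    refine Nat.le_of_mul_le_mul_left ?_ (pow_pos Npos 3)
    calc N ^ 3 * (2 * (Fintype.card F * (Sol c (ch x B) (ch x C) D).card))
        = Fintype.card F * (2 * N ^ 3 * (Sol c (ch x B) (ch x C) D).card) := by ring
      _ ≤ Fintype.card F * Fintype.card F ^ 2 := Nat.mul_le_mul_left _ (hfew _ _ _ hT)
      _ = Fintype.card F * Fintype.card F * Fintype.card F := by ring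
      _ ≤ (N * B.card) * (N * C.card) * (N * D.card) :=
          Nat.mul_le_mul (Nat.mul_le_mul hN n2) n3
      _ = _ := by ring
  obtain ⟨ξ, h0, hξ⟩ := ODenseA_big he h.spl.c0 h.spl.c1 nC nD hsol
  refine ⟨ξ, h0, ?_⟩
  have e1 : fh e (ch x B) ξ = ∑ y ∈ B, e (ξ * (y - x)⁻¹) := by
    unfold fh ch
    rw [sum_image]
    intro a _ b _ hab
    simpa using hab
  rw [card_ch, card_ch, e1] at hξ
  have q0 : (0 : ℝ) < Fintype.card F := by exact_mod_cast qpos
  rw [div_le_iff₀ (by positivity)]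
  have c1 : (B.card : ℝ) ≤ C.card := by exact_mod_cast hbc
  have c2 : (B.card : ℝ) ≤ D.card := by exact_mod_cast hbc.trans hcd
  have b0 : (0 : ℝ) ≤ B.card := Nat.cast_nonneg _
  have c3 : (B.card : ℝ) * B.card ≤ C.card * D.card := mul_le_mul c1 c2 b0 (b0.trans c1)
  have c4 : ((B.card : ℝ) ^ 2) ^ 2 ≤
      (‖∑ y ∈ B, e (ξ * (y - x)⁻¹)‖ * (2 * Fintype.card F)) ^ 2 := by
    calc ((B.card : ℝ) ^ 2) ^ 2 = (B.card : ℝ) ^ 2 * (B.card * B.card) := by ring
      _ ≤ (B.card : ℝ) ^ 2 * (C.card * D.card) := mul_le_mul_of_nonneg_left c3 (by positivity)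
      _ = (B.card : ℝ) ^ 2 * C.card * D.card := by ring
      _ ≤ _ := hξ
      _ = _ := by ring
  exact le_of_sq_le_sq c4 (by positivity)

theorem odenseA (N : ℕ) : ∃ q0 : ℕ, ∀ (F : Type) [Field F] [Fintype F] [DecidableEq F],
    q0 ≤ Fintype.card F → ∀ (c : F) (A B C : Finset F), OCl c A B C → B.card ≤ C.card →
      A.card + B.card + 2 * C.card ≤ Fintype.card F + 1 → Fintype.card F ≤ N * B.card →
      A.card ≤ 8 * N ^ 3 := by
  obtain ⟨q1, hq1'⟩ := ofew (2 * N ^ 3)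
  refine ⟨q1 + (196608 * N ^ 12 + 48 * N ^ 3), fun F _ _ _ hq0 l A B C h hbc hq hN => ?_⟩
  obtain ⟨e, he⟩ := exists_char (F := F)
  have hfew : ∀ B C D : Finset F, OTrio l B C D →
      2 * N ^ 3 * (Sol l B C D).card ≤ Fintype.card F ^ 2 :=
    fun B C D hT => hq1' F (by omega) l l B C D hT (self_mem_Lam l)
  have key : ∀ x : F, ∃ ξ : F, ξ ≠ 0 ∧
      (x ∈ A → (B.card : ℝ) ^ 2 / (2 * Fintype.card F) ≤ ‖∑ y ∈ B, e (ξ * (y - x)⁻¹)‖) := by
    intro x
    by_cases hx : x ∈ A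
    · obtain ⟨ξ, h0, h1⟩ := ODenseA_coeff he h hbc hq hN hfew hx
      exact ⟨ξ, h0, fun _ => h1⟩
    · exact ⟨1, one_ne_zero, fun h' => absurd h' hx⟩
  choose ξ hξ0 hξ using key
  have qpos : 0 < Fintype.card F := Fintype.card_pos
  have Npos : 0 < N := by
    rcases Nat.eq_zero_or_pos N with h0 | h0
    · rw [h0, zero_mul] at hN; omega
    · exact h0
  set q : ℝ := (Fintype.card F : ℝ) with hqd
  set n : ℝ := (N : ℝ) ^ 3 with hn
  set a : ℝ := (A.card : ℝ) with had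
  set b : ℝ := (B.card : ℝ) with hbd
  have q0 : 0 < q := by rw [hqd]; exact_mod_cast qpos
  have N0 : (0 : ℝ) < N := by exact_mod_cast Npos
  have n0 : 0 < n := by rw [hn]; positivity
  have a0 : 0 < a := by rw [had]; exact_mod_cast h.nA.card_pos
  have b0 : 0 < b := by rw [hbd]; exact_mod_cast h.nB.card_pos
  have hq1 : 196608 * n ^ 4 + 48 * n ≤ q := by
    have hq2 : 196608 * N ^ 12 + 48 * N ^ 3 ≤ Fintype.card F := by omega
    have : ((196608 * N ^ 12 + 48 * N ^ 3 : ℕ) : ℝ) ≤ q := by rw [hqd]; exact_mod_cast hq2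
    push_cast at this
    rw [hn]
    calc 196608 * ((N : ℝ) ^ 3) ^ 4 + 48 * (N : ℝ) ^ 3
        = 196608 * (N : ℝ) ^ 12 + 48 * (N : ℝ) ^ 3 := by ring
      _ ≤ q := this
  have hn4 : 0 < n ^ 4 := by positivity
  have hk : 3 * q ^ 3 ≤ (q / (16 * n)) ^ 4 := by
    rw [div_pow, le_div_iff₀ (by positivity)]
    have : 196608 * n ^ 4 ≤ q := by linarith
    calc 3 * q ^ 3 * (16 * n) ^ 4 = q ^ 3 * (196608 * n ^ 4) := by ring
      _ ≤ q ^ 3 * q := mul_le_mul_of_nonneg_left this (by positivity)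
      _ = q ^ 4 := by ring
  have hk3 : q / (16 * n) + 3 ≤ q / (8 * n) := by
    have e1 : q / (8 * n) = q / (16 * n) + q / (16 * n) := by field_simp; ring
    have e2 : 3 ≤ q / (16 * n) := by
      rw [le_div_iff₀ (by positivity)]
      linarith
    linarith
  have hs := sieve (A := A) (B := B) (fun x y => e (ξ x * (y - x)⁻¹)) (fun x y => norm_char e _)
    (κ := q / (8 * n)) (δ := b ^ 2 / (2 * q)) (by positivity) (by positivity)
    (by
      intro x _ x' _ hne
      have := chart_inner he hne (hξ0 x) (hξ0 x') (κ := q / (16 * n)) (by positivity) hk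
      refine le_trans (le_of_eq ?_) (this.trans hk3)
      congr 1
      refine sum_congr rfl fun y _ => ?_
      rw [conj_char, ← AddChar.map_add_eq_mul, ← sub_eq_add_neg])
    (fun x hx => hξ x hx)
  rw [← had, ← hbd, ← hqd] at hs
  have hNb : q ≤ N * b := by rw [hqd, hbd]; exact_mod_cast hN
  have hb3 : q ^ 3 ≤ n * b ^ 3 := by
    calc q ^ 3 ≤ (N * b) ^ 3 := pow_le_pow_left₀ q0.le hNb 3
      _ = n * b ^ 3 := by rw [hn]; ring
  have e1 : (a * (b ^ 2 / (2 * q))) ^ 2 = (a * b) * (a * b ^ 3 / (4 * q ^ 2)) := by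
    field_simp
    ring
  have e2 : b * (a * q + a ^ 2 * (q / (8 * n))) = (a * b) * (q + a * q / (8 * n)) := by field_simp
  rw [e1, e2] at hs
  have h1 : a * b ^ 3 / (4 * q ^ 2) ≤ q + a * q / (8 * n) :=
    le_of_mul_le_mul_left hs (by positivity)
  have h2 : a * q / (4 * n) ≤ a * b ^ 3 / (4 * q ^ 2) := by
    rw [div_le_div_iff₀ (by positivity) (by positivity)]
    calc a * q * (4 * q ^ 2) = 4 * a * q ^ 3 := by ring
      _ ≤ 4 * a * (n * b ^ 3) := mul_le_mul_of_nonneg_left hb3 (by positivity)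
      _ = a * b ^ 3 * (4 * n) := by ring
  have e3 : a * q / (4 * n) = a * q / (8 * n) + a * q / (8 * n) := by field_simp; ring
  have h3 : a * q / (8 * n) ≤ q := by linarith
  rw [div_le_iff₀ (by positivity)] at h3
  have h4 : a ≤ 8 * n := by
    have : q * a ≤ q * (8 * n) := by linarith
    exact le_of_mul_le_mul_left this q0
  rw [had, hn] at h4
  exact_mod_cast h4

end Pool.Agent.P.MP_862e21_al
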