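import Pool.Agent.P.MP_862e21_al.OBasic
import Pool.Agent.P.MP_862e21_al.OCov

namespace Pool.Agent.P.MP_862e21_al

open Finset Pointwise

variable {F : Type*} [Field F] [DecidableEq F]

/-- number of representations as a difference -/
def OEnergy_r (S : Finset F) (h : F) : ℕ := ((S ×ˢ S).filter fun x => x.1 - x.2 = h).card

theorem OEnergy_swap (S : Finset F) (h : F) :
    ((S ×ˢ S).filter fun x => x.2 - x.1 = h).card = OEnergy_r S h := by
  refine card_bij' (fun x _ => x.swap) (fun x _ => x.swap) ?_ ?_ ?_ ?_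
  · intro x hx
    simp only [mem_filter, mem_product, Prod.fst_swap, Prod.snd_swap] at hx ⊢
    tauto
  · intro x hx
    simp only [mem_filter, mem_product, Prod.fst_swap, Prod.snd_swap] at hx ⊢
    tauto
  · simp
  · simp

theorem OEnergy_sum [Fintype F] (S T : Finset F) :
    Finset.addEnergy S T = ∑ h, OEnergy_r S h * OEnergy_r T h := by
  unfold Finset.addEnergy
  rw [card_eq_sum_card_fiberwise (f := fun x : (F × F) × F × F => x.1.1 - x.1.2) (t := univ)
    (fun _ _ => mem_coe.2 (mem_univ _))]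
  refine sum_congr rfl fun h _ => ?_
  rw [← OEnergy_swap T h, OEnergy_r, ← card_product]
  congr 1
  ext x
  simp only [mem_filter, mem_product]
  constructor
  · rintro ⟨⟨⟨h1, h2⟩, h3⟩, h4⟩
    exact ⟨⟨h1, h4⟩, h2, by linear_combination h4 - h3⟩
  · rintro ⟨⟨h1, h4⟩, h2, h3⟩
    exact ⟨⟨⟨h1, h2⟩, by linear_combination h4 - h3⟩, h4⟩

theorem OEnergy_cs [Fintype F] (S T : Finset F) :
    Finset.addEnergy S T ^ 2 ≤ Finset.addEnergy S S * Finset.addEnergy T T := by
  rw [OEnergy_sum, OEnergy_sum, OEnergy_sum]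
  simpa only [sq] using sum_mul_sq_le_sq_mul_sq univ (OEnergy_r S) (OEnergy_r T)

theorem OEnergy_cube (S : Finset F) : Finset.addEnergy S S ≤ S.card ^ 3 := by
  have : S.card ^ 3 = ((S ×ˢ S) ×ˢ S).card := by simp only [card_product]; ring
  rw [this]
  refine card_le_card_of_injOn (fun x : (F × F) × F × F => (x.1, x.2.1)) ?_ ?_
  · intro x hx
    simp only [coe_filter, mem_product, Set.mem_ofPred_eq, mem_coe] at hx ⊢
    exact ⟨hx.1.1, hx.1.2.1⟩
  · intro x hx y hy e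
    simp only [coe_filter, Set.mem_ofPred_eq] at hx hy
    simp only [Prod.mk.injEq] at e
    have h1 := hx.2
    have h2 := hy.2
    rw [e.1, e.2] at h1
    exact Prod.ext e.1 (Prod.ext e.2 (by linear_combination h2 - h1))

theorem OEnergy_smul (S : Finset F) {v : F} (hv : v ≠ 0) :
    Finset.addEnergy (v • S) (v • S) ≤ Finset.addEnergy S S := by
  have hm : ∀ x ∈ v • S, v⁻¹ * x ∈ S := fun x hx => by
    obtain ⟨y, hy, rfl⟩ := mem_smul_finset.1 hx
    rwa [smul_eq_mul, inv_mul_cancel_left₀ hv]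
  refine card_le_card_of_injOn (fun x : (F × F) × F × F =>
    ((v⁻¹ * x.1.1, v⁻¹ * x.1.2), v⁻¹ * x.2.1, v⁻¹ * x.2.2)) ?_ ?_
  · intro x hx
    simp only [coe_filter, mem_product, Set.mem_ofPred_eq] at hx ⊢
    exact ⟨⟨⟨hm _ hx.1.1.1, hm _ hx.1.1.2⟩, hm _ hx.1.2.1, hm _ hx.1.2.2⟩,
      by linear_combination v⁻¹ * hx.2⟩
  · intro x _ y _ e
    simp only [Prod.mk.injEq, mul_right_inj' (inv_ne_zero hv)] at e
    exact Prod.ext (Prod.ext e.1.1 e.1.2) (Prod.ext e.2.1 e.2.2)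

theorem OEnergy_key [Fintype F] {u v : F} (hu : u ≠ 0) (hv : v ≠ 0) (B C X : Finset F)
    (G : Finset (F × F)) (hG : G ⊆ B ×ˢ C) (hX : ∀ p ∈ G, u * p.1 + v * p.2 ∈ X) :
    G.card ^ 4 ≤ X.card ^ 2 * (B.card ^ 3 * Finset.addEnergy C C) := by
  have h1 : G.card ≤ (((u • B) ×ˢ (v • C)).filter fun xy => xy.1 + xy.2 ∈ X).card := by
    refine card_le_card_of_injOn (fun p => (u * p.1, v * p.2)) ?_ ?_
    · intro p hp
      have h := mem_product.1 (hG hp)
      exact mem_coe.2 (mem_filter.2 ⟨mem_product.2 ⟨smul_mem_smul_finset h.1,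
        smul_mem_smul_finset h.2⟩, hX p hp⟩)
    · intro x _ y _ e
      simp only [Prod.mk.injEq, mul_right_inj' hu, mul_right_inj' hv] at e
      exact Prod.ext e.1 e.2
  have h2 := (Nat.pow_le_pow_left h1 2).trans (card_sq_le_card_mul_addEnergy _ _ X)
  have h3 := (OEnergy_cs (u • B) (v • C)).trans (Nat.mul_le_mul
    ((OEnergy_smul B hu).trans (OEnergy_cube B)) (OEnergy_smul C hv))
  calc G.card ^ 4 = (G.card ^ 2) ^ 2 := by ring
    _ ≤ (X.card * Finset.addEnergy (u • B) (v • C)) ^ 2 := Nat.pow_le_pow_left h2 2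
    _ = X.card ^ 2 * Finset.addEnergy (u • B) (v • C) ^ 2 := by ring
    _ ≤ _ := Nat.mul_le_mul_left _ h3

theorem oenergy [Fintype F] {c : F} {B C D : Finset F} {K0 L : ℕ} (h : OTrio c B C D)
    (hB : B.Nonempty) (hX : Dᶜ.card ≤ K0 * C.card) (hL : C.card ≤ L * B.card) :
    C.card ^ 3 ≤ 16 * K0 ^ 2 * L * Finset.addEnergy C C := by
  classical
  have c0 := h.spl.c0
  have c1 : 1 - c ≠ 0 := sub_ne_zero.2 h.spl.c1.symm
  obtain ⟨g, h1, h2⟩ : ∃ g : ℕ, B.card * C.card ≤ 2 * g ∧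
      g ^ 4 ≤ Dᶜ.card ^ 2 * (B.card ^ 3 * Finset.addEnergy C C) := by
    have hs := card_filter_add_card_filter_not (s := B ×ˢ C) (fun p => IsSquare (p.2 - p.1))
    rw [card_product] at hs
    rcases le_total ((B ×ˢ C).filter fun p => IsSquare (p.2 - p.1)).card
      ((B ×ˢ C).filter fun p => ¬ IsSquare (p.2 - p.1)).card with hle | hle
    · refine ⟨_, by omega, OEnergy_key c0 c1 B C Dᶜ _ (filter_subset
        (fun p => ¬ IsSquare (p.2 - p.1)) _) fun p hp => ?_⟩
      obtain ⟨a, b⟩ := mem_filter.1 hp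
      exact mem_compl.2 (h.ngt c (self_mem_Lp c) _ (mem_product.1 a).1 _ (mem_product.1 a).2 b)
    · refine ⟨_, by omega, OEnergy_key c1 c0 B C Dᶜ _ (filter_subset
        (fun p => IsSquare (p.2 - p.1)) _) fun p hp => ?_⟩
      obtain ⟨a, b⟩ := mem_filter.1 hp
      exact mem_compl.2 (h.pos c (self_mem_Lp c) _ (mem_product.1 a).1 _ (mem_product.1 a).2 b)
  rcases Nat.eq_zero_or_pos C.card with h0 | h0
  · simp [h0]
  have hb := hB.card_pos
  have h3 : (B.card ^ 3 * C.card ^ 2) * (B.card * C.card ^ 2)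
      ≤ (B.card ^ 3 * C.card ^ 2) * (16 * K0 ^ 2 * Finset.addEnergy C C) := by
    calc _ = (B.card * C.card) ^ 4 := by ring
      _ ≤ (2 * g) ^ 4 := Nat.pow_le_pow_left h1 4
      _ = 16 * g ^ 4 := by ring
      _ ≤ 16 * ((K0 * C.card) ^ 2 * (B.card ^ 3 * Finset.addEnergy C C)) :=
        Nat.mul_le_mul_left _ (h2.trans (Nat.mul_le_mul_right _ (Nat.pow_le_pow_left hX 2)))
      _ = _ := by ring
  have h4 := Nat.le_of_mul_le_mul_left h3 (by positivity)
  calc C.card ^ 3 = C.card * C.card ^ 2 := by ring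
    _ ≤ L * B.card * C.card ^ 2 := Nat.mul_le_mul_right _ hL
    _ = L * (B.card * C.card ^ 2) := by ring
    _ ≤ L * (16 * K0 ^ 2 * Finset.addEnergy C C) := Nat.mul_le_mul_left _ h4
    _ = _ := by ring

theorem OEnergy_cov {u v : F} (hu : u ≠ 0) (hv : v ≠ 0) {Y X C' : Finset F} {K1 : ℕ}
    (S : F → Finset F) (hS : ∀ y ∈ Y, S y ⊆ C') (hne : C'.Nonempty)
    (hc : ∀ y ∈ Y, C'.card ≤ 2 * (S y).card) (hX : X.card ≤ K1 * C'.card)
    (hm : ∀ y ∈ Y, ∀ z ∈ S y, u * y + v * z ∈ X) : Cov (2 * K1) ((v / u) • (C' - C')) Y := by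
  have hi : ∀ y, ((S y).image fun z => u * y + v * z).card = (S y).card := fun y =>
    card_image_of_injective _ fun a b e => mul_left_cancel₀ hv (add_left_cancel e)
  obtain ⟨T, hT, h1, h2⟩ := disj_cover Y X (fun y => (S y).image fun z => u * y + v * z)
    (K := 2 * K1) (fun y hy => image_subset_iff.2 (hm y hy))
    (fun y hy => card_pos.1 (by have := hc y hy; have := hne.card_pos; rw [hi]; omega))
    (fun y hy => by
      rw [hi]
      calc X.card ≤ K1 * (2 * (S y).card) := hX.trans (Nat.mul_le_mul_left _ (hc y hy))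
        _ = _ := by ring)
  refine ⟨T, h1, fun y hy => ?_⟩
  obtain ⟨y0, hy0, w, hw⟩ := h2 y hy
  obtain ⟨z, hz, e⟩ := mem_image.1 (mem_inter.1 hw).1
  obtain ⟨z0, hz0, e0⟩ := mem_image.1 (mem_inter.1 hw).2
  refine mem_add.2 ⟨y0, hy0, (v / u) • (z0 - z), smul_mem_smul_finset
    (sub_mem_sub (hS y0 (hT hy0) hz0) (hS y hy hz)), ?_⟩
  rw [smul_eq_mul]
  field_simp
  linear_combination e0 - e

/-- the two majority classes of `B` with respect to a dense part `C'` of `C` -/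
theorem ocov_pm [Fintype F] {c : F} {B C D C' : Finset F} {K1 : ℕ} (h : OTrio c B C D)
    (hC : C' ⊆ C) (hne : C'.Nonempty) (hX : Dᶜ.card ≤ K1 * C'.card) :
    ∃ Bp Bm : Finset F, Bp ∪ Bm = B ∧ ∀ s ∈ Lp c,
      Cov (2 * K1) ((s / (1 - s)) • (C' - C')) Bp ∧
      Cov (2 * K1) (((1 - s) / s) • (C' - C')) Bm := by
  classical
  refine ⟨B.filter fun y => C'.card ≤ 2 * (C'.filter fun z => IsSquare (z - y)).card,
    B.filter fun y => ¬ C'.card ≤ 2 * (C'.filter fun z => IsSquare (z - y)).card,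
    filter_union_filter_not_eq _ _, fun s hs => ?_⟩
  have s0 := (h.spl.of_mem hs).c0
  have s1 : 1 - s ≠ 0 := sub_ne_zero.2 (h.spl.of_mem hs).c1.symm
  constructor
  · exact OEnergy_cov s1 s0 (fun y => C'.filter fun z => IsSquare (z - y))
      (fun _ _ => filter_subset _ _) hne (fun y hy => (mem_filter.1 hy).2) hX fun y hy z hz =>
      mem_compl.2 (h.pos s hs y (mem_filter.1 hy).1 z (hC (mem_filter.1 hz).1) (mem_filter.1 hz).2)
  · refine OEnergy_cov s0 s1 (fun y => C'.filter fun z => ¬ IsSquare (z - y))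
      (fun _ _ => filter_subset _ _) hne (fun y hy => ?_) hX fun y hy z hz =>
      mem_compl.2 (h.ngt s hs y (mem_filter.1 hy).1 z (hC (mem_filter.1 hz).1) (mem_filter.1 hz).2)
    have h1 := card_filter_add_card_filter_not (s := C') (fun z => IsSquare (z - y))
    have h2 := (mem_filter.1 hy).2
    omega

end Pool.Agent.P.MP_862e21_al
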