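import Pool.Agent.P.MP_862e21_al.ODefs

namespace Pool.Agent.P.MP_862e21_al

open Finset Pointwise

variable {F : Type*} [Field F] [DecidableEq F]

section groups

variable {G : Type*} [AddCommGroup G]

theorem nS_zero_mem {H : Set G} (h0 : (0 : G) ∈ H) (m : ℕ) : (0 : G) ∈ nS H m := by
  induction m with
  | zero => exact Set.mem_singleton _
  | succ m ih => exact ⟨0, ih, 0, h0, add_zero _⟩

theorem nS_mono {H : Set G} (h0 : (0 : G) ∈ H) {m m' : ℕ} (h : m ≤ m') : nS H m ⊆ nS H m' := by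
  induction m', h using Nat.le_induction with
  | base => exact subset_rfl
  | succ k _ ih => exact fun x hx => ⟨x, ih hx, 0, h0, add_zero _⟩

theorem nS_one {H : Set G} : nS H 1 = H := by
  ext x
  constructor
  · rintro ⟨a, ha, b, hb, rfl⟩
    have : a = 0 := ha
    simpa [this] using hb
  · intro hx
    exact ⟨0, Set.mem_singleton _, x, hx, zero_add _⟩

theorem nS_add {H : Set G} {m m' : ℕ} {x y : G} (hx : x ∈ nS H m) (hy : y ∈ nS H m') :
    x + y ∈ nS H (m + m') := by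
  induction m' generalizing y with
  | zero =>
    have : y = 0 := hy
    simpa [this] using hx
  | succ k ih =>
    obtain ⟨a, ha, b, hb, rfl⟩ := hy
    exact ⟨x + a, ih ha, b, hb, add_assoc _ _ _⟩

theorem nS_neg {H : Set G} (hn : ∀ h ∈ H, -h ∈ H) {m : ℕ} {x : G} (hx : x ∈ nS H m) :
    -x ∈ nS H m := by
  induction m generalizing x with
  | zero =>
    have : x = 0 := hx
    rw [this, neg_zero]
    exact Set.mem_singleton _
  | succ k ih =>
    obtain ⟨a, ha, b, hb, rfl⟩ := hx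
    exact ⟨-a, ih ha, -b, hn b hb, (neg_add a b).symm⟩

theorem Sm.nS {H : Set G} (h0 : (0 : G) ∈ H) (hadd : Sm H (H + H)) (m : ℕ) : Sm H (nS H m) := by
  classical
  obtain ⟨T0, hT0⟩ := hadd
  induction m with
  | zero =>
    refine ⟨{0}, fun x hx => ⟨0, mem_singleton_self _, ?_⟩⟩
    have : x = 0 := hx
    simpa [this] using h0
  | succ k ih =>
    obtain ⟨T, hT⟩ := ih
    refine ⟨T + T0, ?_⟩
    rintro _ ⟨a, ha, b, hb, rfl⟩
    obtain ⟨t, ht, h1⟩ := hT a ha
    obtain ⟨t', ht', h2⟩ := hT0 _ ⟨_, h1, b, hb, rfl⟩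
    refine ⟨t + t', Finset.add_mem_add ht ht', ?_⟩
    have e : a + b - (t + t') = a - t + b - t' := by abel
    change a + b - (t + t') ∈ H
    rw [e]
    exact h2

theorem okoenig_nsmul {H : Set G} {m : ℕ} {x : G} (hx : x ∈ nS H m) (k : ℕ) :
    k • x ∈ nS H (k * m) := by
  induction k with
  | zero =>
    rw [zero_smul, zero_mul]
    exact Set.mem_singleton _
  | succ k ih =>
    rw [succ_nsmul, Nat.succ_mul]
    exact nS_add ih hx

theorem okoenig_sum {H : Set G} {ι : Type*} (s : Finset ι) (x : ι → G) (m : ι → ℕ)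
    (h : ∀ i ∈ s, x i ∈ nS H (m i)) : ∑ i ∈ s, x i ∈ nS H (∑ i ∈ s, m i) := by
  classical
  induction s using Finset.induction_on with
  | empty => exact Set.mem_singleton _
  | insert a s ha ih =>
    rw [sum_insert ha, sum_insert ha]
    exact nS_add (h a (mem_insert_self _ _)) (ih fun i hi => h i (mem_insert_of_mem hi))

theorem okoenig_shift (p : G → ℝ) (hadd : ∀ x y, p (x + y) ≤ p x + p y) (h0 : p 0 ≤ 0) (y : G)
    (c : ℝ) (hc : ∀ l : ℕ, l * c ≤ p (l • y)) :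
    ∃ r : G → ℝ, (∀ u v, r (u + v) ≤ r u + r v) ∧ (∀ v, r v ≤ p v) ∧ r (-y) ≤ -c := by
  have hb : ∀ v, BddBelow (Set.range fun l : ℕ => p (v + l • y) - l * c) := by
    intro v
    refine ⟨-p (-v), ?_⟩
    rintro _ ⟨l, rfl⟩
    have h1 := hadd (v + l • y) (-v)
    have e : v + l • y + -v = l • y := by abel
    rw [e] at h1
    have h2 := hc l
    change -p (-v) ≤ p (v + l • y) - l * c
    linarith
  refine ⟨fun v => ⨅ l : ℕ, (p (v + l • y) - l * c), fun u v => ?_, fun v => ?_, ?_⟩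
  · refine le_ciInf_add_ciInf fun l l' => ?_
    refine (ciInf_le (hb (u + v)) (l + l')).trans ?_
    have h1 := hadd (u + l • y) (v + l' • y)
    have e : u + l • y + (v + l' • y) = u + v + (l + l') • y := by
      rw [add_smul]
      abel
    rw [e] at h1
    push_cast
    linarith
  · refine (ciInf_le (hb v) 0).trans ?_
    simp
  · refine (ciInf_le (hb (-y)) 1).trans ?_
    simp only [one_smul, neg_add_cancel, Nat.cast_one, one_mul]
    linarith

theorem okoenig_gen (n : G → ℝ) (hadd : ∀ x y, n (x + y) ≤ n x + n y) (h0 : n 0 ≤ 0) (x0 : G)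
    (c : ℝ) (hc : ∀ l : ℕ, l * c ≤ n (l • x0)) :
    ∃ φ : G →+ ℝ, (∀ x, φ x ≤ n x) ∧ c ≤ φ x0 := by
  let S : Set (G → ℝ) :=
    {q | (∀ x y, q x + q y ≤ q (x + y)) ∧ (∀ x, -n x ≤ q x) ∧ c ≤ q (-x0)}
  have hz : ∀ q ∈ S, q 0 = 0 := by
    intro q hq
    have h1 := hq.1 0 0
    have h2 := hq.2.1 0
    rw [add_zero] at h1
    linarith
  have hub : ∀ q ∈ S, ∀ v, q v ≤ n (-v) := by
    intro q hq v
    have h1 := hq.1 v (-v)
    have h2 := hq.2.1 (-v)
    rw [add_neg_cancel, hz q hq] at h1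
    linarith
  obtain ⟨r, hr1, hr2, hr3⟩ := okoenig_shift n hadd h0 x0 c hc
  have hrS : (fun v => -r v) ∈ S :=
    ⟨fun x y => by have := hr1 x y; linarith, fun x => by have := hr2 x; linarith,
      by linarith⟩
  obtain ⟨q, -, hq⟩ := zorn_le_nonempty₀ S (by
    intro C hC hch y hy
    have hbd : ∀ v, BddAbove ((fun q : G → ℝ => q v) '' C) := by
      intro v
      refine ⟨n (-v), ?_⟩
      rintro _ ⟨q, hq, rfl⟩
      exact hub q (hC hq) v
    have hle : ∀ q ∈ C, ∀ v, q v ≤ sSup ((fun q : G → ℝ => q v) '' C) :=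
      fun q hq v => le_csSup (hbd v) ⟨q, hq, rfl⟩
    have hne : ∀ v, ((fun q : G → ℝ => q v) '' C).Nonempty := fun v => ⟨y v, y, hy, rfl⟩
    refine ⟨fun v => sSup ((fun q : G → ℝ => q v) '' C), ⟨fun u v => ?_, fun v => ?_, ?_⟩,
      fun q hq v => hle q hq v⟩
    · rw [← le_sub_iff_add_le]
      refine csSup_le (hne u) ?_
      rintro _ ⟨q1, hq1, rfl⟩
      rw [le_sub_comm]
      refine csSup_le (hne v) ?_
      rintro _ ⟨q2, hq2, rfl⟩
      rcases hch.total hq1 hq2 with h | h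
      · have h1 := h u
        have h2 := (hC hq2).1 u v
        have h3 := hle q2 hq2 (u + v)
        change q2 v ≤ _ - q1 u
        linarith
      · have h1 := h v
        have h2 := (hC hq1).1 u v
        have h3 := hle q1 hq1 (u + v)
        change q2 v ≤ _ - q1 u
        linarith
    · exact ((hC hy).2.1 v).trans (hle y hy v)
    · exact (hC hy).2.2.trans (hle y hy _)) _ hrS
  have hqS : q ∈ S := hq.1
  have hmax : ∀ q' : G → ℝ, (∀ x y, q' x + q' y ≤ q' (x + y)) → (∀ v, q v ≤ q' v) →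
      ∀ v, q' v ≤ q v := by
    intro q' h1 h2
    exact hq.2 (y := q') ⟨h1, fun x => (hqS.2.1 x).trans (h2 x), hqS.2.2.trans (h2 _)⟩ h2
  have hlow : ∀ (k : ℕ) (v : G), k * q v ≤ q (k • v) := by
    intro k v
    induction k with
    | zero => simp [hz q hqS]
    | succ k ih =>
      have h1 := hqS.1 (k • v) v
      rw [succ_nsmul]
      push_cast
      linarith
  have hhom : ∀ (k : ℕ) (v : G), q (k • v) ≤ k * q v := by
    intro k v
    rcases Nat.eq_zero_or_pos k with rfl | hk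
    · simp [hz q hqS]
    · have hk' : (0 : ℝ) < k := by exact_mod_cast hk
      have h1 := hmax (fun v => q (k • v) / k) (fun x y => by
        rw [← add_div, smul_add]
        exact div_le_div_of_nonneg_right (hqS.1 _ _) hk'.le) (fun v => by
        rw [le_div_iff₀ hk', mul_comm]
        exact hlow k v) v
      rwa [div_le_iff₀ hk', mul_comm] at h1
  have hneg : ∀ y, q (-y) = -q y := by
    intro y
    obtain ⟨r', h1, h2, h3⟩ := okoenig_shift (fun v => -q v)
      (fun x y => by have := hqS.1 x y; linarith) (by simp [hz q hqS]) y (-q y)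
      (fun l => by have := hhom l y; linarith)
    have h4 := hmax (fun v => -r' v) (fun x y => by have := h1 x y; linarith)
      (fun v => by have := h2 v; linarith) (-y)
    have h5 := hqS.1 y (-y)
    rw [add_neg_cancel, hz q hqS] at h5
    linarith
  have hadd' : ∀ x y, q (x + y) = q x + q y := by
    intro x y
    have h1 := hqS.1 x y
    have h2 := hqS.1 (-x) (-y)
    rw [← neg_add, hneg, hneg, hneg] at h2
    linarith
  refine ⟨AddMonoidHom.mk' (fun v => -q v) fun x y => by rw [hadd', neg_add], fun x => ?_, ?_⟩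
  · have := hqS.2.1 x
    change -q x ≤ n x
    linarith
  · have := hqS.2.2
    rw [hneg] at this
    exact this

/-- Hahn-Banach on an abelian group -/
theorem koenig (n : G → ℝ) (hadd : ∀ x y, n (x + y) ≤ n x + n y)
    (hmul : ∀ (k : ℕ) (x : G), n (k • x) = k * n x) (x0 : G) :
    ∃ φ : G →+ ℝ, (∀ x, φ x ≤ n x) ∧ φ x0 = n x0 := by
  have h0 : n 0 ≤ 0 := by
    have := hmul 0 0
    simp only [zero_smul, Nat.cast_zero, zero_mul] at this
    exact this.le
  obtain ⟨φ, h1, h2⟩ := okoenig_gen n hadd h0 x0 (n x0) fun l => (hmul l x0).ge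
  exact ⟨φ, h1, le_antisymm (h1 x0) h2⟩

theorem okoenig_sep {H : Set G} (hn : ∀ h ∈ H, -h ∈ H) {w : G} {j0 : ℕ} (hw : w ∈ nS H j0)
    (D : ℕ) (hD : ∀ k j : ℕ, k • w ∈ nS H j → k * D ≤ j) :
    ∃ φ : G →+ ℝ, (∀ j : ℕ, ∀ y ∈ nS H j, φ y ≤ j) ∧ (D : ℝ) ≤ φ w := by
  classical
  let G0 : AddSubgroup G :=
    { carrier := {x | ∃ m, x ∈ nS H m}
      add_mem' := fun ⟨a, ha⟩ ⟨b, hb⟩ => ⟨a + b, nS_add ha hb⟩
      zero_mem' := ⟨0, Set.mem_singleton _⟩
      neg_mem' := fun ⟨a, ha⟩ => ⟨a, nS_neg hn ha⟩ }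
  have hex : ∀ x : G0, ∃ m, (x : G) ∈ nS H m := fun x => x.2
  obtain ⟨φ0, h1, h2⟩ := okoenig_gen (G := G0) (fun x => (Nat.find (hex x) : ℝ))
    (fun x y => by
      have := Nat.find_min' (hex (x + y)) (nS_add (Nat.find_spec (hex x)) (Nat.find_spec (hex y)))
      exact_mod_cast this)
    (by
      have := Nat.find_min' (hex 0) (m := 0) (Set.mem_singleton _)
      exact_mod_cast this) ⟨w, j0, hw⟩ D
    (fun l => by
      have := hD l _ (Nat.find_spec (hex (l • ⟨w, j0, hw⟩)))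
      exact_mod_cast this)
  obtain ⟨φ, hφ⟩ := (Module.Baer.of_divisible ℝ).extension_property_addMonoidHom G0.subtype
    G0.subtype_injective φ0
  have he : ∀ x : G0, φ x = φ0 x := fun x => DFunLike.congr_fun hφ x
  refine ⟨φ, fun j y hy => ?_, ?_⟩
  · have h3 := he ⟨y, j, hy⟩
    have h4 := h1 ⟨y, j, hy⟩
    have h5 : (Nat.find (hex ⟨y, j, hy⟩) : ℝ) ≤ j := by
      exact_mod_cast Nat.find_min' (hex ⟨y, j, hy⟩) hy
    change φ y = _ at h3
    linarith
  · have h3 := he ⟨w, j0, hw⟩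
    change φ w = _ at h3
    linarith

theorem okoenig_rep {H : Set G} (h0 : (0 : G) ∈ H) (hn : ∀ h ∈ H, -h ∈ H) (hadd : Sm H (H + H)) :
    ∃ T : Finset G, (∀ t ∈ T, t ∈ nS H 3) ∧ ∀ (m : ℕ), ∀ x ∈ nS H m,
      ∃ f : T → ℕ, ∑ t, f t ≤ m ∧ x - ∑ t, f t • (t : G) ∈ H := by
  classical
  obtain ⟨T0, hT0⟩ := hadd
  refine ⟨T0.filter (· ∈ nS H 3), fun t ht => (mem_filter.1 ht).2, fun m => ?_⟩
  induction m with
  | zero =>
    intro x hx
    have : x = 0 := hx
    exact ⟨0, by simp, by simpa [this] using h0⟩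
  | succ k ih =>
    rintro _ ⟨a, ha, b, hb, rfl⟩
    obtain ⟨f, hf, h1⟩ := ih a ha
    obtain ⟨t, ht, h2⟩ := hT0 _ ⟨_, h1, b, hb, rfl⟩
    have h3 : t ∈ nS H 3 := by
      have h4 := nS_add (nS_add (nS_one.ge h1) (nS_one.ge hb)) (nS_one.ge (hn _ h2))
      simpa using h4
    refine ⟨f + Pi.single ⟨t, mem_filter.2 ⟨ht, h3⟩⟩ 1, ?_, ?_⟩
    · simp only [Pi.add_apply, sum_add_distrib, Finset.sum_pi_single', mem_univ, if_true]
      omega
    · simp only [Pi.add_apply, add_smul, sum_add_distrib, Pi.single_apply, ite_smul, one_smul,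
        zero_smul, Finset.sum_ite_eq', mem_univ, if_true]
      rw [← sub_sub, add_sub_right_comm]
      exact h2

/-- bounded additive functionals see every far point of the group generated by `H` -/
theorem exists_functional {H : Set G} (h0 : (0 : G) ∈ H) (hn : ∀ h ∈ H, -h ∈ H)
    (hadd : Sm H (H + H)) : ∃ m0 : ℕ, ∀ (x : G) (m : ℕ), x ∈ nS H m → x ∉ nS H m0 →
      ∃ φ : G →+ ℝ, (∀ h ∈ H, |φ h| ≤ 1) ∧ φ x ≠ 0 := by
  classical
  obtain ⟨T, hT3, hT⟩ := okoenig_rep h0 hn hadd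
  obtain ⟨τ, hτ⟩ : ∃ τ, τ = T.card := ⟨_, rfl⟩
  have hsum : ∀ f : T → ℕ, ∑ t, f t • (t : G) ∈ nS H (∑ t, f t * 3) :=
    fun f => okoenig_sum _ _ _ fun t _ => okoenig_nsmul (hT3 t t.2) _
  have hC : ∀ f : T → ℕ, ∃ C : ℕ,
      (∀ s : ℕ, s • ∑ t, f t • (t : G) ∈ nS H (s * (3 * τ + 2) + C)) ∨
      ∃ φ : G →+ ℝ, (∀ j : ℕ, ∀ y ∈ nS H j, φ y ≤ j) ∧
        ((3 * τ + 2 : ℕ) : ℝ) ≤ φ (∑ t, f t • (t : G)) := by
    intro f
    by_cases hD : ∀ k j : ℕ, k • ∑ t, f t • (t : G) ∈ nS H j → k * (3 * τ + 2) ≤ j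
    · exact ⟨0, Or.inr (okoenig_sep hn (hsum f) _ hD)⟩
    · push Not at hD
      obtain ⟨k, j, h1, h2⟩ := hD
      have hk : 0 < k := Nat.pos_of_ne_zero (by rintro rfl; simp at h2)
      refine ⟨k * ∑ t, f t * 3, Or.inl fun s => ?_⟩
      have h3 := nS_add (okoenig_nsmul h1 (s / k)) (okoenig_nsmul (hsum f) (s % k))
      rw [smul_smul, ← add_smul, Nat.div_add_mod'] at h3
      refine nS_mono h0 (add_le_add ?_ (Nat.mul_le_mul_right _ (Nat.mod_lt s hk).le)) h3
      calc s / k * j ≤ s / k * (k * (3 * τ + 2)) := Nat.mul_le_mul_left _ h2.le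
        _ = s / k * k * (3 * τ + 2) := by ring
        _ ≤ s * (3 * τ + 2) := Nat.mul_le_mul_right _ (Nat.div_mul_le_self s k)
  choose C hC using hC
  obtain ⟨Q, hQ⟩ : ∃ Q, Q = 12 * τ + 4 := ⟨_, rfl⟩
  have hfin : {f : T → ℕ | ∀ t, f t ∈ Set.Iic (2 * Q)}.Finite :=
    Set.Finite.pi' fun _ => Set.finite_Iic _
  obtain ⟨C0, hC0⟩ := (hfin.image C).bddAbove
  refine ⟨Q + (2 * C0 + 2), fun x m' hx hx0 => ?_⟩
  have hex : ∃ m, x ∈ nS H m := ⟨m', hx⟩
  obtain ⟨m, hm, hmin⟩ : ∃ m, x ∈ nS H m ∧ ∀ j, x ∈ nS H j → m ≤ j :=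
    ⟨Nat.find hex, Nat.find_spec hex, fun j hj => Nat.find_min' hex hj⟩
  have hlt : Q + (2 * C0 + 2) < m := by
    by_contra hle
    exact hx0 (nS_mono h0 (not_lt.1 hle) hm)
  have hQ0 : 0 < Q := by omega
  obtain ⟨s, hs⟩ : ∃ s, s = m / Q := ⟨_, rfl⟩
  have hs0 : 0 < s := by
    rw [hs]
    exact Nat.div_pos (by omega) hQ0
  have hs1 : s * Q ≤ m := by
    rw [hs]
    exact Nat.div_mul_le_self m Q
  have hs2 : m < (s + 1) * Q := by
    rw [hs]
    exact (Nat.div_lt_iff_lt_mul hQ0).1 (Nat.lt_succ_self _)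
  obtain ⟨f, hf, hh⟩ := hT m x hm
  have hw : (fun t => f t / s) ∈ {f : T → ℕ | ∀ t, f t ∈ Set.Iic (2 * Q)} := by
    intro t
    have h1 : f t ≤ m := (single_le_sum (fun _ _ => Nat.zero_le _) (mem_univ t)).trans hf
    refine Nat.div_le_of_le_mul ?_
    nlinarith
  have hCw : C (fun t => f t / s) ≤ C0 := hC0 ⟨_, hw, rfl⟩
  have hr : ∑ t : T, (f t % s) • (t : G) ∈ nS H (s * (3 * τ)) := by
    refine nS_mono h0 ?_ (hsum fun t => f t % s)
    calc ∑ t : T, f t % s * 3 ≤ ∑ _t : T, s * 3 :=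
          sum_le_sum fun t _ => Nat.mul_le_mul_right _ (Nat.mod_lt _ hs0).le
      _ = s * (3 * τ) := by
          rw [sum_const, card_univ, Fintype.card_coe, ← hτ, smul_eq_mul]
          ring
  have hrh := nS_add hr (nS_one.ge hh)
  have hx' : x = s • ∑ t : T, (f t / s) • (t : G)
      + (∑ t : T, (f t % s) • (t : G) + (x - ∑ t, f t • (t : G))) := by
    rw [← add_assoc, smul_sum, ← sum_add_distrib]
    have e : ∀ t : T, s • (f t / s) • (t : G) + (f t % s) • (t : G) = f t • (t : G) := fun t => by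
      rw [smul_smul, ← add_smul, Nat.div_add_mod]
    simp only [e, add_sub_cancel]
  rcases hC (fun t => f t / s) with h1 | ⟨φ, h1, h2⟩
  · exfalso
    have h2 := nS_add (h1 s) hrh
    rw [← hx'] at h2
    have h3 := hmin _ h2
    have h4 : s * Q = 2 * (s * (3 * τ + 2)) + 2 * (s * (3 * τ)) := by
      rw [hQ]
      ring
    omega
  · refine ⟨φ, fun h hh' => ?_, fun hφ => ?_⟩
    · have h3 := h1 1 h (nS_one.ge hh')
      have h4 := h1 1 (-h) (nS_one.ge (hn h hh'))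
      rw [map_neg] at h4
      rw [abs_le]
      push_cast at h3 h4
      exact ⟨by linarith, h3⟩
    · have h3 := h1 _ _ (nS_neg hn hrh)
      rw [hx', map_add, map_nsmul, nsmul_eq_mul] at hφ
      rw [map_neg] at h3
      have h4 : (1 : ℝ) ≤ s := by exact_mod_cast hs0
      have h5 := mul_le_mul_of_nonneg_left h2 (le_trans zero_le_one h4)
      push_cast at h3 h5
      nlinarith

end groups

end Pool.Agent.P.MP_862e21_al
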