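import Pool.Agent.P.MP_862e21_al.OKoenig

namespace Pool.Agent.P.MP_862e21_al

open Finset Pointwise

variable {F : Type*} [Field F] [DecidableEq F]

omit [DecidableEq F] in
lemma OKron_pigeon {ι : Type*} {Z : Set F} {x : F} (h0 : (0 : F) ∈ Z)
    (hx : ∀ M : ℕ, 1 ≤ M → ∃ g : F, (M : F) * g = x ∧ ∀ j : ℕ, j ≤ M → (j : F) * g ∈ Z)
    (ψ : F →+ ℂ) (U : Finset ι) (w : ι → ℂ) (β : ℝ)
    (hU : ∀ y ∈ Z, ∃ u ∈ U, ‖ψ y - w u‖ ≤ β) : ‖ψ x‖ ≤ 2 * β * U.card := by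
  obtain ⟨u0, hu0, -⟩ := hU 0 h0
  obtain ⟨g, hg, hj⟩ := hx U.card (card_pos.2 ⟨u0, hu0⟩)
  have hψ : ∀ j : ℕ, ψ ((j : F) * g) = j * ψ g := fun j => by
    rw [← nsmul_eq_mul, map_nsmul, nsmul_eq_mul]
  have hc : ∀ j : ℕ, ∃ u, j ≤ U.card → u ∈ U ∧ ‖(j : ℂ) * ψ g - w u‖ ≤ β := fun j => by
    by_cases h : j ≤ U.card
    · obtain ⟨u, a, b⟩ := hU _ (hj j h)
      exact ⟨u, fun _ => ⟨a, hψ j ▸ b⟩⟩
    · exact ⟨u0, fun h' => absurd h' h⟩
  choose f hf using hc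
  obtain ⟨i, hi, j, hj', hij, e⟩ := exists_ne_map_eq_of_card_lt_of_maps_to
    (s := range (U.card + 1)) (t := U) (by simp) (f := f)
    (fun j hj => (hf j (Nat.lt_succ_iff.1 (mem_range.1 hj))).1)
  have a1 := (hf i (Nat.lt_succ_iff.1 (mem_range.1 hi))).2
  have a2 := (hf j (Nat.lt_succ_iff.1 (mem_range.1 hj'))).2
  rw [e] at a1
  have a3 : ‖(((i : ℤ) - j : ℤ) : ℂ) * ψ g‖ ≤ 2 * β := by
    have : (((i : ℤ) - j : ℤ) : ℂ) * ψ g = (i * ψ g - w (f j)) - (j * ψ g - w (f j)) := by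
      push_cast; ring
    rw [this]
    exact (norm_sub_le _ _).trans (by linarith)
  have a4 : (1 : ℝ) ≤ ‖(((i : ℤ) - j : ℤ) : ℂ)‖ := by
    rw [Complex.norm_intCast]
    have : (i : ℤ) - j ≠ 0 := sub_ne_zero.2 (by exact_mod_cast hij)
    rw [← Int.cast_abs, ← Int.cast_one, Int.cast_le]
    exact Int.one_le_abs this
  rw [norm_mul] at a3
  have a5 : ‖ψ g‖ ≤ 2 * β := by nlinarith [norm_nonneg (ψ g)]
  rw [← hg, hψ, norm_mul, Complex.norm_natCast, mul_comm]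
  exact mul_le_mul_of_nonneg_right a5 (Nat.cast_nonneg _)

omit [DecidableEq F] in
lemma OKron_mul {H : Set F} {r s : F} (hr : Sm H (r • H)) (hs : Sm H (s • H)) :
    Sm H ((r * s) • H) := by
  classical
  obtain ⟨T, hT⟩ := hr
  obtain ⟨T', hT'⟩ := hs
  refine ⟨image₂ (fun t t' => t + r * t') T T', ?_⟩
  rintro _ ⟨h, hh, rfl⟩
  obtain ⟨t', a1, a2⟩ := hT' _ ⟨h, hh, rfl⟩
  obtain ⟨t, b1, b2⟩ := hT _ ⟨_, a2, rfl⟩
  refine ⟨_, mem_image₂_of_mem b1 a1, ?_⟩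
  have : (r * s) • h - (t + r * t') = r • (s • h - t') - t := by simp only [smul_eq_mul]; ring
  exact this ▸ b2

omit [DecidableEq F] in
lemma OKron_one {H : Set F} (_h0 : (0 : F) ∈ H) : Sm H ((1 : F) • H) :=
  ⟨{0}, fun x hx => ⟨0, by simp, by simpa using hx⟩⟩

omit [DecidableEq F] in
lemma OKron_sub {H : Set F} {c : F} (hn : ∀ h ∈ H, -h ∈ H) (hadd : Sm H (H + H))
    (m1 : Sm H (c • H)) : Sm H ((1 - c) • H) := by
  classical
  obtain ⟨T, hT⟩ := hadd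
  obtain ⟨T', hT'⟩ := m1
  refine ⟨image₂ (fun t t' => t - t') T T', ?_⟩
  rintro _ ⟨h, hh, rfl⟩
  obtain ⟨t', a1, a2⟩ := hT' _ ⟨h, hh, rfl⟩
  obtain ⟨t, b1, b2⟩ := hT _ ⟨h, hh, _, hn _ a2, rfl⟩
  refine ⟨_, mem_image₂_of_mem b1 a1, ?_⟩
  have : (1 - c) • h - (t - t') = h + -(c • h - t') - t := by simp only [smul_eq_mul]; ring
  exact this ▸ b2

/-- additive maps that are bounded on a set -/
def OKronV (H : Set F) : Submodule ℂ (F →+ ℂ) where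
  carrier := {φ | ∃ B : ℝ, ∀ h ∈ H, ‖φ h‖ ≤ B}
  add_mem' := by
    rintro φ ψ ⟨B, hB⟩ ⟨B', hB'⟩
    exact ⟨B + B', fun h hh => (norm_add_le _ _).trans (add_le_add (hB h hh) (hB' h hh))⟩
  zero_mem' := ⟨0, by simp⟩
  smul_mem' := by
    rintro a φ ⟨B, hB⟩
    refine ⟨‖a‖ * B, fun h hh => ?_⟩
    rw [AddMonoidHom.smul_apply, norm_smul]
    exact mul_le_mul_of_nonneg_left (hB h hh) (norm_nonneg a)

/-- composition with a multiplication -/
def OKronA (r : F) : Module.End ℂ (F →+ ℂ) where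
  toFun φ := φ.comp (AddMonoidHom.mulLeft r)
  map_add' _ _ := rfl
  map_smul' _ _ := rfl

omit [DecidableEq F] in
lemma OKronA_apply (r : F) (φ : F →+ ℂ) (y : F) : OKronA r φ y = φ (r * y) := rfl

omit [DecidableEq F] in
lemma OKronA_pow (r : F) (j : ℕ) (φ : F →+ ℂ) (y : F) : (OKronA r ^ j) φ y = φ (r ^ j * y) := by
  induction j generalizing y with
  | zero => simp
  | succ j ih => rw [pow_succ', Module.End.mul_apply, OKronA_apply, ih, pow_succ, mul_assoc]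

omit [DecidableEq F] in
lemma OKronA_mem {H : Set F} {r : F} (hr : Sm H (r • H)) {φ : F →+ ℂ} (hφ : φ ∈ OKronV H) :
    OKronA r φ ∈ OKronV H := by
  obtain ⟨T, hT⟩ := hr
  obtain ⟨B, hB⟩ := hφ
  refine ⟨B + ∑ t ∈ T, ‖φ t‖, fun h hh => ?_⟩
  obtain ⟨t, a1, a2⟩ := hT _ ⟨h, hh, rfl⟩
  have : OKronA r φ h = φ (r • h - t) + φ t := by rw [← map_add, sub_add_cancel]; rfl
  rw [this]
  exact (norm_add_le _ _).trans (add_le_add (hB _ a2)
    (single_le_sum (f := fun t => ‖φ t‖) (fun _ _ => norm_nonneg _) a1))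

omit [DecidableEq F] in
lemma OKron_zero {H : Set F} {T : Finset F} (hT : ∀ x ∈ H + H, ∃ t ∈ T, x - t ∈ H) {φ : F →+ ℂ}
    (hφ : φ ∈ OKronV H) (hz : ∀ t ∈ T, φ t = 0) : ∀ h ∈ H, φ h = 0 := by
  obtain ⟨B, hB⟩ := hφ
  have key : ∀ k : ℕ, ∀ h ∈ H, ‖φ h‖ * 2 ^ k ≤ B := by
    intro k
    induction k with
    | zero => simpa using hB
    | succ k ih =>
      intro h hh
      obtain ⟨t, a1, a2⟩ := hT _ ⟨h, hh, h, hh, rfl⟩
      have := ih _ a2
      rw [map_sub, hz t a1, sub_zero, map_add, ← two_mul, norm_mul, Complex.norm_two] at this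
      rw [pow_succ]; linarith
  intro h hh
  by_contra hne
  have hp := norm_pos_iff.2 hne
  obtain ⟨k, hk⟩ := pow_unbounded_of_one_lt (B / ‖φ h‖) (one_lt_two (α := ℝ))
  have := key k h hh
  rw [div_lt_iff₀ hp] at hk
  linarith

lemma OKron_peel {E : Type*} [AddCommGroup E] [Module ℂ E] (A : Module.End ℂ E)
    (V W : Submodule ℂ E) (hA : ∀ φ ∈ V, A φ ∈ V) (n : ℕ) :
    ∀ P : Polynomial ℂ, P ≠ 0 → P.natDegree = n → ∀ φ ∈ V, φ ∉ W → Polynomial.aeval A P φ ∈ W →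
      ∃ ψ ∈ V, ψ ∉ W ∧ ∃ σ : ℂ, A ψ - σ • ψ ∈ W := by
  induction n with
  | zero =>
    intro P hP hd φ _ hW h
    rw [Polynomial.eq_C_of_natDegree_eq_zero hd] at h hP
    have h0 : P.coeff 0 ≠ 0 := fun h => hP (by rw [h, map_zero])
    rw [Polynomial.aeval_C, Module.algebraMap_end_apply] at h
    exact absurd ((W.smul_mem_iff h0).1 h) hW
  | succ n ih =>
    intro P hP hd φ hV hW h
    obtain ⟨σ, hσ⟩ := Complex.exists_root (f := P)
      (Polynomial.natDegree_pos_iff_degree_pos.1 (by omega))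
    obtain ⟨Q, rfl⟩ := Polynomial.dvd_iff_isRoot.2 hσ
    have hQ : Q ≠ 0 := right_ne_zero_of_mul hP
    rw [Polynomial.natDegree_mul (Polynomial.X_sub_C_ne_zero σ) hQ,
      Polynomial.natDegree_X_sub_C] at hd
    by_cases h1 : A φ - σ • φ ∈ W
    · exact ⟨φ, hV, hW, σ, h1⟩
    · refine ih Q hQ (by omega) _ (V.sub_mem (hA φ hV) (V.smul_mem σ hV)) h1 ?_
      rw [mul_comm, map_mul, Module.End.mul_apply] at h
      simpa [Module.algebraMap_end_apply] using h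

omit [DecidableEq F] in
lemma OKron_dep (T : Finset F) (A : Module.End ℂ (F →+ ℂ)) (φ : F →+ ℂ) :
    ∃ P : Polynomial ℂ, P ≠ 0 ∧ ∀ t ∈ T, Polynomial.aeval A P φ t = 0 := by
  let L : Polynomial ℂ →ₗ[ℂ] (T → ℂ) :=
    { toFun := fun P t => Polynomial.aeval A P φ t
      map_add' := fun P Q => by ext t; simp
      map_smul' := fun a P => by ext t; simp }
  by_contra hne
  have hinj : Function.Injective L := by
    rw [injective_iff_map_eq_zero]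
    intro P hP
    by_contra h
    exact hne ⟨P, h, fun t ht => congrFun hP ⟨t, ht⟩⟩
  exact Polynomial.not_finite (R := ℂ) (Module.Finite.of_injective L hinj)

omit [DecidableEq F] in
lemma OKron_zpow {R : F → Prop} (hm : ∀ r s, R r → R s → R (r * s)) (h1 : R 1) (a : F → ℂ)
    {u : F} {τ : ℂ} (u0 : u ≠ 0) (τ0 : τ ≠ 0) (hu : R u) (hu' : R u⁻¹)
    (h : ∀ r, R r → a (u * r) = τ * a r) (i : ℤ) :
    R (u ^ i) ∧ ∀ r, R r → a (u ^ i * r) = τ ^ i * a r := by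
  induction i using Int.induction_on with
  | zero => simpa using h1
  | succ i ih =>
    rw [zpow_add_one₀ u0, zpow_add_one₀ τ0]
    refine ⟨hm _ _ ih.1 hu, fun r hr => ?_⟩
    rw [mul_assoc, ih.2 _ (hm _ _ hu hr), h r hr, mul_assoc]
  | pred i ih =>
    rw [zpow_sub_one₀ u0, zpow_sub_one₀ τ0]
    refine ⟨hm _ _ ih.1 hu', fun r hr => ?_⟩
    have := h _ (hm _ _ hu' hr)
    rw [mul_inv_cancel_left₀ u0] at this
    rw [mul_assoc, ih.2 _ (hm _ _ hu' hr), this, mul_assoc, inv_mul_cancel_left₀ τ0]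

omit [DecidableEq F] in
/-- approximate Kronecker lemma -/
theorem kronAbs {H : Set F} {c : F} (h0 : (0 : F) ∈ H) (hn : ∀ h ∈ H, -h ∈ H)
    (hadd : Sm H (H + H)) (c0 : c ≠ 0) (c1 : c ≠ 1) (cN : c ^ 2 - c + 1 ≠ 0)
    (m1 : Sm H (c • H)) (m2 : Sm H (c⁻¹ • H)) (m3 : Sm H ((1 - c)⁻¹ • H))
    (m4 : Sm H ((c ^ 2 - c + 1)⁻¹ • H))
    (hAP : ∀ m0 : ℕ, ∃ (x : F) (m : ℕ), x ∉ nS H m0 ∧ ∀ M : ℕ, 1 ≤ M →
      ∃ g : F, (M : F) * g = x ∧ ∀ j : ℕ, j ≤ M → (j : F) * g ∈ nS H m) :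
    ∃ (σ : ℂ) (C0 : ℝ), σ ≠ 0 ∧ σ ≠ 1 ∧ σ ^ 2 - σ + 1 ≠ 0 ∧
      ∀ (a b : ℤ) (T : Finset F) (Y : Set F), (∀ h ∈ H, ∃ t ∈ T, h - t ∈ Y) →
        (∀ y ∈ Y, c ^ a * (1 - c) ^ b * y ∈ H + H) → ‖σ‖ ^ a * ‖1 - σ‖ ^ b ≤ C0 * T.card := by
  classical
  obtain ⟨m0, hm0⟩ := exists_functional h0 hn hadd
  obtain ⟨x, m, hx0, hx⟩ := hAP m0
  have hxm : x ∈ nS H m := by
    obtain ⟨g, a1, a2⟩ := hx 1 le_rfl
    exact a1 ▸ a2 1 le_rfl
  obtain ⟨φr, b1, b2⟩ := hm0 x m hxm hx0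
  let φ0 : F →+ ℂ := Complex.ofRealHom.toAddMonoidHom.comp φr
  have hφ0 : φ0 ∈ OKronV H := ⟨1, fun h hh => by simpa [φ0] using b1 h hh⟩
  obtain ⟨Fm, hFm⟩ := Sm.nS h0 hadd m
  have hz := nS_zero_mem h0 m
  let W : Submodule ℂ (F →+ ℂ) :=
    { carrier := {φ | ∀ r, Sm H (r • H) → φ (r * x) = 0}
      add_mem' := fun {φ ψ} h1 h2 r hr => by
        rw [AddMonoidHom.add_apply, h1 r hr, h2 r hr, add_zero]
      zero_mem' := fun r _ => rfl
      smul_mem' := fun a φ h r hr => by rw [AddMonoidHom.smul_apply, h r hr, smul_zero] }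
  obtain ⟨T0, hT0⟩ := id hadd
  obtain ⟨P, hP, hP0⟩ := OKron_dep T0 (OKronA c) φ0
  have hPV : Polynomial.aeval (OKronA c) P φ0 ∈ OKronV H := by
    rw [Polynomial.aeval_eq_sum_range, LinearMap.sum_apply]
    refine Submodule.sum_mem _ fun j _ => Submodule.smul_mem _ _ ?_
    induction j with
    | zero => exact hφ0
    | succ j ih => rw [pow_succ', Module.End.mul_apply]; exact OKronA_mem m1 (ih (by simp_all; omega))
  have hPW : Polynomial.aeval (OKronA c) P φ0 ∈ W := by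
    intro r hr
    have hH := OKron_zero hT0 hPV hP0
    generalize Polynomial.aeval (OKronA c) P φ0 = Φ at *
    obtain ⟨T, hT⟩ := hr
    have := OKron_pigeon hz hx (OKronA r Φ) (Fm ×ˢ T) (fun u => Φ (r * u.1 + u.2)) 0 (by
      intro y hy
      obtain ⟨f, a1, a2⟩ := hFm y hy
      obtain ⟨t, a3, a4⟩ := hT _ ⟨_, a2, rfl⟩
      refine ⟨(f, t), mem_product.2 ⟨a1, a3⟩, ?_⟩
      have e : r * y - (r * f + t) = r • (y - f) - t := by rw [smul_eq_mul]; ring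
      rw [OKronA_apply, ← map_sub, e, hH _ a4, norm_zero])
    simpa [OKronA_apply] using this
  obtain ⟨φ, hV, hW, σ, hσ⟩ := OKron_peel (OKronA c) (OKronV H) W (fun φ h => OKronA_mem m1 h) _
    P hP rfl φ0 hφ0 (fun h => b2 (by simpa [φ0] using h 1 (OKron_one h0))) hPW
  obtain ⟨r0, hr0, hr1⟩ : ∃ r, Sm H (r • H) ∧ φ (r * x) ≠ 0 := by
    by_contra h
    exact hW fun r hr => by_contra fun h' => h ⟨r, hr, h'⟩
  have e1 : ∀ r, Sm H (r • H) → φ (c * r * x) = σ * φ (r * x) := fun r hr => by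
    have := hσ r hr
    rw [AddMonoidHom.sub_apply, AddMonoidHom.smul_apply, OKronA_apply, sub_eq_zero] at this
    rw [mul_assoc, this, smul_eq_mul]
  have e2 : ∀ r, Sm H (r • H) → φ ((1 - c) * r * x) = (1 - σ) * φ (r * x) := fun r hr => by
    rw [sub_mul, sub_mul, one_mul, map_sub, e1 r hr]; ring
  have e3 : ∀ r, Sm H (r • H) →
      φ ((c ^ 2 - c + 1) * r * x) = (σ ^ 2 - σ + 1) * φ (r * x) := fun r hr => by
    have : (c ^ 2 - c + 1) * r * x = c * (c * r) * x - c * r * x + r * x := by ring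
    rw [this, map_add, map_sub, e1 _ (OKron_mul m1 hr), e1 r hr]; ring
  have c1' : 1 - c ≠ 0 := sub_ne_zero.2 c1.symm
  have s0 : σ ≠ 0 := fun h => hr1 (by
    have := e1 _ (OKron_mul m2 hr0)
    rwa [mul_inv_cancel_left₀ c0, h, zero_mul] at this)
  have s1 : 1 - σ ≠ 0 := fun h => hr1 (by
    have := e2 _ (OKron_mul m3 hr0)
    rwa [mul_inv_cancel_left₀ c1', h, zero_mul] at this)
  have sN : σ ^ 2 - σ + 1 ≠ 0 := fun h => hr1 (by
    have := e3 _ (OKron_mul m4 hr0)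
    rwa [mul_inv_cancel_left₀ cN, h, zero_mul] at this)
  obtain ⟨B, hB⟩ := OKronA_mem hr0 hV
  have hp := norm_pos_iff.2 hr1
  refine ⟨σ, 4 * B * Fm.card / ‖φ (r0 * x)‖, s0, fun h => s1 (by rw [h, sub_self]), sN,
    fun a b T Y hT hY => ?_⟩
  obtain ⟨-, f1⟩ := OKron_zpow (R := fun r => Sm H (r • H)) (fun _ _ => OKron_mul) (OKron_one h0)
    (fun r => φ (r * x)) c0 s0 m1 m2 e1 a
  obtain ⟨f2, f3⟩ := OKron_zpow (R := fun r => Sm H (r • H)) (fun _ _ => OKron_mul) (OKron_one h0)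
    (fun r => φ (r * x)) c1' s1 (OKron_sub hn hadd m1) m3 e2 b
  have := OKron_pigeon hz hx (OKronA (c ^ a * (1 - c) ^ b) (OKronA r0 φ)) (Fm ×ˢ T)
    (fun u => OKronA (c ^ a * (1 - c) ^ b) (OKronA r0 φ) (u.1 + u.2)) (2 * B) (by
      intro y hy
      obtain ⟨f, a1, a2⟩ := hFm y hy
      obtain ⟨t, a3, a4⟩ := hT _ a2
      obtain ⟨h1, a5, h2, a6, a7⟩ := hY _ a4
      refine ⟨(f, t), mem_product.2 ⟨a1, a3⟩, ?_⟩
      rw [← map_sub, ← sub_sub, OKronA_apply, ← a7, map_add, two_mul]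
      exact (norm_add_le _ _).trans (add_le_add (hB _ a5) (hB _ a6)))
  have e4 : r0 * (c ^ a * (1 - c) ^ b * x) = c ^ a * ((1 - c) ^ b * r0) * x := by ring
  rw [OKronA_apply, OKronA_apply, e4, f1 _ (OKron_mul f2 hr0), f3 _ hr0, norm_mul, norm_mul,
    norm_zpow, norm_zpow, card_product] at this
  rw [div_mul_eq_mul_div, le_div_iff₀ hp]
  push_cast at this
  linarith

lemma OKron_exp (C d : ℝ) (hd : 0 < d) : ∃ n : ℕ, C * (n + 1) < Real.exp (n * d) := by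
  obtain ⟨n, hn⟩ := exists_nat_gt (4 * |C| / d ^ 2 + 1)
  have h0 : 0 ≤ 4 * |C| / d ^ 2 := by positivity
  have h1 : 4 * |C| < n * d ^ 2 := by
    rw [← div_lt_iff₀ (by positivity)]; linarith
  have h2 : (1 : ℝ) < n := by linarith
  refine ⟨n, lt_of_lt_of_le ?_ (Real.quadratic_le_exp_of_nonneg (by positivity))⟩
  have h3 := le_abs_self C
  have h4 := abs_nonneg C
  have h5 : 0 < (n : ℝ) * d := by positivity
  nlinarith

/-- the numerical end of the argument -/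
theorem kron_num {σ : ℂ} {C : ℝ} (h0 : σ ≠ 0) (h1 : σ ≠ 1) (hN : σ ^ 2 - σ + 1 ≠ 0)
    (P : ℕ → ℤ → ℤ → Prop)
    (hP : ∀ n a b, P n a b → ‖σ‖ ^ a * ‖1 - σ‖ ^ b ≤ C * (n + 1) ∧
      ‖σ‖ ^ (-a) * ‖1 - σ‖ ^ (-b) ≤ C * (n + 1))
    (p1 : ∀ n : ℕ, ∃ i : ℕ, i ≤ n ∧ P n i ((n : ℤ) - i))
    (p2 : ∀ n : ℕ, ∃ i : ℕ, i ≤ n ∧ P n ((n : ℤ) - i) (-(n : ℤ)))
    (p3 : ∀ n : ℕ, ∃ i : ℕ, i ≤ n ∧ P n (-(n : ℤ)) i) : False := by
  have a0 := norm_pos_iff.2 h0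
  have b0 := norm_pos_iff.2 (sub_ne_zero.2 h1.symm)
  obtain ⟨al, hal⟩ : ∃ al, ‖σ‖ = Real.exp al := ⟨_, (Real.exp_log a0).symm⟩
  obtain ⟨bt, hbt⟩ : ∃ bt, ‖1 - σ‖ = Real.exp bt := ⟨_, (Real.exp_log b0).symm⟩
  have hz : ∀ (u : ℝ) (a : ℤ), Real.exp u ^ a = Real.exp (a * u) := fun u a => by
    rw [mul_comm, Real.exp_mul, Real.rpow_intCast]
  have key : ∀ d : ℝ, 0 < d → ∃ n : ℕ, ∀ a b : ℤ, P n a b →
      a * al + b * bt < n * d ∧ -(a * al + b * bt) < n * d := fun d hd => by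
    obtain ⟨n, hn⟩ := OKron_exp C d hd
    refine ⟨n, fun a b h => ?_⟩
    obtain ⟨u1, u2⟩ := hP n a b h
    rw [hal, hbt, hz, hz, ← Real.exp_add] at u1 u2
    refine ⟨Real.exp_lt_exp.1 (u1.trans_lt hn), ?_⟩
    have := Real.exp_lt_exp.1 (u2.trans_lt hn)
    push_cast at this
    linarith
  rcases lt_trichotomy bt 0 with hb | hb | hb
  · rcases lt_or_ge al 0 with ha | ha
    · obtain ⟨n, hn⟩ := key (min (-al) (-bt)) (lt_min (by linarith) (by linarith))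
      obtain ⟨i, hi, h⟩ := p1 n
      have := (hn _ _ h).2
      have hi' : (i : ℝ) ≤ n := by exact_mod_cast hi
      push_cast at this
      nlinarith [min_le_left (-al) (-bt), min_le_right (-al) (-bt), Nat.cast_nonneg (α := ℝ) i]
    · obtain ⟨n, hn⟩ := key (-bt) (by linarith)
      obtain ⟨i, hi, h⟩ := p2 n
      have := (hn _ _ h).1
      have hi' : (i : ℝ) ≤ n := by exact_mod_cast hi
      push_cast at this
      nlinarith
  · subst hb
    rcases lt_trichotomy al 0 with ha | ha | ha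
    · obtain ⟨n, hn⟩ := key (-al) (by linarith)
      obtain ⟨i, -, h⟩ := p3 n
      have := (hn _ _ h).1
      push_cast at this
      linarith
    · subst ha
      rw [Real.exp_zero] at hal hbt
      have q1 : σ.re * σ.re + σ.im * σ.im = 1 := by
        rw [← Complex.normSq_apply, Complex.normSq_eq_norm_sq, hal, one_pow]
      have q2 : (1 - σ).re * (1 - σ).re + (1 - σ).im * (1 - σ).im = 1 := by
        rw [← Complex.normSq_apply, Complex.normSq_eq_norm_sq, hbt, one_pow]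
      simp only [Complex.sub_re, Complex.sub_im, Complex.one_re, Complex.one_im] at q2
      have q3 : σ.re = 1 / 2 := by nlinarith
      apply hN
      apply Complex.ext <;> simp [pow_two, q3] <;> nlinarith
    · obtain ⟨n, hn⟩ := key al ha
      obtain ⟨i, -, h⟩ := p3 n
      have := (hn _ _ h).2
      push_cast at this
      linarith
  · rcases lt_or_ge 0 al with ha | ha
    · obtain ⟨n, hn⟩ := key (min al bt) (lt_min ha hb)
      obtain ⟨i, hi, h⟩ := p1 n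
      have := (hn _ _ h).1
      have hi' : (i : ℝ) ≤ n := by exact_mod_cast hi
      push_cast at this
      nlinarith [min_le_left al bt, min_le_right al bt, Nat.cast_nonneg (α := ℝ) i]
    · obtain ⟨n, hn⟩ := key bt hb
      obtain ⟨i, hi, h⟩ := p2 n
      have := (hn _ _ h).2
      have hi' : (i : ℝ) ≤ n := by exact_mod_cast hi
      push_cast at this
      nlinarith

end Pool.Agent.P.MP_862e21_al
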