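import Pool.Agent.P.MP_862e21_al.OKron
import Pool.Agent.P.MP_862e21_al.OAp
import Pool.Agent.P.MP_862e21_al.Ultra
import Pool.Agent.P.MP_862e21_al.OBasic

namespace Pool.Agent.P.MP_862e21_al

open Finset Pointwise

section ultra

variable {E : ℕ → Type} [∀ i, Field (E i)] {L : Type} [Field L]
  (U : Ultrafilter ℕ) (π : (∀ i, E i) →+* L)

/-- the internal set of a family of sets -/
def okronU_St (S : ∀ i, Set (E i)) : Set L := {x | ∃ f, π f = x ∧ ∀ᶠ i in (U : Filter ℕ), f i ∈ S i}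

variable {U π}

theorem okronU_mem (hπ : ∀ f g, π f = π g ↔ ∀ᶠ i in (U : Filter ℕ), f i = g i)
    {S : ∀ i, Set (E i)} {f : ∀ i, E i} :
    π f ∈ okronU_St U π S ↔ ∀ᶠ i in (U : Filter ℕ), f i ∈ S i := by
  refine ⟨fun ⟨g, h1, h2⟩ => ?_, fun h => ⟨f, rfl, h⟩⟩
  filter_upwards [(hπ _ _).1 h1, h2] with i e hi
  exact e ▸ hi

theorem okronU_mono {S S' : ∀ i, Set (E i)} (h : ∀ᶠ i in (U : Filter ℕ), S i ⊆ S' i) :
    okronU_St U π S ⊆ okronU_St U π S' := by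
  rintro _ ⟨f, rfl, hf⟩
  refine ⟨f, rfl, ?_⟩
  filter_upwards [h, hf] with i h1 h2
  exact h1 h2

theorem okronU_add (hπ : ∀ f g, π f = π g ↔ ∀ᶠ i in (U : Filter ℕ), f i = g i)
    (A B : ∀ i, Set (E i)) :
    okronU_St U π (fun i => A i + B i) = okronU_St U π A + okronU_St U π B := by
  apply Set.Subset.antisymm
  · rintro _ ⟨f, rfl, hf⟩
    have h1 : ∀ᶠ i in (U : Filter ℕ), ∃ a, a ∈ A i ∧ f i - a ∈ B i := by
      filter_upwards [hf] with i hi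
      obtain ⟨a, ha, b, hb, e⟩ := Set.mem_add.1 hi
      exact ⟨a, ha, by rw [← e]; simpa using hb⟩
    obtain ⟨a, ha⟩ := Filter.skolem.1 h1
    refine Set.mem_add.2 ⟨π a, (okronU_mem hπ).2 (ha.mono fun i hi => hi.1), π (f - a),
      (okronU_mem hπ).2 (ha.mono fun i hi => hi.2), by simp⟩
  · rintro _ ⟨_, ⟨a, rfl, ha⟩, _, ⟨b, rfl, hb⟩, rfl⟩
    refine ⟨a + b, by simp, ?_⟩
    filter_upwards [ha, hb] with i h1 h2
    exact Set.add_mem_add h1 h2

theorem okronU_smul (hπ : ∀ f g, π f = π g ↔ ∀ᶠ i in (U : Filter ℕ), f i = g i)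
    (c : ∀ i, E i) (A : ∀ i, Set (E i)) :
    okronU_St U π (fun i => c i • A i) = π c • okronU_St U π A := by
  apply Set.Subset.antisymm
  · rintro _ ⟨f, rfl, hf⟩
    have h1 : ∀ᶠ i in (U : Filter ℕ), ∃ a, a ∈ A i ∧ c i * a = f i := by
      filter_upwards [hf] with i hi
      exact hi
    obtain ⟨a, ha⟩ := Filter.skolem.1 h1
    refine ⟨π a, (okronU_mem hπ).2 (ha.mono fun i hi => hi.1), ?_⟩
    change π c * π a = π f
    rw [← map_mul, hπ]
    exact ha.mono fun i hi => hi.2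
  · rintro _ ⟨_, ⟨a, rfl, ha⟩, rfl⟩
    refine ⟨c * a, by simp, ?_⟩
    filter_upwards [ha] with i h1
    exact ⟨a i, h1, rfl⟩

theorem okronU_nS (hπ : ∀ f g, π f = π g ↔ ∀ᶠ i in (U : Filter ℕ), f i = g i)
    (A : ∀ i, Set (E i)) (m : ℕ) :
    okronU_St U π (fun i => nS (A i) m) = nS (okronU_St U π A) m := by
  induction m with
  | zero =>
    ext x
    simp only [nS, Set.mem_singleton_iff]
    constructor
    · rintro ⟨f, rfl, hf⟩
      rw [← map_zero π, hπ]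
      exact hf
    · rintro rfl
      exact ⟨0, map_zero π, Filter.Eventually.of_forall fun _ => rfl⟩
  | succ m ih =>
    simp only [nS]
    rw [okronU_add hπ, ih]

theorem okronU_inv (hπ : ∀ f g, π f = π g ↔ ∀ᶠ i in (U : Filter ℕ), f i = g i)
    (f : ∀ i, E i) : π f⁻¹ = (π f)⁻¹ := by
  by_cases h0 : π f = π 0
  · have h1 : π f⁻¹ = π 0 := by
      rw [hπ] at h0 ⊢
      filter_upwards [h0] with i hi
      simpa using hi
    rw [h0, h1, map_zero, inv_zero]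
  · refine eq_inv_of_mul_eq_one_left ?_
    rw [← map_mul, ← map_one π, hπ]
    filter_upwards [Ultrafilter.eventually_not.2 (mt (hπ f 0).2 h0)] with i hi
    exact inv_mul_cancel₀ hi

theorem okronU_cov [∀ i, DecidableEq (E i)]
    (hπ : ∀ f g, π f = π g ↔ ∀ᶠ i in (U : Filter ℕ), f i = g i)
    {J : ℕ} {X Y : ∀ i, Finset (E i)} (h : ∀ᶠ i in (U : Filter ℕ), Cov J (Y i) (X i)) :
    ∃ T : Finset L, T.card ≤ J ∧ ∀ x ∈ okronU_St U π (fun i => (X i : Set (E i))),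
      ∃ t ∈ T, x - t ∈ okronU_St U π (fun i => (Y i : Set (E i))) := by
  classical
  have h1 : ∀ᶠ i in (U : Filter ℕ), ∃ a : Fin J → E i, ∀ x ∈ X i, ∃ j, x - a j ∈ Y i := by
    filter_upwards [h] with i ⟨T, hT, hX⟩
    rcases T.eq_empty_or_nonempty with rfl | hne
    · exact ⟨0, fun x hx => by simpa using hX hx⟩
    · obtain ⟨a, -, ha⟩ := ultra_enum hne hT
      refine ⟨a, fun x hx => ?_⟩
      obtain ⟨t, ht, y, hy, e⟩ := mem_add.1 (hX hx)
      obtain ⟨j, rfl⟩ := ha t ht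
      exact ⟨j, by rw [← e]; simpa using hy⟩
  obtain ⟨a, ha⟩ := Filter.skolem.1 h1
  refine ⟨univ.image fun j => π fun i => a i j, card_image_le.trans (by simp), ?_⟩
  rintro _ ⟨f, rfl, hf⟩
  have h2 : ∀ᶠ i in (U : Filter ℕ), ∃ j, f i - a i j ∈ Y i := by
    filter_upwards [ha, hf] with i h3 h4
    exact h3 _ h4
  obtain ⟨j, hj⟩ := Ultrafilter.eventually_exists_iff.1 h2
  refine ⟨_, mem_image_of_mem _ (mem_univ j), ?_⟩
  rw [← map_sub]
  exact (okronU_mem hπ).2 hj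

theorem okronU_sm [∀ i, DecidableEq (E i)]
    (hπ : ∀ f g, π f = π g ↔ ∀ᶠ i in (U : Filter ℕ), f i = g i)
    {J : ℕ} {H : ∀ i, Finset (E i)} (r : ∀ i, E i) (h : ∀ i, Cov J (H i) (r i • H i)) :
    Sm (okronU_St U π fun i => (H i : Set (E i)))
      (π r • okronU_St U π fun i => (H i : Set (E i))) := by
  obtain ⟨T, -, hT⟩ := okronU_cov hπ (Filter.Eventually.of_forall h)
  refine ⟨T, fun x hx => hT x ?_⟩
  simp only [coe_smul_finset]
  rwa [okronU_smul hπ]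

theorem okronU_ap [∀ i, DecidableEq (E i)] [∀ i, Fintype (E i)]
    (hπ : ∀ f g, π f = π g ↔ ∀ᶠ i in (U : Filter ℕ), f i = g i) (hU : (U : Filter ℕ) ≤ Filter.atTop)
    {K : ℕ} {c : ∀ i, E i} {H : ∀ i, Finset (E i)} (hp : ∀ i, (Fintype.card (E i)).Prime)
    (hH : ∀ i, AG K (c i) (H i)) (h1 : ∀ i, i ≤ (H i).card)
    (h2 : ∀ i, i * (H i).card ≤ Fintype.card (E i)) (m0 : ℕ) :
    ∃ (x : L) (m : ℕ), x ∉ nS (okronU_St U π fun i => (H i : Set (E i))) m0 ∧ ∀ M : ℕ, 1 ≤ M →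
      ∃ g : L, (M : L) * g = x ∧ ∀ j : ℕ, j ≤ M →
        (j : L) * g ∈ nS (okronU_St U π fun i => (H i : Set (E i))) m := by
  classical
  let P : ℕ → ℕ → Prop := fun k n => K ^ ((n.factorial + 1) ^ 2) < k ∧ n < k
  let n : ℕ → ℕ := fun k => Nat.findGreatest (P k) k
  have hn : ∀ M, ∀ᶠ k in (U : Filter ℕ), M ≤ n k ∧ P k (n k) := by
    intro M
    filter_upwards [hU (Filter.eventually_gt_atTop (K ^ ((M.factorial + 1) ^ 2))),
      hU (Filter.eventually_gt_atTop M)] with k a1 a2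
    have a3 : P k M := ⟨a1, a2⟩
    exact ⟨Nat.le_findGreatest (le_of_lt a2) a3, Nat.findGreatest_spec (le_of_lt a2) a3⟩
  have hx : ∀ᶠ k in (U : Filter ℕ), ∃ x : E k, x ∉ nS (H k : Set (E k)) m0 ∧
      ∀ M : ℕ, 1 ≤ M → M ≤ n k → ∃ g : E k, (M : E k) * g = x ∧
        ∀ j : ℕ, j ≤ M → (j : E k) * g ∈ nS (H k : Set (E k)) (m0 + 4) := by
    filter_upwards [hn 0, hU (Filter.eventually_gt_atTop (K ^ m0))] with k a1 a2
    have a3 : 0 < (H k).card := card_pos.2 ⟨0, (hH k).zero⟩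
    have a2' : K ^ m0 < k := a2
    refine ap_fin (hp k) (hH k).zero (hH k).neg (hH k).add (a1.2.1.trans_le (h1 k))
      (((Nat.mul_lt_mul_right a3).2 a2').trans_le (h2 k)) ?_
    exact a1.2.2.trans_le ((Nat.le_mul_of_pos_right k a3).trans (h2 k))
  obtain ⟨x, hx⟩ := Filter.skolem.1 hx
  refine ⟨π x, m0 + 4, ?_, fun M hM => ?_⟩
  · rw [← okronU_nS hπ, okronU_mem hπ]
    intro h
    obtain ⟨k, a1, a2⟩ := (h.and hx).exists
    exact a2.1 a1
  · have hg : ∀ᶠ k in (U : Filter ℕ), ∃ g : E k, (M : E k) * g = x k ∧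
        ∀ j : ℕ, j ≤ M → (j : E k) * g ∈ nS (H k : Set (E k)) (m0 + 4) := by
      filter_upwards [hx, hn M] with k a1 a2
      exact a1.2 M hM a2.1
    obtain ⟨g, hg⟩ := Filter.skolem.1 hg
    refine ⟨π g, ?_, fun j hj => ?_⟩
    · rw [← map_natCast π, ← map_mul, hπ]
      exact hg.mono fun k hk => hk.1
    · rw [← okronU_nS hπ, ← map_natCast π, ← map_mul, okronU_mem hπ]
      exact hg.mono fun k hk => hk.2 j hj

theorem okronU_alg2 {g : L} (h : 1 - g ≠ 0) (i m : ℕ) :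
    (1 - g)⁻¹ ^ i * (1 - (1 - g)⁻¹) ^ m =
        g ^ (((i + m : ℕ) : ℤ) - i) * (1 - g) ^ (-((i + m : ℕ) : ℤ)) ∨
      (1 - g)⁻¹ ^ i * (1 - (1 - g)⁻¹) ^ m =
        -(g ^ (((i + m : ℕ) : ℤ) - i) * (1 - g) ^ (-((i + m : ℕ) : ℤ))) := by
  rw [show 1 - (1 - g)⁻¹ = -1 * (g * (1 - g)⁻¹) by field_simp; ring,
    show ((i + m : ℕ) : ℤ) - i = m by push_cast; ring, zpow_neg, zpow_natCast,
    zpow_natCast, ← inv_pow, mul_pow, mul_pow, pow_add]
  generalize (1 - g)⁻¹ = u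
  rcases neg_one_pow_eq_or L m with a3 | a3 <;> rw [a3]
  · left; ring
  · right; ring

theorem okronU_alg3 {g : L} (h : g ≠ 0) (i m : ℕ) :
    ((g - 1) * g⁻¹) ^ i * (1 - (g - 1) * g⁻¹) ^ m =
        g ^ (-((i + m : ℕ) : ℤ)) * (1 - g) ^ (i : ℤ) ∨
      ((g - 1) * g⁻¹) ^ i * (1 - (g - 1) * g⁻¹) ^ m =
        -(g ^ (-((i + m : ℕ) : ℤ)) * (1 - g) ^ (i : ℤ)) := by
  rw [show 1 - (g - 1) * g⁻¹ = g⁻¹ by field_simp; ring,
    show (g - 1) * g⁻¹ = -1 * ((1 - g) * g⁻¹) by ring, zpow_neg, zpow_natCast, zpow_natCast,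
    ← inv_pow, mul_pow, mul_pow, pow_add]
  generalize g⁻¹ = u
  generalize 1 - g = v
  rcases neg_one_pow_eq_or L i with a3 | a3 <;> rw [a3]
  · left; ring
  · right; ring

end ultra

variable {F : Type*} [Field F] [DecidableEq F]

theorem kron (K : ℕ) : ∃ N : ℕ, ∀ (F : Type) [Field F] [Fintype F] [DecidableEq F],
    (Fintype.card F).Prime → ∀ (c : F) (H : Finset F), c ≠ 0 → c ≠ 1 → c ^ 2 - c + 1 ≠ 0 →
      AG K c H → N ≤ H.card → N * H.card ≤ Fintype.card F →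
      (∀ n ≤ N, ∀ t ∈ Lp c, ∃ i ≤ n, Dr (K * (n + 1)) H (t ^ i * (1 - t) ^ (n - i))) → False := by
  by_contra hne
  have h : ∀ N : ℕ, ∃ (F : Type) (_ : Field F) (_ : Fintype F) (_ : DecidableEq F) (c : F)
      (H : Finset F), (Fintype.card F).Prime ∧ c ≠ 0 ∧ c ≠ 1 ∧ c ^ 2 - c + 1 ≠ 0 ∧ AG K c H ∧
        N ≤ H.card ∧ N * H.card ≤ Fintype.card F ∧
        ∀ n ≤ N, ∀ t ∈ Lp c, ∃ i ≤ n, Dr (K * (n + 1)) H (t ^ i * (1 - t) ^ (n - i)) := by
    intro N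
    by_contra h1
    exact hne ⟨N, fun F i1 i2 i3 h2 c H h3 h4 h5 h6 h7 h8 h9 =>
      h1 ⟨F, i1, i2, i3, c, H, h2, h3, h4, h5, h6, h7, h8, h9⟩⟩
  choose E i1 i2 i3 c H hp c0 c1 cN hH h1 h2 hD using h
  obtain ⟨L, _, π, hπ⟩ := ultra_field E (Filter.hyperfilter ℕ)
  have hU : ((Filter.hyperfilter ℕ : Ultrafilter ℕ) : Filter ℕ) ≤ Filter.atTop :=
    Nat.hyperfilter_le_atTop
  generalize Filter.hyperfilter ℕ = U at hπ hU
  have hne' : ∀ f g, (∀ i, f i ≠ g i) → π f ≠ π g := fun f g a1 a2 => by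
    obtain ⟨i, hi⟩ := ((hπ f g).1 a2).exists
    exact a1 i hi
  have g0 : π c ≠ 0 := map_zero π ▸ hne' c 0 c0
  have g1 : π c ≠ 1 := map_one π ▸ hne' c 1 c1
  have g1' : 1 - π c ≠ 0 := sub_ne_zero.2 g1.symm
  have eN : π (c ^ 2 - c + 1) = π c ^ 2 - π c + 1 := by simp
  have gN : π c ^ 2 - π c + 1 ≠ 0 := by
    rw [← eN, ← map_zero π]
    exact hne' _ 0 cN
  have e1 : π (1 - c) = 1 - π c := by simp
  have hHH : okronU_St U π (fun i => ((H i + H i : Finset (E i)) : Set (E i))) =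
      okronU_St U π (fun i => (H i : Set (E i))) + okronU_St U π fun i => (H i : Set (E i)) := by
    simp only [coe_add]
    exact okronU_add hπ _ _
  have hneg : ∀ x ∈ okronU_St U π (fun i => (H i : Set (E i))),
      -x ∈ okronU_St U π fun i => (H i : Set (E i)) := by
    rintro _ ⟨f, rfl, hf⟩
    exact ⟨-f, map_neg π f, hf.mono fun i hi => (hH i).neg _ hi⟩
  have hadd : Sm (okronU_St U π fun i => (H i : Set (E i)))
      (okronU_St U π (fun i => (H i : Set (E i))) + okronU_St U π fun i => (H i : Set (E i))) := by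
    obtain ⟨T, -, hT⟩ := okronU_cov hπ (Filter.Eventually.of_forall fun i => (hH i).add)
    exact ⟨T, fun x hx => hT x (hHH ▸ hx)⟩
  have m2 := okronU_sm hπ (J := K) (H := H) c⁻¹ fun i => by
    simpa only [Pi.inv_apply] using (hH i).m2
  have m3 := okronU_sm hπ (J := K) (H := H) (1 - c)⁻¹ fun i => by
    simpa only [Pi.inv_apply, Pi.sub_apply, Pi.one_apply] using (hH i).m3
  have m4 := okronU_sm hπ (J := K) (H := H) (c ^ 2 - c + 1)⁻¹ fun i => by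
    simpa only [Pi.inv_apply, Pi.sub_apply, Pi.one_apply, Pi.add_apply, Pi.pow_apply]
      using (hH i).m4
  rw [okronU_inv hπ] at m2 m3 m4
  rw [e1] at m3
  rw [eN] at m4
  obtain ⟨σ, C0, s0, s1, sN, hσ⟩ := kronAbs
    (⟨0, map_zero π, Filter.Eventually.of_forall fun i => (hH i).zero⟩ :
      (0 : L) ∈ okronU_St U π fun i => (H i : Set (E i))) hneg hadd g0 g1 gN
    (okronU_sm hπ c fun i => (hH i).m1) m2 m3 m4 (okronU_ap hπ hU hp hH h1 h2)
  have hneg2 : ∀ x ∈ okronU_St U π (fun i => (H i : Set (E i))) +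
      okronU_St U π fun i => (H i : Set (E i)), -x ∈ okronU_St U π (fun i => (H i : Set (E i))) +
      okronU_St U π fun i => (H i : Set (E i)) := by
    rintro _ ⟨a, ha, b, hb, rfl⟩
    exact ⟨-a, hneg a ha, -b, hneg b hb, by ring⟩
  have hsel : ∀ τ : ∀ i, E i, (∀ i, τ i ∈ Lp (c i)) → ∀ n : ℕ, ∃ i m : ℕ, n = i + m ∧
      ∃ ρ : ∀ i, E i, (∀ᶠ k in (U : Filter ℕ), Dr (K * (n + 1)) (H k) (ρ k)) ∧
        π ρ = π τ ^ i * (1 - π τ) ^ m := by
    intro τ hτ n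
    have a1 : ∀ᶠ k in (U : Filter ℕ), ∃ i : Fin (n + 1),
        Dr (K * (n + 1)) (H k) (τ k ^ (i : ℕ) * (1 - τ k) ^ (n - i)) := by
      filter_upwards [hU (Filter.eventually_ge_atTop n)] with k hk
      obtain ⟨i, hi, a2⟩ := hD k n hk _ (hτ k)
      exact ⟨⟨i, by omega⟩, a2⟩
    obtain ⟨i, hi⟩ := Ultrafilter.eventually_exists_iff.1 a1
    exact ⟨i, n - i, by omega, τ ^ (i : ℕ) * (1 - τ) ^ (n - i), hi, by simp⟩
  have hk := kron_num (C := |C0| * K) s0 s1 sN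
    (fun (n : ℕ) (a b : ℤ) => ∃ ρ : ∀ i, E i,
      (∀ᶠ k in (U : Filter ℕ), Dr (K * (n + 1)) (H k) (ρ k)) ∧
      (π ρ = π c ^ a * (1 - π c) ^ b ∨ π ρ = -(π c ^ a * (1 - π c) ^ b)))
  refine hk ?_ ?_ ?_ ?_
  · rintro n a b ⟨ρ, hρ, hv⟩
    obtain ⟨Y, hY⟩ := Filter.skolem.1 hρ
    have hb : ∀ T : Finset L, T.card ≤ K * (n + 1) → C0 * T.card ≤ |C0| * K * (n + 1) := by
      intro T hT
      have a1 : (T.card : ℝ) ≤ K * (n + 1) := by exact_mod_cast hT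
      rw [mul_assoc]
      exact mul_le_mul (le_abs_self _) a1 (by positivity) (abs_nonneg _)
    have eY : okronU_St U π (fun i => ((ρ i • Y i : Finset (E i)) : Set (E i))) =
        π ρ • okronU_St U π fun i => (Y i : Set (E i)) := by
      simp only [coe_smul_finset]
      exact okronU_smul hπ _ _
    have y1 := okronU_mono (π := π) (hY.mono fun i hi => coe_subset.2 hi.1)
    have y2 := okronU_mono (π := π) (hY.mono fun i hi => coe_subset.2 hi.2.1)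
    rw [hHH] at y1 y2
    rw [eY] at y2
    obtain ⟨T, t1, t2⟩ := okronU_cov hπ (hY.mono fun i hi => hi.2.2.1)
    obtain ⟨T', t3, t4⟩ := okronU_cov hπ (hY.mono fun i hi => hi.2.2.2)
    have r1 := hσ a b T _ t2
    have r2 := hσ (-a) (-b) T' _ t4
    refine ⟨(r1 fun y hy => ?_).trans (hb T t1), (r2 fun y hy => ?_).trans (hb T' t3)⟩
    · have a1 : π ρ * y ∈ _ := y2 ⟨y, hy, rfl⟩
      rcases hv with hv | hv
      · rwa [hv] at a1
      · simpa [hv] using hneg2 _ a1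
    · rw [eY] at hy
      obtain ⟨y, hy, rfl⟩ := hy
      have v0 : π c ^ a * (1 - π c) ^ b ≠ 0 := mul_ne_zero (zpow_ne_zero _ g0) (zpow_ne_zero _ g1')
      rw [zpow_neg, zpow_neg, ← mul_inv]
      change (π c ^ a * (1 - π c) ^ b)⁻¹ * (π ρ * y) ∈ _
      rcases hv with hv | hv
      · rw [hv, inv_mul_cancel_left₀ v0]
        exact y1 hy
      · rw [hv, neg_mul, mul_neg, inv_mul_cancel_left₀ v0]
        exact hneg2 _ (y1 hy)
  · intro n
    obtain ⟨i, m, rfl, ρ, a1, a2⟩ := hsel c (fun i => self_mem_Lp _) n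
    refine ⟨i, by omega, ρ, a1, Or.inl ?_⟩
    rw [a2, show ((i + m : ℕ) : ℤ) - i = m by push_cast; ring, zpow_natCast, zpow_natCast]
  · intro n
    obtain ⟨i, m, rfl, ρ, a1, a2⟩ := hsel (1 - c)⁻¹ (fun i => by simp [mem_Lp]) n
    refine ⟨i, by omega, ρ, a1, ?_⟩
    rw [a2, okronU_inv hπ, e1]
    exact okronU_alg2 g1' i m
  · intro n
    obtain ⟨i, m, rfl, ρ, a1, a2⟩ := hsel ((c - 1) * c⁻¹)
      (fun i => by simp [mem_Lp, div_eq_mul_inv]) n
    refine ⟨i, by omega, ρ, a1, ?_⟩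
    rw [a2, map_mul, okronU_inv hπ, map_sub, map_one]
    exact okronU_alg3 g0 i m

end Pool.Agent.P.MP_862e21_al
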