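import Pool.Agent.P.MP_862e21_al.OBasic
import Pool.Agent.P.MP_862e21_al.Norm

namespace Pool.Agent.P.MP_862e21_al

open Finset Pointwise

variable {F : Type*} [Field F] [DecidableEq F]

theorem olong_two [Fintype F] {c : F} {B C D : Finset F} {u : ℕ} (h : OTrio c B C D)
    (hu : Fintype.card F = B.card + C.card + D.card + u) (hub : u + 1 ≤ B.card) {s s' y : F}
    (hs : s ∈ Lp c) (hs' : s' ∈ Lp c) (hy : y ∈ B) :
    ∃ E : Finset F, E.card + 4 ≤ 4 * B.card ∧
      ∀ z ∈ C, s * (1 - s') * z + (1 - s * (1 - s')) * y ∈ C ∪ E := by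
  classical
  have n0 : ¬ IsSquare s := (h.spl.of_mem hs).n0
  have n1 : ¬ IsSquare (1 - s') := (h.spl.of_mem hs').n1
  have z0 : s ≠ 0 := fun e => n0 (e ▸ IsSquare.zero)
  have z1 : 1 - s' ≠ 0 := fun e => n1 (e ▸ IsSquare.zero)
  obtain ⟨g, hg⟩ : ∃ g : F → F, ∀ z, g z =
      if IsSquare (z - y) then (1 - s) * y + s * z else s' * y + (1 - s') * z := ⟨_, fun _ => rfl⟩
  obtain ⟨W, hW⟩ : ∃ W : Finset F, W = ((C ∪ D)ᶜ).erase y := ⟨_, rfl⟩
  have hyC : y ∉ C := disjoint_left.1 h.dBC hy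
  have hyD : y ∉ D := disjoint_left.1 h.dBD hy
  have cW : W.card + 1 = B.card + u := by
    have e1 : y ∈ (C ∪ D)ᶜ := by simp [hyC, hyD]
    have e2 := card_erase_add_one e1
    have e3 := card_compl (C ∪ D)
    have e4 := card_union_of_disjoint h.dCD
    rw [hW]
    omega
  have hmap : ∀ z ∈ C, g z ∈ C ∪ W := by
    intro z hz
    have e0 : z - y ≠ 0 := sub_ne_zero.2 fun e => hyC (e ▸ hz)
    have e1 : g z ∉ D ∧ g z ≠ y := by
      rw [hg]
      split_ifs with hq
      · exact ⟨h.pos s hs y hy z hz hq, fun e => mul_ne_zero z0 e0 (by linear_combination e)⟩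
      · exact ⟨h.ngt s' hs' y hy z hz hq, fun e => mul_ne_zero z1 e0 (by linear_combination e)⟩
    by_cases hC : g z ∈ C
    · exact mem_union_left _ hC
    · refine mem_union_right _ ?_
      rw [hW]
      simp [hC, e1.1, e1.2]
  have hgg : ∀ z ∈ C, g (g z) = s * (1 - s') * z + (1 - s * (1 - s')) * y := by
    intro z hz
    have e0 : z - y ≠ 0 := sub_ne_zero.2 fun e => hyC (e ▸ hz)
    by_cases hq : IsSquare (z - y)
    · have e1 : g z = (1 - s) * y + s * z := by rw [hg, if_pos hq]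
      have e2 : ¬ IsSquare (g z - y) := by
        rw [show g z - y = s * (z - y) by rw [e1]; ring, sq_mul_iff z0 e0]
        exact fun e => n0 (e.2 hq)
      rw [hg (g z), if_neg e2, e1]
      ring
    · have e1 : g z = s' * y + (1 - s') * z := by rw [hg, if_neg hq]
      have e2 : IsSquare (g z - y) := by
        rw [show g z - y = (1 - s') * (z - y) by rw [e1]; ring, sq_mul_iff z1 e0]
        exact iff_of_false n1 hq
      rw [hg (g z), if_pos e2, e1]
      ring
  refine ⟨W ∪ W.image g, ?_, fun z hz => ?_⟩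
  · have e1 := card_union_le W (W.image g)
    have e2 : (W.image g).card ≤ W.card := card_image_le
    omega
  · rw [← hgg z hz]
    rcases mem_union.1 (hmap z hz) with e | e
    · rcases mem_union.1 (hmap _ e) with e' | e'
      · exact mem_union_left _ e'
      · exact mem_union_right _ (mem_union_left _ e')
    · exact mem_union_right _ (mem_union_right _ (mem_image_of_mem g e))

theorem olong_psi {C E E' : Finset F} {t κ κ' : F} (ht : t ≠ 0)
    (h1 : ∀ z ∈ C, t * z + κ ∈ C ∪ E) (h2 : ∀ z ∈ C, t * z + κ' ∈ C ∪ E') :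
    psi C (κ - κ') ≤ E.card + E'.card := by
  have inj : Function.Injective (fun z : F => t * z + κ') := by
    intro a b e
    simpa [ht] using e
  set G := C.image (fun z : F => t * z + κ') with hG
  have cG : G.card = C.card := card_image_of_injective _ inj
  have e1 : (G \ C).card ≤ E'.card := by
    apply card_le_card
    intro x hx
    obtain ⟨a1, a2⟩ := mem_sdiff.1 hx
    obtain ⟨z, hz, rfl⟩ := mem_image.1 a1
    exact (mem_union.1 (h2 z hz)).resolve_left a2
  have e2 : (C \ G).card = (G \ C).card := card_sdiff_comm cG.symm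
  have e3 : C.filter (fun x => x + (κ - κ') ∉ C) ⊆ (C \ G) ∪ E.image (fun x => x - (κ - κ')) := by
    intro x hx
    obtain ⟨a1, a2⟩ := mem_filter.1 hx
    by_cases hx' : x ∈ G
    · obtain ⟨z, hz, rfl⟩ := mem_image.1 hx'
      have a3 : t * z + κ' + (κ - κ') = t * z + κ := by ring
      rw [a3] at a2
      exact mem_union_right _
        (mem_image.2 ⟨_, (mem_union.1 (h1 z hz)).resolve_left a2, by ring⟩)
    · exact mem_union_left _ (mem_sdiff.2 ⟨a1, hx'⟩)
  have e4 := (card_le_card e3).trans (card_union_le _ _)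
  have e5 : (E.image (fun x => x - (κ - κ'))).card ≤ E.card := card_image_le
  unfold psi
  omega

theorem olongC [Fintype F] (hp : (Fintype.card F).Prime) {c : F} {B C D : Finset F} {u : ℕ}
    (h : OTrio c B C D) (hb : 2 ≤ B.card)
    (hu : Fintype.card F = B.card + C.card + D.card + u) (hcd : C.card ≤ D.card)
    (hub : u + 1 ≤ B.card) (hL : 10 ^ 10 * B.card ≤ C.card) : False := by
  have c0 := h.spl.c0
  have c1 : 1 - c ≠ 0 := sub_ne_zero.2 h.spl.c1.symm
  have ht : c * (1 - c) ≠ 0 := mul_ne_zero c0 c1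
  have hN : 1 - c * (1 - c) ≠ 0 := fun e => h.spl.h3 c (by linear_combination e)
  have hsq : IsSquare (c * (1 - c)) := (sq_mul_iff c0 c1).2 (iff_of_false h.spl.n0 h.spl.n1)
  have ht2 : (c * (1 - c)) ^ 2 ≠ 1 := by
    intro e
    rcases sq_eq_one_iff.1 e with e' | e'
    · exact hN (by rw [e', sub_self])
    · exact h.spl.neg (e' ▸ hsq)
  have hB : B.Nonempty := card_pos.1 (by omega)
  have hZ : 2 * B.card - 1 ≤ ((1 - c * (1 - c)) • (B - B)).card := by
    have e1 := cd hp hB hB.neg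
    rw [card_neg, ← sub_eq_add_neg] at e1
    rw [card_smul_finset₀ hN]
    omega
  obtain ⟨y, hy⟩ := hB
  obtain ⟨E1, a1, b1⟩ := olong_two h hu hub (self_mem_Lp c) (self_mem_Lp c) hy
  obtain ⟨E2, a2, b2⟩ := olong_two h hu hub (s := (1 - c)⁻¹) (s' := (c - 1) / c)
    (mem_Lp.2 (Or.inr (Or.inl rfl))) (mem_Lp.2 (Or.inr (Or.inr rfl))) hy
  have e0 : (1 - c)⁻¹ * (1 - (c - 1) / c) = (c * (1 - c))⁻¹ := by
    field_simp
    ring
  rw [e0] at b2
  refine normLemma hp (C := C) (Z := (1 - c * (1 - c)) • (B - B)) (r := 8 * B.card - 8)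
    (t := c * (1 - c)) (by omega) ht ht2 (by omega) (by omega) (by omega) (fun x hx => ?_)
    (by omega) fun x _ => ⟨?_, ?_⟩
  · obtain ⟨w, hw, rfl⟩ := mem_smul_finset.1 hx
    obtain ⟨y1, hy1, y2, hy2, rfl⟩ := mem_sub.1 hw
    obtain ⟨E3, a3, b3⟩ := olong_two h hu hub (self_mem_Lp c) (self_mem_Lp c) hy1
    obtain ⟨E4, a4, b4⟩ := olong_two h hu hub (self_mem_Lp c) (self_mem_Lp c) hy2
    have := olong_psi ht b3 b4
    rw [← mul_sub] at this
    rw [smul_eq_mul]
    omega
  · have := psi_affine ht b1 x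
    omega
  · have := psi_affine (inv_ne_zero ht) b2 x
    omega

end Pool.Agent.P.MP_862e21_al
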