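import Pool.Agent.P.MP_862e21_al.OBasic
import Pool.Agent.P.MP_862e21_al.Kloo

namespace Pool.Agent.P.MP_862e21_al

open Finset Pointwise

variable {F : Type*} [Field F] [DecidableEq F]

omit [DecidableEq F] in
theorem OTwist_char [Fintype F] (h2 : ¬ IsSquare (-1 : F)) : ringChar F ≠ 2 :=
  fun h => h2 (FiniteField.isSquare_of_char_two h _)

theorem OTwist_conic [Fintype F] (h2 : (2 : F) ≠ 0) {m : F} (hm : m ≠ 0) (f : F → ℂ) :
    ∑ p ∈ (univ : Finset (F × F)).filter (fun p => p.2 ^ 2 = p.1 * (p.1 + m)), f p.1 =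
      ∑ w ∈ univ.erase (0 : F), f ((w + m ^ 2 / 4 * w⁻¹) / 2 - m / 2) := by
  have h4 : (4 : F) ≠ 0 := by
    have : (4 : F) = 2 * 2 := by norm_num
    rw [this]; exact mul_ne_zero h2 h2
  have key : ∀ p : F × F, p.2 ^ 2 = p.1 * (p.1 + m) →
      p.1 + m / 2 - p.2 ≠ 0 ∧ m ^ 2 / 4 * (p.1 + m / 2 - p.2)⁻¹ = p.1 + m / 2 + p.2 := by
    intro p hp
    have e1 : (p.1 + m / 2 - p.2) * (p.1 + m / 2 + p.2) = m ^ 2 / 4 := by
      field_simp
      linear_combination (-16) * hp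
    have n1 : p.1 + m / 2 - p.2 ≠ 0 := by
      intro h0
      rw [h0, zero_mul] at e1
      exact div_ne_zero (pow_ne_zero 2 hm) h4 e1.symm
    refine ⟨n1, ?_⟩
    rw [← e1, mul_comm (p.1 + m / 2 - p.2), mul_assoc, mul_inv_cancel₀ n1, mul_one]
  refine sum_nbij' (fun p => p.1 + m / 2 - p.2)
    (fun w => ((w + m ^ 2 / 4 * w⁻¹) / 2 - m / 2, (m ^ 2 / 4 * w⁻¹ - w) / 2)) ?_ ?_ ?_ ?_ ?_
  · intro p hp
    exact mem_erase.mpr ⟨(key p (mem_filter.mp hp).2).1, mem_univ _⟩
  · intro w hw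
    have w0 : w ≠ 0 := ne_of_mem_erase hw
    refine mem_filter.mpr ⟨mem_univ _, ?_⟩
    have e1 : w * (m ^ 2 / 4 * w⁻¹) = m ^ 2 / 4 := by field_simp
    have e2 : m ^ 2 / 4 = (m / 2) ^ 2 := by field_simp; norm_num
    have e3 : m = m / 2 + m / 2 := by field_simp; norm_num
    generalize m ^ 2 / 4 * w⁻¹ = w' at e1 ⊢
    rw [e2] at e1
    generalize m / 2 = n at e1 e3 ⊢
    subst e3
    field_simp
    linear_combination (-4) * e1
  · intro p hp
    rw [(key p (mem_filter.mp hp).2).2]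
    ext
    · field_simp; ring
    · field_simp; ring
  · intro w hw
    dsimp only
    generalize m ^ 2 / 4 * w⁻¹ = w'
    field_simp; ring
  · intro p hp
    rw [(key p (mem_filter.mp hp).2).2]
    congr 1
    field_simp; ring

/-- Fourier coefficients of `h ↦ χ (h (h + m))` -/
theorem chi_fourier [Fintype F] (h2 : ¬ IsSquare (-1 : F)) {e : AddChar F ℂ} (he : e.IsPrimitive)
    {m : F} (hm : m ≠ 0) (ξ : F) {κ : ℝ} (h0 : 0 ≤ κ) (hκ : 3 * (Fintype.card F : ℝ) ^ 3 ≤ κ ^ 4) :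
    ‖∑ h : F, ((quadraticChar F (h * (h + m)) : ℤ) : ℂ) * e (ξ * h)‖ ≤ κ := by
  have hc := OTwist_char h2
  have two : (2 : F) ≠ 0 := Ring.two_ne_zero hc
  have e1 : ∀ h : F, ((quadraticChar F (h * (h + m)) : ℤ) : ℂ) * e (ξ * h) =
      (∑ v : F, if v ^ 2 = h * (h + m) then e (ξ * h) else 0) - e (h * ξ) := by
    intro h
    have := quadraticChar_card_sqrts hc (h * (h + m))
    have e2 : {x : F | x ^ 2 = h * (h + m)}.toFinset
        = univ.filter (fun x : F => x ^ 2 = h * (h + m)) := by ext x; simp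
    rw [e2] at this
    have e3 : (((univ.filter (fun x : F => x ^ 2 = h * (h + m))).card : ℕ) : ℂ)
        = ((quadraticChar F (h * (h + m)) : ℤ) : ℂ) + 1 := by exact_mod_cast this
    rw [← sum_filter, sum_const, nsmul_eq_mul, e3, mul_comm h ξ]
    ring
  have e4 : ∑ h : F, ∑ v : F, (if v ^ 2 = h * (h + m) then e (ξ * h) else 0) =
      ∑ w ∈ univ.erase (0 : F), e (ξ * ((w + m ^ 2 / 4 * w⁻¹) / 2 - m / 2)) := by
    rw [← OTwist_conic two hm (fun h => e (ξ * h)), sum_filter, ← univ_product_univ, sum_product]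
  rw [sum_congr rfl fun h _ => e1 h, sum_sub_distrib, e4, sum_char he]
  have q1 : (1 : ℝ) ≤ Fintype.card F := by exact_mod_cast Fintype.card_pos
  by_cases hξ : ξ = 0
  · subst hξ
    have e5 : ((univ.erase (0 : F)).card : ℂ) = Fintype.card F - 1 := by
      rw [card_erase_of_mem (mem_univ _), card_univ, Nat.cast_sub Fintype.card_pos]; simp
    simp only [zero_mul, AddChar.map_zero_eq_one, sum_const, nsmul_eq_mul, mul_one, if_true, e5]
    have : (Fintype.card F : ℂ) - 1 - Fintype.card F = -1 := by ring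
    rw [this, norm_neg, norm_one]
    refine le_of_pow_le_pow_left₀ (n := 4) (by norm_num) h0 ?_
    have := one_le_pow₀ (n := 3) q1
    linarith
  · rw [if_neg hξ, sub_zero]
    have h8 : (8 : F) ≠ 0 := by
      have : (8 : F) = 2 * 2 * 2 := by norm_num
      rw [this]; exact mul_ne_zero (mul_ne_zero two two) two
    have h4 : (4 : F) ≠ 0 := by
      have : (4 : F) = 2 * 2 := by norm_num
      rw [this]; exact mul_ne_zero two two
    have e6 : ∀ w : F, e (ξ * ((w + m ^ 2 / 4 * w⁻¹) / 2 - m / 2)) =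
        e (-(ξ * m / 2)) * e (ξ / 2 * w + ξ * m ^ 2 / 4 / 2 * w⁻¹) := by
      intro w
      rw [← AddChar.map_add_eq_mul]
      congr 1
      ring
    rw [sum_congr rfl fun w _ => e6 w, ← mul_sum, norm_mul, norm_char, one_mul]
    refine le_of_pow_le_pow_left₀ (n := 4) (by norm_num) h0 (le_trans (kloo4 he ?_ ?_) hκ)
    · exact div_ne_zero hξ two
    · exact div_ne_zero (div_ne_zero (mul_ne_zero hξ (pow_ne_zero 2 hm)) h4) two

theorem OTwist_bil [Fintype F] {e : AddChar F ℂ} (he : e.IsPrimitive) (G K : Finset F) (s : F)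
    (φ : F → ℝ) {κ : ℝ} (h0 : 0 ≤ κ) (hφ : ∀ ξ : F, ‖∑ h : F, (φ h : ℂ) * e (ξ * h)‖ ≤ κ) :
    ∑ y : F, ∑ h : F, (if y + h ∈ G ∧ y + s * h ∈ K then φ h else 0) ≤ Fintype.card F * κ := by
  set I : ℝ := ∑ y : F, ∑ h : F, (if y + h ∈ G ∧ y + s * h ∈ K then φ h else 0) with hI
  have e1 : I = ∑ h : F, ∑ a ∈ G, ∑ b ∈ K, (if a - b - (1 - s) * h = 0 then φ h else 0) := by
    rw [hI, sum_comm]
    refine sum_congr rfl fun h _ => ?_
    have e2 : ∀ a : F, ∑ b ∈ K, (if a - b - (1 - s) * h = 0 then φ h else 0)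
        = if a - (1 - s) * h ∈ K then φ h else 0 := by
      intro a
      rw [← sum_ite_eq K (a - (1 - s) * h) fun _ => φ h]
      refine sum_congr rfl fun b _ => if_congr ?_ rfl rfl
      constructor <;> intro hh <;> linear_combination hh
    rw [sum_congr rfl fun a _ => e2 a]
    have e3 : ∑ a ∈ G, (if a - (1 - s) * h ∈ K then φ h else 0)
        = ∑ a : F, (if a ∈ G ∧ a - (1 - s) * h ∈ K then φ h else 0) := by
      simp only [ite_and]
      rw [← sum_filter (fun a => a ∈ G)]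
      simp
    rw [e3, ← Equiv.sum_comp (Equiv.addRight h)
      fun a => if a ∈ G ∧ a - (1 - s) * h ∈ K then φ h else 0]
    refine sum_congr rfl fun y _ => ?_
    have : y + h - (1 - s) * h = y + s * h := by ring
    simp only [Equiv.coe_addRight, this]
  have e4 : (Fintype.card F : ℂ) * (I : ℂ) =
      ∑ ξ : F, fh e G ξ * fh e K (-ξ) * ∑ h : F, (φ h : ℂ) * e (-(ξ * (1 - s)) * h) := by
    have e5 : ∀ ξ : F, fh e G ξ * fh e K (-ξ) * ∑ h : F, (φ h : ℂ) * e (-(ξ * (1 - s)) * h) =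
        ∑ h : F, ∑ a ∈ G, ∑ b ∈ K, (φ h : ℂ) * e (ξ * (a - b - (1 - s) * h)) := by
      intro ξ
      unfold fh
      rw [mul_sum]
      refine sum_congr rfl fun h _ => ?_
      rw [sum_mul_sum, sum_mul]
      refine sum_congr rfl fun a _ => ?_
      rw [sum_mul]
      refine sum_congr rfl fun b _ => ?_
      have : ξ * (a - b - (1 - s) * h) = ξ * a + -ξ * b + -(ξ * (1 - s)) * h := by ring
      rw [this, AddChar.map_add_eq_mul, AddChar.map_add_eq_mul]
      ring
    rw [sum_congr rfl fun ξ _ => e5 ξ, sum_comm, e1]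
    push_cast
    rw [mul_sum]
    refine sum_congr rfl fun h _ => ?_
    rw [sum_comm (s := univ), mul_sum]
    refine sum_congr rfl fun a _ => ?_
    rw [sum_comm (s := univ), mul_sum]
    refine sum_congr rfl fun b _ => ?_
    rw [← mul_sum, sum_char he]
    split_ifs <;> simp [mul_comm]
  have q0 : (0 : ℝ) < Fintype.card F := by exact_mod_cast Fintype.card_pos
  have e6 : (Fintype.card F : ℝ) * |I| ≤ κ * ∑ ξ : F, ‖fh e G ξ‖ * ‖fh e K ξ‖ := by
    have := congrArg norm e4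
    rw [norm_mul, Complex.norm_natCast, Complex.norm_real, Real.norm_eq_abs] at this
    rw [this, mul_sum]
    refine (norm_sum_le _ _).trans (sum_le_sum fun ξ _ => ?_)
    rw [norm_mul, norm_mul, norm_fh_neg, mul_comm κ]
    exact mul_le_mul_of_nonneg_left (hφ _) (by positivity)
  have e7 := sum_mul_sq_le_sq_mul_sq univ (fun ξ => ‖fh e G ξ‖) (fun ξ => ‖fh e K ξ‖)
  rw [parseval he G, parseval he K] at e7
  have cG : (G.card : ℝ) ≤ Fintype.card F := by exact_mod_cast card_le_univ G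
  have cK : (K.card : ℝ) ≤ Fintype.card F := by exact_mod_cast card_le_univ K
  have e8 : ∑ ξ : F, ‖fh e G ξ‖ * ‖fh e K ξ‖ ≤ (Fintype.card F : ℝ) * Fintype.card F := by
    refine le_of_sq_le_sq (e7.trans ?_) (by positivity)
    rw [sq]
    gcongr
  have e9 : (Fintype.card F : ℝ) * I ≤ Fintype.card F * (Fintype.card F * κ) := by
    have h1 := mul_le_mul_of_nonneg_left (le_abs_self I) q0.le
    have h2 := mul_le_mul_of_nonneg_left e8 h0
    nlinarith
  exact le_of_mul_le_mul_left e9 q0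

theorem otwist [Fintype F] {c s : F} {B C D : Finset F} (h : OTrio c B C D) (hs : s ∈ Lam c)
    {κ : ℝ} (h0 : 0 ≤ κ) (hκ : 3 * (Fintype.card F : ℝ) ^ 3 ≤ κ ^ 4) :
    ((Sol s B C D).card : ℝ) ^ 2 ≤ (Fintype.card F : ℝ) ^ 3 * (1 + κ) := by
  obtain ⟨e, he⟩ := exists_char (F := F)
  set χ : F → ℝ := fun x => ((quadraticChar F x : ℤ) : ℝ) with hχ
  obtain ⟨ε, hε, hsign⟩ : ∃ ε : ℝ, ε ^ 2 = 1 ∧ ∀ y ∈ B, ∀ z ∈ C, (1 - s) * y + s * z ∈ D →
      χ (z - y) = ε := by
    rcases (lam_iff_lp h.spl.c0 h.spl.c1).1 hs with h1 | h1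
    · refine ⟨-1, by norm_num, fun y hy z hz hD => ?_⟩
      have : ¬ IsSquare (z - y) := fun hq => h.pos s h1 y hy z hz hq hD
      simp [hχ, quadraticChar_neg_one_iff_not_isSquare.2 this, -quadraticChar_apply]
    · refine ⟨1, by norm_num, fun y hy z hz hD => ?_⟩
      have : IsSquare (z - y) := by
        by_contra hq
        refine h.ngt (1 - s) h1 y hy z hz hq ?_
        rwa [sub_sub_cancel]
      have n0 : z - y ≠ 0 := sub_ne_zero.mpr fun e0 => disjoint_left.mp h.dBC hy (e0 ▸ hz)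
      simp [hχ, (quadraticChar_one_iff_isSquare n0).2 this, -quadraticChar_apply]
  set g : F → ℝ := fun y => ∑ t : F, if y + t ∈ C ∧ y + s * t ∈ D then χ t else 0 with hg
  have e1 : ∑ y ∈ B, g y = ε * (Sol s B C D).card := by
    rw [Sol, card_filter]
    push_cast
    rw [sum_product, mul_sum]
    refine sum_congr rfl fun y hy => ?_
    have e2 : ∑ z ∈ C, (if (1 - s) * y + s * z ∈ D then (1 : ℝ) else 0)
        = ∑ z : F, (if z ∈ C ∧ (1 - s) * y + s * z ∈ D then (1 : ℝ) else 0) := by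
      simp only [ite_and]
      rw [← sum_filter (fun a => a ∈ C)]
      simp
    rw [e2, mul_sum, ← Equiv.sum_comp (Equiv.addLeft y)]
    refine sum_congr rfl fun t _ => ?_
    have e3 : (1 - s) * y + s * (y + t) = y + s * t := by ring
    simp only [Equiv.coe_addLeft, e3]
    split_ifs with h3
    · have := hsign y hy (y + t) h3.1 (e3 ▸ h3.2)
      rw [add_sub_cancel_left] at this
      rw [this, mul_one]
    · simp
  have q0 : (0 : ℝ) < Fintype.card F := by exact_mod_cast Fintype.card_pos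
  have e4 : ((Sol s B C D).card : ℝ) ^ 2 ≤ Fintype.card F * ∑ y : F, g y ^ 2 := by
    have h1 : (∑ y ∈ B, g y) ^ 2 ≤ B.card * ∑ y ∈ B, g y ^ 2 := sq_sum_le_card_mul_sum_sq
    rw [e1, mul_pow, hε, one_mul] at h1
    refine h1.trans (mul_le_mul ?_ ?_ (sum_nonneg fun _ _ => sq_nonneg _) q0.le)
    · exact_mod_cast card_le_univ B
    · exact sum_le_sum_of_subset_of_nonneg (subset_univ B) fun _ _ _ => sq_nonneg _
  set I : F → ℝ := fun m => ∑ y : F, ∑ t : F,
    (if y + t ∈ C.filter (fun a => a + m ∈ C) ∧ y + s * t ∈ D.filter (fun b => b + s * m ∈ D)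
      then χ (t * (t + m)) else 0) with hI
  have e5 : ∑ y : F, g y ^ 2 = ∑ m : F, I m := by
    simp only [hI]
    rw [sum_comm]
    refine sum_congr rfl fun y _ => ?_
    rw [sum_comm, sq, hg, sum_mul_sum]
    refine sum_congr rfl fun t _ => ?_
    rw [← Equiv.sum_comp (Equiv.addLeft t)]
    refine sum_congr rfl fun m _ => ?_
    have e6 : y + s * (t + m) = y + s * t + s * m := by ring
    have e7 : χ (t * (t + m)) = χ t * χ (t + m) := by
      simp only [hχ, map_mul, Int.cast_mul]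
    simp only [Equiv.coe_addLeft, mem_filter, e6, e7, ← add_assoc]
    by_cases a1 : y + t ∈ C <;> by_cases a2 : y + s * t ∈ D <;> by_cases a3 : y + t + m ∈ C <;>
      by_cases a4 : y + s * t + s * m ∈ D <;> simp [a1, a2, a3, a4]
  have χ1 : ∀ x, χ x ≤ 1 := by
    intro x
    rcases quadraticChar_isQuadratic F x with h1 | h1 | h1 <;>
      simp only [hχ, h1] <;> norm_num
  have e8 : I 0 ≤ (Fintype.card F : ℝ) * Fintype.card F := by
    calc I 0 ≤ ∑ _y : F, ∑ _t : F, (1 : ℝ) := by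
          refine sum_le_sum fun y _ => sum_le_sum fun t _ => ?_
          split_ifs
          · exact χ1 _
          · exact zero_le_one
      _ = _ := by simp
  have e9 : ∀ m : F, m ≠ 0 → I m ≤ Fintype.card F * κ := by
    intro m hm
    refine OTwist_bil he _ _ s (fun t => χ (t * (t + m))) h0 fun ξ => ?_
    simpa only [hχ, Complex.ofReal_intCast] using chi_fourier h.spl.neg he hm ξ h0 hκ
  have e10 : ∑ m : F, I m ≤ (Fintype.card F : ℝ) * Fintype.card F
      + Fintype.card F * (Fintype.card F * κ) := by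
    rw [← add_sum_erase _ _ (mem_univ (0 : F))]
    refine add_le_add e8 ?_
    calc ∑ m ∈ univ.erase (0 : F), I m ≤ ∑ _m ∈ univ.erase (0 : F), (Fintype.card F : ℝ) * κ :=
          sum_le_sum fun m hm => e9 m (ne_of_mem_erase hm)
      _ ≤ ∑ _m : F, (Fintype.card F : ℝ) * κ :=
          sum_le_sum_of_subset_of_nonneg (subset_univ _) fun _ _ _ => by positivity
      _ = _ := by simp
  calc ((Sol s B C D).card : ℝ) ^ 2 ≤ Fintype.card F * ∑ m : F, I m := e5 ▸ e4
    _ ≤ Fintype.card F * ((Fintype.card F : ℝ) * Fintype.card F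
      + Fintype.card F * (Fintype.card F * κ)) := mul_le_mul_of_nonneg_left e10 q0.le
    _ = _ := by ring

theorem ofew (M : ℕ) : ∃ q0 : ℕ, ∀ (F : Type) [Field F] [Fintype F] [DecidableEq F],
    q0 ≤ Fintype.card F → ∀ (c s : F) (B C D : Finset F), OTrio c B C D → s ∈ Lam c →
      M * (Sol s B C D).card ≤ Fintype.card F ^ 2 := by
  refine ⟨48 * M ^ 8 + 2 * M ^ 2, fun F _ _ _ hq c s B C D h hs => ?_⟩
  rcases Nat.eq_zero_or_pos M with h0 | h0
  · simp [h0]
  set q : ℝ := (Fintype.card F : ℝ) with hqd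
  have q0 : 0 < q := by rw [hqd]; exact_mod_cast Fintype.card_pos
  have M0 : (0 : ℝ) < M := by exact_mod_cast h0
  have hq1 : 48 * (M : ℝ) ^ 8 + 2 * (M : ℝ) ^ 2 ≤ q := by rw [hqd]; exact_mod_cast hq
  have p8 : (0 : ℝ) < (M : ℝ) ^ 8 := by positivity
  have p2 : (0 : ℝ) < (M : ℝ) ^ 2 := by positivity
  have hk : 3 * q ^ 3 ≤ (q / (2 * (M : ℝ) ^ 2)) ^ 4 := by
    rw [div_pow, le_div_iff₀ (by positivity)]
    have : 48 * (M : ℝ) ^ 8 ≤ q := by linarith
    calc 3 * q ^ 3 * (2 * (M : ℝ) ^ 2) ^ 4 = q ^ 3 * (48 * (M : ℝ) ^ 8) := by ring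
      _ ≤ q ^ 3 * q := mul_le_mul_of_nonneg_left this (by positivity)
      _ = q ^ 4 := by ring
  have h1 := otwist h hs (κ := q / (2 * (M : ℝ) ^ 2)) (by positivity) hk
  rw [← hqd] at h1
  have h2 : (M : ℝ) ^ 2 * (1 + q / (2 * (M : ℝ) ^ 2)) ≤ q := by
    have : (M : ℝ) ^ 2 * (1 + q / (2 * (M : ℝ) ^ 2)) = (M : ℝ) ^ 2 + q / 2 := by field_simp
    rw [this]; linarith
  have h3 : ((M : ℝ) * (Sol s B C D).card) ^ 2 ≤ (q ^ 2) ^ 2 := by
    calc ((M : ℝ) * (Sol s B C D).card) ^ 2 = (M : ℝ) ^ 2 * ((Sol s B C D).card : ℝ) ^ 2 := by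
          ring
      _ ≤ (M : ℝ) ^ 2 * (q ^ 3 * (1 + q / (2 * (M : ℝ) ^ 2))) :=
          mul_le_mul_of_nonneg_left h1 p2.le
      _ = q ^ 3 * ((M : ℝ) ^ 2 * (1 + q / (2 * (M : ℝ) ^ 2))) := by ring
      _ ≤ q ^ 3 * q := mul_le_mul_of_nonneg_left h2 (by positivity)
      _ = (q ^ 2) ^ 2 := by ring
  have h4 := le_of_sq_le_sq h3 (by positivity)
  rw [hqd] at h4
  exact_mod_cast h4

end Pool.Agent.P.MP_862e21_al
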