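import Pool.Agent.P.MP_862e21_al.Basic

namespace Pool.Agent.P.MP_862e21_al

open Finset Pointwise

variable {F : Type*} [Field F] [DecidableEq F]

theorem span2 (h2 : (2 : F) = 0) {S : Finset F} {K : ℕ} (h0 : (0 : F) ∈ S)
    (h : (S + S + S + S).card ≤ K * S.card) :
    ∃ T : Finset F, T.card ≤ K ∧ T ⊆ S + S + S ∧ ∀ v ∈ AddSubgroup.closure (S : Set F),
      ∃ U ⊆ T, ∃ x ∈ S, ∃ y ∈ S, v = ∑ w ∈ U, w + x + y := by
  obtain ⟨T, hT, hK, hc⟩ := ruzsa_covering_add (A := S + S + S) (B := S) (K := (K : ℝ)) ⟨0, h0⟩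
    (by exact_mod_cast h)
  refine ⟨T, by exact_mod_cast hK, hT, ?_⟩
  have step : ∀ s ∈ S, ∀ u : F, (∃ U ⊆ T, ∃ x ∈ S, ∃ y ∈ S, u = ∑ w ∈ U, w + x + y) →
      ∃ U ⊆ T, ∃ x ∈ S, ∃ y ∈ S, u + s = ∑ w ∈ U, w + x + y := by
    rintro s hs u ⟨U, hU, x, hx, y, hy, rfl⟩
    obtain ⟨w', hw', d, hd, e⟩ := mem_add.mp (hc (add_mem_add (add_mem_add hx hy) hs))
    obtain ⟨x', hx', y', hy', rfl⟩ := mem_sub.mp hd
    by_cases hw : w' ∈ U
    · refine ⟨U.erase w', (erase_subset _ _).trans hU, x', hx', y', hy', ?_⟩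
      have := add_sum_erase U (fun w => w) hw
      linear_combination -this - e + (w' - y') * h2
    · refine ⟨insert w' U, insert_subset hw' hU, x', hx', y', hy', ?_⟩
      rw [sum_insert hw]
      linear_combination -e - y' * h2
  have key : ∀ v ∈ AddSubgroup.closure (S : Set F), ∀ u : F,
      (∃ U ⊆ T, ∃ x ∈ S, ∃ y ∈ S, u = ∑ w ∈ U, w + x + y) →
      ∃ U ⊆ T, ∃ x ∈ S, ∃ y ∈ S, u + v = ∑ w ∈ U, w + x + y := by
    intro v hv
    induction hv using AddSubgroup.closure_induction with
    | mem s hs => exact step s hs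
    | zero => intro u hu; simpa using hu
    | add a b _ _ iha ihb =>
      intro u hu
      rw [← add_assoc]
      exact ihb _ (iha u hu)
    | neg a _ iha =>
      have : -a = a := by linear_combination -a * h2
      rw [this]
      exact iha
  intro v hv
  have := key v hv 0 ⟨∅, empty_subset _, 0, h0, 0, h0, by simp⟩
  rwa [zero_add] at this

theorem card_span2 (h2 : (2 : F) = 0) {S : Finset F} {K : ℕ} (h0 : (0 : F) ∈ S)
    (h : (S + S + S + S).card ≤ K * S.card) :
    Nat.card (AddSubgroup.closure (S : Set F)) ≤ 2 ^ K * (S + S).card := by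
  obtain ⟨T, hK, -, hT⟩ := span2 h2 h0 h
  set I : Finset F := (T.powerset ×ˢ (S + S)).image (fun p => ∑ w ∈ p.1, w + p.2) with hI
  have sub : (AddSubgroup.closure (S : Set F) : Set F) ⊆ (I : Set F) := by
    intro v hv
    obtain ⟨U, hU, x, hx, y, hy, rfl⟩ := hT v hv
    refine mem_coe.mpr (mem_image.mpr ⟨(U, x + y), ?_, by simp only [add_assoc]⟩)
    exact mem_product.mpr ⟨mem_powerset.mpr hU, add_mem_add hx hy⟩
  calc Nat.card (AddSubgroup.closure (S : Set F))
      = (AddSubgroup.closure (S : Set F) : Set F).ncard := Nat.card_coe_set_eq _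
    _ ≤ (I : Set F).ncard := Set.ncard_le_ncard sub I.finite_toSet
    _ = I.card := Set.ncard_coe_finset I
    _ ≤ (T.powerset ×ˢ (S + S)).card := card_image_le
    _ = 2 ^ T.card * (S + S).card := by rw [card_product, card_powerset]
    _ ≤ 2 ^ K * (S + S).card := Nat.mul_le_mul_right _ (Nat.pow_le_pow_right (by norm_num) hK)

/-- the tower of subgroups `V + t V + ... + t ^ k V` -/
def tower2 (t : F) (V : AddSubgroup F) : ℕ → AddSubgroup F
  | 0 => V
  | k + 1 => V ⊔ (tower2 t V k).map (AddMonoidHom.mulLeft t)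

omit [DecidableEq F] in
theorem le_tower2 (t : F) (V : AddSubgroup F) (k : ℕ) : V ≤ tower2 t V k := by
  cases k with
  | zero => exact le_rfl
  | succ k => exact le_sup_left

omit [DecidableEq F] in
theorem tower2_le (t : F) (V : AddSubgroup F) (k : ℕ) : tower2 t V k ≤ tower2 t V (k + 1) := by
  induction k with
  | zero => exact le_sup_left
  | succ k ih => exact sup_le_sup_left (AddSubgroup.map_mono ih) V

omit [DecidableEq F] in
theorem tower2_size {t : F} {V : AddSubgroup F} {ν : F → ℕ} (add : ∀ h k, ν (h + k) ≤ ν h + ν k)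
    (mul : ∀ h, ν (t * h) ≤ ν h + 1) {r : ℕ} (hV : ∀ v ∈ V, ν v ≤ r) (k : ℕ) :
    ∀ v ∈ tower2 t V k, ν v ≤ r * (k + 1) + k := by
  induction k with
  | zero => intro v hv; simpa using hV v hv
  | succ k ih =>
    intro v hv
    obtain ⟨y, hy, z, hz, rfl⟩ := AddSubgroup.mem_sup.mp hv
    obtain ⟨z', hz', rfl⟩ := AddSubgroup.mem_map.mp hz
    have a1 := add y (t * z')
    have a2 := mul z'
    have a3 := hV y hy
    have a4 := ih z' hz'
    have e : r * (k + 1 + 1) = r * (k + 1) + r := by ring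
    change ν (y + t * z') ≤ _
    omega

theorem grow2 [Fintype F] (h2 : (2 : F) = 0) (hI : Irr F) {t : F} (ht0 : t ≠ 0) (ht1 : t ≠ 1)
    {ν : F → ℕ} (zero : ν 0 = 0) (add : ∀ h k, ν (h + k) ≤ ν h + ν k)
    (mul : ∀ h, ν (t * h) ≤ ν h + 1) {m : ℕ} (hm : 1 ≤ m) (h1 : 2 ≤ (lev ν m).card)
    (hq : (lev ν (350 * m)).card < Fintype.card F) :
    8 * (lev ν m).card ≤ (lev ν (4 * m)).card ∨
      700 * (lev ν m).card ≤ (lev ν (350 * m)).card := by
  by_cases hlt : 8 * (lev ν m).card ≤ (lev ν (4 * m)).card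
  · exact Or.inl hlt
  right
  set S := lev ν m with hS
  have hS0 : (0 : F) ∈ S := mem_lev.mpr (by omega)
  have n3 : ∀ w ∈ S + S + S, ν w ≤ 3 * m := by
    intro w hw
    obtain ⟨p, hp, z, hz, rfl⟩ := mem_add.mp hw
    obtain ⟨x, hx, y, hy, rfl⟩ := mem_add.mp hp
    have := add (x + y) z
    have := add x y
    have := mem_lev.mp hx
    have := mem_lev.mp hy
    have := mem_lev.mp hz
    omega
  have n4 : S + S + S + S ⊆ lev ν (4 * m) := by
    intro w hw
    obtain ⟨p, hp, z, hz, rfl⟩ := mem_add.mp hw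
    have := add p z
    have := n3 p hp
    have := mem_lev.mp hz
    exact mem_lev.mpr (by omega)
  obtain ⟨T, hK, hT, hc⟩ := span2 (K := 8) h2 hS0 (by have := card_le_card n4; omega)
  have nsum : ∀ U : Finset F, U ⊆ T → ν (∑ w ∈ U, w) ≤ U.card * (3 * m) := by
    intro U
    induction U using Finset.induction_on with
    | empty => intro _; simp [zero]
    | insert w U hw ih =>
      intro hU
      rw [sum_insert hw, card_insert_of_notMem hw]
      have a1 := add w (∑ w ∈ U, w)
      have a2 := ih ((subset_insert _ _).trans hU)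
      have a3 := n3 w (hT (hU (mem_insert_self _ _)))
      have e : (U.card + 1) * (3 * m) = U.card * (3 * m) + 3 * m := by ring
      omega
  set V := AddSubgroup.closure (S : Set F) with hVd
  have hV : ∀ v ∈ V, ν v ≤ 26 * m := by
    intro v hv
    obtain ⟨U, hU, x, hx, y, hy, rfl⟩ := hc v hv
    have a1 := add (∑ w ∈ U, w + x) y
    have a2 := add (∑ w ∈ U, w) x
    have a3 := nsum U hU
    have a4 : U.card * (3 * m) ≤ 8 * (3 * m) :=
      Nat.mul_le_mul_right _ ((card_le_card hU).trans hK)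
    have := mem_lev.mp hx
    have := mem_lev.mp hy
    omega
  have hW : ∀ k ≤ 10, ∀ v ∈ tower2 t V k, v ∈ lev ν (350 * m) := by
    intro k hk v hv
    have a1 := tower2_size add mul hV k v hv
    have a2 : 26 * m * (k + 1) ≤ 26 * m * 11 := Nat.mul_le_mul_left _ (by omega)
    exact mem_lev.mpr (by omega)
  obtain ⟨s, hs, s0⟩ : ∃ s ∈ S, s ≠ 0 := exists_mem_ne (by omega) 0
  have dbl : ∀ k ≤ 10, 2 * Nat.card (tower2 t V k) ≤ Nat.card (tower2 t V (k + 1)) := by
    intro k hk
    have hle := tower2_le t V k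
    have hne : ¬ Nat.card (tower2 t V (k + 1)) ≤ Nat.card (tower2 t V k) := by
      intro hc'
      have e := AddSubgroup.eq_of_le_of_card_ge hle hc'
      have inv : ∀ h ∈ tower2 t V k, t * h ∈ tower2 t V k := by
        intro h hh
        rw [e]
        exact AddSubgroup.mem_sup_right (AddSubgroup.mem_map.mpr ⟨h, hh, rfl⟩)
      rcases hI _ t ht0 ht1 inv with hb | hb
      · have : s ∈ tower2 t V k := le_tower2 t V k (AddSubgroup.subset_closure (mem_coe.mpr hs))
        rw [hb] at this
        exact s0 (AddSubgroup.mem_bot.mp this)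
      · have : (univ : Finset F) ⊆ lev ν (350 * m) := fun v _ =>
          hW k hk v (by rw [hb]; exact AddSubgroup.mem_top v)
        have := card_le_card this
        rw [card_univ] at this
        omega
    obtain ⟨c, hc'⟩ := AddSubgroup.card_dvd_of_le hle
    have pos : 0 < Nat.card (tower2 t V (k + 1)) := Nat.card_pos
    rcases c with _ | _ | c
    · omega
    · omega
    · rw [hc']
      nlinarith [Nat.zero_le (Nat.card (tower2 t V k) * c)]
  have pw : ∀ k ≤ 10, 2 ^ k * S.card ≤ Nat.card (tower2 t V k) := by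
    intro k
    induction k with
    | zero =>
      intro _
      have : (S : Set F) ⊆ (V : Set F) := AddSubgroup.subset_closure
      have a1 := Set.ncard_le_ncard this (Set.toFinite _)
      rw [Set.ncard_coe_finset] at a1
      have a2 : Nat.card (tower2 t V 0) = (V : Set F).ncard := Nat.card_coe_set_eq _
      omega
    | succ k ih =>
      intro hk
      have a1 := ih (by omega)
      have a2 := dbl k (by omega)
      have e : 2 ^ (k + 1) * S.card = 2 * (2 ^ k * S.card) := by ring
      omega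
  have a1 := pw 10 le_rfl
  have a2 : Nat.card (tower2 t V 10) ≤ (lev ν (350 * m)).card := by
    have sub : (tower2 t V 10 : Set F) ⊆ (lev ν (350 * m) : Set F) := fun v hv =>
      mem_coe.mpr (hW 10 le_rfl v hv)
    have a3 := Set.ncard_le_ncard sub (Set.toFinite _)
    rw [Set.ncard_coe_finset] at a3
    have a4 : Nat.card (tower2 t V 10) = (tower2 t V 10 : Set F).ncard := Nat.card_coe_set_eq _
    omega
  omega

end Pool.Agent.P.MP_862e21_al
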